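import Pool.Agent.W_MP_24dbe6_h58.GeoComm

set_option autoImplicit false

/-!
Conjugacy of unit quaternions.
-/

namespace Pool.Agent.W24dbe6

open Quaternion

/-- the squared components of a unit quaternion add up to one -/
theorem GeoConj.sq_of_U {x : H} (hx : U x) :
    x.re ^ 2 + x.imI ^ 2 + x.imJ ^ 2 + x.imK ^ 2 = 1 := by
  have h := Quaternion.normSq_def' x
  rw [Quaternion.normSq_eq_norm_mul_self] at h
  have h1 : ‖x‖ = 1 := hx
  rw [h1] at h
  linarith

/-- normalising an intertwiner -/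
theorem GeoConj.normalize {x y g : H} (hg : g ≠ 0) (h : g * x = y * g) :
    U ((‖g‖⁻¹ : ℝ) • g) ∧ cj ((‖g‖⁻¹ : ℝ) • g) x = y := by
  have hn : ‖g‖ ≠ 0 := norm_ne_zero_iff.mpr hg
  have hU : U ((‖g‖⁻¹ : ℝ) • g) := by
    unfold U
    rw [norm_smul, norm_inv, norm_norm, inv_mul_cancel₀ hn]
  refine ⟨hU, ?_⟩
  have h2 : ((‖g‖⁻¹ : ℝ) • g) * x = y * ((‖g‖⁻¹ : ℝ) • g) := by
    rw [smul_mul_assoc, h, mul_smul_comm]
  unfold cj
  rw [h2, mul_assoc, U_mul_star hU, mul_one]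

/-- the square of the imaginary part -/
theorem GeoConj.im_sq (x : H) :
    x.im * x.im = -(((x.imI ^ 2 + x.imJ ^ 2 + x.imK ^ 2 : ℝ)) : H) := by
  obtain ⟨S, hS⟩ : ∃ S : ℝ, S = x.imI ^ 2 + x.imJ ^ 2 + x.imK ^ 2 := ⟨_, rfl⟩
  rw [← hS]
  ext <;> simp <;> first | linear_combination hS | ring

/-- the intertwiner `S - v u` -/
theorem GeoConj.inter {x y : H} {S : ℝ} (hu : x.im * x.im = -(S : H))
    (hv : y.im * y.im = -(S : H)) (h : x.re = y.re) :
    ((S : H) - y.im * x.im) * x = y * ((S : H) - y.im * x.im) := by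
  have hx : x = (x.re : H) + x.im := by
    ext <;> simp
  have hy : y = (x.re : H) + y.im := by
    rw [h]; ext <;> simp
  have hc : ((x.re : ℝ) : H) * ((S : H) - y.im * x.im) = ((S : H) - y.im * x.im) * (x.re : H) :=
    Quaternion.coe_commutes _ _
  have hS : ((S : ℝ) : H) * x.im = x.im * (S : H) := Quaternion.coe_commutes _ _
  have e1 : ((S : H) - y.im * x.im) * x.im = (S : H) * x.im + y.im * (S : H) := by
    rw [sub_mul, mul_assoc, hu]; simp
  have e2 : y.im * ((S : H) - y.im * x.im) = y.im * (S : H) + (S : H) * x.im := by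
    rw [mul_sub, ← mul_assoc, hv]; simp
  calc ((S : H) - y.im * x.im) * x
      = ((S : H) - y.im * x.im) * (x.re : H) + ((S : H) - y.im * x.im) * x.im := by
        conv_lhs => rw [hx]
        simp only [mul_add]
        simp
    _ = (x.re : H) * ((S : H) - y.im * x.im) + y.im * ((S : H) - y.im * x.im) := by
        rw [e1, e2, hc, add_comm (y.im * (S : H))]
    _ = y * ((S : H) - y.im * x.im) := by
        rw [← add_mul, ← hy]

/-- Units with the same real part are conjugate.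
Proof: `u = x.im`, `v = y.im`, `s² = |u|² = |v|²`. If `v ≠ -u` take `g = (s² - v u) / |s² - v u|`
(then `g u = v g`, because `u u = v v = -s²`). If `v = -u ≠ 0` take a pure unit orthogonal to `u`.
If `u = 0` then `x = y`. -/
theorem conj_of_re {x y : H} (hx : U x) (hy : U y) (h : x.re = y.re) : ∃ g, U g ∧ cj g x = y := by
  have hx2 := GeoConj.sq_of_U hx
  have hy2 := GeoConj.sq_of_U hy
  have hS : y.imI ^ 2 + y.imJ ^ 2 + y.imK ^ 2 = x.imI ^ 2 + x.imJ ^ 2 + x.imK ^ 2 := by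
    rw [h] at hx2; linarith
  have hu := GeoConj.im_sq x
  have hv := GeoConj.im_sq y
  rw [hS] at hv
  have hg := GeoConj.inter hu hv h
  by_cases h0 : (((x.imI ^ 2 + x.imJ ^ 2 + x.imK ^ 2 : ℝ)) : H) - y.im * x.im = 0
  · -- then `v (u + v) = 0`
    have h1 : y.im * (x.im + y.im) = 0 := by
      rw [mul_add, hv, ← sub_eq_add_neg, sub_eq_zero]
      exact (sub_eq_zero.mp h0).symm
    rcases mul_eq_zero.mp h1 with h2 | h2
    · -- `y` central
      have h3 : y.imI = 0 ∧ y.imJ = 0 ∧ y.imK = 0 := by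
        have := h2
        rw [Quaternion.ext_iff] at this
        simpa using this
      obtain ⟨a1, a2, a3⟩ := h3
      rw [a1, a2, a3] at hS
      have b1 : x.imI = 0 := by nlinarith [sq_nonneg x.imI, sq_nonneg x.imJ, sq_nonneg x.imK]
      have b2 : x.imJ = 0 := by nlinarith [sq_nonneg x.imI, sq_nonneg x.imJ, sq_nonneg x.imK]
      have b3 : x.imK = 0 := by nlinarith [sq_nonneg x.imI, sq_nonneg x.imJ, sq_nonneg x.imK]
      refine ⟨1, U_one, ?_⟩
      rw [cj_one_left]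
      ext
      · exact h
      · rw [a1, b1]
      · rw [a2, b2]
      · rw [a3, b3]
    · -- `v = -u`
      have h3 : x.imI + y.imI = 0 ∧ x.imJ + y.imJ = 0 ∧ x.imK + y.imK = 0 := by
        have := h2
        rw [Quaternion.ext_iff] at this
        simpa using this
      obtain ⟨a1, a2, a3⟩ := h3
      by_cases hc : x.imI = 0 ∧ x.imJ = 0
      · -- `w = i`
        obtain ⟨c1, c2⟩ := hc
        have y1 : y.imI = -x.imI := by linarith
        have y2 : y.imJ = -x.imJ := by linarith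
        have y3 : y.imK = -x.imK := by linarith
        obtain ⟨w, hwd⟩ : ∃ w : H, w = ⟨0, 1, 0, 0⟩ := ⟨_, rfl⟩
        have hw : w ≠ 0 := by
          intro hh
          rw [hwd, Quaternion.ext_iff] at hh
          simp at hh
        have hgx : w * x = y * w := by
          rw [hwd]
          ext <;> simp [y1, y2, y3, ← h, c1, c2]
        exact ⟨_, (GeoConj.normalize hw hgx).1, (GeoConj.normalize hw hgx).2⟩
      · obtain ⟨w, hwd⟩ : ∃ w : H, w = ⟨0, -x.imJ, x.imI, 0⟩ := ⟨_, rfl⟩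
        have hw : w ≠ 0 := by
          intro hh
          rw [hwd, Quaternion.ext_iff] at hh
          simp at hh
          exact hc ⟨hh.2, hh.1⟩
        have y1 : y.imI = -x.imI := by linarith
        have y2 : y.imJ = -x.imJ := by linarith
        have y3 : y.imK = -x.imK := by linarith
        have hgx : w * x = y * w := by
          rw [hwd]
          ext <;> simp [y1, y2, y3, ← h] <;> ring
        exact ⟨_, (GeoConj.normalize hw hgx).1, (GeoConj.normalize hw hgx).2⟩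
  · exact ⟨_, (GeoConj.normalize h0 hg).1, (GeoConj.normalize h0 hg).2⟩

/-- nearby conjugates of a non-central unit are conjugate by a `g` close to `1` (same formula) -/
theorem conj_near {x : H} (hx : U x) (hn : NC x) {ε : ℝ} (hε : 0 < ε) :
    ∃ δ : ℝ, 0 < δ ∧ ∀ y : H, U y → y.re = x.re → dist x y < δ →
      ∃ g, U g ∧ cj g x = y ∧ dist g 1 < ε := by
  have hs : 0 < ‖x.im‖ := norm_pos_iff.mpr hn
  set s := ‖x.im‖ with hsdef
  refine ⟨min s (s * ε), lt_min hs (mul_pos hs hε), ?_⟩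
  intro y hy hre hd
  have hd1 : dist x y < s := lt_of_lt_of_le hd (min_le_left _ _)
  have hd2 : dist x y < s * ε := lt_of_lt_of_le hd (min_le_right _ _)
  have hx2 := GeoConj.sq_of_U hx
  have hy2 := GeoConj.sq_of_U hy
  have hS : y.imI ^ 2 + y.imJ ^ 2 + y.imK ^ 2 = x.imI ^ 2 + x.imJ ^ 2 + x.imK ^ 2 := by
    rw [hre] at hy2; linarith
  have hSs : x.imI ^ 2 + x.imJ ^ 2 + x.imK ^ 2 = s ^ 2 := by
    have h1 := Quaternion.normSq_def' x.im
    rw [Quaternion.normSq_eq_norm_mul_self] at h1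
    simp at h1
    rw [hsdef, sq ‖x.im‖]
    exact h1.symm
  have hu := GeoConj.im_sq x
  have hv := GeoConj.im_sq y
  rw [hS] at hv
  rw [hSs] at hu hv
  have hg := GeoConj.inter hu hv hre.symm
  set g : H := ((s ^ 2 : ℝ) : H) - y.im * x.im with hgdef
  have hxy : ‖y.im - x.im‖ = dist x y := by
    rw [dist_comm, dist_eq_norm]
    congr 1
    ext <;> simp [hre]
  -- `g = 2 s² - (v - u) u`
  have hg2 : g - ((2 * s ^ 2 : ℝ) : H) = -((y.im - x.im) * x.im) := by
    rw [hgdef, sub_mul, hu]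
    have : ((2 * s ^ 2 : ℝ) : H) = ((s ^ 2 : ℝ) : H) + ((s ^ 2 : ℝ) : H) := by
      rw [← Quaternion.coe_add]; congr 1; ring
    rw [this]
    abel
  have hb : ‖g - ((2 * s ^ 2 : ℝ) : H)‖ = dist x y * s := by
    rw [hg2, norm_neg, norm_mul, hxy]
  have hn2 : ‖((2 * s ^ 2 : ℝ) : H)‖ = 2 * s ^ 2 := by
    rw [Quaternion.norm_coe]
    rw [Real.norm_eq_abs, abs_of_pos (by positivity)]
  have hgn : |‖g‖ - 2 * s ^ 2| ≤ dist x y * s := by
    rw [← hb]
    nth_rewrite 1 [← hn2]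
    exact abs_norm_sub_norm_le _ _
  have hgpos : 0 < ‖g‖ := by
    have := (abs_le.mp hgn).1
    nlinarith [dist_nonneg (x := x) (y := y)]
  have hg0 : g ≠ 0 := norm_pos_iff.mp hgpos
  obtain ⟨n1, n2⟩ := GeoConj.normalize hg0 hg
  refine ⟨_, n1, n2, ?_⟩
  have e1 : (‖g‖⁻¹ : ℝ) • g - 1 = ((‖g‖⁻¹ - (2 * s ^ 2)⁻¹ : ℝ)) • g
      + ((2 * s ^ 2)⁻¹ : ℝ) • (g - ((2 * s ^ 2 : ℝ) : H)) := by
    have : ((2 * s ^ 2)⁻¹ : ℝ) • ((2 * s ^ 2 : ℝ) : H) = 1 := by
      rw [← Quaternion.coe_mul_eq_smul, ← Quaternion.coe_mul, inv_mul_cancel₀ (by positivity)]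
      simp
    rw [smul_sub (2 * s ^ 2)⁻¹ g, this, sub_smul]
    abel
  rw [dist_eq_norm, e1]
  have e2 : ‖((‖g‖⁻¹ - (2 * s ^ 2)⁻¹ : ℝ)) • g‖ ≤ (2 * s ^ 2)⁻¹ * (dist x y * s) := by
    rw [norm_smul, Real.norm_eq_abs]
    have : |‖g‖⁻¹ - (2 * s ^ 2)⁻¹| * ‖g‖ = (2 * s ^ 2)⁻¹ * |‖g‖ - 2 * s ^ 2| := by
      rw [← abs_of_pos hgpos, ← abs_mul, abs_of_pos hgpos]
      rw [← abs_of_pos (show (0 : ℝ) < (2 * s ^ 2)⁻¹ by positivity), ← abs_mul,
        abs_of_pos (show (0 : ℝ) < (2 * s ^ 2)⁻¹ by positivity), ← abs_neg]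
      congr 1
      field_simp
      ring
    rw [this]
    exact mul_le_mul_of_nonneg_left hgn (by positivity)
  have e3 : ‖((2 * s ^ 2)⁻¹ : ℝ) • (g - ((2 * s ^ 2 : ℝ) : H))‖ = (2 * s ^ 2)⁻¹ * (dist x y * s) := by
    rw [norm_smul, hb, Real.norm_eq_abs, abs_of_pos (by positivity)]
  calc _ ≤ (2 * s ^ 2)⁻¹ * (dist x y * s) + (2 * s ^ 2)⁻¹ * (dist x y * s) :=
        (norm_add_le _ _).trans (add_le_add e2 e3.le)
    _ = dist x y / s := by
        field_simp
        ring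
    _ < ε := by
        rw [div_lt_iff₀ hs]; linarith

end Pool.Agent.W24dbe6
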