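import Pool.Agent.W_MP_24dbe6_h58.GeoComm

set_option autoImplicit false

/-!
Existence of pairs with given angles and product.
-/

namespace Pool.Agent.W24dbe6

open Quaternion

private theorem geoEx_U_iff {x : H} :
    U x ↔ x.re ^ 2 + x.imI ^ 2 + x.imJ ^ 2 + x.imK ^ 2 = 1 := by
  unfold U
  rw [← Quaternion.normSq_def', Quaternion.normSq_eq_norm_mul_self]
  constructor
  · intro h
    rw [h, one_mul]
  · intro h
    have h0 : 0 ≤ ‖x‖ := norm_nonneg x
    nlinarith

private theorem geoEx_orth (p q r : ℝ) :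
    ∃ u v w : ℝ, u ^ 2 + v ^ 2 + w ^ 2 = 1 ∧ u * p + v * q + w * r = 0 := by
  by_cases h : p ^ 2 + q ^ 2 = 0
  · have hp : p = 0 := by nlinarith [sq_nonneg p, sq_nonneg q]
    exact ⟨1, 0, 0, by norm_num, by rw [hp]; ring⟩
  · have hpos : 0 < p ^ 2 + q ^ 2 := lt_of_le_of_ne (by positivity) (Ne.symm h)
    have hs : Real.sqrt (p ^ 2 + q ^ 2) ^ 2 = p ^ 2 + q ^ 2 := Real.sq_sqrt hpos.le
    have hne : Real.sqrt (p ^ 2 + q ^ 2) ≠ 0 := (Real.sqrt_pos.mpr hpos).ne'
    refine ⟨-q / Real.sqrt (p ^ 2 + q ^ 2), p / Real.sqrt (p ^ 2 + q ^ 2), 0, ?_, ?_⟩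
    · rw [div_pow, div_pow, hs]
      field_simp
      ring
    · field_simp
      ring

/-- existence: for a unit `P` and angles `a`, `b` satisfying the triangle inequalities with `ang P`
there are units of angles `a`, `b` with product `P`.  (If `P` is `1` or `-1` the inequalities force
`a = b` resp. `a + b = π`.  Otherwise `P = cos φ + sin φ u`; look for `x = p + q` with
`p = cos a + s u`, `s = (cos b - cos a cos φ) / sin φ`, and `q` orthogonal to `1, u` with
`|q|² = 1 - |p|² ≥ 0`; `y = star x * P`.) -/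
theorem exists_mul {a b : ℝ} {P : H} (hP : U P) (ha : 0 ≤ a ∧ a ≤ Real.pi)
    (hb : 0 ≤ b ∧ b ≤ Real.pi) (h : Tri a b (ang P)) :
    ∃ x y : H, U x ∧ U y ∧ x.re = Real.cos a ∧ y.re = Real.cos b ∧ x * y = P := by
  -- reduce to finding `x` with prescribed inner product
  suffices hx : ∃ x : H, U x ∧ x.re = Real.cos a ∧
      x.re * P.re + x.imI * P.imI + x.imJ * P.imJ + x.imK * P.imK = Real.cos b by
    obtain ⟨x, hx, hxa, hxb⟩ := hx
    refine ⟨x, star x * P, hx, U_mul (U_star hx) hP, hxa, ?_, ?_⟩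
    · rw [← hxb, Quaternion.re_mul]
      simp only [Quaternion.re_star, Quaternion.imI_star, Quaternion.imJ_star,
        Quaternion.imK_star]
      ring
    · rw [← mul_assoc, U_mul_star hx, one_mul]
  have hcos : Real.cos (ang P) = P.re := U_cos_ang hP
  obtain ⟨hφ0, hφπ⟩ := ang_mem P
  obtain ⟨h1, h2, h3, h4⟩ := h
  set φ : ℝ := ang P with hφ
  have hPn := geoEx_U_iff.mp hP
  obtain ⟨u, v, w, huvw, horth⟩ := geoEx_orth P.imI P.imJ P.imK
  have hsina : 0 ≤ Real.sin a := Real.sin_nonneg_of_nonneg_of_le_pi ha.1 ha.2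
  have hsinφ : 0 ≤ Real.sin φ := Real.sin_nonneg_of_nonneg_of_le_pi hφ0 hφπ
  -- the two cosine inequalities
  have hup : Real.cos b ≤ Real.cos (a - φ) := by
    rw [← Real.cos_abs (a - φ)]
    apply Real.cos_le_cos_of_nonneg_of_le_pi (abs_nonneg _) hb.2
    rw [abs_le]
    constructor <;> linarith
  have hlow : Real.cos (a + φ) ≤ Real.cos b := by
    rcases le_total (a + φ) Real.pi with hle | hle
    · exact Real.cos_le_cos_of_nonneg_of_le_pi hb.1 hle (by linarith)
    · rw [← Real.cos_two_pi_sub (a + φ)]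
      exact Real.cos_le_cos_of_nonneg_of_le_pi hb.1 (by linarith) (by linarith)
  rw [Real.cos_sub, hcos] at hup
  rw [Real.cos_add, hcos] at hlow
  set A : ℝ := Real.cos a with hA
  set B : ℝ := Real.cos b with hB
  have hsA : Real.sin a ^ 2 = 1 - A ^ 2 := by
    have := Real.sin_sq_add_cos_sq a
    linarith
  have hsφ : Real.sin φ ^ 2 = 1 - P.re ^ 2 := by
    have := Real.sin_sq_add_cos_sq φ
    rw [hcos] at this
    linarith
  have hsq : (B - A * P.re) ^ 2 ≤ (1 - A ^ 2) * (1 - P.re ^ 2) := by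
    rw [← hsA, ← hsφ, ← mul_pow]
    apply sq_le_sq'
    · linarith
    · linarith
  by_cases hz : 1 - P.re ^ 2 = 0
  · -- central case
    have hzero : B = A * P.re := by
      have : (B - A * P.re) ^ 2 ≤ 0 := by rw [hz, mul_zero] at hsq; exact hsq
      nlinarith [sq_nonneg (B - A * P.re)]
    have hI : P.imI = 0 := by nlinarith [sq_nonneg P.imI, sq_nonneg P.imJ, sq_nonneg P.imK]
    have hJ : P.imJ = 0 := by nlinarith [sq_nonneg P.imI, sq_nonneg P.imJ, sq_nonneg P.imK]
    have hK : P.imK = 0 := by nlinarith [sq_nonneg P.imI, sq_nonneg P.imJ, sq_nonneg P.imK]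
    refine ⟨⟨A, Real.sin a, 0, 0⟩, geoEx_U_iff.mpr ?_, rfl, ?_⟩
    · simp only
      linarith
    · simp only [hI, hJ, hK]
      linarith
  · have hpos : 0 < 1 - P.re ^ 2 := by
      have : 0 ≤ 1 - P.re ^ 2 := by
        nlinarith [sq_nonneg P.imI, sq_nonneg P.imJ, sq_nonneg P.imK]
      exact lt_of_le_of_ne this (Ne.symm hz)
    set N : ℝ := 1 - P.re ^ 2 with hN
    have hNsum : P.imI ^ 2 + P.imJ ^ 2 + P.imK ^ 2 = N := by rw [hN]; linarith
    set t : ℝ := (B - A * P.re) / N with ht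
    have htN : t * N = B - A * P.re := by rw [ht]; field_simp
    have htt : t ^ 2 * N ≤ 1 - A ^ 2 := by
      have : t ^ 2 * N * N ≤ (1 - A ^ 2) * N := by
        calc t ^ 2 * N * N = (t * N) ^ 2 := by ring
          _ = (B - A * P.re) ^ 2 := by rw [htN]
          _ ≤ _ := hsq
      exact le_of_mul_le_mul_right this hpos
    have hr : Real.sqrt (1 - A ^ 2 - t ^ 2 * N) ^ 2 = 1 - A ^ 2 - t ^ 2 * N :=
      Real.sq_sqrt (by linarith)
    set r : ℝ := Real.sqrt (1 - A ^ 2 - t ^ 2 * N) with hrdef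
    refine ⟨⟨A, t * P.imI + r * u, t * P.imJ + r * v, t * P.imK + r * w⟩,
      geoEx_U_iff.mpr ?_, rfl, ?_⟩
    · simp only
      have e : A ^ 2 + (t * P.imI + r * u) ^ 2 + (t * P.imJ + r * v) ^ 2 +
          (t * P.imK + r * w) ^ 2 = A ^ 2 + t ^ 2 * (P.imI ^ 2 + P.imJ ^ 2 + P.imK ^ 2) +
          r ^ 2 * (u ^ 2 + v ^ 2 + w ^ 2) +
          2 * t * r * (u * P.imI + v * P.imJ + w * P.imK) := by ring
      rw [e, hNsum, huvw, horth, hr]
      ring
    · simp only
      have e : A * P.re + (t * P.imI + r * u) * P.imI + (t * P.imJ + r * v) * P.imJ +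
          (t * P.imK + r * w) * P.imK = A * P.re + t * (P.imI ^ 2 + P.imJ ^ 2 + P.imK ^ 2) +
          r * (u * P.imI + v * P.imJ + w * P.imK) := by ring
      rw [e, hNsum, horth, htN]
      ring

end Pool.Agent.W24dbe6
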