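import Pool.Agent.W_MP_24dbe6_h58.GeoComm

set_option autoImplicit false

/-!
The triangle inequalities for the angles of two unit quaternions and their product.
`(x * y).re = cos a cos b - sin a sin b c` with `c` in `[-1, 1]` the cosine of the angle between the
imaginary parts.
-/

namespace Pool.Agent.W24dbe6

open Quaternion

theorem GeoTri_sq {x : H} (hx : U x) :
    x.re ^ 2 + x.imI ^ 2 + x.imJ ^ 2 + x.imK ^ 2 = 1 := by
  have h : normSq x = 1 := by
    rw [normSq_eq_norm_mul_self]
    have : ‖x‖ = 1 := hx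
    rw [this]
    norm_num
  have h2 := normSq_def' (a := x)
  rw [h] at h2
  exact h2.symm

theorem GeoTri_re (x y : H) :
    (x * y).re = x.re * y.re - (x.imI * y.imI + x.imJ * y.imJ + x.imK * y.imK) := by
  rw [Quaternion.re_mul]
  ring

theorem GeoTri_comm (x y : H) : Commute x y ↔ (x.imJ * y.imK - x.imK * y.imJ = 0 ∧
    x.imK * y.imI - x.imI * y.imK = 0 ∧ x.imI * y.imJ - x.imJ * y.imI = 0) := by
  constructor
  · intro h
    have h' : x * y = y * x := h
    have h1 := congrArg (fun z : H => z.imI) h'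
    have h2 := congrArg (fun z : H => z.imJ) h'
    have h3 := congrArg (fun z : H => z.imK) h'
    simp only [Quaternion.imI_mul, Quaternion.imJ_mul, Quaternion.imK_mul] at h1 h2 h3
    refine ⟨by linarith, by linarith, by linarith⟩
  · rintro ⟨h1, h2, h3⟩
    change x * y = y * x
    ext
    · rw [Quaternion.re_mul, Quaternion.re_mul]; ring
    · rw [Quaternion.imI_mul, Quaternion.imI_mul]; linarith
    · rw [Quaternion.imJ_mul, Quaternion.imJ_mul]; linarith
    · rw [Quaternion.imK_mul, Quaternion.imK_mul]; linarith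

theorem GeoTri_cos_lt {u v : ℝ} (hu : 0 ≤ u) (hv : v ≤ Real.pi) (h : u < v) :
    Real.cos v < Real.cos u := Real.cos_lt_cos_of_nonneg_of_le_pi hu hv h

theorem GeoTri_le_of_cos {u v : ℝ} (hu : 0 ≤ u) (hv : v ≤ Real.pi)
    (h : Real.cos u ≤ Real.cos v) : v ≤ u := by
  by_contra hlt
  exact absurd h (not_le.2 (GeoTri_cos_lt hu hv (not_le.1 hlt)))

theorem GeoTri_lt_of_cos {u v : ℝ} (hu : 0 ≤ u) (hv : v ≤ Real.pi)
    (h : Real.cos u < Real.cos v) : v < u := by
  by_contra hle
  exact absurd h (not_lt.2 (Real.cos_le_cos_of_nonneg_of_le_pi hu hv (not_lt.1 hle)))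

theorem GeoTri_num_le {a b c p : ℝ} (ha : 0 ≤ a ∧ a ≤ Real.pi) (hb : 0 ≤ b ∧ b ≤ Real.pi)
    (hc : 0 ≤ c ∧ c ≤ Real.pi) (h : Real.cos c = Real.cos a * Real.cos b - p)
    (h1 : p ≤ Real.sin a * Real.sin b) (h2 : -(Real.sin a * Real.sin b) ≤ p) : Tri a b c := by
  have e1 := Real.cos_add a b
  have e2 := Real.cos_sub a b
  have e3 : Real.cos (b - a) = Real.cos (a - b) := by rw [← Real.cos_neg (a - b), neg_sub]
  have e4 : Real.cos (2 * Real.pi - (a + b)) = Real.cos (a + b) := Real.cos_two_pi_sub _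
  refine ⟨?_, ?_, ?_, ?_⟩
  · rcases le_total a b with hab | hab
    · linarith [hb.1, hc.1]
    · have := GeoTri_le_of_cos (u := c) (v := a - b) hc.1 (by linarith [ha.2, hb.1])
        (by linarith)
      linarith
  · rcases le_total a b with hab | hab
    · have := GeoTri_le_of_cos (u := c) (v := b - a) hc.1 (by linarith [ha.1, hb.2])
        (by linarith)
      linarith
    · linarith [ha.1, hc.1]
  · rcases le_total (a + b) Real.pi with hab | hab
    · exact GeoTri_le_of_cos (u := a + b) (v := c) (by linarith [ha.1, hb.1]) hc.2 (by linarith)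
    · linarith [hc.2]
  · rcases le_total (a + b) Real.pi with hab | hab
    · linarith [hc.2]
    · have := GeoTri_le_of_cos (u := 2 * Real.pi - (a + b)) (v := c)
        (by linarith [ha.2, hb.2]) hc.2 (by linarith)
      linarith

theorem GeoTri_num_lt {a b c p : ℝ} (ha : 0 ≤ a ∧ a ≤ Real.pi) (hb : 0 ≤ b ∧ b ≤ Real.pi)
    (hc : 0 ≤ c ∧ c ≤ Real.pi) (h : Real.cos c = Real.cos a * Real.cos b - p)
    (h1 : p < Real.sin a * Real.sin b) (h2 : -(Real.sin a * Real.sin b) < p) : STri a b c := by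
  have e1 := Real.cos_add a b
  have e2 := Real.cos_sub a b
  have e3 : Real.cos (b - a) = Real.cos (a - b) := by rw [← Real.cos_neg (a - b), neg_sub]
  have e4 : Real.cos (2 * Real.pi - (a + b)) = Real.cos (a + b) := Real.cos_two_pi_sub _
  have ha0 : 0 < a := by
    rcases ha.1.eq_or_lt with h0 | h0
    · rw [← h0, Real.sin_zero] at h1 h2
      linarith
    · exact h0
  have hb0 : 0 < b := by
    rcases hb.1.eq_or_lt with h0 | h0
    · rw [← h0, Real.sin_zero] at h1 h2
      linarith
    · exact h0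
  refine ⟨?_, ?_, ?_, ?_⟩
  · rcases le_total a b with hab | hab
    · have := GeoTri_lt_of_cos (u := c) (v := b - a) hc.1 (by linarith [hb.2]) (by linarith)
      linarith
    · have := GeoTri_lt_of_cos (u := c) (v := a - b) hc.1 (by linarith [ha.2]) (by linarith)
      linarith
  · rcases le_total a b with hab | hab
    · have := GeoTri_lt_of_cos (u := c) (v := b - a) hc.1 (by linarith [hb.2]) (by linarith)
      linarith
    · have := GeoTri_lt_of_cos (u := c) (v := a - b) hc.1 (by linarith [ha.2]) (by linarith)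
      linarith
  · rcases le_or_gt (a + b) Real.pi with hab | hab
    · exact GeoTri_lt_of_cos (u := a + b) (v := c) (by linarith) hc.2 (by linarith)
    · linarith [hc.2]
  · rcases lt_or_ge (a + b) Real.pi with hab | hab
    · linarith [hc.2]
    · have := GeoTri_lt_of_cos (u := 2 * Real.pi - (a + b)) (v := c)
        (by linarith [ha.2, hb.2]) hc.2 (by linarith)
      linarith

theorem GeoTri_num_not {a b c : ℝ} (hc : 0 ≤ c ∧ c ≤ Real.pi)
    (h : Real.cos c = Real.cos (a + b) ∨ Real.cos c = Real.cos (a - b)) : ¬ STri a b c := by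
  rintro ⟨h1, h2, h3, h4⟩
  have e3 : Real.cos (b - a) = Real.cos (a - b) := by rw [← Real.cos_neg (a - b), neg_sub]
  have e4 : Real.cos (2 * Real.pi - (a + b)) = Real.cos (a + b) := Real.cos_two_pi_sub _
  rcases h with h | h
  · rcases le_total (a + b) Real.pi with hab | hab
    · have := GeoTri_cos_lt hc.1 hab h3
      linarith
    · have := GeoTri_cos_lt (u := c) (v := 2 * Real.pi - (a + b)) hc.1 (by linarith)
        (by linarith)
      linarith
  · rcases le_total a b with hab | hab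
    · have := GeoTri_cos_lt (u := b - a) (v := c) (by linarith) hc.2 (by linarith)
      linarith
    · have := GeoTri_cos_lt (u := a - b) (v := c) (by linarith) hc.2 (by linarith)
      linarith

theorem GeoTri_sin_nonneg (x : H) : 0 ≤ Real.sin (ang x) :=
  Real.sin_nonneg_of_nonneg_of_le_pi (ang_mem x).1 (ang_mem x).2

theorem GeoTri_sin_sq {x : H} (hx : U x) :
    Real.sin (ang x) ^ 2 = x.imI ^ 2 + x.imJ ^ 2 + x.imK ^ 2 := by
  have h := GeoTri_sq hx
  have h1 := Real.sin_sq_add_cos_sq (ang x)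
  rw [U_cos_ang hx] at h1
  linarith

/-- the Lagrange identity -/
theorem GeoTri_lagrange {x y : H} (hx : U x) (hy : U y) :
    (Real.sin (ang x) * Real.sin (ang y)) ^ 2 =
      (x.imI * y.imI + x.imJ * y.imJ + x.imK * y.imK) ^ 2 +
      ((x.imJ * y.imK - x.imK * y.imJ) ^ 2 + (x.imK * y.imI - x.imI * y.imK) ^ 2 +
        (x.imI * y.imJ - x.imJ * y.imI) ^ 2) := by
  rw [mul_pow, GeoTri_sin_sq hx, GeoTri_sin_sq hy]
  ring

theorem GeoTri_cos {x y : H} (hx : U x) (hy : U y) : Real.cos (ang (x * y)) =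
    Real.cos (ang x) * Real.cos (ang y) -
      (x.imI * y.imI + x.imJ * y.imJ + x.imK * y.imK) := by
  rw [U_cos_ang (U_mul hx hy), U_cos_ang hx, U_cos_ang hy, GeoTri_re]

theorem tri_of_mul {x y : H} (hx : U x) (hy : U y) : Tri (ang x) (ang y) (ang (x * y)) := by
  have h := GeoTri_lagrange hx hy
  have h0 := mul_nonneg (GeoTri_sin_nonneg x) (GeoTri_sin_nonneg y)
  have h1 := abs_le_of_sq_le_sq (a := x.imI * y.imI + x.imJ * y.imJ + x.imK * y.imK)
    (b := Real.sin (ang x) * Real.sin (ang y)) (by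
      rw [h]
      have := sq_nonneg (x.imJ * y.imK - x.imK * y.imJ)
      have := sq_nonneg (x.imK * y.imI - x.imI * y.imK)
      have := sq_nonneg (x.imI * y.imJ - x.imJ * y.imI)
      linarith) h0
  have h2 := abs_le.1 h1
  exact GeoTri_num_le (ang_mem x) (ang_mem y) (ang_mem _) (GeoTri_cos hx hy) h2.2 h2.1

theorem stri_of_mul {x y : H} (hx : U x) (hy : U y) (h : ¬ Commute x y) :
    STri (ang x) (ang y) (ang (x * y)) := by
  have hl := GeoTri_lagrange hx hy
  have h0 := mul_nonneg (GeoTri_sin_nonneg x) (GeoTri_sin_nonneg y)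
  have hpos : 0 < (x.imJ * y.imK - x.imK * y.imJ) ^ 2 + (x.imK * y.imI - x.imI * y.imK) ^ 2 +
        (x.imI * y.imJ - x.imJ * y.imI) ^ 2 := by
    have q1 := sq_nonneg (x.imJ * y.imK - x.imK * y.imJ)
    have q2 := sq_nonneg (x.imK * y.imI - x.imI * y.imK)
    have q3 := sq_nonneg (x.imI * y.imJ - x.imJ * y.imI)
    by_contra hcon
    apply h
    rw [GeoTri_comm]
    refine ⟨?_, ?_, ?_⟩
    · exact pow_eq_zero_iff (two_ne_zero) |>.1 (by linarith)
    · exact pow_eq_zero_iff (two_ne_zero) |>.1 (by linarith)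
    · exact pow_eq_zero_iff (two_ne_zero) |>.1 (by linarith)
  have h1 := abs_lt_of_sq_lt_sq (a := x.imI * y.imI + x.imJ * y.imJ + x.imK * y.imK)
    (b := Real.sin (ang x) * Real.sin (ang y)) (by linarith) h0
  have h2 := abs_lt.1 h1
  exact GeoTri_num_lt (ang_mem x) (ang_mem y) (ang_mem _) (GeoTri_cos hx hy) h2.2 h2.1

theorem not_comm_of_stri {x y : H} (hx : U x) (hy : U y)
    (h : STri (ang x) (ang y) (ang (x * y))) : ¬ Commute x y := by
  intro hc
  refine GeoTri_num_not (ang_mem _) ?_ h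
  have hl := GeoTri_lagrange hx hy
  rw [GeoTri_comm] at hc
  rw [hc.1, hc.2.1, hc.2.2] at hl
  have h1 : (Real.sin (ang x) * Real.sin (ang y)) ^ 2 =
      (x.imI * y.imI + x.imJ * y.imJ + x.imK * y.imK) ^ 2 := by
    rw [hl]; ring
  rw [GeoTri_cos hx hy, Real.cos_add, Real.cos_sub]
  rcases sq_eq_sq_iff_eq_or_eq_neg.1 h1 with h2 | h2
  · left; rw [h2]
  · right; rw [h2]; ring

end Pool.Agent.W24dbe6
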