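import Pool.Agent.W_MP_24dbe6_h58.AbDefs
import Pool.Agent.W_MP_24dbe6_h58.GeoTri
import Pool.Agent.W_MP_24dbe6_h58.GeoConj
import Pool.Agent.W_MP_24dbe6_h58.GeoEx

set_option autoImplicit false

/-!
Perturbing abelian pairs.
-/

namespace Pool.Agent.W24dbe6

open Quaternion

/-- the squared components of a pure unit -/
theorem AbA_pure {u : H} (hu : U u) (hr : u.re = 0) :
    u.imI ^ 2 + u.imJ ^ 2 + u.imK ^ 2 = 1 := by
  have h := GeoConj.sq_of_U hu
  rw [hr] at h
  linarith

theorem AbA_E_imI (u : H) (a : ℝ) : (E u a).imI = Real.sin a * u.imI := by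
  simp [E]

theorem AbA_E_imJ (u : H) (a : ℝ) : (E u a).imJ = Real.sin a * u.imJ := by
  simp [E]

theorem AbA_E_imK (u : H) (a : ℝ) : (E u a).imK = Real.sin a * u.imK := by
  simp [E]

theorem E_re {u : H} (hr : u.re = 0) (a : ℝ) : (E u a).re = Real.cos a := by
  simp [E, hr]

/-- a quaternion with squared components adding up to one is a unit -/
theorem AbA_U_of_sq {x : H} (h : x.re ^ 2 + x.imI ^ 2 + x.imJ ^ 2 + x.imK ^ 2 = 1) : U x := by
  have h1 := Quaternion.normSq_def' x
  rw [h, Quaternion.normSq_eq_norm_mul_self] at h1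
  show ‖x‖ = 1
  nlinarith [norm_nonneg x]

theorem U_E {u : H} (hu : U u) (hr : u.re = 0) (a : ℝ) : U (E u a) := by
  apply AbA_U_of_sq
  rw [E_re hr, AbA_E_imI, AbA_E_imJ, AbA_E_imK]
  have h := AbA_pure hu hr
  have h2 := Real.sin_sq_add_cos_sq a
  linear_combination (Real.sin a) ^ 2 * h + h2

/-- the square of a pure unit is `-1` -/
theorem AbA_sq {u : H} (hu : U u) (hr : u.re = 0) : u * u = -1 := by
  have h1 : star u = -u := by
    ext <;> simp [hr]
  have h2 := U_star_mul hu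
  rw [h1, neg_mul] at h2
  rw [← h2, neg_neg]

theorem E_add {u : H} (hu : U u) (hr : u.re = 0) (a b : ℝ) : E u (a + b) = E u a * E u b := by
  have h := AbA_pure hu hr
  ext
  · simp only [E_re hr, Quaternion.re_mul, AbA_E_imI, AbA_E_imJ, AbA_E_imK, Real.cos_add]
    linear_combination (Real.sin a * Real.sin b) * h
  · simp only [E_re hr, Quaternion.imI_mul, AbA_E_imI, AbA_E_imJ, AbA_E_imK, Real.sin_add]
    ring
  · simp only [E_re hr, Quaternion.imJ_mul, AbA_E_imI, AbA_E_imJ, AbA_E_imK, Real.sin_add]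
    ring
  · simp only [E_re hr, Quaternion.imK_mul, AbA_E_imI, AbA_E_imJ, AbA_E_imK, Real.sin_add]
    ring

theorem E_zero (u : H) : E u 0 = 1 := by
  simp [E]

theorem E_pi (u : H) : E u Real.pi = -1 := by
  simp [E]

theorem AbA_commute_u (u : H) (b : ℝ) : Commute u (E u b) :=
  (Quaternion.coe_commute _ _).symm.add_right
    ((Quaternion.coe_commute _ _).symm.mul_right (Commute.refl u))

theorem E_commute (u : H) (a b : ℝ) : Commute (E u a) (E u b) :=
  (Quaternion.coe_commute _ _).add_left ((Quaternion.coe_commute _ _).mul_left (AbA_commute_u u b))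

theorem NC_E {u : H} (hu : U u) (hr : u.re = 0) {a : ℝ} (ha : 0 < a ∧ a < Real.pi) : NC (E u a) := by
  rw [NC_iff (U_E hu hr a), E_re hr]
  have h1 : 0 < Real.sin a := Real.sin_pos_of_pos_of_lt_pi ha.1 ha.2
  have h2 := Real.sin_sq_add_cos_sq a
  constructor <;> nlinarith

/-- a pure unit is non-central -/
theorem AbA_NC {u : H} (hu : U u) (hr : u.re = 0) : NC u := by
  rw [NC_iff hu, hr]
  constructor <;> norm_num

/-- an angle with given cosine and sine -/
theorem AbA_angle {a b : ℝ} (h : a ^ 2 + b ^ 2 = 1) : ∃ t : ℝ, Real.cos t = a ∧ Real.sin t = b := by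
  have h1 : -1 ≤ a := by nlinarith [sq_nonneg b]
  have h2 : a ≤ 1 := by nlinarith [sq_nonneg b]
  have h3 : Real.sin (Real.arccos a) = |b| := by
    rw [Real.sin_arccos, ← Real.sqrt_sq_eq_abs]
    congr 1
    linarith
  rcases le_total 0 b with hb | hb
  · exact ⟨Real.arccos a, Real.cos_arccos h1 h2, by rw [h3, abs_of_nonneg hb]⟩
  · refine ⟨-Real.arccos a, by rw [Real.cos_neg, Real.cos_arccos h1 h2], ?_⟩
    rw [Real.sin_neg, h3, abs_of_nonpos hb, neg_neg]

/-- every unit commuting with `u` is `E u a` -/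
theorem exists_E {u x : H} (hu : U u) (hr : u.re = 0) (hx : U x) (hc : Commute x u) :
    ∃ a : ℝ, x = E u a := by
  obtain ⟨a, b, hab⟩ := (comm_iff (AbA_NC hu hr)).1 hc.symm
  have h1 := GeoConj.sq_of_U hx
  have h := AbA_pure hu hr
  have e0 : x.re = a := by rw [hab]; simp [hr]
  have e1 : x.imI = b * u.imI := by rw [hab]; simp
  have e2 : x.imJ = b * u.imJ := by rw [hab]; simp
  have e3 : x.imK = b * u.imK := by rw [hab]; simp
  rw [e0, e1, e2, e3] at h1
  obtain ⟨t, ht1, ht2⟩ := AbA_angle (a := a) (b := b) (by linear_combination h1 - b ^ 2 * h)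
  refine ⟨t, ?_⟩
  rw [hab, E, ht1, ht2]

/-- the squared distance of two units -/
theorem AbA_dist {x y : H} (hx : U x) (hy : U y) : dist x y ^ 2 =
    2 - 2 * (x.re * y.re + x.imI * y.imI + x.imJ * y.imJ + x.imK * y.imK) := by
  have h1 := Quaternion.normSq_def' (x - y)
  rw [Quaternion.normSq_eq_norm_mul_self] at h1
  have h2 := GeoConj.sq_of_U hx
  have h3 := GeoConj.sq_of_U hy
  rw [dist_eq_norm, sq, h1]
  simp only [Quaternion.re_sub, Quaternion.imI_sub, Quaternion.imJ_sub, Quaternion.imK_sub]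
  linear_combination h2 + h3

/-- the distance of a unit `x` of angle `a` from `E u a`, if the inner product of `x` with `E u φ` is
`cos b` -/
theorem AbA_key {u x : H} (hu : U u) (hr : u.re = 0) (hx : U x) {a b φ : ℝ}
    (hxa : x.re = Real.cos a)
    (h : x.re * Real.cos φ + x.imI * (Real.sin φ * u.imI) + x.imJ * (Real.sin φ * u.imJ)
      + x.imK * (Real.sin φ * u.imK) = Real.cos b) :
    dist (E u a) x ^ 2 * Real.sin φ = 2 * Real.sin a * (Real.cos (φ - a) - Real.cos b) := by
  rw [AbA_dist (U_E hu hr a) hx, E_re hr, AbA_E_imI, AbA_E_imJ, AbA_E_imK, Real.cos_sub]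
  rw [hxa] at h ⊢
  have h2 := Real.sin_sq_add_cos_sq a
  linear_combination (-2 * Real.sin a) * h - 2 * Real.sin φ * h2

/-- from the product to the inner products -/
theorem AbA_inner {u x y : H} (hr : u.re = 0) (hx : U x) (hy : U y) {φ : ℝ}
    (h : x * y = E u φ) :
    x.re * Real.cos φ + x.imI * (Real.sin φ * u.imI) + x.imJ * (Real.sin φ * u.imJ)
      + x.imK * (Real.sin φ * u.imK) = y.re ∧
    y.re * Real.cos φ + y.imI * (Real.sin φ * u.imI) + y.imJ * (Real.sin φ * u.imJ)
      + y.imK * (Real.sin φ * u.imK) = x.re := by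
  have h1 : y = star x * E u φ := by rw [← h, ← mul_assoc, U_star_mul hx, one_mul]
  have h2 : x = E u φ * star y := by rw [← h, mul_assoc, U_mul_star hy, mul_one]
  constructor
  · have h3 := congrArg (fun z : H => z.re) h1
    simp only [Quaternion.re_mul, Quaternion.re_star, Quaternion.imI_star, Quaternion.imJ_star,
      Quaternion.imK_star, E_re hr, AbA_E_imI, AbA_E_imJ, AbA_E_imK] at h3
    rw [h3]
    ring
  · have h3 := congrArg (fun z : H => z.re) h2
    simp only [Quaternion.re_mul, Quaternion.re_star, Quaternion.imI_star, Quaternion.imJ_star,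
      Quaternion.imK_star, E_re hr, AbA_E_imI, AbA_E_imJ, AbA_E_imK] at h3
    rw [h3]
    ring

/-- the final estimate -/
theorem AbA_close {d S s η ε : ℝ} (hε : 0 < ε) (h1 : d ^ 2 * s ≤ 2 * η)
    (h2 : S / 2 < s) (hS : 0 < S) (h3 : η < ε ^ 2 * S / 4) : d < ε := by
  by_contra hc
  push Not at hc
  have h4 : ε ^ 2 ≤ d ^ 2 := pow_le_pow_left₀ hε.le hc 2
  have h5 : ε ^ 2 * (S / 2) ≤ d ^ 2 * s := mul_le_mul h4 h2.le (by positivity) (by positivity)
  linarith

/-- Pairs with `a + b < π` can be perturbed to non-commuting pairs with product `E u (a + b - η)` for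
all small `η > 0`.  Explicitly `x = cos a + s u + q v`, `v` a pure unit orthogonal to `u`,
`φ = a + b - η`, `s = (cos b - cos a cos φ) / sin φ → sin a` (`η → 0`), `q = √(sin² a - s²) > 0`,
`y = star x * E u φ`. -/
theorem pair_lt {u : H} (hu : U u) (hr : u.re = 0) {a b : ℝ} (ha : 0 < a ∧ a < Real.pi)
    (hb : 0 < b ∧ b < Real.pi) (hab : a + b < Real.pi) {ε : ℝ} (hε : 0 < ε) :
    ∃ δ : ℝ, 0 < δ ∧ ∀ η : ℝ, 0 < η → η < δ → ∃ x y : H, U x ∧ U y ∧ x.re = Real.cos a ∧
      y.re = Real.cos b ∧ dist (E u a) x < ε ∧ dist (E u b) y < ε ∧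
      x * y = E u (a + b - η) ∧ ¬ Commute x y := by
  have hsab : 0 < Real.sin (a + b) := Real.sin_pos_of_pos_of_lt_pi (by linarith [ha.1, hb.1]) hab
  refine ⟨min (min a b) (min (Real.sin (a + b) / 2) (ε ^ 2 * Real.sin (a + b) / 4)),
    lt_min (lt_min ha.1 hb.1) (lt_min (by positivity) (by positivity)), ?_⟩
  intro η h0 hη
  rw [lt_min_iff, lt_min_iff, lt_min_iff] at hη
  obtain ⟨⟨e1, e2⟩, e3, e4⟩ := hη
  obtain ⟨φ, hφ⟩ : ∃ φ, φ = a + b - η := ⟨_, rfl⟩
  rw [← hφ]
  have hφ0 : 0 < φ := by rw [hφ]; linarith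
  have hφ1 : φ < Real.pi := by rw [hφ]; linarith
  have hsφ : Real.sin (a + b) / 2 < Real.sin φ := by
    have h1 := Real.abs_sin_sub_sin_le (a + b) φ
    rw [show a + b - φ = η by rw [hφ]; ring, abs_of_pos h0] at h1
    linarith [(abs_le.1 h1).2]
  have hUE := U_E hu hr φ
  have hang : ang (E u φ) = φ := by
    unfold ang
    rw [E_re hr, Real.arccos_cos hφ0.le hφ1.le]
  obtain ⟨x, y, hx, hy, hxa, hyb, hxy⟩ := exists_mul hUE ⟨ha.1.le, ha.2.le⟩ ⟨hb.1.le, hb.2.le⟩
    (show Tri a b (ang (E u φ)) by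
      rw [hang]
      refine ⟨?_, ?_, ?_, ?_⟩ <;> rw [hφ] <;> linarith [ha.1, hb.1])
  obtain ⟨i1, i2⟩ := AbA_inner hr hx hy hxy
  rw [hyb] at i1
  rw [hxa] at i2
  have hcos : ∀ t : ℝ, 0 < Real.sin t → Real.cos (t - η) - Real.cos t ≤ η := by
    intro t _
    have h1 := Real.abs_cos_sub_cos_le (t - η) t
    rw [show t - η - t = -η by ring, abs_neg, abs_of_pos h0] at h1
    exact (abs_le.1 h1).2
  have hsa := Real.sin_pos_of_pos_of_lt_pi ha.1 ha.2
  have hsb := Real.sin_pos_of_pos_of_lt_pi hb.1 hb.2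
  refine ⟨x, y, hx, hy, hxa, hyb, ?_, ?_, hxy, ?_⟩
  · refine AbA_close hε ?_ hsφ hsab e4
    rw [AbA_key hu hr hx hxa i1, show φ - a = b - η by rw [hφ]; ring]
    have h2 := hcos b hsb
    have h3 := Real.sin_le_one a
    nlinarith
  · refine AbA_close hε ?_ hsφ hsab e4
    rw [AbA_key hu hr hy hyb i2, show φ - b = a - η by rw [hφ]; ring]
    have h2 := hcos a hsa
    have h3 := Real.sin_le_one b
    nlinarith
  · apply not_comm_of_stri hx hy
    have h1 : ang x = a := by unfold ang; rw [hxa, Real.arccos_cos ha.1.le ha.2.le]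
    have h2 : ang y = b := by unfold ang; rw [hyb, Real.arccos_cos hb.1.le hb.2.le]
    rw [hxy, hang, h1, h2]
    refine ⟨?_, ?_, ?_, ?_⟩ <;> rw [hφ] <;> linarith [ha.1, hb.1]

/-- rotation about the opposite axis -/
theorem AbA_E_neg (u : H) (a : ℝ) : E (-u) (Real.pi - a) = -E u a := by
  unfold E
  rw [Real.cos_pi_sub, Real.sin_pi_sub, Quaternion.coe_neg, mul_neg, neg_add]

/-- the same for `a + b > π`, with product `E u (a + b + η)` (same formula with `φ = a + b + η`; or use
`pair_lt` for `π - a`, `π - b`, `-u`-rotations, negating both entries) -/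
theorem pair_gt {u : H} (hu : U u) (hr : u.re = 0) {a b : ℝ} (ha : 0 < a ∧ a < Real.pi)
    (hb : 0 < b ∧ b < Real.pi) (hab : Real.pi < a + b) {ε : ℝ} (hε : 0 < ε) :
    ∃ δ : ℝ, 0 < δ ∧ ∀ η : ℝ, 0 < η → η < δ → ∃ x y : H, U x ∧ U y ∧ x.re = Real.cos a ∧
      y.re = Real.cos b ∧ dist (E u a) x < ε ∧ dist (E u b) y < ε ∧
      x * y = E u (a + b + η) ∧ ¬ Commute x y := by
  have hU : U (-u) := by
    show ‖-u‖ = 1
    rw [norm_neg]
    exact hu
  have hR : (-u).re = 0 := by rw [Quaternion.re_neg, hr, neg_zero]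
  obtain ⟨δ, hδ, h⟩ := pair_lt hU hR (a := Real.pi - a) (b := Real.pi - b)
    ⟨by linarith [ha.2], by linarith [ha.1]⟩ ⟨by linarith [hb.2], by linarith [hb.1]⟩
    (by linarith) hε
  refine ⟨δ, hδ, fun η h0 h1 => ?_⟩
  obtain ⟨x, y, hx, hy, hxa, hyb, d1, d2, hxy, hc⟩ := h η h0 h1
  have hn : ∀ z : H, U z → U (-z) := by
    intro z hz
    show ‖-z‖ = 1
    rw [norm_neg]
    exact hz
  refine ⟨-x, -y, hn x hx, hn y hy, ?_, ?_, ?_, ?_, ?_, ?_⟩
  · rw [Quaternion.re_neg, hxa, Real.cos_pi_sub, neg_neg]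
  · rw [Quaternion.re_neg, hyb, Real.cos_pi_sub, neg_neg]
  · rw [AbA_E_neg] at d1
    rw [← neg_neg (E u a), dist_neg_neg]
    exact d1
  · rw [AbA_E_neg] at d2
    rw [← neg_neg (E u b), dist_neg_neg]
    exact d2
  · rw [neg_mul_neg, hxy]
    unfold E
    rw [show Real.pi - a + (Real.pi - b) - η = 2 * Real.pi - (a + b + η) by ring,
      Real.cos_two_pi_sub, Real.sin_two_pi_sub, Quaternion.coe_neg, neg_mul_neg]
  · intro hcc
    apply hc
    have := hcc.neg_left.neg_right
    rwa [neg_neg, neg_neg] at this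

/-- commuting with a rotation is commuting with the axis -/
theorem AbA_comm_E {u z : H} {a : ℝ} (ha : Real.sin a ≠ 0) : Commute (E u a) z ↔ Commute u z := by
  constructor
  · intro h
    have h1 : u = ((Real.sin a)⁻¹ : ℝ) * (E u a - (Real.cos a : H)) := by
      unfold E
      rw [add_sub_cancel_left, ← mul_assoc, ← Quaternion.coe_mul, inv_mul_cancel₀ ha,
        Quaternion.coe_one, one_mul]
    rw [h1]
    exact (Quaternion.coe_commute _ _).mul_left (h.sub_left (Quaternion.coe_commute _ _))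
  · intro h
    exact (Quaternion.coe_commute _ _).add_left ((Quaternion.coe_commute _ _).mul_left h)

/-- there are units near `1` moving the axis `u` -/
theorem exists_tilt {u : H} (hu : U u) (hr : u.re = 0) {ε : ℝ} (hε : 0 < ε) :
    ∃ g : H, U g ∧ dist g 1 < ε ∧ ∀ a b : ℝ, 0 < a → a < Real.pi → 0 < b → b < Real.pi →
      ¬ Commute (cj g (E u a)) (E u b) := by
  have hN := AbA_NC hu hr
  -- a pure unit which does not commute with `u`
  obtain ⟨v, hv, hvr, hvu⟩ : ∃ v : H, U v ∧ v.re = 0 ∧ ¬ Commute v u := by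
    by_contra hcon
    push Not at hcon
    obtain ⟨i, hi⟩ : ∃ i : H, i = ⟨0, 1, 0, 0⟩ := ⟨_, rfl⟩
    obtain ⟨j, hj⟩ : ∃ j : H, j = ⟨0, 0, 1, 0⟩ := ⟨_, rfl⟩
    have h1 := hcon i (AbA_U_of_sq (by rw [hi]; norm_num)) (by rw [hi])
    have h2 := hcon j (AbA_U_of_sq (by rw [hj]; norm_num)) (by rw [hj])
    have h3 := comm_trans hN h1 h2.symm
    have h4 := congrArg (fun z : H => z.imK) h3.eq
    rw [hi, hj] at h4
    simp at h4
    norm_num at h4
  obtain ⟨t, t0, t1⟩ : ∃ t : ℝ, 0 < t ∧ t < min ε 1 := exists_between (lt_min hε one_pos)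
  rw [lt_min_iff] at t1
  have hpi := Real.pi_gt_three
  have hst : 0 < Real.sin t := Real.sin_pos_of_pos_of_lt_pi t0 (by linarith)
  have hct : 0 < Real.cos t := Real.cos_pos_of_mem_Ioo ⟨by linarith, by linarith⟩
  refine ⟨E v t, U_E hv hvr t, ?_, ?_⟩
  · have h1 := AbA_dist (U_E hv hvr t) U_one
    rw [E_re hvr] at h1
    simp only [Quaternion.re_one, Quaternion.imI_one, Quaternion.imJ_one, Quaternion.imK_one,
      mul_one, mul_zero, add_zero] at h1
    have h2 := Real.one_sub_sq_div_two_le_cos (x := t)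
    have h3 : dist (E v t) 1 ^ 2 ≤ t ^ 2 := by rw [h1]; linarith
    have h4 := abs_le_of_sq_le_sq h3 t0.le
    exact lt_of_le_of_lt ((le_abs_self _).trans h4) t1.1
  · intro a b a0 a1 b0 b1 hc
    have hsa := (Real.sin_pos_of_pos_of_lt_pi a0 a1).ne'
    have hsb := (Real.sin_pos_of_pos_of_lt_pi b0 b1).ne'
    have hU := U_E hv hvr t
    -- `cj g u` commutes with `u`
    have h1 : Commute (cj (E v t) u) u := by
      have h2 := ((AbA_comm_E hsb).1 hc.symm).symm
      have h3 : Commute (E u a) (cj (star (E v t)) u) := by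
        have h4 := (commute_cj (U_star hU) (cj (E v t) (E u a)) u).2 h2
        rwa [cj_star_cj hU] at h4
      have h5 := (AbA_comm_E hsa).1 h3
      have h6 := (commute_cj hU u (cj (star (E v t)) u)).2 h5
      rwa [cj_cj_star hU] at h6
    obtain ⟨c, hcE⟩ := exists_E hu hr (U_cj hU hu) h1
    have h2 : Real.cos c = 0 := by
      have h3 := congrArg (fun z : H => z.re) hcE
      simp only [E_re hr, cj_re hU, hr] at h3
      exact h3.symm
    have h3 : Real.sin c = 1 ∨ Real.sin c = -1 := by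
      have h4 := Real.sin_sq_add_cos_sq c
      rw [h2] at h4
      have h5 : (Real.sin c - 1) * (Real.sin c + 1) = 0 := by linarith
      rcases mul_eq_zero.1 h5 with h6 | h6
      · left; linarith
      · right; linarith
    have h4 : E v t * u = cj (E v t) u * E v t := by
      unfold cj
      rw [mul_assoc (E v t * u), U_star_mul hU, mul_one]
    rw [hcE] at h4
    rcases h3 with h5 | h5
    · have h6 : E u c = u := by
        unfold E
        rw [h2, h5]
        simp
      rw [h6] at h4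
      exact hvu ((AbA_comm_E hst.ne').1 h4)
    · have h6 : E u c = -u := by
        unfold E
        rw [h2, h5]
        simp
      rw [h6] at h4
      have h7 : u.im = u := by
        ext <;> simp [hr]
      have h8 : Anti (E v t) u := by
        unfold Anti
        rw [h7, h4, neg_mul]
      have h9 := anti_re hN h8
      rw [E_re hvr] at h9
      exact hct.ne' h9

end Pool.Agent.W24dbe6
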