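import Pool.Agent.W_MP_24dbe6_h58.Defs

set_option autoImplicit false

/-!
Level sets, ranges of angles: definitions for the main induction.
-/

namespace Pool.Agent.W24dbe6

open Quaternion

/-- the angles of products of unit quaternions with prescribed angles (polygon inequalities) -/
def Rg : List ℝ → Set ℝ
  | [] => {0}
  | (a :: l) => {φ | 0 ≤ φ ∧ φ ≤ Real.pi ∧ ∃ ψ ∈ Rg l, Tri a ψ φ}

/-- `φ` lies strictly between two elements of `Rg l` -/
def RgI (l : List ℝ) (φ : ℝ) : Prop := ∃ φ₁ ∈ Rg l, ∃ φ₂ ∈ Rg l, φ₁ < φ ∧ φ < φ₂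

/-- the entries of `xs` are units with the angles `l` -/
def Has (xs : List H) (l : List ℝ) : Prop :=
  List.Forall₂ (fun (x : H) (a : ℝ) => U x ∧ x.re = Real.cos a) xs l

/-- not all entries commute -/
def NAl (xs : List H) : Prop := ∃ x ∈ xs, ∃ y ∈ xs, ¬ Commute x y

variable {ι : Type}

/-- all admissible lists `b₁ :: b₂ :: r` with labels `i, j`, the labels of `r` being a permutation of
`N`, and `ang (b₁ b₂) = φ`, belong to `Z` -/
def Lev (θ : ι → ℝ) (Z : LL ι → Prop) (i j : ι) (N : List ι) (φ : ℝ) : Prop :=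
  ∀ (b₁ b₂ : ι × H) (r : LL ι), Adm θ (b₁ :: b₂ :: r) → b₁.1 = i → b₂.1 = j → (lab r).Perm N →
    ang (b₁.2 * b₂.2) = φ → Z (b₁ :: b₂ :: r)

/-- all admissible lists `b₁ :: b₂ :: r` with labels `i, j`, the labels of `r` being a permutation of
`N`, with `b₁, b₂` not commuting, `b₁ b₂` of infinite order and `r` non-abelian, belong to `Z` -/
def Full (θ : ι → ℝ) (Z : LL ι → Prop) (i j : ι) (N : List ι) : Prop :=
  ∀ (b₁ b₂ : ι × H) (r : LL ι), Adm θ (b₁ :: b₂ :: r) → b₁.1 = i → b₂.1 = j → (lab r).Perm N →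
    GP b₁ b₂ r → Z (b₁ :: b₂ :: r)

/-- generic triple points -/
def GT (b₁ b₂ b₃ : ι × H) (r : LL ι) : Prop :=
  Inf (b₁.2 * b₂.2) ∧ Inf (b₁.2 * b₂.2 * b₃.2) ∧ ¬ Commute b₁.2 b₂.2 ∧
    ¬ Commute (b₁.2 * b₂.2) b₃.2 ∧ NA r

end Pool.Agent.W24dbe6
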