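import Pool.Agent.W_MP_24dbe6_h58.Defs

set_option autoImplicit false

/-!
Definitions for lists with central entries.
-/

namespace Pool.Agent.W24dbe6

open Quaternion

variable {ι : Type}

open Classical in
/-- the number of non-central entries -/
noncomputable def nNC (L : LL ι) : ℕ := L.countP (fun p => decide (NC p.2))

/-- equal up to signs of the entries -/
def Sg (L L' : LL ι) : Prop :=
  List.Forall₂ (fun p q : ι × H => p.1 = q.1 ∧ (p.2 = q.2 ∨ p.2 = -q.2)) L L'

end Pool.Agent.W24dbe6
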