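import Pool.Agent.W_MP_24dbe6_h58.Geo
import Pool.Agent.W_MP_24dbe6_h58.DefsC

set_option autoImplicit false

/-!
Transport of representations along geometric tuples.
-/

namespace Pool.Agent.W24dbe6

open Quaternion

/-- braid moves of the list of `ρ` on a geometric tuple -/
theorem GeoB_bv {n : ℕ} {ρ : Pi1 n →* SU2} {L L' : LL (Fin n)} (h : Bv L L')
    (hL : ∃ y, GeoT n y ∧ L = mapL ρ y) : ∃ y, GeoT n y ∧ L' = mapL ρ y := by
  refine Bv_preserve (P := fun L => ∃ y, GeoT n y ∧ L = mapL ρ y) ?_ ?_ h hL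
  · rintro l r p q ⟨y, hy, hM⟩
    unfold mapL at hM
    obtain ⟨yl, yp, yq, yr, rfl, m1, m2, m3, m4⟩ := Geo_map_split hM.symm
    refine ⟨_, GeoT_sw hy, ?_⟩
    unfold mapL
    rw [List.map_append, List.map_cons, List.map_cons, m1, m3, m4, ← m2, ← m3]
    simp only [map_mul, map_inv, toH_mul, toH_inv]
  · rintro l r p q ⟨y, hy, hM⟩
    unfold mapL at hM
    obtain ⟨yl, yp, yq, yr, rfl, m1, m2, m3, m4⟩ := Geo_map_split hM.symm
    refine ⟨_, GeoT_sw' hy, ?_⟩
    unfold mapL
    rw [List.map_append, List.map_cons, List.map_cons, m1, m2, m4, ← m2, ← m3]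
    simp only [map_mul, map_inv, toH_mul, toH_inv]

/-- a move of the list of `ρ` is the list of `ρ` on a geometric tuple, up to conjugation (induction on
`Bv`, `GeoT_id`, `GeoT_sw`, `GeoT_sw'`; `mapL` commutes with the moves) -/
theorem mv_GeoT {n : ℕ} {ρ : Pi1 n →* SU2} {L : LL (Fin n)} (h : Mv (Lst ρ) L) :
    ∃ y, GeoT n y ∧ ∃ g, U g ∧ L = cjL g (mapL ρ y) := by
  obtain ⟨g, L₁, hg, hb, rfl⟩ := h
  obtain ⟨y, hy, rfl⟩ := GeoB_bv (ρ := ρ) hb ⟨_, GeoT_id n, by
    unfold mapL Lst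
    rw [List.map_ofFn]
    rfl⟩
  exact ⟨y, hy, g, hg, rfl⟩

/-- every list of units with product `1` and the labels of `y` is the list of a representation on `y`:
if `y.map snd = (φ c_0, …)` take `σ = σ' ∘ φ⁻¹` with `σ' c_k` the `k`-th entry (`exists_rep` after
relabelling, or `PresentedGroup.toGroup` directly) -/
theorem exists_rep_GeoT {n : ℕ} {y : List (Fin n × Pi1 n)} (hy : GeoT n y) {M : LL (Fin n)}
    (hl : lab M = y.map Prod.fst) (hU : UL M) (hp : pr M = 1) :
    ∃ σ : Pi1 n →* SU2, mapL σ y = M := by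
  obtain ⟨⟨φ, hφ⟩, -, -⟩ := hy
  have hylen : y.length = n := by
    have := congrArg List.length hφ
    simpa using this
  have hMlen : M.length = n := by
    have := congrArg List.length hl
    unfold lab at this
    rw [List.length_map, List.length_map, hylen] at this
    exact this
  obtain ⟨b, hb⟩ : ∃ b : LL (Fin n), b = List.ofFn fun k : Fin n =>
      (k, (M[k.1]'(by rw [hMlen]; exact k.2)).2) := ⟨_, rfl⟩
  have hsnd : b.map Prod.snd = M.map Prod.snd := by
    apply List.ext_getElem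
    · rw [hb]; simp [hMlen]
    · intro j h1 h2
      simp only [hb, List.getElem_map, List.getElem_ofFn]
  have hbl : lab b = List.finRange n := by
    unfold lab
    rw [hb, List.map_ofFn, ← List.ofFn_id]
    rfl
  have hbU : UL b := by
    intro p hp'
    have h1 : p.2 ∈ M.map Prod.snd := by
      rw [← hsnd]
      exact List.mem_map_of_mem hp'
    obtain ⟨q, hq, h2⟩ := List.mem_map.mp h1
    rw [← h2]
    exact hU q hq
  have hbp : pr b = 1 := by
    unfold pr at hp ⊢
    rw [hsnd]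
    exact hp
  obtain ⟨σ', hσ'⟩ := exists_rep hbl hbU hbp
  have hent : ∀ (k : ℕ) (hk : k < n), toH (σ' (c ⟨k, hk⟩)) =
      (M[k]'(by rw [hMlen]; exact hk)).2 := by
    intro k hk
    have h1 : ((Lst σ').map Prod.snd)[k]'(by unfold Lst; simp [hk]) =
        (b.map Prod.snd)[k]'(by rw [hb]; simp [hk]) := by
      simp only [hσ']
    unfold Lst at h1
    simp only [hb, List.getElem_map, List.getElem_ofFn] at h1
    exact h1
  refine ⟨σ'.comp ((φ⁻¹ : MulAut (Pi1 n)) : Pi1 n →* Pi1 n), ?_⟩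
  apply List.ext_getElem
  · unfold mapL
    rw [List.length_map, hylen, hMlen]
  · intro j h1 h2
    have hjn : j < n := by rwa [hMlen] at h2
    have g1 : (y[j]'(by rw [hylen]; exact hjn)).2 = φ (c ⟨j, hjn⟩) := by
      have : (y.map Prod.snd)[j]'(by rw [List.length_map, hylen]; exact hjn) =
          φ (c ⟨j, hjn⟩) := by
        simp only [hφ, List.getElem_ofFn]
      rw [List.getElem_map] at this
      exact this
    have g2 : (M[j]).1 = (y[j]'(by rw [hylen]; exact hjn)).1 := by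
      have : (lab M)[j]'(by unfold lab; rw [List.length_map]; exact h2) =
          (y.map Prod.fst)[j]'(by rw [List.length_map, hylen]; exact hjn) := by
        simp only [hl]
      unfold lab at this
      rw [List.getElem_map, List.getElem_map] at this
      exact this
    unfold mapL
    rw [List.getElem_map]
    apply Prod.ext
    · exact g2.symm
    · change toH (σ' (φ⁻¹ (y[j]'(by rw [hylen]; exact hjn)).2)) = _
      rw [g1]
      have : φ⁻¹ (φ (c ⟨j, hjn⟩)) = c ⟨j, hjn⟩ := φ.symm_apply_apply _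
      rw [this, hent]

/-- conjugate elements have images with the same real part -/
theorem GeoB_re {n : ℕ} (σ : Pi1 n →* SU2) {a b : Pi1 n} (h : IsConj a b) :
    (toH (σ a)).re = (toH (σ b)).re := by
  obtain ⟨g, rfl⟩ := isConj_iff.mp h
  rw [map_mul, map_mul, map_inv, toH_conj, cj_re (U_toH _)]

theorem GeoB_trace {A B : SU2} (h : (toH A).re = (toH B).re) :
    Matrix.trace (A : Matrix (Fin 2) (Fin 2) ℂ) = Matrix.trace (B : Matrix (Fin 2) (Fin 2) ℂ) := by
  rw [trace_toH, trace_toH, h]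

/-- the boundary traces of `σ` can be read off on a geometric tuple -/
theorem relChar_of_GeoT {n : ℕ} {ρ σ : Pi1 n →* SU2} {y : List (Fin n × Pi1 n)} (hy : GeoT n y)
    (h : ∀ p ∈ mapL σ y, p.2.re = Real.cos (thetaOf ρ p.1)) : cls σ ∈ relChar ρ := by
  obtain ⟨-, h2, h3⟩ := hy
  refine ⟨σ, rfl, ?_⟩
  intro i
  apply GeoB_trace
  have hi : i ∈ y.map Prod.fst := h3.mem_iff.mpr (List.mem_finRange i)
  obtain ⟨p, hp, rfl⟩ := List.mem_map.mp hi
  rw [← GeoB_re σ (h2 p hp)]
  have h4 := h (p.1, toH (σ p.2)) (List.mem_map.mpr ⟨p, hp, rfl⟩)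
  rw [h4]
  exact U_cos_ang (U_toH _)

/-- equivalent representations have conjugate lists on every tuple -/
theorem mapL_of_cls_eq {n : ℕ} {σ τ : Pi1 n →* SU2} (h : cls σ = cls τ)
    (y : List (Fin n × Pi1 n)) : ∃ g, U g ∧ mapL τ y = cjL g (mapL σ y) := by
  obtain ⟨g, hg⟩ : ∃ g : SU2, ∀ x, τ x = g * σ x * g⁻¹ := Quotient.exact h
  refine ⟨toH g, U_toH g, ?_⟩
  rw [Geo_cjL_mapL]
  unfold mapL
  apply List.map_congr_left
  intro p _
  rw [hg, toH_conj]

theorem Adm_comp {n : ℕ} (ρ : Pi1 n →* SU2) {φ : MulAut (Pi1 n)} (h : φ ∈ MCG n) :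
    Adm (thetaOf ρ) (Lst (ρ.comp (φ : Pi1 n →* Pi1 n))) := by
  rw [Adm_Lst_iff]
  intro i
  exact GeoB_trace (GeoB_re ρ (h i))

theorem numNC_eq {n : ℕ} (ρ : Pi1 n →* SU2) : numNC ρ = nNC (Lst ρ) := by
  classical
  unfold numNC nNC
  have h1 : {i : Fin n | ρ (c i) ∉ Subgroup.center SU2} =
      ((Finset.univ.filter fun i : Fin n => NC (toH (ρ (c i)))) : Finset (Fin n)) := by
    ext i
    simp only [Set.mem_setOf_eq, Finset.coe_filter, Finset.mem_univ, true_and]
    rw [center_iff, not_not]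
  rw [h1, Set.ncard_coe_finset]
  have h2 : Lst ρ = (List.finRange n).map fun i => (i, toH (ρ (c i))) := by
    unfold Lst
    rw [← List.ofFn_id, List.map_ofFn]
    rfl
  rw [h2, List.countP_map, List.countP_eq_length_filter]
  have h3 : (Finset.univ.filter fun i : Fin n => NC (toH (ρ (c i)))) =
      ((List.finRange n).filter fun i => decide (NC (toH (ρ (c i))))).toFinset := by
    ext i
    simp
  rw [h3, List.toFinset_card_of_nodup ((List.nodup_finRange n).filter _)]
  rfl

theorem thetaOf_mem {n : ℕ} (ρ : Pi1 n →* SU2) (i : Fin n) :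
    0 ≤ thetaOf ρ i ∧ thetaOf ρ i ≤ Real.pi :=
  ang_mem _

theorem mem_relChar_iff {n : ℕ} (ρ σ : Pi1 n →* SU2) :
    cls σ ∈ relChar ρ ↔ Adm (thetaOf ρ) (Lst σ) := by
  rw [Adm_Lst_iff]
  constructor
  · rintro ⟨σ', h1, h2⟩ i
    obtain ⟨g, hg⟩ : ∃ g : SU2, ∀ x, σ' x = g * σ x * g⁻¹ := Quotient.exact h1
    rw [← h2 i]
    apply GeoB_trace
    rw [hg, toH_conj, cj_re (U_toH _)]
  · intro h
    exact ⟨σ, rfl, h⟩

end Pool.Agent.W24dbe6
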