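import Pool.Agent.W_MP_24dbe6_h58.GeoPair

set_option autoImplicit false

/-!
Tuples of unit quaternions with the same pairwise data are conjugate up to a reflection.
-/

namespace Pool.Agent.W24dbe6

open Quaternion

/-- the inner product of the imaginary parts -/
private def gdt (x y : H) : ℝ := x.imI * y.imI + x.imJ * y.imJ + x.imK * y.imK

private theorem gdt_mul (x y : H) : (x * y).re = x.re * y.re - gdt x y := by
  simp only [Quaternion.re_mul, gdt]; ring

private theorem gdt_comm (x y : H) : gdt x y = gdt y x := by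
  simp only [gdt]; ring

private theorem gdt_self {x : H} (hx : U x) : gdt x x = 1 - x.re ^ 2 := by
  have h : x.re ^ 2 + x.imI ^ 2 + x.imJ ^ 2 + x.imK ^ 2 = 1 := by
    rw [← Quaternion.normSq_def', Quaternion.normSq_eq_norm_mul_self, hx, one_mul]
  simp only [gdt]; linarith

private theorem gU_iff {x : H} (h : x.re ^ 2 + x.imI ^ 2 + x.imJ ^ 2 + x.imK ^ 2 = 1) : U x := by
  rw [← Quaternion.normSq_def', Quaternion.normSq_eq_norm_mul_self] at h
  have h1 : (‖x‖ - 1) * (‖x‖ + 1) = 0 := by linarith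
  rcases mul_eq_zero.1 h1 with h2 | h2
  · show ‖x‖ = 1
    linarith
  · linarith [norm_nonneg x]

private theorem g_par {w x y : H} (hw : NC w) (hc : Commute w x) (hre : x.re = y.re)
    (h1 : gdt x w = gdt y w) (h2 : gdt x x = gdt y y) : x = y := by
  obtain ⟨a, b, hab⟩ := (comm_iff hw).1 hc
  have e1 : x.imI = b * w.imI := by rw [hab]; simp
  have e2 : x.imJ = b * w.imJ := by rw [hab]; simp
  have e3 : x.imK = b * w.imK := by rw [hab]; simp
  simp only [gdt] at h1 h2
  have h3 : (x.imI - y.imI) ^ 2 + (x.imJ - y.imJ) ^ 2 + (x.imK - y.imK) ^ 2 = 0 := by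
    have h4 : x.imI * y.imI + x.imJ * y.imJ + x.imK * y.imK =
        x.imI * x.imI + x.imJ * x.imJ + x.imK * x.imK := by
      rw [e1, e2, e3] at h1 ⊢
      linear_combination (-b) * h1
    linear_combination (-2) * h4 - h2
  have k1 : x.imI - y.imI = 0 := by
    have : (x.imI - y.imI) ^ 2 = 0 := by
      linarith [sq_nonneg (x.imI - y.imI), sq_nonneg (x.imJ - y.imJ), sq_nonneg (x.imK - y.imK)]
    exact pow_eq_zero_iff (two_ne_zero) |>.1 this
  have k2 : x.imJ - y.imJ = 0 := by
    have : (x.imJ - y.imJ) ^ 2 = 0 := by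
      linarith [sq_nonneg (x.imI - y.imI), sq_nonneg (x.imJ - y.imJ), sq_nonneg (x.imK - y.imK)]
    exact pow_eq_zero_iff (two_ne_zero) |>.1 this
  have k3 : x.imK - y.imK = 0 := by
    have : (x.imK - y.imK) ^ 2 = 0 := by
      linarith [sq_nonneg (x.imI - y.imI), sq_nonneg (x.imJ - y.imJ), sq_nonneg (x.imK - y.imK)]
    exact pow_eq_zero_iff (two_ne_zero) |>.1 this
  ext
  · exact hre
  · linarith
  · linarith
  · linarith

/-- the unit normal of the plane spanned by two non-parallel imaginary parts -/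
private theorem g_normal {w v : H} (h : ¬ Commute w v) : ∃ N : H, U N ∧ N.re = 0 ∧
    ∀ d : H, gdt d w = 0 → gdt d v = 0 → d.imI = gdt d N * N.imI ∧ d.imJ = gdt d N * N.imJ ∧
      d.imK = gdt d N * N.imK := by
  obtain ⟨c1, hc1⟩ : ∃ c, c = w.imJ * v.imK - w.imK * v.imJ := ⟨_, rfl⟩
  obtain ⟨c2, hc2⟩ : ∃ c, c = w.imK * v.imI - w.imI * v.imK := ⟨_, rfl⟩
  obtain ⟨c3, hc3⟩ : ∃ c, c = w.imI * v.imJ - w.imJ * v.imI := ⟨_, rfl⟩
  obtain ⟨s, hs⟩ : ∃ s, s = c1 ^ 2 + c2 ^ 2 + c3 ^ 2 := ⟨_, rfl⟩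
  have hs0 : 0 < s := by
    by_contra hn
    have h0 : s ≤ 0 := not_lt.1 hn
    have z1 : c1 = 0 := by
      have : c1 ^ 2 = 0 := by linarith [sq_nonneg c1, sq_nonneg c2, sq_nonneg c3]
      exact pow_eq_zero_iff (two_ne_zero) |>.1 this
    have z2 : c2 = 0 := by
      have : c2 ^ 2 = 0 := by linarith [sq_nonneg c1, sq_nonneg c2, sq_nonneg c3]
      exact pow_eq_zero_iff (two_ne_zero) |>.1 this
    have z3 : c3 = 0 := by
      have : c3 ^ 2 = 0 := by linarith [sq_nonneg c1, sq_nonneg c2, sq_nonneg c3]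
      exact pow_eq_zero_iff (two_ne_zero) |>.1 this
    rw [z1] at hc1
    rw [z2] at hc2
    rw [z3] at hc3
    apply h
    show w * v = v * w
    ext
    · simp only [Quaternion.re_mul]; ring
    · simp only [Quaternion.imI_mul]; linarith
    · simp only [Quaternion.imJ_mul]; linarith
    · simp only [Quaternion.imK_mul]; linarith
  obtain ⟨t, ht⟩ : ∃ t, t = √s := ⟨_, rfl⟩
  have ht0 : 0 < t := by rw [ht]; exact Real.sqrt_pos.2 hs0
  have htt : t ^ 2 = s := by rw [ht]; exact Real.sq_sqrt hs0.le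
  obtain ⟨r, hr⟩ : ∃ r, r = t⁻¹ := ⟨_, rfl⟩
  have hrs : r ^ 2 * s = 1 := by
    rw [hr, ← htt]; field_simp
  refine ⟨⟨0, c1 * r, c2 * r, c3 * r⟩, ?_, rfl, ?_⟩
  · apply gU_iff
    show (0 : ℝ) ^ 2 + (c1 * r) ^ 2 + (c2 * r) ^ 2 + (c3 * r) ^ 2 = 1
    rw [hs] at hrs
    linear_combination hrs
  · intro d hd1 hd2
    simp only [gdt] at hd1 hd2 ⊢
    obtain ⟨d1, e1⟩ : ∃ c, c = d.imI := ⟨_, rfl⟩
    obtain ⟨d2, e2⟩ : ∃ c, c = d.imJ := ⟨_, rfl⟩
    obtain ⟨d3, e3⟩ : ∃ c, c = d.imK := ⟨_, rfl⟩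
    rw [← e1, ← e2, ← e3] at hd1 hd2 ⊢
    have f1 : s * d1 = (d1 * c1 + d2 * c2 + d3 * c3) * c1 := by
      rw [hs, hc1, hc2, hc3]
      linear_combination (w.imK * (w.imK * v.imI - w.imI * v.imK) -
        w.imJ * (w.imI * v.imJ - w.imJ * v.imI)) * hd2 -
        (v.imK * (w.imK * v.imI - w.imI * v.imK) - v.imJ * (w.imI * v.imJ - w.imJ * v.imI)) * hd1
    have f2 : s * d2 = (d1 * c1 + d2 * c2 + d3 * c3) * c2 := by
      rw [hs, hc1, hc2, hc3]
      linear_combination (w.imI * (w.imI * v.imJ - w.imJ * v.imI) -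
        w.imK * (w.imJ * v.imK - w.imK * v.imJ)) * hd2 -
        (v.imI * (w.imI * v.imJ - w.imJ * v.imI) - v.imK * (w.imJ * v.imK - w.imK * v.imJ)) * hd1
    have f3 : s * d3 = (d1 * c1 + d2 * c2 + d3 * c3) * c3 := by
      rw [hs, hc1, hc2, hc3]
      linear_combination (w.imJ * (w.imJ * v.imK - w.imK * v.imJ) -
        w.imI * (w.imK * v.imI - w.imI * v.imK)) * hd2 -
        (v.imJ * (w.imJ * v.imK - w.imK * v.imJ) - v.imI * (w.imK * v.imI - w.imI * v.imK)) * hd1
    refine ⟨?_, ?_, ?_⟩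
    · linear_combination (r ^ 2) * f1 - d1 * hrs
    · linear_combination (r ^ 2) * f2 - d2 * hrs
    · linear_combination (r ^ 2) * f3 - d3 * hrs

/-- reflection in the plane orthogonal to `N`: conjugation by `N` followed by `star` -/
private theorem g_refl {N x y : H} (hN : U N) (hN0 : N.re = 0) (hre : x.re = y.re)
    (h1 : y.imI = x.imI - 2 * gdt x N * N.imI) (h2 : y.imJ = x.imJ - 2 * gdt x N * N.imJ)
    (h3 : y.imK = x.imK - 2 * gdt x N * N.imK) : cj N x = star y := by
  have hn := gdt_self hN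
  rw [hN0] at hn
  simp only [gdt] at hn h1 h2 h3
  unfold cj
  ext
  · simp only [Quaternion.re_mul, Quaternion.imI_mul, Quaternion.imJ_mul, Quaternion.imK_mul,
      Quaternion.re_star, Quaternion.imI_star, Quaternion.imJ_star, Quaternion.imK_star, hN0]
    rw [← hre]
    linear_combination x.re * hn
  · simp only [Quaternion.re_mul, Quaternion.imI_mul, Quaternion.imJ_mul, Quaternion.imK_mul,
      Quaternion.re_star, Quaternion.imI_star, Quaternion.imJ_star, Quaternion.imK_star, hN0]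
    rw [h1]
    linear_combination (-x.imI) * hn
  · simp only [Quaternion.re_mul, Quaternion.imI_mul, Quaternion.imJ_mul, Quaternion.imK_mul,
      Quaternion.re_star, Quaternion.imI_star, Quaternion.imJ_star, Quaternion.imK_star, hN0]
    rw [h2]
    linear_combination (-x.imJ) * hn
  · simp only [Quaternion.re_mul, Quaternion.imI_mul, Quaternion.imJ_mul, Quaternion.imK_mul,
      Quaternion.re_star, Quaternion.imI_star, Quaternion.imJ_star, Quaternion.imK_star, hN0]
    rw [h3]
    linear_combination (-x.imK) * hn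

private theorem g_cj_data {n : ℕ} {a b : Fin n → H} {g : H} (hg : U g)
    (h1 : ∀ i, (a i).re = (b i).re) (h2 : ∀ i j, (a i * a j).re = (b i * b j).re) :
    (∀ i, (cj g (a i)).re = (b i).re) ∧
      ∀ i j, (cj g (a i) * cj g (a j)).re = (b i * b j).re := by
  refine ⟨fun i => by rw [cj_re hg, h1], fun i j => ?_⟩
  rw [← cj_mul hg, cj_re hg, h2]

/-- the case in which two non-commuting entries agree -/
private theorem g_two {n : ℕ} (a b : Fin n → H) (ha : ∀ i, U (a i)) (hb : ∀ i, U (b i))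
    (h1 : ∀ i, (a i).re = (b i).re) (h2 : ∀ i j, (a i * a j).re = (b i * b j).re)
    (i₀ j₀ : Fin n) (hi : a i₀ = b i₀) (hj : a j₀ = b j₀) (hn : ¬ Commute (a i₀) (a j₀)) :
    ∃ g, U g ∧ ((∀ i, cj g (a i) = b i) ∨ (∀ i, cj g (a i) = star (b i))) := by
  have hd : ∀ i j, gdt (a i) (a j) = gdt (b i) (b j) := by
    intro i j
    have := h2 i j
    rw [gdt_mul, gdt_mul, h1, h1] at this
    linarith
  obtain ⟨N, hN, hN0, hNd⟩ := g_normal hn
  have hNN := gdt_self hN
  rw [hN0] at hNN
  by_cases hall : ∀ i, a i = b i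
  · exact ⟨1, U_one, Or.inl fun i => by rw [cj_one_left, hall]⟩
  push Not at hall
  obtain ⟨k, hk⟩ := hall
  refine ⟨N, hN, Or.inr ?_⟩
  -- the difference of the imaginary parts
  have hdiff : ∀ i, ∃ m : ℝ, (b i).imI = (a i).imI - m * N.imI ∧
      (b i).imJ = (a i).imJ - m * N.imJ ∧ (b i).imK = (a i).imK - m * N.imK ∧
      (m = 0 ∨ m = 2 * gdt (a i) N) := by
    intro i
    have e1 : gdt (a i - b i) (a i₀) = 0 := by
      have := hd i i₀
      rw [← hi] at this
      simp only [gdt, Quaternion.imI_sub, Quaternion.imJ_sub, Quaternion.imK_sub] at this ⊢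
      linarith
    have e2 : gdt (a i - b i) (a j₀) = 0 := by
      have := hd i j₀
      rw [← hj] at this
      simp only [gdt, Quaternion.imI_sub, Quaternion.imJ_sub, Quaternion.imK_sub] at this ⊢
      linarith
    obtain ⟨f1, f2, f3⟩ := hNd _ e1 e2
    obtain ⟨m, hm⟩ : ∃ m, m = gdt (a i - b i) N := ⟨_, rfl⟩
    rw [← hm] at f1 f2 f3
    simp only [Quaternion.imI_sub, Quaternion.imJ_sub, Quaternion.imK_sub] at f1 f2 f3
    have g1 : (b i).imI = (a i).imI - m * N.imI := by linarith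
    have g2 : (b i).imJ = (a i).imJ - m * N.imJ := by linarith
    have g3 : (b i).imK = (a i).imK - m * N.imK := by linarith
    refine ⟨m, g1, g2, g3, ?_⟩
    have h3 := hd i i
    simp only [gdt] at h3 hNN ⊢
    rw [g1, g2, g3] at h3
    have h4 : m * (m - 2 * ((a i).imI * N.imI + (a i).imJ * N.imJ + (a i).imK * N.imK)) = 0 := by
      linear_combination (-1) * h3 - m ^ 2 * hNN
    rcases mul_eq_zero.1 h4 with h5 | h5
    · exact Or.inl h5
    · right; linarith
  obtain ⟨mk, k1, k2, k3, k4⟩ := hdiff k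
  have hmk : mk ≠ 0 := by
    rintro rfl
    apply hk
    ext
    · exact h1 k
    · linarith
    · linarith
    · linarith
  intro i
  obtain ⟨m, m1, m2, m3, m4⟩ := hdiff i
  have hm : m = 2 * gdt (a i) N := by
    rcases m4 with m4 | m4
    · have h3 := hd i k
      simp only [gdt] at h3 ⊢
      rw [m1, m2, m3, k1, k2, k3, m4] at h3
      have h4 : mk * ((a i).imI * N.imI + (a i).imJ * N.imJ + (a i).imK * N.imK) = 0 := by
        linear_combination h3
      have h5 := (mul_eq_zero.1 h4).resolve_left hmk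
      rw [h5, m4]; ring
    · exact m4
  rw [hm] at m1 m2 m3
  exact g_refl hN hN0 (h1 i) m1 m2 m3

/-- `(a i * a j).re = (a i).re (a j).re - ⟪im (a i), im (a j)⟫`, so the two families of imaginary
parts in `ℝ³` have the same Gram matrix and differ by a linear isometry of `ℝ³` (the span of one is
isometric to the span of the other; extend, `LinearIsometry.extend`), which is `± (rotation)`;
rotations are given by conjugation with a unit quaternion, and `-1` composed with it turns `b i` into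
`star (b i)`.  (One can avoid the theory of rotations: normalise with `conj_of_re` so that a
non-central `a i₀` equals `b i₀`; if all `a i` commute with it we are done up to a sign of the
orthogonal reflection; otherwise normalise with `conj_pair'` a second one not commuting with it; all
the other ones are then determined up to reflection in the plane; the signs of two elements outside
the plane are compatible by the Gram entry of the two.) -/
theorem gram {n : ℕ} (a b : Fin n → H) (ha : ∀ i, U (a i)) (hb : ∀ i, U (b i))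
    (h1 : ∀ i, (a i).re = (b i).re) (h2 : ∀ i j, (a i * a j).re = (b i * b j).re) :
    ∃ g, U g ∧ ((∀ i, cj g (a i) = b i) ∨ (∀ i, cj g (a i) = star (b i))) := by
  by_cases hall : ∀ i, ¬ NC (a i)
  · refine ⟨1, U_one, Or.inl fun i => ?_⟩
    rw [cj_one_left]
    have hb' : ¬ NC (b i) := by
      rw [NC_iff (hb i), ← h1 i, ← NC_iff (ha i)]
      exact hall i
    have := h1 i
    rcases eq_of_not_NC (ha i) (hall i) with e | e <;>
      rcases eq_of_not_NC (hb i) hb' with e' | e' <;> rw [e, e'] at this ⊢ <;>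
      norm_num at this
  push Not at hall
  obtain ⟨i₀, hi₀⟩ := hall
  obtain ⟨g, hg, hgi⟩ := conj_of_re (ha i₀) (hb i₀) (h1 i₀)
  obtain ⟨k1, k2⟩ := g_cj_data hg h1 h2
  have hNC : NC (b i₀) := by rw [← hgi]; exact (NC_cj hg).2 hi₀
  by_cases hcom : ∀ j, Commute (b i₀) (cj g (a j))
  · refine ⟨g, hg, Or.inl fun i => ?_⟩
    refine g_par hNC (hcom i) (k1 i) ?_ ?_
    · have := k2 i i₀
      rw [hgi, gdt_mul, gdt_mul, k1] at this
      linarith
    · rw [gdt_self (U_cj hg (ha i)), gdt_self (hb i), k1]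
  · push Not at hcom
    obtain ⟨j₀, hj₀⟩ := hcom
    have hNCp := (NC_of_not_commute (hb i₀) (U_cj hg (ha j₀)) hj₀).2.2
    obtain ⟨g', hg', h3, h4⟩ := conj_pair' (hb i₀) (U_cj hg (ha j₀)) (hb i₀) (hb j₀) rfl (k1 j₀)
      (by rw [← k2 i₀ j₀, hgi]) hNCp
    obtain ⟨l1, l2⟩ := g_cj_data hg' k1 k2
    obtain ⟨g'', hg'', hfin⟩ := g_two (fun i => cj g' (cj g (a i))) b
      (fun i => U_cj hg' (U_cj hg (ha i))) hb l1 l2 i₀ j₀ (by rw [hgi]; exact h3) h4 (by
        rw [commute_cj hg', hgi]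
        exact hj₀)
    refine ⟨g'' * (g' * g), U_mul hg'' (U_mul hg' hg), ?_⟩
    simp only [cj_cj] at hfin
    exact hfin

end Pool.Agent.W24dbe6
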