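import Pool.Agent.W_MP_24dbe6_h58.GeoComm

set_option autoImplicit false

/-!
Elements of infinite order.
-/

namespace Pool.Agent.W24dbe6

open Quaternion

theorem geoInf_sq {x : H} (hx : U x) : x.re ^ 2 + x.imI ^ 2 + x.imJ ^ 2 + x.imK ^ 2 = 1 := by
  have h1 : Quaternion.normSq x = 1 := by
    rw [Quaternion.normSq_eq_norm_mul_self]
    have h2 : ‖x‖ = 1 := hx
    rw [h2, mul_one]
  rw [Quaternion.normSq_def'] at h1
  linarith

theorem geoInf_sin {w : H} (hw : U w) :
    Real.sin (ang w) ^ 2 = w.imI ^ 2 + w.imJ ^ 2 + w.imK ^ 2 := by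
  have h1 := geoInf_sq hw
  have h2 := Real.sin_sq_add_cos_sq (ang w)
  rw [U_cos_ang hw] at h2
  linarith

/-- polar form of a unit quaternion, in coordinates -/
theorem geoInf_coords {w : H} (hw : U w) : ∃ a b c : ℝ, a ^ 2 + b ^ 2 + c ^ 2 = 1 ∧
    w = ⟨Real.cos (ang w), Real.sin (ang w) * a, Real.sin (ang w) * b, Real.sin (ang w) * c⟩ := by
  have hs := geoInf_sin hw
  have hc := U_cos_ang hw
  by_cases h : Real.sin (ang w) = 0
  · rw [h] at hs
    have h1 : w.imI = 0 := by nlinarith [sq_nonneg w.imI, sq_nonneg w.imJ, sq_nonneg w.imK]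
    have h2 : w.imJ = 0 := by nlinarith [sq_nonneg w.imI, sq_nonneg w.imJ, sq_nonneg w.imK]
    have h3 : w.imK = 0 := by nlinarith [sq_nonneg w.imI, sq_nonneg w.imJ, sq_nonneg w.imK]
    refine ⟨1, 0, 0, by norm_num, ?_⟩
    ext
    · exact hc.symm
    · rw [h1, h]; simp
    · rw [h2]; simp
    · rw [h3]; simp
  · refine ⟨w.imI / Real.sin (ang w), w.imJ / Real.sin (ang w), w.imK / Real.sin (ang w), ?_, ?_⟩
    · rw [div_pow, div_pow, div_pow, ← add_div, ← add_div, ← hs]
      exact div_self (pow_ne_zero 2 h)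
    · ext
      · exact hc.symm
      · exact (mul_div_cancel₀ _ h).symm
      · exact (mul_div_cancel₀ _ h).symm
      · exact (mul_div_cancel₀ _ h).symm

/-- de Moivre -/
theorem geoInf_pow {θ a b c : ℝ} (h : a ^ 2 + b ^ 2 + c ^ 2 = 1) (m : ℕ) :
    (⟨Real.cos θ, Real.sin θ * a, Real.sin θ * b, Real.sin θ * c⟩ : H) ^ m =
      ⟨Real.cos (m * θ), Real.sin (m * θ) * a, Real.sin (m * θ) * b, Real.sin (m * θ) * c⟩ := by
  induction m with
  | zero =>
    rw [pow_zero]
    ext <;> simp
  | succ m ih =>
    rw [pow_succ, ih]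
    have e : ((m + 1 : ℕ) : ℝ) * θ = m * θ + θ := by push_cast; ring
    rw [e, Real.cos_add, Real.sin_add]
    ext
    · refine (Quaternion.re_mul _ _).trans ?_
      dsimp only
      linear_combination (-(Real.sin (m * θ) * Real.sin θ)) * h
    · refine (Quaternion.imI_mul _ _).trans ?_
      dsimp only
      ring
    · refine (Quaternion.imJ_mul _ _).trans ?_
      dsimp only
      ring
    · refine (Quaternion.imK_mul _ _).trans ?_
      dsimp only
      ring

theorem geoInf_pow_eq_one {w : H} (hw : U w) (m : ℕ) :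
    w ^ m = 1 ↔ Real.cos (m * ang w) = 1 := by
  obtain ⟨a, b, c, h, hwc⟩ := geoInf_coords hw
  have hp : w ^ m = (⟨Real.cos (m * ang w), Real.sin (m * ang w) * a, Real.sin (m * ang w) * b,
      Real.sin (m * ang w) * c⟩ : H) := by
    conv_lhs => rw [hwc]
    exact geoInf_pow h m
  rw [hp]
  constructor
  · intro h1
    have := congrArg (fun z : H => z.re) h1
    simpa using this
  · intro h1
    have h2 : Real.sin (m * ang w) = 0 := by
      have := Real.sin_sq_add_cos_sq (m * ang w)
      rw [h1] at this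
      nlinarith
    rw [h1, h2]
    ext <;> simp

theorem inf_iff {w : H} (hw : U w) : Inf w ↔ Irrational (ang w / Real.pi) := by
  constructor
  · intro h
    rintro ⟨q, hq⟩
    have h1 : (q : ℝ) * Real.pi = ang w := by
      rw [hq, div_mul_cancel₀ _ Real.pi_ne_zero]
    refine h (2 * q.den) (Nat.mul_pos two_pos q.den_pos) ((geoInf_pow_eq_one hw _).2 ?_)
    rw [Real.cos_eq_one_iff]
    refine ⟨q.num, ?_⟩
    have h2 : (q : ℝ) * q.den = q.num := by exact_mod_cast Rat.mul_den_eq_num q
    rw [← h1]
    push_cast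
    linear_combination (-(2 * Real.pi)) * h2
  · intro h m hm h1
    rw [geoInf_pow_eq_one hw, Real.cos_eq_one_iff] at h1
    obtain ⟨n, hn⟩ := h1
    apply h
    refine ⟨2 * n / m, ?_⟩
    have hm' : (m : ℝ) ≠ 0 := by exact_mod_cast hm.ne'
    push_cast
    rw [div_eq_div_iff hm' Real.pi_ne_zero]
    linear_combination hn

theorem inf_NC {w : H} (hw : U w) (h : Inf w) : NC w := by
  by_contra hn
  rcases eq_of_not_NC hw hn with rfl | rfl
  · exact h 1 one_pos (one_pow 1)
  · exact h 2 two_pos (by norm_num)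

/-- a unit of infinite order which preserves the line of the pure unit `u` commutes with `u`
(if it anticommutes, it is pure and of order 4) -/
theorem inf_anti {x u : H} (hx : U x) (hinf : Inf x) (hu : U u) (hur : u.re = 0)
    (h : x * u = u * x ∨ x * u = -(u * x)) : Commute x u := by
  rcases h with h | h
  · exact h
  · exfalso
    have hu1 := geoInf_sq hu
    have hx1 := geoInf_sq hx
    have hI := congrArg (fun z : H => z.imI) h
    have hJ := congrArg (fun z : H => z.imJ) h
    have hK := congrArg (fun z : H => z.imK) h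
    simp only [Quaternion.imI_mul, Quaternion.imJ_mul, Quaternion.imK_mul, Quaternion.imI_neg,
      Quaternion.imJ_neg, Quaternion.imK_neg, hur] at hI hJ hK
    rw [hur] at hu1
    have hre : x.re = 0 := by
      have e : x.re = x.re * (0 ^ 2 + u.imI ^ 2 + u.imJ ^ 2 + u.imK ^ 2) := by rw [hu1, mul_one]
      rw [e]
      linear_combination (u.imI / 2) * hI + (u.imJ / 2) * hJ + (u.imK / 2) * hK
    rw [hre] at hx1
    have hxx : x * x = -1 := by
      ext
      · rw [Quaternion.re_mul, hre]
        simp only [Quaternion.re_neg, Quaternion.re_one]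
        linear_combination -hx1
      · rw [Quaternion.imI_mul, hre]
        simp only [Quaternion.imI_neg, Quaternion.imI_one]
        ring
      · rw [Quaternion.imJ_mul, hre]
        simp only [Quaternion.imJ_neg, Quaternion.imJ_one]
        ring
      · rw [Quaternion.imK_mul, hre]
        simp only [Quaternion.imK_neg, Quaternion.imK_one]
        ring
    apply hinf 4 (by norm_num)
    calc x ^ 4 = (x * x) * (x * x) := by simp only [pow_succ, pow_zero, one_mul, mul_assoc]
      _ = 1 := by rw [hxx]; norm_num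

/-- infinite order depends on the real part only (`conj_of_re` or `inf_iff`) -/
theorem inf_of_re {x y : H} (hx : U x) (hy : U y) (h : x.re = y.re) (hinf : Inf x) : Inf y := by
  rw [inf_iff hy]
  have h1 := (inf_iff hx).1 hinf
  unfold ang at h1 ⊢
  rwa [← h]

/-- the real parts of units of finite order form a countable set -/
theorem bad_countable : {v : ℝ | ∃ x : H, U x ∧ x.re = v ∧ ¬ Inf x}.Countable := by
  refine (Set.countable_range fun q : ℚ => Real.cos (q * Real.pi)).mono ?_
  rintro v ⟨x, hx, rfl, hinf⟩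
  rw [inf_iff hx] at hinf
  unfold Irrational at hinf
  rw [not_not] at hinf
  obtain ⟨q, hq⟩ := hinf
  refine ⟨q, ?_⟩
  show Real.cos (q * Real.pi) = x.re
  rw [hq, div_mul_cancel₀ _ Real.pi_ne_zero, U_cos_ang hx]

end Pool.Agent.W24dbe6
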