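import Pool.Agent.W_MP_24dbe6_h58.GeoComm

set_option autoImplicit false

/-!
Kronecker density.
-/

namespace Pool.Agent.W24dbe6

open Quaternion

private theorem kron_normSq {x : H} (hx : U x) :
    x.re ^ 2 + x.imI ^ 2 + x.imJ ^ 2 + x.imK ^ 2 = 1 := by
  rw [← Quaternion.normSq_def', Quaternion.normSq_eq_norm_mul_self, hx, one_mul]

/-- Kronecker: the powers of a unit `w` of infinite order are dense in its torus.
(`w = cos φ + sin φ u`, `φ/π` irrational, every `t` in the torus is `cos s + sin s u`;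
use density of `{m φ mod 2π : m ∈ ℕ}`.) -/
theorem kron {w t : H} (hw : U w) (hinf : Inf w) (ht : t ∈ Tor w) {ε : ℝ} (hε : 0 < ε) :
    ∃ m : ℕ, dist (w ^ m) t < ε := by
  have hNC : NC w := by
    by_contra hn
    rcases eq_of_not_NC hw hn with h | h
    · exact hinf 1 one_pos (by rw [h, pow_one])
    · exact hinf 2 two_pos (by rw [h]; simp)
  obtain ⟨u, hu, hur, hcomm, -⟩ := exists_axis hNC
  have hnu := kron_normSq hu
  rw [hur] at hnu
  have huu : u * u = -1 := by
    ext
    · simp [hur]; linarith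
    · simp [hur]; ring
    · simp [hur]; ring
    · simp [hur]; ring
  have huNC : NC u := by
    intro h
    have h1 : u.imI = 0 := by simpa using congrArg (fun q : H => q.imI) h
    have h2 : u.imJ = 0 := by simpa using congrArg (fun q : H => q.imJ) h
    have h3 : u.imK = 0 := by simpa using congrArg (fun q : H => q.imK) h
    rw [h1, h2, h3] at hnu
    norm_num at hnu
  let φ : ℂ →ₐ[ℝ] H := Complex.lift ⟨u, huu⟩
  have hφ : ∀ z : ℂ, φ z = (z.re : H) + (z.im : H) * u := by
    intro z
    have : φ z = algebraMap ℝ H z.re + z.im • u := Complex.liftAux_apply u huu z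
    rw [this, Algebra.smul_def]
    rfl
  have hφc : Continuous φ := φ.toLinearMap.continuous_of_finiteDimensional
  have key : ∀ x : H, U x → Commute x w → ∃ z : Circle, φ z = x := by
    intro x hx hxw
    have h1 : Commute u x := ((hcomm x).1 hxw).symm
    obtain ⟨a, b, hab⟩ := (comm_iff huNC).1 h1
    have hn := kron_normSq hx
    have e0 : x.re = a := by rw [hab]; simp [hur]
    have e1 : x.imI = b * u.imI := by rw [hab]; simp
    have e2 : x.imJ = b * u.imJ := by rw [hab]; simp
    have e3 : x.imK = b * u.imK := by rw [hab]; simp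
    rw [e0, e1, e2, e3] at hn
    have hn' : a ^ 2 + b ^ 2 = 1 := by
      have : b ^ 2 * (0 ^ 2 + u.imI ^ 2 + u.imJ ^ 2 + u.imK ^ 2) = b ^ 2 * 1 := by rw [hnu]
      linarith
    refine ⟨⟨⟨a, b⟩, ?_⟩, ?_⟩
    · refine mem_sphere_zero_iff_norm.2 ?_
      rw [← sq_eq_sq₀ (norm_nonneg _) zero_le_one, ← Complex.normSq_eq_norm_sq, Complex.normSq_mk]
      linarith
    · rw [hφ, hab]
  obtain ⟨zw, hzw⟩ := key w hw (Commute.refl w)
  obtain ⟨zt, hzt⟩ := key t ht.1 ht.2
  have : Fact (0 < 2 * Real.pi) := ⟨by positivity⟩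
  let e := AddCircle.homeomorphCircle'
  obtain ⟨a, ha⟩ := e.surjective zw
  obtain ⟨s, hs⟩ := e.surjective zt
  have hea : ∀ n : ℕ, (e (n • a) : Circle) = zw ^ n := by
    intro n
    rw [← ha]
    induction n with
    | zero =>
      simp only [zero_smul, pow_zero]
      exact Real.Angle.toCircle_zero
    | succ n ih =>
      rw [succ_nsmul, pow_succ, ← ih]
      exact Real.Angle.toCircle_add _ _
  have hpow : ∀ n : ℕ, φ (e (n • a)) = w ^ n := by
    intro n
    rw [hea, Circle.coe_pow, map_pow, hzw]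
  have hord : addOrderOf a = 0 := by
    by_contra h
    have h1 := addOrderOf_nsmul_eq_zero a
    have h2 := hpow (addOrderOf a)
    rw [h1] at h2
    have h3 := hpow 0
    rw [zero_smul, pow_zero] at h3
    rw [h3] at h2
    exact hinf _ (Nat.pos_of_ne_zero h) h2.symm
  have hd : DenseRange (fun n : ℕ => n • a) :=
    denseRange_zsmul_iff_nsmul.1 (AddCircle.denseRange_zsmul_iff.2 hord)
  have hcont : Continuous (fun y : AddCircle (2 * Real.pi) => φ (e y)) :=
    hφc.comp (continuous_subtype_val.comp e.continuous)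
  have hopen : IsOpen ((fun y : AddCircle (2 * Real.pi) => φ (e y)) ⁻¹' Metric.ball t ε) :=
    Metric.isOpen_ball.preimage hcont
  obtain ⟨n, hn⟩ := hd.exists_mem_open hopen ⟨s, by
    simp only [Set.mem_preimage, Metric.mem_ball]
    rw [hs, hzt, dist_self]
    exact hε⟩
  refine ⟨n, ?_⟩
  simp only [Set.mem_preimage, Metric.mem_ball] at hn
  rwa [hpow] at hn

end Pool.Agent.W24dbe6
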