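import Pool.Agent.W_MP_24dbe6_h58.Moves
import Pool.Agent.W_MP_24dbe6_h58.GeoKron
import Pool.Agent.W_MP_24dbe6_h58.GeoInf

set_option autoImplicit false

/-!
Braid moves with conjugation, rotation, flows.
-/

namespace Pool.Agent.W24dbe6

open Quaternion

variable {ι : Type}

theorem Mv_of_Bv {L L' : LL ι} (h : Bv L L') : Mv L L' :=
  ⟨1, L', U_one, h, (cjL_one L').symm⟩

theorem Mv_refl (L : LL ι) : Mv L L := Mv_of_Bv (Bv.refl L)

theorem Mv_conj {L : LL ι} {g : H} (hg : U g) : Mv L (cjL g L) :=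
  ⟨g, L, hg, Bv.refl L, rfl⟩

private lemma mvm_star_cjL {g : H} (hg : U g) (L : LL ι) : cjL (star g) (cjL g L) = L := by
  rw [cjL_cjL, U_star_mul hg, cjL_one]

private lemma mvm_cjL_star {g : H} (hg : U g) (L : LL ι) : cjL g (cjL (star g) L) = L := by
  rw [cjL_cjL, U_mul_star hg, cjL_one]

theorem Mv_trans {L L' L'' : LL ι} (h : Mv L L') (h' : Mv L' L'') : Mv L L'' := by
  obtain ⟨g, L₁, hg, h1, rfl⟩ := h
  obtain ⟨g', L₂, hg', h2, rfl⟩ := h'
  have h3 := Bv_cjL h2 (star g) (U_star hg)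
  rw [mvm_star_cjL hg] at h3
  refine ⟨g' * g, cjL (star g) L₂, U_mul hg' hg, Bv_trans h1 h3, ?_⟩
  rw [cjL_cjL, mul_assoc, U_mul_star hg, mul_one]

theorem Mv_symm {L L' : LL ι} (hL : UL L) (h : Mv L L') : Mv L' L := by
  obtain ⟨g, L₁, hg, h1, rfl⟩ := h
  refine ⟨star g, cjL g L, U_star hg, Bv_cjL (Bv_symm hL h1) g hg, ?_⟩
  exact (mvm_star_cjL hg L).symm

theorem Mv_UL {L L' : LL ι} (h : Mv L L') (hL : UL L) : UL L' := by
  obtain ⟨g, L₁, hg, h1, rfl⟩ := h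
  exact UL_cjL hg (Bv_UL h1 hL)

theorem Mv_perm {L L' : LL ι} (h : Mv L L') : (lab L').Perm (lab L) := by
  obtain ⟨g, L₁, hg, h1, rfl⟩ := h
  rw [lab_cjL]
  exact Bv_perm h1

theorem Mv_length {L L' : LL ι} (h : Mv L L') : L'.length = L.length := by
  obtain ⟨g, L₁, hg, h1, rfl⟩ := h
  rw [length_cjL]
  exact Bv_length h1

theorem Mv_Adm {θ : ι → ℝ} {L L' : LL ι} (h : Mv L L') (hL : Adm θ L) : Adm θ L' := by
  obtain ⟨g, L₁, hg, h1, rfl⟩ := h
  refine Adm_cjL hg ⟨Bv_re h1 hL.1, ?_⟩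
  rw [Bv_pr h1 (Adm_UL hL)]
  exact hL.2

theorem Mv_Dih {L L' : LL ι} (h : Mv L L') (hL : UL L) : Dih L' ↔ Dih L := by
  obtain ⟨g, L₁, hg, h1, rfl⟩ := h
  rw [Dih_cjL hg]
  exact Bv_Dih h1 hL

theorem Mv_NA {L L' : LL ι} (h : Mv L L') (hL : UL L) : NA L' ↔ NA L := by
  obtain ⟨g, L₁, hg, h1, rfl⟩ := h
  rw [NA_cjL hg]
  exact Bv_NA h1 hL

theorem Mv_Z {Z : LL ι → Prop} (hZ : BClosed Z) {L L' : LL ι} (h : Mv L L') (hL : Z L) : Z L' := by
  obtain ⟨g, L₁, hg, h1, rfl⟩ := h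
  exact hZ.cj L₁ g hg (Bv_Z hZ h1 hL)

/-- rotation: `bv_right` followed by conjugation by `star p.2` -/
theorem mv_rot {p : ι × H} {r : LL ι} (h : UL (p :: r)) : Mv (p :: r) (r ++ [p]) := by
  have hp : U p.2 := (UL_cons.1 h).1
  refine ⟨star p.2, cjL p.2 r ++ [p], U_star hp, bv_right r p, ?_⟩
  rw [cjL_append, mvm_star_cjL hp]
  have h1 : cj (star p.2) p.2 = p.2 :=
    cj_of_commute (U_star hp) ((commute_star hp).2 (Commute.refl p.2))
  have h2 : cjL (star p.2) [p] = [p] := by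
    rw [cjL_cons, h1]
    rfl
  rw [h2]

theorem mv_rot' {l r : LL ι} (h : UL (l ++ r)) : Mv (l ++ r) (r ++ l) := by
  induction l generalizing r with
  | nil =>
    rw [List.nil_append, List.append_nil]
    exact Mv_refl r
  | cons p l ih =>
    have h1 : Mv (p :: (l ++ r)) ((l ++ r) ++ [p]) := mv_rot h
    have h2 : UL (l ++ (r ++ [p])) := by
      rw [← List.append_assoc]
      exact Mv_UL h1 h
    have h3 := ih h2
    rw [List.append_assoc] at h1
    have h4 : (r ++ [p]) ++ l = r ++ (p :: l) := by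
      rw [List.append_assoc]
      rfl
    rw [h4] at h3
    exact Mv_trans h1 h3

/-- Flow along a block whose product has infinite order: the twists are conjugations of the block by the
powers of `pr S`, which are dense in the torus (`kron`), and `Z` is closed (`near_cjL`). -/
theorem flow {Z : LL ι → Prop} (hZ : BClosed Z) {l S r : LL ι} (h : Z (l ++ S ++ r))
    (hinf : Inf (pr S)) {t : H} (ht : t ∈ Tor (pr S)) : Z (l ++ cjL t S ++ r) := by
  have hU : UL (l ++ S ++ r) := hZ.unit _ h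
  have hS : UL S := (UL_append.1 (UL_append.1 hU).1).2
  have hw : U (pr S) := U_pr hS
  refine hZ.cl _ (fun ε hε => ?_)
  obtain ⟨m, hm⟩ := kron hw hinf ht (half_pos hε)
  refine ⟨l ++ cjL (pr S ^ m) S ++ r, Bv_Z hZ (Bv_ctx (bv_twist_pow S hS m) l r) h, ?_⟩
  have hd : 2 * dist t (pr S ^ m) < ε := by
    rw [dist_comm]
    linarith
  exact near_append (near_append (near_refl l hε) (near_cjL ht.1 (U_pow hw m) hS hd))
    (near_refl r hε)

end Pool.Agent.W24dbe6
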