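import Pool.Agent.W_MP_24dbe6_h58.SU2
import Pool.Agent.W_MP_24dbe6_h58.GeoInf
import Pool.Agent.W_MP_6f8a18_al.Ideals
import Pool.Agent.W_MP_6f8a18_al.Units
import Pool.Agent.W_MP_6f8a18_al.Abel

set_option autoImplicit false

/-!
Torsion in finitely generated subgroups of `SU(2)` is bounded (Selberg, Malcev).
-/

namespace Pool.Agent.W24dbe6

/-! ### Reduction modulo an ideal -/

theorem tors_expand {R : Type} [CommRing R] (X : Matrix (Fin 2) (Fin 2) R) (l : ℕ) :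
    ∃ Y : Matrix (Fin 2) (Fin 2) R, (1 + X) ^ l = 1 + l • X + X * X * Y := by
  induction l with
  | zero => exact ⟨0, by simp⟩
  | succ l ih =>
    obtain ⟨Y, hY⟩ := ih
    refine ⟨(l : ℕ) • (1 : Matrix (Fin 2) (Fin 2) R) + Y + Y * X, ?_⟩
    rw [pow_succ, hY]
    simp only [mul_add, add_mul, mul_one, one_mul, smul_mul_assoc, mul_smul_comm, succ_nsmul,
      mul_assoc]
    abel

/-- An element of order prime to the residue characteristic which is `1` modulo `m` is `1`. -/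
theorem tors_key {R : Type} [CommRing R] (m : Ideal R) (hm : ⨅ k : ℕ, m ^ k = ⊥) {l : ℕ} {a : R}
    (ha : 1 - a * l ∈ m) (X : Matrix (Fin 2) (Fin 2) R) (hX : ∀ i j, X i j ∈ m)
    (h : (1 + X) ^ l = 1) : X = 0 := by
  obtain ⟨Y, hY⟩ := tors_expand X l
  rw [h] at hY
  have h1 : l • X = -(X * X * Y) := by
    have h2 : l • X + X * X * Y = 0 := by
      have h3 : (1 : Matrix (Fin 2) (Fin 2) R) + 0 = 1 + (l • X + X * X * Y) := by
        rw [add_zero, ← add_assoc]; exact hY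
      exact (add_left_cancel h3).symm
    exact eq_neg_of_add_eq_zero_left h2
  have hstep : ∀ k : ℕ, ∀ i j, X i j ∈ m ^ (k + 1) := by
    intro k
    induction k with
    | zero => intro i j; simpa using hX i j
    | succ k ih =>
      intro i j
      have h2 : ∀ i j, (X * X * Y) i j ∈ m ^ (k + 1 + 1) := by
        intro i j
        rw [Matrix.mul_apply]
        refine Ideal.sum_mem _ fun u _ => Ideal.mul_mem_right _ _ ?_
        rw [Matrix.mul_apply]
        refine Ideal.sum_mem _ fun v _ => ?_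
        have h3 : X i v * X v u ∈ m ^ (k + 1 + (k + 1)) := by
          rw [pow_add]
          exact Ideal.mul_mem_mul (ih i v) (ih v u)
        exact Ideal.pow_le_pow_right (by omega) h3
      have h4 : (l : R) * X i j ∈ m ^ (k + 1 + 1) := by
        have h5 := congrArg (fun M : Matrix (Fin 2) (Fin 2) R => M i j) h1
        simp only [Matrix.smul_apply, Matrix.neg_apply, nsmul_eq_mul] at h5
        rw [h5]
        exact neg_mem (h2 i j)
      have h6 : X i j = a * ((l : R) * X i j) + (1 - a * l) * X i j := by ring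
      rw [h6]
      refine add_mem (Ideal.mul_mem_left _ _ h4) ?_
      rw [pow_succ' m (k + 1)]
      exact Ideal.mul_mem_mul ha (ih i j)
  ext i j
  have h7 : X i j ∈ ⨅ k : ℕ, m ^ k := by
    rw [Ideal.mem_iInf]
    intro k
    exact Ideal.pow_le_pow_right (Nat.le_succ k) (hstep k i j)
  rw [hm, Ideal.mem_bot] at h7
  rw [h7]
  rfl

/-- A torsion element which is `1` modulo `m` has order a power of the residue characteristic. -/
theorem tors_ppow {R : Type} [CommRing R] (m : Ideal R) (hm : ⨅ k : ℕ, m ^ k = ⊥) {p : ℕ}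
    (hp : p.Prime) (hpm : (p : R) ∈ m) (M : Matrix (Fin 2) (Fin 2) R)
    (hM : (Ideal.Quotient.mk m).mapMatrix M = 1) {t : ℕ} (ht : 0 < t) (h : M ^ t = 1) :
    ∃ k, orderOf M = p ^ k := by
  have ho : 0 < orderOf M := orderOf_pos_iff.2 (isOfFinOrder_iff_pow_eq_one.2 ⟨t, ht, h⟩)
  refine ⟨_, Nat.eq_prime_pow_of_unique_prime_dvd ho.ne' ?_⟩
  intro d hd hdo
  by_contra hdp
  obtain ⟨e, he⟩ := hdo
  have he0 : 0 < e := by
    rcases Nat.eq_zero_or_pos e with h0 | h0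
    · rw [h0, mul_zero] at he
      omega
    · exact h0
  have hK : (M ^ e) ^ d = 1 := by
    rw [← pow_mul, mul_comm, ← he]
    exact pow_orderOf_eq_one M
  have hcop : Nat.Coprime d p := (Nat.coprime_primes hd hp).2 hdp
  have hbez := Nat.gcd_eq_gcd_ab d p
  rw [hcop.gcd_eq_one] at hbez
  have ha : 1 - ((Nat.gcdA d p : ℤ) : R) * (d : R) ∈ m := by
    have h1 : (1 : R) = (d : R) * ((Nat.gcdA d p : ℤ) : R) + (p : R) * ((Nat.gcdB d p : ℤ) : R) := by
      exact_mod_cast congrArg (fun z : ℤ => (z : R)) hbez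
    have h2 : 1 - ((Nat.gcdA d p : ℤ) : R) * (d : R) = (p : R) * ((Nat.gcdB d p : ℤ) : R) := by
      linear_combination h1
    rw [h2]
    exact Ideal.mul_mem_right _ _ hpm
  have hX : ∀ i j, (M ^ e - 1) i j ∈ m := by
    have h1 : (Ideal.Quotient.mk m).mapMatrix (M ^ e - 1) = 0 := by
      rw [map_sub, map_pow, hM, one_pow, map_one, sub_self]
    intro i j
    have h2 := congrArg (fun N : Matrix (Fin 2) (Fin 2) (R ⧸ m) => N i j) h1
    simp only [RingHom.mapMatrix_apply, Matrix.map_apply, Matrix.zero_apply] at h2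
    exact Ideal.Quotient.eq_zero_iff_mem.1 h2
  have h0 := tors_key m hm ha (M ^ e - 1) hX (by rw [add_sub_cancel]; exact hK)
  have h1 : M ^ e = 1 := sub_eq_zero.1 h0
  have h2 := orderOf_dvd_of_pow_eq_one h1
  have h3 := Nat.le_of_dvd he0 h2
  rw [he] at h3
  have := hd.two_le
  nlinarith

/-- With two residue characteristics: the torsion is bounded. -/
theorem tors_two {R : Type} [CommRing R] [IsDomain R] [IsNoetherianRing R] (m₁ m₂ : Ideal R)
    (h1 : m₁ ≠ ⊤) (h2 : m₂ ≠ ⊤) {p₁ p₂ : ℕ} (hp1 : p₁.Prime) (hp2 : p₂.Prime) (hne : p₁ ≠ p₂)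
    (hm1 : (p₁ : R) ∈ m₁) (hm2 : (p₂ : R) ∈ m₂) (f1 : Finite (R ⧸ m₁)) (f2 : Finite (R ⧸ m₂)) :
    ∃ N : ℕ, 0 < N ∧ ∀ (M : Matrix (Fin 2) (Fin 2) R) (t : ℕ), 0 < t → M ^ t = 1 → M ^ N = 1 := by
  have key : ∀ (m : Ideal R), Finite (R ⧸ m) → ∃ N : ℕ, 0 < N ∧
      ∀ (M : Matrix (Fin 2) (Fin 2) R) (t : ℕ), 0 < t → M ^ t = 1 →
        (Ideal.Quotient.mk m).mapMatrix (M ^ N) = 1 := by
    intro m hfin
    have hfM : Finite (Matrix (Fin 2) (Fin 2) (R ⧸ m)) :=
      inferInstanceAs (Finite (Fin 2 → Fin 2 → R ⧸ m))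
    refine ⟨Nat.card (Matrix (Fin 2) (Fin 2) (R ⧸ m))ˣ, Nat.card_pos, ?_⟩
    intro M t ht hMt
    have hu : IsUnit ((Ideal.Quotient.mk m).mapMatrix M) := by
      refine IsUnit.of_pow_eq_one (n := t) ?_ ht.ne'
      rw [← map_pow, hMt, map_one]
    obtain ⟨u, hu⟩ := hu
    rw [map_pow, ← hu, ← Units.val_pow_eq_pow_val, pow_card_eq_one', Units.val_one]
  obtain ⟨N1, hN1, k1⟩ := key m₁ f1
  obtain ⟨N2, hN2, k2⟩ := key m₂ f2
  refine ⟨N1 * N2, Nat.mul_pos hN1 hN2, fun M t ht hMt => ?_⟩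
  have e1 : (Ideal.Quotient.mk m₁).mapMatrix (M ^ (N1 * N2)) = 1 := by
    rw [pow_mul, map_pow, k1 M t ht hMt, one_pow]
  have e2 : (Ideal.Quotient.mk m₂).mapMatrix (M ^ (N1 * N2)) = 1 := by
    rw [mul_comm, pow_mul, map_pow, k2 M t ht hMt, one_pow]
  have e3 : (M ^ (N1 * N2)) ^ t = 1 := by rw [← pow_mul, mul_comm, pow_mul, hMt, one_pow]
  obtain ⟨a, ha⟩ := tors_ppow m₁ (Ideal.iInf_pow_eq_bot_of_isDomain _ h1) hp1 hm1 _ e1 ht e3
  obtain ⟨b, hb⟩ := tors_ppow m₂ (Ideal.iInf_pow_eq_bot_of_isDomain _ h2) hp2 hm2 _ e2 ht e3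
  have hcop : Nat.Coprime (p₁ ^ a) (p₂ ^ b) :=
    Nat.Coprime.pow _ _ ((Nat.coprime_primes hp1 hp2).2 hne)
  rw [← ha, ← hb, Nat.coprime_self] at hcop
  rw [orderOf_eq_one_iff] at hcop
  exact hcop

/-! ### Finitely generated subrings of `ℂ` -/

theorem tors_ideals_abs (A B : Type) [CommRing A] [Algebra.FiniteType ℤ A] [CommRing B]
    [Nontrivial B] [Algebra ℚ B] [Algebra.FiniteType ℚ B] (ι : A →+* B) :
    ∃ S : Finset ℕ, ∀ p : ℕ, p.Prime → p ∉ S →
      ∃ m : Ideal A, m ≠ ⊤ ∧ (p : A) ∈ m ∧ Finite (A ⧸ m) := by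
  classical
  obtain ⟨t, ht⟩ := (inferInstance : Algebra.FiniteType ℤ A).out
  obtain ⟨F, fF, cF, π, hπ, halg⟩ := Pool.Agent.W_MP_6f8a18_al.ideals_exists_field B
  let s' : Finset F := t.image fun x => π (ι x)
  obtain ⟨S, hS⟩ := Pool.Agent.W_MP_6f8a18_al.exists_not_unit F s' (fun x _ => halg x)
  refine ⟨S, fun p hp hpS => ?_⟩
  have hT : ∀ a, π (ι a) ∈ Algebra.adjoin ℤ (s' : Set F) := by
    intro a
    have h1 : (⊤ : Subalgebra ℤ A) ≤
        (Algebra.adjoin ℤ (s' : Set F)).comap (RingHom.toIntAlgHom (π.comp ι)) := by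
      rw [← ht]
      refine Algebra.adjoin_le ?_
      intro x hx
      exact Algebra.subset_adjoin (Finset.mem_coe.2 (Finset.mem_image_of_mem _ hx))
    exact h1 (Algebra.mem_top (x := a))
  have hnu : ¬ IsUnit (p : A) := by
    intro hu
    obtain ⟨b, hb⟩ := hu.exists_right_inv
    apply hS p hp hpS
    have h2 : (p : F) * π (ι b) = 1 := by
      have h3 := congrArg (fun x => π (ι x)) hb
      simpa using h3
    rw [inv_eq_of_mul_eq_one_right h2]
    exact hT b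
  obtain ⟨m, hmax, hle⟩ := Ideal.exists_le_maximal (Ideal.span {(p : A)})
    (fun h => hnu (Ideal.span_singleton_eq_top.1 h))
  have hpm : (p : A) ∈ m := hle (Ideal.mem_span_singleton_self _)
  have : Fact p.Prime := ⟨hp⟩
  exact ⟨m, hmax.ne_top, hpm, Pool.Agent.W_MP_6f8a18_al.finite_residue A p m hpm⟩

theorem tors_ideals (s : Finset ℂ) : ∃ S : Finset ℕ, ∀ p : ℕ, p.Prime → p ∉ S →
    ∃ m : Ideal (Algebra.adjoin ℤ (s : Set ℂ)), m ≠ ⊤ ∧
      ((p : Algebra.adjoin ℤ (s : Set ℂ)) ∈ m) ∧ Finite ((Algebra.adjoin ℤ (s : Set ℂ)) ⧸ m) := by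
  have hftB : Algebra.FiniteType ℚ (Algebra.adjoin ℚ (s : Set ℂ)) :=
    (Subalgebra.fg_iff_finiteType _).1 (Subalgebra.fg_adjoin_finset s)
  have hftA : Algebra.FiniteType ℤ (Algebra.adjoin ℤ (s : Set ℂ)) :=
    (Subalgebra.fg_iff_finiteType _).1 (Subalgebra.fg_adjoin_finset s)
  have hsub : Algebra.adjoin ℤ (s : Set ℂ) ≤
      (Algebra.adjoin ℚ (s : Set ℂ)).restrictScalars ℤ :=
    Algebra.adjoin_le Algebra.subset_adjoin
  exact tors_ideals_abs (Algebra.adjoin ℤ (s : Set ℂ)) (Algebra.adjoin ℚ (s : Set ℂ))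
    (RingHom.codRestrict (Algebra.adjoin ℤ (s : Set ℂ)).val.toRingHom
      (Algebra.adjoin ℚ (s : Set ℂ)) (fun a => hsub a.2))

/-- bounded torsion for the matrices over a finitely generated subring of `ℂ` -/
theorem tors_adjoin (s : Finset ℂ) : ∃ N : ℕ, 0 < N ∧
    ∀ (M : Matrix (Fin 2) (Fin 2) (Algebra.adjoin ℤ (s : Set ℂ))) (t : ℕ), 0 < t → M ^ t = 1 →
      M ^ N = 1 := by
  have hftA : Algebra.FiniteType ℤ (Algebra.adjoin ℤ (s : Set ℂ)) :=
    (Subalgebra.fg_iff_finiteType _).1 (Subalgebra.fg_adjoin_finset s)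
  have hNA : IsNoetherianRing (Algebra.adjoin ℤ (s : Set ℂ)) :=
    Algebra.FiniteType.isNoetherianRing ℤ _
  obtain ⟨S, hS⟩ := tors_ideals s
  obtain ⟨p1, hp1a, hp1⟩ := Nat.exists_infinite_primes (S.sup id + 1)
  obtain ⟨p2, hp2a, hp2⟩ := Nat.exists_infinite_primes (p1 + 1)
  have n1 : p1 ∉ S := fun h => by
    have : p1 ≤ S.sup id := Finset.le_sup (f := id) h
    omega
  have n2 : p2 ∉ S := fun h => by
    have : p2 ≤ S.sup id := Finset.le_sup (f := id) h
    omega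
  obtain ⟨m1, a1, b1, c1⟩ := hS p1 hp1 n1
  obtain ⟨m2, a2, b2, c2⟩ := hS p2 hp2 n2
  exact tors_two m1 m2 a1 a2 hp1 hp2 (by omega) b1 b2 c1 c2

/-! ### Representations -/

theorem tors_coe_mul (g h : SU2) : ((g * h : SU2) : Matrix (Fin 2) (Fin 2) ℂ) =
    (g : Matrix (Fin 2) (Fin 2) ℂ) * (h : Matrix (Fin 2) (Fin 2) ℂ) := Submonoid.coe_mul _ _ _

theorem tors_coe_one : ((1 : SU2) : Matrix (Fin 2) (Fin 2) ℂ) = 1 := Submonoid.coe_one _

theorem tors_coe_pow (g : SU2) (k : ℕ) : ((g ^ k : SU2) : Matrix (Fin 2) (Fin 2) ℂ) =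
    (g : Matrix (Fin 2) (Fin 2) ℂ) ^ k := by
  induction k with
  | zero => rw [pow_zero, pow_zero, tors_coe_one]
  | succ k ih => rw [pow_succ, pow_succ, tors_coe_mul, ih]

theorem tors_coe_inv (g : SU2) : ((g⁻¹ : SU2) : Matrix (Fin 2) (Fin 2) ℂ) =
    Matrix.adjugate (g : Matrix (Fin 2) (Fin 2) ℂ) := by
  have h2 : (g : Matrix (Fin 2) (Fin 2) ℂ) * ((g⁻¹ : SU2) : Matrix (Fin 2) (Fin 2) ℂ) = 1 := by
    rw [← tors_coe_mul, mul_inv_cancel, tors_coe_one]
  have h4 : Matrix.det (g : Matrix (Fin 2) (Fin 2) ℂ) = 1 :=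
    (Matrix.mem_specialUnitaryGroup_iff.1 g.2).2
  have h5 : Matrix.adjugate (g : Matrix (Fin 2) (Fin 2) ℂ) * (g : Matrix (Fin 2) (Fin 2) ℂ) = 1 := by
    rw [Matrix.adjugate_mul, h4, one_smul]
  calc ((g⁻¹ : SU2) : Matrix (Fin 2) (Fin 2) ℂ) = (Matrix.adjugate (g : Matrix (Fin 2) (Fin 2) ℂ) *
      (g : Matrix (Fin 2) (Fin 2) ℂ)) * ((g⁻¹ : SU2) : Matrix (Fin 2) (Fin 2) ℂ) := by
        rw [h5, one_mul]
    _ = _ := by rw [mul_assoc, h2, mul_one]

/-- the entries of all the matrices of a representation lie in a subring containing the entries of the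
matrices of the generators -/
theorem tors_entries {n : ℕ} (ρ : Pi1 n →* SU2) (A : Subalgebra ℤ ℂ)
    (h : ∀ (k : Fin n) (i j : Fin 2), (ρ (c k) : Matrix (Fin 2) (Fin 2) ℂ) i j ∈ A) (x : Pi1 n) :
    ∀ i j, (ρ x : Matrix (Fin 2) (Fin 2) ℂ) i j ∈ A := by
  have h1 : x ∈ Subgroup.closure (Set.range (c : Fin n → Pi1 n)) := by
    have h2 : Subgroup.closure (Set.range (c : Fin n → Pi1 n)) = ⊤ :=
      PresentedGroup.closure_range_of _
    rw [h2]
    exact Subgroup.mem_top x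
  induction h1 using Subgroup.closure_induction with
  | mem y hy =>
    obtain ⟨k, rfl⟩ := hy
    exact h k
  | one =>
    intro i j
    rw [map_one, tors_coe_one, Matrix.one_apply]
    split_ifs
    · exact A.one_mem
    · exact A.zero_mem
  | mul y z _ _ hy hz =>
    intro i j
    rw [map_mul, tors_coe_mul, Matrix.mul_apply]
    exact A.sum_mem fun u _ => A.mul_mem (hy i u) (hz u j)
  | inv y _ hy =>
    intro i j
    rw [map_inv, tors_coe_inv, Matrix.adjugate_fin_two]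
    fin_cases i <;> fin_cases j
    · exact hy 1 1
    · exact A.neg_mem (hy 0 1)
    · exact A.neg_mem (hy 1 0)
    · exact hy 0 0

/-- transfer to the subring -/
theorem tors_lift (A : Subalgebra ℤ ℂ) {N : ℕ}
    (hN : ∀ (M : Matrix (Fin 2) (Fin 2) A) (t : ℕ), 0 < t → M ^ t = 1 → M ^ N = 1)
    (P : Matrix (Fin 2) (Fin 2) ℂ) (hP : ∀ i j, P i j ∈ A) {t : ℕ} (ht : 0 < t) (h : P ^ t = 1) :
    P ^ N = 1 := by
  have hf : Function.Injective
      (A.val.toRingHom.mapMatrix : Matrix (Fin 2) (Fin 2) A →+* Matrix (Fin 2) (Fin 2) ℂ) := by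
    intro P Q hPQ
    ext i j
    exact congrFun (congrFun hPQ i) j
  obtain ⟨M, hM⟩ : ∃ M : Matrix (Fin 2) (Fin 2) A, A.val.toRingHom.mapMatrix M = P :=
    ⟨fun i j => ⟨P i j, hP i j⟩, rfl⟩
  have h1 : M ^ t = 1 := by
    apply hf
    rw [map_pow, hM, map_one, h]
  rw [← hM, ← map_pow, hN M t ht h1, map_one]

/-- Let `A` be the subring of `ℂ` generated by the entries of the matrices `ρ(c_i)`, `ρ(c_i)⁻¹`: a finitely
generated domain of characteristic `0`.  It has maximal ideals `m₁ ∋ p₁`, `m₂ ∋ p₂` with finite residue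
fields for two different primes (only finitely many primes are invertible in `A`; tools:
`Pool.Agent.W_MP_6f8a18_al`: `finite_residue` in Abel.lean, `exists_ideals` in Ideals.lean together with
`exists_not_unit`, or a direct argument).  An element `h ≡ 1 mod m` of prime order `ℓ` different from
the residue characteristic is `1`: if `h = 1 + x` with `x ∈ m^k` (entrywise) then `ℓ x ∈ m^{k+1}`, so
`x ∈ m^{k+1}` because `ℓ` is invertible mod `m`; `⋂ m^k = 0` (Krull).  So with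
`N_i = #GL₂(A/m_i)`, a torsion element `g` has `g^{N₁ N₂}` of order both a power of `p₁` and of `p₂`. -/
theorem torsion_bound {n : ℕ} (ρ : Pi1 n →* SU2) : ∃ N : ℕ, 0 < N ∧
    ∀ x : Pi1 n, (∃ m : ℕ, 0 < m ∧ ρ x ^ m = 1) → ρ x ^ N = 1 := by
  classical
  obtain ⟨s, hs⟩ : ∃ s : Finset ℂ, s = Finset.univ.image fun t : Fin n × Fin 2 × Fin 2 =>
    (ρ (c t.1) : Matrix (Fin 2) (Fin 2) ℂ) t.2.1 t.2.2 := ⟨_, rfl⟩
  have hgen : ∀ (k : Fin n) (i j : Fin 2),
      (ρ (c k) : Matrix (Fin 2) (Fin 2) ℂ) i j ∈ Algebra.adjoin ℤ (s : Set ℂ) := by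
    intro k i j
    refine Algebra.subset_adjoin ?_
    rw [Finset.mem_coe, hs]
    exact Finset.mem_image.2 ⟨(k, i, j), Finset.mem_univ _, rfl⟩
  obtain ⟨N, hN, hNt⟩ := tors_adjoin s
  refine ⟨N, hN, ?_⟩
  rintro x ⟨t, ht, hxt⟩
  have h1 : (ρ x : Matrix (Fin 2) (Fin 2) ℂ) ^ t = 1 := by
    rw [← tors_coe_pow, hxt, tors_coe_one]
  have h2 := tors_lift (Algebra.adjoin ℤ (s : Set ℂ)) hNt _ (tors_entries ρ _ hgen x) ht h1
  apply Subtype.ext
  rw [tors_coe_pow, h2, tors_coe_one]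

/-- hence the real parts of the torsion elements of the image form a finite set -/
theorem torsion_re_finite {n : ℕ} (ρ : Pi1 n →* SU2) :
    {v : ℝ | ∃ x : Pi1 n, ¬ Inf (toH (ρ x)) ∧ v = (toH (ρ x)).re}.Finite := by
  obtain ⟨N, hN, hb⟩ := torsion_bound ρ
  refine ((Set.finite_Icc (0 : ℤ) N).image
    (fun k : ℤ => Real.cos ((k : ℝ) * (2 * Real.pi) / N))).subset ?_
  rintro v ⟨x, hx, rfl⟩
  unfold Inf at hx
  push Not at hx
  obtain ⟨m, hm, hxm⟩ := hx
  have h1 : ρ x ^ m = 1 := by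
    apply toH_injective
    rw [toH_pow, hxm, toH_one]
  have h2 : toH (ρ x) ^ N = 1 := by rw [← toH_pow, hb x ⟨m, hm, h1⟩, toH_one]
  rw [geoInf_pow_eq_one (U_toH _), Real.cos_eq_one_iff] at h2
  obtain ⟨k, hk⟩ := h2
  have hN' : (0 : ℝ) < N := by exact_mod_cast hN
  have hpi := Real.pi_pos
  obtain ⟨a1, a2⟩ := ang_mem (toH (ρ x))
  refine ⟨k, ?_, ?_⟩
  · constructor
    · have h3 : (0 : ℝ) ≤ k * (2 * Real.pi) := by rw [hk]; positivity
      have h4 : (0 : ℝ) ≤ k := by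
        by_contra hc
        push Not at hc
        have : (k : ℝ) * (2 * Real.pi) < 0 := mul_neg_of_neg_of_pos hc (by positivity)
        linarith
      exact_mod_cast h4
    · have h3 : (k : ℝ) * (2 * Real.pi) ≤ N * Real.pi := by
        rw [hk]
        exact mul_le_mul_of_nonneg_left a2 hN'.le
      have h4 : (k : ℝ) * 2 ≤ N := by
        have : (k : ℝ) * 2 * Real.pi ≤ N * Real.pi := by linarith
        exact le_of_mul_le_mul_right this hpi
      have h5 : (k : ℝ) ≤ N := by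
        rcases le_or_gt (0 : ℝ) k with h | h
        · linarith
        · linarith
      exact_mod_cast h5
  · change Real.cos ((k : ℝ) * (2 * Real.pi) / N) = (toH (ρ x)).re
    rw [hk, mul_div_cancel_left₀ _ hN'.ne']
    exact U_cos_ang (U_toH _)

end Pool.Agent.W24dbe6
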