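import Pool.Agent.W_MP_24dbe6_h58.AbDefs
import Pool.Agent.W_MP_24dbe6_h58.DefsB
import Pool.Agent.W_MP_24dbe6_h58.AbA
import Pool.Agent.W_MP_24dbe6_h58.GeoB
import Pool.Agent.W_MP_24dbe6_h58.Gram
import Pool.Agent.W_MP_24dbe6_h58.MovesM
import Pool.Agent.W_MP_24dbe6_h58.Torsion

set_option autoImplicit false

/-!
An infinite orbit contains a good pair.
-/

namespace Pool.Agent.W24dbe6

open Quaternion

/-- the sums `± a₁ ± … ± a_k` -/
def infOrbS : List ℝ → Set ℝ
  | [] => {0}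
  | (a :: l) => (fun s => a + s) '' infOrbS l ∪ (fun s => -a + s) '' infOrbS l

theorem infOrbS_finite (l : List ℝ) : (infOrbS l).Finite := by
  induction l with
  | nil => exact Set.finite_singleton 0
  | cons a l ih => exact (ih.image _).union (ih.image _)

theorem infOrb_comm {u x : H} (hu : U u) (hr : u.re = 0) (hx : U x) (hc : Commute x u) {a : ℝ}
    (ha : x.re = Real.cos a) : x = E u a ∨ x = E u (-a) := by
  obtain ⟨t, rfl⟩ := exists_E hu hr hx hc
  rw [E_re hr] at ha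
  have h1 : Real.sin t ^ 2 = Real.sin a ^ 2 := by
    have h2 := Real.sin_sq_add_cos_sq t
    have h3 := Real.sin_sq_add_cos_sq a
    rw [ha] at h2
    linarith
  rcases sq_eq_sq_iff_eq_or_eq_neg.1 h1 with h | h
  · left
    unfold E
    rw [ha, h]
  · right
    unfold E
    rw [ha, h, Real.cos_neg, Real.sin_neg]

theorem infOrb_prod {u : H} (hu : U u) (hr : u.re = 0) {xs : List H} {l : List ℝ} (h : Has xs l)
    (hc : ∀ x ∈ xs, Commute x u) : ∃ s ∈ infOrbS l, xs.prod = E u s := by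
  unfold Has at h
  induction h with
  | nil => exact ⟨0, rfl, by rw [List.prod_nil, E_zero]⟩
  | @cons x a xs l hxa _ ih =>
    obtain ⟨s, hs, hp⟩ := ih fun z hz => hc z (List.mem_cons_of_mem _ hz)
    rw [List.prod_cons, hp]
    rcases infOrb_comm hu hr hxa.1 (hc x List.mem_cons_self) hxa.2 with h | h
    · exact ⟨a + s, Or.inl ⟨s, hs, rfl⟩, by rw [E_add hu hr, h]⟩
    · exact ⟨-a + s, Or.inr ⟨s, hs, rfl⟩, by rw [E_add hu hr, h]⟩

/-- the products of commuting units with given angles have finitely many real parts: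
`cos (± a₁ ± … ± a_k)` -/
theorem ab_values_finite (l : List ℝ) :
    {v : ℝ | ∃ xs : List H, Has xs l ∧ ¬ NAl xs ∧ v = xs.prod.re}.Finite := by
  refine ((infOrbS_finite l).image Real.cos).subset ?_
  rintro v ⟨xs, h1, h2, rfl⟩
  unfold NAl at h2
  push Not at h2
  obtain ⟨u, hu, hr, hc⟩ : ∃ u : H, U u ∧ u.re = 0 ∧ ∀ x ∈ xs, Commute x u := by
    by_cases hall : ∀ x ∈ xs, ¬ NC x
    · refine ⟨⟨0, 1, 0, 0⟩, ?_, rfl, fun x hx => commute_of_not_NC (hall x hx) _⟩
      apply AbA_U_of_sq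
      norm_num
    · push Not at hall
      obtain ⟨x, hx, hxn⟩ := hall
      obtain ⟨u, hu, hr, hc, -⟩ := exists_axis hxn
      exact ⟨u, hu, hr, fun z hz => (hc z).1 (h2 z hz x hx)⟩
  obtain ⟨s, hs, hp⟩ := infOrb_prod hu hr h1 hc
  exact ⟨s, hs, by rw [hp, E_re hr]⟩

/-- splitting a list at two positions -/
theorem infOrb_split {α : Type} (L : List α) {i j : ℕ} (hij : i < j) (hj : j < L.length) :
    ∃ l m s, L = l ++ L[i]'(hij.trans hj) :: (m ++ L[j] :: s) := by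
  refine ⟨L.take i, (L.drop (i + 1)).take (j - (i + 1)), L.drop (j + 1), ?_⟩
  have h1 : L.drop i = L[i]'(hij.trans hj) :: L.drop (i + 1) :=
    List.drop_eq_getElem_cons (hij.trans hj)
  have h2 : L.drop j = L[j] :: L.drop (j + 1) := List.drop_eq_getElem_cons hj
  have h3 : (L.drop (i + 1)).drop (j - (i + 1)) = L.drop j := by
    rw [List.drop_drop]
    congr 1
    omega
  rw [← h2, ← h3, List.take_append_drop, ← h1, List.take_append_drop]

/-- bring two entries to the front -/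
theorem infOrb_front {ι : Type} {L : LL ι} (hL : UL L) {i j : ℕ} (hij : i < j) (hj : j < L.length) :
    ∃ r, Mv L (L[i]'(hij.trans hj) :: L[j] :: r) := by
  obtain ⟨l, m, s, h⟩ := infOrb_split L hij hj
  obtain ⟨p, hp⟩ : ∃ p, p = L[i]'(hij.trans hj) := ⟨_, rfl⟩
  obtain ⟨q, hq⟩ : ∃ q, q = L[j] := ⟨_, rfl⟩
  rw [← hp, ← hq] at h ⊢
  have h1 : Bv L ((l ++ [p]) ++ (q :: cjL (star q.2) m) ++ s) := by
    have h2 := Bv_ctx (bv_left m q) (l ++ [p]) s
    have h3 : (l ++ [p]) ++ (m ++ [q]) ++ s = L := by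
      conv_rhs => rw [h]
      simp
    rw [h3] at h2
    exact h2
  have h4 : (l ++ [p]) ++ (q :: cjL (star q.2) m) ++ s = l ++ (p :: q :: (cjL (star q.2) m ++ s)) := by
    simp
  rw [h4] at h1
  have h5 : UL (l ++ (p :: q :: (cjL (star q.2) m ++ s))) := Bv_UL h1 hL
  refine ⟨(cjL (star q.2) m ++ s) ++ l, Mv_trans (Mv_of_Bv h1) ?_⟩
  have h6 := mv_rot' h5
  simpa using h6

theorem infOrb_has {ι : Type} {θ : ι → ℝ} {r : LL ι}
    (h : ∀ p ∈ r, U p.2 ∧ p.2.re = Real.cos (θ p.1)) : Has (r.map Prod.snd) ((lab r).map θ) := by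
  unfold Has lab
  induction r with
  | nil => exact List.Forall₂.nil
  | cons p r ih =>
    rw [List.map_cons, List.map_cons, List.map_cons]
    exact List.Forall₂.cons (h p List.mem_cons_self)
      (ih fun q hq => h q (List.mem_cons_of_mem _ hq))

/-- the case of two different labels -/
theorem infOrb_lt {n : ℕ} (ρ : Pi1 n →* SU2)
    (h : ∀ φ ∈ MCG n, ∀ (p q : Fin n × H) (r : LL (Fin n)),
      Mv (Lst (ρ.comp (φ : Pi1 n →* Pi1 n))) (p :: q :: r) → ¬ GP p q r) {i j : Fin n}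
    (hij : i < j) :
    {v : ℝ | ∃ φ ∈ MCG n, v = (toH (ρ (φ (c i))) * toH (ρ (φ (c j)))).re}.Finite := by
  have hfin : ({v : ℝ | ∃ x : Pi1 n, ¬ Inf (toH (ρ x)) ∧ v = (toH (ρ x)).re} ∪
      ({v : ℝ | ∃ xs : List H, Has xs [thetaOf ρ i, thetaOf ρ j] ∧ ¬ NAl xs ∧ v = xs.prod.re} ∪
      ⋃ N ∈ {N : List (Fin n) | N.length ≤ n},
        {v : ℝ | ∃ xs : List H, Has xs (N.map (thetaOf ρ)) ∧ ¬ NAl xs ∧
          v = xs.prod.re})).Finite := by
    refine (torsion_re_finite ρ).union ((ab_values_finite _).union ?_)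
    exact (List.finite_length_le (α := Fin n) (n := n)).biUnion fun N _ => ab_values_finite _
  refine hfin.subset ?_
  rintro v ⟨φ, hφ, rfl⟩
  have hadm := Adm_comp ρ hφ
  have hlen : (Lst (ρ.comp (φ : Pi1 n →* Pi1 n))).length = n := by
    unfold Lst
    rw [List.length_ofFn]
  have hij' : i.1 < j.1 := hij
  obtain ⟨r, hr⟩ := infOrb_front (Adm_UL hadm) hij' (by rw [hlen]; exact j.2)
  have hgi : (Lst (ρ.comp (φ : Pi1 n →* Pi1 n)))[i.1]'(by rw [hlen]; exact i.2) =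
      (i, toH (ρ (φ (c i)))) := by
    unfold Lst
    rw [List.getElem_ofFn]
    rfl
  have hgj : (Lst (ρ.comp (φ : Pi1 n →* Pi1 n)))[j.1]'(by rw [hlen]; exact j.2) =
      (j, toH (ρ (φ (c j)))) := by
    unfold Lst
    rw [List.getElem_ofFn]
    rfl
  rw [hgi, hgj] at hr
  have hadm2 := Mv_Adm hr hadm
  have hgp := h φ hφ _ _ _ hr
  obtain ⟨x, hx⟩ : ∃ x, x = toH (ρ (φ (c i))) := ⟨_, rfl⟩
  obtain ⟨y, hy⟩ : ∃ y, y = toH (ρ (φ (c j))) := ⟨_, rfl⟩
  have hxy : toH (ρ (φ (c i) * φ (c j))) = x * y := by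
    rw [map_mul, toH_mul, hx, hy]
  rw [← hx, ← hy] at hadm2 hgp ⊢
  have e1 := hadm2.1 (i, x) (by simp)
  have e2 := hadm2.1 (j, y) (by simp)
  unfold GP at hgp
  by_cases k1 : Inf (x * y)
  · by_cases k2 : Commute x y
    · right; left
      refine ⟨[x, y], ?_, ?_, by simp⟩
      · exact List.Forall₂.cons e1 (List.Forall₂.cons e2 List.Forall₂.nil)
      · unfold NAl
        push Not
        intro z hz w hw
        simp only [List.mem_cons, List.not_mem_nil, or_false] at hz hw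
        rcases hz with rfl | rfl <;> rcases hw with rfl | rfl
        · exact Commute.refl _
        · exact k2
        · exact k2.symm
        · exact Commute.refl _
    · have k3 : ¬ NA r := fun hn => hgp ⟨k1, k2, hn⟩
      right; right
      rw [Set.mem_iUnion₂]
      refine ⟨lab r, ?_, r.map Prod.snd,
        infOrb_has fun p hp => hadm2.1 p (by simp [hp]), ?_, ?_⟩
      · have h1 := Mv_length hr
        rw [hlen] at h1
        simp only [List.length_cons] at h1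
        change (lab r).length ≤ n
        unfold lab
        rw [List.length_map]
        omega
      · unfold NAl
        push Not
        intro z hz w hw
        obtain ⟨p, hp, rfl⟩ := List.mem_map.1 hz
        obtain ⟨q, hq, rfl⟩ := List.mem_map.1 hw
        exact (not_NA_iff.1 k3) p hp q hq
      · have h1 := hadm2.2
        rw [pr_cons, pr_cons, ← mul_assoc] at h1
        have h1' : x * y * pr r = 1 := h1
        have h2 : x * y = star (pr r) := by
          have hUr : U (pr r) := U_pr fun p hp => (hadm2.1 p (by simp [hp])).1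
          calc x * y = x * y * (pr r * star (pr r)) := by rw [U_mul_star hUr, mul_one]
            _ = star (pr r) := by rw [← mul_assoc, h1', one_mul]
        rw [h2, Quaternion.re_star]
        rfl
  · left
    exact ⟨φ (c i) * φ (c j), by rw [hxy]; exact k1, by rw [hxy]⟩

/-- If there are no good pairs along the orbit, the real parts of the products of two entries take
finitely many values.  For `i < j` the list of `ρ ∘ φ` is `l ++ (i, x) :: m ++ (j, y) :: s`, which moves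
to `(i, x) :: (j, y) :: r'` (`bv_left` for `m ++ [(j, y)]` in a context, then rotation `mv_rot'`),
where the angles of `r'` are those of `ρ` for the labels different from `i, j`.  It is not a good
pair: either `x y = toH (ρ (φ (c i) * φ (c j)))` has finite order (`torsion_re_finite`); or `x, y`
commute (`ab_values_finite` for two angles); or `r'` is abelian and `x y = star (pr r')`
(`ab_values_finite`, finitely many orders of the labels).  `i = j`: `(x x).re = 2 x.re ^ 2 - 1`;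
`i > j`: `(x y).re = (y x).re`. -/
theorem pair_values_finite {n : ℕ} (ρ : Pi1 n →* SU2)
    (h : ∀ φ ∈ MCG n, ∀ (p q : Fin n × H) (r : LL (Fin n)),
      Mv (Lst (ρ.comp (φ : Pi1 n →* Pi1 n))) (p :: q :: r) → ¬ GP p q r) (i j : Fin n) :
    {v : ℝ | ∃ φ ∈ MCG n, v = (toH (ρ (φ (c i))) * toH (ρ (φ (c j)))).re}.Finite := by
  rcases lt_trichotomy i j with hij | hij | hij
  · exact infOrb_lt ρ h hij
  · subst hij
    refine (Set.finite_singleton (2 * Real.cos (thetaOf ρ i) ^ 2 - 1)).subset ?_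
    rintro v ⟨φ, hφ, rfl⟩
    have hadm := Adm_comp ρ hφ
    have h1 := hadm.1 (i, toH (ρ (φ (c i)))) (reps_mem.2 ⟨i, rfl⟩)
    have h2 : (toH (ρ (φ (c i)))).re = Real.cos (thetaOf ρ i) := h1.2
    have h3 := GeoConj.sq_of_U h1.1
    simp only [h2] at h3
    rw [Set.mem_singleton_iff, Quaternion.re_mul, h2]
    linear_combination -h3
  · have h1 := infOrb_lt ρ h hij
    refine h1.subset ?_
    rintro v ⟨φ, hφ, rfl⟩
    refine ⟨φ, hφ, ?_⟩
    rw [Quaternion.re_mul, Quaternion.re_mul]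
    ring

theorem infOrb_comp {n : ℕ} (ρ : Pi1 n →* SU2) (φ : MulAut (Pi1 n)) (i : Fin n) :
    (ρ.comp (φ : Pi1 n →* Pi1 n)) (c i) = ρ (φ (c i)) := rfl

theorem infOrb_re {n : ℕ} (ρ : Pi1 n →* SU2) {φ : MulAut (Pi1 n)} (hφ : φ ∈ MCG n) (i : Fin n) :
    (toH (ρ (φ (c i)))).re = Real.cos (thetaOf ρ i) :=
  ((Adm_comp ρ hφ).1 (i, toH (ρ (φ (c i)))) (reps_mem.2 ⟨i, rfl⟩)).2

/-- comparison of two points of the orbit with the same values -/
theorem infOrb_cmp {n : ℕ} (ρ : Pi1 n →* SU2) {φ₀ φ : MulAut (Pi1 n)} (hφ₀ : φ₀ ∈ MCG n)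
    (hφ : φ ∈ MCG n) (hv : ∀ i j : Fin n, (toH (ρ (φ₀ (c i))) * toH (ρ (φ₀ (c j)))).re =
      (toH (ρ (φ (c i))) * toH (ρ (φ (c j)))).re) :
    ∃ g, U g ∧ ((∀ i, cj g (toH (ρ (φ₀ (c i)))) = toH (ρ (φ (c i)))) ∨
      (∀ i, cj g (toH (ρ (φ₀ (c i)))) = star (toH (ρ (φ (c i)))))) :=
  gram (fun i => toH (ρ (φ₀ (c i)))) (fun i => toH (ρ (φ (c i)))) (fun _ => U_toH _)
    (fun _ => U_toH _) (fun i => (infOrb_re ρ hφ₀ i).trans (infOrb_re ρ hφ i).symm) hv

theorem infOrb_cls {n : ℕ} (ρ : Pi1 n →* SU2) {φ₀ φ : MulAut (Pi1 n)} {g : H} (hg : U g)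
    (h : ∀ i, toH (ρ (φ (c i))) = cj g (toH (ρ (φ₀ (c i))))) :
    cls (ρ.comp (φ₀ : Pi1 n →* Pi1 n)) = cls (ρ.comp (φ : Pi1 n →* Pi1 n)) := by
  rw [cls_eq_iff]
  refine ⟨g, hg, fun i => ?_⟩
  rw [infOrb_comp, infOrb_comp]
  exact h i

/-- the points of the orbit with given values -/
def infOrbF {n : ℕ} (ρ : Pi1 n →* SU2) (w : Fin n × Fin n → ℝ) : Set (CharVar n) :=
  {χ | ∃ φ ∈ MCG n, (∀ i j : Fin n, (toH (ρ (φ (c i))) * toH (ρ (φ (c j)))).re = w (i, j)) ∧
    χ = cls (ρ.comp (φ : Pi1 n →* Pi1 n))}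

theorem infOrb_sub {n : ℕ} (ρ : Pi1 n →* SU2) (a : Fin n → H) :
    {χ : CharVar n | ∃ φ ∈ MCG n, (∃ g, U g ∧ ∀ i, cj g (a i) = star (toH (ρ (φ (c i))))) ∧
      χ = cls (ρ.comp (φ : Pi1 n →* Pi1 n))}.Subsingleton := by
  rintro χ ⟨φ, hφ, ⟨g, hg, hgi⟩, rfl⟩ χ' ⟨φ', hφ', ⟨g', hg', hgi'⟩, rfl⟩
  refine infOrb_cls ρ (U_mul hg' (U_star hg)) fun i => ?_
  have h1 : cj (g' * star g) (star (toH (ρ (φ (c i))))) = star (toH (ρ (φ' (c i)))) := by
    rw [← hgi i, ← hgi' i, ← cj_cj, cj_star_cj hg]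
  rw [cj_star] at h1
  exact (star_injective h1).symm

theorem infOrbF_finite {n : ℕ} (ρ : Pi1 n →* SU2) (w : Fin n × Fin n → ℝ) :
    (infOrbF ρ w).Finite := by
  rcases (infOrbF ρ w).eq_empty_or_nonempty with he | ⟨χ₀, φ₀, hφ₀, hw₀, -⟩
  · rw [he]
    exact Set.finite_empty
  refine ((Set.finite_singleton (cls (ρ.comp (φ₀ : Pi1 n →* Pi1 n)))).union
    (infOrb_sub ρ fun i => toH (ρ (φ₀ (c i)))).finite).subset ?_
  rintro χ ⟨φ, hφ, hw, rfl⟩
  obtain ⟨g, hg, hg1 | hg1⟩ := infOrb_cmp ρ hφ₀ hφ fun i j => (hw₀ i j).trans (hw i j).symm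
  · left
    exact (infOrb_cls ρ hg fun i => (hg1 i).symm).symm
  · right
    exact ⟨φ, hφ, ⟨g, hg, hg1⟩, rfl⟩

/-- If these values are finite in number then the orbit is finite: by `gram` every vector of values is
attained by at most two classes (if `σ`, `τ`, `τ'` have the same values then two of the classes agree). -/
theorem orb_finite_of_values {n : ℕ} (ρ : Pi1 n →* SU2)
    (h : ∀ i j : Fin n,
      {v : ℝ | ∃ φ ∈ MCG n, v = (toH (ρ (φ (c i))) * toH (ρ (φ (c j)))).re}.Finite) :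
    (orb ρ).Finite := by
  have hW : {w : Fin n × Fin n → ℝ | ∀ t, w t ∈
      {v : ℝ | ∃ φ ∈ MCG n, v = (toH (ρ (φ (c t.1))) * toH (ρ (φ (c t.2)))).re}}.Finite :=
    Set.Finite.pi' fun t => h t.1 t.2
  refine (hW.biUnion fun w _ => infOrbF_finite ρ w).subset ?_
  rintro χ ⟨φ, hφ, rfl⟩
  rw [Set.mem_iUnion₂]
  exact ⟨fun t => (toH (ρ (φ (c t.1))) * toH (ρ (φ (c t.2)))).re, fun t => ⟨φ, hφ, rfl⟩,
    φ, hφ, fun _ _ => rfl, rfl⟩

theorem inf_orb {n : ℕ} {ρ : Pi1 n →* SU2} (h : (orb ρ).Infinite) :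
    ∃ φ ∈ MCG n, ∃ (p q : Fin n × H) (r : LL (Fin n)),
      Mv (Lst (ρ.comp (φ : Pi1 n →* Pi1 n))) (p :: q :: r) ∧ GP p q r := by
  by_contra hcon
  push Not at hcon
  exact h (orb_finite_of_values ρ (pair_values_finite ρ hcon))

end Pool.Agent.W24dbe6
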