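import Pool.Agent.W_MP_24dbe6_h58.GeoComm

set_option autoImplicit false

/-!
Twist flows: `t` runs through the centralizer torus of `w`, `Y` is replaced by `cj t Y`.
Notation of the proofs: `C = ℝ + ℝ w` (a plane), `C^⊥` its orthogonal complement; `Y = p + q` with
`p ∈ C`, `q ∈ C^⊥`; `t q star t = t² q`, so `cj t Y = p + t² q`; `C q = C^⊥` if `q ≠ 0`.
-/

namespace Pool.Agent.W24dbe6

open Quaternion

/-- a quadratic form in `(a, b)` which is not zero has finitely many zeros on the circle: bound for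
the first coordinate -/
private theorem flow_fin_root (α β γ : ℝ) (h : ¬ (α = 0 ∧ β = 0 ∧ γ = 0)) :
    {a : ℝ | ∃ b : ℝ, a ^ 2 + b ^ 2 = 1 ∧ α * a ^ 2 + β * a * b + γ * b ^ 2 = 0}.Finite := by
  set f : Polynomial ℝ := Polynomial.C ((α - γ) ^ 2 + β ^ 2) * Polynomial.X ^ 4 +
    Polynomial.C (2 * γ * (α - γ) - β ^ 2) * Polynomial.X ^ 2 + Polynomial.C (γ ^ 2) with hf
  have hf0 : f ≠ 0 := by
    intro h0
    have e0 : f.eval 0 = 0 := by rw [h0]; simp
    have e1 : f.eval 1 = 0 := by rw [h0]; simp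
    have e2 : f.eval 2 = 0 := by rw [h0]; simp
    simp only [hf, Polynomial.eval_add, Polynomial.eval_mul, Polynomial.eval_C,
      Polynomial.eval_pow, Polynomial.eval_X] at e0 e1 e2
    have g0 : γ = 0 := by
      have : γ ^ 2 = 0 := by linarith
      exact pow_eq_zero_iff (two_ne_zero) |>.1 this
    subst g0
    have a0 : α = 0 := by
      have : α ^ 2 = 0 := by nlinarith
      exact pow_eq_zero_iff (two_ne_zero) |>.1 this
    subst a0
    have b0 : β = 0 := by
      have : β ^ 2 = 0 := by nlinarith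
      exact pow_eq_zero_iff (two_ne_zero) |>.1 this
    exact h ⟨rfl, b0, rfl⟩
  refine (f.roots.toFinset.finite_toSet).subset ?_
  rintro a ⟨b, h1, h2⟩
  simp only [Finset.mem_coe, Multiset.mem_toFinset, Polynomial.mem_roots hf0, Polynomial.IsRoot.def]
  simp only [hf, Polynomial.eval_add, Polynomial.eval_mul, Polynomial.eval_C,
      Polynomial.eval_pow, Polynomial.eval_X]
  have hb : b ^ 2 = 1 - a ^ 2 := by linarith
  have h3 : (α * a ^ 2 + γ * b ^ 2) ^ 2 = β ^ 2 * a ^ 2 * b ^ 2 := by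
    have : α * a ^ 2 + γ * b ^ 2 = -(β * a * b) := by linarith
    rw [this]; ring
  rw [hb] at h3
  linear_combination h3

private theorem flow_fin_pairs (α β γ : ℝ) (h : ¬ (α = 0 ∧ β = 0 ∧ γ = 0)) :
    {z : ℝ × ℝ | z.1 ^ 2 + z.2 ^ 2 = 1 ∧ α * z.1 ^ 2 + β * z.1 * z.2 + γ * z.2 ^ 2 = 0}.Finite := by
  have h1 := flow_fin_root α β γ h
  have h2 := flow_fin_root γ β α (fun k => h ⟨k.2.2, k.2.1, k.1⟩)
  refine (h1.prod h2).subset ?_
  rintro ⟨a, b⟩ ⟨e1, e2⟩
  refine ⟨⟨b, e1, e2⟩, ⟨a, ?_, ?_⟩⟩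
  · simp only at e1 ⊢; linarith
  · simp only at e2 ⊢; linarith

/-- `(X * cj t Y).re = const + A cos (2 s + φ)` with `A ≠ 0`, so every value is taken at most 4
times -/
theorem flow_fin {w X Y : H} (hw : U w) (hwn : NC w) (hX : U X) (hY : U Y)
    (hXw : ¬ Commute X w) (hYw : ¬ Commute Y w) (v : ℝ) :
    {t | t ∈ Tor w ∧ (X * cj t Y).re = v}.Finite := by
  obtain ⟨u, hu, hu0, hc, -⟩ := exists_axis hwn
  have hXu : ¬ X * u = u * X := fun k => hXw ((hc X).2 k)
  have hYu : ¬ Y * u = u * Y := fun k => hYw ((hc Y).2 k)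
  have hun : u.imI ^ 2 + u.imJ ^ 2 + u.imK ^ 2 = 1 := by
    have h1 : ‖u‖ * ‖u‖ = 1 := by rw [show ‖u‖ = 1 from hu]; ring
    have h2 : normSq u = 1 := by rw [Quaternion.normSq_eq_norm_mul_self]; exact h1
    rw [Quaternion.normSq_def'] at h2
    rw [hu0] at h2
    linarith
  have huNC : NC u := by
    intro k
    have k1 : u.imI = 0 := by have := congrArg (fun q : H => q.imI) k; simpa using this
    have k2 : u.imJ = 0 := by have := congrArg (fun q : H => q.imJ) k; simpa using this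
    have k3 : u.imK = 0 := by have := congrArg (fun q : H => q.imK) k; simpa using this
    rw [k1, k2, k3] at hun
    norm_num at hun
  -- cross products
  have key : ∀ Z : H, ¬ Z * u = u * Z →
      0 < (Z.imJ * u.imK - Z.imK * u.imJ) ^ 2 + (Z.imK * u.imI - Z.imI * u.imK) ^ 2 +
        (Z.imI * u.imJ - Z.imJ * u.imI) ^ 2 := by
    intro Z hZ
    by_contra hneg
    push Not at hneg
    have z1 : Z.imJ * u.imK - Z.imK * u.imJ = 0 := by
      have : (Z.imJ * u.imK - Z.imK * u.imJ) ^ 2 = 0 := by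
        nlinarith [sq_nonneg (Z.imJ * u.imK - Z.imK * u.imJ),
          sq_nonneg (Z.imK * u.imI - Z.imI * u.imK), sq_nonneg (Z.imI * u.imJ - Z.imJ * u.imI)]
      exact pow_eq_zero_iff (two_ne_zero) |>.1 this
    have z2 : Z.imK * u.imI - Z.imI * u.imK = 0 := by
      have : (Z.imK * u.imI - Z.imI * u.imK) ^ 2 = 0 := by
        nlinarith [sq_nonneg (Z.imJ * u.imK - Z.imK * u.imJ),
          sq_nonneg (Z.imK * u.imI - Z.imI * u.imK), sq_nonneg (Z.imI * u.imJ - Z.imJ * u.imI)]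
      exact pow_eq_zero_iff (two_ne_zero) |>.1 this
    have z3 : Z.imI * u.imJ - Z.imJ * u.imI = 0 := by
      have : (Z.imI * u.imJ - Z.imJ * u.imI) ^ 2 = 0 := by
        nlinarith [sq_nonneg (Z.imJ * u.imK - Z.imK * u.imJ),
          sq_nonneg (Z.imK * u.imI - Z.imI * u.imK), sq_nonneg (Z.imI * u.imJ - Z.imJ * u.imI)]
      exact pow_eq_zero_iff (two_ne_zero) |>.1 this
    apply hZ
    ext
    · simp only [Quaternion.re_mul]; ring
    · simp only [Quaternion.imI_mul]; linarith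
    · simp only [Quaternion.imJ_mul]; linarith
    · simp only [Quaternion.imK_mul]; linarith
  have kX := key X hXu
  have kY := key Y hYu
  set A : ℝ := (X * Y).re with hA
  set B : ℝ := (X * (u * Y - Y * u)).re with hB
  set C : ℝ := -(X * (u * Y * u)).re with hC
  have hne : ¬ (A - v = 0 ∧ B = 0 ∧ C - v = 0) := by
    rintro ⟨e1, e2, e3⟩
    have e4 : A - C = 0 := by linarith
    have hprod : 0 < ((X.imJ * u.imK - X.imK * u.imJ) ^ 2 + (X.imK * u.imI - X.imI * u.imK) ^ 2 +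
        (X.imI * u.imJ - X.imJ * u.imI) ^ 2) * ((Y.imJ * u.imK - Y.imK * u.imJ) ^ 2 +
        (Y.imK * u.imI - Y.imI * u.imK) ^ 2 + (Y.imI * u.imJ - Y.imJ * u.imI) ^ 2) := mul_pos kX kY
    have f1 : (X.imJ * u.imK - X.imK * u.imJ) * (Y.imJ * u.imK - Y.imK * u.imJ) +
        (X.imK * u.imI - X.imI * u.imK) * (Y.imK * u.imI - Y.imI * u.imK) +
        (X.imI * u.imJ - X.imJ * u.imI) * (Y.imI * u.imJ - Y.imJ * u.imI) = 0 := by
      rw [hA, hC] at e4
      simp only [Quaternion.re_mul, Quaternion.imI_mul, Quaternion.imJ_mul, Quaternion.imK_mul,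
        hu0] at e4
      linear_combination (-1/2) * e4 + (1/2) * (X.imI * Y.imI + X.imJ * Y.imJ + X.imK * Y.imK -
        X.re * Y.re) * hun
    have f2 : X.imI * (u.imJ * Y.imK - u.imK * Y.imJ) + X.imJ * (u.imK * Y.imI - u.imI * Y.imK) +
        X.imK * (u.imI * Y.imJ - u.imJ * Y.imI) = 0 := by
      rw [hB] at e2
      simp only [Quaternion.re_mul, Quaternion.imI_mul, Quaternion.imJ_mul, Quaternion.imK_mul,
        Quaternion.re_sub, Quaternion.imI_sub, Quaternion.imJ_sub, Quaternion.imK_sub, hu0] at e2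
      linear_combination (-1/2) * e2
    have f3 : ((X.imJ * u.imK - X.imK * u.imJ) ^ 2 + (X.imK * u.imI - X.imI * u.imK) ^ 2 +
        (X.imI * u.imJ - X.imJ * u.imI) ^ 2) * ((Y.imJ * u.imK - Y.imK * u.imJ) ^ 2 +
        (Y.imK * u.imI - Y.imI * u.imK) ^ 2 + (Y.imI * u.imJ - Y.imJ * u.imI) ^ 2) =
        ((X.imJ * u.imK - X.imK * u.imJ) * (Y.imJ * u.imK - Y.imK * u.imJ) +
        (X.imK * u.imI - X.imI * u.imK) * (Y.imK * u.imI - Y.imI * u.imK) +
        (X.imI * u.imJ - X.imJ * u.imI) * (Y.imI * u.imJ - Y.imJ * u.imI)) ^ 2 +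
        (u.imI ^ 2 + u.imJ ^ 2 + u.imK ^ 2) *
        (X.imI * (u.imJ * Y.imK - u.imK * Y.imJ) + X.imJ * (u.imK * Y.imI - u.imI * Y.imK) +
        X.imK * (u.imI * Y.imJ - u.imJ * Y.imI)) ^ 2 := by
      ring
    rw [f3, f1, f2] at hprod
    norm_num at hprod
  refine ((flow_fin_pairs (A - v) B (C - v) hne).image
    (fun z : ℝ × ℝ => (z.1 : H) + (z.2 : H) * u)).subset ?_
  rintro t ⟨⟨ht, htw⟩, hv⟩
  obtain ⟨a, b, rfl⟩ := (comm_iff huNC).1 (show Commute u t from ((hc t).1 htw).symm)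
  have hab : a ^ 2 + b ^ 2 = 1 := by
    have h1 : ‖(a : H) + (b : H) * u‖ * ‖(a : H) + (b : H) * u‖ = 1 := by
      rw [show ‖(a : H) + (b : H) * u‖ = 1 from ht]; ring
    have h2 : normSq ((a : H) + (b : H) * u) = 1 := by
      rw [Quaternion.normSq_eq_norm_mul_self]; exact h1
    rw [Quaternion.normSq_def'] at h2
    simp [hu0] at h2
    linear_combination h2 - b ^ 2 * hun
  refine ⟨(a, b), ⟨hab, ?_⟩, rfl⟩
  have h4 : (X * cj ((a : H) + (b : H) * u) Y).re = a ^ 2 * A + a * b * B + b ^ 2 * C := by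
    rw [hA, hB, hC, cj]
    simp only [Quaternion.re_mul, Quaternion.imI_mul, Quaternion.imJ_mul, Quaternion.imK_mul,
        Quaternion.re_sub, Quaternion.imI_sub, Quaternion.imJ_sub, Quaternion.imK_sub,
        Quaternion.re_add, Quaternion.imI_add, Quaternion.imJ_add, Quaternion.imK_add,
        Quaternion.re_star, Quaternion.imI_star, Quaternion.imJ_star, Quaternion.imK_star,
        Quaternion.re_coe, Quaternion.imI_coe, Quaternion.imJ_coe, Quaternion.imK_coe, hu0]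
    ring
  rw [hv] at h4
  simp only
  linear_combination -h4 - v * hab

end Pool.Agent.W24dbe6
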