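import Pool.Agent.W_MP_24dbe6_h58.GeoComm

set_option autoImplicit false

/-!
The centralizer torus is uncountable near each of its points.
-/

namespace Pool.Agent.W24dbe6

open Quaternion

private noncomputable def torE (u : H) (φ : ℝ) : H := (Real.cos φ : H) + (Real.sin φ : H) * u

private theorem torE_re {u : H} (hu0 : u.re = 0) (φ : ℝ) : (torE u φ).re = Real.cos φ := by
  unfold torE
  simp [hu0]

private theorem torE_U {u : H} (hu : U u) (hu0 : u.re = 0) (φ : ℝ) : U (torE u φ) := by
  have h1 : ‖torE u φ‖ ^ 2 = 1 := by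
    have h2 : ‖u‖ ^ 2 = 1 := by rw [hu]; norm_num
    rw [pow_two, ← Quaternion.normSq_eq_norm_mul_self, Quaternion.normSq_def'] at h2
    rw [pow_two, ← Quaternion.normSq_eq_norm_mul_self, Quaternion.normSq_def']
    rw [hu0] at h2
    unfold torE
    simp [hu0]
    have h3 := Real.sin_sq_add_cos_sq φ
    nlinarith
  have h4 : 0 ≤ ‖torE u φ‖ := norm_nonneg _
  change ‖torE u φ‖ = 1
  nlinarith

/-- every neighbourhood of a point of the torus is uncountable -/
theorem tor_uncountable {w : H} (hw : U w) (hwn : NC w) {t₀ : H} (ht₀ : t₀ ∈ Tor w) {ε : ℝ}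
    (hε : 0 < ε) : ¬ {t | t ∈ Tor w ∧ dist t t₀ < ε}.Countable := by
  obtain ⟨u, hu, hu0, hc, -⟩ := exists_axis hwn
  have huw : Commute u w := (hc u).2 rfl
  have hcont : Continuous fun φ : ℝ => t₀ * torE u φ := by
    unfold torE
    have h1 : Continuous fun φ : ℝ => ((Real.cos φ : ℝ) : H) :=
      Quaternion.continuous_coe.comp Real.continuous_cos
    have h2 : Continuous fun φ : ℝ => ((Real.sin φ : ℝ) : H) :=
      Quaternion.continuous_coe.comp Real.continuous_sin
    exact continuous_const.mul (h1.add (h2.mul continuous_const))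
  have h0 : t₀ * torE u 0 = t₀ := by
    unfold torE
    simp
  obtain ⟨δ, hδ, hball⟩ := (Metric.continuous_iff.1 hcont) 0 ε hε
  intro hcount
  have hpi := Real.pi_pos
  have hinj : Set.InjOn (fun φ : ℝ => t₀ * torE u φ) (Set.Ioo 0 (min δ Real.pi)) := by
    intro a ha b hb hab
    have h1 : torE u a = torE u b := by
      have h2 : star t₀ * (t₀ * torE u a) = star t₀ * (t₀ * torE u b) := by
        change t₀ * torE u a = t₀ * torE u b at hab
        rw [hab]
      rwa [← mul_assoc, ← mul_assoc, U_star_mul ht₀.1, one_mul, one_mul] at h2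
    have h3 : Real.cos a = Real.cos b := by
      rw [← torE_re hu0 a, ← torE_re hu0 b, h1]
    apply Real.injOn_cos _ _ h3
    · exact ⟨ha.1.le, (lt_of_lt_of_le ha.2 (min_le_right _ _)).le⟩
    · exact ⟨hb.1.le, (lt_of_lt_of_le hb.2 (min_le_right _ _)).le⟩
  have himg : ((fun φ : ℝ => t₀ * torE u φ) '' Set.Ioo 0 (min δ Real.pi)).Countable := by
    apply hcount.mono
    rintro t ⟨φ, hφ, rfl⟩
    refine ⟨⟨U_mul ht₀.1 (torE_U hu hu0 φ), ?_⟩, ?_⟩
    · apply Commute.mul_left ht₀.2
      unfold torE
      apply Commute.add_left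
      · exact Quaternion.coe_commutes _ _
      · exact Commute.mul_left (Quaternion.coe_commutes _ _) huw
    · have h5 := hball φ (by
        rw [Real.dist_eq, sub_zero, abs_of_pos hφ.1]
        exact lt_of_lt_of_le hφ.2 (min_le_left _ _))
      rw [h0] at h5
      exact h5
  have hIoo := Set.countable_of_injective_of_countable_image hinj himg
  have hm := hIoo.measure_zero MeasureTheory.volume
  rw [Real.volume_Ioo, ENNReal.ofReal_eq_zero, sub_zero] at hm
  exact absurd hm (not_le.2 (lt_min hδ hpi))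

/-- so countable sets can be avoided -/
theorem exists_tor {w : H} (hw : U w) (hwn : NC w) {t₀ : H} (ht₀ : t₀ ∈ Tor w) {ε : ℝ}
    (hε : 0 < ε) {B : Set H} (hB : B.Countable) : ∃ t ∈ Tor w, dist t t₀ < ε ∧ t ∉ B := by
  by_contra hcon
  push Not at hcon
  apply tor_uncountable hw hwn ht₀ hε
  apply hB.mono
  rintro t ⟨h1, h2⟩
  exact hcon t h1 h2

end Pool.Agent.W24dbe6
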