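import Pool.Agent.W_MP_24dbe6_h58.MovesM

set_option autoImplicit false

/-!
Reordering labels by braid moves; selecting entries.
-/

namespace Pool.Agent.W24dbe6

open Quaternion

variable {ι : Type}

/-- an entry can be brought to the front, unchanged -/
theorem reorder_front (l r : LL ι) (p : ι × H) :
    Bv (l ++ p :: r) (p :: (cjL (star p.2) l ++ r)) := by
  have h := Bv_ctx (bv_left l p) [] r
  simpa using h

/-- every permutation of the labels can be reached (`bv_left` in contexts, induction) -/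
theorem reorder {L : LL ι} {M : List ι} (h : (lab L).Perm M) : ∃ L', Bv L L' ∧ lab L' = M := by
  induction M generalizing L with
  | nil =>
    have h1 : lab L = [] := List.perm_nil.1 h
    exact ⟨L, Bv.refl L, h1⟩
  | cons a M ih =>
    have ha : a ∈ lab L := h.symm.subset List.mem_cons_self
    obtain ⟨p, hp, hpa⟩ := List.mem_map.1 ha
    obtain ⟨l, r, rfl⟩ := List.append_of_mem hp
    have h1 := reorder_front l r p
    have h2 := (Bv_perm h1).trans h
    have h3 : lab (p :: (cjL (star p.2) l ++ r)) = a :: lab (cjL (star p.2) l ++ r) := by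
      rw [← hpa]
      rfl
    rw [h3] at h2
    obtain ⟨L', h4, h5⟩ := ih ((List.perm_cons a).1 h2)
    refine ⟨p :: L', Bv_trans h1 (Bv_cons h4 p), ?_⟩
    rw [← h5, ← hpa]
    rfl

/-- if all entries commute with `w` then so does the product -/
theorem reorder_commute_pr {L : LL ι} {w : H} (h : ∀ p ∈ L, Commute p.2 w) :
    Commute (pr L) w := by
  induction L with
  | nil =>
    rw [pr_nil]
    exact Commute.one_left w
  | cons p L ih =>
    rw [pr_cons]
    exact (h p List.mem_cons_self).mul_left (ih (fun q hq => h q (List.mem_cons_of_mem p hq)))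

/-- bring an entry not commuting with `w` to the front (the remaining entries are unspecified) -/
theorem reorder_one {r : LL ι} {w : H} (h : ∃ p ∈ r, ¬ Commute p.2 w) :
    ∃ (e : ι × H) (m : LL ι), Bv r (e :: m) ∧ ¬ Commute e.2 w := by
  obtain ⟨p, hp, hpw⟩ := h
  obtain ⟨l, s, rfl⟩ := List.append_of_mem hp
  exact ⟨p, _, reorder_front l s p, hpw⟩

/-- non-central entries stay non-central under braid moves -/
theorem reorder_Bv_NC {L L' : LL ι} (h : Bv L L') (hL : UL L) (hn : ∀ p ∈ L, NC p.2) :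
    ∀ p ∈ L', NC p.2 := by
  have key : UL L' ∧ ∀ p ∈ L', NC p.2 := by
    refine Bv_preserve (P := fun M : LL ι => UL M ∧ ∀ p ∈ M, NC p.2) ?_ ?_ h ⟨hL, hn⟩
    · intro l r p q hh
      obtain ⟨a, b, c, d⟩ := UL_mid.1 hh.1
      refine ⟨UL_mid.2 ⟨a, c, U_mul (U_mul (U_star c) b) c, d⟩, ?_⟩
      intro x hx
      have hp := hh.2 p (by simp)
      have hq := hh.2 q (by simp)
      rw [List.mem_append, List.mem_cons, List.mem_cons] at hx
      rcases hx with hx | hx | hx | hx
      · exact hh.2 x (by simp [hx])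
      · rw [hx]; exact hq
      · rw [hx]
        have h2 : cj (star q.2) p.2 = star q.2 * p.2 * q.2 := by
          show star q.2 * p.2 * star (star q.2) = _
          rw [star_star]
        show NC (star q.2 * p.2 * q.2)
        rw [← h2]
        exact (NC_cj (U_star c)).2 hp
      · exact hh.2 x (by simp [hx])
    · intro l r p q hh
      obtain ⟨a, b, c, d⟩ := UL_mid.1 hh.1
      refine ⟨UL_mid.2 ⟨a, U_mul (U_mul b c) (U_star b), b, d⟩, ?_⟩
      intro x hx
      have hp := hh.2 p (by simp)
      have hq := hh.2 q (by simp)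
      rw [List.mem_append, List.mem_cons, List.mem_cons] at hx
      rcases hx with hx | hx | hx | hx
      · exact hh.2 x (by simp [hx])
      · rw [hx]
        show NC (cj p.2 q.2)
        exact (NC_cj b).2 hq
      · rw [hx]; exact hp
      · exact hh.2 x (by simp [hx])
  exact key.2

theorem reorder_Mv_NC {L L' : LL ι} (h : Mv L L') (hL : UL L) (hn : ∀ p ∈ L, NC p.2) :
    ∀ p ∈ L', NC p.2 := by
  obtain ⟨g, L₁, hg, h1, rfl⟩ := h
  intro p hp
  obtain ⟨q, hq, rfl⟩ := mem_cjL.1 hp
  exact (NC_cj hg).2 (reorder_Bv_NC h1 hL hn q hq)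

theorem reorder_Mv_pr {L L' : LL ι} (h : Mv L L') (hL : UL L) (hp : pr L = 1) : pr L' = 1 := by
  obtain ⟨g, L₁, hg, h1, rfl⟩ := h
  rw [pr_cjL hg, Bv_pr h1 hL, hp, cj_one_right hg]

/-- two non-commuting entries can be brought to the front -/
theorem reorder_pair {L : LL ι} (hL : UL L) (h : NA L) :
    ∃ (b₁ b₂ : ι × H) (r : LL ι), Mv L (b₁ :: b₂ :: r) ∧ ¬ Commute b₁.2 b₂.2 := by
  obtain ⟨p, hp, q, hq, hpq⟩ := h
  obtain ⟨l, s, rfl⟩ := List.append_of_mem hp
  have h1 : Mv (l ++ p :: s) (p :: s ++ l) := mv_rot' hL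
  have hq' : q ∈ s ++ l := by
    rw [List.mem_append, List.mem_cons] at hq
    rcases hq with hq | hq | hq
    · exact List.mem_append.2 (Or.inr hq)
    · exfalso
      apply hpq
      rw [hq]
    · exact List.mem_append.2 (Or.inl hq)
  obtain ⟨m, t, hm⟩ := List.append_of_mem hq'
  have h2 : p :: s ++ l = p :: (m ++ q :: t) := by
    rw [← hm]
    rfl
  rw [h2] at h1
  exact ⟨p, q, _, Mv_trans h1 (Mv_of_Bv (Bv_cons (reorder_front m t q) p)), hpq⟩

/-- if the product of `r` commutes with `w` (non-central) but not all entries do, then at least two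
entries do not commute with `w`; bring the first to the front, the second to the end, both unchanged -/
theorem two_out {r : LL ι} (hr : UL r) {w : H} (hw : NC w) (hp : Commute (pr r) w)
    (h : ∃ p ∈ r, ¬ Commute p.2 w) :
    ∃ (e f : ι × H) (m : LL ι), Bv r (e :: m ++ [f]) ∧ ¬ Commute e.2 w ∧ ¬ Commute f.2 w := by
  obtain ⟨e, m, h1, he⟩ := reorder_one h
  have hU := UL_cons.1 (Bv_UL h1 hr)
  have hpm : pr (e :: m) = pr r := Bv_pr h1 hr
  have h2 : ∃ p ∈ m, ¬ Commute p.2 w := by
    by_contra hcon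
    push Not at hcon
    apply he
    have h3 : Commute (pr m) w := reorder_commute_pr hcon
    have h4 : Commute (star (pr m)) w := (commute_star (U_pr hU.2)).2 h3
    have h5 : e.2 = pr r * star (pr m) := by
      rw [← hpm, pr_cons, mul_assoc, U_mul_star (U_pr hU.2), mul_one]
    rw [h5]
    exact hp.mul_left h4
  obtain ⟨f, hf, hfw⟩ := h2
  obtain ⟨l, s, rfl⟩ := List.append_of_mem hf
  refine ⟨e, f, l ++ cjL f.2 s, ?_, he, hfw⟩
  have h6 := Bv_ctx (bv_right s f) (e :: l) []
  simp only [List.append_nil, List.cons_append] at h6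
  refine Bv_trans h1 ?_
  have h7 : e :: (l ++ cjL f.2 s) ++ [f] = e :: (l ++ (cjL f.2 s ++ [f])) := by
    simp
  rw [h7]
  exact h6

/-- bring an entry not commuting with `w` to the front -/
theorem one_out {r : LL ι} (hr : UL r) {w : H} (h : ∃ p ∈ r, ¬ Commute p.2 w) :
    ∃ (e : ι × H) (m : LL ι), Bv r (e :: m) ∧ ¬ Commute e.2 w :=
  reorder_one h

/-- a non-abelian list contains an entry not commuting with a given non-central `w` -/
theorem exists_out {r : LL ι} (h : NA r) {w : H} (hw : NC w) : ∃ p ∈ r, ¬ Commute p.2 w := by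
  by_contra hcon
  push Not at hcon
  obtain ⟨p, hp, q, hq, hpq⟩ := h
  exact hpq (comm_trans hw (hcon p hp) (hcon q hq).symm)

/-- a list of non-central entries with an entry `e` such that `e` does not commute with the product is
non-abelian -/
theorem NA_of_not_commute_pr {e : ι × H} {m : LL ι} (h : ¬ Commute e.2 (pr (e :: m))) :
    NA (e :: m) := by
  by_contra hcon
  rw [not_NA_iff] at hcon
  apply h
  exact (reorder_commute_pr (fun p hp => hcon p hp e List.mem_cons_self)).symm

/-- Every non-abelian list of at least four non-central units with product `1` can be moved to one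
whose first two entries do not commute and whose rest is non-abelian.
Proof: bring two non-commuting entries `b₁, b₂` to the front (keep `b₁`'s partner unchanged, `bv_left`,
`mv_rot'`), `w = b₁ b₂`.  If the rest `r` is abelian, its entries commute with `pr r = star w`, hence
with `w`; take the pair `b₂, r₁` (they do not commute) with rest `r₂, …, b₁`, where `r₂` commutes with
`w` and `b₁` does not. -/
theorem exists_pair {L : LL ι} (hL : UL L) (hn : ∀ p ∈ L, NC p.2) (h4 : 4 ≤ L.length)
    (hp : pr L = 1) (h : NA L) :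
    ∃ (b₁ b₂ : ι × H) (r : LL ι), Mv L (b₁ :: b₂ :: r) ∧ ¬ Commute b₁.2 b₂.2 ∧ NA r := by
  obtain ⟨b₁, b₂, r, hm, hb⟩ := reorder_pair hL h
  by_cases hr : NA r
  · exact ⟨b₁, b₂, r, hm, hb, hr⟩
  have hlen : (b₁ :: b₂ :: r).length = L.length := Mv_length hm
  have hU : UL (b₁ :: b₂ :: r) := Mv_UL hm hL
  have hNC := reorder_Mv_NC hm hL hn
  have hpr := reorder_Mv_pr hm hL hp
  obtain ⟨hU1, hU'⟩ := UL_cons.1 hU
  obtain ⟨hU2, hU3⟩ := UL_cons.1 hU'
  match r, hm, hr, hlen, hU, hNC, hpr, hU', hU3 with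
  | [], _, _, hlen, _, _, _, _, _ =>
    exfalso
    simp only [List.length_cons, List.length_nil] at hlen
    omega
  | [a], _, _, hlen, _, _, _, _, _ =>
    exfalso
    simp only [List.length_cons, List.length_nil] at hlen
    omega
  | r₁ :: r₂ :: r', hm, hr, hlen, hU, hNC, hpr, hU', hU3 =>
    rw [not_NA_iff] at hr
    have hUr : U (pr (r₁ :: r₂ :: r')) := U_pr hU3
    have hw : b₁.2 * b₂.2 = star (pr (r₁ :: r₂ :: r')) := by
      rw [pr_cons, pr_cons, ← mul_assoc] at hpr
      calc b₁.2 * b₂.2 = b₁.2 * b₂.2 * (pr (r₁ :: r₂ :: r') * star (pr (r₁ :: r₂ :: r'))) := by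
            rw [U_mul_star hUr, mul_one]
        _ = b₁.2 * b₂.2 * pr (r₁ :: r₂ :: r') * star (pr (r₁ :: r₂ :: r')) := by
            rw [mul_assoc (b₁.2 * b₂.2)]
        _ = star (pr (r₁ :: r₂ :: r')) := by rw [hpr, one_mul]
    have hcw : ∀ p ∈ r₁ :: r₂ :: r', Commute (b₁.2 * b₂.2) p.2 := by
      intro p hp'
      rw [hw]
      exact (commute_star hUr).2 (reorder_commute_pr (fun q hq => hr q hq p hp'))
    have m1 : r₁ ∈ r₁ :: r₂ :: r' := List.mem_cons_self
    have m2 : r₂ ∈ r₁ :: r₂ :: r' := List.mem_cons_of_mem _ List.mem_cons_self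
    have hN1 : NC r₁.2 := hNC r₁ (by simp)
    have hN2 : NC r₂.2 := hNC r₂ (by simp)
    refine ⟨b₂, r₁, r₂ :: r' ++ [b₁], ?_, ?_, ?_⟩
    · refine Mv_trans hm ?_
      exact mv_rot hU
    · intro hc
      have h1 : Commute b₂.2 (b₁.2 * b₂.2) := comm_trans hN1 hc (hcw r₁ m1).symm
      exact hb ((commute_mul_right_iff hU2).1 h1)
    · refine ⟨r₂, by simp, b₁, by simp, ?_⟩
      intro hc
      have h1 : Commute b₁.2 (b₁.2 * b₂.2) := comm_trans hN2 hc.symm (hcw r₂ m2).symm
      exact hb ((commute_mul_left_iff hU1).1 h1)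

end Pool.Agent.W24dbe6
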