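import Pool.Agent.W_MP_24dbe6_h58.DefsC
import Pool.Agent.W_MP_24dbe6_h58.Reorder

set_option autoImplicit false

/-!
Good pairs in lists with central entries.
-/

namespace Pool.Agent.W24dbe6

open Quaternion

variable {ι : Type}

theorem nNC_append (L L' : LL ι) : nNC (L ++ L') = nNC L + nNC L' := by
  unfold nNC
  exact List.countP_append

theorem nNC_cons_NC {p : ι × H} (h : NC p.2) (L : LL ι) : nNC (p :: L) = nNC L + 1 := by
  unfold nNC
  exact List.countP_cons_of_pos (by simpa using h)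

theorem nNC_cons_central {p : ι × H} (h : ¬ NC p.2) (L : LL ι) : nNC (p :: L) = nNC L := by
  unfold nNC
  exact List.countP_cons_of_neg (by simpa using h)

theorem nNC_le (L : LL ι) : nNC L ≤ L.length := by
  unfold nNC
  exact List.countP_le_length

/-- the number of non-central entries is the length iff all entries are non-central -/
theorem nNC_eq_length {L : LL ι} : nNC L = L.length ↔ ∀ p ∈ L, NC p.2 := by
  unfold nNC
  rw [List.countP_eq_length]
  simp

/-- the count after a change of an entry which respects `NC` -/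
theorem pairC_cons_congr {p p' : ι × H} {L L' : LL ι} (h : NC p.2 ↔ NC p'.2)
    (hL : nNC L = nNC L') : nNC (p :: L) = nNC (p' :: L') := by
  by_cases hp : NC p.2
  · rw [nNC_cons_NC hp, nNC_cons_NC (h.1 hp), hL]
  · rw [nNC_cons_central hp, nNC_cons_central (fun h' => hp (h.2 h')), hL]

theorem pairC_swap (p q : ι × H) (L : LL ι) : nNC (p :: q :: L) = nNC (q :: p :: L) := by
  unfold nNC
  exact (List.Perm.swap q p L).countP_eq _

theorem pairC_cjL {g : H} (hg : U g) (L : LL ι) : nNC (cjL g L) = nNC L := by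
  induction L with
  | nil => rfl
  | cons p L ih =>
    rw [cjL_cons]
    exact pairC_cons_congr (NC_cj hg) ih

theorem pairC_NC_star {x y : H} (hy : U y) : NC (star y * x * y) ↔ NC x := by
  have h := NC_cj (U_star hy) (x := x)
  unfold cj at h
  rwa [star_star] at h

theorem pairC_Bv {L L' : LL ι} (hL : UL L) (h : Bv L L') : UL L' ∧ nNC L' = nNC L := by
  refine Bv_preserve (P := fun M : LL ι => UL M ∧ nNC M = nNC L) ?_ ?_ h ⟨hL, rfl⟩
  · intro l r p q hh
    obtain ⟨a, b, c, d⟩ := UL_mid.1 hh.1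
    refine ⟨UL_mid.2 ⟨a, c, U_mul (U_mul (U_star c) b) c, d⟩, ?_⟩
    rw [← hh.2, nNC_append, nNC_append, pairC_swap p q]
    congr 1
    exact pairC_cons_congr Iff.rfl (pairC_cons_congr (pairC_NC_star c) rfl)
  · intro l r p q hh
    obtain ⟨a, b, c, d⟩ := UL_mid.1 hh.1
    refine ⟨UL_mid.2 ⟨a, U_mul (U_mul b c) (U_star b), b, d⟩, ?_⟩
    rw [← hh.2, nNC_append, nNC_append, pairC_swap p q]
    congr 1
    exact pairC_cons_congr (NC_cj b) rfl

theorem nNC_Mv {L L' : LL ι} (hL : UL L) (h : Mv L L') : nNC L' = nNC L := by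
  obtain ⟨g, L₁, hg, h1, rfl⟩ := h
  rw [pairC_cjL hg, (pairC_Bv hL h1).2]

open Classical in
theorem pairC_lab {θ : ι → ℝ} {L : LL ι} (h : ∀ p ∈ L, U p.2 ∧ p.2.re = Real.cos (θ p.1)) :
    nNC L = (lab L).countP (fun i => decide (-1 < Real.cos (θ i) ∧ Real.cos (θ i) < 1)) := by
  unfold nNC lab
  rw [List.countP_map]
  refine List.countP_congr fun p hp => ?_
  obtain ⟨h1, h2⟩ := h p hp
  simp only [Function.comp_apply, decide_eq_true_eq]
  rw [NC_iff h1, h2]

/-- it depends on the labels only -/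
theorem nNC_of_perm {θ : ι → ℝ} {L L' : LL ι} (h : ∀ p ∈ L, U p.2 ∧ p.2.re = Real.cos (θ p.1))
    (h' : ∀ p ∈ L', U p.2 ∧ p.2.re = Real.cos (θ p.1)) (hp : (lab L').Perm (lab L)) :
    nNC L' = nNC L := by
  rw [pairC_lab h, pairC_lab h']
  exact hp.countP_eq _

theorem pairC_NA {r : LL ι} (hU : UL r) (h : NA r) : 2 ≤ nNC r := by
  induction r with
  | nil =>
    obtain ⟨p, hp, _⟩ := h
    simp at hp
  | cons a s ih =>
    obtain ⟨ha, hs⟩ := UL_cons.1 hU
    have hle : nNC s ≤ nNC (a :: s) := by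
      by_cases h1 : NC a.2
      · rw [nNC_cons_NC h1]; omega
      · rw [nNC_cons_central h1]
    by_cases h1 : NA s
    · exact (ih hs h1).trans hle
    · have h2 : ∃ y ∈ s, ¬ Commute a.2 y.2 := by
        obtain ⟨p, hp, q, hq, hpq⟩ := h
        rcases List.mem_cons.1 hp with hp | hp <;> rcases List.mem_cons.1 hq with hq | hq
        · exact absurd (by rw [hp, hq]) hpq
        · exact ⟨q, hq, by rw [← hp]; exact hpq⟩
        · exact ⟨p, hp, fun hc => hpq (by rw [hq]; exact hc.symm)⟩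
        · exact absurd ⟨p, hp, q, hq, hpq⟩ h1
      obtain ⟨y, hy, hay⟩ := h2
      obtain ⟨n1, n2, -⟩ := NC_of_not_commute ha (hs y hy) hay
      rw [nNC_cons_NC n1]
      have h3 : 0 < nNC s := by
        unfold nNC
        rw [List.countP_pos_iff]
        exact ⟨y, hy, by simpa using n2⟩
      omega

theorem GP_nNC {p q : ι × H} {r : LL ι} (hU : UL (p :: q :: r)) (h : GP p q r) :
    4 ≤ nNC (p :: q :: r) := by
  obtain ⟨-, h1, h2⟩ := h
  obtain ⟨u1, u2⟩ := UL_cons.1 hU
  obtain ⟨u3, u4⟩ := UL_cons.1 u2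
  obtain ⟨n1, n2, -⟩ := NC_of_not_commute u1 u3 h1
  rw [nNC_cons_NC n1, nNC_cons_NC n2]
  have := pairC_NA u4 h2
  omega

theorem Sg_refl (L : LL ι) : Sg L L := by
  unfold Sg
  rw [List.forall₂_same]
  intro x _
  exact ⟨rfl, Or.inl rfl⟩

theorem Sg_symm {L L' : LL ι} (h : Sg L L') : Sg L' L := by
  unfold Sg at h ⊢
  induction h with
  | nil => exact List.Forall₂.nil
  | cons h1 _ ih =>
    refine List.Forall₂.cons ⟨h1.1.symm, ?_⟩ ih
    rcases h1.2 with h2 | h2
    · exact Or.inl h2.symm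
    · exact Or.inr (by rw [h2, neg_neg])

theorem Sg_append {L₁ L₁' L₂ L₂' : LL ι} (h₁ : Sg L₁ L₁') (h₂ : Sg L₂ L₂') :
    Sg (L₁ ++ L₂) (L₁' ++ L₂') := by
  unfold Sg at h₁
  induction h₁ with
  | nil => exact h₂
  | cons hab _ ih => exact List.Forall₂.cons hab ih

theorem Sg_split {l s M : LL ι} (h : Sg (l ++ s) M) :
    ∃ l' s', M = l' ++ s' ∧ Sg l l' ∧ Sg s s' := by
  induction l generalizing M with
  | nil => exact ⟨[], M, rfl, List.Forall₂.nil, h⟩
  | cons a l ih =>
    unfold Sg at h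
    cases h with
    | cons h1 h2 =>
      obtain ⟨l', s', e, h3, h4⟩ := ih h2
      exact ⟨_ :: l', s', by rw [e]; rfl, List.Forall₂.cons h1 h3, h4⟩

/-- moves are compatible with sign changes -/
theorem Bv_Sg {L M L' : LL ι} (h : Bv L M) (hs : Sg L L') : ∃ M', Bv L' M' ∧ Sg M M' := by
  refine Bv_preserve (P := fun M : LL ι => ∃ M', Bv L' M' ∧ Sg M M') ?_ ?_ h ⟨L', Bv.refl _, hs⟩
  · rintro l r p q ⟨M', h1, h2⟩
    obtain ⟨l', s', rfl, h3, h4⟩ := Sg_split h2
    unfold Sg at h4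
    cases h4 with
    | @cons _ p' _ s'' e1 h5 =>
      cases h5 with
      | @cons _ q' _ r' e2 h6 =>
        refine ⟨l' ++ q' :: (p'.1, star q'.2 * p'.2 * q'.2) :: r', Bv.sw _ _ _ _ _ h1, ?_⟩
        refine Sg_append h3 (List.Forall₂.cons e2 (List.Forall₂.cons ⟨e1.1, ?_⟩ h6))
        rcases e1.2 with a | a <;> rcases e2.2 with b | b <;> simp only [a, b]
        · exact Or.inl trivial
        · left; rw [star_neg, neg_mul, neg_mul, mul_neg, neg_neg]
        · right; rw [mul_neg, neg_mul]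
        · right; rw [star_neg, neg_mul_neg, mul_neg]
  · rintro l r p q ⟨M', h1, h2⟩
    obtain ⟨l', s', rfl, h3, h4⟩ := Sg_split h2
    unfold Sg at h4
    cases h4 with
    | @cons _ p' _ s'' e1 h5 =>
      cases h5 with
      | @cons _ q' _ r' e2 h6 =>
        refine ⟨l' ++ (q'.1, p'.2 * q'.2 * star p'.2) :: p' :: r', Bv.sw' _ _ _ _ _ h1, ?_⟩
        refine Sg_append h3 (List.Forall₂.cons ⟨e2.1, ?_⟩ (List.Forall₂.cons e1 h6))
        rcases e1.2 with a | a <;> rcases e2.2 with b | b <;> simp only [a, b]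
        · exact Or.inl trivial
        · right; rw [mul_neg, neg_mul]
        · left; rw [star_neg, neg_mul, mul_neg, neg_mul, neg_neg]
        · right; rw [star_neg, neg_mul_neg, mul_neg]

theorem Sg_cjL {g : H} {L L' : LL ι} (h : Sg L L') : Sg (cjL g L) (cjL g L') := by
  unfold Sg at h
  induction h with
  | nil => exact List.Forall₂.nil
  | cons hab _ ih =>
    rw [cjL_cons, cjL_cons]
    refine List.Forall₂.cons ⟨hab.1, ?_⟩ ih
    rcases hab.2 with h1 | h1
    · left; simp only [h1]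
    · right; simp only [h1]; exact cj_neg _ _

theorem Mv_Sg {L M L' : LL ι} (h : Mv L M) (hs : Sg L L') : ∃ M', Mv L' M' ∧ Sg M M' := by
  obtain ⟨g, L₁, hg, h1, rfl⟩ := h
  obtain ⟨L₁', h2, h3⟩ := Bv_Sg h1 hs
  exact ⟨cjL g L₁', ⟨g, L₁', hg, h2, rfl⟩, Sg_cjL h3⟩

theorem Sg_mem {L L' : LL ι} (h : Sg L L') {p : ι × H} (hp : p ∈ L) :
    ∃ q ∈ L', p.2 = q.2 ∨ p.2 = -q.2 := by
  unfold Sg at h
  induction h with
  | nil => simp at hp
  | cons hab _ ih =>
    rcases List.mem_cons.1 hp with h1 | h1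
    · rw [h1]; exact ⟨_, List.mem_cons_self, hab.2⟩
    · obtain ⟨q, hq, h2⟩ := ih h1
      exact ⟨q, List.mem_cons_of_mem _ hq, h2⟩

theorem Sg_commute {x y x' y' : H} (hx : x = x' ∨ x = -x') (hy : y = y' ∨ y = -y')
    (h : Commute x' y') : Commute x y := by
  rcases hx with rfl | rfl <;> rcases hy with rfl | rfl
  · exact h
  · exact h.neg_right
  · exact h.neg_left
  · exact h.neg_left.neg_right

theorem NA_Sg_imp {L L' : LL ι} (hs : Sg L L') (h : NA L) : NA L' := by
  obtain ⟨p, hp, q, hq, hpq⟩ := h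
  obtain ⟨p', hp', h1⟩ := Sg_mem hs hp
  obtain ⟨q', hq', h2⟩ := Sg_mem hs hq
  exact ⟨p', hp', q', hq', fun hc => hpq (Sg_commute h1 h2 hc)⟩

theorem NA_Sg {L L' : LL ι} (hs : Sg L L') : NA L ↔ NA L' :=
  ⟨NA_Sg_imp hs, NA_Sg_imp (Sg_symm hs)⟩

theorem Dih_Sg_imp {L L' : LL ι} (hs : Sg L L') (h : Dih L) : Dih L' := by
  obtain ⟨u, hu, h0, h1⟩ := h
  refine ⟨u, hu, h0, fun p hp => ?_⟩
  obtain ⟨q, hq, h2⟩ := Sg_mem (Sg_symm hs) hp
  rcases h2 with h2 | h2
  · rw [h2]; exact h1 q hq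
  · rw [h2]
    rcases h1 q hq with h3 | h3
    · left; rw [neg_mul, mul_neg, h3]
    · right; rw [neg_mul, mul_neg, h3]

theorem Dih_Sg {L L' : LL ι} (hs : Sg L L') : Dih L ↔ Dih L' :=
  ⟨Dih_Sg_imp hs, Dih_Sg_imp (Sg_symm hs)⟩

theorem pairC_aux (n : ℕ) : ∀ {L : LL ι}, L.length = n → UL L → 4 ≤ nNC L → pr L = 1 → NA L →
    ∃ (b₁ b₂ : ι × H) (r : LL ι), Mv L (b₁ :: b₂ :: r) ∧ ¬ Commute b₁.2 b₂.2 ∧ NA r := by
  induction n with
  | zero =>
    intro L hlen hL h4 _ _
    have := nNC_le L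
    omega
  | succ n ih =>
    intro L hlen hL h4 hp h
    by_cases hall : ∀ p ∈ L, NC p.2
    · have h5 := nNC_eq_length.2 hall
      exact exists_pair hL hall (by omega) hp h
    push Not at hall
    obtain ⟨z, hz, hzc⟩ := hall
    obtain ⟨l, s, rfl⟩ := List.append_of_mem hz
    have hm : Mv (l ++ z :: s) (z :: (s ++ l)) := mv_rot' hL
    have hU1 := Mv_UL hm hL
    have hN1 := nNC_Mv hL hm
    have hpr1 := reorder_Mv_pr hm hL hp
    have hNA1 := (Mv_NA hm hL).2 h
    have hlen1 := Mv_length hm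
    rw [nNC_cons_central hzc] at hN1
    obtain ⟨hzU, hU2⟩ := UL_cons.1 hU1
    have hne : s ++ l ≠ [] := by
      intro he
      rw [he] at hN1
      have : nNC ([] : LL ι) = 0 := rfl
      omega
    obtain ⟨y, t, hyt⟩ := List.exists_cons_of_ne_nil hne
    rw [hyt] at hm hU1 hN1 hpr1 hNA1 hlen1 hU2
    obtain ⟨hyU, htU⟩ := UL_cons.1 hU2
    have hz1 := eq_of_not_NC hzU hzc
    -- the list with `z` absorbed
    have hSg : Sg ((y.1, z.2 * y.2) :: t) (y :: t) := by
      refine List.Forall₂.cons ⟨rfl, ?_⟩ (Sg_refl t)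
      rcases hz1 with e | e
      · left; simp only [e, one_mul]
      · right; simp only [e, neg_mul, one_mul]
    have hNAy : NA (y :: t) := by
      obtain ⟨p, hp', q, hq', hpq⟩ := hNA1
      have h6 : ∀ x ∈ z :: y :: t, (∃ w : H, ¬ Commute x.2 w) → x ∈ y :: t := by
        intro x hx hw
        rcases List.mem_cons.1 hx with h7 | h7
        · obtain ⟨w, hw⟩ := hw
          rw [h7] at hw
          exact absurd (commute_of_not_NC hzc w) hw
        · exact h7
      exact ⟨p, h6 p hp' ⟨_, hpq⟩, q, h6 q hq' ⟨_, fun hc => hpq hc.symm⟩, hpq⟩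
    have hcount : nNC ((y.1, z.2 * y.2) :: t) = nNC (y :: t) := by
      refine pairC_cons_congr ?_ rfl
      rcases hz1 with e | e
      · simp only [e, one_mul]
      · simp only [e, neg_mul, one_mul]
        unfold NC
        rw [Quaternion.im_neg, neg_ne_zero]
    obtain ⟨b₁, b₂, r, hMv, hb, hr⟩ := ih (L := (y.1, z.2 * y.2) :: t)
      (by simp only [List.length_cons] at hlen1 ⊢; omega)
      (UL_cons.2 ⟨U_mul hzU hyU, htU⟩) (by rw [hcount]; omega)
      (by rw [pr_cons, pr_cons, ← mul_assoc] at hpr1; rw [pr_cons]; exact hpr1)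
      ((NA_Sg hSg).2 hNAy)
    obtain ⟨M', hM1, hM2⟩ := Mv_Sg hMv hSg
    unfold Sg at hM2
    cases hM2 with
    | @cons _ b₁' _ _ e1 hM3 =>
      cases hM3 with
      | @cons _ b₂' _ r' e2 hM4 =>
        obtain ⟨g, L₁, hg, hB, hM'⟩ := hM1
        refine ⟨b₁', b₂', r' ++ [z], Mv_trans hm (Mv_trans (mv_rot hU1) ?_), ?_, ?_⟩
        · refine ⟨g, L₁ ++ [z], hg, ?_, ?_⟩
          · have h8 := Bv_ctx hB [] [z]
            simpa using h8
          · have h9 : cjL g [z] = [z] := by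
              rw [cjL_cons, cj_of_commute hg (commute_of_not_NC hzc g).symm]
              rfl
            rw [cjL_append, ← hM', h9]
            rfl
        · intro hc
          exact hb (Sg_commute e1.2 e2.2 hc)
        · obtain ⟨p, hp', q, hq', hpq⟩ := (NA_Sg hM4).1 hr
          exact ⟨p, List.mem_append_left _ hp', q, List.mem_append_left _ hq', hpq⟩

/-- `exists_pair` for lists with central entries.  Induction on the length.  If all entries are
non-central use `exists_pair`.  Otherwise rotate so that `L = z :: y :: t` with `z` central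
(`mv_rot'`, `L` has other entries); apply the induction hypothesis to `(y.1, z.2 * y.2) :: t`, which is
`Sg`-equivalent to `y :: t`; by `Mv_Sg` there is a move of `y :: t`; add `z` at the end (moves in a
context, `Bv_ctx`; a simultaneous conjugation does not change `z`). -/
theorem exists_pair_central {L : LL ι} (hL : UL L) (h4 : 4 ≤ nNC L) (hp : pr L = 1) (h : NA L) :
    ∃ (b₁ b₂ : ι × H) (r : LL ι), Mv L (b₁ :: b₂ :: r) ∧ ¬ Commute b₁.2 b₂.2 ∧ NA r :=
  pairC_aux L.length rfl hL h4 hp h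

end Pool.Agent.W24dbe6
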