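import Pool.Agent.W_MP_24dbe6_h58.GeoB
import Pool.Agent.W_MP_24dbe6_h58.PairC
import Pool.Agent.W_MP_24dbe6_h58.GeoFlow
import Pool.Agent.W_MP_24dbe6_h58.GeoTor

set_option autoImplicit false

/-!
Infinite relative character varieties and infinite orbits.
-/

namespace Pool.Agent.W24dbe6

open Quaternion

/-- the product of two non-commuting units is non-central -/
theorem InfRel_NC {x y : H} (hx : U x) (h : ¬ Commute x y) : NC (x * y) := by
  by_contra hc
  exact h ((commute_mul_left_iff hx).1 (commute_of_not_NC hc x).symm)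

/-- two geometric tuples with the same labels differ by a mapping class -/
theorem InfRel_change {n : ℕ} {y y' : List (Fin n × Pi1 n)} (hy : GeoT n y) (hy' : GeoT n y')
    (hl : y.map Prod.fst = y'.map Prod.fst) :
    ∃ α ∈ MCG n, y' = y.map fun p => (p.1, α p.2) := by
  obtain ⟨⟨φ, hφ⟩, h2, h3⟩ := hy
  obtain ⟨⟨ψ, hψ⟩, h2', h3'⟩ := hy'
  have hlen : y.length = n := by
    have := congrArg List.length hφ
    simpa using this
  have hlen' : y'.length = n := by
    have := congrArg List.length hψ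
    simpa using this
  have hα : ∀ k : Fin n, (ψ * φ⁻¹) (φ (c k)) = ψ (c k) := fun k => by
    change ψ (φ⁻¹ (φ (c k))) = ψ (c k)
    congr 1
    exact φ.symm_apply_apply _
  have e : y' = y.map fun p => (p.1, (ψ * φ⁻¹) p.2) := by
    apply List.ext_getElem
    · rw [List.length_map, hlen, hlen']
    · intro j h1 h4
      have hj : j < n := by rwa [hlen'] at h1
      have hj' : j < y.length := by rwa [hlen]
      have g1 : (y'.map Prod.fst)[j]'(by simpa using h1) = (y.map Prod.fst)[j]'(by simpa using hj') := by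
        simp only [hl]
      have g2 : (y'.map Prod.snd)[j]'(by simpa using h1) = ψ (c ⟨j, hj⟩) := by
        simp only [hψ, List.getElem_ofFn]
      have g3 : (y.map Prod.snd)[j]'(by simpa using hj') = φ (c ⟨j, hj⟩) := by
        simp only [hφ, List.getElem_ofFn]
      rw [List.getElem_map] at g1 g2 g3
      rw [List.getElem_map] at g1
      rw [List.getElem_map]
      refine Prod.ext g1 ?_
      change (y'[j]).2 = (ψ * φ⁻¹) (y[j]).2
      rw [g2, g3, hα]
  refine ⟨ψ * φ⁻¹, ?_, e⟩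
  intro i
  have hi : i ∈ y.map Prod.fst := h3.mem_iff.2 (List.mem_finRange i)
  obtain ⟨p, hp, rfl⟩ := List.mem_map.1 hi
  have h5 : IsConj ((ψ * φ⁻¹) p.2) (c p.1) := h2' (p.1, (ψ * φ⁻¹) p.2) (by
    rw [e]
    exact List.mem_map.2 ⟨p, hp, rfl⟩)
  have h6 : IsConj ((ψ * φ⁻¹) p.2) ((ψ * φ⁻¹) (c p.1)) := by
    obtain ⟨g, hg⟩ := isConj_iff.1 (h2 p hp)
    refine isConj_iff.2 ⟨(ψ * φ⁻¹) g, ?_⟩
    rw [← hg, map_mul, map_mul, map_inv]
  exact h6.symm.trans h5

/-- full twists of the first two entries of a geometric tuple -/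
theorem InfRel_twist {n : ℕ} {a b : Fin n × Pi1 n} {r : List (Fin n × Pi1 n)}
    (h : GeoT n (a :: b :: r)) (k : ℕ) :
    GeoT n ((a.1, (a.2 * b.2) ^ k * a.2 * ((a.2 * b.2) ^ k)⁻¹) ::
      (b.1, (a.2 * b.2) ^ k * b.2 * ((a.2 * b.2) ^ k)⁻¹) :: r) := by
  induction k with
  | zero => simpa using h
  | succ k ih =>
    have h1 := GeoT_sw' (l := []) ih
    have h2 := GeoT_sw' (l := []) h1
    simp only [List.nil_append] at h2
    have e1 : (a.2 * b.2) ^ (k + 1) * a.2 * ((a.2 * b.2) ^ (k + 1))⁻¹ =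
        (a.2 * b.2) ^ k * a.2 * ((a.2 * b.2) ^ k)⁻¹ * ((a.2 * b.2) ^ k * b.2 * ((a.2 * b.2) ^ k)⁻¹) *
              ((a.2 * b.2) ^ k * a.2 * ((a.2 * b.2) ^ k)⁻¹)⁻¹ *
            ((a.2 * b.2) ^ k * a.2 * ((a.2 * b.2) ^ k)⁻¹) *
          ((a.2 * b.2) ^ k * a.2 * ((a.2 * b.2) ^ k)⁻¹ *
            ((a.2 * b.2) ^ k * b.2 * ((a.2 * b.2) ^ k)⁻¹) *
              ((a.2 * b.2) ^ k * a.2 * ((a.2 * b.2) ^ k)⁻¹)⁻¹)⁻¹ := by
      rw [pow_succ]
      generalize (a.2 * b.2) ^ k = P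
      group
    have e2 : (a.2 * b.2) ^ (k + 1) * b.2 * ((a.2 * b.2) ^ (k + 1))⁻¹ =
          (a.2 * b.2) ^ k * a.2 * ((a.2 * b.2) ^ k)⁻¹ *
            ((a.2 * b.2) ^ k * b.2 * ((a.2 * b.2) ^ k)⁻¹) *
            ((a.2 * b.2) ^ k * a.2 * ((a.2 * b.2) ^ k)⁻¹)⁻¹ := by
      rw [pow_succ]
      generalize (a.2 * b.2) ^ k = P
      group
    rw [e1, e2]
    exact h2

theorem InfRel_UL {n : ℕ} (ρ : Pi1 n →* SU2) : UL (Lst ρ) := Adm_UL (Adm_Lst ρ)

/-- the product of the second and third entry is an invariant of conjugation -/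
theorem InfRel_inv {ι : Type} {g : H} (hg : U g) {a b e a' b' e' : ι × H} {m m' : LL ι}
    (h : a' :: b' :: e' :: m' = cjL g (a :: b :: e :: m)) :
    (e'.2 * b'.2).re = (e.2 * b.2).re := by
  rw [cjL_cons, cjL_cons, cjL_cons] at h
  simp only [List.cons.injEq] at h
  obtain ⟨-, h2, h3, -⟩ := h
  rw [h2, h3]
  change (cj g e.2 * cj g b.2).re = _
  rw [← cj_mul hg, cj_re hg]

/-- With at least four non-central boundary holonomies and non-abelian image the relative character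
variety is infinite.  `exists_pair_central` gives `b₁ :: b₂ :: r`, after a move of `r` (`one_out`) the
first entry `z` of `r` does not commute with `w = b₁ b₂`.  `mv_GeoT` gives `y`.  For `t` in the torus of
`w` the list `cj t b₁ :: cj t b₂ :: r` is `mapL σ y` for some `σ` (`exists_rep_GeoT`) with
`cls σ ∈ relChar ρ`; `(cj t b₂ * z).re` is an invariant of the class (`mapL_of_cls_eq`) and takes
infinitely many values (`flow_fin`, `tor_uncountable`; `b₂` does not commute with `w`). -/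
theorem relChar_infinite {n : ℕ} {ρ : Pi1 n →* SU2} (h4 : 4 ≤ numNC ρ) (hna : NA (Lst ρ)) :
    (relChar ρ).Infinite := by
  rw [numNC_eq] at h4
  have hUρ : UL (Lst ρ) := InfRel_UL ρ
  obtain ⟨b₁, b₂, r, hmv, hb, hr⟩ := exists_pair_central hUρ h4 (pr_Lst ρ) hna
  have hU0 := Mv_UL hmv hUρ
  obtain ⟨hU1, hU'⟩ := UL_cons.1 hU0
  obtain ⟨hU2, hUr⟩ := UL_cons.1 hU'
  have hwn : NC (b₁.2 * b₂.2) := InfRel_NC hU1 hb
  have hw : U (b₁.2 * b₂.2) := U_mul hU1 hU2
  obtain ⟨e, m, hem, hew⟩ := reorder_one (exists_out hr hwn)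
  have hmv2 : Mv (Lst ρ) (b₁ :: b₂ :: e :: m) :=
    Mv_trans hmv (Mv_of_Bv (Bv_cons (Bv_cons hem b₂) b₁))
  have hAdm : Adm (thetaOf ρ) (b₁ :: b₂ :: e :: m) := Mv_Adm hmv2 (Adm_Lst ρ)
  have hUL : UL (b₁ :: b₂ :: e :: m) := Adm_UL hAdm
  have hUe : U e.2 := hUL e (by simp)
  have hb2w : ¬ Commute b₂.2 (b₁.2 * b₂.2) := fun k => hb ((commute_mul_right_iff hU2).1 k)
  obtain ⟨y, hy, g, hg, hyL⟩ := mv_GeoT hmv2
  have hlab : lab (b₁ :: b₂ :: e :: m) = y.map Prod.fst := by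
    rw [hyL, lab_cjL]
    unfold lab mapL
    rw [List.map_map]
    rfl
  -- the twisted lists
  have hex : ∀ t : H, t ∈ Tor (b₁.2 * b₂.2) → ∃ σ : Pi1 n →* SU2,
      mapL σ y = (b₁.1, cj t b₁.2) :: (b₂.1, cj t b₂.2) :: e :: m := by
    intro t ht
    apply exists_rep_GeoT hy
    · rw [← hlab]
      rfl
    · rw [UL_cons, UL_cons]
      exact ⟨U_cj ht.1 hU1, U_cj ht.1 hU2, (UL_cons.1 (UL_cons.1 hUL).2).2⟩
    · rw [pr_cons, pr_cons, ← mul_assoc]
      change cj t b₁.2 * cj t b₂.2 * pr (e :: m) = 1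
      rw [← cj_mul ht.1, cj_of_commute ht.1 ht.2]
      have := hAdm.2
      rw [pr_cons, pr_cons, ← mul_assoc] at this
      exact this
  classical
  intro hfin
  let f : H → CharVar n := fun t =>
    if ht : t ∈ Tor (b₁.2 * b₂.2) then cls (Classical.choose (hex t ht)) else cls ρ
  have hf : ∀ t (ht : t ∈ Tor (b₁.2 * b₂.2)), f t = cls (Classical.choose (hex t ht)) := by
    intro t ht
    simp only [f, dif_pos ht]
  have himg : (f '' Tor (b₁.2 * b₂.2)).Finite := by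
    apply hfin.subset
    rintro _ ⟨t, ht, rfl⟩
    rw [hf t ht]
    apply relChar_of_GeoT hy
    intro p hp
    rw [Classical.choose_spec (hex t ht)] at hp
    simp only [List.mem_cons] at hp
    rcases hp with rfl | rfl | rfl | hp
    · change (cj t b₁.2).re = _
      rw [cj_re ht.1]
      exact (hAdm.1 b₁ (by simp)).2
    · change (cj t b₂.2).re = _
      rw [cj_re ht.1]
      exact (hAdm.1 b₂ (by simp)).2
    · exact (hAdm.1 _ (by simp)).2
    · exact (hAdm.1 p (by simp [hp])).2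
  have hfib : ∀ x ∈ f '' Tor (b₁.2 * b₂.2), (Tor (b₁.2 * b₂.2) ∩ f ⁻¹' {x}).Finite := by
    rintro _ ⟨t₀, ht₀, rfl⟩
    refine (flow_fin hw hwn hUe hU2 hew hb2w ((e.2 * cj t₀ b₂.2).re)).subset ?_
    rintro t ⟨ht, htf⟩
    refine ⟨ht, ?_⟩
    rw [Set.mem_preimage, Set.mem_singleton_iff, hf t ht, hf t₀ ht₀] at htf
    obtain ⟨g', hg', h1⟩ := mapL_of_cls_eq htf y
    rw [Classical.choose_spec (hex t ht), Classical.choose_spec (hex t₀ ht₀)] at h1
    exact (InfRel_inv hg' h1).symm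
  have hT : (Tor (b₁.2 * b₂.2)).Finite := Set.Finite.of_finite_fibers f himg hfib
  have h1 : (1 : H) ∈ Tor (b₁.2 * b₂.2) := ⟨U_one, Commute.one_left _⟩
  refine tor_uncountable hw hwn h1 one_pos ((hT.subset ?_).countable)
  rintro t ⟨ht, -⟩
  exact ht

/-- A good pair gives an infinite orbit: let `φ`, `y` be such that the list of `ρ` on the geometric tuple
is `p :: q :: r` up to conjugation; move an entry `z` of `r` not commuting with `w = p q` to the front;
the full twists of the block `p, q` (`bv_twist_pow`) conjugate it by `w ^ m`; bring the labels back to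
the order `0, …, n-1` by a fixed sequence of moves, i.e. apply the automorphism; simplest: the twist
of the geometric tuple `(y₁, y₂, y₃, …)` is `(v^m y₁ v^{-m}, v^m y₂ v^{-m}, y₃, …)` with
`v = y₁ y₂`, the automorphism `ψ_m` mapping `y_k` to these is in `MCG n`; `ρ ∘ ψ_m` has on the tuple `y` the
list `cj (w^m) p :: cj (w^m) q :: z :: …`, and `(cj (w^m) q * z).re` takes infinitely many values. -/
theorem orb_infinite_of_GP {n : ℕ} {ρ : Pi1 n →* SU2} {p q : Fin n × H} {r : LL (Fin n)}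
    (h : Mv (Lst ρ) (p :: q :: r)) (hgp : GP p q r) : (orb ρ).Infinite := by
  obtain ⟨hinf, hb, hr⟩ := hgp
  have hUρ : UL (Lst ρ) := InfRel_UL ρ
  have hU0 := Mv_UL h hUρ
  obtain ⟨hU1, hU'⟩ := UL_cons.1 hU0
  obtain ⟨hU2, hUr⟩ := UL_cons.1 hU'
  have hwn : NC (p.2 * q.2) := InfRel_NC hU1 hb
  have hw : U (p.2 * q.2) := U_mul hU1 hU2
  obtain ⟨e, m, hem, hew⟩ := reorder_one (exists_out hr hwn)
  have hmv2 : Mv (Lst ρ) (p :: q :: e :: m) :=
    Mv_trans h (Mv_of_Bv (Bv_cons (Bv_cons hem q) p))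
  have hUL : UL (p :: q :: e :: m) := Mv_UL hmv2 hUρ
  have hUe : U e.2 := hUL e (by simp)
  have hqw : ¬ Commute q.2 (p.2 * q.2) := fun k => hb ((commute_mul_right_iff hU2).1 k)
  obtain ⟨y, hy, g, hg, hyL⟩ := mv_GeoT hmv2
  -- split the tuple
  rw [Geo_cjL_mapL] at hyL
  obtain ⟨a, y1, rfl, ea, hy1⟩ := List.map_eq_cons_iff.1 hyL.symm
  obtain ⟨b, y2, rfl, eb, hy2⟩ := List.map_eq_cons_iff.1 hy1
  have ea2 : cj g (toH (ρ a.2)) = p.2 := by rw [← ea]
  have eb2 : cj g (toH (ρ b.2)) = q.2 := by rw [← eb]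
  have ea1 : a.1 = p.1 := by rw [← ea]
  have eb1 : b.1 = q.1 := by rw [← eb]
  have key : ∀ k : ℕ, ∃ α ∈ MCG n, cjL g (mapL (ρ.comp (α : Pi1 n →* Pi1 n)) (a :: b :: y2)) =
      (p.1, cj ((p.2 * q.2) ^ k) p.2) :: (q.1, cj ((p.2 * q.2) ^ k) q.2) :: e :: m := by
    intro k
    obtain ⟨α, hα, hα2⟩ := InfRel_change hy (InfRel_twist hy k) rfl
    refine ⟨α, hα, ?_⟩
    have e1 : mapL (ρ.comp (α : Pi1 n →* Pi1 n)) (a :: b :: y2) =
        mapL ρ ((a :: b :: y2).map fun x => (x.1, α x.2)) := by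
      unfold mapL
      rw [List.map_map]
      rfl
    have ev : cj g (toH (ρ ((a.2 * b.2) ^ k))) = (p.2 * q.2) ^ k := by
      have h1 : toH (ρ ((a.2 * b.2) ^ k)) = (toH (ρ a.2) * toH (ρ b.2)) ^ k := by
        rw [map_pow, map_mul, ← toH_mul]
        exact map_pow reps_toHh (ρ a.2 * ρ b.2) k
      rw [h1, cj_pow hg, cj_mul hg, ea2, eb2]
    rw [e1, ← hα2, Geo_cjL_mapL, List.map_cons, List.map_cons, hy2]
    congr 1
    · refine Prod.ext ea1 ?_
      change cj g (toH (ρ ((a.2 * b.2) ^ k * a.2 * ((a.2 * b.2) ^ k)⁻¹))) = _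
      rw [map_mul, map_mul, map_inv, toH_mul, toH_mul, toH_inv, cj_mul hg, cj_mul hg, cj_star,
        ev, ea2]
      rfl
    · congr 1
      refine Prod.ext eb1 ?_
      change cj g (toH (ρ ((a.2 * b.2) ^ k * b.2 * ((a.2 * b.2) ^ k)⁻¹))) = _
      rw [map_mul, map_mul, map_inv, toH_mul, toH_mul, toH_inv, cj_mul hg, cj_mul hg, cj_star,
        ev, eb2]
      rfl
  choose α hα hαL using key
  intro hfin
  let f : ℕ → CharVar n := fun k => cls (ρ.comp (α k : Pi1 n →* Pi1 n))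
  have hinj : Function.Injective fun k : ℕ => (p.2 * q.2) ^ k := by
    have h0 : ∀ k l : ℕ, k < l → (p.2 * q.2) ^ k ≠ (p.2 * q.2) ^ l := by
      intro k l hkl heq
      obtain ⟨d, rfl⟩ := Nat.exists_eq_add_of_lt hkl
      have h1 : (p.2 * q.2) ^ (d + 1) = 1 := by
        have h2 : star ((p.2 * q.2) ^ k) * ((p.2 * q.2) ^ (k + d + 1)) = 1 := by
          rw [← heq]
          exact U_star_mul (U_pow hw k)
        rwa [add_assoc, pow_add, ← mul_assoc, U_star_mul (U_pow hw k), one_mul] at h2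
      exact hinf (d + 1) (Nat.succ_pos d) h1
    intro k l hkl
    rcases lt_trichotomy k l with h1 | h1 | h1
    · exact absurd hkl (h0 k l h1)
    · exact h1
    · exact absurd hkl.symm (h0 l k h1)
  have himg : (f '' Set.univ).Finite := by
    apply hfin.subset
    rintro _ ⟨k, -, rfl⟩
    exact ⟨α k, hα k, rfl⟩
  have hfib : ∀ x ∈ f '' Set.univ, (Set.univ ∩ f ⁻¹' {x}).Finite := by
    rintro _ ⟨k₀, -, rfl⟩
    have h1 := flow_fin hw hwn hUe hU2 hew hqw ((e.2 * cj ((p.2 * q.2) ^ k₀) q.2).re)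
    refine (h1.preimage (f := fun k : ℕ => (p.2 * q.2) ^ k) hinj.injOn).subset ?_
    rintro k ⟨-, hk⟩
    refine ⟨⟨U_pow hw k, Commute.pow_left (Commute.refl _) k⟩, ?_⟩
    rw [Set.mem_preimage, Set.mem_singleton_iff] at hk
    obtain ⟨g', hg', h2⟩ := mapL_of_cls_eq hk (a :: b :: y2)
    have h3 : cjL g (mapL (ρ.comp (α k₀ : Pi1 n →* Pi1 n)) (a :: b :: y2)) =
        cjL (g * g' * star g) (cjL g (mapL (ρ.comp (α k : Pi1 n →* Pi1 n)) (a :: b :: y2))) := by
      rw [h2, cjL_cjL, cjL_cjL, mul_assoc (g * g'), U_star_mul hg, mul_one]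
    rw [hαL, hαL] at h3
    exact (InfRel_inv (U_mul (U_mul hg hg') (U_star hg)) h3).symm
  have hT : (Set.univ : Set ℕ).Finite := Set.Finite.of_finite_fibers f himg hfib
  exact Set.infinite_univ hT

end Pool.Agent.W24dbe6
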