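import Pool.Agent.W_MP_24dbe6_h58.StatementB
import Pool.Agent.W_MP_24dbe6_h58.InfRel
import Pool.Agent.W_MP_24dbe6_h58.InfOrb
import Pool.Agent.W_MP_24dbe6_h58.Reorder

set_option autoImplicit false

/-!
Infinite orbits and simple closed curves.
-/

namespace Pool.Agent.W24dbe6

open Quaternion

/-- splitting `0, …, n-1` at two labels -/
theorem cv_split {n : ℕ} {i j : Fin n} (h : i < j) : ∃ A B C : List (Fin n),
    List.finRange n = A ++ i :: (B ++ j :: C) ∧
    B = (List.finRange n).filter (fun k => i < k ∧ k < j) ∧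
    (∀ k, k ≠ i → k ≠ j → k ∈ A ∨ k ∈ B ∨ k ∈ C) ∧
    ∀ k, (k ∈ A ∨ k ∈ B ∨ k ∈ C) → k ≠ i ∧ k ≠ j := by
  have hpw : (List.finRange n).Pairwise (· < ·) := List.pairwise_lt_finRange n
  obtain ⟨A, R, hAR⟩ := List.append_of_mem (List.mem_finRange i)
  have hpw1 := hpw
  rw [hAR, List.pairwise_append, List.pairwise_cons] at hpw1
  obtain ⟨-, ⟨hR, -⟩, hA⟩ := hpw1
  have hAi : ∀ k ∈ A, k < i := fun k hk => hA k hk i List.mem_cons_self
  have hj : j ∈ R := by
    have h1 : j ∈ List.finRange n := List.mem_finRange j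
    rw [hAR, List.mem_append, List.mem_cons] at h1
    rcases h1 with h1 | h1 | h1
    · exact absurd (hAi j h1) (not_lt.2 h.le)
    · exact absurd h1 h.ne'
    · exact h1
  obtain ⟨B, C, rfl⟩ := List.append_of_mem hj
  have hpw2 := hpw
  rw [hAR, List.pairwise_append, List.pairwise_cons, List.pairwise_append,
    List.pairwise_cons] at hpw2
  obtain ⟨-, ⟨h1, -, ⟨h3, -⟩, h5⟩, -⟩ := hpw2
  have hBi : ∀ k ∈ B, i < k := fun k hk => h1 k (List.mem_append.2 (Or.inl hk))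
  have hBj : ∀ k ∈ B, k < j := fun k hk => h5 k hk j List.mem_cons_self
  have hCj : ∀ k ∈ C, j < k := h3
  refine ⟨A, B, C, hAR, ?_, ?_, ?_⟩
  · rw [hAR, List.filter_append, List.filter_cons, List.filter_append, List.filter_cons]
    have e1 : A.filter (fun k => i < k ∧ k < j) = [] := by
      rw [List.filter_eq_nil_iff]
      intro k hk
      simp only [decide_eq_true_eq, not_and_or, not_lt]
      exact Or.inl (hAi k hk).le
    have e2 : B.filter (fun k => i < k ∧ k < j) = B := by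
      rw [List.filter_eq_self]
      intro k hk
      simp only [decide_eq_true_eq]
      exact ⟨hBi k hk, hBj k hk⟩
    have e3 : C.filter (fun k => i < k ∧ k < j) = [] := by
      rw [List.filter_eq_nil_iff]
      intro k hk
      simp only [decide_eq_true_eq, not_and_or, not_lt]
      exact Or.inr (hCj k hk).le
    rw [e1, e2, e3]
    simp
  · intro k hki hkj
    have h6 : k ∈ List.finRange n := List.mem_finRange k
    rw [hAR, List.mem_append, List.mem_cons, List.mem_append, List.mem_cons] at h6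
    rcases h6 with h6 | h6 | h6 | h6 | h6
    · exact Or.inl h6
    · exact absurd h6 hki
    · exact Or.inr (Or.inl h6)
    · exact absurd h6 hkj
    · exact Or.inr (Or.inr h6)
  · rintro k (hk | hk | hk)
    · exact ⟨(hAi k hk).ne, ((hAi k hk).trans h).ne⟩
    · exact ⟨(hBi k hk).ne', (hBj k hk).ne⟩
    · exact ⟨(h.trans (hCj k hk)).ne', (hCj k hk).ne'⟩

/-- the entry of the list of `σ` with label `k` -/
noncomputable def cvf {n : ℕ} (σ : Pi1 n →* SU2) (k : Fin n) : Fin n × H := (k, toH (σ (c k)))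

theorem cv_Lst {n : ℕ} (σ : Pi1 n →* SU2) : Lst σ = (List.finRange n).map (cvf σ) := by
  unfold Lst
  rw [← List.ofFn_id, List.map_ofFn]
  rfl

theorem cv_pr {n : ℕ} (σ : Pi1 n →* SU2) (B : List (Fin n)) :
    pr (B.map (cvf σ)) = toH (σ (B.map c).prod) := by
  have h1 : toH (σ (B.map c).prod) = (reps_toHh.comp σ) (B.map c).prod := rfl
  rw [h1, map_list_prod, List.map_map]
  unfold pr
  rw [List.map_map]
  rfl

theorem cv_commute {A B : SU2} : Commute (toH A) (toH B) ↔ Commute A B := by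
  constructor
  · intro h
    apply toH_injective
    rw [toH_mul, toH_mul]
    exact h
  · intro h
    show toH A * toH B = toH B * toH A
    rw [← toH_mul, ← toH_mul, h.eq]

theorem cv_MCG_mul {n : ℕ} {φ ψ : MulAut (Pi1 n)} (hφ : φ ∈ MCG n) (hψ : ψ ∈ MCG n) :
    φ * ψ ∈ MCG n := by
  intro i
  have h1 : IsConj (φ (ψ (c i))) (φ (c i)) := by
    obtain ⟨g, hg⟩ := isConj_iff.1 (hψ i)
    refine isConj_iff.2 ⟨φ g, ?_⟩
    have h2 := congrArg φ hg
    rw [map_mul, map_mul, map_inv] at h2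
    exact h2
  exact h1.trans (hφ i)

theorem cv_UL {n : ℕ} (σ : Pi1 n →* SU2) (B : List (Fin n)) : UL (B.map (cvf σ)) := by
  intro p hp
  obtain ⟨k, -, rfl⟩ := List.mem_map.1 hp
  exact U_toH _

/-- From a good curve to an infinite orbit.  The list of `ρ ∘ φ` is
`l ++ (i, x) :: m ++ (j, y₀) :: s`, which moves (`bv_left'` for `m ++ [(j, y₀)]`, then rotation) to
`(i, x) :: (j, cj (pr m) y₀) :: m ++ s ++ l`; `pr m = toH (ρ (φ (mid i j)))`; apply `orb_infinite_of_GP` to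
`ρ ∘ φ`; `orb (ρ ∘ φ) ⊆ orb ρ`. -/
theorem orb_infinite_of_curve {n : ℕ} {ρ : Pi1 n →* SU2} (h : GoodCurve ρ) :
    (orb ρ).Infinite := by
  obtain ⟨φ, hφ, i, j, hij, hnc, hinf, k, l, hki, hkj, hli, hlj, hkl⟩ := h
  have hsub : orb (ρ.comp (φ : Pi1 n →* Pi1 n)) ⊆ orb ρ := by
    rintro χ ⟨ψ, hψ, rfl⟩
    exact ⟨φ * ψ, cv_MCG_mul hφ hψ, rfl⟩
  refine Set.Infinite.mono hsub ?_
  obtain ⟨A, B, C, hABC, hB, hcov, -⟩ := cv_split hij
  set σ : Pi1 n →* SU2 := ρ.comp (φ : Pi1 n →* Pi1 n) with hσ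
  have hmid : pr (B.map (cvf σ)) = toH (σ (mid i j)) := by
    rw [cv_pr, hB]
    rfl
  have hL : Lst σ = A.map (cvf σ) ++ cvf σ i :: (B.map (cvf σ) ++ cvf σ j :: C.map (cvf σ)) := by
    rw [cv_Lst, hABC, List.map_append, List.map_cons, List.map_append, List.map_cons]
  have hbv := Bv_ctx (bv_left' (B.map (cvf σ)) (cv_UL σ B) (cvf σ j))
    (A.map (cvf σ) ++ [cvf σ i]) (C.map (cvf σ))
  have e1 : A.map (cvf σ) ++ [cvf σ i] ++ (B.map (cvf σ) ++ [cvf σ j]) ++ C.map (cvf σ) =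
      Lst σ := by
    rw [hL]
    simp
  have e2 : A.map (cvf σ) ++ [cvf σ i] ++ (((cvf σ j).1, cj (pr (B.map (cvf σ))) (cvf σ j).2) ::
      B.map (cvf σ)) ++ C.map (cvf σ) = A.map (cvf σ) ++ (cvf σ i ::
        ((cvf σ j).1, cj (pr (B.map (cvf σ))) (cvf σ j).2) :: (B.map (cvf σ) ++ C.map (cvf σ))) := by
    simp
  rw [e1, e2] at hbv
  have hU : UL (Lst σ) := Adm_UL (Adm_Lst σ)
  have hmv := Mv_trans (Mv_of_Bv hbv) (mv_rot' (Bv_UL hbv hU))
  have hq : cj (pr (B.map (cvf σ))) (cvf σ j).2 = toH (σ (mid i j * c j * (mid i j)⁻¹)) := by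
    rw [hmid]
    show cj (toH (σ (mid i j))) (toH (σ (c j))) = _
    rw [map_mul, map_mul, map_inv, toH_conj]
  refine orb_infinite_of_GP (p := cvf σ i)
    (q := ((cvf σ j).1, cj (pr (B.map (cvf σ))) (cvf σ j).2))
    (r := B.map (cvf σ) ++ C.map (cvf σ) ++ A.map (cvf σ)) hmv ⟨?_, ?_, ?_⟩
  · intro m hm hone
    refine hinf m hm ?_
    apply toH_injective
    rw [toH_pow, toH_one, ← hone]
    congr 1
    show toH (σ (c i * (mid i j * c j * (mid i j)⁻¹))) = toH (σ (c i)) * _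
    rw [map_mul, toH_mul, ← hq]
  · show ¬ Commute (toH (σ (c i))) (cj (pr (B.map (cvf σ))) (cvf σ j).2)
    rw [hq, cv_commute]
    exact hnc
  · have hmem : ∀ k, k ≠ i → k ≠ j →
        cvf σ k ∈ B.map (cvf σ) ++ C.map (cvf σ) ++ A.map (cvf σ) := by
      intro k h1 h2
      rw [List.mem_append, List.mem_append]
      rcases hcov k h1 h2 with h3 | h3 | h3
      · exact Or.inr (List.mem_map_of_mem h3)
      · exact Or.inl (Or.inl (List.mem_map_of_mem h3))
      · exact Or.inl (Or.inr (List.mem_map_of_mem h3))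
    refine ⟨cvf σ k, hmem k hki hkj, cvf σ l, hmem l hli hlj, ?_⟩
    show ¬ Commute (toH (σ (c k))) (toH (σ (c l)))
    rw [cv_commute]
    exact hkl

/-- from a good pair with increasing labels to a good curve -/
theorem cv_of_lt {n : ℕ} {ρ : Pi1 n →* SU2} {φ : MulAut (Pi1 n)} (hφ : φ ∈ MCG n)
    {p q : Fin n × H} {r : LL (Fin n)}
    (h : Mv (Lst (ρ.comp (φ : Pi1 n →* Pi1 n))) (p :: q :: r)) (hgp : GP p q r)
    (hpq : p.1 < q.1) : GoodCurve ρ := by
  obtain ⟨hinf, hnc, hna⟩ := hgp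
  have hUσ : UL (Lst (ρ.comp (φ : Pi1 n →* Pi1 n))) := Adm_UL (Adm_Lst _)
  have hU0 := Mv_UL h hUσ
  have hUr : UL r := (UL_cons.1 (UL_cons.1 hU0).2).2
  obtain ⟨A, B, C, hABC, hB, -, hne⟩ := cv_split hpq
  have hperm := Mv_perm h
  rw [lab_Lst, hABC] at hperm
  have hperm2 : (lab r).Perm (B ++ C ++ A) := by
    have h1 : (p.1 :: q.1 :: lab r).Perm (p.1 :: q.1 :: (A ++ (B ++ C))) := by
      refine (show (p.1 :: q.1 :: lab r).Perm (A ++ p.1 :: (B ++ q.1 :: C)) from hperm).trans ?_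
      refine List.perm_middle.trans (List.Perm.cons _ ?_)
      rw [← List.append_assoc, ← List.append_assoc]
      exact List.perm_middle
    have h2 := (List.perm_cons _).1 ((List.perm_cons _).1 h1)
    exact h2.trans List.perm_append_comm
  obtain ⟨r', hrr, hlab⟩ := reorder hperm2
  have hna' : NA r' := (Bv_NA hrr hUr).2 hna
  unfold lab at hlab
  rw [List.map_eq_append_iff] at hlab
  obtain ⟨ms, l, rfl, hms, hl⟩ := hlab
  rw [List.map_eq_append_iff] at hms
  obtain ⟨m, s, rfl, hm, hs⟩ := hms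
  have hmv1 : Mv (Lst (ρ.comp (φ : Pi1 n →* Pi1 n))) ((p :: q :: (m ++ s)) ++ l) := by
    have h1 := Mv_trans h (Mv_of_Bv (Bv_cons (Bv_cons hrr q) p))
    simpa using h1
  have hmv2 := Mv_trans hmv1 (mv_rot' (Mv_UL hmv1 hUσ))
  have hU2 := Mv_UL hmv2 hUσ
  have hUm : UL m := by
    intro x hx
    exact hU2 x (by simp [hx])
  have hbv := Bv_ctx (bv_right' m hUm q) (l ++ [p]) s
  have e1 : l ++ [p] ++ q :: m ++ s = l ++ (p :: q :: (m ++ s)) := by simp
  have e2 : l ++ [p] ++ (m ++ [(q.1, cj (star (pr m)) q.2)]) ++ s =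
      l ++ p :: (m ++ (q.1, cj (star (pr m)) q.2) :: s) := by simp
  rw [e1, e2] at hbv
  have hmv3 := Mv_trans hmv2 (Mv_of_Bv hbv)
  obtain ⟨y, hy, g, hg, hyL⟩ := mv_GeoT hmv3
  have hylab : y.map Prod.fst = List.finRange n := by
    have h1 := congrArg lab hyL
    rw [lab_cjL] at h1
    have h2 : lab (mapL (ρ.comp (φ : Pi1 n →* Pi1 n)) y) = y.map Prod.fst := by
      unfold lab mapL
      rw [List.map_map]
      rfl
    rw [← h2, ← h1, hABC]
    unfold lab
    rw [List.map_append, List.map_cons, List.map_append, List.map_cons, hl, hm, hs]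
  obtain ⟨ψ, hψ, rfl⟩ := GeoT_MCG hy hylab
  set τ : Pi1 n →* SU2 := ρ.comp ((φ * ψ : MulAut (Pi1 n)) : Pi1 n →* Pi1 n) with hτ
  have hmapL : mapL (ρ.comp (φ : Pi1 n →* Pi1 n)) (List.ofFn fun i : Fin n => (i, ψ (c i))) =
      A.map (cvf τ) ++ cvf τ p.1 :: (B.map (cvf τ) ++ cvf τ q.1 :: C.map (cvf τ)) := by
    have h1 : mapL (ρ.comp (φ : Pi1 n →* Pi1 n)) (List.ofFn fun i : Fin n => (i, ψ (c i))) =
        Lst τ := by
      unfold mapL Lst
      rw [List.map_ofFn]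
      rfl
    rw [h1, cv_Lst, hABC, List.map_append, List.map_cons, List.map_append, List.map_cons]
  rw [hmapL, cjL_append, cjL_cons, cjL_append, cjL_cons] at hyL
  have hlenl : l.length = (cjL g (A.map (cvf τ))).length := by
    rw [length_cjL, List.length_map, ← hl, List.length_map]
  have hlenm : m.length = (cjL g (B.map (cvf τ))).length := by
    rw [length_cjL, List.length_map, ← hm, List.length_map]
  obtain ⟨k1, k2⟩ := List.append_inj hyL hlenl
  obtain ⟨k3, k4⟩ := List.cons.inj k2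
  obtain ⟨k5, k6⟩ := List.append_inj k4 hlenm
  obtain ⟨k7, k8⟩ := List.cons.inj k6
  have hp2 : p.2 = cj g (toH (τ (c p.1))) := by
    have := congrArg Prod.snd k3
    exact this
  have hprm : pr m = cj g (toH (τ (mid p.1 q.1))) := by
    rw [k5, pr_cjL hg, cv_pr, hB]
    rfl
  have hq2 : q.2 = cj g (toH (τ (mid p.1 q.1 * c q.1 * (mid p.1 q.1)⁻¹))) := by
    have h1 : cj (star (pr m)) q.2 = cj g (toH (τ (c q.1))) := congrArg Prod.snd k7
    have h2 : q.2 = cj (pr m) (cj (star (pr m)) q.2) := (cj_cj_star (U_pr hUm) q.2).symm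
    rw [h2, h1, hprm, map_mul, map_mul, map_inv, toH_conj, cj_cj, cj_cj]
    congr 1
    unfold cj
    rw [mul_assoc, U_star_mul hg, mul_one]
  refine ⟨φ * ψ, cv_MCG_mul hφ hψ, p.1, q.1, hpq, ?_, ?_, ?_⟩
  · show ¬ Commute (τ (c p.1)) (τ (mid p.1 q.1 * c q.1 * (mid p.1 q.1)⁻¹))
    rw [← cv_commute, ← commute_cj hg, ← hp2, ← hq2]
    exact hnc
  · intro t ht hone
    refine hinf t ht ?_
    have h1 : p.2 * q.2 = cj g (toH (τ (c p.1 * (mid p.1 q.1 * c q.1 * (mid p.1 q.1)⁻¹)))) := by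
      rw [hp2, hq2, ← cj_mul hg, ← toH_mul, ← map_mul]
    have h2 : τ (c p.1 * (mid p.1 q.1 * c q.1 * (mid p.1 q.1)⁻¹)) ^ t = 1 := hone
    rw [h1, ← cj_pow hg, ← toH_pow, h2, toH_one, cj_one_right hg]
  · obtain ⟨a, ha, b, hb, hab⟩ := hna'
    have hent : ∀ x ∈ m ++ s ++ l, ∃ k, k ≠ p.1 ∧ k ≠ q.1 ∧ x.2 = cj g (toH (τ (c k))) := by
      intro x hx
      rw [List.mem_append, List.mem_append, k1, k5, k8] at hx
      rcases hx with (hx | hx) | hx
      · obtain ⟨y, hy, rfl⟩ := mem_cjL.1 hx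
        obtain ⟨k, hk, rfl⟩ := List.mem_map.1 hy
        exact ⟨k, (hne k (Or.inr (Or.inl hk))).1, (hne k (Or.inr (Or.inl hk))).2, rfl⟩
      · obtain ⟨y, hy, rfl⟩ := mem_cjL.1 hx
        obtain ⟨k, hk, rfl⟩ := List.mem_map.1 hy
        exact ⟨k, (hne k (Or.inr (Or.inr hk))).1, (hne k (Or.inr (Or.inr hk))).2, rfl⟩
      · obtain ⟨y, hy, rfl⟩ := mem_cjL.1 hx
        obtain ⟨k, hk, rfl⟩ := List.mem_map.1 hy
        exact ⟨k, (hne k (Or.inl hk)).1, (hne k (Or.inl hk)).2, rfl⟩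
    obtain ⟨k, hk1, hk2, hk3⟩ := hent a ha
    obtain ⟨l', hl1, hl2, hl3⟩ := hent b hb
    refine ⟨k, l', hk1, hk2, hl1, hl2, ?_⟩
    show ¬ Commute (τ (c k)) (τ (c l'))
    rw [← cv_commute, ← commute_cj hg, ← hk3, ← hl3]
    exact hab

/-- From a good pair `p :: q :: r` of `ρ ∘ φ` to a good curve.  Exchanging `p, q` by a move if necessary
(`sw`, the product does not change) the labels are `i < j`.  Reorder `r` (`reorder`, `Bv_NA`) so that the
labels are `i+1, …, j-1`, then `j+1, …, n-1`, then `0, …, i-1`: `r = m ++ s ++ l`.  Rotate to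
`l ++ p :: q :: m ++ s` and move `q` to the right past `m` (`bv_right'`):
`l ++ p :: m ++ (j, cj (star (pr m)) q.2) :: s` has the labels `0, …, n-1`, so it is
the list of `ρ ∘ φ ∘ ψ` for some `ψ ∈ MCG n` up to conjugation (`mv_GeoT`, `GeoT_MCG`). -/
theorem curve_of_GP {n : ℕ} {ρ : Pi1 n →* SU2} {φ : MulAut (Pi1 n)} (hφ : φ ∈ MCG n)
    {p q : Fin n × H} {r : LL (Fin n)}
    (h : Mv (Lst (ρ.comp (φ : Pi1 n →* Pi1 n))) (p :: q :: r)) (hgp : GP p q r) :
    GoodCurve ρ := by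
  have hUσ : UL (Lst (ρ.comp (φ : Pi1 n →* Pi1 n))) := Adm_UL (Adm_Lst _)
  have hU0 := Mv_UL h hUσ
  obtain ⟨hU1, hU'⟩ := UL_cons.1 hU0
  obtain ⟨hU2, hUr⟩ := UL_cons.1 hU'
  rcases lt_trichotomy p.1 q.1 with hlt | heq | hgt
  · exact cv_of_lt hφ h hgp hlt
  · exfalso
    have h1 : (lab (p :: q :: r)).Nodup := (Mv_perm h).nodup_iff.2 (by
      rw [lab_Lst]
      exact List.nodup_finRange n)
    have h2 : (p.1 :: q.1 :: lab r).Nodup := h1
    rw [List.nodup_cons] at h2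
    exact h2.1 (by rw [heq]; exact List.mem_cons_self)
  · obtain ⟨hinf, hnc, hna⟩ := hgp
    have hpr : q.2 * (star q.2 * p.2 * q.2) = p.2 * q.2 := by
      rw [← mul_assoc, ← mul_assoc, U_mul_star hU2, one_mul]
    refine cv_of_lt hφ (Mv_trans h (Mv_of_Bv (Bv_sw0 p q r))) ⟨?_, ?_, hna⟩ hgt
    · show Inf (q.2 * (star q.2 * p.2 * q.2))
      rw [hpr]
      exact hinf
    · show ¬ Commute q.2 (star q.2 * p.2 * q.2)
      intro hc
      have h1 : Commute q.2 (q.2 * (star q.2 * p.2 * q.2)) := (Commute.refl q.2).mul_right hc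
      rw [hpr] at h1
      exact hnc ((commute_mul_right_iff hU2).1 h1)

theorem infinite_iff_curve {n : ℕ} (ρ : Pi1 n →* SU2) : (orb ρ).Infinite ↔ GoodCurve ρ := by
  refine ⟨fun h => ?_, orb_infinite_of_curve⟩
  obtain ⟨φ, hφ, p, q, r, hm, hg⟩ := inf_orb h
  exact curve_of_GP hφ hm hg

end Pool.Agent.W24dbe6
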