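import Pool.Agent.W_MP_24dbe6_h58.AbB

set_option autoImplicit false

/-!
Abelian lists are limits of non-abelian lists: merging, induction.
-/

namespace Pool.Agent.W24dbe6

open Quaternion

theorem abC_commute_neg {x y : H} : Commute (-x) y ↔ Commute x y := Commute.neg_left_iff

/-- the common step of the two merging lemmas -/
theorem AL_merge_aux {u : H} (hu : U u) (hr : u.re = 0) {a b c : ℝ} {l : List ℝ} {σ : H}
    (hσ : σ = 1 ∨ σ = -1) (hc : 0 < c ∧ c < Real.pi) (hab : E u a * E u b = σ * E u c)
    (hsum : σ * E u (c :: l).sum = E u (a :: b :: l).sum)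
    (h : AL u (c :: l)) : AL u (a :: b :: l) := by
  intro ε hε
  obtain ⟨δ, hδ, hconj⟩ := conj_near (U_E hu hr c) (NC_E hu hr hc) (ε := ε / 2) (by positivity)
  obtain ⟨ys, h1, h2, h3⟩ := h (min δ ε) (by positivity)
  rw [List.forall₂_cons_left_iff] at h1
  obtain ⟨y, ys', ⟨hyU, hyr, hyd⟩, h4, rfl⟩ := h1
  obtain ⟨g, hg, hgy, hg1⟩ := hconj y hyU (by rw [hyr, E_re hr]) (hyd.trans_le (min_le_left _ _))
  have hd : ∀ x : ℝ, dist (E u x) (cj g (E u x)) < ε := by
    intro x
    have h1 := dist_cj_le U_one hg (U_E hu hr x)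
    rw [cj_one_left, dist_comm 1 g] at h1
    linarith
  have hσg : ∀ x : H, cj g (σ * x) = σ * cj g x := by
    intro x
    rcases hσ with rfl | rfl
    · rw [one_mul, one_mul]
    · rw [neg_one_mul, neg_one_mul, cj_neg]
  have hprod : cj g (E u a) * cj g (E u b) = σ * y := by
    rw [← cj_mul hg, hab, hσg, hgy]
  refine ⟨cj g (E u a) :: cj g (E u b) :: ys', ?_, ?_, ?_⟩
  · refine List.Forall₂.cons ⟨U_cj hg (U_E hu hr a), ?_, hd a⟩
      (List.Forall₂.cons ⟨U_cj hg (U_E hu hr b), ?_, hd b⟩
        (h4.imp (fun x z hxz => ⟨hxz.1, hxz.2.1, hxz.2.2.trans_le (min_le_right _ _)⟩)))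
    · rw [cj_re hg, E_re hr]
    · rw [cj_re hg, E_re hr]
  · rw [List.prod_cons, List.prod_cons, ← mul_assoc, hprod, mul_assoc, ← List.prod_cons, h2, hsum]
  · by_contra hcon
    rw [abB_not_NAl] at hcon
    refine absurd h3 (abB_not_NAl.2 ?_)
    have hy : ∀ w : H, Commute (cj g (E u a)) w → Commute (cj g (E u b)) w → Commute y w := by
      intro w hw1 hw2
      have h5 : Commute (σ * y) w := by
        rw [← hprod]
        exact hw1.mul_left hw2
      rcases hσ with rfl | rfl
      · rwa [one_mul] at h5
      · rwa [neg_one_mul, Commute.neg_left_iff] at h5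
    intro x hx w hw
    rw [List.mem_cons] at hx hw
    rcases hx with rfl | hx
    · rcases hw with rfl | hw
      · exact Commute.refl _
      · exact hy w (hcon _ (by simp) _ (by simp [hw])) (hcon _ (by simp) _ (by simp [hw]))
    · rcases hw with rfl | hw
      · exact (hy x (hcon _ (by simp) _ (by simp [hx])) (hcon _ (by simp) _ (by simp [hx]))).symm
      · exact hcon x (by simp [hx]) w (by simp [hw])

/-- merging: if `a + b < π` and the merged list has the property, so does the original one
(`conj_near` for the merged entry) -/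
theorem AL_merge_lt {u : H} (hu : U u) (hr : u.re = 0) {a b : ℝ} {l : List ℝ}
    (ha : 0 < a ∧ a < Real.pi) (hb : 0 < b ∧ b < Real.pi) (hab : a + b < Real.pi)
    (h : AL u ((a + b) :: l)) : AL u (a :: b :: l) := by
  refine AL_merge_aux hu hr (σ := 1) (Or.inl rfl) ⟨by linarith, hab⟩ ?_ ?_ h
  · rw [one_mul, E_add hu hr]
  · rw [one_mul]
    congr 1
    simp only [List.sum_cons]
    ring

theorem AL_merge_gt {u : H} (hu : U u) (hr : u.re = 0) {a b : ℝ} {l : List ℝ}
    (ha : 0 < a ∧ a < Real.pi) (hb : 0 < b ∧ b < Real.pi) (hab : Real.pi < a + b)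
    (h : AL u ((a + b - Real.pi) :: l)) : AL u (a :: b :: l) := by
  refine AL_merge_aux hu hr (σ := -1) (Or.inr rfl) ⟨by linarith, by linarith⟩ ?_ ?_ h
  · rw [← E_pi u, ← E_add hu hr, ← E_add hu hr]
    congr 1
    ring
  · rw [← E_pi u, ← E_add hu hr]
    congr 1
    simp only [List.sum_cons]
    ring

theorem abC_sum_bounds {l : List ℝ} (hl : ∀ x ∈ l, 0 < x ∧ x < Real.pi) :
    0 ≤ l.sum ∧ l.sum ≤ l.length * Real.pi := by
  induction l with
  | nil => simp
  | cons x l ih =>
    obtain ⟨h1, h2⟩ := ih (fun y hy => hl y (List.mem_cons_of_mem _ hy))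
    have h3 := hl x List.mem_cons_self
    rw [List.sum_cons, List.length_cons]
    push_cast
    constructor <;> linarith

theorem AL_main_aux {u : H} (hu : U u) (hr : u.re = 0) (n : ℕ) : ∀ (l : List ℝ) (M : ℕ),
    (∀ x ∈ l, 0 < x ∧ x < Real.pi) → l.length = n + 4 → 2 ≤ M → M + 2 ≤ l.length →
    l.sum = M * Real.pi → AL u l := by
  induction n with
  | zero =>
    intro l M hl hlen hM hM' hs
    obtain ⟨a, l, rfl⟩ : ∃ a l', l = a :: l' := List.exists_cons_of_length_pos (by omega)
    obtain ⟨b, l, rfl⟩ : ∃ a l', l = a :: l' :=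
      List.exists_cons_of_length_pos (by simp at hlen; omega)
    obtain ⟨c, l, rfl⟩ : ∃ a l', l = a :: l' :=
      List.exists_cons_of_length_pos (by simp at hlen; omega)
    obtain ⟨d, l, rfl⟩ : ∃ a l', l = a :: l' :=
      List.exists_cons_of_length_pos (by simp at hlen; omega)
    have hl0 : l = [] := List.length_eq_zero_iff.1 (by simp at hlen; simp [hlen])
    subst hl0
    have hM2 : M = 2 := by simp at hM'; omega
    subst hM2
    refine AL_four hu hr hl ?_
    simp only [List.sum_cons, List.sum_nil] at hs
    push_cast at hs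
    linarith
  | succ n ih =>
    intro l M hl hlen hM hM' hs
    obtain ⟨a, l, rfl⟩ : ∃ a l', l = a :: l' := List.exists_cons_of_length_pos (by omega)
    obtain ⟨b, l, rfl⟩ : ∃ a l', l = a :: l' :=
      List.exists_cons_of_length_pos (by simp at hlen; omega)
    obtain ⟨c, l, rfl⟩ : ∃ a l', l = a :: l' :=
      List.exists_cons_of_length_pos (by simp at hlen; omega)
    obtain ⟨d, l, rfl⟩ : ∃ a l', l = a :: l' :=
      List.exists_cons_of_length_pos (by simp at hlen; omega)
    have hlenl : l.length = n + 1 := by simp at hlen; omega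
    have hMn : M ≤ n + 3 := by simp [hlenl] at hM'; omega
    have ha := hl a (by simp)
    have hb := hl b (by simp)
    have hc := hl c (by simp)
    have hd := hl d (by simp)
    have hl' : ∀ x ∈ l, 0 < x ∧ x < Real.pi := fun x hx => hl x (by simp [hx])
    have hbd := abC_sum_bounds hl'
    rw [hlenl] at hbd
    have hs' : a + b + c + d + l.sum = M * Real.pi := by
      rw [← hs]
      simp only [List.sum_cons]
      ring
    -- the two merging steps, for an arbitrary first pair
    have hlt : ∀ (x y z w : ℝ), (x :: y :: z :: w :: l).Perm (a :: b :: c :: d :: l) →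
        x + y < Real.pi → M ≤ n + 2 → AL u (a :: b :: c :: d :: l) := by
      intro x y z w hperm hxy hMM
      have hx := hl x (hperm.mem_iff.1 (by simp))
      have hy := hl y (hperm.mem_iff.1 (by simp))
      refine AL_perm hu hr hperm (AL_merge_lt hu hr hx hy hxy ?_)
      refine ih _ M ?_ (by simp [hlenl]) hM (by simp [hlenl]; omega) ?_
      · intro t ht
        rw [List.mem_cons] at ht
        rcases ht with rfl | ht
        · exact ⟨by linarith, hxy⟩
        · refine hl t (hperm.mem_iff.1 ?_)
          simp only [List.mem_cons] at ht ⊢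
          tauto
      · have := hperm.sum_eq
        rw [← hs, ← this]
        simp only [List.sum_cons]
        ring
    have hgt : ∀ (x y z w : ℝ), (x :: y :: z :: w :: l).Perm (a :: b :: c :: d :: l) →
        Real.pi < x + y → 3 ≤ M → AL u (a :: b :: c :: d :: l) := by
      intro x y z w hperm hxy hMM
      have hx := hl x (hperm.mem_iff.1 (by simp))
      have hy := hl y (hperm.mem_iff.1 (by simp))
      refine AL_perm hu hr hperm (AL_merge_gt hu hr hx hy hxy ?_)
      refine ih _ (M - 1) ?_ (by simp [hlenl]) (by omega) (by simp [hlenl]; omega) ?_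
      · intro t ht
        rw [List.mem_cons] at ht
        rcases ht with rfl | ht
        · exact ⟨by linarith, by linarith⟩
        · refine hl t (hperm.mem_iff.1 ?_)
          simp only [List.mem_cons] at ht ⊢
          tauto
      · have := hperm.sum_eq
        rw [Nat.cast_sub (by omega), sub_mul, ← hs, ← this]
        simp only [List.sum_cons]
        push_cast
        ring
    have hswap : (c :: d :: a :: b :: l).Perm (a :: b :: c :: d :: l) :=
      List.perm_append_comm (l₁ := [c, d]) (l₂ := [a, b]) |>.append_right l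
    rcases lt_trichotomy (a + b) Real.pi with hab | hab | hab
    · rcases Nat.lt_or_ge (n + 2) M with h1 | h1
      · have hM3 : M = n + 3 := by omega
        subst hM3
        refine hgt c d a b hswap ?_ (by omega)
        push_cast at hs' hbd
        linarith [hbd.2]
      · exact hlt a b c d (List.Perm.refl _) hab h1
    · exact AL_of_pi hu hr hl hab
    · rcases Nat.lt_or_ge M 3 with h1 | h1
      · have hM2 : M = 2 := by omega
        subst hM2
        refine hlt c d a b hswap ?_ (by omega)
        push_cast at hs' hbd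
        linarith [hbd.1]
      · exact hgt a b c d (List.Perm.refl _) hab h1

/-- The main statement.  Induction on the length: length 4 is `AL_four`.  Length `n ≥ 5`: if two
entries add up to `π` use `AL_of_pi` (after a permutation).  Otherwise choose two entries with sum
`< π` if `M = 2` and `> π` if `M = n - 2` (they exist: if all pair sums were `> π` the total would be
`> n π / 2 ≥ 2.5 π`, etc.), any two entries otherwise, and merge. -/
theorem AL_main {u : H} (hu : U u) (hr : u.re = 0) {l : List ℝ}
    (hl : ∀ x ∈ l, 0 < x ∧ x < Real.pi) {M : ℕ} (h4 : 4 ≤ l.length) (hM : 2 ≤ M)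
    (hM' : M + 2 ≤ l.length) (hs : l.sum = M * Real.pi) : AL u l :=
  AL_main_aux hu hr (l.length - 4) l M hl (by omega) hM hM' hs

end Pool.Agent.W24dbe6
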