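import Pool.Agent.W_MP_24dbe6_h58.StatementB
import Pool.Agent.W_MP_24dbe6_h58.AbA
import Pool.Agent.W_MP_24dbe6_h58.GeoB
import Pool.Agent.W_MP_24dbe6_h58.PairC

set_option autoImplicit false

/-!
Normal form of abelian representations.
-/

namespace Pool.Agent.W24dbe6

open Quaternion

/-- normal form of abelian representations -/
def NF {n : ℕ} (ρ : Pi1 n →* SU2) (u : H) (α : Fin n → ℝ) (s : Fin n → Bool) : Prop :=
  U u ∧ u.re = 0 ∧ (∀ i, 0 ≤ α i ∧ α i < Real.pi) ∧
    ∀ i, toH (ρ (c i)) = if s i then E u (α i) else -E u (α i)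

/-- conjugation of a rotation -/
theorem rigidB_cj_E {g : H} (hg : U g) (u : H) (a : ℝ) : cj g (E u a) = E (cj g u) a := by
  have h1 : cj g ((Real.cos a : ℝ) : H) = ((Real.cos a : ℝ) : H) :=
    cj_of_commute hg (Quaternion.coe_commutes _ _).symm
  have h2 : cj g ((Real.sin a : ℝ) : H) = ((Real.sin a : ℝ) : H) :=
    cj_of_commute hg (Quaternion.coe_commutes _ _).symm
  unfold E
  rw [cj_add, cj_mul hg, h1, h2]

/-- the quaternion unit `i` -/
noncomputable def rigidB_i : H := ⟨0, 1, 0, 0⟩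

theorem rigidB_i_re : rigidB_i.re = 0 := rfl

theorem rigidB_i_U : U rigidB_i := by
  rw [SU2_U_iff]
  norm_num [rigidB_i]

theorem rigidB_E_i (a : ℝ) : E rigidB_i a = ⟨Real.cos a, Real.sin a, 0, 0⟩ := by
  ext
  · rw [E_re rigidB_i_re]
  · rw [AbA_E_imI]
    simp [rigidB_i]
  · rw [AbA_E_imJ]
    simp [rigidB_i]
  · rw [AbA_E_imK]
    simp [rigidB_i]

theorem rigidB_exp (a : ℝ) : Complex.exp (a * Complex.I) = ⟨Real.cos a, Real.sin a⟩ := by
  apply Complex.ext
  · exact Complex.exp_ofReal_mul_I_re a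
  · exact Complex.exp_ofReal_mul_I_im a

theorem rigidB_exp' (a : ℝ) : Complex.exp (-(a * Complex.I)) = ⟨Real.cos a, -Real.sin a⟩ := by
  have h : -((a : ℂ) * Complex.I) = ((-a : ℝ) : ℂ) * Complex.I := by push_cast; ring
  rw [h, rigidB_exp, Real.cos_neg, Real.sin_neg]

theorem rigidB_mat (a : ℝ) : !![Complex.exp (a * Complex.I), 0; 0, Complex.exp (-(a * Complex.I))]
    = SU2_mat (E rigidB_i a) := by
  rw [rigidB_E_i, rigidB_exp, rigidB_exp']
  ext i j
  fin_cases i <;> fin_cases j <;> simp [SU2_mat, Complex.ext_iff]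

theorem rigidB_mat' (a : ℝ) :
    -!![Complex.exp (a * Complex.I), 0; 0, Complex.exp (-(a * Complex.I))]
    = SU2_mat (-E rigidB_i a) := by
  rw [rigidB_E_i, rigidB_exp, rigidB_exp']
  ext i j
  fin_cases i <;> fin_cases j <;> simp [SU2_mat, Complex.ext_iff]

theorem rigidB_mat_inj {x y : H} (h : SU2_mat x = SU2_mat y) : x = y := by
  have h0 := congrFun (congrFun h 0) 0
  have h1 := congrFun (congrFun h 0) 1
  simp only [SU2_mat, Matrix.of_apply, Matrix.cons_val', Matrix.cons_val_zero,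
    Matrix.cons_val_one, Matrix.cons_val_fin_one, Complex.ext_iff] at h0 h1
  ext
  · exact h0.1
  · exact h0.2
  · exact h1.1
  · exact h1.2

/-- diagonal matrices and rotations about the quaternion unit `i` -/
theorem rigidB_diag (A : SU2) (a : ℝ) : (A : Matrix (Fin 2) (Fin 2) ℂ) =
    !![Complex.exp (a * Complex.I), 0; 0, Complex.exp (-(a * Complex.I))] ↔
      toH A = E rigidB_i a := by
  rw [rigidB_mat, ← SU2_mat_toH A]
  exact ⟨rigidB_mat_inj, fun h => by rw [h]⟩

theorem rigidB_diag' (A : SU2) (a : ℝ) : (A : Matrix (Fin 2) (Fin 2) ℂ) =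
    -!![Complex.exp (a * Complex.I), 0; 0, Complex.exp (-(a * Complex.I))] ↔
      toH A = -E rigidB_i a := by
  rw [rigidB_mat', ← SU2_mat_toH A]
  exact ⟨rigidB_mat_inj, fun h => by rw [h]⟩

/-- the angle can be normalised up to the sign -/
theorem rigidB_norm (u : H) (a : ℝ) : ∃ b : ℝ, (0 ≤ b ∧ b < Real.pi) ∧
    (E u a = E u b ∨ E u a = -E u b) := by
  have h1 := toIcoMod_mem_Ico' Real.pi_pos a
  have h2 := toIcoMod_add_toIcoDiv_zsmul Real.pi_pos 0 a
  refine ⟨toIcoMod Real.pi_pos 0 a, ⟨h1.1, h1.2⟩, ?_⟩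
  rw [zsmul_eq_mul] at h2
  have h3 : Real.cos a = (-1) ^ toIcoDiv Real.pi_pos 0 a *
      Real.cos (toIcoMod Real.pi_pos 0 a) := by
    rw [← Real.cos_add_int_mul_pi, h2]
  have h4 : Real.sin a = (-1) ^ toIcoDiv Real.pi_pos 0 a *
      Real.sin (toIcoMod Real.pi_pos 0 a) := by
    rw [← Real.sin_add_int_mul_pi, h2]
  rcases Int.even_or_odd (toIcoDiv Real.pi_pos 0 a) with h | h
  · left
    rw [h.neg_one_zpow, one_mul] at h3 h4
    unfold E
    rw [h3, h4]
  · right
    rw [h.neg_one_zpow, neg_one_mul] at h3 h4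
    unfold E
    rw [h3, h4, Quaternion.coe_neg, Quaternion.coe_neg, neg_mul, neg_add]

/-- the diagonal matrices `diag (e^{i α}, e^{-i α})` correspond to `E u α` with `u` the quaternion unit
`i`; every pure unit is conjugate to it (`conj_of_re`) -/
theorem rigid_iff_NF {n : ℕ} (ρ : Pi1 n →* SU2) : Rigid ρ ↔ ∃ (u : H) (α : Fin n → ℝ)
    (s : Fin n → Bool), NF ρ u α s ∧
      (∑ i, α i = Real.pi ∨ ∑ i, α i = ((numNC ρ : ℝ) - 1) * Real.pi) := by
  classical
  constructor
  · rintro ⟨g, α, hα, h, hs⟩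
    have hg := U_toH g
    have hg' := U_star hg
    refine ⟨cj (star (toH g)) rigidB_i, α, fun i => decide (toH (g * ρ (c i) * g⁻¹) =
      E rigidB_i (α i)), ⟨U_cj hg' rigidB_i_U, by rw [cj_re hg']; exact rigidB_i_re, hα, ?_⟩, hs⟩
    intro i
    have h1 : toH (ρ (c i)) = cj (star (toH g)) (toH (g * ρ (c i) * g⁻¹)) := by
      rw [toH_conj, cj_star_cj hg]
    by_cases h2 : toH (g * ρ (c i) * g⁻¹) = E rigidB_i (α i)
    · rw [if_pos (decide_eq_true h2), h1, h2, rigidB_cj_E hg']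
    · have h3 : toH (g * ρ (c i) * g⁻¹) = -E rigidB_i (α i) := by
        rcases h i with h4 | h4
        · exact absurd ((rigidB_diag _ _).1 h4) h2
        · exact (rigidB_diag' _ _).1 h4
      rw [if_neg (by simpa using h2), h1, h3, cj_neg, rigidB_cj_E hg']
  · rintro ⟨u, α, s, ⟨hu, hr, hα, h⟩, hs⟩
    obtain ⟨g, hg, hgu⟩ := conj_of_re hu rigidB_i_U (by rw [hr]; rfl)
    obtain ⟨A, rfl⟩ := exists_toH hg
    refine ⟨A, α, hα, fun i => ?_, hs⟩
    rw [rigidB_diag, rigidB_diag', toH_conj, h i]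
    by_cases h2 : s i
    · left
      rw [if_pos h2, rigidB_cj_E hg, hgu]
    · right
      rw [if_neg h2, cj_neg, rigidB_cj_E hg, hgu]

theorem rigidB_mk {n : ℕ} {ρ : Pi1 n →* SU2} {u : H} (hu : U u) (hr : u.re = 0)
    (h : ∀ i, ∃ b : ℝ, (0 ≤ b ∧ b < Real.pi) ∧
      (toH (ρ (c i)) = E u b ∨ toH (ρ (c i)) = -E u b)) :
    ∃ (u : H) (α : Fin n → ℝ) (s : Fin n → Bool), NF ρ u α s := by
  classical
  choose α h1 h2 using h
  refine ⟨u, α, fun i => decide (toH (ρ (c i)) = E u (α i)), hu, hr, h1, fun i => ?_⟩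
  by_cases h3 : toH (ρ (c i)) = E u (α i)
  · rw [if_pos (decide_eq_true h3)]
    exact h3
  · rw [if_neg (by simpa using h3)]
    exact (h2 i).resolve_left h3

theorem exists_NF {n : ℕ} {ρ : Pi1 n →* SU2} (h : ¬ NA (Lst ρ)) : ∃ (u : H) (α : Fin n → ℝ)
    (s : Fin n → Bool), NF ρ u α s := by
  have hcomm : ∀ i j, Commute (toH (ρ (c i))) (toH (ρ (c j))) := fun i j =>
    not_NA_iff.1 h _ (reps_mem.2 ⟨i, rfl⟩) _ (reps_mem.2 ⟨j, rfl⟩)
  by_cases hex : ∃ i, NC (toH (ρ (c i)))
  · obtain ⟨i₀, hi₀⟩ := hex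
    obtain ⟨u, hu, hr, hax, -⟩ := exists_axis hi₀
    refine rigidB_mk hu hr fun i => ?_
    obtain ⟨a, ha⟩ := exists_E hu hr (U_toH (ρ (c i))) ((hax _).1 (hcomm i i₀))
    rw [ha]
    exact rigidB_norm u a
  · refine rigidB_mk rigidB_i_U rigidB_i_re fun i => ?_
    refine ⟨0, ⟨le_rfl, Real.pi_pos⟩, ?_⟩
    rw [E_zero]
    exact eq_of_not_NC (U_toH _) fun h' => hex ⟨i, h'⟩

theorem NF_not_NA {n : ℕ} {ρ : Pi1 n →* SU2} {u : H} {α : Fin n → ℝ} {s : Fin n → Bool}
    (h : NF ρ u α s) : ¬ NA (Lst ρ) := by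
  have key : ∀ i, toH (ρ (c i)) = E u (α i) ∨ toH (ρ (c i)) = -E u (α i) := by
    intro i
    rw [h.2.2.2 i]
    by_cases h2 : s i
    · rw [if_pos h2]
      exact Or.inl rfl
    · rw [if_neg h2]
      exact Or.inr rfl
  rw [not_NA_iff]
  intro p hp q hq
  obtain ⟨i, rfl⟩ := reps_mem.1 hp
  obtain ⟨j, rfl⟩ := reps_mem.1 hq
  exact Sg_commute (key i) (key j) (E_commute _ _ _)

/-- products of signs and rotations -/
theorem rigidB_prod {κ : Type} {u : H} (hu : U u) (hr : u.re = 0) (α : κ → ℝ) (s : κ → Bool)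
    (l : List κ) :
    ((l.map fun i => if s i then (1 : H) else -1).prod = 1 ∨
      (l.map fun i => if s i then (1 : H) else -1).prod = -1) ∧
    (l.map fun i => if s i then E u (α i) else -E u (α i)).prod =
      (l.map fun i => if s i then (1 : H) else -1).prod * E u (l.map α).sum := by
  induction l with
  | nil => simp [E_zero]
  | cons i l ih =>
    obtain ⟨h1, h2⟩ := ih
    simp only [List.map_cons, List.prod_cons, List.sum_cons]
    rw [h2, E_add hu hr]
    by_cases h3 : s i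
    · rw [if_pos h3, if_pos h3, one_mul]
      refine ⟨h1, ?_⟩
      rcases h1 with h1 | h1 <;> rw [h1]
      · rw [one_mul, one_mul]
      · rw [neg_one_mul, neg_one_mul, mul_neg]
    · rw [if_neg h3, if_neg h3]
      rcases h1 with h1 | h1 <;> rw [h1]
      · exact ⟨Or.inr (by rw [mul_one]), by rw [one_mul, mul_one, neg_one_mul, neg_mul]⟩
      · exact ⟨Or.inl (by rw [neg_one_mul, neg_neg]), by
          rw [neg_one_mul, neg_one_mul, neg_neg, one_mul, neg_mul_neg]⟩

theorem rigidB_NC {u : H} (hu : U u) (hr : u.re = 0) {a : ℝ} (ha : 0 ≤ a ∧ a < Real.pi)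
    {x : H} (hx : x = E u a ∨ x = -E u a) : NC x ↔ a ≠ 0 := by
  have h1 : NC x ↔ NC (E u a) := by
    rcases hx with rfl | rfl
    · exact Iff.rfl
    · unfold NC
      rw [Quaternion.im_neg, neg_ne_zero]
  rw [h1]
  constructor
  · rintro h rfl
    apply h
    rw [E_zero]
    exact Quaternion.im_one
  · intro h
    exact NC_E hu hr ⟨lt_of_le_of_ne ha.1 (Ne.symm h), ha.2⟩

/-- the sum of the angles is a multiple `M π`, the product of the signs is `(-1) ^ M`, and `M = 0` iff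
`k = 0`, otherwise `1 ≤ M ≤ k - 1` -/
theorem NF_sum {n : ℕ} {ρ : Pi1 n →* SU2} {u : H} {α : Fin n → ℝ} {s : Fin n → Bool}
    (h : NF ρ u α s) : ∃ M : ℕ, ∑ i, α i = M * Real.pi ∧
      (((List.finRange n).map fun i => if s i then (1 : H) else -1).prod = (-1) ^ M) ∧
      (numNC ρ ≠ 0 → 1 ≤ M ∧ M + 1 ≤ numNC ρ) := by
  classical
  obtain ⟨hu, hr, hα, h⟩ := h
  obtain ⟨h1, h2⟩ := rigidB_prod hu hr α s (List.finRange n)
  have hsum : ((List.finRange n).map α).sum = ∑ i, α i := (Fin.sum_univ_def α).symm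
  have hL : Lst ρ = (List.finRange n).map fun i => (i, toH (ρ (c i))) := by
    unfold Lst
    rw [← List.ofFn_id, List.map_ofFn]
    rfl
  have hpr : ((List.finRange n).map fun i => if s i then E u (α i) else -E u (α i)).prod = 1 := by
    have h3 := pr_Lst ρ
    unfold pr at h3
    rw [hL, List.map_map] at h3
    rw [← h3]
    congr 2
    funext i
    exact (h i).symm
  rw [hpr, hsum] at h2
  generalize ((List.finRange n).map fun i => if s i then (1 : H) else -1).prod = ε at h1 h2 ⊢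
  have hE : E u (∑ i, α i) = ε := by
    rcases h1 with h1 | h1
    · rw [h1, one_mul] at h2
      rw [← h2, h1]
    · rw [h1, neg_one_mul] at h2
      rw [h1, h2, neg_neg]
  have hsin : Real.sin (∑ i, α i) = 0 := by
    have e1 : Real.sin (∑ i, α i) * u.imI = 0 := by
      rw [← AbA_E_imI, hE]
      rcases h1 with rfl | rfl <;> simp
    have e2 : Real.sin (∑ i, α i) * u.imJ = 0 := by
      rw [← AbA_E_imJ, hE]
      rcases h1 with rfl | rfl <;> simp
    have e3 : Real.sin (∑ i, α i) * u.imK = 0 := by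
      rw [← AbA_E_imK, hE]
      rcases h1 with rfl | rfl <;> simp
    have e4 := AbA_pure hu hr
    linear_combination u.imI * e1 + u.imJ * e2 + u.imK * e3 - Real.sin (∑ i, α i) * e4
  have hS0 : 0 ≤ ∑ i, α i := Finset.sum_nonneg fun i _ => (hα i).1
  obtain ⟨m, hm⟩ := Real.sin_eq_zero_iff.1 hsin
  have hm0 : 0 ≤ m := by
    have h3 : (0 : ℝ) ≤ m := by
      by_contra hneg
      push Not at hneg
      have := mul_neg_of_neg_of_pos hneg Real.pi_pos
      linarith
    exact_mod_cast h3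
  obtain ⟨M, rfl⟩ := Int.eq_ofNat_of_zero_le hm0
  have hM : ∑ i, α i = M * Real.pi := by
    rw [← hm]
    push_cast
    rfl
  refine ⟨M, hM, ?_, fun hk => ?_⟩
  · rw [← hE, hM]
    unfold E
    rw [Real.sin_nat_mul_pi, Real.cos_nat_mul_pi, Quaternion.coe_zero, zero_mul, add_zero]
    push_cast
    rfl
  · have hset : numNC ρ = (Finset.univ.filter fun i => α i ≠ 0).card := by
      unfold numNC
      rw [← Set.ncard_coe_finset]
      congr 1
      ext i
      rw [Set.mem_ofPred_eq, center_iff, not_not, Finset.coe_filter, Set.mem_ofPred_eq,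
        rigidB_NC hu hr (hα i) (x := toH (ρ (c i))) (by
          rw [h i]
          by_cases h3 : s i
          · rw [if_pos h3]
            exact Or.inl rfl
          · rw [if_neg h3]
            exact Or.inr rfl)]
      simp
    rw [hset] at hk ⊢
    have hne : (Finset.univ.filter fun i => α i ≠ 0).Nonempty :=
      Finset.card_pos.1 (Nat.pos_of_ne_zero hk)
    have hsum2 : ∑ i ∈ Finset.univ.filter (fun i => α i ≠ 0), α i = M * Real.pi := by
      rw [← hM]
      exact Finset.sum_filter_of_ne fun i _ h3 => h3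
    have h3 : 0 < ∑ i ∈ Finset.univ.filter (fun i => α i ≠ 0), α i := by
      refine Finset.sum_pos (fun i hi => ?_) hne
      exact lt_of_le_of_ne (hα i).1 (Ne.symm (Finset.mem_filter.1 hi).2)
    have h4 : ∑ i ∈ Finset.univ.filter (fun i => α i ≠ 0), α i <
        ∑ i ∈ Finset.univ.filter (fun i => α i ≠ 0), Real.pi :=
      Finset.sum_lt_sum_of_nonempty hne fun i _ => (hα i).2
    rw [Finset.sum_const, nsmul_eq_mul] at h4
    rw [hsum2] at h3 h4
    have h5 : (0 : ℝ) < M := by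
      by_contra hneg
      exact absurd h3 (not_lt.2 (mul_nonpos_of_nonpos_of_nonneg (not_lt.1 hneg) Real.pi_pos.le))
    have h6 : (M : ℝ) < (Finset.univ.filter fun i => α i ≠ 0).card :=
      lt_of_mul_lt_mul_right h4 Real.pi_pos.le
    exact ⟨by exact_mod_cast h5, by exact_mod_cast h6⟩

end Pool.Agent.W24dbe6
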