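import Pool.Agent.W_MP_24dbe6_h58.GeoConj

set_option autoImplicit false

/-!
Conjugacy of pairs of unit quaternions.
-/

namespace Pool.Agent.W24dbe6

open Quaternion

/-- the norm condition in coordinates -/
theorem GeoPair_U_iff (x : H) :
    U x ↔ x.re ^ 2 + x.imI ^ 2 + x.imJ ^ 2 + x.imK ^ 2 = 1 := by
  have h := Quaternion.normSq_eq_norm_mul_self x
  rw [Quaternion.normSq_def'] at h
  unfold U
  constructor
  · intro h1
    rw [h1] at h
    linarith
  · intro h1
    have h2 : ‖x‖ * ‖x‖ = 1 := by rw [← h]; exact h1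
    nlinarith [norm_nonneg x]

/-- rotation in the plane of `j, k` -/
theorem GeoPair_rot {a b a' b' : ℝ} (h : a ^ 2 + b ^ 2 = a' ^ 2 + b' ^ 2) :
    ∃ c s : ℝ, c ^ 2 + s ^ 2 = 1 ∧ (c ^ 2 - s ^ 2) * a - (2 * c * s) * b = a' ∧
      (c ^ 2 - s ^ 2) * b + (2 * c * s) * a = b' := by
  by_cases h0 : a ^ 2 + b ^ 2 = 0
  · have ha : a = 0 := by nlinarith [sq_nonneg a, sq_nonneg b]
    have hb : b = 0 := by nlinarith [sq_nonneg a, sq_nonneg b]
    have ha' : a' = 0 := by nlinarith [sq_nonneg a', sq_nonneg b']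
    have hb' : b' = 0 := by nlinarith [sq_nonneg a', sq_nonneg b']
    exact ⟨1, 0, by norm_num, by rw [ha, hb, ha']; ring, by rw [ha, hb, hb']; ring⟩
  · set r := a ^ 2 + b ^ 2 with hr
    set A := (a * a' + b * b') / r with hA
    set B := (a * b' - b * a') / r with hB
    have hAB : A ^ 2 + B ^ 2 = 1 := by
      rw [hA, hB]
      field_simp
      have : (a * a' + b * b') ^ 2 + (a * b' - b * a') ^ 2 = r * (a' ^ 2 + b' ^ 2) := by
        rw [hr]; ring
      rw [← h] at this
      linear_combination this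
    set z : ℂ := ⟨A, B⟩ with hz
    have hz1 : ‖z‖ = 1 := by
      have h2 : ‖z‖ ^ 2 = 1 := by
        rw [← Complex.normSq_eq_norm_sq, Complex.normSq_apply, hz]
        simp only
        nlinarith
      nlinarith [norm_nonneg z]
    have hz0 : z ≠ 0 := by
      intro h3
      rw [h3, norm_zero] at hz1
      exact zero_ne_one hz1
    have hc : Real.cos z.arg = A := by
      rw [Complex.cos_arg hz0, hz1, div_one]
    have hs : Real.sin z.arg = B := by
      rw [Complex.sin_arg, hz1, div_one]
    set φ := z.arg / 2 with hφ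
    have h2φ : z.arg = 2 * φ := by rw [hφ]; ring
    have e1 : Real.cos φ ^ 2 - Real.sin φ ^ 2 = A := by
      rw [← hc, h2φ, Real.cos_two_mul']
    have e2 : 2 * Real.cos φ * Real.sin φ = B := by
      rw [← hs, h2φ, Real.sin_two_mul]; ring
    refine ⟨Real.cos φ, Real.sin φ, Real.cos_sq_add_sin_sq φ, ?_, ?_⟩
    · rw [e1, e2, hA, hB]
      field_simp
      rw [hr]; ring
    · rw [e1, e2, hA, hB]
      field_simp
      rw [hr]; ring

/-- Two pairs with the same product `P` (non-central) and the same real parts differ by conjugation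
by an element commuting with `P`.
Proof: after conjugation (`exists_axis`) one may work with components in `C_P = ℝ + ℝ u` and in its
orthogonal complement. `x.re` and `y.re = (star x * P).re` determine the component of `x` in `C_P`
(two linear equations with determinant `|P.im| ≠ 0`). So `x = a + q`, `x' = a + q'` with `q, q'`
orthogonal to `C_P` and `|q| = |q'|`; then `q' = c q` with `c` a unit in `C_P`; choose `t` in `C_P`
with `t² = c`; then `cj t q = t q star t = t² q = q'`. And `y = star x * P`. -/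
theorem conj_pair {x y x' y' : H} (hx : U x) (hy : U y) (hx' : U x') (hy' : U y')
    (h1 : x.re = x'.re) (h2 : y.re = y'.re) (hp : x * y = x' * y') (hn : NC (x * y)) :
    ∃ t ∈ Tor (x * y), cj t x = x' ∧ cj t y = y' := by
  have hP : U (x * y) := U_mul hx hy
  obtain ⟨hn1, hn2⟩ := (NC_iff hP).mp hn
  set P := x * y with hPdef
  set p1 := Real.sqrt (1 - P.re ^ 2) with hp1
  have hpos : 0 < 1 - P.re ^ 2 := by nlinarith
  have hp1pos : 0 < p1 := Real.sqrt_pos.mpr hpos
  have hp1sq : p1 ^ 2 = 1 - P.re ^ 2 := Real.sq_sqrt hpos.le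
  set P0 : H := ⟨P.re, p1, 0, 0⟩ with hP0
  have hUP0 : U P0 := by
    rw [GeoPair_U_iff]
    simp only [hP0]
    nlinarith
  obtain ⟨g, hg, hgP⟩ := conj_of_re hP hUP0 rfl
  -- `y = star x * P`
  have ey : y = star x * P := by
    rw [hPdef, ← mul_assoc, U_star_mul hx, one_mul]
  have ey' : y' = star x' * P := by
    rw [hp, ← mul_assoc, U_star_mul hx', one_mul]
  set X := cj g x with hX
  set X' := cj g x' with hX'
  have hUX : U X := U_cj hg hx
  have hUX' : U X' := U_cj hg hx'
  have eY : cj g y = star X * P0 := by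
    rw [ey, cj_mul hg, cj_star, hgP]
  have eY' : cj g y' = star X' * P0 := by
    rw [ey', cj_mul hg, cj_star, hgP]
  have r1 : X.re = X'.re := by rw [hX, hX', cj_re hg, cj_re hg, h1]
  have r2 : (star X * P0).re = (star X' * P0).re := by
    rw [← eY, ← eY', cj_re hg, cj_re hg, h2]
  have r3 : X.imI = X'.imI := by
    simp only [Quaternion.re_mul, Quaternion.re_star, Quaternion.imI_star, Quaternion.imJ_star,
      Quaternion.imK_star, hP0] at r2
    have : (X.imI - X'.imI) * p1 = 0 := by linear_combination r2 - P.re * r1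
    rcases mul_eq_zero.mp this with h | h
    · linarith
    · exact absurd h hp1pos.ne'
  have n1 := (GeoPair_U_iff X).mp hUX
  have n2 := (GeoPair_U_iff X').mp hUX'
  obtain ⟨c, s, hcs, hj, hk⟩ := GeoPair_rot (a := X.imJ) (b := X.imK) (a' := X'.imJ)
    (b' := X'.imK) (by rw [r1, r3] at n1; linarith)
  set T : H := ⟨c, s, 0, 0⟩ with hT
  have hUT : U T := by
    rw [GeoPair_U_iff]
    simp only [hT]
    nlinarith
  have hTP : Commute T P0 := by
    unfold Commute SemiconjBy
    ext <;> simp [hT, hP0] <;> ring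
  have hTX : cj T X = X' := by
    unfold cj
    ext
    · simp only [Quaternion.re_mul, Quaternion.imI_mul, Quaternion.imJ_mul, Quaternion.imK_mul,
        Quaternion.re_star, Quaternion.imI_star, Quaternion.imJ_star, Quaternion.imK_star, hT]
      linear_combination X.re * hcs + r1
    · simp only [Quaternion.re_mul, Quaternion.imI_mul, Quaternion.imJ_mul, Quaternion.imK_mul,
        Quaternion.re_star, Quaternion.imI_star, Quaternion.imJ_star, Quaternion.imK_star, hT]
      linear_combination X.imI * hcs + r3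
    · simp only [Quaternion.re_mul, Quaternion.imI_mul, Quaternion.imJ_mul, Quaternion.imK_mul,
        Quaternion.re_star, Quaternion.imI_star, Quaternion.imJ_star, Quaternion.imK_star, hT]
      linear_combination hj
    · simp only [Quaternion.re_mul, Quaternion.imI_mul, Quaternion.imJ_mul, Quaternion.imK_mul,
        Quaternion.re_star, Quaternion.imI_star, Quaternion.imJ_star, Quaternion.imK_star, hT]
      linear_combination hk
  have hTY : cj T (cj g y) = cj g y' := by
    rw [eY, eY', cj_mul hUT, cj_star, hTX, cj_of_commute hUT hTP]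
  have hg' : U (star g) := U_star hg
  refine ⟨star g * T * g, ⟨U_mul (U_mul hg' hUT) hg, ?_⟩, ?_, ?_⟩
  · rw [← cj_eq_iff (U_mul (U_mul hg' hUT) hg), ← cj_cj, ← cj_cj, hgP, cj_of_commute hUT hTP,
      ← hgP, cj_star_cj hg]
  · rw [← cj_cj, ← cj_cj, ← hX, hTX, hX', cj_star_cj hg]
  · rw [← cj_cj, ← cj_cj, hTY, cj_star_cj hg]

/-- pairs of units with the same real parts of `x`, `y`, `x y` (the product being non-central) are
simultaneously conjugate: `conj_of_re` for the products, then `conj_pair` -/
theorem conj_pair' {x y x' y' : H} (hx : U x) (hy : U y) (hx' : U x') (hy' : U y')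
    (h1 : x.re = x'.re) (h2 : y.re = y'.re) (h3 : (x * y).re = (x' * y').re) (hn : NC (x * y)) :
    ∃ g, U g ∧ cj g x = x' ∧ cj g y = y' := by
  obtain ⟨g, hg, hgP⟩ := conj_of_re (U_mul hx hy) (U_mul hx' hy') h3
  rw [cj_mul hg] at hgP
  have hn' : NC (cj g x * cj g y) := by
    rw [← cj_mul hg]
    exact (NC_cj hg).mpr hn
  obtain ⟨t, ht, e1, e2⟩ := conj_pair (U_cj hg hx) (U_cj hg hy) hx' hy'
    (by rw [cj_re hg, h1]) (by rw [cj_re hg, h2]) hgP hn'
  exact ⟨t * g, U_mul ht.1 hg, by rw [← cj_cj, e1], by rw [← cj_cj, e2]⟩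

end Pool.Agent.W24dbe6
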