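import Pool.Agent.W_MP_24dbe6_h58.GeoB
import Pool.Agent.W_MP_24dbe6_h58.PairC
import Pool.Agent.W_MP_24dbe6_h58.GeoPair

set_option autoImplicit false

/-!
At most three non-central boundary holonomies.
-/

namespace Pool.Agent.W24dbe6

open Quaternion

variable {ι : Type}

/-- lists with the same labels and the same angles -/
theorem smallK_forall {θ : ι → ℝ} : ∀ {L L' : LL ι},
    (∀ p ∈ L, U p.2 ∧ p.2.re = Real.cos (θ p.1)) →
    (∀ p ∈ L', U p.2 ∧ p.2.re = Real.cos (θ p.1)) → lab L = lab L' →
    List.Forall₂ (fun p q : ι × H => p.1 = q.1 ∧ U p.2 ∧ U q.2 ∧ p.2.re = q.2.re) L L'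
  | [], [], _, _, _ => List.Forall₂.nil
  | [], q :: L', _, _, hl => by simp [lab] at hl
  | p :: L, [], _, _, hl => by simp [lab] at hl
  | p :: L, q :: L', h, h', hl => by
      have h1 : p.1 = q.1 ∧ lab L = lab L' := by simpa [lab] using hl
      have hp := h p (by simp)
      have hq := h' q (by simp)
      refine List.Forall₂.cons ⟨h1.1, hp.1, hq.1, ?_⟩
        (smallK_forall (fun x hx => h x (by simp [hx])) (fun x hx => h' x (by simp [hx])) h1.2)
      rw [hp.2, hq.2, h1.1]

/-- a sign commutes with everything -/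
theorem smallK_sign {c : H} (h : c = 1 ∨ c = -1) (x : H) : c * x = x * c := by
  rcases h with rfl | rfl <;> simp

theorem smallK_sign_sq {c : H} (h : c = 1 ∨ c = -1) : c * c = 1 := by
  rcases h with rfl | rfl <;> simp

theorem smallK_sign_mul {c d : H} (h : c = 1 ∨ c = -1) (h' : d = 1 ∨ d = -1) :
    c * d = 1 ∨ c * d = -1 := by
  rcases h with rfl | rfl <;> rcases h' with rfl | rfl <;> simp

theorem smallK_cj_sign {c g : H} (hg : U g) (h : c = 1 ∨ c = -1) : cj g c = c := by
  rcases h with rfl | rfl
  · exact cj_one_right hg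
  · rw [cj_neg, cj_one_right hg]

/-- the central entries of two lists with the same angles agree and can be taken out -/
theorem smallK_split {L L' : LL ι}
    (h : List.Forall₂ (fun p q : ι × H => p.1 = q.1 ∧ U p.2 ∧ U q.2 ∧ p.2.re = q.2.re) L L') :
    ∃ (c : H) (xs ys : List H), (c = 1 ∨ c = -1) ∧ xs.length = nNC L ∧
      pr L = c * xs.prod ∧ pr L' = c * ys.prod ∧
      List.Forall₂ (fun x y : H => U x ∧ U y ∧ NC x ∧ x.re = y.re) xs ys ∧
      ∀ g, U g → List.Forall₂ (fun x y : H => cj g x = y) xs ys → cjL g L = L' := by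
  induction h with
  | nil =>
    refine ⟨1, [], [], Or.inl rfl, ?_, ?_, ?_, List.Forall₂.nil, ?_⟩
    · simp [nNC]
    · simp [pr]
    · simp [pr]
    · intro g _ _
      rfl
  | @cons p q L L' hpq _ ih =>
    obtain ⟨c, xs, ys, hc, hlen, h1, h2, h3, h4⟩ := ih
    obtain ⟨e1, e2, e3, e4⟩ := hpq
    by_cases hn : NC p.2
    · refine ⟨c, p.2 :: xs, q.2 :: ys, hc, ?_, ?_, ?_, List.Forall₂.cons ⟨e2, e3, hn, e4⟩ h3, ?_⟩
      · rw [nNC_cons_NC hn, List.length_cons, hlen]
      · rw [pr_cons, h1, List.prod_cons, ← mul_assoc, ← smallK_sign hc, mul_assoc]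
      · rw [pr_cons, h2, List.prod_cons, ← mul_assoc, ← smallK_sign hc, mul_assoc]
      · intro g hg hf
        cases hf with
        | cons hf1 hf2 =>
          rw [cjL_cons, h4 g hg hf2, hf1, e1]
    · have hn' : ¬ NC q.2 := by
        rw [NC_iff e3, ← e4, ← NC_iff e2]
        exact hn
      have hp1 := eq_of_not_NC e2 hn
      have hq1 := eq_of_not_NC e3 hn'
      have hpq' : p.2 = q.2 := by
        rcases hp1 with hp1 | hp1 <;> rcases hq1 with hq1 | hq1
        · rw [hp1, hq1]
        · rw [hp1, hq1] at e4
          simp at e4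
          norm_num at e4
        · rw [hp1, hq1] at e4
          simp at e4
          norm_num at e4
        · rw [hp1, hq1]
      refine ⟨p.2 * c, xs, ys, smallK_sign_mul hp1 hc, ?_, ?_, ?_, h3, ?_⟩
      · rw [nNC_cons_central hn, hlen]
      · rw [pr_cons, h1, mul_assoc]
      · rw [pr_cons, h2, hpq', mul_assoc]
      · intro g hg hf
        rw [cjL_cons, h4 g hg hf, smallK_cj_sign hg hp1, e1, hpq']

/-- `y` is determined by `x` -/
theorem smallK_solve {c x y : H} (hc : c = 1 ∨ c = -1) (hx : U x) (h : 1 = c * (x * y)) :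
    y = c * star x := by
  have h1 : star x * c * 1 = star x * c * (c * (x * y)) := by rw [← h]
  have h2 : star x * c * (c * (x * y)) = star x * (c * c) * x * y := by noncomm_ring
  rw [h2, smallK_sign_sq hc, mul_one, mul_one, U_star_mul hx, one_mul] at h1
  rw [← h1, smallK_sign hc]

theorem smallK_flip {c z w : H} (hc : c = 1 ∨ c = -1) (h : z = c * star w) : w = c * star z := by
  rcases hc with rfl | rfl
  · rw [h]; simp
  · rw [h]; simp

/-- Two admissible lists with the same labels and at most three non-central entries are conjugate.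
The central entries agree; the product of a list is the product of its central entries times the
product of the list of the non-central ones (in order).  With `0`, `1` non-central entries clear (`1` is
impossible), with two: `y = ± star x` (`conj_of_re`), with three: `x y = ± star z` is non-central,
`conj_pair'`. -/
theorem conj_of_le_three {θ : ι → ℝ} {L L' : LL ι} (h : Adm θ L) (h' : Adm θ L')
    (hl : lab L = lab L') (h3 : nNC L ≤ 3) : ∃ g, U g ∧ cjL g L = L' := by
  obtain ⟨c, xs, ys, hc, hlen, h1, h2, hf, h4⟩ := smallK_split (smallK_forall h.1 h'.1 hl)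
  rw [h.2] at h1
  rw [h'.2] at h2
  rw [← hlen] at h3
  cases hf with
  | nil => exact ⟨1, U_one, h4 1 U_one List.Forall₂.nil⟩
  | @cons x x' xs ys hx hf =>
    obtain ⟨hx1, hx2, hx3, hx4⟩ := hx
    cases hf with
    | nil =>
      exfalso
      rw [List.prod_cons, List.prod_nil] at h1
      have := smallK_solve (x := x) (y := 1) hc hx1 h1
      have h5 : star x = c := by
        have h6 : c * 1 = c * (c * star x) := by rw [← this]
        rw [mul_one, ← mul_assoc, smallK_sign_sq hc, one_mul] at h6
        exact h6.symm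
      have h7 : NC c := by rw [← h5, NC_star]; exact hx3
      rcases hc with rfl | rfl
      · exact h7 (by simp)
      · exact h7 (by simp)
    | @cons y y' xs ys hy hf =>
      obtain ⟨hy1, hy2, hy3, hy4⟩ := hy
      cases hf with
      | nil =>
        rw [List.prod_cons, List.prod_cons, List.prod_nil, mul_one] at h1 h2
        have e1 := smallK_solve hc hx1 h1
        have e2 := smallK_solve hc hx2 h2
        obtain ⟨g, hg, hgx⟩ := conj_of_re hx1 hx2 hx4
        refine ⟨g, hg, h4 g hg (List.Forall₂.cons hgx (List.Forall₂.cons ?_ List.Forall₂.nil))⟩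
        rw [e1, e2, cj_mul hg, cj_star, hgx, smallK_cj_sign hg hc]
      | @cons z z' xs ys hz hf =>
        obtain ⟨hz1, hz2, hz3, hz4⟩ := hz
        cases hf with
        | nil =>
          rw [List.prod_cons, List.prod_cons, List.prod_cons, List.prod_nil, mul_one,
            ← mul_assoc x y z] at h1
          rw [List.prod_cons, List.prod_cons, List.prod_cons, List.prod_nil, mul_one,
            ← mul_assoc x' y' z'] at h2
          have e1 := smallK_solve hc (U_mul hx1 hy1) h1
          have e2 := smallK_solve hc (U_mul hx2 hy2) h2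
          have f1 : x * y = c * star z := smallK_flip hc e1
          have f2 : x' * y' = c * star z' := smallK_flip hc e2
          have hn : NC (x * y) := by
            rw [f1]
            have h5 : NC (star z) := NC_star.2 hz3
            rcases hc with rfl | rfl
            · rwa [one_mul]
            · rw [neg_mul, one_mul]
              intro h6
              apply h5
              rwa [Quaternion.im_neg, neg_eq_zero] at h6
          have hre : (x * y).re = (x' * y').re := by
            rw [f1, f2]
            rcases hc with rfl | rfl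
            · rw [one_mul, one_mul, Quaternion.re_star, Quaternion.re_star, hz4]
            · rw [neg_mul, neg_mul, one_mul, one_mul, Quaternion.re_neg, Quaternion.re_neg,
                Quaternion.re_star, Quaternion.re_star, hz4]
          obtain ⟨g, hg, g1, g2⟩ := conj_pair' hx1 hy1 hx2 hy2 hx4 hy4 hre hn
          refine ⟨g, hg, h4 g hg (List.Forall₂.cons g1 (List.Forall₂.cons g2
            (List.Forall₂.cons ?_ List.Forall₂.nil)))⟩
          rw [e1, e2, cj_mul hg, cj_star, cj_mul hg, g1, g2, smallK_cj_sign hg hc]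
        | cons _ _ =>
          exfalso
          simp only [List.length_cons] at h3
          omega

theorem relChar_subsingleton_of_le {n : ℕ} {ρ : Pi1 n →* SU2} (h3 : numNC ρ ≤ 3) :
    (relChar ρ).Subsingleton := by
  rintro _ hχ₁ _ hχ₂
  obtain ⟨σ₁, rfl, -⟩ := id hχ₁
  obtain ⟨σ₂, rfl, -⟩ := id hχ₂
  rw [mem_relChar_iff] at hχ₁ hχ₂
  have hl : lab (Lst σ₁) = lab (Lst σ₂) := by rw [lab_Lst, lab_Lst]
  have hn : nNC (Lst σ₁) ≤ 3 := by
    rw [nNC_of_perm (θ := thetaOf ρ) (Adm_Lst ρ).1 hχ₁.1 (by rw [lab_Lst, lab_Lst]), ← numNC_eq]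
    exact h3
  obtain ⟨g, hg, hgL⟩ := conj_of_le_three hχ₁ hχ₂ hl hn
  rw [cls_eq_iff]
  refine ⟨g, hg, fun i => ?_⟩
  unfold cjL Lst at hgL
  rw [List.map_ofFn] at hgL
  have h5 := List.ofFn_injective hgL
  have h6 := congrFun h5 i
  exact (congrArg Prod.snd h6).symm

end Pool.Agent.W24dbe6
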