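import Pool.Agent.W_MP_24dbe6_h58.RigidA
import Pool.Agent.W_MP_24dbe6_h58.RigidB
import Pool.Agent.W_MP_24dbe6_h58.AbC
import Pool.Agent.W_MP_24dbe6_h58.InfRel
import Pool.Agent.W_MP_24dbe6_h58.SmallK

set_option autoImplicit false

/-!
The relative character varieties which are points.
-/

namespace Pool.Agent.W24dbe6

open Quaternion

section RigidC

/-- a sign -/
noncomputable def rcS (b : Bool) : H := if b then 1 else -1

theorem rc_neg_sq (M : ℕ) : (-1 : H) ^ M * (-1) ^ M = 1 := by
  rw [← pow_add, ← two_mul, pow_mul, neg_one_sq, one_pow]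

theorem rcS_sq (b : Bool) : rcS b * rcS b = 1 := by
  cases b <;> simp [rcS]

theorem rcS_comm (b : Bool) (x : H) : rcS b * x = x * rcS b := by
  cases b <;> simp [rcS]

theorem rcS_mul (b : Bool) (x : H) : rcS b * x = if b then x else -x := by
  cases b <;> simp [rcS]

theorem rcS_U {b : Bool} {x : H} (h : U x) : U (rcS b * x) := by
  cases b
  · simp only [rcS, Bool.false_eq_true, if_false, neg_mul, one_mul]
    change ‖-x‖ = 1
    rw [norm_neg]
    exact h
  · simpa [rcS] using h

theorem rcS_re (b : Bool) (x : H) : (rcS b * x).re = (if b then 1 else -1) * x.re := by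
  cases b <;> simp [rcS]

/-- the indices of the non-zero angles -/
noncomputable def rcI {n : ℕ} (α : Fin n → ℝ) (J : List (Fin n)) : List (Fin n) :=
  J.filter fun i => decide (α i ≠ 0)

theorem rcI_mem {n : ℕ} {α : Fin n → ℝ} {J : List (Fin n)} {i : Fin n} :
    i ∈ rcI α J ↔ i ∈ J ∧ α i ≠ 0 := by
  simp [rcI]

theorem rc_sum {n : ℕ} (α : Fin n → ℝ) (J : List (Fin n)) :
    ((rcI α J).map α).sum = (J.map α).sum := by
  induction J with
  | nil => simp [rcI]
  | cons i J ih =>
    by_cases h : α i = 0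
    · have e : rcI α (i :: J) = rcI α J := by simp [rcI, h]
      rw [e, ih, List.map_cons, List.sum_cons, h, zero_add]
    · have e : rcI α (i :: J) = i :: rcI α J := by simp [rcI, h]
      rw [e, List.map_cons, List.sum_cons, ih, List.map_cons, List.sum_cons]

/-- the signs can be collected -/
theorem rc_prod {n : ℕ} (α : Fin n → ℝ) (s : Fin n → Bool) (x : Fin n → H) (J : List (Fin n))
    (h : ∀ i ∈ J, α i = 0 → x i = 1) :
    (∀ z, Commute (J.map fun i => rcS (s i)).prod z) ∧
    (J.map fun i => rcS (s i) * x i).prod =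
      (J.map fun i => rcS (s i)).prod * ((rcI α J).map x).prod := by
  induction J with
  | nil => exact ⟨fun z => by simp, by simp [rcI]⟩
  | cons i J ih =>
    obtain ⟨h1, h2⟩ := ih (fun j hj => h j (List.mem_cons_of_mem _ hj))
    refine ⟨fun z => ?_, ?_⟩
    · rw [List.map_cons, List.prod_cons]
      exact Commute.mul_left (rcS_comm (s i) z) (h1 z)
    · rw [List.map_cons, List.prod_cons, h2, List.map_cons, List.prod_cons]
      by_cases hi : α i = 0
      · have e : rcI α (i :: J) = rcI α J := by simp [rcI, hi]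
        rw [e, h i List.mem_cons_self hi, mul_one, mul_assoc]
      · have e : rcI α (i :: J) = i :: rcI α J := by simp [rcI, hi]
        rw [e, List.map_cons, List.prod_cons, mul_assoc, mul_assoc, ← mul_assoc (x i),
          ← mul_assoc _ (x i), (h1 (x i)).eq]

theorem rc_forall {α β γ : Type} {R : β → γ → Prop} {f : α → β} {g : α → γ} {J : List α}
    (h : ∀ i ∈ J, R (f i) (g i)) : List.Forall₂ R (J.map f) (J.map g) := by
  induction J with
  | nil => exact List.Forall₂.nil
  | cons i J ih =>
    exact List.Forall₂.cons (h i List.mem_cons_self)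
      (ih fun j hj => h j (List.mem_cons_of_mem _ hj))

/-- a list related to the image of a list without duplicates is the image under a function -/
theorem rc_choose {α β γ : Type} [DecidableEq α] [Inhabited γ] {R : β → γ → Prop} {f : α → β} :
    ∀ {J : List α} {ys : List γ}, J.Nodup → List.Forall₂ R (J.map f) ys →
      ∃ y : α → γ, J.map y = ys ∧ ∀ i ∈ J, R (f i) (y i)
  | [], ys, _, h => by
    rw [List.map_nil, List.forall₂_nil_left_iff] at h
    subst h
    exact ⟨fun _ => default, rfl, fun i hi => by simp at hi⟩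
  | i :: J, ys, hn, h => by
    rw [List.map_cons, List.forall₂_cons_left_iff] at h
    obtain ⟨y0, ys', h0, h', rfl⟩ := h
    obtain ⟨hi, hJ⟩ := List.nodup_cons.1 hn
    obtain ⟨y, hy, hy2⟩ := rc_choose hJ h'
    have e : ∀ j ∈ J, Function.update y i y0 j = y j := fun j hj => by
      apply Function.update_of_ne
      rintro rfl
      exact hi hj
    refine ⟨Function.update y i y0, ?_, ?_⟩
    · rw [List.map_cons, Function.update_self, List.map_congr_left e, hy]
    · intro j hj
      rcases List.mem_cons.1 hj with rfl | hj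
      · rw [Function.update_self]
        exact h0
      · rw [e j hj]
        exact hy2 j hj

theorem rc_pr {n : ℕ} (σ : Pi1 n →* SU2) :
    pr (Lst σ) = ((List.finRange n).map fun i => toH (σ (c i))).prod := by
  unfold pr Lst
  rw [List.map_ofFn, List.ofFn_eq_map]
  rfl

theorem rc_cj_E {g : H} (hg : U g) (u : H) (a : ℝ) : cj g (E u a) = E (cj g u) a := by
  have h1 : cj g ((Real.cos a : ℝ) : H) = ((Real.cos a : ℝ) : H) :=
    cj_of_commute hg (Quaternion.coe_commute _ _).symm
  have h2 : cj g ((Real.sin a : ℝ) : H) = ((Real.sin a : ℝ) : H) :=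
    cj_of_commute hg (Quaternion.coe_commute _ _).symm
  unfold E
  rw [cj_add, cj_mul hg, h1, h2]

theorem rc_E_nat {u : H} (hu : U u) (hr : u.re = 0) (M : ℕ) : E u (M * Real.pi) = (-1) ^ M := by
  induction M with
  | zero => simp [E_zero]
  | succ M ih =>
    rw [Nat.cast_succ, add_mul, one_mul, E_add hu hr, ih, E_pi, pow_succ]

theorem rc_length {n : ℕ} {ρ : Pi1 n →* SU2} {u : H} {α : Fin n → ℝ} {s : Fin n → Bool}
    (h : NF ρ u α s) : (rcI α (List.finRange n)).length = numNC ρ := by
  obtain ⟨hu, hr, hα, hρ⟩ := h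
  rw [numNC_eq]
  unfold nNC Lst rcI
  rw [List.ofFn_eq_map, List.countP_map, List.countP_eq_length_filter]
  congr 1
  apply List.filter_congr
  intro i _
  have h1 : NC (toH (ρ (c i))) ↔ α i ≠ 0 := by
    rw [hρ i, ← rcS_mul]
    constructor
    · intro h1 h2
      rw [h2, E_zero, mul_one] at h1
      apply h1
      cases s i <;> simp [rcS]
    · intro h1
      have h2 := NC_E hu hr ⟨lt_of_le_of_ne (hα i).1 (Ne.symm h1), (hα i).2⟩
      intro h3
      apply h2
      cases hs : s i
      · rw [hs] at h3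
        simpa [rcS] using h3
      · rw [hs] at h3
        simpa [rcS] using h3
  simp only [Function.comp_apply, decide_eq_decide]
  exact h1.symm

/-- representations with the same traces as one in normal form -/
theorem rc_data {n : ℕ} {ρ : Pi1 n →* SU2} {u : H} {α : Fin n → ℝ} {s : Fin n → Bool}
    (h : NF ρ u α s) {σ : Pi1 n →* SU2} (hσ : Adm (thetaOf ρ) (Lst σ)) (i : Fin n) :
    U (rcS (s i) * toH (σ (c i))) ∧ (rcS (s i) * toH (σ (c i))).re = Real.cos (α i) := by
  refine ⟨rcS_U (U_toH _), ?_⟩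
  have h1 := (hσ.1 (i, toH (σ (c i))) (reps_mem.2 ⟨i, rfl⟩)).2
  have h2 : Real.cos (thetaOf ρ i) = (toH (ρ (c i))).re := U_cos_ang (U_toH _)
  change (toH (σ (c i))).re = Real.cos (thetaOf ρ i) at h1
  rw [rcS_re, h1, h2, h.2.2.2 i]
  cases hs : s i
  · simp [E_re h.2.1]
  · simp [E_re h.2.1]

end RigidC

/-- extremal sums: `rigid_one`, `rigid_last` applied to the list of the elements `s_i σ(c_i)`, `i`
non-central, for `σ` in the relative character variety: `σ(c_i) = s_i E v α_i` for all `i` -/
theorem subsingleton_of_rigid {n : ℕ} {ρ : Pi1 n →* SU2} (h : Rigid ρ) :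
    (relChar ρ).Subsingleton := by
  classical
  rcases Nat.lt_or_ge 3 (numNC ρ) with h3 | h3
  swap
  · exact relChar_subsingleton_of_le h3
  obtain ⟨u, α, s, hNF, hsum⟩ := (rigid_iff_NF ρ).1 h
  obtain ⟨M, hM1, hM2, hM3⟩ := NF_sum hNF
  have hlen := rc_length hNF
  have hpi := Real.pi_pos
  have key : ∀ χ ∈ relChar ρ, cls ρ = χ := by
    intro χ hχ
    obtain ⟨σ, rfl, -⟩ := id hχ
    rw [mem_relChar_iff] at hχ
    have hd := rc_data hNF hχ
    -- zero angles
    have hz : ∀ i, α i = 0 → rcS (s i) * toH (σ (c i)) = 1 := by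
      intro i hi
      obtain ⟨h1, h2⟩ := hd i
      rw [hi, Real.cos_zero] at h2
      rcases eq_of_not_NC h1 (by rw [NC_iff h1]; intro h4; linarith [h4.2]) with h4 | h4
      · exact h4
      · rw [h4] at h2
        simp at h2
        norm_num at h2
    have hp := (rc_prod α s (fun i => rcS (s i) * toH (σ (c i))) (List.finRange n)
      (fun i _ => hz i)).2
    have e1 : ((List.finRange n).map fun i => rcS (s i) * (rcS (s i) * toH (σ (c i)))).prod = 1 := by
      have : (fun i => rcS (s i) * (rcS (s i) * toH (σ (c i)))) = fun i => toH (σ (c i)) := by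
        funext i
        rw [← mul_assoc, rcS_sq, one_mul]
      rw [this, ← rc_pr, pr_Lst]
    have e2 : ((List.finRange n).map fun i => rcS (s i)).prod = (-1) ^ M := hM2
    rw [e1, e2] at hp
    have hprod : ((rcI α (List.finRange n)).map fun i => rcS (s i) * toH (σ (c i))).prod =
        (-1) ^ M := by
      have h5 : (-1 : H) ^ M * (-1) ^ M = 1 := rc_neg_sq M
      calc ((rcI α (List.finRange n)).map fun i => rcS (s i) * toH (σ (c i))).prod
          = ((-1 : H) ^ M * (-1) ^ M) *
            ((rcI α (List.finRange n)).map fun i => rcS (s i) * toH (σ (c i))).prod := by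
            rw [h5, one_mul]
        _ = _ := by rw [mul_assoc, ← hp, mul_one]
    have hHas : Has ((rcI α (List.finRange n)).map fun i => rcS (s i) * toH (σ (c i)))
        ((rcI α (List.finRange n)).map α) := rc_forall fun i _ => hd i
    have hpos : ∀ a ∈ (rcI α (List.finRange n)).map α, 0 < a ∧ a < Real.pi := by
      intro a ha
      obtain ⟨i, hi, rfl⟩ := List.mem_map.1 ha
      exact ⟨lt_of_le_of_ne (hNF.2.2.1 i).1 (Ne.symm (rcI_mem.1 hi).2), (hNF.2.2.1 i).2⟩
    have hls : ((rcI α (List.finRange n)).map α).sum = ∑ i, α i := by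
      rw [rc_sum, Fin.sum_univ_def]
    have hv : ∃ v : H, U v ∧ v.re = 0 ∧
        ((rcI α (List.finRange n)).map fun i => rcS (s i) * toH (σ (c i))) =
          ((rcI α (List.finRange n)).map α).map (E v) := by
      rcases hsum with hsum | hsum
      · have hM : M = 1 := by
          rw [hsum] at hM1
          have : (M : ℝ) = 1 := by
            have h6 : ((M : ℝ) - 1) * Real.pi = 0 := by linarith
            rcases mul_eq_zero.1 h6 with h7 | h7
            · linarith
            · linarith
          exact_mod_cast this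
        rw [hM, pow_one] at hprod
        exact rigid_one hHas hpos (hls.trans hsum) hprod
      · have hM : M = numNC ρ - 1 := by
          rw [hsum] at hM1
          have : (M : ℝ) = (numNC ρ : ℝ) - 1 := by
            have h6 : ((M : ℝ) - ((numNC ρ : ℝ) - 1)) * Real.pi = 0 := by linarith
            rcases mul_eq_zero.1 h6 with h7 | h7
            · linarith
            · linarith
          have h8 : (M : ℝ) + 1 = numNC ρ := by linarith
          have h9 : M + 1 = numNC ρ := by exact_mod_cast h8
          omega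
        refine rigid_last hHas hpos ?_ ?_ ?_
        · intro h6
          have h7 := congrArg List.length h6
          rw [List.length_map, hlen, List.length_nil] at h7
          omega
        · rw [hls, hsum, List.length_map, hlen]
        · rw [List.length_map, hlen, hprod, hM]
    obtain ⟨v, hvU, hvr, hv⟩ := hv
    rw [List.map_map, List.map_inj_left] at hv
    have hall : ∀ i, rcS (s i) * toH (σ (c i)) = E v (α i) := by
      intro i
      by_cases hi : α i = 0
      · rw [hz i hi, hi, E_zero]
      · exact hv i (rcI_mem.2 ⟨List.mem_finRange i, hi⟩)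
    obtain ⟨g, hg, hgu⟩ := conj_of_re hNF.1 hvU (hNF.2.1.trans hvr.symm)
    rw [cls_eq_iff]
    refine ⟨g, hg, fun i => ?_⟩
    rw [hNF.2.2.2 i, ← rcS_mul, cj_mul hg, rc_cj_E hg, hgu, ← hall i]
    have h6 : cj g (rcS (s i)) = rcS (s i) := by
      apply cj_of_commute hg
      exact (rcS_comm (s i) g).symm
    rw [h6, ← mul_assoc, rcS_sq, one_mul]
  intro χ₁ h1 χ₂ h2
  rw [← key χ₁ h1, ← key χ₂ h2]

/-- otherwise (`2 ≤ M`, `M + 2 ≤ k`): `AL_main` for the list of the non-zero `α_i` gives a non-abelian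
representation in the relative character variety: replace `± E u α_i` by `± y_i` -/
theorem exists_NA_of_NF {n : ℕ} {ρ : Pi1 n →* SU2} {u : H} {α : Fin n → ℝ} {s : Fin n → Bool}
    (h : NF ρ u α s) {M : ℕ} (hs : ∑ i, α i = M * Real.pi) (h2 : 2 ≤ M)
    (hM : M + 2 ≤ numNC ρ) : ∃ σ : Pi1 n →* SU2, cls σ ∈ relChar ρ ∧ NA (Lst σ) := by
  classical
  have hlen := rc_length h
  have hpi := Real.pi_pos
  have hls : ((rcI α (List.finRange n)).map α).sum = M * Real.pi := by
    rw [rc_sum, ← Fin.sum_univ_def, hs]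
  have hpos : ∀ a ∈ (rcI α (List.finRange n)).map α, 0 < a ∧ a < Real.pi := by
    intro a ha
    obtain ⟨i, hi, rfl⟩ := List.mem_map.1 ha
    exact ⟨lt_of_le_of_ne (h.2.2.1 i).1 (Ne.symm (rcI_mem.1 hi).2), (h.2.2.1 i).2⟩
  obtain ⟨ys, hy1, hy2, hy3⟩ := AL_main h.1 h.2.1 hpos
    (by rw [List.length_map, hlen]; omega) h2 (by rw [List.length_map, hlen]; exact hM) hls 1
    one_pos
  have hnd : (rcI α (List.finRange n)).Nodup := (List.nodup_finRange n).filter _
  obtain ⟨y, rfl, hy4⟩ := rc_choose hnd hy1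
  obtain ⟨M', hM1, hM2, -⟩ := NF_sum h
  have hMM : M' = M := by
    rw [hs] at hM1
    have h6 : ((M : ℝ) - M') * Real.pi = 0 := by linarith
    rcases mul_eq_zero.1 h6 with h7 | h7
    · have : (M : ℝ) = M' := by linarith
      exact_mod_cast this.symm
    · linarith
  rw [hMM] at hM2
  let z : Fin n → H := fun i => if α i = 0 then 1 else y i
  have hz1 : ∀ i, U (z i) ∧ (z i).re = Real.cos (α i) := by
    intro i
    by_cases hi : α i = 0
    · simp only [z, hi, if_true, Real.cos_zero]
      exact ⟨U_one, rfl⟩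
    · have := hy4 i (rcI_mem.2 ⟨List.mem_finRange i, hi⟩)
      simp only [z, if_neg hi]
      exact ⟨this.1, this.2.1⟩
  have hz2 : (rcI α (List.finRange n)).map z = (rcI α (List.finRange n)).map y := by
    apply List.map_congr_left
    intro i hi
    simp only [z, if_neg (rcI_mem.1 hi).2]
  have hp := (rc_prod α s z (List.finRange n) (fun i _ hi => by simp [z, hi])).2
  have e2 : ((List.finRange n).map fun i => rcS (s i)).prod = (-1) ^ M := hM2
  rw [hz2, hy2, hls, rc_E_nat h.1 h.2.1, e2, rc_neg_sq] at hp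
  have hp1 : ((List.finRange n).map fun i => rcS (s i) * z i).prod = 1 := hp
  obtain ⟨σ, hσ⟩ := exists_rep (b := List.ofFn fun i : Fin n => (i, rcS (s i) * z i))
    (by
      unfold lab
      rw [List.map_ofFn]
      exact List.ofFn_id n)
    (by
      intro p hp
      obtain ⟨i, rfl⟩ := (List.mem_ofFn' _ _).1 hp
      exact rcS_U (hz1 i).1)
    (by
      unfold pr
      rw [List.map_ofFn, List.ofFn_eq_map]
      exact hp1)
  have hσ2 : ∀ i, toH (σ (c i)) = rcS (s i) * z i := by
    intro i
    unfold Lst at hσ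
    exact congrArg Prod.snd (congrFun (List.ofFn_injective hσ) i)
  refine ⟨σ, ?_, ?_⟩
  · rw [mem_relChar_iff]
    refine ⟨?_, pr_Lst σ⟩
    intro p hp
    obtain ⟨i, rfl⟩ := reps_mem.1 hp
    refine ⟨U_toH _, ?_⟩
    change (toH (σ (c i))).re = Real.cos (thetaOf ρ i)
    have h7 : Real.cos (thetaOf ρ i) = (toH (ρ (c i))).re := U_cos_ang (U_toH _)
    rw [h7, hσ2, rcS_re, (hz1 i).2, h.2.2.2 i, ← rcS_mul, rcS_re, E_re h.2.1]
  · obtain ⟨x, hx, w, hw, hxw⟩ := hy3
    obtain ⟨i, hi, rfl⟩ := List.mem_map.1 hx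
    obtain ⟨j, hj, rfl⟩ := List.mem_map.1 hw
    have ei : z i = y i := by simp only [z, if_neg (rcI_mem.1 hi).2]
    have ej : z j = y j := by simp only [z, if_neg (rcI_mem.1 hj).2]
    refine ⟨(i, toH (σ (c i))), reps_mem.2 ⟨i, rfl⟩, (j, toH (σ (c j))), reps_mem.2 ⟨j, rfl⟩, ?_⟩
    intro hc
    apply hxw
    change Commute (toH (σ (c i))) (toH (σ (c j))) at hc
    rw [hσ2, hσ2, ei, ej] at hc
    have h8 : Commute (rcS (s i) * (rcS (s i) * y i)) (rcS (s j) * (rcS (s j) * y j)) := by
      apply Commute.mul_left (rcS_comm _ _)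
      apply Commute.mul_right _ hc
      exact (rcS_comm _ _).symm
    rwa [← mul_assoc, rcS_sq, one_mul, ← mul_assoc, rcS_sq, one_mul] at h8

/-- a relative character variety is a point iff `k ≤ 3` or `Rigid` (`relChar_infinite` for `ρ` or for `σ`
with `relChar σ = relChar ρ`) -/
theorem subsingleton_iff {n : ℕ} (ρ : Pi1 n →* SU2) :
    (relChar ρ).Subsingleton ↔ numNC ρ ≤ 3 ∨ Rigid ρ := by
  constructor
  · intro hsub
    by_contra hcon
    push Not at hcon
    obtain ⟨h3, hR⟩ := hcon
    by_cases hNA : NA (Lst ρ)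
    · exact relChar_infinite h3 hNA hsub.finite
    · obtain ⟨u, α, s, hNF⟩ := exists_NF hNA
      obtain ⟨M, hM1, hM2, hM3⟩ := NF_sum hNF
      obtain ⟨h4, h5⟩ := hM3 (by omega)
      have hM1' : M ≠ 1 := by
        rintro rfl
        apply hR
        rw [rigid_iff_NF]
        exact ⟨u, α, s, hNF, Or.inl (by rw [hM1]; simp)⟩
      have hMk : M + 1 ≠ numNC ρ := by
        intro h6
        apply hR
        rw [rigid_iff_NF]
        refine ⟨u, α, s, hNF, Or.inr ?_⟩
        rw [hM1, ← h6]
        push_cast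
        ring
      obtain ⟨σ, hσ, hσNA⟩ := exists_NA_of_NF hNF hM1 (by omega) (by omega)
      have hρ : cls ρ ∈ relChar ρ := ⟨ρ, rfl, fun i => rfl⟩
      have heq : cls ρ = cls σ := hsub hρ hσ
      obtain ⟨g, hg, hgi⟩ := (cls_eq_iff ρ σ).1 heq
      apply hNA
      obtain ⟨p, hp, q, hq, hpq⟩ := hσNA
      obtain ⟨i, rfl⟩ := reps_mem.1 hp
      obtain ⟨j, rfl⟩ := reps_mem.1 hq
      refine ⟨(i, toH (ρ (c i))), reps_mem.2 ⟨i, rfl⟩, (j, toH (ρ (c j))), reps_mem.2 ⟨j, rfl⟩, ?_⟩
      intro hc
      apply hpq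
      change Commute (toH (σ (c i))) (toH (σ (c j)))
      rw [hgi, hgi, commute_cj hg]
      exact hc
  · rintro (h | h)
    · exact relChar_subsingleton_of_le h
    · exact subsingleton_of_rigid h

end Pool.Agent.W24dbe6
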