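import Pool.Agent.W_MP_24dbe6_h58.AbA

set_option autoImplicit false

/-!
Equality in the triangle inequality.
-/

namespace Pool.Agent.W24dbe6

open Quaternion

theorem AbD_U_prod {xs : List H} (hU : ∀ x ∈ xs, U x) : U xs.prod := by
  induction xs with
  | nil => rw [List.prod_nil]; exact U_one
  | cons x ys ih =>
    rw [List.prod_cons]
    exact U_mul (hU x List.mem_cons_self) (ih fun y hy => hU y (List.mem_cons_of_mem _ hy))

theorem AbD_ang_prod_le {xs : List H} (hU : ∀ x ∈ xs, U x) : ang xs.prod ≤ (xs.map ang).sum := by
  induction xs with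
  | nil =>
    rw [List.prod_nil, List.map_nil, List.sum_nil]
    unfold ang
    simp
  | cons x ys ih =>
    have h1 := ih fun y hy => hU y (List.mem_cons_of_mem _ hy)
    have h2 := tri_of_mul (hU x List.mem_cons_self)
      (AbD_U_prod fun y hy => hU y (List.mem_cons_of_mem _ hy))
    rw [List.prod_cons, List.map_cons, List.sum_cons]
    have h3 := h2.2.2.1
    linarith

theorem AbD_commute_prod {x : H} {xs : List H} (h : ∀ y ∈ xs, Commute x y) :
    Commute x xs.prod := by
  induction xs with
  | nil => rw [List.prod_nil]; exact Commute.one_right x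
  | cons y ys ih =>
    rw [List.prod_cons]
    exact (h y List.mem_cons_self).mul_right (ih fun z hz => h z (List.mem_cons_of_mem _ hz))

theorem AbD_comm (xs : List H) : (∀ x ∈ xs, U x ∧ NC x) → (xs.map ang).sum ≤ Real.pi →
    ang xs.prod = (xs.map ang).sum → ∀ x ∈ xs, ∀ y ∈ xs, Commute x y := by
  induction xs with
  | nil =>
    intro _ _ _ x hx
    simp at hx
  | cons x ys ih =>
    intro hU hs h
    have hUx := (hU x List.mem_cons_self).1
    have hNx := (NC_iff_ang hUx).1 (hU x List.mem_cons_self).2
    have hUy : ∀ y ∈ ys, U y := fun y hy => (hU y (List.mem_cons_of_mem _ hy)).1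
    have hUP := AbD_U_prod hUy
    rw [List.map_cons, List.sum_cons] at hs h
    rw [List.prod_cons] at h
    have h1 := tri_of_mul hUx hUP
    have h2 := AbD_ang_prod_le hUy
    have h3 := h1.2.2.1
    have hP : ang ys.prod = (ys.map ang).sum := by linarith
    have hc : Commute x ys.prod := by
      by_contra hcon
      have h4 := (stri_of_mul hUx hUP hcon).2.2.1
      linarith
    have hys := ih (fun y hy => hU y (List.mem_cons_of_mem _ hy)) (by linarith) hP
    have hxy : ∀ y ∈ ys, Commute x y := by
      intro y hy
      have hNy := (NC_iff_ang (hUy y hy)).1 (hU y (List.mem_cons_of_mem _ hy)).2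
      have hpos : 0 < (ys.map ang).sum := by
        have h5 : ang y ≤ (ys.map ang).sum := by
          refine List.single_le_sum ?_ _ (List.mem_map_of_mem hy)
          intro a ha
          obtain ⟨z, -, rfl⟩ := List.mem_map.1 ha
          exact (ang_mem z).1
        linarith [hNy.1]
      have hNP : NC ys.prod := by
        rw [NC_iff_ang hUP, hP]
        exact ⟨hpos, by linarith [hNx.1]⟩
      exact comm_trans hNP hc (AbD_commute_prod fun z hz => hys y hy z hz).symm
    intro a ha b hb
    rcases List.mem_cons.1 ha with rfl | ha'
    · rcases List.mem_cons.1 hb with rfl | hb'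
      · exact Commute.refl _
      · exact hxy b hb'
    · rcases List.mem_cons.1 hb with rfl | hb'
      · exact (hxy a ha').symm
      · exact hys a ha' b hb'

/-- equality in the triangle inequality: if the angles of non-central units add up to at most `π` and the
angle of the product is the sum of the angles then the entries commute -/
theorem comm_of_ang_sum {xs : List H} (hU : ∀ x ∈ xs, U x ∧ NC x)
    (hs : (xs.map ang).sum ≤ Real.pi) (h : ang xs.prod = (xs.map ang).sum) : ¬ NAl xs := by
  rintro ⟨x, hx, y, hy, hxy⟩
  exact hxy (AbD_comm xs hU hs h x hx y hy)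

end Pool.Agent.W24dbe6
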