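import Pool.Agent.W_MP_24dbe6_h58.AbC
import Pool.Agent.W_MP_24dbe6_h58.AbD
import Pool.Agent.W_MP_24dbe6_h58.Reorder

set_option autoImplicit false

/-!
Abelian admissible lists are limits of non-abelian ones, if there is a non-abelian one at all.
-/

namespace Pool.Agent.W24dbe6

open Quaternion

variable {ι : Type}

/-- the sign of a boolean -/
def ab_sg (x : ℝ × Bool) : ℝ := if x.2 then 1 else -1

theorem ab_sg_cases (x : ℝ × Bool) : ab_sg x = 1 ∨ ab_sg x = -1 := by
  unfold ab_sg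
  split_ifs
  · exact Or.inl rfl
  · exact Or.inr rfl

theorem ab_sg_sq (x : ℝ × Bool) : ab_sg x * ab_sg x = 1 := by
  rcases ab_sg_cases x with h | h <;> rw [h] <;> norm_num

/-- the product of the signs -/
noncomputable def ab_sgp (l : List (ℝ × Bool)) : ℝ := (l.map ab_sg).prod

theorem ab_sgp_cons (x : ℝ × Bool) (l : List (ℝ × Bool)) : ab_sgp (x :: l) = ab_sg x * ab_sgp l := by
  unfold ab_sgp
  rw [List.map_cons, List.prod_cons]

theorem ab_sgp_cases (l : List (ℝ × Bool)) : ab_sgp l = 1 ∨ ab_sgp l = -1 := by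
  induction l with
  | nil => left; rfl
  | cons x l ih =>
    rw [ab_sgp_cons]
    rcases ab_sg_cases x with h | h <;> rcases ih with h' | h' <;> rw [h, h'] <;> norm_num

/-- the entry coded by an angle and a sign -/
theorem ab_entry (u : H) (x : ℝ × Bool) :
    (if x.2 then E u x.1 else -E u x.1) = ab_sg x • E u x.1 := by
  unfold ab_sg
  split_ifs
  · rw [one_smul]
  · rw [neg_smul, one_smul]

theorem ab_U_sg {x : ℝ × Bool} {y : H} (hy : U y) : U (ab_sg x • y) := by
  show ‖ab_sg x • y‖ = 1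
  rw [norm_smul, show ‖y‖ = 1 from hy, mul_one, Real.norm_eq_abs]
  rcases ab_sg_cases x with h | h <;> rw [h] <;> norm_num

theorem ab_re_sg {x : ℝ × Bool} {y : H} : (ab_sg x • y).re = ab_sg x * y.re := by
  simp

theorem ab_commute_sg {x x' : ℝ × Bool} {y y' : H} :
    Commute (ab_sg x • y) (ab_sg x' • y') ↔ Commute y y' := by
  constructor
  · intro h
    have h1 := (h.smul_left (ab_sg x)).smul_right (ab_sg x')
    rw [smul_smul, smul_smul, ab_sg_sq, ab_sg_sq, one_smul, one_smul] at h1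
    exact h1
  · intro h
    exact (h.smul_left _).smul_right _

theorem ab_dist_sg {x : ℝ × Bool} {y y' : H} : dist (ab_sg x • y) (ab_sg x • y') = dist y y' := by
  rw [dist_eq_norm, dist_eq_norm, ← smul_sub, norm_smul, Real.norm_eq_abs]
  rcases ab_sg_cases x with h | h <;> rw [h] <;> norm_num

/-- lists by choice of the entries -/
theorem ab_exists_forall₂ {α β : Type*} {R : α → β → Prop} {l : List α}
    (h : ∀ a ∈ l, ∃ b, R a b) : ∃ l', List.Forall₂ R l l' := by
  induction l with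
  | nil => exact ⟨[], List.Forall₂.nil⟩
  | cons a l ih =>
    obtain ⟨b, hb⟩ := h a (by simp)
    obtain ⟨l', hl'⟩ := ih (fun a ha => h a (List.mem_cons_of_mem _ ha))
    exact ⟨b :: l', List.Forall₂.cons hb hl'⟩

/-- a non-central unit commuting with the axis is `± E u α`, `0 < α < π` -/
theorem ab_norm {u x : H} (hu : U u) (hr : u.re = 0) (hx : U x) (hn : NC x) (hc : Commute x u) :
    ∃ y : ℝ × Bool, (0 < y.1 ∧ y.1 < Real.pi) ∧ x = (if y.2 then E u y.1 else -E u y.1) := by
  obtain ⟨a, rfl⟩ := exists_E hu hr hx hc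
  obtain ⟨k, hk⟩ : ∃ k : ℤ, k = ⌊a / Real.pi⌋ := ⟨_, rfl⟩
  have hpi := Real.pi_pos
  have h1 : (k : ℝ) ≤ a / Real.pi := by rw [hk]; exact Int.floor_le _
  have h2 : a / Real.pi < k + 1 := by rw [hk]; exact Int.lt_floor_add_one _
  rw [le_div_iff₀ hpi] at h1
  rw [div_lt_iff₀ hpi] at h2
  obtain ⟨α, hα⟩ : ∃ α : ℝ, α = a - k * Real.pi := ⟨_, rfl⟩
  have ha : a = α + k * Real.pi := by rw [hα]; ring
  have hα0 : 0 ≤ α := by rw [hα]; linarith
  have hα1 : α < Real.pi := by rw [hα]; linarith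
  have hE : E u a = (if Even k then E u α else -E u α) := by
    unfold E
    rw [ha, Real.cos_add_int_mul_pi, Real.sin_add_int_mul_pi]
    split_ifs with he
    · rw [he.neg_one_zpow, one_mul, one_mul]
    · rw [(Int.not_even_iff_odd.1 he).neg_one_zpow, neg_one_mul, neg_one_mul]
      push_cast
      rw [neg_mul, ← neg_add]
  have hα2 : 0 < α := by
    rcases hα0.lt_or_eq with h | h
    · exact h
    · exfalso
      apply hn
      rw [hE, ← h, E_zero]
      split_ifs <;> simp
  refine ⟨(α, decide (Even k)), ⟨hα2, hα1⟩, ?_⟩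
  rw [hE]
  by_cases he : Even k
  · simp [he]
  · simp [he]

/-- bounds for the sum of the angles -/
theorem ab_sum {l : List (ℝ × Bool)} (hl : ∀ x ∈ l, 0 < x.1 ∧ x.1 < Real.pi) (hne : l ≠ []) :
    0 < (l.map Prod.fst).sum ∧ (l.map Prod.fst).sum < l.length * Real.pi := by
  induction l with
  | nil => exact absurd rfl hne
  | cons x l ih =>
    have hx := hl x (by simp)
    rw [List.map_cons, List.sum_cons, List.length_cons]
    push_cast
    by_cases h : l = []
    · subst h
      simp only [List.map_nil, List.sum_nil, List.length_nil, Nat.cast_zero]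
      constructor
      · linarith [hx.1]
      · linarith [hx.2]
    · obtain ⟨h1, h2⟩ := ih (fun y hy => hl y (List.mem_cons_of_mem _ hy)) h
      constructor
      · linarith [hx.1]
      · linarith [hx.2]

/-- the product of the coded entries -/
theorem ab_pr {u : H} (hu : U u) (hr : u.re = 0) {b : LL ι} {l : List (ℝ × Bool)}
    (hbl : List.Forall₂ (fun (p : ι × H) (x : ℝ × Bool) =>
        p.2 = (if x.2 then E u x.1 else -E u x.1)) b l) :
    pr b = ab_sgp l • E u (l.map Prod.fst).sum := by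
  induction hbl with
  | nil =>
    rw [pr_nil, List.map_nil, List.sum_nil, E_zero]
    show (1 : H) = (1 : ℝ) • (1 : H)
    rw [one_smul]
  | cons h _ ih =>
    rw [pr_cons, h, ab_entry, ih, List.map_cons, List.sum_cons, E_add hu hr, ab_sgp_cons,
      smul_mul_smul_comm]

theorem ab_sum_of_pr {u : H} (hu : U u) (hr : u.re = 0) {b : LL ι} {l : List (ℝ × Bool)}
    (hbl : List.Forall₂ (fun (p : ι × H) (x : ℝ × Bool) =>
        p.2 = (if x.2 then E u x.1 else -E u x.1)) b l) (h1 : pr b = 1) :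
    ∃ n : ℤ, (n : ℝ) * Real.pi = (l.map Prod.fst).sum := by
  rw [← Real.sin_eq_zero_iff]
  rw [ab_pr hu hr hbl] at h1
  have h2 := congrArg (fun z : H => z.re) h1
  have h3 : ab_sgp l * Real.cos (l.map Prod.fst).sum = 1 := by
    have h4 : (ab_sgp l • E u (l.map Prod.fst).sum).re
        = ab_sgp l * Real.cos (l.map Prod.fst).sum := by
      rw [← E_re hr]
      simp
    rw [← h4]
    simpa using h2
  have h5 := Real.sin_sq_add_cos_sq (l.map Prod.fst).sum
  have h6 : Real.cos (l.map Prod.fst).sum ^ 2 = 1 := by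
    rcases ab_sgp_cases l with h | h <;> rw [h] at h3 <;> nlinarith
  have h7 : Real.sin (l.map Prod.fst).sum ^ 2 = 0 := by linarith
  exact pow_eq_zero_iff (two_ne_zero) |>.1 h7

theorem ab_NC {θ : ι → ℝ} (hθ : ∀ i, 0 < θ i ∧ θ i < Real.pi) {p : ι × H}
    (h : U p.2 ∧ p.2.re = Real.cos (θ p.1)) : NC p.2 := by
  obtain ⟨hu, hre⟩ := h
  rw [NC_iff hu, hre]
  have h1 := hθ p.1
  constructor
  · have := Real.cos_lt_cos_of_nonneg_of_le_pi h1.1.le le_rfl h1.2
    rwa [Real.cos_pi] at this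
  · have := Real.cos_lt_cos_of_nonneg_of_le_pi le_rfl h1.2.le h1.1
    rwa [Real.cos_zero] at this

theorem ab_forall₂_right {α β : Type*} {R : α → β → Prop} {P : β → Prop} {l : List α}
    {l' : List β} (h : List.Forall₂ R l l') (hR : ∀ a b, R a b → P b) : ∀ b ∈ l', P b := by
  induction h with
  | nil => intro x hx; simp at hx
  | cons h _ ih =>
    intro x hx
    rw [List.mem_cons] at hx
    rcases hx with rfl | hx
    · exact hR _ _ h
    · exact ih x hx

/-- the real part of a coded entry -/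
theorem ab_re_entry {u : H} (hr : u.re = 0) (x : ℝ × Bool) :
    (if x.2 then E u x.1 else -E u x.1).re = ab_sg x * Real.cos x.1 := by
  rw [ab_entry, ab_re_sg, E_re hr]

/-- multiplication of an admissible list by the signs of `l` -/
theorem ab_build {θ : ι → ℝ} {u : H} (hr : u.re = 0) {b : LL ι} {l : List (ℝ × Bool)}
    (hbl : List.Forall₂ (fun (p : ι × H) (x : ℝ × Bool) =>
        p.2 = (if x.2 then E u x.1 else -E u x.1)) b l)
    (hl : ∀ x ∈ l, 0 < x.1 ∧ x.1 < Real.pi)
    (hb : ∀ p ∈ b, U p.2 ∧ p.2.re = Real.cos (θ p.1)) {a : LL ι}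
    (ha : ∀ p ∈ a, U p.2 ∧ p.2.re = Real.cos (θ p.1)) (hlab : lab a = lab b) :
    ∃ c : List H, (∀ x ∈ c, U x ∧ NC x) ∧ c.map ang = l.map Prod.fst ∧
      c.prod = ab_sgp l • pr a ∧ ∀ p ∈ a, ∃ x ∈ c, ∃ s : ℝ × Bool, x = ab_sg s • p.2 := by
  induction hbl generalizing a with
  | nil =>
    have ha0 : a = [] := by
      have h1 := congrArg List.length hlab
      simp only [lab, List.length_map, List.length_nil] at h1
      exact List.eq_nil_of_length_eq_zero h1
    subst ha0
    refine ⟨[], by simp, rfl, ?_, by simp⟩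
    rw [pr_nil]
    show (1 : H) = (1 : ℝ) • (1 : H)
    rw [one_smul]
  | cons h _ ih =>
    rename_i p x b l _
    cases a with
    | nil => simp [lab] at hlab
    | cons q a =>
      have hlab' : q.1 = p.1 ∧ lab a = lab b := by
        simpa [lab] using hlab
      obtain ⟨c, h1, h2, h3, h4⟩ := ih (fun y hy => hl y (List.mem_cons_of_mem _ hy))
        (fun y hy => hb y (List.mem_cons_of_mem _ hy)) (fun y hy => ha y (List.mem_cons_of_mem _ hy))
        hlab'.2
      have hx := hl x (by simp)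
      have hp := hb p (by simp)
      have hq := ha q (by simp)
      have hre : (ab_sg x • q.2).re = Real.cos x.1 := by
        rw [ab_re_sg, hq.2, hlab'.1, ← hp.2, h, ab_re_entry hr, ← mul_assoc, ab_sg_sq, one_mul]
      have hU : U (ab_sg x • q.2) := ab_U_sg hq.1
      have hang : ang (ab_sg x • q.2) = x.1 := by
        unfold ang
        rw [hre, Real.arccos_cos hx.1.le hx.2.le]
      refine ⟨(ab_sg x • q.2) :: c, ?_, ?_, ?_, ?_⟩
      · intro y hy
        rw [List.mem_cons] at hy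
        rcases hy with rfl | hy
        · refine ⟨hU, ?_⟩
          rw [NC_iff_ang hU, hang]
          exact hx
        · exact h1 y hy
      · rw [List.map_cons, List.map_cons, hang, h2]
      · rw [List.prod_cons, h3, ab_sgp_cons, pr_cons, smul_mul_smul_comm]
      · intro y hy
        rw [List.mem_cons] at hy
        rcases hy with rfl | hy
        · exact ⟨ab_sg x • y.2, by simp, x, rfl⟩
        · obtain ⟨z, hz, s, hs⟩ := h4 y hy
          exact ⟨z, List.mem_cons_of_mem _ hz, s, hs⟩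

/-- the case of total angle `π` -/
theorem ab_rigid1 {θ : ι → ℝ} {b a : LL ι} (hb : Adm θ b)
    (ha : Adm θ a) (hlab : lab a = lab b) (hna : NA a) {u : H} {l : List (ℝ × Bool)}
    (hu : U u) (hr : u.re = 0) (hl : ∀ x ∈ l, 0 < x.1 ∧ x.1 < Real.pi)
    (hbl : List.Forall₂ (fun (p : ι × H) (x : ℝ × Bool) =>
        p.2 = (if x.2 then E u x.1 else -E u x.1)) b l)
    (hs : (l.map Prod.fst).sum = Real.pi) : False := by
  obtain ⟨c, h1, h2, h3, h4⟩ := ab_build hr hbl hl hb.1 ha.1 hlab
  have hsg : ab_sgp l = -1 := by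
    rcases ab_sgp_cases l with h | h
    · exfalso
      have h5 := ab_pr hu hr hbl
      rw [hb.2, hs, E_pi, h, one_smul] at h5
      have h6 := congrArg (fun z : H => z.re) h5
      simp only [Quaternion.re_one, Quaternion.re_neg] at h6
      norm_num at h6
    · exact h
  have hc : c.prod = -1 := by
    rw [h3, ha.2, hsg, neg_smul, one_smul]
  have hang : ang c.prod = (c.map ang).sum := by
    rw [h2, hs, hc]
    unfold ang
    rw [Quaternion.re_neg, Quaternion.re_one, Real.arccos_neg_one]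
  have hNA : ¬ NAl c := comm_of_ang_sum h1 (by rw [h2, hs]) hang
  apply hNA
  obtain ⟨p, hp, q, hq, hpq⟩ := hna
  obtain ⟨x, hx, s, rfl⟩ := h4 p hp
  obtain ⟨y, hy, t, rfl⟩ := h4 q hq
  exact ⟨_, hx, _, hy, fun h => hpq (ab_commute_sg.1 h)⟩

/-- the flipped code: `± E u α = ∓ E (-u) (π - α)` -/
theorem ab_flip {u : H} {b : LL ι} {l : List (ℝ × Bool)}
    (hbl : List.Forall₂ (fun (p : ι × H) (x : ℝ × Bool) =>
        p.2 = (if x.2 then E u x.1 else -E u x.1)) b l) :
    List.Forall₂ (fun (p : ι × H) (x : ℝ × Bool) =>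
        p.2 = (if x.2 then E (-u) x.1 else -E (-u) x.1)) b
      (l.map fun x => (Real.pi - x.1, !x.2)) := by
  rw [List.forall₂_map_right_iff]
  refine hbl.imp fun p x h => ?_
  rw [h]
  have h1 : E (-u) (Real.pi - x.1) = -E u x.1 := by
    unfold E
    rw [Real.cos_pi_sub, Real.sin_pi_sub]
    push_cast
    rw [mul_neg, ← neg_add]
  rw [h1]
  cases x.2 <;> simp

theorem ab_flip_sum (l : List (ℝ × Bool)) :
    ((l.map fun x => (Real.pi - x.1, !x.2)).map Prod.fst).sum
      = l.length * Real.pi - (l.map Prod.fst).sum := by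
  induction l with
  | nil => simp
  | cons x l ih =>
    rw [List.map_cons, List.map_cons, List.sum_cons, ih, List.map_cons, List.sum_cons,
      List.length_cons]
    push_cast
    ring

/-- the perturbed list -/
theorem ab_build2 {θ : ι → ℝ} {u : H} (hr : u.re = 0) {ε : ℝ} {b : LL ι} {l : List (ℝ × Bool)}
    (hbl : List.Forall₂ (fun (p : ι × H) (x : ℝ × Bool) =>
        p.2 = (if x.2 then E u x.1 else -E u x.1)) b l)
    (hb : ∀ p ∈ b, U p.2 ∧ p.2.re = Real.cos (θ p.1)) {ys : List H}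
    (hy : List.Forall₂ (fun (a : ℝ) (y : H) => U y ∧ y.re = Real.cos a ∧ dist (E u a) y < ε)
      (l.map Prod.fst) ys) :
    ∃ b' : LL ι, lab b' = lab b ∧ (∀ p ∈ b', U p.2 ∧ p.2.re = Real.cos (θ p.1)) ∧
      pr b' = ab_sgp l • ys.prod ∧ Near ε b b' ∧
      ∀ y ∈ ys, ∃ p ∈ b', ∃ s : ℝ × Bool, p.2 = ab_sg s • y := by
  induction hbl generalizing ys with
  | nil =>
    rw [List.map_nil] at hy
    cases hy
    refine ⟨[], rfl, by simp, ?_, List.Forall₂.nil, by simp⟩
    rw [pr_nil]
    show (1 : H) = (1 : ℝ) • (1 : H)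
    rw [one_smul]
  | cons h _ ih =>
    rename_i p x b l _
    rw [List.map_cons] at hy
    cases hy with
    | cons hy1 hy2 =>
      rename_i y ys
      obtain ⟨b', h1, h2, h3, h4, h5⟩ := ih (fun z hz => hb z (List.mem_cons_of_mem _ hz)) hy2
      have hp := hb p (by simp)
      obtain ⟨k1, k2, k3⟩ := hy1
      refine ⟨(p.1, ab_sg x • y) :: b', ?_, ?_, ?_, ?_, ?_⟩
      · show p.1 :: lab b' = p.1 :: lab b
        rw [h1]
      · intro z hz
        rw [List.mem_cons] at hz
        rcases hz with rfl | hz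
        · refine ⟨ab_U_sg k1, ?_⟩
          show (ab_sg x • y).re = Real.cos (θ p.1)
          rw [ab_re_sg, k2, ← hp.2, h, ab_re_entry hr]
        · exact h2 z hz
      · rw [pr_cons, h3, ab_sgp_cons, List.prod_cons, smul_mul_smul_comm]
      · refine near_cons rfl ?_ h4
        show dist p.2 (ab_sg x • y) < ε
        rw [h, ab_entry, ab_dist_sg]
        exact k3
      · intro z hz
        rw [List.mem_cons] at hz
        rcases hz with rfl | hz
        · exact ⟨(p.1, ab_sg x • z), by simp, x, rfl⟩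
        · obtain ⟨q, hq, s, hs⟩ := h5 z hz
          exact ⟨q, List.mem_cons_of_mem _ hq, s, hs⟩

/-- structure of abelian lists: `b_k = ± E u α_k` with `0 < α_k < π` -/
theorem ab_struct {θ : ι → ℝ} (hθ : ∀ i, 0 < θ i ∧ θ i < Real.pi) {b : LL ι} (hb : Adm θ b)
    (hab : ¬ NA b) (hne : b ≠ []) : ∃ (u : H) (l : List (ℝ × Bool)), U u ∧ u.re = 0 ∧
      (∀ x ∈ l, 0 < x.1 ∧ x.1 < Real.pi) ∧
      List.Forall₂ (fun (p : ι × H) (x : ℝ × Bool) =>
        p.2 = (if x.2 then E u x.1 else -E u x.1)) b l ∧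
      ∃ M : ℕ, (l.map Prod.fst).sum = M * Real.pi ∧ 1 ≤ M ∧ M + 1 ≤ l.length := by
  have hcomm := not_NA_iff.1 hab
  obtain ⟨p0, hp0⟩ := List.exists_mem_of_ne_nil b hne
  have hn0 : NC p0.2 := ab_NC hθ (hb.1 p0 hp0)
  obtain ⟨u, hu, hr, hc, -⟩ := exists_axis hn0
  have hex : ∀ p ∈ b, ∃ x : ℝ × Bool, (0 < x.1 ∧ x.1 < Real.pi) ∧
      p.2 = (if x.2 then E u x.1 else -E u x.1) := by
    intro p hp
    exact ab_norm hu hr (hb.1 p hp).1 (ab_NC hθ (hb.1 p hp)) ((hc p.2).1 (hcomm p hp p0 hp0))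
  obtain ⟨l, hl⟩ := ab_exists_forall₂ hex
  have hl1 : ∀ x ∈ l, 0 < x.1 ∧ x.1 < Real.pi := ab_forall₂_right hl fun _ _ h => h.1
  have hl2 : List.Forall₂ (fun (p : ι × H) (x : ℝ × Bool) =>
      p.2 = (if x.2 then E u x.1 else -E u x.1)) b l := hl.imp fun _ _ h => h.2
  have hlen : b.length = l.length := hl2.length_eq
  have hne' : l ≠ [] := by
    rintro rfl
    rw [List.length_nil] at hlen
    exact hne (List.eq_nil_of_length_eq_zero hlen)
  obtain ⟨h1, h2⟩ := ab_sum hl1 hne'
  obtain ⟨n, hn⟩ := ab_sum_of_pr hu hr hl2 hb.2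
  have hpi := Real.pi_pos
  rw [← hn] at h1 h2
  have h3 : 0 < n := by
    have : (0 : ℝ) < n := by
      by_contra h
      push Not at h
      nlinarith
    exact_mod_cast this
  have h4 : n < l.length := by
    have : (n : ℝ) < l.length := lt_of_mul_lt_mul_right h2 hpi.le
    exact_mod_cast this
  lift n to ℕ using h3.le
  refine ⟨u, l, hu, hr, hl1, hl2, n, ?_, ?_, ?_⟩
  · rw [← hn]
    push_cast
    rfl
  · omega
  · omega

/-- if `M = 1` or `M = n - 1` then there is no non-abelian admissible list.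
Reorder `a` so that `lab a = lab b`; multiply the entries by the same signs; the angles become `α_k`,
their sum is `π` and the product is `-1` (`comm_of_ang_sum`).  For `M = n - 1` use the reversed list of
the `- star`. -/
theorem ab_rigid {θ : ι → ℝ} (hθ : ∀ i, 0 < θ i ∧ θ i < Real.pi) {b a : LL ι} (hb : Adm θ b)
    (ha : Adm θ a) (hp : (lab a).Perm (lab b)) (hna : NA a) {u : H} {l : List (ℝ × Bool)}
    (hu : U u) (hr : u.re = 0) (hl : ∀ x ∈ l, 0 < x.1 ∧ x.1 < Real.pi)
    (hbl : List.Forall₂ (fun (p : ι × H) (x : ℝ × Bool) =>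
        p.2 = (if x.2 then E u x.1 else -E u x.1)) b l) {M : ℕ}
    (hs : (l.map Prod.fst).sum = M * Real.pi) : 2 ≤ M ∧ M + 2 ≤ l.length := by
  have hpi := Real.pi_pos
  have hlen : b.length = l.length := hbl.length_eq
  have hne : l ≠ [] := by
    rintro rfl
    rw [List.length_nil] at hlen
    have h1 := hp.length_eq
    simp only [lab, List.length_map] at h1
    rw [hlen] at h1
    have h2 := List.eq_nil_of_length_eq_zero h1
    obtain ⟨p, hp, -⟩ := hna
    rw [h2] at hp
    simp at hp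
  obtain ⟨h1, h2⟩ := ab_sum hl hne
  rw [hs] at h1 h2
  have h3 : 1 ≤ M := by
    rcases Nat.eq_zero_or_pos M with h | h
    · rw [h] at h1
      simp at h1
    · exact h
  have h4 : M < l.length := by
    have : (M : ℝ) < l.length := lt_of_mul_lt_mul_right h2 hpi.le
    exact_mod_cast this
  obtain ⟨a', hBv, hlab⟩ := reorder hp
  have ha' : Adm θ a' := Mv_Adm (Mv_of_Bv hBv) ha
  have hna' : NA a' := (Bv_NA hBv (Adm_UL ha)).2 hna
  have h5 : M ≠ 1 := by
    rintro rfl
    refine ab_rigid1 hb ha' hlab hna' hu hr hl hbl ?_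
    rw [hs]
    push_cast
    ring
  have h6 : M + 1 ≠ l.length := by
    intro h
    refine ab_rigid1 (u := -u) hb ha' hlab hna' ?_ ?_ ?_ (ab_flip hbl) ?_
    · show ‖-u‖ = 1
      rw [norm_neg]
      exact hu
    · rw [Quaternion.re_neg, hr, neg_zero]
    · intro x hx
      rw [List.mem_map] at hx
      obtain ⟨y, hy, rfl⟩ := hx
      have := hl y hy
      constructor
      · show 0 < Real.pi - y.1
        linarith
      · show Real.pi - y.1 < Real.pi
        linarith
    · rw [ab_flip_sum, hs, ← h]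
      push_cast
      ring
  constructor
  · omega
  · omega

theorem ab_limit {θ : ι → ℝ} (hθ : ∀ i, 0 < θ i ∧ θ i < Real.pi) {b a : LL ι} (hb : Adm θ b)
    (hab : ¬ NA b) (h4 : 4 ≤ b.length) (ha : Adm θ a) (hna : NA a) (hp : (lab a).Perm (lab b))
    {ε : ℝ} (hε : 0 < ε) : ∃ b' : LL ι, Adm θ b' ∧ lab b' = lab b ∧ NA b' ∧ Near ε b b' := by
  have hne : b ≠ [] := by
    rintro rfl
    simp at h4
  obtain ⟨u, l, hu, hr, hl, hbl, M, hs, hM1, hM2⟩ := ab_struct hθ hb hab hne
  obtain ⟨h1, h2⟩ := ab_rigid hθ hb ha hp hna hu hr hl hbl hs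
  have hlen : b.length = l.length := hbl.length_eq
  have hAL : AL u (l.map Prod.fst) := by
    refine AL_main hu hr (l := l.map Prod.fst) (M := M) ?_ ?_ h1 ?_ hs
    · intro x hx
      rw [List.mem_map] at hx
      obtain ⟨y, hy, rfl⟩ := hx
      exact hl y hy
    · rw [List.length_map]
      omega
    · rw [List.length_map]
      exact h2
  obtain ⟨ys, hy1, hy2, hy3⟩ := hAL ε hε
  obtain ⟨b', k1, k2, k3, k4, k5⟩ := ab_build2 hr hbl hb.1 hy1
  refine ⟨b', ⟨k2, ?_⟩, k1, ?_, k4⟩
  · rw [k3, hy2, ← ab_pr hu hr hbl]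
    exact hb.2
  · obtain ⟨x, hx, y, hy, hxy⟩ := hy3
    obtain ⟨p, hp, s, hps⟩ := k5 x hx
    obtain ⟨q, hq, t, hqt⟩ := k5 y hy
    refine ⟨p, hp, q, hq, fun h => hxy ?_⟩
    rw [hps, hqt] at h
    exact ab_commute_sg.1 h

end Pool.Agent.W24dbe6
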