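import Pool.Agent.W_MP_24dbe6_h58.AbA

set_option autoImplicit false

/-!
Abelian lists are limits of non-abelian lists: permutations, short lists.
-/

namespace Pool.Agent.W24dbe6

open Quaternion

theorem abB_dist_star (x y : H) : dist (star x) (star y) = dist x y := by
  rw [dist_eq_norm, dist_eq_norm, ← star_sub, norm_star]

/-- a list of pairwise commuting entries -/
theorem abB_not_NAl {xs : List H} : ¬ NAl xs ↔ ∀ x ∈ xs, ∀ y ∈ xs, Commute x y := by
  unfold NAl
  push Not
  rfl

theorem abB_append {R : ℝ → H → Prop} {l₂ : List ℝ} :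
    ∀ (l₁ : List ℝ) (ys : List H), List.Forall₂ R (l₁ ++ l₂) ys →
      ∃ y₁ y₂ : List H, List.Forall₂ R l₁ y₁ ∧ List.Forall₂ R l₂ y₂ ∧ ys = y₁ ++ y₂
  | [], ys, h => ⟨[], ys, List.Forall₂.nil, h, rfl⟩
  | x :: l₁, ys, h => by
    rw [List.cons_append, List.forall₂_cons_left_iff] at h
    obtain ⟨y, ys', h1, h2, rfl⟩ := h
    obtain ⟨y₁, y₂, h3, h4, rfl⟩ := abB_append l₁ ys' h2
    exact ⟨y :: y₁, y₂, List.Forall₂.cons h1 h3, h4, rfl⟩

/-- an adjacent transposition -/
theorem AL_swap {u : H} (hu : U u) (hr : u.re = 0) (pre l : List ℝ) (a b : ℝ)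
    (h : AL u (pre ++ a :: b :: l)) : AL u (pre ++ b :: a :: l) := by
  intro ε hε
  obtain ⟨ys, h1, h2, h3⟩ := h (ε / 3) (by positivity)
  obtain ⟨ys1, ys2', h4, h5, rfl⟩ := abB_append _ _ h1
  rw [List.forall₂_cons_left_iff] at h5
  obtain ⟨y, ys2'', ⟨hyU, hyr, hyd⟩, h6, rfl⟩ := h5
  rw [List.forall₂_cons_left_iff] at h6
  obtain ⟨z, ys2, ⟨hzU, hzr, hzd⟩, h7, rfl⟩ := h6
  have hmono : ∀ (l : List ℝ) (ys : List H), List.Forall₂ (fun (a : ℝ) (y : H) => U y ∧
      y.re = Real.cos a ∧ dist (E u a) y < ε / 3) l ys → List.Forall₂ (fun (a : ℝ) (y : H) =>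
      U y ∧ y.re = Real.cos a ∧ dist (E u a) y < ε) l ys := by
    intro l ys h
    refine h.imp (fun a b hab => ⟨hab.1, hab.2.1, by linarith [hab.2.2]⟩)
  have hcj : star z * y * z = cj (star z) y := by
    unfold cj
    rw [star_star]
  refine ⟨ys1 ++ z :: (star z * y * z) :: ys2, ?_, ?_, ?_⟩
  · refine List.rel_append (hmono _ _ h4) (List.Forall₂.cons ⟨hzU, hzr, by linarith⟩
      (List.Forall₂.cons ⟨?_, ?_, ?_⟩ (hmono _ _ h7)))
    · rw [hcj]
      exact U_cj (U_star hzU) hyU
    · rw [hcj, cj_re (U_star hzU), hyr]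
    · rw [hcj]
      have hE : cj (star (E u b)) (E u a) = E u a := by
        apply cj_of_commute (U_star (U_E hu hr b))
        rw [commute_star (U_E hu hr b)]
        exact E_commute u b a
      have h8 : dist (E u a) (cj (star z) (E u a)) ≤ 2 * dist (E u b) z := by
        have h9 := dist_cj_le (U_star (U_E hu hr b)) (U_star hzU) (U_E hu hr a)
        rw [hE, abB_dist_star] at h9
        exact h9
      have h9 : dist (cj (star z) (E u a)) (cj (star z) y) = dist (E u a) y :=
        dist_cj (U_star hzU) _ _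
      have h10 := dist_triangle (E u a) (cj (star z) (E u a)) (cj (star z) y)
      linarith
  · have h8 : (ys1 ++ z :: (star z * y * z) :: ys2).prod = (ys1 ++ y :: z :: ys2).prod := by
      simp only [List.prod_append, List.prod_cons]
      congr 1
      rw [← mul_assoc, ← mul_assoc z, ← mul_assoc z, U_mul_star hzU, one_mul, mul_assoc]
    rw [h8, h2]
    congr 1
    simp only [List.sum_append, List.sum_cons]
    ring
  · by_contra hcon
    rw [abB_not_NAl] at hcon
    have h8 : Commute z (star z * y * z) := hcon z (by simp) _ (by simp)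
    have h9 : star z * y * z = y := by
      have e1 : cj z (star z * y * z) = star z * y * z := cj_of_commute hzU h8
      rw [hcj, cj_cj_star hzU] at e1
      rw [hcj]
      exact e1.symm
    rw [h9] at hcon
    refine absurd h3 (abB_not_NAl.2 ?_)
    intro x hx w hw
    refine hcon x ?_ w ?_
    · simp only [List.mem_append, List.mem_cons] at hx ⊢
      tauto
    · simp only [List.mem_append, List.mem_cons] at hw ⊢
      tauto

theorem AL_perm_aux {u : H} (hu : U u) (hr : u.re = 0) {l l' : List ℝ} (h : l.Perm l') :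
    ∀ pre : List ℝ, AL u (pre ++ l) → AL u (pre ++ l') := by
  induction h with
  | nil => exact fun pre h => h
  | cons x _ ih =>
    intro pre h
    have := ih (pre ++ [x]) (by simpa using h)
    simpa using this
  | swap x y l =>
    intro pre h
    exact AL_swap hu hr pre l y x h
  | trans _ _ ih1 ih2 => exact fun pre h => ih2 pre (ih1 pre h)

/-- the property is invariant under permutations: for an adjacent transposition replace `(y, y')` by
`(y', star y' * y * y')`, which is close to `(E u b, E u a)` because the limits commute -/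
theorem AL_perm {u : H} (hu : U u) (hr : u.re = 0) {l l' : List ℝ} (h : l.Perm l') (hl : AL u l) :
    AL u l' :=
  AL_perm_aux hu hr h [] hl

theorem abB_prod {u : H} (hu : U u) (hr : u.re = 0) (l : List ℝ) :
    (l.map (E u)).prod = E u l.sum := by
  induction l with
  | nil => simp [E_zero]
  | cons x l ih => rw [List.map_cons, List.prod_cons, List.sum_cons, ih, E_add hu hr]

theorem abB_same {u : H} (hu : U u) (hr : u.re = 0) {ε : ℝ} (hε : 0 < ε) (l : List ℝ) :
    List.Forall₂ (fun (a : ℝ) (y : H) => U y ∧ y.re = Real.cos a ∧ dist (E u a) y < ε) l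
      (l.map (E u)) := by
  induction l with
  | nil => exact List.Forall₂.nil
  | cons x l ih =>
    exact List.Forall₂.cons ⟨U_E hu hr x, E_re hr x, by rw [dist_self]; exact hε⟩ ih

/-- if two of the angles add up to `π`, conjugate this pair by a small tilt (`exists_tilt`); the product
`-1` does not change -/
theorem AL_of_pi {u : H} (hu : U u) (hr : u.re = 0) {a b c : ℝ} {l : List ℝ}
    (hl : ∀ x ∈ (a :: b :: c :: l), 0 < x ∧ x < Real.pi) (hab : a + b = Real.pi) :
    AL u (a :: b :: c :: l) := by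
  intro ε hε
  obtain ⟨g, hg, hg1, hg2⟩ := exists_tilt hu hr (ε := ε / 2) (by positivity)
  have ha := hl a (by simp)
  have hc := hl c (by simp)
  have hd : ∀ x : ℝ, dist (E u x) (cj g (E u x)) < ε := by
    intro x
    have h1 := dist_cj_le U_one hg (U_E hu hr x)
    rw [cj_one_left, dist_comm 1 g] at h1
    linarith
  refine ⟨cj g (E u a) :: cj g (E u b) :: E u c :: l.map (E u), ?_, ?_, ?_⟩
  · refine List.Forall₂.cons ⟨U_cj hg (U_E hu hr a), ?_, hd a⟩
      (List.Forall₂.cons ⟨U_cj hg (U_E hu hr b), ?_, hd b⟩ (abB_same hu hr hε (c :: l)))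
    · rw [cj_re hg, E_re hr]
    · rw [cj_re hg, E_re hr]
  · have h1 : cj g (E u a) * cj g (E u b) = -1 := by
      rw [← cj_mul hg, ← E_add hu hr, hab, E_pi, cj_neg, cj_one_right hg]
    have h2 : (E u c :: l.map (E u)).prod = E u (c :: l).sum := abB_prod hu hr (c :: l)
    rw [List.prod_cons, List.prod_cons, ← mul_assoc, h1, h2, ← E_pi u, ← E_add hu hr, ← hab]
    congr 1
    simp only [List.sum_cons]
    ring
  · exact ⟨cj g (E u a), by simp, E u c, by simp, hg2 a c ha.1 ha.2 hc.1 hc.2⟩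

/-- four angles with sum `2 π`: one of `a + b`, `c + d` is `≤ π`, the other is the complement; `AL_of_pi`,
or `pair_lt` for one pair and `pair_gt` for the other with the same `η` -/
theorem AL_four {u : H} (hu : U u) (hr : u.re = 0) {a b c d : ℝ}
    (hl : ∀ x ∈ [a, b, c, d], 0 < x ∧ x < Real.pi) (hs : a + b + c + d = 2 * Real.pi) :
    AL u [a, b, c, d] := by
  have ha := hl a (by simp)
  have hb := hl b (by simp)
  have hc := hl c (by simp)
  have hd := hl d (by simp)
  rcases lt_trichotomy (a + b) Real.pi with hab | hab | hab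
  · intro ε hε
    obtain ⟨δ, hδ, h1⟩ := pair_lt hu hr ha hb hab hε
    obtain ⟨δ', hδ', h2⟩ := pair_gt hu hr hc hd (by linarith) hε
    have hη : 0 < min δ δ' / 2 := by positivity
    have hη1 : min δ δ' / 2 < δ := by linarith [min_le_left δ δ']
    have hη2 : min δ δ' / 2 < δ' := by linarith [min_le_right δ δ']
    obtain ⟨x, y, hx, hy, hxr, hyr, hxd, hyd, hxy, hn⟩ := h1 _ hη hη1
    obtain ⟨z, w, hz, hw, hzr, hwr, hzd, hwd, hzw, -⟩ := h2 _ hη hη2
    refine ⟨[x, y, z, w], ?_, ?_, ⟨x, by simp, y, by simp, hn⟩⟩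
    · exact List.Forall₂.cons ⟨hx, hxr, hxd⟩ (List.Forall₂.cons ⟨hy, hyr, hyd⟩
        (List.Forall₂.cons ⟨hz, hzr, hzd⟩ (List.Forall₂.cons ⟨hw, hwr, hwd⟩ List.Forall₂.nil)))
    · simp only [List.prod_cons, List.prod_nil, mul_one, List.sum_cons, List.sum_nil, add_zero]
      rw [hzw, ← mul_assoc, hxy, ← E_add hu hr]
      congr 1
      ring
  · exact AL_of_pi hu hr hl hab
  · intro ε hε
    obtain ⟨δ, hδ, h1⟩ := pair_gt hu hr ha hb hab hε
    obtain ⟨δ', hδ', h2⟩ := pair_lt hu hr hc hd (by linarith) hε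
    have hη : 0 < min δ δ' / 2 := by positivity
    have hη1 : min δ δ' / 2 < δ := by linarith [min_le_left δ δ']
    have hη2 : min δ δ' / 2 < δ' := by linarith [min_le_right δ δ']
    obtain ⟨x, y, hx, hy, hxr, hyr, hxd, hyd, hxy, hn⟩ := h1 _ hη hη1
    obtain ⟨z, w, hz, hw, hzr, hwr, hzd, hwd, hzw, -⟩ := h2 _ hη hη2
    refine ⟨[x, y, z, w], ?_, ?_, ⟨x, by simp, y, by simp, hn⟩⟩
    · exact List.Forall₂.cons ⟨hx, hxr, hxd⟩ (List.Forall₂.cons ⟨hy, hyr, hyd⟩
        (List.Forall₂.cons ⟨hz, hzr, hzd⟩ (List.Forall₂.cons ⟨hw, hwr, hwd⟩ List.Forall₂.nil)))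
    · simp only [List.prod_cons, List.prod_nil, mul_one, List.sum_cons, List.sum_nil, add_zero]
      rw [hzw, ← mul_assoc, hxy, ← E_add hu hr]
      congr 1
      ring

end Pool.Agent.W24dbe6
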