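import Pool.Agent.W_MP_24dbe6_h58.GeoComm
import Pool.Agent.W_MP_24dbe6_h58.DefsB

set_option autoImplicit false

/-!
Abelian lists: the rotations `E u α = cos α + sin α u` about a pure unit axis `u`.
-/

namespace Pool.Agent.W24dbe6

open Quaternion

/-- `e^{u α}` -/
noncomputable def E (u : H) (α : ℝ) : H := (Real.cos α : H) + (Real.sin α : H) * u

/-- the list of the rotations `E u α`, `α ∈ l`, is a limit of non-abelian lists with the same angles and
the same product -/
def AL (u : H) (l : List ℝ) : Prop :=
  ∀ ε : ℝ, 0 < ε → ∃ ys : List H,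
    List.Forall₂ (fun (a : ℝ) (y : H) => U y ∧ y.re = Real.cos a ∧ dist (E u a) y < ε) l ys ∧
      ys.prod = E u l.sum ∧ NAl ys

end Pool.Agent.W24dbe6
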