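import Pool.Agent.W_MP_24dbe6_h58.Clos
import Pool.Agent.W_MP_24dbe6_h58.GeoB

set_option autoImplicit false

/-!
Points of the character space are closed; abelian representations are fixed points.
-/

namespace Pool.Agent.W24dbe6

open Quaternion

theorem abOrb_continuous (x : H) : Continuous fun g : H => cj g x :=
  (continuous_id.mul continuous_const).mul continuous_star

/-- compactness of the unit quaternions and `mem_closure_char` -/
theorem closure_singleton_char {n : ℕ} (χ : CharVar n) : closure {χ} = {χ} := by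
  refine Set.Subset.antisymm ?_ subset_closure
  intro ψ hψ
  obtain ⟨ρ, rfl⟩ := Quotient.exists_rep χ
  obtain ⟨σ, rfl⟩ := Quotient.exists_rep ψ
  have h1 := (mem_closure_char σ {cls ρ}).1 hψ
  have hK : IsCompact ((fun (g : H) (i : Fin n) => cj g (toH (ρ (c i)))) ''
      Metric.sphere (0 : H) 1) :=
    (isCompact_sphere (0 : H) 1).image (continuous_pi fun i => abOrb_continuous _)
  have h2 : (fun i : Fin n => toH (σ (c i))) ∈ closure
      ((fun (g : H) (i : Fin n) => cj g (toH (ρ (c i)))) '' Metric.sphere (0 : H) 1) := by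
    rw [Metric.mem_closure_iff]
    intro ε hε
    obtain ⟨τ, hτ, hd⟩ := h1 ε hε
    obtain ⟨g, hg, hc⟩ := (cls_eq_iff ρ τ).1 (Set.mem_singleton_iff.1 hτ).symm
    refine ⟨_, ⟨g, mem_sphere_zero_iff_norm.2 hg, rfl⟩, (dist_pi_lt_iff hε).2 fun i => ?_⟩
    show dist (toH (σ (c i))) (cj g (toH (ρ (c i)))) < ε
    rw [← hc i]
    exact hd i
  rw [hK.isClosed.closure_eq] at h2
  obtain ⟨g, hg, hgc⟩ := h2
  refine Set.mem_singleton_iff.2 ((cls_eq_iff ρ σ).2 ⟨g, mem_sphere_zero_iff_norm.1 hg,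
    fun i => ?_⟩).symm
  exact (congrFun hgc i).symm

theorem closure_finite {n : ℕ} {S : Set (CharVar n)} (h : S.Finite) : closure S = S := by
  have : T1Space (CharVar n) :=
    ⟨fun χ => closure_eq_iff_isClosed.1 (closure_singleton_char χ)⟩
  exact h.isClosed.closure_eq

theorem cls_mem_orb {n : ℕ} (ρ : Pi1 n →* SU2) : cls ρ ∈ orb ρ :=
  ⟨1, fun _ => IsConj.refl _, rfl⟩

/-- conjugate elements have the same image under an abelian representation -/
theorem orb_abelian {n : ℕ} {ρ : Pi1 n →* SU2} (h : ¬ NA (Lst ρ)) : orb ρ = {cls ρ} := by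
  have hcc : ∀ i j : Fin n, Commute (ρ (c i)) (ρ (c j)) := by
    intro i j
    have h1 := not_NA_iff.1 h (i, toH (ρ (c i))) (reps_mem.2 ⟨i, rfl⟩) (j, toH (ρ (c j)))
      (reps_mem.2 ⟨j, rfl⟩)
    apply toH_injective
    rw [toH_mul, toH_mul]
    exact h1.eq
  have hall : ∀ (i : Fin n) (x : Pi1 n), Commute (ρ x) (ρ (c i)) := by
    intro i x
    exact image_induction ρ (P := fun A => Commute A (ρ (c i))) (Commute.one_left _)
      (fun A B hA hB => hA.mul_left hB) (fun A hA => hA.inv_left) (fun j => hcc j i) x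
  refine Set.Subset.antisymm ?_ (Set.singleton_subset_iff.2 (cls_mem_orb ρ))
  rintro χ ⟨φ, hφ, rfl⟩
  refine Set.mem_singleton_iff.2 (congrArg cls (rep_ext fun i => ?_))
  obtain ⟨g, hg⟩ := isConj_iff.1 (hφ i)
  show ρ (φ (c i)) = ρ (c i)
  have h2 : φ (c i) = g⁻¹ * c i * g := by
    obtain ⟨y, hy⟩ : ∃ y, y = c i := ⟨_, rfl⟩
    rw [← hy] at hg ⊢
    obtain ⟨z, hz⟩ : ∃ z, z = φ y := ⟨_, rfl⟩
    rw [← hz] at hg ⊢
    rw [← hg]
    group
  rw [h2, map_mul, map_mul, map_inv, mul_assoc, ← (hall i g).eq, inv_mul_cancel_left]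

theorem cls_mem_relChar {n : ℕ} (ρ : Pi1 n →* SU2) : cls ρ ∈ relChar ρ :=
  ⟨ρ, rfl, fun _ => rfl⟩

end Pool.Agent.W24dbe6
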