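import Pool.Agent.W_MP_24dbe6_h58.Defs

set_option autoImplicit false

/-!
Elementary facts on unit quaternions, conjugation and labelled lists.
-/

namespace Pool.Agent.W24dbe6

open Quaternion

theorem U_star_mul {x : H} (h : U x) : star x * x = 1 := by
  have h' : ‖x‖ = 1 := h
  rw [Quaternion.star_mul_self, Quaternion.normSq_eq_norm_mul_self, h', one_mul]
  rfl

theorem U_mul_star {x : H} (h : U x) : x * star x = 1 := by
  have h' : ‖x‖ = 1 := h
  rw [Quaternion.self_mul_star, Quaternion.normSq_eq_norm_mul_self, h', one_mul]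
  rfl

theorem U_one : U 1 := by
  show ‖(1 : H)‖ = 1
  exact norm_one

theorem U_mul {x y : H} (hx : U x) (hy : U y) : U (x * y) := by
  show ‖x * y‖ = 1
  rw [norm_mul, show ‖x‖ = 1 from hx, show ‖y‖ = 1 from hy, one_mul]

theorem U_star {x : H} (hx : U x) : U (star x) := by
  show ‖star x‖ = 1
  rw [norm_star]
  exact hx

theorem U_pow {x : H} (hx : U x) (n : ℕ) : U (x ^ n) := by
  show ‖x ^ n‖ = 1
  rw [norm_pow, show ‖x‖ = 1 from hx, one_pow]

theorem U_cj {g x : H} (hg : U g) (hx : U x) : U (cj g x) :=
  U_mul (U_mul hg hx) (U_star hg)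

/-- a unit quaternion has real part in `[-1, 1]` -/
theorem U_re_mem {x : H} (hx : U x) : -1 ≤ x.re ∧ x.re ≤ 1 := by
  have h1 : Quaternion.normSq x = 1 := by
    rw [Quaternion.normSq_eq_norm_mul_self, show ‖x‖ = 1 from hx, one_mul]
  rw [Quaternion.normSq_def'] at h1
  have h2 : x.re ^ 2 ≤ 1 := by
    nlinarith [sq_nonneg x.imI, sq_nonneg x.imJ, sq_nonneg x.imK]
  exact abs_le.1 ((sq_le_one_iff_abs_le_one _).1 h2)

theorem U_cos_ang {x : H} (hx : U x) : Real.cos (ang x) = x.re :=
  Real.cos_arccos (U_re_mem hx).1 (U_re_mem hx).2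

theorem ang_mem (x : H) : 0 ≤ ang x ∧ ang x ≤ Real.pi :=
  ⟨Real.arccos_nonneg _, Real.arccos_le_pi _⟩

theorem cj_re {g : H} (hg : U g) (x : H) : (cj g x).re = x.re := by
  have h1 : ∀ a b : H, (a * b).re = (b * a).re := by
    intro a b
    simp only [Quaternion.re_mul]
    ring
  show (g * x * star g).re = x.re
  rw [h1, ← mul_assoc, U_star_mul hg, one_mul]

theorem cj_ang {g : H} (hg : U g) (x : H) : ang (cj g x) = ang x := by
  unfold ang
  rw [cj_re hg]

theorem cj_mul {g : H} (hg : U g) (x y : H) : cj g (x * y) = cj g x * cj g y := by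
  show g * (x * y) * star g = g * x * star g * (g * y * star g)
  have h : star g * g = 1 := U_star_mul hg
  calc g * (x * y) * star g = g * x * 1 * (y * star g) := by
        rw [mul_one]
        simp only [mul_assoc]
    _ = g * x * (star g * g) * (y * star g) := by rw [h]
    _ = g * x * star g * (g * y * star g) := by simp only [mul_assoc]

theorem cj_star (g x : H) : cj g (star x) = star (cj g x) := by
  show g * star x * star g = star (g * x * star g)
  rw [star_mul, star_mul, star_star, mul_assoc]

theorem cj_one_left (x : H) : cj 1 x = x := by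
  show 1 * x * star 1 = x
  rw [star_one, one_mul, mul_one]

theorem cj_one_right {g : H} (hg : U g) : cj g 1 = 1 := by
  show g * 1 * star g = 1
  rw [mul_one]
  exact U_mul_star hg

theorem cj_neg (g x : H) : cj g (-x) = -cj g x := by
  show g * -x * star g = -(g * x * star g)
  rw [mul_neg, neg_mul]

theorem cj_add (g x y : H) : cj g (x + y) = cj g x + cj g y := by
  show g * (x + y) * star g = g * x * star g + g * y * star g
  rw [mul_add, add_mul]

theorem cj_sub (g x y : H) : cj g (x - y) = cj g x - cj g y := by
  show g * (x - y) * star g = g * x * star g - g * y * star g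
  rw [mul_sub, sub_mul]

theorem cj_cj (g h x : H) : cj g (cj h x) = cj (g * h) x := by
  show g * (h * x * star h) * star g = g * h * x * star (g * h)
  rw [star_mul]
  simp only [mul_assoc]

theorem cj_star_cj {g : H} (hg : U g) (x : H) : cj (star g) (cj g x) = x := by
  rw [cj_cj, U_star_mul hg, cj_one_left]

theorem cj_cj_star {g : H} (hg : U g) (x : H) : cj g (cj (star g) x) = x := by
  rw [cj_cj, U_mul_star hg, cj_one_left]

theorem cj_injective {g : H} (hg : U g) : Function.Injective (cj g) := by
  intro x y h
  rw [← cj_star_cj hg x, h, cj_star_cj hg]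

/-- conjugation by a commuting unit does nothing -/
theorem cj_of_commute {g x : H} (hg : U g) (h : Commute g x) : cj g x = x := by
  show g * x * star g = x
  rw [h.eq, mul_assoc, U_mul_star hg, mul_one]

theorem cj_eq_iff {g x : H} (hg : U g) : cj g x = x ↔ Commute g x := by
  refine ⟨fun h => ?_, cj_of_commute hg⟩
  show g * x = x * g
  have h' : g * x * star g = x := h
  calc g * x = g * x * (star g * g) := by rw [U_star_mul hg, mul_one]
    _ = g * x * star g * g := by rw [← mul_assoc]
    _ = x * g := by rw [h']

theorem cj_pow {g : H} (hg : U g) (x : H) (n : ℕ) : cj g (x ^ n) = cj g x ^ n := by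
  induction n with
  | zero => rw [pow_zero, pow_zero, cj_one_right hg]
  | succ n ih => rw [pow_succ, pow_succ, cj_mul hg, ih]

theorem commute_cj {g : H} (hg : U g) (x y : H) : Commute (cj g x) (cj g y) ↔ Commute x y := by
  constructor
  · intro h
    refine cj_injective hg ?_
    rw [cj_mul hg, cj_mul hg]
    exact h.eq
  · intro h
    show cj g x * cj g y = cj g y * cj g x
    rw [← cj_mul hg, ← cj_mul hg, h.eq]

theorem norm_cj {g : H} (hg : U g) (x : H) : ‖cj g x‖ = ‖x‖ := by
  show ‖g * x * star g‖ = ‖x‖
  rw [norm_mul, norm_mul, norm_star, show ‖g‖ = 1 from hg, one_mul, mul_one]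

theorem dist_cj {g : H} (hg : U g) (x y : H) : dist (cj g x) (cj g y) = dist x y := by
  rw [dist_eq_norm, dist_eq_norm, ← cj_sub, norm_cj hg]

/-- conjugation depends continuously on the conjugating element -/
theorem dist_cj_le {g g' : H} (hg : U g) (hg' : U g') {x : H} (hx : U x) :
    dist (cj g x) (cj g' x) ≤ 2 * dist g g' := by
  have h1 : cj g x - cj g' x = (g - g') * x * star g + g' * x * star (g - g') := by
    show g * x * star g - g' * x * star g' = _
    rw [star_sub, mul_sub, sub_mul, sub_mul]
    abel
  have hx' : ‖x‖ = 1 := hx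
  have hg1 : ‖g‖ = 1 := hg
  have hg2 : ‖g'‖ = 1 := hg'
  rw [dist_eq_norm, dist_eq_norm, h1]
  refine (norm_add_le _ _).trans ?_
  rw [norm_mul, norm_mul, norm_mul, norm_mul, norm_star, norm_star, hx', hg1, hg2]
  linarith

theorem inf_cj {g : H} (hg : U g) (x : H) : Inf (cj g x) ↔ Inf x := by
  have h : ∀ m : ℕ, cj g x ^ m = 1 ↔ x ^ m = 1 := by
    intro m
    rw [← cj_pow hg]
    constructor
    · intro h
      exact cj_injective hg (h.trans (cj_one_right hg).symm)
    · intro h
      rw [h, cj_one_right hg]
  constructor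
  · intro hi m hm hx
    exact hi m hm ((h m).2 hx)
  · intro hi m hm hx
    exact hi m hm ((h m).1 hx)

/-- if `x` commutes with `y` then `star x` commutes with `y` (unit `x`) -/
theorem commute_star {x y : H} (hx : U x) : Commute (star x) y ↔ Commute x y := by
  have key : ∀ z : H, U z → Commute z y → Commute (star z) y := by
    intro z hz h
    have h1 := cj_of_commute hz h
    have h2 : cj (star z) y = y := by
      rw [← h1, cj_star_cj hz, h1]
    exact (cj_eq_iff (U_star hz)).1 h2
  constructor
  · intro h
    have := key (star x) (U_star hx) h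
    rwa [star_star] at this
  · exact key x hx

end Pool.Agent.W24dbe6
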