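import Pool.Agent.W_MP_24dbe6_h58.Basic

set_option autoImplicit false

/-!
Elementary facts on labelled lists.
-/

namespace Pool.Agent.W24dbe6

open Quaternion

section Lists

variable {ι : Type}

theorem lab_append (L L' : LL ι) : lab (L ++ L') = lab L ++ lab L' := by
  simp [lab]

theorem lab_cjL (g : H) (L : LL ι) : lab (cjL g L) = lab L := by
  simp [lab, cjL, Function.comp_def]

theorem pr_nil : pr ([] : LL ι) = 1 := by
  simp [pr]

theorem pr_cons (p : ι × H) (L : LL ι) : pr (p :: L) = p.2 * pr L := by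
  simp [pr]

theorem pr_append (L L' : LL ι) : pr (L ++ L') = pr L * pr L' := by
  simp [pr]

theorem cjL_cons (g : H) (p : ι × H) (L : LL ι) : cjL g (p :: L) = (p.1, cj g p.2) :: cjL g L := by
  simp [cjL]

theorem pr_cjL {g : H} (hg : U g) (L : LL ι) : pr (cjL g L) = cj g (pr L) := by
  induction L with
  | nil =>
    rw [pr_nil, cj_one_right hg]
    exact pr_nil
  | cons p L ih => rw [cjL_cons, pr_cons, pr_cons, ih, cj_mul hg]

theorem UL_cons {p : ι × H} {L : LL ι} : UL (p :: L) ↔ U p.2 ∧ UL L := by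
  unfold UL
  exact List.forall_mem_cons

theorem U_pr {L : LL ι} (h : UL L) : U (pr L) := by
  induction L with
  | nil => rw [pr_nil]; exact U_one
  | cons p L ih =>
    rw [pr_cons]
    obtain ⟨h1, h2⟩ := UL_cons.mp h
    exact U_mul h1 (ih h2)

theorem UL_append {L L' : LL ι} : UL (L ++ L') ↔ UL L ∧ UL L' := by
  unfold UL
  exact List.forall_mem_append

theorem UL_cjL {g : H} (hg : U g) {L : LL ι} (h : UL L) : UL (cjL g L) := by
  intro p hp
  obtain ⟨q, hq, rfl⟩ := List.mem_map.mp hp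
  exact U_cj hg (h q hq)

theorem cjL_append (g : H) (L L' : LL ι) : cjL g (L ++ L') = cjL g L ++ cjL g L' := by
  simp [cjL]

theorem cjL_cjL (g h : H) (L : LL ι) : cjL g (cjL h L) = cjL (g * h) L := by
  induction L with
  | nil => rfl
  | cons p L ih => rw [cjL_cons, cjL_cons, cjL_cons, ih, cj_cj]

theorem cjL_one (L : LL ι) : cjL 1 L = L := by
  induction L with
  | nil => rfl
  | cons p L ih => rw [cjL_cons, ih, cj_one_left]

theorem cjL_of_commute {g : H} (hg : U g) {L : LL ι} (h : ∀ p ∈ L, Commute g p.2) :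
    cjL g L = L := by
  induction L with
  | nil => rfl
  | cons p L ih =>
    rw [cjL_cons, cj_of_commute hg (h p List.mem_cons_self),
      ih (fun q hq => h q (List.mem_cons_of_mem _ hq))]

theorem length_cjL (g : H) (L : LL ι) : (cjL g L).length = L.length := by
  simp [cjL]

theorem near_refl (L : LL ι) {ε : ℝ} (hε : 0 < ε) : Near ε L L := by
  unfold Near
  rw [List.forall₂_same]
  intro x _
  exact ⟨rfl, by rw [dist_self]; exact hε⟩

theorem near_mono {L L' : LL ι} {ε δ : ℝ} (h : Near ε L L') (hd : ε ≤ δ) : Near δ L L' :=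
  List.Forall₂.imp (fun _ _ hpq => ⟨hpq.1, hpq.2.trans_le hd⟩) h

theorem near_cons {p p' : ι × H} {L L' : LL ι} {ε : ℝ} (h1 : p.1 = p'.1)
    (h2 : dist p.2 p'.2 < ε) (h : Near ε L L') : Near ε (p :: L) (p' :: L') :=
  List.Forall₂.cons ⟨h1, h2⟩ h

theorem near_trans {L L' L'' : LL ι} {ε δ : ℝ} (h : Near ε L L') (h' : Near δ L' L'') :
    Near (ε + δ) L L'' := by
  unfold Near at h h'
  induction h generalizing L'' with
  | nil =>
    cases h'
    exact List.Forall₂.nil
  | cons hab _ ih =>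
    cases h' with
    | cons hbc hr =>
      exact near_cons (hab.1.trans hbc.1)
        ((dist_triangle _ _ _).trans_lt (add_lt_add hab.2 hbc.2)) (ih hr)

theorem near_symm {L L' : LL ι} {ε : ℝ} (h : Near ε L L') : Near ε L' L := by
  unfold Near at h
  induction h with
  | nil => exact List.Forall₂.nil
  | cons hab _ ih => exact near_cons hab.1.symm (by rw [dist_comm]; exact hab.2) ih

theorem near_append {L₁ L₁' L₂ L₂' : LL ι} {ε : ℝ} (h₁ : Near ε L₁ L₁') (h₂ : Near ε L₂ L₂') :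
    Near ε (L₁ ++ L₂) (L₁' ++ L₂') := by
  unfold Near at h₁
  induction h₁ with
  | nil => exact h₂
  | cons hab _ ih => exact near_cons hab.1 hab.2 ih

theorem near_lab {L L' : LL ι} {ε : ℝ} (h : Near ε L L') : lab L = lab L' := by
  unfold Near at h
  unfold lab
  induction h with
  | nil => rfl
  | cons hab _ ih => rw [List.map_cons, List.map_cons, ih, hab.1]

/-- conjugating a list of unit quaternions by nearby units gives nearby lists -/
theorem near_cjL {g g' : H} (hg : U g) (hg' : U g') {L : LL ι} (hL : UL L) {ε : ℝ}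
    (h : 2 * dist g g' < ε) : Near ε (cjL g L) (cjL g' L) := by
  induction L with
  | nil => exact List.Forall₂.nil
  | cons p L ih =>
    obtain ⟨h1, h2⟩ := UL_cons.mp hL
    rw [cjL_cons, cjL_cons]
    exact near_cons rfl ((dist_cj_le hg hg' h1).trans_lt h) (ih h2)

theorem near_cjL_same {g : H} (hg : U g) {L L' : LL ι} {ε : ℝ} (h : Near ε L L') :
    Near ε (cjL g L) (cjL g L') := by
  unfold Near at h
  induction h with
  | nil => exact List.Forall₂.nil
  | cons hab _ ih =>
    rw [cjL_cons, cjL_cons]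
    exact near_cons hab.1 (by rw [dist_cj hg]; exact hab.2) ih

theorem Adm_UL {θ : ι → ℝ} {L : LL ι} (h : Adm θ L) : UL L := fun p hp => (h.1 p hp).1

/-- the entries of a conjugated list -/
theorem mem_cjL {g : H} {L : LL ι} {p : ι × H} :
    p ∈ cjL g L ↔ ∃ q ∈ L, (q.1, cj g q.2) = p := by
  unfold cjL
  exact List.mem_map

/-- a non-abelian list stays non-abelian after conjugation -/
theorem NA_cjL {g : H} (hg : U g) {L : LL ι} : NA (cjL g L) ↔ NA L := by
  constructor
  · rintro ⟨p, hp, q, hq, hpq⟩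
    obtain ⟨p', hp', rfl⟩ := mem_cjL.mp hp
    obtain ⟨q', hq', rfl⟩ := mem_cjL.mp hq
    exact ⟨p', hp', q', hq', fun h => hpq ((commute_cj hg _ _).mpr h)⟩
  · rintro ⟨p, hp, q, hq, hpq⟩
    exact ⟨(p.1, cj g p.2), mem_cjL.mpr ⟨p, hp, rfl⟩, (q.1, cj g q.2), mem_cjL.mpr ⟨q, hq, rfl⟩,
      fun h => hpq ((commute_cj hg _ _).mp h)⟩

theorem Dih_cjL_aux {g : H} (hg : U g) {L : LL ι} (h : Dih L) : Dih (cjL g L) := by
  obtain ⟨u, hu, hre, hall⟩ := h
  refine ⟨cj g u, U_cj hg hu, by rw [cj_re hg, hre], ?_⟩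
  intro p hp
  obtain ⟨q, hq, rfl⟩ := mem_cjL.mp hp
  rcases hall q hq with h | h
  · left
    rw [← cj_mul hg, ← cj_mul hg, h]
  · right
    rw [← cj_mul hg, ← cj_mul hg, h, cj_neg]

theorem Dih_cjL {g : H} (hg : U g) {L : LL ι} : Dih (cjL g L) ↔ Dih L := by
  refine ⟨fun h => ?_, Dih_cjL_aux hg⟩
  have h2 := Dih_cjL_aux (U_star hg) h
  rwa [cjL_cjL, U_star_mul hg, cjL_one] at h2

theorem Adm_cjL {g : H} (hg : U g) {θ : ι → ℝ} {L : LL ι} (h : Adm θ L) : Adm θ (cjL g L) := by
  refine ⟨?_, ?_⟩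
  · intro p hp
    obtain ⟨q, hq, rfl⟩ := mem_cjL.mp hp
    obtain ⟨h1, h2⟩ := h.1 q hq
    exact ⟨U_cj hg h1, by rw [cj_re hg]; exact h2⟩
  · rw [pr_cjL hg, h.2, cj_one_right hg]

end Lists

end Pool.Agent.W24dbe6
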