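import Pool.Agent.W_MP_24dbe6_h58.RgB
import Pool.Agent.W_MP_24dbe6_h58.BasicL

set_option autoImplicit false

/-!
Boxes of generic triple points (lists of length at least 5).
-/

namespace Pool.Agent.W24dbe6

open Quaternion

variable {ι : Type}

/-- the angle of a quaternion with real part `cos t`, `t` in `[0, π]` -/
theorem Box_ang {x : H} {t : ℝ} (h : x.re = Real.cos t) (h0 : 0 ≤ t) (h1 : t ≤ Real.pi) :
    ang x = t := by
  unfold ang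
  rw [h, Real.arccos_cos h0 h1]

/-- a unit quaternion with a prescribed angle -/
theorem Box_exists_unit (t : ℝ) : ∃ P : H, U P ∧ P.re = Real.cos t := by
  obtain ⟨P, hP⟩ : ∃ P : H, P = ⟨Real.cos t, Real.sin t, 0, 0⟩ := ⟨_, rfl⟩
  refine ⟨P, ?_, by rw [hP]⟩
  have h := Quaternion.normSq_def' P
  rw [Quaternion.normSq_eq_norm_mul_self] at h
  have h3 := Real.sin_sq_add_cos_sq t
  have h2 : ‖P‖ * ‖P‖ = 1 := by
    rw [h, hP]
    simp only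
    linarith
  unfold U
  nlinarith [norm_nonneg P]

/-- labelling a list of quaternions -/
theorem Box_label {θ : ι → ℝ} (N : List ι) : ∀ xs : List H, Has xs (N.map θ) →
    ∃ r : LL ι, lab r = N ∧ r.map Prod.snd = xs ∧ ∀ p ∈ r, U p.2 ∧ p.2.re = Real.cos (θ p.1) := by
  induction N with
  | nil =>
    intro xs h
    unfold Has at h
    rw [List.map_nil, List.forall₂_nil_right_iff] at h
    exact ⟨[], rfl, by rw [h]; rfl, by simp⟩
  | cons i N ih =>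
    intro xs h
    unfold Has at h
    rw [List.map_cons, List.forall₂_cons_right_iff] at h
    obtain ⟨x, xs', hx, hxs', rfl⟩ := h
    obtain ⟨r, h1, h2, h3⟩ := ih xs' hxs'
    refine ⟨(i, x) :: r, ?_, ?_, ?_⟩
    · unfold lab at h1 ⊢
      rw [List.map_cons, h1]
    · rw [List.map_cons, h2]
    · intro p hp
      rcases List.mem_cons.mp hp with rfl | hp
      · exact hx
      · exact h3 p hp

/-- the entries of an admissible list -/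
theorem Box_has {θ : ι → ℝ} (r : LL ι) (h : ∀ p ∈ r, U p.2 ∧ p.2.re = Real.cos (θ p.1)) :
    Has (r.map Prod.snd) ((lab r).map θ) := by
  induction r with
  | nil => exact List.Forall₂.nil
  | cons p r ih =>
    unfold Has lab
    rw [List.map_cons, List.map_cons, List.map_cons]
    exact List.Forall₂.cons (h p (List.mem_cons_self ..))
      (ih (fun q hq => h q (List.mem_cons_of_mem _ hq)))

/-- non-abelian lists, with and without labels -/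
theorem Box_NA {r : LL ι} : NA r ↔ NAl (r.map Prod.snd) := by
  constructor
  · rintro ⟨p, hp, q, hq, h⟩
    exact ⟨p.2, List.mem_map_of_mem hp, q.2, List.mem_map_of_mem hq, h⟩
  · rintro ⟨x, hx, y, hy, h⟩
    obtain ⟨p, hp, rfl⟩ := List.mem_map.mp hx
    obtain ⟨q, hq, rfl⟩ := List.mem_map.mp hy
    exact ⟨p, hp, q, hq, h⟩

theorem Box_ang_star (x : H) : ang (star x) = ang x := by
  unfold ang
  rw [Quaternion.re_star]

/-- Near an interior angle `φ₀` of the pair `(i, j)` there is a box of pairs of angles `(φ, ψ)`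
realised by lists `b₁ :: b₂ :: b₃ :: r` with labels exactly `i, j, k` and `N`.
Proof: `Rg_between` gives `ψ₀`; all conditions are open.  For `(φ, ψ)` in the box: choose a unit `P`
of angle `ψ`, `r` non-abelian with product `star P` (`exists_of_RgI`, note that
`ang (star P) = ang P`), `x y = P` with angles `φ`, `θ k` (`exists_mul`, `not_comm_of_stri`), and
`b₁ b₂ = x`. -/
theorem box {θ : ι → ℝ} (hθ : ∀ i, 0 < θ i ∧ θ i < Real.pi) {i j k : ι} {N : List ι}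
    (hN : 2 ≤ N.length) {φ₀ : ℝ} (h1 : STri (θ i) (θ j) φ₀) (h2 : RgI (θ k :: N.map θ) φ₀) :
    ∃ δ : ℝ, 0 < δ ∧ ∃ ψ₀ : ℝ, ∀ φ ψ : ℝ, |φ - φ₀| < δ → |ψ - ψ₀| < δ →
      ∃ (b₁ b₂ b₃ : ι × H) (r : LL ι), Adm θ (b₁ :: b₂ :: b₃ :: r) ∧ b₁.1 = i ∧ b₂.1 = j ∧
        b₃.1 = k ∧ lab r = N ∧ ang (b₁.2 * b₂.2) = φ ∧ ang (b₁.2 * b₂.2 * b₃.2) = ψ ∧
        ¬ Commute b₁.2 b₂.2 ∧ ¬ Commute (b₁.2 * b₂.2) b₃.2 ∧ NA r := by
  have hl : ∀ b ∈ N.map θ, 0 < b ∧ b < Real.pi := by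
    intro b hb
    obtain ⟨c, -, rfl⟩ := List.mem_map.mp hb
    exact hθ c
  have hlen : 2 ≤ (N.map θ).length := by rwa [List.length_map]
  obtain ⟨ψ₀, h3, ψ₁, hψ₁, ψ₂, hψ₂, h4, h5⟩ := Rg_between (hθ k) hl hlen h2
  obtain ⟨a1, a2, a3, a4⟩ := h1
  obtain ⟨c1, c2, c3, c4⟩ := h3
  -- the size of the box
  obtain ⟨δ, hδ, d1, d2, d3, d4, e1, e2, e3, e4, f1, f2⟩ : ∃ δ : ℝ, 0 < δ ∧
      δ ≤ θ j + φ₀ - θ i ∧ δ ≤ θ i + φ₀ - θ j ∧ δ ≤ θ i + θ j - φ₀ ∧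
      δ ≤ 2 * Real.pi - (θ i + θ j + φ₀) ∧
      2 * δ ≤ ψ₀ + φ₀ - θ k ∧ 2 * δ ≤ θ k + φ₀ - ψ₀ ∧ 2 * δ ≤ θ k + ψ₀ - φ₀ ∧
      2 * δ ≤ 2 * Real.pi - (θ k + ψ₀ + φ₀) ∧ δ ≤ ψ₀ - ψ₁ ∧ δ ≤ ψ₂ - ψ₀ := by
    refine ⟨min (min (min (θ j + φ₀ - θ i) (θ i + φ₀ - θ j)) (min (θ i + θ j - φ₀)
      (2 * Real.pi - (θ i + θ j + φ₀)))) (min (min (min ((ψ₀ + φ₀ - θ k) / 2)
      ((θ k + φ₀ - ψ₀) / 2)) (min ((θ k + ψ₀ - φ₀) / 2)
      ((2 * Real.pi - (θ k + ψ₀ + φ₀)) / 2))) (min (ψ₀ - ψ₁) (ψ₂ - ψ₀))), ?_, ?_⟩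
    · refine lt_min (lt_min (lt_min ?_ ?_) (lt_min ?_ ?_))
        (lt_min (lt_min (lt_min ?_ ?_) (lt_min ?_ ?_)) (lt_min ?_ ?_)) <;> linarith
    · set m := min (min (min (θ j + φ₀ - θ i) (θ i + φ₀ - θ j)) (min (θ i + θ j - φ₀)
        (2 * Real.pi - (θ i + θ j + φ₀)))) (min (min (min ((ψ₀ + φ₀ - θ k) / 2)
        ((θ k + φ₀ - ψ₀) / 2)) (min ((θ k + ψ₀ - φ₀) / 2)
        ((2 * Real.pi - (θ k + ψ₀ + φ₀)) / 2))) (min (ψ₀ - ψ₁) (ψ₂ - ψ₀))) with hm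
      have hm' := hm.le
      simp only [le_min_iff] at hm'
      obtain ⟨⟨⟨m1, m2⟩, m3, m4⟩, ⟨⟨m5, m6⟩, m7, m8⟩, m9, m10⟩ := hm'
      refine ⟨m1, m2, m3, m4, ?_, ?_, ?_, ?_, m9, m10⟩ <;> linarith
  refine ⟨δ, hδ, ψ₀, ?_⟩
  intro φ ψ hφ hψ
  rw [abs_lt] at hφ hψ
  obtain ⟨p1, p2⟩ := hφ
  obtain ⟨q1, q2⟩ := hψ
  have g1 : STri (θ i) (θ j) φ := ⟨by linarith, by linarith, by linarith, by linarith⟩
  have g2 : STri φ (θ k) ψ := ⟨by linarith, by linarith, by linarith, by linarith⟩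
  have g3 : RgI (N.map θ) ψ := ⟨ψ₁, hψ₁, ψ₂, hψ₂, by linarith, by linarith⟩
  have hφ0 : 0 ≤ φ := by linarith [g2.1, g2.2.1, g2.2.2.1, g2.2.2.2]
  have hφπ : φ ≤ Real.pi := by linarith [g2.1, g2.2.1, g2.2.2.1, g2.2.2.2]
  have hψ0 : 0 ≤ ψ := by linarith [g2.1, g2.2.1, g2.2.2.1, g2.2.2.2]
  have hψπ : ψ ≤ Real.pi := by linarith [g2.1, g2.2.1, g2.2.2.1, g2.2.2.2]
  obtain ⟨P, hP, hPre⟩ := Box_exists_unit ψ
  have hPa : ang P = ψ := Box_ang hPre hψ0 hψπ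
  have hPs : ang (star P) = ψ := by rw [Box_ang_star, hPa]
  obtain ⟨xs, hx1, hx2, hx3⟩ := exists_of_RgI hl hlen (U_star hP) (by rw [hPs]; exact g3)
  obtain ⟨r, hr1, hr2, hr3⟩ := Box_label N xs hx1
  obtain ⟨x, y, hxU, hyU, hxre, hyre, hxy⟩ := exists_mul hP ⟨hφ0, hφπ⟩
    ⟨(hθ k).1.le, (hθ k).2.le⟩ (by
      rw [hPa]; exact ⟨g2.1.le, g2.2.1.le, g2.2.2.1.le, g2.2.2.2.le⟩)
  have hxa : ang x = φ := Box_ang hxre hφ0 hφπ
  have hya : ang y = θ k := Box_ang hyre (hθ k).1.le (hθ k).2.le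
  obtain ⟨b₁, b₂, hb1, hb2, hb1re, hb2re, hb⟩ := exists_mul hxU ⟨(hθ i).1.le, (hθ i).2.le⟩
    ⟨(hθ j).1.le, (hθ j).2.le⟩ (by
      rw [hxa]; exact ⟨g1.1.le, g1.2.1.le, g1.2.2.1.le, g1.2.2.2.le⟩)
  have hb1a : ang b₁ = θ i := Box_ang hb1re (hθ i).1.le (hθ i).2.le
  have hb2a : ang b₂ = θ j := Box_ang hb2re (hθ j).1.le (hθ j).2.le
  refine ⟨(i, b₁), (j, b₂), (k, y), r, ⟨?_, ?_⟩, rfl, rfl, rfl, hr1, ?_, ?_, ?_, ?_, ?_⟩
  · intro p hp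
    rcases List.mem_cons.mp hp with rfl | hp
    · exact ⟨hb1, hb1re⟩
    · rcases List.mem_cons.mp hp with rfl | hp
      · exact ⟨hb2, hb2re⟩
      · rcases List.mem_cons.mp hp with rfl | hp
        · exact ⟨hyU, hyre⟩
        · exact hr3 p hp
  · have hprr : pr r = star P := by
      unfold pr
      rw [hr2, hx2]
    rw [pr_cons, pr_cons, pr_cons, hprr]
    change b₁ * (b₂ * (y * star P)) = 1
    rw [← mul_assoc, hb, ← mul_assoc, hxy, U_mul_star hP]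
  · change ang (b₁ * b₂) = φ
    rw [hb, hxa]
  · change ang (b₁ * b₂ * y) = ψ
    rw [hb, hxy, hPa]
  · change ¬ Commute b₁ b₂
    apply not_comm_of_stri hb1 hb2
    rw [hb1a, hb2a, hb, hxa]
    exact g1
  · change ¬ Commute (b₁ * b₂) y
    rw [hb]
    apply not_comm_of_stri hxU hyU
    rw [hxa, hya, hxy, hPa]
    exact g2
  · rw [Box_NA, hr2]
    exact hx3

/-- a list `b₁ :: b₂ :: r` with `b₁, b₂` not commuting and `r` non-abelian has an interior angle -/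
theorem interior_of {θ : ι → ℝ} (hθ : ∀ i, 0 < θ i ∧ θ i < Real.pi) {b₁ b₂ : ι × H} {r : LL ι}
    (h : Adm θ (b₁ :: b₂ :: r)) (hc : ¬ Commute b₁.2 b₂.2) (hr : NA r) :
    STri (θ b₁.1) (θ b₂.1) (ang (b₁.2 * b₂.2)) ∧
      RgI ((lab r).map θ) (ang (b₁.2 * b₂.2)) := by
  obtain ⟨h1, h2⟩ := h
  have e1 := h1 b₁ (List.mem_cons_self ..)
  have e2 := h1 b₂ (List.mem_cons_of_mem _ (List.mem_cons_self ..))
  have e3 : ∀ p ∈ r, U p.2 ∧ p.2.re = Real.cos (θ p.1) := fun p hp =>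
    h1 p (List.mem_cons_of_mem _ (List.mem_cons_of_mem _ hp))
  have a1 : ang b₁.2 = θ b₁.1 := Box_ang e1.2 (hθ _).1.le (hθ _).2.le
  have a2 : ang b₂.2 = θ b₂.1 := Box_ang e2.2 (hθ _).1.le (hθ _).2.le
  have hUb : U (b₁.2 * b₂.2) := U_mul e1.1 e2.1
  have hpr : pr r = star (b₁.2 * b₂.2) := by
    rw [pr_cons, pr_cons, ← mul_assoc] at h2
    calc pr r = (star (b₁.2 * b₂.2) * (b₁.2 * b₂.2)) * pr r := by
          rw [U_star_mul hUb, one_mul]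
      _ = star (b₁.2 * b₂.2) * (b₁.2 * b₂.2 * pr r) := by rw [mul_assoc]
      _ = star (b₁.2 * b₂.2) := by rw [h2, mul_one]
  have hpr' : (r.map Prod.snd).prod = star (b₁.2 * b₂.2) := hpr
  constructor
  · have := stri_of_mul e1.1 e2.1 hc
    rwa [a1, a2] at this
  · have hNC : NC (r.map Prod.snd).prod := by
      rw [hpr', NC_star]
      exact (NC_of_not_commute e1.1 e2.1 hc).2.2
    have := RgI_of_NAl (Box_has r e3) (by
      intro b hb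
      obtain ⟨c, -, rfl⟩ := List.mem_map.mp hb
      exact hθ c) (Box_NA.mp hr) hNC
    rwa [hpr', Box_ang_star] at this

end Pool.Agent.W24dbe6
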