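import Pool.Agent.W_MP_24dbe6_h58.GeoTri
import Pool.Agent.W_MP_24dbe6_h58.GeoEx
import Pool.Agent.W_MP_24dbe6_h58.GeoFlow
import Pool.Agent.W_MP_24dbe6_h58.GeoInf
import Pool.Agent.W_MP_24dbe6_h58.BasicL
import Pool.Agent.W_MP_24dbe6_h58.DefsB

set_option autoImplicit false

/-!
The local families for lists of length 4.
-/

namespace Pool.Agent.W24dbe6

open Quaternion

variable {ι : Type}

theorem box4_stri {a b φ : ℝ} (ha : 0 < a ∧ a < Real.pi) (hb : 0 < b ∧ b < Real.pi)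
    (h : STri a b φ) : 0 < φ ∧ φ < Real.pi ∧
      (Real.cos b - Real.cos a * Real.cos φ) ^ 2 < Real.sin a ^ 2 * Real.sin φ ^ 2 := by
  obtain ⟨h1, h2, h3, h4⟩ := h
  refine ⟨by linarith, by linarith, ?_⟩
  have hup : Real.cos b < Real.cos (a - φ) := by
    rw [← Real.cos_abs (a - φ)]
    exact GeoTri_cos_lt (abs_nonneg _) hb.2.le (abs_lt.2 ⟨by linarith, by linarith⟩)
  have hlow : Real.cos (a + φ) < Real.cos b := by
    rcases le_total (a + φ) Real.pi with hle | hle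
    · exact GeoTri_cos_lt hb.1.le hle h2
    · rw [← Real.cos_two_pi_sub (a + φ)]
      exact GeoTri_cos_lt hb.1.le (by linarith) (by linarith)
  rw [Real.cos_sub] at hup
  rw [Real.cos_add] at hlow
  rw [← mul_pow]
  exact sq_lt_sq' (by linarith) (by linarith)

theorem box4_U_iff {x : H} :
    U x ↔ x.re ^ 2 + x.imI ^ 2 + x.imJ ^ 2 + x.imK ^ 2 = 1 := by
  constructor
  · exact GeoTri_sq
  · intro h
    have h2 : normSq x = 1 := by
      rw [normSq_def']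
      exact h
    rw [normSq_eq_norm_mul_self] at h2
    have h0 : 0 ≤ ‖x‖ := norm_nonneg x
    show ‖x‖ = 1
    nlinarith

theorem box4_mk (a b c d : ℝ) : ∃ x : H, x.re = a ∧ x.imI = b ∧ x.imJ = c ∧ x.imK = d :=
  ⟨⟨a, b, c, d⟩, rfl, rfl, rfl, rfl⟩

/-- the explicit quadruple -/
theorem box4_build {a b c d φ s q s' q' : ℝ}
    (h1 : s * Real.sin φ = Real.cos b - Real.cos a * Real.cos φ)
    (h2 : s ^ 2 + q ^ 2 = Real.sin a ^ 2)
    (h3 : -(s' * Real.sin φ) = Real.cos d - Real.cos c * Real.cos φ)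
    (h4 : s' ^ 2 + q' ^ 2 = Real.sin c ^ 2) (ψ : ℝ) :
    ∃ x₁ x₂ x₃ x₄ w : H, U x₁ ∧ U x₂ ∧ U x₃ ∧ U x₄ ∧ U w ∧ x₁.re = Real.cos a ∧
      x₂.re = Real.cos b ∧
      x₃.re = Real.cos c ∧ x₄.re = Real.cos d ∧ x₁ * x₂ = w ∧ x₃ * x₄ = star w ∧
      w.re = Real.cos φ ∧
      (x₂ * x₃).re = Real.cos b * Real.cos c -
        (Real.cos a * Real.sin φ - s * Real.cos φ) * s' + q * q' * Real.cos ψ := by
  have ea := Real.sin_sq_add_cos_sq a
  have ec := Real.sin_sq_add_cos_sq c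
  have ef := Real.sin_sq_add_cos_sq φ
  have ep := Real.sin_sq_add_cos_sq (ψ - φ)
  obtain ⟨x₁, xr, xI, xJ, xK⟩ := box4_mk (Real.cos a) s q 0
  obtain ⟨w, wr, wI, wJ, wK⟩ := box4_mk (Real.cos φ) (Real.sin φ) 0 0
  obtain ⟨x₃, zr, zI, zJ, zK⟩ := box4_mk (Real.cos c) s' (q' * Real.cos (ψ - φ))
    (q' * Real.sin (ψ - φ))
  have hU1 : U x₁ := by
    rw [box4_U_iff, xr, xI, xJ, xK]
    linarith
  have hUw : U w := by
    rw [box4_U_iff, wr, wI, wJ, wK]
    linarith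
  have hU3 : U x₃ := by
    rw [box4_U_iff, zr, zI, zJ, zK]
    linear_combination h4 + ec + q' ^ 2 * ep
  refine ⟨x₁, star x₁ * w, x₃, star x₃ * star w, w, hU1, U_mul (U_star hU1) hUw, hU3,
    U_mul (U_star hU3) (U_star hUw), hUw, xr, ?_, zr, ?_, ?_, ?_, wr, ?_⟩
  · rw [Quaternion.re_mul]
    simp only [Quaternion.re_star, Quaternion.imI_star, Quaternion.imJ_star,
      Quaternion.imK_star, xr, xI, xJ, xK, wr, wI, wJ, wK]
    linear_combination h1
  · rw [Quaternion.re_mul]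
    simp only [Quaternion.re_star, Quaternion.imI_star, Quaternion.imJ_star,
      Quaternion.imK_star, zr, zI, zJ, zK, wr, wI, wJ, wK]
    linear_combination h3
  · rw [← mul_assoc, U_mul_star hU1, one_mul]
  · rw [← mul_assoc, U_mul_star hU3, one_mul]
  · have hc : Real.cos ψ = Real.cos φ * Real.cos (ψ - φ) - Real.sin φ * Real.sin (ψ - φ) := by
      rw [← Real.cos_add]
      congr 1
      ring
    rw [hc]
    simp only [Quaternion.re_mul, Quaternion.imI_mul, Quaternion.imJ_mul, Quaternion.imK_mul,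
      Quaternion.re_star, Quaternion.imI_star, Quaternion.imJ_star, Quaternion.imK_star,
      xr, xI, xJ, xK, wr, wI, wJ, wK, zr, zI, zJ, zK]
    linear_combination (Real.cos c) * h1

/-- the real part of the product of two commuting units -/
theorem box4_comm_re {x y : H} (hx : U x) (hy : U y) (hc : Commute x y) :
    (x * y).re = Real.cos (ang x + ang y) ∨ (x * y).re = Real.cos (ang x - ang y) := by
  have hl := GeoTri_lagrange hx hy
  rw [GeoTri_comm] at hc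
  rw [hc.1, hc.2.1, hc.2.2] at hl
  have h1 : (Real.sin (ang x) * Real.sin (ang y)) ^ 2 =
      (x.imI * y.imI + x.imJ * y.imJ + x.imK * y.imK) ^ 2 := by
    rw [hl]; ring
  rw [← U_cos_ang (U_mul hx hy), GeoTri_cos hx hy, Real.cos_add, Real.cos_sub]
  rcases sq_eq_sq_iff_eq_or_eq_neg.1 h1 with h2 | h2
  · left; rw [h2]
  · right; rw [h2]; ring

theorem box4_ang {x : H} {a : ℝ} (ha : 0 < a ∧ a < Real.pi) (h : x.re = Real.cos a) :
    ang x = a := by
  unfold ang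
  rw [h]
  exact Real.arccos_cos ha.1.le ha.2.le

theorem box4_stri_open {a b φ₀ : ℝ} (h : STri a b φ₀) : ∀ᶠ φ in nhds φ₀, STri a b φ := by
  obtain ⟨h1, h2, h3, h4⟩ := h
  have hid : ContinuousAt (fun φ : ℝ => φ) φ₀ := continuousAt_id
  have e1 : ∀ᶠ φ in nhds φ₀, a < b + φ :=
    (continuousAt_const (y := b).add hid).eventually (lt_mem_nhds h1)
  have e2 : ∀ᶠ φ in nhds φ₀, b < a + φ :=
    (continuousAt_const (y := a).add hid).eventually (lt_mem_nhds h2)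
  have e3 : ∀ᶠ φ in nhds φ₀, φ < a + b := hid.eventually (gt_mem_nhds h3)
  have e4 : ∀ᶠ φ in nhds φ₀, a + b + φ < 2 * Real.pi :=
    (continuousAt_const (y := a + b).add hid).eventually (gt_mem_nhds h4)
  filter_upwards [e1, e2, e3, e4] with φ k1 k2 k3 k4
  exact ⟨k1, k2, k3, k4⟩

/-- Given `φ₀` with strict triangle inequalities for both pairs there are `δ > 0` and a generic value
`y₀` such that every `φ` near `φ₀` is realised by a list `b₁, b₂, b₃, b₄` with `ang (b₁ b₂) = φ`,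
`(b₂ b₃).re = y₀`, `b₂ b₃` of infinite order, and no two cyclic neighbours commuting.
Proof: for `φ` near `φ₀` put `w = cos φ + sin φ i` (the quaternion unit `i`), and let `x₁(φ)`,
`x₂(φ) = star x₁ * w` with angles `θ i, θ j` (explicit continuous formula:
`x₁ = cos (θ i) + s i + q j`, `s = (cos (θ j) - cos (θ i) cos φ) / sin φ`, `q = √(sin² (θ i) - s²) > 0`),
similarly `x₃ x₄ = star w`.  With `t = cos a + sin a i` consider `(x₁, x₂, cj t x₃, cj t x₄)` and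
`Y(φ, a) = (x₂ * cj t x₃).re`, continuous in `(φ, a)`, and not constant in `a` for `φ = φ₀`
(`flow_fin`).  So there are `a₁, a₂` with `Y(φ₀, a₁) < Y(φ₀, a₂)`; choose `y₀` strictly between, outside
the countable set `bad_countable` and different from `cos (θ j ± θ k)`, `cos (θ l ± θ i)` (these are the
only possible values if `b₂, b₃` resp. `b₄, b₁` commute; note `b₄ b₁ = star (b₂ b₃)` up to
conjugation, same real part).  For `φ` near `φ₀` one still has `Y(φ, a₁) < y₀ < Y(φ, a₂)`, use the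
intermediate value theorem in `a`. -/
theorem box4 {θ : ι → ℝ} (hθ : ∀ i, 0 < θ i ∧ θ i < Real.pi) {i j k l : ι} {φ₀ : ℝ}
    (h1 : STri (θ i) (θ j) φ₀) (h2 : STri (θ k) (θ l) φ₀) :
    ∃ δ : ℝ, 0 < δ ∧ ∃ y₀ : ℝ, ∀ φ : ℝ, |φ - φ₀| < δ →
      ∃ b₁ b₂ b₃ b₄ : ι × H, Adm θ [b₁, b₂, b₃, b₄] ∧ b₁.1 = i ∧ b₂.1 = j ∧ b₃.1 = k ∧ b₄.1 = l ∧
        ang (b₁.2 * b₂.2) = φ ∧ (b₂.2 * b₃.2).re = y₀ ∧ Inf (b₂.2 * b₃.2) ∧
        ¬ Commute b₁.2 b₂.2 ∧ ¬ Commute b₂.2 b₃.2 ∧ ¬ Commute b₃.2 b₄.2 ∧ ¬ Commute b₄.2 b₁.2 := by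
  obtain ⟨hφ0, hφπ, hq1⟩ := box4_stri (hθ i) (hθ j) h1
  obtain ⟨-, -, hq3⟩ := box4_stri (hθ k) (hθ l) h2
  have hsin : 0 < Real.sin φ₀ := Real.sin_pos_of_pos_of_lt_pi hφ0 hφπ
  let s : ℝ → ℝ := fun φ => (Real.cos (θ j) - Real.cos (θ i) * Real.cos φ) / Real.sin φ
  let s' : ℝ → ℝ := fun φ => -((Real.cos (θ l) - Real.cos (θ k) * Real.cos φ) / Real.sin φ)
  let D : ℝ → ℝ := fun φ => Real.sin (θ i) ^ 2 - s φ ^ 2
  let D' : ℝ → ℝ := fun φ => Real.sin (θ k) ^ 2 - s' φ ^ 2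
  let K : ℝ → ℝ := fun φ => Real.cos (θ j) * Real.cos (θ k) -
    (Real.cos (θ i) * Real.sin φ - s φ * Real.cos φ) * s' φ
  let Q : ℝ → ℝ := fun φ => Real.sqrt (D φ) * Real.sqrt (D' φ)
  have hsc : ContinuousAt Real.sin φ₀ := Real.continuous_sin.continuousAt
  have hcc : ContinuousAt Real.cos φ₀ := Real.continuous_cos.continuousAt
  have cs : ContinuousAt s φ₀ :=
    (continuousAt_const.sub (continuousAt_const.mul hcc)).div hsc hsin.ne'
  have cs' : ContinuousAt s' φ₀ :=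
    ((continuousAt_const.sub (continuousAt_const.mul hcc)).div hsc hsin.ne').neg
  have cD : ContinuousAt D φ₀ := continuousAt_const.sub (cs.pow 2)
  have cD' : ContinuousAt D' φ₀ := continuousAt_const.sub (cs'.pow 2)
  have cK : ContinuousAt K φ₀ :=
    continuousAt_const.sub (((continuousAt_const.mul hsc).sub (cs.mul hcc)).mul cs')
  have cQ : ContinuousAt Q φ₀ := cD.sqrt.mul cD'.sqrt
  have hD : 0 < D φ₀ := by
    show 0 < Real.sin (θ i) ^ 2 -
      ((Real.cos (θ j) - Real.cos (θ i) * Real.cos φ₀) / Real.sin φ₀) ^ 2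
    rw [div_pow, sub_pos, div_lt_iff₀ (pow_pos hsin 2)]
    exact hq1
  have hD' : 0 < D' φ₀ := by
    show 0 < Real.sin (θ k) ^ 2 -
      (-((Real.cos (θ l) - Real.cos (θ k) * Real.cos φ₀) / Real.sin φ₀)) ^ 2
    rw [neg_sq, div_pow, sub_pos, div_lt_iff₀ (pow_pos hsin 2)]
    exact hq3
  have hQ : 0 < Q φ₀ := mul_pos (Real.sqrt_pos.2 hD) (Real.sqrt_pos.2 hD')
  -- the generic value
  let B : Set ℝ := {v : ℝ | ∃ x : H, U x ∧ x.re = v ∧ ¬ Inf x} ∪
    {Real.cos (θ j + θ k), Real.cos (θ j - θ k), Real.cos (θ l + θ i), Real.cos (θ l - θ i)}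
  have hB : B.Countable := bad_countable.union (Set.toFinite _).countable
  obtain ⟨y₀, hy₀, hy1, hy2⟩ := (hB.dense_compl ℝ).exists_between
    (show K φ₀ - Q φ₀ < K φ₀ + Q φ₀ by linarith)
  have ev1 : ∀ᶠ φ in nhds φ₀, K φ - Q φ < y₀ := (cK.sub cQ).eventually (gt_mem_nhds hy1)
  have ev2 : ∀ᶠ φ in nhds φ₀, y₀ < K φ + Q φ := (cK.add cQ).eventually (lt_mem_nhds hy2)
  have ev3 : ∀ᶠ φ in nhds φ₀, 0 < D φ := cD.eventually (lt_mem_nhds hD)
  have ev4 : ∀ᶠ φ in nhds φ₀, 0 < D' φ := cD'.eventually (lt_mem_nhds hD')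
  have hall := (box4_stri_open h1).and ((box4_stri_open h2).and
    (ev1.and (ev2.and (ev3.and ev4))))
  obtain ⟨δ, hδ, hall⟩ := Metric.eventually_nhds_iff.1 hall
  refine ⟨δ, hδ, y₀, fun φ hφ => ?_⟩
  obtain ⟨k1, k2, k3, k4, k5, k6⟩ := hall (y := φ) (by rw [Real.dist_eq]; exact hφ)
  obtain ⟨hφ0', hφπ', -⟩ := box4_stri (hθ i) (hθ j) k1
  have hsin' : Real.sin φ ≠ 0 := (Real.sin_pos_of_pos_of_lt_pi hφ0' hφπ').ne'
  have hQφ : 0 < Q φ := mul_pos (Real.sqrt_pos.2 k5) (Real.sqrt_pos.2 k6)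
  have hr1 : -1 ≤ (y₀ - K φ) / Q φ := by
    rw [le_div_iff₀ hQφ]
    linarith
  have hr2 : (y₀ - K φ) / Q φ ≤ 1 := by
    rw [div_le_iff₀ hQφ]
    linarith
  obtain ⟨x₁, x₂, x₃, x₄, w, u1, u2, u3, u4, uw, r1, r2, r3, r4, p1, p2, rw', rY⟩ :=
    box4_build (a := θ i) (b := θ j) (c := θ k) (d := θ l) (φ := φ) (s := s φ)
      (q := Real.sqrt (D φ)) (s' := s' φ) (q' := Real.sqrt (D' φ))
      (by
        show (Real.cos (θ j) - Real.cos (θ i) * Real.cos φ) / Real.sin φ * Real.sin φ = _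
        rw [div_mul_cancel₀ _ hsin'])
      (by
        rw [Real.sq_sqrt k5.le]
        show s φ ^ 2 + (Real.sin (θ i) ^ 2 - s φ ^ 2) = _
        ring)
      (by
        show -(-((Real.cos (θ l) - Real.cos (θ k) * Real.cos φ) / Real.sin φ) * Real.sin φ) = _
        rw [neg_mul, neg_neg, div_mul_cancel₀ _ hsin'])
      (by
        rw [Real.sq_sqrt k6.le]
        show s' φ ^ 2 + (Real.sin (θ k) ^ 2 - s' φ ^ 2) = _
        ring)
      (Real.arccos ((y₀ - K φ) / Q φ))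
  have hY : (x₂ * x₃).re = y₀ := by
    rw [rY, Real.cos_arccos hr1 hr2]
    show K φ + Q φ * ((y₀ - K φ) / Q φ) = y₀
    rw [mul_div_cancel₀ _ hQφ.ne']
    ring
  have hprod : x₁ * x₂ * (x₃ * x₄) = 1 := by
    rw [p1, p2]
    exact U_mul_star uw
  have hx41 : (x₄ * x₁).re = y₀ := by
    have e1 : x₂ * x₃ = star (x₄ * x₁) := by
      rw [star_mul]
      calc x₂ * x₃ = (star x₁ * x₁) * (x₂ * x₃) * (x₄ * star x₄) := by
            rw [U_star_mul u1, U_mul_star u4, one_mul, mul_one]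
        _ = star x₁ * (x₁ * x₂ * (x₃ * x₄)) * star x₄ := by simp only [mul_assoc]
        _ = star x₁ * star x₄ := by rw [hprod, mul_one]
    rw [← hY, e1, Quaternion.re_star]
  have ha1 : ang x₁ = θ i := box4_ang (hθ i) r1
  have ha2 : ang x₂ = θ j := box4_ang (hθ j) r2
  have ha3 : ang x₃ = θ k := box4_ang (hθ k) r3
  have ha4 : ang x₄ = θ l := box4_ang (hθ l) r4
  have ha12 : ang (x₁ * x₂) = φ := by
    rw [p1]
    exact box4_ang ⟨hφ0', hφπ'⟩ rw'
  have ha34 : ang (x₃ * x₄) = φ := by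
    rw [p2]
    exact box4_ang ⟨hφ0', hφπ'⟩ (by rw [Quaternion.re_star]; exact rw')
  have hnB : y₀ ∉ B := hy₀
  have nb1 : ¬ ∃ x : H, U x ∧ x.re = y₀ ∧ ¬ Inf x := fun h => hnB (Or.inl h)
  have nb2 : y₀ ≠ Real.cos (θ j + θ k) := fun h => hnB (Or.inr (by simp [h]))
  have nb3 : y₀ ≠ Real.cos (θ j - θ k) := fun h => hnB (Or.inr (by simp [h]))
  have nb4 : y₀ ≠ Real.cos (θ l + θ i) := fun h => hnB (Or.inr (by simp [h]))
  have nb5 : y₀ ≠ Real.cos (θ l - θ i) := fun h => hnB (Or.inr (by simp [h]))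
  refine ⟨(i, x₁), (j, x₂), (k, x₃), (l, x₄), ⟨?_, ?_⟩, rfl, rfl, rfl, rfl, ha12, hY, ?_, ?_, ?_,
    ?_, ?_⟩
  · intro p hp
    simp only [List.mem_cons, List.not_mem_nil, or_false] at hp
    rcases hp with rfl | rfl | rfl | rfl
    · exact ⟨u1, r1⟩
    · exact ⟨u2, r2⟩
    · exact ⟨u3, r3⟩
    · exact ⟨u4, r4⟩
  · rw [pr_cons, pr_cons, pr_cons, pr_cons, pr_nil, mul_one, ← mul_assoc]
    exact hprod
  · by_contra hi
    exact nb1 ⟨x₂ * x₃, U_mul u2 u3, hY, hi⟩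
  · exact not_comm_of_stri u1 u2 (by rw [ha1, ha2, ha12]; exact k1)
  · intro hc
    rcases box4_comm_re u2 u3 hc with h | h
    · rw [hY, ha2, ha3] at h
      exact nb2 h
    · rw [hY, ha2, ha3] at h
      exact nb3 h
  · exact not_comm_of_stri u3 u4 (by rw [ha3, ha4, ha34]; exact k2)
  · intro hc
    rcases box4_comm_re u4 u1 hc with h | h
    · rw [hx41, ha4, ha1] at h
      exact nb4 h
    · rw [hx41, ha4, ha1] at h
      exact nb5 h

end Pool.Agent.W24dbe6
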