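import Pool.Agent.W_MP_24dbe6_h58.Statement

set_option autoImplicit false

/-!
The elementary braid automorphisms of the fundamental group.
-/

namespace Pool.Agent.W24dbe6

/-- only two adjacent factors change, with the same product -/
theorem braid_prod_eq {G : Type*} [Monoid G] : ∀ (n k : ℕ) (hk : k + 1 < n) (f g : Fin n → G),
    f ⟨k, by omega⟩ * f ⟨k + 1, hk⟩ = g ⟨k, by omega⟩ * g ⟨k + 1, hk⟩ →
    (∀ j : Fin n, j.1 ≠ k → j.1 ≠ k + 1 → f j = g j) →
    (List.ofFn f).prod = (List.ofFn g).prod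
  | 0, k, hk, _, _, _, _ => absurd hk (by omega)
  | 1, k, hk, _, _, _, _ => absurd hk (by omega)
  | n + 2, 0, hk, f, g, h1, h2 => by
    rw [List.ofFn_succ, List.ofFn_succ, List.ofFn_succ (f := g), List.ofFn_succ]
    simp only [List.prod_cons]
    rw [← mul_assoc, ← mul_assoc]
    have e1 : f 0 * f (Fin.succ 0) = g 0 * g (Fin.succ 0) := h1
    rw [e1]
    congr 2
    refine List.ofFn_inj.2 ?_
    funext i
    exact h2 _ (by simp) (by simp)
  | n + 2, k + 1, hk, f, g, h1, h2 => by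
    rw [List.ofFn_succ, List.ofFn_succ (f := g)]
    simp only [List.prod_cons]
    rw [h2 0 (by simp) (by simp)]
    congr 1
    refine braid_prod_eq (n + 1) k (by omega) _ _ h1 ?_
    intro j hj1 hj2
    exact h2 _ (by simpa using hj1) (by simpa using hj2)

theorem prod_c (n : ℕ) : (List.ofFn (c : Fin n → Pi1 n)).prod = 1 := by
  have h : PresentedGroup.mk ({(List.ofFn fun i : Fin n => FreeGroup.of i).prod} :
      Set (FreeGroup (Fin n))) (List.ofFn fun i : Fin n => FreeGroup.of i).prod = 1 :=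
    PresentedGroup.one_of_mem (Set.mem_singleton _)
  rw [map_list_prod, List.map_ofFn] at h
  exact h

theorem braid_rel {n : ℕ} (f : Fin n → Pi1 n) (hf : (List.ofFn f).prod = 1) :
    ∀ r ∈ ({(List.ofFn fun i : Fin n => FreeGroup.of i).prod} : Set (FreeGroup (Fin n))),
      FreeGroup.lift f r = 1 := by
  intro r hr
  rw [Set.mem_singleton_iff] at hr
  subst hr
  rw [map_list_prod, List.map_ofFn]
  have : (⇑(FreeGroup.lift f) ∘ fun i : Fin n => FreeGroup.of i) = f := by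
    funext i
    simp
  rw [this, hf]

/-- the elementary braid automorphism: `c_k ↦ c_{k+1}`, `c_{k+1} ↦ c_{k+1}⁻¹ c_k c_{k+1}` -/
theorem exists_braid {n : ℕ} (k : ℕ) (hk : k + 1 < n) : ∃ β : MulAut (Pi1 n),
    β (c ⟨k, by omega⟩) = c ⟨k + 1, hk⟩ ∧
    β (c ⟨k + 1, hk⟩) = (c ⟨k + 1, hk⟩)⁻¹ * c ⟨k, by omega⟩ * c ⟨k + 1, hk⟩ ∧
    ∀ j : Fin n, j.1 ≠ k → j.1 ≠ k + 1 → β (c j) = c j := by
  set x : Pi1 n := c ⟨k, by omega⟩ with hx
  set y : Pi1 n := c ⟨k + 1, hk⟩ with hy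
  set f : Fin n → Pi1 n := fun j => if j.1 = k then y else if j.1 = k + 1 then y⁻¹ * x * y
    else c j with hf
  set g : Fin n → Pi1 n := fun j => if j.1 = k then x * y * x⁻¹ else if j.1 = k + 1 then x
    else c j with hg
  have hf0 : f ⟨k, by omega⟩ = y := by simp [hf]
  have hf1 : f ⟨k + 1, hk⟩ = y⁻¹ * x * y := by simp [hf]
  have hf2 : ∀ j : Fin n, j.1 ≠ k → j.1 ≠ k + 1 → f j = c j := by
    intro j h1 h2
    simp [hf, h1, h2]
  have hg0 : g ⟨k, by omega⟩ = x * y * x⁻¹ := by simp [hg]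
  have hg1 : g ⟨k + 1, hk⟩ = x := by simp [hg]
  have hg2 : ∀ j : Fin n, j.1 ≠ k → j.1 ≠ k + 1 → g j = c j := by
    intro j h1 h2
    simp [hg, h1, h2]
  have hfp : (List.ofFn f).prod = 1 := by
    rw [← prod_c n]
    refine braid_prod_eq n k hk _ _ ?_ hf2
    rw [hf0, hf1, ← hx, ← hy]
    group
  have hgp : (List.ofFn g).prod = 1 := by
    rw [← prod_c n]
    refine braid_prod_eq n k hk _ _ ?_ hg2
    rw [hg0, hg1, ← hx, ← hy]
    group
  set F : Pi1 n →* Pi1 n := PresentedGroup.toGroup (braid_rel f hfp) with hF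
  set Γ : Pi1 n →* Pi1 n := PresentedGroup.toGroup (braid_rel g hgp) with hΓ
  have hFc : ∀ j, F (c j) = f j := fun j => PresentedGroup.toGroup.of (braid_rel f hfp)
  have hΓc : ∀ j, Γ (c j) = g j := fun j => PresentedGroup.toGroup.of (braid_rel g hgp)
  have hFx : F x = y := by rw [hx, hFc, hf0]
  have hFy : F y = y⁻¹ * x * y := by rw [hy, hFc, hf1]
  have hΓx : Γ x = x * y * x⁻¹ := by rw [hx, hΓc, hg0]
  have hΓy : Γ y = x := by rw [hy, hΓc, hg1]
  have h1 : Γ.comp F = MonoidHom.id _ := by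
    refine PresentedGroup.ext (fun j => ?_)
    show Γ (F (c j)) = c j
    rw [hFc]
    by_cases hj : j.1 = k
    · have : j = ⟨k, by omega⟩ := Fin.ext hj
      rw [this, hf0, hΓy]
    by_cases hj' : j.1 = k + 1
    · have : j = ⟨k + 1, hk⟩ := Fin.ext hj'
      rw [this, hf1, map_mul, map_mul, map_inv, hΓx, hΓy, ← hy]
      group
    · rw [hf2 j hj hj', hΓc, hg2 j hj hj']
  have h2 : F.comp Γ = MonoidHom.id _ := by
    refine PresentedGroup.ext (fun j => ?_)
    show F (Γ (c j)) = c j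
    rw [hΓc]
    by_cases hj : j.1 = k
    · have : j = ⟨k, by omega⟩ := Fin.ext hj
      rw [this, hg0, map_mul, map_mul, map_inv, hFx, hFy, ← hx]
      group
    by_cases hj' : j.1 = k + 1
    · have : j = ⟨k + 1, hk⟩ := Fin.ext hj'
      rw [this, hg1, hFx]
    · rw [hg2 j hj hj', hFc, hf2 j hj hj']
  refine ⟨MonoidHom.toMulEquiv F Γ h1 h2, ?_, ?_, ?_⟩
  · exact hFx
  · exact hFy
  · intro j hj hj'
    show F (c j) = c j
    rw [hFc, hf2 j hj hj']

end Pool.Agent.W24dbe6
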