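import Pool.Agent.W_MP_24dbe6_h58.GeoComm

set_option autoImplicit false

/-!
Twist flows: `t` runs through the centralizer torus of `w`, `Y` is replaced by `cj t Y`.
Notation of the proofs: `C = ℝ + ℝ w` (a plane), `C^⊥` its orthogonal complement; `Y = p + q` with
`p ∈ C`, `q ∈ C^⊥`; `t q star t = t² q`, so `cj t Y = p + t² q`; `C q = C^⊥` if `q ≠ 0`.
-/

namespace Pool.Agent.W24dbe6

open Quaternion

/-- three distinct points of the unit circle are not on a line -/
theorem flowC_circ {a1 b1 a2 b2 a3 b3 : ℝ} (h1 : a1 ^ 2 + b1 ^ 2 = 1) (h2 : a2 ^ 2 + b2 ^ 2 = 1)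
    (h3 : a3 ^ 2 + b3 ^ 2 = 1) (h12 : ¬ (a1 = a2 ∧ b1 = b2)) (h13 : ¬ (a1 = a3 ∧ b1 = b3))
    (h23 : ¬ (a2 = a3 ∧ b2 = b3)) :
    (a1 - a2) * (b1 - b3) - (a1 - a3) * (b1 - b2) ≠ 0 := by
  intro h
  set x := a1 - a2 with hx
  set y := b1 - b2 with hy
  set z := a1 - a3 with hz
  set t := b1 - b3 with ht
  have hxt : x * t = z * y := by linarith
  have e1 : 2 * (a1 * x + b1 * y) = x ^ 2 + y ^ 2 := by rw [hx, hy]; nlinarith
  have e2 : 2 * (a1 * z + b1 * t) = z ^ 2 + t ^ 2 := by rw [hz, ht]; nlinarith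
  -- `w·v = w·w` if `v ≠ 0`
  have k1 : x * (z * x + t * y) = x * (z ^ 2 + t ^ 2) := by
    rw [← e2]
    have : z * (x ^ 2 + y ^ 2) = z * (2 * (a1 * x + b1 * y)) := by rw [e1]
    linear_combination this + (y - 2 * b1) * hxt
  have k2 : y * (z * x + t * y) = y * (z ^ 2 + t ^ 2) := by
    rw [← e2]
    have : t * (x ^ 2 + y ^ 2) = t * (2 * (a1 * x + b1 * y)) := by rw [e1]
    linear_combination this - x * hxt + 2 * a1 * hxt
  have k3 : z * (z * x + t * y) = z * (x ^ 2 + y ^ 2) := by
    rw [← e1]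
    have : x * (z ^ 2 + t ^ 2) = x * (2 * (a1 * z + b1 * t)) := by rw [e2]
    linear_combination this - t * hxt + 2 * b1 * hxt
  have k4 : t * (z * x + t * y) = t * (x ^ 2 + y ^ 2) := by
    rw [← e1]
    have : y * (z ^ 2 + t ^ 2) = y * (2 * (a1 * z + b1 * t)) := by rw [e2]
    linear_combination this + z * hxt - 2 * a1 * hxt
  have m1 : z * x + t * y = z ^ 2 + t ^ 2 := by
    by_cases hx0 : x = 0
    · by_cases hy0 : y = 0
      · exact absurd ⟨by linarith, by linarith⟩ h12
      · exact mul_left_cancel₀ hy0 k2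
    · exact mul_left_cancel₀ hx0 k1
  have m2 : z * x + t * y = x ^ 2 + y ^ 2 := by
    by_cases hz0 : z = 0
    · by_cases ht0 : t = 0
      · exact absurd ⟨by linarith, by linarith⟩ h13
      · exact mul_left_cancel₀ ht0 k4
    · exact mul_left_cancel₀ hz0 k3
  have m3 : (x - z) ^ 2 + (y - t) ^ 2 = 0 := by nlinarith
  have m4 : x - z = 0 := by nlinarith [sq_nonneg (x - z), sq_nonneg (y - t)]
  have m5 : y - t = 0 := by nlinarith [sq_nonneg (x - z), sq_nonneg (y - t)]
  exact h23 ⟨by linarith, by linarith⟩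

/-- the algebra of a pure unit quaternion -/
theorem flowC_sq {u : H} (hu : U u) (hre : u.re = 0) : star u = -u ∧ u * u = -1 := by
  have h1 : star u = -u := by
    ext <;> simp [hre]
  refine ⟨h1, ?_⟩
  have h2 := U_star_mul hu
  rw [h1, neg_mul] at h2
  rw [← neg_eq_iff_eq_neg]
  exact h2

/-- Elements of the torus in coordinates. -/
theorem flowC_coord {u t : H} (hu : U u) (hre : u.re = 0) (ht : U t) (h : t * u = u * t) :
    ∃ α β : ℝ, α ^ 2 + β ^ 2 = 1 ∧ t = α • (1 : H) + β • u ∧ star t = α • (1 : H) - β • u := by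
  obtain ⟨h1, h2⟩ := flowC_sq hu hre
  have hn : NC u := by
    intro h0
    have : u = 0 := by
      rw [← Quaternion.re_add_im u, hre, h0]
      simp
    rw [this] at h2
    simp at h2
  obtain ⟨α, β, hab⟩ := (comm_iff (x := u) (y := t) hn).1 h.symm
  have e1 : t = α • (1 : H) + β • u := by
    rw [hab, Quaternion.coe_mul_eq_smul]
    congr 1
    rw [← Quaternion.coe_mul_eq_smul, mul_one]
  have e2 : star t = α • (1 : H) - β • u := by
    rw [e1, star_add, Quaternion.star_smul, Quaternion.star_smul, star_one, h1, smul_neg,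
      sub_eq_add_neg]
  refine ⟨α, β, ?_, e1, e2⟩
  have h3 := U_mul_star ht
  rw [e2] at h3
  rw [e1] at h3
  have h4 : (α • (1 : H) + β • u) * (α • (1 : H) - β • u) = (α ^ 2 + β ^ 2) • (1 : H) := by
    have : (α • (1 : H) + β • u) * (α • (1 : H) - β • u)
        = (α ^ 2) • (1 : H) - (β ^ 2) • (u * u) := by
      simp only [add_mul, mul_sub, smul_mul_smul_comm, one_mul, mul_one, mul_comm β α]
      rw [sq, sq]
      abel
    rw [this, h2, smul_neg, sub_neg_eq_add, add_smul]
  rw [h4] at h3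
  have h5 := congrArg (fun z : H => z.re) h3
  simpa using h5

/-- If `X * cj t Y` commutes with `x` for infinitely many `t` then we are in the dihedral situation.
Proof: `C_x = ℝ + ℝ x` is a plane.  `X (p + t² q) ∈ C_x` for three distinct values of `t²`, hence
(differences of three distinct points of a circle of `C^⊥` span `C^⊥`) `X C^⊥ ⊆ C_x`, so
`X C^⊥ = C_x` and `X p ∈ C_x = X C^⊥`, `p ∈ C ∩ C^⊥ = 0`: `Y = q` anticommutes with `w.im`.
`1 ∈ C_x = X C^⊥` gives `star X ∈ C^⊥`, so `X` anticommutes with `w.im`; and then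
`C_x = X C^⊥ ⊆ C`, so `x` commutes with `w`. -/
theorem flow_comm {w X Y x : H} (hw : U w) (hwn : NC w) (hX : U X) (hY : U Y)
    (hYw : ¬ Commute Y w) (hx : U x) (hxn : NC x)
    (hinf : {t | t ∈ Tor w ∧ Commute (X * cj t Y) x}.Infinite) :
    Anti Y w ∧ Anti X w ∧ Commute x w := by
  obtain ⟨u, hu, hre, hC, hA⟩ := exists_axis hwn
  obtain ⟨hus, huu⟩ := flowC_sq hu hre
  have hX0 : X ≠ 0 := by
    rintro rfl
    unfold U at hX
    simp at hX
  have hu0 : u ≠ 0 := by
    rintro rfl
    unfold U at hu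
    simp at hu
  -- decomposition
  obtain ⟨p, hp⟩ : ∃ p : H, p = (1 / 2 : ℝ) • (Y - u * Y * u) := ⟨_, rfl⟩
  obtain ⟨q, hq⟩ : ∃ q : H, q = (1 / 2 : ℝ) • (Y + u * Y * u) := ⟨_, rfl⟩
  have hpq : Y = p + q := by
    rw [hp, hq, ← smul_add]
    have : Y - u * Y * u + (Y + u * Y * u) = (2 : ℝ) • Y := by
      rw [two_smul]; abel
    rw [this, smul_smul]
    norm_num
  have hpu : p * u = u * p := by
    rw [hp, smul_mul_assoc, mul_smul_comm]
    congr 1
    rw [sub_mul, mul_sub, mul_assoc (u * Y) u u, huu, ← mul_assoc u (u * Y) u, ← mul_assoc u u Y,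
      huu]
    simp only [mul_neg, mul_one, neg_mul, one_mul, sub_neg_eq_add]
    rw [add_comm]
  have hqu : q * u = -(u * q) := by
    rw [hq, smul_mul_assoc, mul_smul_comm, ← smul_neg]
    congr 1
    rw [add_mul, mul_add, mul_assoc (u * Y) u u, huu, ← mul_assoc u (u * Y) u, ← mul_assoc u u Y,
      huu]
    simp only [mul_neg, mul_one, neg_mul, one_mul, neg_add, neg_neg]
    rw [add_comm]
  have hq0 : q ≠ 0 := by
    rintro h0
    apply hYw
    rw [hC, hpq, h0, add_zero, hpu]
  -- the flow in coordinates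
  have hflow : ∀ t ∈ Tor w, ∃ a b : ℝ, a ^ 2 + b ^ 2 = 1 ∧ t * t = a • (1 : H) + b • u ∧
      cj t Y = p + (a • (1 : H) + b • u) * q := by
    intro t ht
    have htu : t * u = u * t := (hC t).1 ht.2
    obtain ⟨α, β, h1, h2, h3⟩ := flowC_coord hu hre ht.1 htu
    have htt : t * t = (α ^ 2 - β ^ 2) • (1 : H) + (2 * α * β) • u := by
      rw [h2]
      have : (α • (1 : H) + β • u) * (α • (1 : H) + β • u)
          = (α ^ 2) • (1 : H) + (2 * α * β) • u + (β ^ 2) • (u * u) := by
        simp only [add_mul, mul_add, smul_mul_smul_comm, one_mul, mul_one, mul_comm β α]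
        rw [sq, sq, mul_assoc 2 α β, two_mul, add_smul]
        abel
      rw [this, huu, smul_neg, sub_smul]
      abel
    refine ⟨α ^ 2 - β ^ 2, 2 * α * β, ?_, htt, ?_⟩
    · have : (α ^ 2 - β ^ 2) ^ 2 + (2 * α * β) ^ 2 = (α ^ 2 + β ^ 2) ^ 2 := by ring
      rw [this, h1, one_pow]
    · rw [← htt]
      have k1 : p * star t = star t * p := by
        rw [h3]
        simp only [mul_sub, sub_mul, mul_smul_comm, smul_mul_assoc, mul_one, one_mul, hpu]
      have k2 : q * star t = t * q := by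
        rw [h3, h2]
        simp only [mul_sub, add_mul, mul_smul_comm, smul_mul_assoc, mul_one, one_mul, hqu,
          smul_neg, sub_neg_eq_add]
      unfold cj
      rw [hpq, mul_add, add_mul, mul_assoc t p, k1, ← mul_assoc, U_mul_star ht.1, one_mul,
        mul_assoc t q, k2, ← mul_assoc]
  -- infinitely many squares
  have hsq : ((fun t : H => t * t) '' {t | t ∈ Tor w ∧ Commute (X * cj t Y) x}).Infinite := by
    intro hfin
    refine hinf (Set.Finite.of_finite_fibers (fun t : H => t * t) hfin ?_)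
    rintro _ ⟨s, hs, rfl⟩
    refine Set.Finite.subset (Set.toFinite ({s, -s} : Set H)) ?_
    rintro t ⟨ht, hts⟩
    have h1 : t * t = s * s := hts
    have h2 : t * u = u * t := (hC t).1 ht.1.2
    have h3 : s * u = u * s := (hC s).1 hs.1.2
    obtain ⟨α, β, -, e1, -⟩ := flowC_coord hu hre ht.1.1 h2
    obtain ⟨γ, δ, -, e2, -⟩ := flowC_coord hu hre hs.1.1 h3
    have hcomm : t * s = s * t := by
      rw [e1, e2]
      simp only [add_mul, mul_add, smul_mul_smul_comm, one_mul, mul_one, mul_comm γ, mul_comm δ]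
      abel
    have h4 : (t - s) * (t + s) = 0 := by
      rw [sub_mul, mul_add, mul_add, h1, hcomm]
      abel
    rcases mul_eq_zero.1 h4 with h5 | h5
    · left
      exact sub_eq_zero.1 h5
    · right
      exact eq_neg_of_add_eq_zero_left h5
  obtain ⟨F, hF, hF3⟩ := hsq.exists_subset_card_eq 3
  classical
  obtain ⟨s1, s2, s3, n12, n13, n23, hFe⟩ := Finset.card_eq_three.1 hF3
  have hget : ∀ s ∈ F, ∃ a b : ℝ, a ^ 2 + b ^ 2 = 1 ∧
      s = a • (1 : H) + b • u ∧ Commute (X * (p + s * q)) x := by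
    intro s hs
    obtain ⟨t, ht, rfl⟩ := hF hs
    obtain ⟨a, b, h1, h2, h3⟩ := hflow t ht.1
    refine ⟨a, b, h1, h2, ?_⟩
    have h4 := ht.2
    rw [h3, ← h2] at h4
    exact h4
  obtain ⟨a1, b1, c1, d1, g1⟩ := hget s1 (by rw [hFe]; simp)
  obtain ⟨a2, b2, c2, d2, g2⟩ := hget s2 (by rw [hFe]; simp)
  obtain ⟨a3, b3, c3, d3, g3⟩ := hget s3 (by rw [hFe]; simp)
  have hD := flowC_circ c1 c2 c3 (fun h => n12 (by rw [d1, d2, h.1, h.2]))
    (fun h => n13 (by rw [d1, d3, h.1, h.2])) (fun h => n23 (by rw [d2, d3, h.1, h.2]))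
  obtain ⟨D, hDd⟩ : ∃ D, D = (a1 - a2) * (b1 - b3) - (a1 - a3) * (b1 - b2) := ⟨_, rfl⟩
  rw [← hDd] at hD
  have f12 : Commute (X * ((s1 - s2) * q)) x := by
    have := g1.sub_left g2
    have e : X * (p + s1 * q) - X * (p + s2 * q) = X * ((s1 - s2) * q) := by
      rw [← mul_sub, sub_mul]; congr 1; abel
    rwa [e] at this
  have f13 : Commute (X * ((s1 - s3) * q)) x := by
    have := g1.sub_left g3
    have e : X * (p + s1 * q) - X * (p + s3 * q) = X * ((s1 - s3) * q) := by
      rw [← mul_sub, sub_mul]; congr 1; abel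
    rwa [e] at this
  have hXq : Commute (X * q) x := by
    have h1 := (f12.smul_left (b1 - b3)).sub_left (f13.smul_left (b1 - b2))
    have h2 := h1.smul_left D⁻¹
    have e : D⁻¹ • ((b1 - b3) • (X * ((s1 - s2) * q)) - (b1 - b2) • (X * ((s1 - s3) * q)))
        = X * q := by
      have e1 : (b1 - b3) • (X * ((s1 - s2) * q)) - (b1 - b2) • (X * ((s1 - s3) * q))
          = X * (((b1 - b3) • (s1 - s2) - (b1 - b2) • (s1 - s3)) * q) := by
        simp only [sub_mul, mul_sub, smul_mul_assoc, mul_smul_comm, smul_sub]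
      have e2 : (b1 - b3) • (s1 - s2) - (b1 - b2) • (s1 - s3) = D • (1 : H) := by
        rw [d1, d2, d3, hDd]
        module
      rw [e1, e2, smul_mul_assoc, one_mul, mul_smul_comm, smul_smul, inv_mul_cancel₀ hD, one_smul]
    rwa [e] at h2
  have hXuq : Commute (X * (u * q)) x := by
    have h1 := (f13.smul_left (a1 - a2)).sub_left (f12.smul_left (a1 - a3))
    have h2 := h1.smul_left D⁻¹
    have e : D⁻¹ • ((a1 - a2) • (X * ((s1 - s3) * q)) - (a1 - a3) • (X * ((s1 - s2) * q)))
        = X * (u * q) := by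
      have e1 : (a1 - a2) • (X * ((s1 - s3) * q)) - (a1 - a3) • (X * ((s1 - s2) * q))
          = X * (((a1 - a2) • (s1 - s3) - (a1 - a3) • (s1 - s2)) * q) := by
        simp only [sub_mul, mul_sub, smul_mul_assoc, mul_smul_comm, smul_sub]
      have e2 : (a1 - a2) • (s1 - s3) - (a1 - a3) • (s1 - s2) = D • u := by
        rw [d1, d2, d3, hDd]
        module
      rw [e1, e2, smul_mul_assoc, mul_smul_comm, smul_smul, inv_mul_cancel₀ hD, one_smul]
    rwa [e] at h2
  -- `u` commutes with `x`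
  have hA0 : X * q ≠ 0 := mul_ne_zero hX0 hq0
  have hxu : u * x = x * u := by
    -- `(X q) u = - X (u q)`
    have e1 : X * q * u = -(X * (u * q)) := by rw [mul_assoc, hqu, mul_neg]
    have h1 : X * q * u * x = x * (X * q * u) := by
      rw [e1, neg_mul, mul_neg, hXuq.eq]
    have h2 : X * q * (u * x) = X * q * (x * u) := by
      rw [← mul_assoc, h1, ← mul_assoc, ← hXq.eq, mul_assoc]
    exact mul_left_cancel₀ hA0 h2
  have hun : NC u := by
    intro h0
    have : u = 0 := by
      rw [← Quaternion.re_add_im u, hre, h0]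
      simp
    exact hu0 this
  -- everything commuting with `x` commutes with `u`
  have hCx : ∀ z : H, Commute z x → z * u = u * z := by
    intro z hz
    exact (comm_trans hxn hz (show Commute x u from hxu.symm)).eq
  have h5 : X * q * u = u * (X * q) := hCx _ hXq
  have hXa : X * u = -(u * X) := by
    have h6 : X * u * q = -(u * X) * q := by
      have : X * (u * q) = -(X * q * u) := by rw [mul_assoc X q u, hqu, mul_neg, neg_neg]
      rw [mul_assoc, this, h5, neg_mul, mul_assoc]
    exact mul_right_cancel₀ hq0 h6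
  have hXp : X * p * u = u * (X * p) := by
    have h7 := hCx _ g1
    have h8 : X * (s1 * q) * u = u * (X * (s1 * q)) := by
      rw [d1]
      have k1 : X * ((a1 • (1 : H) + b1 • u) * q) = a1 • (X * q) + b1 • (X * (u * q)) := by
        simp only [add_mul, mul_add, smul_mul_assoc, mul_smul_comm, one_mul]
      have k2 : X * (u * q) * u = u * (X * (u * q)) := hCx _ hXuq
      rw [k1, add_mul, mul_add, smul_mul_assoc, mul_smul_comm, h5, smul_mul_assoc, mul_smul_comm,
        k2]
    rw [mul_add, add_mul, mul_add, h8] at h7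
    exact add_right_cancel h7
  have hp0 : p = 0 := by
    have h9 : X * p * u = -(X * p * u) := by
      calc X * p * u = u * (X * p) := hXp
        _ = (u * X) * p := (mul_assoc _ _ _).symm
        _ = -(X * u * p) := by rw [hXa, neg_mul, neg_neg]
        _ = -(X * p * u) := by rw [mul_assoc X u p, ← hpu, ← mul_assoc]
    have h10 : X * p * u = 0 := by
      have : (2 : ℝ) • (X * p * u) = 0 := by
        rw [two_smul]
        nth_rewrite 2 [h9]
        exact add_neg_cancel _
      rcases smul_eq_zero.1 this with h | h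
      · norm_num at h
      · exact h
    rcases mul_eq_zero.1 h10 with h | h
    · rcases mul_eq_zero.1 h with h | h
      · exact absurd h hX0
      · exact h
    · exact absurd h hu0
  refine ⟨?_, ?_, ?_⟩
  · rw [hA, hpq, hp0, zero_add]
    exact hqu
  · rw [hA]
    exact hXa
  · rw [hC]
    exact hxu.symm

/-- special case `X = 1` of `flow_comm` (the conclusion `Anti 1 w` is absurd) -/
theorem flow_comm_one {w Y x : H} (hw : U w) (hwn : NC w) (hY : U Y)
    (hYw : ¬ Commute Y w) (hx : U x) (hxn : NC x) :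
    {t | t ∈ Tor w ∧ Commute (cj t Y) x}.Finite := by
  by_contra hcon
  have h1 : {t | t ∈ Tor w ∧ Commute (1 * cj t Y) x}.Infinite := by
    simp only [one_mul]
    exact hcon
  have h2 := (flow_comm hw hwn U_one hY hYw hx hxn h1).2.1
  exact not_anti_of_commute hwn U_one (Commute.one_left w) h2

end Pool.Agent.W24dbe6
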