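import Pool.Agent.W_MP_24dbe6_h58.Reorder
import Pool.Agent.W_MP_24dbe6_h58.DefsB
import Pool.Agent.W_MP_24dbe6_h58.GeoFlow
import Pool.Agent.W_MP_24dbe6_h58.GeoFlowC
import Pool.Agent.W_MP_24dbe6_h58.GeoTor

set_option autoImplicit false

/-!
Non-abelian lists are limits of lists with a good pair.
-/

namespace Pool.Agent.W24dbe6

open Quaternion

variable {ι : Type}

private theorem nonab_re_comm (a b : H) : (a * b).re = (b * a).re := by
  simp only [Quaternion.re_mul]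
  ring

/-- the parameters for which the product with a flowed element has finite order -/
private theorem nonab_bad {w X Y : H} (hw : U w) (hwn : NC w) (hX : U X) (hY : U Y)
    (hXw : ¬ Commute X w) (hYw : ¬ Commute Y w) :
    {t | t ∈ Tor w ∧ ¬ Inf (X * cj t Y)}.Countable := by
  have h1 : {t | t ∈ Tor w ∧ ¬ Inf (X * cj t Y)} ⊆
      ⋃ v ∈ {v : ℝ | ∃ x : H, U x ∧ x.re = v ∧ ¬ Inf x}, {t | t ∈ Tor w ∧ (X * cj t Y).re = v} := by
    rintro t ⟨ht, hi⟩
    simp only [Set.mem_iUnion]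
    exact ⟨(X * cj t Y).re, ⟨_, U_mul hX (U_cj ht.1 hY), rfl, hi⟩, ht, rfl⟩
  exact (bad_countable.biUnion fun v _ =>
    (flow_fin hw hwn hX hY hXw hYw v).countable).mono h1

/-- the tori contain `1` -/
private theorem nonab_one_mem (w : H) : (1 : H) ∈ Tor w := ⟨U_one, Commute.one_left w⟩

/-- If all full sets belong to `Z` then all non-abelian admissible lists belong to `Z`.
Proof: `exists_pair` gives `b₁ :: b₂ :: r` with `b₁, b₂` not commuting and `r` non-abelian; move an entry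
`b₃` of `r` not commuting with `b₁ b₂` to the front of `r` (`one_out`).  For `t` in the torus of `b₁ b₂`
near `1`, outside a countable set, the list `cj t b₂ :: b₃ :: (r' ++ [cj t b₁])` has a good pair; so it is
in `Z` by the hypothesis, and so is its rotation; let `t → 1` (`hZ.cl`). -/
theorem nonab {θ : ι → ℝ} (hθ : ∀ i, 0 < θ i ∧ θ i < Real.pi) {Z : LL ι → Prop}
    (hZ : BClosed Z) {M : List ι} (h4 : 4 ≤ M.length)
    (hF : ∀ (i j : ι) (N : List ι), (i :: j :: N).Perm M → Full θ Z i j N) {b : LL ι}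
    (hadm : Adm θ b) (hp : (lab b).Perm M) (hna : NA b) : Z b := by
  have hNC : ∀ p : ι × H, (U p.2 ∧ p.2.re = Real.cos (θ p.1)) → NC p.2 := by
    rintro p ⟨hu, hre⟩
    rw [NC_iff hu, hre]
    have h1 := hθ p.1
    constructor
    · have := Real.cos_lt_cos_of_nonneg_of_le_pi h1.1.le le_rfl h1.2
      rwa [Real.cos_pi] at this
    · have := Real.cos_lt_cos_of_nonneg_of_le_pi le_rfl h1.2.le h1.1
      rwa [Real.cos_zero] at this
  have hlen : 4 ≤ b.length := by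
    have h1 := hp.length_eq
    simp only [lab, List.length_map] at h1
    omega
  obtain ⟨b₁, b₂, r, hM, hnc, hr⟩ :=
    exists_pair (Adm_UL hadm) (fun p hp => hNC p (hadm.1 p hp)) hlen hadm.2 hna
  have hadm1 : Adm θ (b₁ :: b₂ :: r) := Mv_Adm hM hadm
  have hU1 := Adm_UL hadm1
  have hb₁ : U b₁.2 := hU1 b₁ (by simp)
  have hb₂ : U b₂.2 := hU1 b₂ (by simp)
  have hUr : UL r := (UL_cons.1 (UL_cons.1 hU1).2).2
  obtain ⟨w, hwdef⟩ : ∃ w, w = b₁.2 * b₂.2 := ⟨_, rfl⟩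
  have hw : U w := by rw [hwdef]; exact U_mul hb₁ hb₂
  have hwn : NC w := by rw [hwdef]; exact (NC_of_not_commute hb₁ hb₂ hnc).2.2
  have hb₁w : ¬ Commute b₁.2 w := by
    rw [hwdef, commute_mul_left_iff hb₁]
    exact hnc
  have hb₂w : ¬ Commute b₂.2 w := by
    rw [hwdef, commute_mul_right_iff hb₂]
    exact hnc
  obtain ⟨e, m, hBv, hew⟩ := one_out hUr (exists_out hr hwn)
  have hBv2 : Bv (b₁ :: b₂ :: r) (b₁ :: b₂ :: e :: m) := by
    have := Bv_ctx hBv [b₁, b₂] []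
    simpa using this
  have hM2 : Mv b (b₁ :: b₂ :: e :: m) := Mv_trans hM (Mv_of_Bv hBv2)
  have hadm2 : Adm θ (b₁ :: b₂ :: e :: m) := Mv_Adm hM2 hadm
  have hU2 := Adm_UL hadm2
  have he : U e.2 := hU2 e (by simp)
  have hlen2 : (b₁ :: b₂ :: e :: m).length = b.length := Mv_length hM2
  -- an element of `m`
  obtain ⟨f, hf⟩ : ∃ f, f ∈ m := by
    cases m with
    | nil =>
      simp only [List.length_cons, List.length_nil] at hlen2
      omega
    | cons f m => exact ⟨f, by simp⟩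
  have hfU : U f.2 := hU2 f (by simp [hf])
  have hfn : NC f.2 := hNC f (hadm2.1 f (by simp [hf]))
  have hen : NC e.2 := hNC e (hadm2.1 e (by simp))
  -- the reduction
  refine Mv_Z hZ (Mv_symm (Adm_UL hadm) hM2) (hZ.cl _ fun ε hε => ?_)
  have hB : ({t | t ∈ Tor w ∧ ¬ Inf (e.2 * cj t b₂.2)} ∪
      ({t | t ∈ Tor w ∧ Commute (cj t b₂.2) e.2} ∪
        {t | t ∈ Tor w ∧ Commute (cj t b₁.2) f.2})).Countable :=
    (nonab_bad hw hwn he hb₂ hew hb₂w).union
      ((flow_comm_one hw hwn hb₂ hb₂w he hen).countable.union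
        (flow_comm_one hw hwn hb₁ hb₁w hfU hfn).countable)
  obtain ⟨t, ht, htd, htB⟩ := exists_tor hw hwn (nonab_one_mem w) (half_pos hε) hB
  have hinf : Inf (e.2 * cj t b₂.2) := by
    by_contra h
    exact htB (Or.inl ⟨ht, h⟩)
  have hc2 : ¬ Commute (cj t b₂.2) e.2 := fun h => htB (Or.inr (Or.inl ⟨ht, h⟩))
  have hc1 : ¬ Commute (cj t b₁.2) f.2 := fun h => htB (Or.inr (Or.inr ⟨ht, h⟩))
  have hd : ∀ x : H, U x → dist x (cj t x) < ε := by
    intro x hx
    have h1 := dist_cj_le ht.1 U_one hx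
    rw [cj_one_left] at h1
    rw [dist_comm]
    linarith
  -- the flowed list
  have hadmt : Adm θ ((b₁.1, cj t b₁.2) :: (b₂.1, cj t b₂.2) :: e :: m) := by
    constructor
    · intro p hp
      rw [List.mem_cons, List.mem_cons] at hp
      rcases hp with hp | hp | hp
      · rw [hp]
        exact ⟨U_cj ht.1 hb₁, (cj_re ht.1 _).trans (hadm2.1 b₁ (by simp)).2⟩
      · rw [hp]
        exact ⟨U_cj ht.1 hb₂, (cj_re ht.1 _).trans (hadm2.1 b₂ (by simp)).2⟩
      · exact hadm2.1 p (List.mem_cons_of_mem _ (List.mem_cons_of_mem _ hp))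
    · have h1 := hadm2.2
      rw [pr_cons, pr_cons, ← mul_assoc] at h1 ⊢
      have h2 : cj t b₁.2 * cj t b₂.2 = b₁.2 * b₂.2 := by
        rw [← cj_mul ht.1, ← hwdef]
        exact cj_of_commute ht.1 ht.2
      show cj t b₁.2 * cj t b₂.2 * pr (e :: m) = 1
      rw [h2]
      exact h1
  refine ⟨(b₁.1, cj t b₁.2) :: (b₂.1, cj t b₂.2) :: e :: m, ?_, ?_⟩
  · -- its rotation has a good pair
    have hrot : Mv ((b₁.1, cj t b₁.2) :: (b₂.1, cj t b₂.2) :: e :: m)
        (((b₂.1, cj t b₂.2) :: e :: m) ++ [(b₁.1, cj t b₁.2)]) := mv_rot (Adm_UL hadmt)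
    refine Mv_Z hZ (Mv_symm (Adm_UL hadmt) hrot) ?_
    have hperm : (b₂.1 :: e.1 :: lab (m ++ [(b₁.1, cj t b₁.2)])).Perm M := by
      have h1 : (lab (((b₂.1, cj t b₂.2) :: e :: m) ++ [(b₁.1, cj t b₁.2)])).Perm
          (lab ((b₁.1, cj t b₁.2) :: (b₂.1, cj t b₂.2) :: e :: m)) := Mv_perm hrot
      have h2 : lab ((b₁.1, cj t b₁.2) :: (b₂.1, cj t b₂.2) :: e :: m)
          = lab (b₁ :: b₂ :: e :: m) := rfl
      rw [h2] at h1
      exact (h1.trans (Mv_perm hM2)).trans hp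
    refine hF b₂.1 e.1 (lab (m ++ [(b₁.1, cj t b₁.2)])) hperm (b₂.1, cj t b₂.2) e
      (m ++ [(b₁.1, cj t b₁.2)]) (Mv_Adm hrot hadmt) rfl rfl (List.Perm.refl _) ?_
    refine ⟨?_, hc2, ?_⟩
    · refine inf_of_re (U_mul he (U_cj ht.1 hb₂)) (U_mul (U_cj ht.1 hb₂) he) ?_ hinf
      exact nonab_re_comm _ _
    · refine ⟨(b₁.1, cj t b₁.2), by simp, f, by simp [hf], ?_⟩
      exact hc1
  · exact near_cons rfl (hd _ hb₁) (near_cons rfl (hd _ hb₂) (near_refl _ hε))

end Pool.Agent.W24dbe6
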