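import Pool.Agent.W_MP_24dbe6_h58.Box4
import Pool.Agent.W_MP_24dbe6_h58.Reorder
import Pool.Agent.W_MP_24dbe6_h58.GeoPair

set_option autoImplicit false

/-!
Lists of length 4.
-/

namespace Pool.Agent.W24dbe6

open Quaternion

variable {ι : Type}

/-- membership form of admissibility for lists of length 4 -/
theorem prop4_adm {θ : ι → ℝ} {a b c d : ι × H} : Adm θ [a, b, c, d] ↔
    (U a.2 ∧ a.2.re = Real.cos (θ a.1)) ∧ (U b.2 ∧ b.2.re = Real.cos (θ b.1)) ∧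
    (U c.2 ∧ c.2.re = Real.cos (θ c.1)) ∧ (U d.2 ∧ d.2.re = Real.cos (θ d.1)) ∧
    (a.2 * b.2) * (c.2 * d.2) = 1 := by
  constructor
  · rintro ⟨h1, h2⟩
    refine ⟨h1 a (by simp), h1 b (by simp), h1 c (by simp), h1 d (by simp), ?_⟩
    rw [pr_cons, pr_cons, pr_cons, pr_cons, pr_nil, mul_one] at h2
    rw [mul_assoc]
    exact h2
  · rintro ⟨h1, h2, h3, h4, h5⟩
    refine ⟨?_, ?_⟩
    · intro p hp
      simp only [List.mem_cons, List.not_mem_nil, or_false] at hp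
      rcases hp with rfl | rfl | rfl | rfl <;> assumption
    · rw [pr_cons, pr_cons, pr_cons, pr_cons, pr_nil, mul_one, ← mul_assoc]
      exact h5

/-- a pair is non-abelian if the entries do not commute -/
theorem prop4_NA {x y : ι × H} : NA [x, y] ↔ ¬ Commute x.2 y.2 := by
  constructor
  · rintro ⟨p, hp, q, hq, h⟩
    simp only [List.mem_cons, List.not_mem_nil, or_false] at hp hq
    rcases hp with rfl | rfl <;> rcases hq with rfl | rfl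
    · exact absurd (Commute.refl _) h
    · exact h
    · exact fun h' => h h'.symm
    · exact absurd (Commute.refl _) h
  · intro h
    exact ⟨x, by simp, y, by simp, h⟩

/-- the second half of a list with product one is the inverse of the first half -/
theorem prop4_star {P Q : H} (hP : U P) (h : P * Q = 1) : Q = star P := by
  calc Q = (star P * P) * Q := by rw [U_star_mul hP, one_mul]
    _ = star P := by rw [mul_assoc, h, mul_one]

theorem prop4_ang_star {P Q : H} (hP : U P) (h : P * Q = 1) : ang Q = ang P := by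
  rw [prop4_star hP h]
  unfold ang
  rw [Quaternion.re_star]

theorem prop4_ang {θ : ι → ℝ} (hθ : ∀ i, 0 < θ i ∧ θ i < Real.pi) {a : ι × H}
    (h : a.2.re = Real.cos (θ a.1)) : ang a.2 = θ a.1 := by
  unfold ang
  rw [h]
  exact Real.arccos_cos (hθ _).1.le (hθ _).2.le

/-- the level set for the same order of the labels -/
theorem prop4_lev {θ : ι → ℝ} {Z : LL ι → Prop} (hZ : BClosed Z)
    {p q x y : ι × H} (hadm : Adm θ [p, q, x, y]) (hz : Z [p, q, x, y])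
    (hinf : Inf (p.2 * q.2)) {b₁ b₂ b₃ b₄ : ι × H} (hb : Adm θ [b₁, b₂, b₃, b₄])
    (h1 : b₁.1 = p.1) (h2 : b₂.1 = q.1) (h3 : b₃.1 = x.1) (h4 : b₄.1 = y.1)
    (hang : ang (b₁.2 * b₂.2) = ang (p.2 * q.2)) : Z [b₁, b₂, b₃, b₄] := by
  obtain ⟨a1, a2, a3, a4, a5⟩ := prop4_adm.1 hadm
  obtain ⟨c1, c2, c3, c4, c5⟩ := prop4_adm.1 hb
  have hPU : U (p.2 * q.2) := U_mul a1.1 a2.1
  have hP'U : U (b₁.2 * b₂.2) := U_mul c1.1 c2.1
  have hre : (p.2 * q.2).re = (b₁.2 * b₂.2).re := by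
    rw [← U_cos_ang hPU, ← U_cos_ang hP'U, hang]
  have hPn : NC (p.2 * q.2) := inf_NC hPU hinf
  obtain ⟨g, hg, hg1, hg2⟩ := conj_pair' a1.1 a2.1 c1.1 c2.1 (by rw [a1.2, c1.2, h1])
    (by rw [a2.2, c2.2, h2]) hre hPn
  have hxy : x.2 * y.2 = star (p.2 * q.2) := prop4_star hPU a5
  have hxy' : b₃.2 * b₄.2 = star (b₁.2 * b₂.2) := prop4_star hP'U c5
  have hgxy : cj g x.2 * cj g y.2 = b₃.2 * b₄.2 := by
    rw [hxy', ← cj_mul hg, hxy, cj_star, cj_mul hg, hg1, hg2]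
  have hXU : U (cj g x.2) := U_cj hg a3.1
  have hYU : U (cj g y.2) := U_cj hg a4.1
  have hn : NC (cj g x.2 * cj g y.2) := by
    rw [← cj_mul hg, NC_cj hg, hxy, NC_star]
    exact hPn
  obtain ⟨t, ht, ht1, ht2⟩ := conj_pair hXU hYU c3.1 c4.1 (by rw [cj_re hg, a3.2, c3.2, h3])
    (by rw [cj_re hg, a4.2, c4.2, h4]) hgxy hn
  have hz1 := hZ.cj _ g hg hz
  have e1 : cjL g [p, q, x, y] = [b₁, b₂] ++ [(x.1, cj g x.2), (y.1, cj g y.2)] ++ [] := by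
    rw [cjL_cons, cjL_cons, cjL_cons, cjL_cons, hg1, hg2, ← h1, ← h2]
    rfl
  rw [e1] at hz1
  have hpr : pr [(x.1, cj g x.2), (y.1, cj g y.2)] = cj g x.2 * cj g y.2 := by
    rw [pr_cons, pr_cons, pr_nil, mul_one]
  have hz2 := flow hZ hz1 (t := t) (by
    rw [hpr]
    refine inf_of_re hPU (U_mul hXU hYU) ?_ hinf
    rw [← cj_mul hg, cj_re hg, hxy, Quaternion.re_star]) (by
    rw [hpr]
    exact ht)
  have e2 : [b₁, b₂] ++ cjL t [(x.1, cj g x.2), (y.1, cj g y.2)] ++ [] = [b₁, b₂, b₃, b₄] := by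
    rw [cjL_cons, cjL_cons]
    show [b₁, b₂, (x.1, cj t (cj g x.2)), (y.1, cj t (cj g y.2))] = _
    rw [ht1, ht2, ← h3, ← h4]
  rw [e2] at hz2
  exact hz2

/-- Level sets for lists of length 4: the target `b` has `b₁ b₂` and `b₃ b₄` of the same angle as
`p q`; after a conjugation `b₁ b₂ = p q`; by `conj_pair` the pairs `(b₁, b₂)`, `(b₃, b₄)` are `cj t (p, q)`,
`cj t' (x, y)` with `t, t'` in the torus of `p q`; conjugate by `star t'` and use `flow`.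
(If the labels of the last two entries are exchanged, apply one braid move to the target first.) -/
theorem lev4 {θ : ι → ℝ} (hθ : ∀ i, 0 < θ i ∧ θ i < Real.pi) {Z : LL ι → Prop} (hZ : BClosed Z)
    {p q x y : ι × H} (hadm : Adm θ [p, q, x, y]) (hz : Z [p, q, x, y])
    (hgp : GP p q [x, y]) : Lev θ Z p.1 q.1 [x.1, y.1] (ang (p.2 * q.2)) := by
  intro b₁ b₂ r hb h1 h2 hN hang
  have hlen : r.length = 2 := by
    have := hN.length_eq
    unfold lab at this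
    rw [List.length_map] at this
    exact this
  match r, hlen, hN, hb with
  | [b₃, b₄], _, hN, hb =>
    rcases List.perm_pair.1 hN with h | h
    · have h3 : b₃.1 = x.1 := (List.cons.inj h).1
      have h4 : b₄.1 = y.1 := (List.cons.inj (List.cons.inj h).2).1
      exact prop4_lev hZ hadm hz hgp.1 hb h1 h2 h3 h4 hang
    · have h3 : b₃.1 = y.1 := (List.cons.inj h).1
      have h4 : b₄.1 = x.1 := (List.cons.inj (List.cons.inj h).2).1
      obtain ⟨a1, a2, a3, a4, a5⟩ := prop4_adm.1 hadm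
      have hz1 : Z ([p, q] ++ y :: (x.1, star y.2 * x.2 * y.2) :: []) := hZ.sw [p, q] [] x y hz
      have hc : star y.2 * x.2 * y.2 = cj (star y.2) x.2 := by
        unfold cj
        rw [star_star]
      have hadm1 : Adm θ [p, q, y, (x.1, star y.2 * x.2 * y.2)] := by
        refine prop4_adm.2 ⟨a1, a2, a4, ⟨?_, ?_⟩, ?_⟩
        · show U (star y.2 * x.2 * y.2)
          rw [hc]
          exact U_cj (U_star a4.1) a3.1
        · show (star y.2 * x.2 * y.2).re = Real.cos (θ x.1)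
          rw [hc, cj_re (U_star a4.1), a3.2]
        · show p.2 * q.2 * (y.2 * (star y.2 * x.2 * y.2)) = 1
          have : y.2 * (star y.2 * x.2 * y.2) = x.2 * y.2 := by
            calc y.2 * (star y.2 * x.2 * y.2) = (y.2 * star y.2) * x.2 * y.2 := by
                  simp only [mul_assoc]
              _ = x.2 * y.2 := by rw [U_mul_star a4.1, one_mul]
          rw [this, a5]
      exact prop4_lev hZ hadm1 hz1 hgp.1 hb h1 h2 h3 h4 hang

/-- local propagation, from `box4` and `lev4` (applied to the list, to its rotation, and back) -/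
theorem prop4_local {θ : ι → ℝ} (hθ : ∀ i, 0 < θ i ∧ θ i < Real.pi) {Z : LL ι → Prop}
    (hZ : BClosed Z) {i j k l : ι} {φ₀ : ℝ} (h1 : STri (θ i) (θ j) φ₀)
    (h2 : STri (θ k) (θ l) φ₀) :
    ∃ δ : ℝ, 0 < δ ∧ ∀ φ₁ φ₂ : ℝ, |φ₁ - φ₀| < δ → |φ₂ - φ₀| < δ → Irrational (φ₁ / Real.pi) →
      Irrational (φ₂ / Real.pi) → Lev θ Z i j [k, l] φ₁ → Lev θ Z i j [k, l] φ₂ := by
  obtain ⟨δ, hδ, y₀, hfam⟩ := box4 hθ h1 h2
  refine ⟨δ, hδ, fun φ₁ φ₂ hφ₁ hφ₂ hi1 hi2 hL => ?_⟩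
  obtain ⟨a₁, a₂, a₃, a₄, hA, l1, l2, l3, l4, hang, hre, hinf, n1, n2, n3, n4⟩ := hfam φ₁ hφ₁
  obtain ⟨b₁, b₂, b₃, b₄, hB, m1, m2, m3, m4, hang', hre', hinf', n1', n2', n3', n4'⟩ :=
    hfam φ₂ hφ₂
  have hzA : Z [a₁, a₂, a₃, a₄] := hL a₁ a₂ [a₃, a₄] hA l1 l2
    (by show [a₃.1, a₄.1].Perm [k, l]; rw [l3, l4]) hang
  have hmA : Mv [a₁, a₂, a₃, a₄] [a₂, a₃, a₄, a₁] := mv_rot (Adm_UL hA)
  have hL2 : Lev θ Z a₂.1 a₃.1 [a₄.1, a₁.1] (ang (a₂.2 * a₃.2)) :=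
    lev4 hθ hZ (Mv_Adm hmA hA) (Mv_Z hZ hmA hzA) ⟨hinf, n2, prop4_NA.2 n4⟩
  have hmB : Mv [b₁, b₂, b₃, b₄] [b₂, b₃, b₄, b₁] := mv_rot (Adm_UL hB)
  have hzB : Z [b₂, b₃, b₄, b₁] := by
    refine hL2 b₂ b₃ [b₄, b₁] (Mv_Adm hmB hB) (by rw [m2, l2]) (by rw [m3, l3])
      (by show [b₄.1, b₁.1].Perm [a₄.1, a₁.1]; rw [m4, m1, l4, l1]) ?_
    unfold ang
    rw [hre, hre']
  have hzB' : Z [b₁, b₂, b₃, b₄] := Mv_Z hZ (Mv_symm (Adm_UL hB) hmB) hzB
  have hb := prop4_adm.1 hB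
  have hI : Inf (b₁.2 * b₂.2) := (inf_iff (U_mul hb.1.1 hb.2.1.1)).2 (by rw [hang']; exact hi2)
  have h := lev4 hθ hZ hB hzB' ⟨hI, n1', prop4_NA.2 n3'⟩
  rw [m1, m2, m3, m4, hang'] at h
  exact h

/-- a local propagation property on a preconnected set is global -/
theorem prop4_conn {L : ℝ → Prop} {S : Set ℝ} (hS : IsPreconnected S)
    (hloc : ∀ φ₀ ∈ S, ∃ δ : ℝ, 0 < δ ∧ ∀ φ₁ φ₂ : ℝ, |φ₁ - φ₀| < δ → |φ₂ - φ₀| < δ →
      Irrational (φ₁ / Real.pi) → Irrational (φ₂ / Real.pi) → L φ₁ → L φ₂)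
    {φ₁ φ₂ : ℝ} (h1 : φ₁ ∈ S) (h2 : φ₂ ∈ S) (hi1 : Irrational (φ₁ / Real.pi))
    (hi2 : Irrational (φ₂ / Real.pi)) (hL : L φ₁) : L φ₂ := by
  let P : Set ℝ := {φ | ∃ δ : ℝ, 0 < δ ∧ ∀ ψ : ℝ, |ψ - φ| < δ → Irrational (ψ / Real.pi) → L ψ}
  let Q : Set ℝ := {φ | ∃ δ : ℝ, 0 < δ ∧ ∀ ψ : ℝ, |ψ - φ| < δ → Irrational (ψ / Real.pi) → ¬ L ψ}
  have hop : ∀ M : ℝ → Prop,
      IsOpen {φ : ℝ | ∃ δ : ℝ, 0 < δ ∧ ∀ ψ : ℝ, |ψ - φ| < δ → M ψ} := by
    intro M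
    rw [Metric.isOpen_iff]
    rintro φ ⟨δ, hδ, h⟩
    refine ⟨δ / 2, half_pos hδ, fun φ' hφ' => ⟨δ / 2, half_pos hδ, fun ψ hψ => h ψ ?_⟩⟩
    rw [Metric.mem_ball, Real.dist_eq] at hφ'
    calc |ψ - φ| = |(ψ - φ') + (φ' - φ)| := by ring_nf
      _ ≤ |ψ - φ'| + |φ' - φ| := abs_add_le _ _
      _ < δ := by linarith
  have hPo : IsOpen P := hop fun ψ => Irrational (ψ / Real.pi) → L ψ
  have hQo : IsOpen Q := hop fun ψ => Irrational (ψ / Real.pi) → ¬ L ψ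
  have hdis : Disjoint P Q := by
    rw [Set.disjoint_left]
    rintro φ ⟨δ, hδ, h⟩ ⟨δ', hδ', h'⟩
    obtain ⟨r, hr, hr1, hr2⟩ := exists_irrational_btwn
      (show φ / Real.pi < (φ + min δ δ') / Real.pi from
        div_lt_div_of_pos_right (by linarith [lt_min hδ hδ']) Real.pi_pos)
    have e1 : φ < r * Real.pi := (div_lt_iff₀ Real.pi_pos).1 hr1
    have e2 : r * Real.pi < φ + min δ δ' := (lt_div_iff₀ Real.pi_pos).1 hr2
    have e3 : |r * Real.pi - φ| < min δ δ' := by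
      rw [abs_lt]
      constructor <;> linarith [lt_min hδ hδ']
    have e4 : Irrational (r * Real.pi / Real.pi) := by
      rw [mul_div_cancel_right₀ _ Real.pi_ne_zero]
      exact hr
    exact h' _ (e3.trans_le (min_le_right _ _)) e4 (h _ (e3.trans_le (min_le_left _ _)) e4)
  have hcov : S ⊆ P ∪ Q := by
    intro φ hφ
    obtain ⟨δ, hδ, h⟩ := hloc φ hφ
    by_cases hex : ∃ ψ : ℝ, |ψ - φ| < δ ∧ Irrational (ψ / Real.pi) ∧ L ψ
    · obtain ⟨ψ, hψ, hψi, hψL⟩ := hex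
      exact Or.inl ⟨δ, hδ, fun ψ' hψ' hi' => h ψ ψ' hψ hψ' hψi hi' hψL⟩
    · exact Or.inr ⟨δ, hδ, fun ψ' hψ' hi' hL' => hex ⟨ψ', hψ', hi', hL'⟩⟩
  have h1P : φ₁ ∈ P := by
    rcases hcov h1 with h | ⟨δ, hδ, h⟩
    · exact h
    · exact absurd hL (h φ₁ (by rw [sub_self, abs_zero]; exact hδ) hi1)
  have hsub : S ⊆ P := hS.subset_left_of_subset_union hPo hQo hdis hcov ⟨φ₁, h1, h1P⟩
  obtain ⟨δ, hδ, h⟩ := hsub h2
  exact h φ₂ (by rw [sub_self, abs_zero]; exact hδ) hi2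

theorem prop4_global {θ : ι → ℝ} (hθ : ∀ i, 0 < θ i ∧ θ i < Real.pi) {Z : LL ι → Prop}
    (hZ : BClosed Z) {i j k l : ι} {φ₁ φ₂ : ℝ} (h1 : STri (θ i) (θ j) φ₁)
    (h1' : STri (θ k) (θ l) φ₁) (h2 : STri (θ i) (θ j) φ₂) (h2' : STri (θ k) (θ l) φ₂)
    (hi1 : Irrational (φ₁ / Real.pi)) (hi2 : Irrational (φ₂ / Real.pi))
    (hL : Lev θ Z i j [k, l] φ₁) : Lev θ Z i j [k, l] φ₂ := by
  have hconv : IsPreconnected {φ : ℝ | STri (θ i) (θ j) φ ∧ STri (θ k) (θ l) φ} := by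
    refine Set.OrdConnected.isPreconnected ⟨?_⟩
    rintro a ⟨⟨a1, a2, a3, a4⟩, b1, b2, b3, b4⟩ c ⟨⟨c1, c2, c3, c4⟩, d1, d2, d3, d4⟩ x ⟨hx1, hx2⟩
    exact ⟨⟨by linarith, by linarith, by linarith, by linarith⟩, by linarith, by linarith,
      by linarith, by linarith⟩
  exact prop4_conn (L := fun φ => Lev θ Z i j [k, l] φ) hconv
    (fun φ₀ h => prop4_local hθ hZ h.1 h.2) ⟨h1, h1'⟩ ⟨h2, h2'⟩ hi1 hi2 hL

/-- the strict triangle inequalities for both halves of an admissible list -/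
theorem prop4_stri {θ : ι → ℝ} (hθ : ∀ i, 0 < θ i ∧ θ i < Real.pi) {p q x y : ι × H}
    (hadm : Adm θ [p, q, x, y]) (h1 : ¬ Commute p.2 q.2) (h2 : ¬ Commute x.2 y.2) :
    STri (θ p.1) (θ q.1) (ang (p.2 * q.2)) ∧ STri (θ x.1) (θ y.1) (ang (p.2 * q.2)) := by
  obtain ⟨a1, a2, a3, a4, a5⟩ := prop4_adm.1 hadm
  constructor
  · have h := stri_of_mul a1.1 a2.1 h1
    rw [prop4_ang hθ a1.2, prop4_ang hθ a2.2] at h
    exact h
  · have h := stri_of_mul a3.1 a4.1 h2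
    rw [prop4_ang hθ a3.2, prop4_ang hθ a4.2, prop4_ang_star (U_mul a1.1 a2.1) a5] at h
    exact h

theorem prop4_stri_swap {a b c : ℝ} (h : STri a b c) : STri b a c :=
  ⟨by linarith [h.2.1], by linarith [h.1], by linarith [h.2.2.1], by linarith [h.2.2.2]⟩

/-- one good pair in `Z` gives the full set for this pair of labels -/
theorem full4 {θ : ι → ℝ} (hθ : ∀ i, 0 < θ i ∧ θ i < Real.pi) {Z : LL ι → Prop}
    (hZ : BClosed Z) {p q x y : ι × H} (hadm : Adm θ [p, q, x, y]) (hz : Z [p, q, x, y])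
    (hgp : GP p q [x, y]) : Full θ Z p.1 q.1 [x.1, y.1] := by
  intro b₁ b₂ r hb h1 h2 hN hgp'
  have hlen : r.length = 2 := by
    have := hN.length_eq
    unfold lab at this
    rw [List.length_map] at this
    exact this
  match r, hlen, hN, hb, hgp' with
  | [b₃, b₄], _, hN, hb, hgp' =>
    have ha := prop4_adm.1 hadm
    have hc := prop4_adm.1 hb
    obtain ⟨s1, s2⟩ := prop4_stri hθ hadm hgp.2.1 (prop4_NA.1 hgp.2.2)
    obtain ⟨s3, s4⟩ := prop4_stri hθ hb hgp'.2.1 (prop4_NA.1 hgp'.2.2)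
    rw [h1, h2] at s3
    have s5 : STri (θ x.1) (θ y.1) (ang (b₁.2 * b₂.2)) := by
      rcases List.perm_pair.1 hN with h | h
      · have h3 : b₃.1 = x.1 := (List.cons.inj h).1
        have h4 : b₄.1 = y.1 := (List.cons.inj (List.cons.inj h).2).1
        rw [h3, h4] at s4
        exact s4
      · have h3 : b₃.1 = y.1 := (List.cons.inj h).1
        have h4 : b₄.1 = x.1 := (List.cons.inj (List.cons.inj h).2).1
        rw [h3, h4] at s4
        exact prop4_stri_swap s4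
    exact prop4_global hθ hZ s1 s2 s3 s5 ((inf_iff (U_mul ha.1.1 ha.2.1.1)).1 hgp.1)
      ((inf_iff (U_mul hc.1.1 hc.2.1.1)).1 hgp'.1) (lev4 hθ hZ hadm hz hgp) b₁ b₂ [b₃, b₄] hb
      h1 h2 hN rfl

/-- change of the pair: choose a point of the box of `box4` near an irrational angle; its rotation has
a good pair with labels `j, k` -/
theorem next4 {θ : ι → ℝ} (hθ : ∀ i, 0 < θ i ∧ θ i < Real.pi) {Z : LL ι → Prop}
    (hZ : BClosed Z) {i j k l : ι} (hF : Full θ Z i j [k, l])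
    (hex : ∃ p q x y : ι × H, Adm θ [p, q, x, y] ∧ p.1 = i ∧ q.1 = j ∧ x.1 = k ∧ y.1 = l ∧
      ¬ Commute p.2 q.2 ∧ ¬ Commute x.2 y.2) : Full θ Z j k [l, i] := by
  obtain ⟨p, q, x, y, hadm, e1, e2, e3, e4, c1, c2⟩ := hex
  obtain ⟨s1, s2⟩ := prop4_stri hθ hadm c1 c2
  rw [e1, e2] at s1
  rw [e3, e4] at s2
  obtain ⟨δ, hδ, y₀, hfam⟩ := box4 hθ s1 s2
  obtain ⟨r, hr, hr1, hr2⟩ := exists_irrational_btwn
    (show ang (p.2 * q.2) / Real.pi < (ang (p.2 * q.2) + δ) / Real.pi from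
      div_lt_div_of_pos_right (by linarith) Real.pi_pos)
  have f1 : ang (p.2 * q.2) < r * Real.pi := (div_lt_iff₀ Real.pi_pos).1 hr1
  have f2 : r * Real.pi < ang (p.2 * q.2) + δ := (lt_div_iff₀ Real.pi_pos).1 hr2
  obtain ⟨b₁, b₂, b₃, b₄, hB, m1, m2, m3, m4, hang', hre', hinf', n1', n2', n3', n4'⟩ :=
    hfam (r * Real.pi) (by rw [abs_lt]; constructor <;> linarith)
  have hb := prop4_adm.1 hB
  have hI : Inf (b₁.2 * b₂.2) := by
    refine (inf_iff (U_mul hb.1.1 hb.2.1.1)).2 ?_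
    rw [hang', mul_div_cancel_right₀ _ Real.pi_ne_zero]
    exact hr
  have hz : Z [b₁, b₂, b₃, b₄] := hF b₁ b₂ [b₃, b₄] hB m1 m2
    (by show [b₃.1, b₄.1].Perm [k, l]; rw [m3, m4]) ⟨hI, n1', prop4_NA.2 n3'⟩
  have hmB : Mv [b₁, b₂, b₃, b₄] [b₂, b₃, b₄, b₁] := mv_rot (Adm_UL hB)
  have h := full4 hθ hZ (Mv_Adm hmB hB) (Mv_Z hZ hmB hz) ⟨hinf', n2', prop4_NA.2 n4'⟩
  rw [m1, m2, m3, m4] at h
  exact h

end Pool.Agent.W24dbe6
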