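import Pool.Agent.W_MP_24dbe6_h58.SwapB
import Pool.Agent.W_MP_24dbe6_h58.Prop4

set_option autoImplicit false

/-!
From one pair of labels to all pairs.
-/

namespace Pool.Agent.W24dbe6

open Quaternion

variable {ι : Type}

theorem full_perm {θ : ι → ℝ} {Z : LL ι → Prop} {i j : ι} {N N' : List ι} (h : N.Perm N')
    (hF : Full θ Z i j N) : Full θ Z i j N' :=
  fun b₁ b₂ r ha h1 h2 hl hgp => hF b₁ b₂ r ha h1 h2 (hl.trans h.symm) hgp

/-- the effect of one braid move on the first two entries -/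
theorem swap_data {b₁ b₂ : ι × H} (h1 : U b₁.2) :
    b₁.2 * b₂.2 * star b₁.2 * b₁.2 = b₁.2 * b₂.2 ∧
      (Commute (b₁.2 * b₂.2 * star b₁.2) b₁.2 ↔ Commute b₁.2 b₂.2) := by
  refine ⟨?_, ?_⟩
  · rw [mul_assoc, U_star_mul h1, mul_one]
  · have e1 : cj b₁.2 b₁.2 = b₁.2 := cj_of_commute h1 (Commute.refl _)
    have e2 : Commute (cj b₁.2 b₂.2) (cj b₁.2 b₁.2) ↔ Commute b₂.2 b₁.2 := commute_cj h1 _ _
    rw [e1] at e2
    rw [Commute.symm_iff (a := b₁.2)]
    exact e2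

/-- exchange of the two labels: one braid move on the target, and back -/
theorem full_swap {θ : ι → ℝ} {Z : LL ι → Prop} (hZ : BClosed Z) {i j : ι} {N : List ι}
    (hF : Full θ Z i j N) : Full θ Z j i N := by
  intro b₁ b₂ r ha h1 h2 hl hgp
  obtain ⟨g1, g2, g3⟩ := hgp
  have hU : UL (b₁ :: b₂ :: r) := Adm_UL ha
  have hU1 : U b₁.2 := (UL_cons.1 hU).1
  have hb := Bv_sw0' b₁ b₂ r
  obtain ⟨e1, e2⟩ := swap_data (b₂ := b₂) hU1
  have hz : Z ((b₂.1, b₁.2 * b₂.2 * star b₁.2) :: b₁ :: r) := by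
    refine hF _ _ r (Mv_Adm (Mv_of_Bv hb) ha) h2 h1 hl ⟨?_, ?_, g3⟩
    · show Inf (b₁.2 * b₂.2 * star b₁.2 * b₁.2)
      rw [e1]
      exact g1
    · show ¬ Commute (b₁.2 * b₂.2 * star b₁.2) b₁.2
      rw [e2]
      exact g2
  exact Bv_Z hZ (Bv_symm hU hb) hz

/-- the same for `n = 4`, with the existence statement carried along -/
theorem full_next4 {θ : ι → ℝ} (hθ : ∀ i, 0 < θ i ∧ θ i < Real.pi) {Z : LL ι → Prop}
    (hZ : BClosed Z) {i j k l : ι} (hF : Full θ Z i j [k, l])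
    (hex : ∃ (p q : ι × H) (r : LL ι), Adm θ (p :: q :: r) ∧ p.1 = i ∧ q.1 = j ∧
      lab r = [k, l] ∧ ¬ Commute p.2 q.2 ∧ NA r) :
    Full θ Z j k [l, i] ∧ ∃ (p q : ι × H) (r : LL ι), Adm θ (p :: q :: r) ∧ p.1 = j ∧
      q.1 = k ∧ lab r = [l, i] ∧ ¬ Commute p.2 q.2 ∧ NA r := by
  obtain ⟨p, q, r, ha, hp1, hq1, hr, hpq, hna⟩ := hex
  obtain ⟨x, y, rfl, hx1, hy1⟩ : ∃ x y : ι × H, r = [x, y] ∧ x.1 = k ∧ y.1 = l := by
    match r, hr with
    | [], hr => simp [lab] at hr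
    | [x], hr => simp [lab] at hr
    | [x, y], hr =>
      simp only [lab, List.map_cons, List.map_nil, List.cons.injEq, and_true] at hr
      exact ⟨x, y, rfl, hr.1, hr.2⟩
    | x :: y :: z :: r, hr => simp [lab] at hr
  have hxy : ¬ Commute x.2 y.2 := by
    intro hc
    obtain ⟨a, ha', b, hb', hab⟩ := hna
    rw [List.mem_cons, List.mem_singleton] at ha' hb'
    rcases ha' with rfl | rfl <;> rcases hb' with rfl | rfl
    · exact hab (Commute.refl _)
    · exact hab hc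
    · exact hab hc.symm
    · exact hab (Commute.refl _)
  refine ⟨next4 hθ hZ hF ⟨p, q, x, y, ha, hp1, hq1, hx1, hy1, hpq, hxy⟩, ?_⟩
  have hp0 := ha.1 p (by simp)
  have hq0 := ha.1 q (by simp)
  have hx0 := ha.1 x (by simp)
  have hy0 := ha.1 y (by simp)
  have hang : ∀ z : ι × H, z.2.re = Real.cos (θ z.1) → ang z.2 = θ z.1 := by
    intro z hz
    unfold ang
    rw [hz]
    exact Real.arccos_cos (hθ z.1).1.le (hθ z.1).2.le
  have s1 := stri_of_mul hp0.1 hq0.1 hpq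
  have s2 := stri_of_mul hx0.1 hy0.1 hxy
  rw [hang p hp0.2, hang q hq0.2, hp1, hq1] at s1
  rw [hang x hx0.2, hang y hy0.2, hx1, hy1] at s2
  have hpr := ha.2
  rw [pr_cons, pr_cons, pr_cons, pr_cons, pr_nil, mul_one, ← mul_assoc] at hpr
  have hUpq : U (p.2 * q.2) := U_mul hp0.1 hq0.1
  have hxyp : x.2 * y.2 = star (p.2 * q.2) := by
    calc x.2 * y.2 = star (p.2 * q.2) * (p.2 * q.2) * (x.2 * y.2) := by
          rw [U_star_mul hUpq, one_mul]
      _ = star (p.2 * q.2) * (p.2 * q.2 * (x.2 * y.2)) := by rw [mul_assoc]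
      _ = star (p.2 * q.2) := by rw [hpr, mul_one]
  have hangs : ang (x.2 * y.2) = ang (p.2 * q.2) := by
    rw [hxyp]
    unfold ang
    rw [Quaternion.re_star]
  rw [hangs] at s2
  obtain ⟨δ, hδ, y₀, hbox⟩ := box4 hθ s1 s2
  obtain ⟨b₁, b₂, b₃, b₄, hb, l1, l2, l3, l4, -, -, -, -, c23, -, c41⟩ :=
    hbox (ang (p.2 * q.2)) (by rw [sub_self, abs_zero]; exact hδ)
  have hrot : Adm θ ([b₂, b₃, b₄] ++ [b₁]) := Mv_Adm (mv_rot (Adm_UL hb)) hb
  refine ⟨b₂, b₃, [b₄, b₁], hrot, l2, l3, ?_, c23, ?_⟩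
  · show [b₄.1, b₁.1] = [l, i]
    rw [l4, l1]
  · exact ⟨b₄, by simp, b₁, by simp, c41⟩

/-- the combined property used for the passage to all pairs -/
def Good (θ : ι → ℝ) (Z : LL ι → Prop) (i j : ι) (N : List ι) : Prop :=
  Full θ Z i j N ∧ ∃ (p q : ι × H) (r : LL ι), Adm θ (p :: q :: r) ∧ p.1 = i ∧
    q.1 = j ∧ (lab r).Perm N ∧ ¬ Commute p.2 q.2 ∧ NA r

theorem good_perm {θ : ι → ℝ} {Z : LL ι → Prop} {i j : ι} {N N' : List ι} (h : N.Perm N')
    (hG : Good θ Z i j N) : Good θ Z i j N' := by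
  obtain ⟨hF, p, q, r, ha, hp, hq, hr, hpq, hna⟩ := hG
  exact ⟨full_perm h hF, p, q, r, ha, hp, hq, hr.trans h, hpq, hna⟩

theorem good_swap {θ : ι → ℝ} {Z : LL ι → Prop} (hZ : BClosed Z) {i j : ι} {N : List ι}
    (hG : Good θ Z i j N) : Good θ Z j i N := by
  obtain ⟨hF, p, q, r, ha, hp, hq, hr, hpq, hna⟩ := hG
  have hU1 : U p.2 := (UL_cons.1 (Adm_UL ha)).1
  obtain ⟨e1, e2⟩ := swap_data (b₂ := q) hU1
  refine ⟨full_swap hZ hF, (q.1, p.2 * q.2 * star p.2), p, r,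
    Mv_Adm (Mv_of_Bv (Bv_sw0' p q r)) ha, hq, hp, hr, ?_, hna⟩
  show ¬ Commute (p.2 * q.2 * star p.2) p.2
  rw [e2]
  exact hpq

theorem good_next {n : ℕ} (hn : 4 ≤ n) (hA4 : n ≠ 4 → ThmA 4) (hA : n ≠ 4 → ThmA (n - 1))
    {θ : ι → ℝ} (hθ : ∀ i, 0 < θ i ∧ θ i < Real.pi) {Z : LL ι → Prop} (hZ : BClosed Z)
    {i j k : ι} {M : List ι} (hlen : M.length + 3 = n) (hG : Good θ Z i j (k :: M)) :
    Good θ Z j k (i :: M) := by
  obtain ⟨hF, p, q, r, ha, hp, hq, hr, hpq, hna⟩ := hG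
  have hU := Adm_UL ha
  have hUr : UL r := (UL_cons.1 (UL_cons.1 hU).2).2
  obtain ⟨r', hb, hlab⟩ := reorder hr
  have ha' : Adm θ (p :: q :: r') := Mv_Adm (Mv_of_Bv (Bv_cons (Bv_cons hb q) p)) ha
  have hna' : NA r' := (Bv_NA hb hUr).2 hna
  have hex : ∃ (p q : ι × H) (r : LL ι), Adm θ (p :: q :: r) ∧ p.1 = i ∧ q.1 = j ∧
      lab r = k :: M ∧ ¬ Commute p.2 q.2 ∧ NA r := ⟨p, q, r', ha', hp, hq, hlab, hpq, hna'⟩
  have key : Full θ Z j k (M ++ [i]) ∧ ∃ (p q : ι × H) (r : LL ι), Adm θ (p :: q :: r) ∧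
      p.1 = j ∧ q.1 = k ∧ lab r = M ++ [i] ∧ ¬ Commute p.2 q.2 ∧ NA r := by
    by_cases h4 : n = 4
    · obtain ⟨l, rfl⟩ : ∃ l, M = [l] := List.length_eq_one_iff.1 (by omega)
      exact full_next4 hθ hZ hF hex
    · exact full_next (n := n - 1) (by omega) (hA4 h4) (hA h4) hθ hZ (by omega) hF hex
  obtain ⟨k1, p', q', s, k2, k3, k4, k5, k6, k7⟩ := key
  have hperm : (M ++ [i]).Perm (i :: M) := List.perm_append_comm
  refine ⟨full_perm hperm k1, p', q', s, k2, k3, k4, ?_, k6, k7⟩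
  rw [k5]
  exact hperm

/-- all pairs of labels: (swap) `(i, j) → (j, i)` and (next) `(i, j) → (j, k)`, `k` any label in the rest,
reach every ordered pair -/
theorem good_all {n : ℕ} (hn : 4 ≤ n) (hA4 : n ≠ 4 → ThmA 4) (hA : n ≠ 4 → ThmA (n - 1))
    {θ : ι → ℝ} (hθ : ∀ i, 0 < θ i ∧ θ i < Real.pi) {Z : LL ι → Prop} (hZ : BClosed Z)
    {i j : ι} {N : List ι} (hlen : N.length + 2 = n) (hG : Good θ Z i j N) {i' j' : ι}
    {N' : List ι} (hperm : (i' :: j' :: N').Perm (i :: j :: N)) : Good θ Z i' j' N' := by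
  -- bring `i'` to the first place
  have step1 : ∃ (m : ι) (M : List ι), (j' :: N').Perm (m :: M) ∧ Good θ Z i' m M := by
    have hi : i' ∈ i :: j :: N := hperm.subset List.mem_cons_self
    rw [List.mem_cons, List.mem_cons] at hi
    rcases hi with rfl | rfl | hi
    · exact ⟨j, N, hperm.cons_inv, hG⟩
    · exact ⟨i, N, (hperm.trans (List.Perm.swap i' i N)).cons_inv, good_swap hZ hG⟩
    · obtain ⟨l, r, rfl⟩ := List.append_of_mem hi
      have h1 : (l ++ i' :: r).Perm (i' :: (l ++ r)) := List.perm_middle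
      have hlen' : (l ++ r).length + 3 = n := by
        rw [← hlen, List.length_append, List.length_append, List.length_cons]
        omega
      have h2 := good_swap hZ (good_next hn hA4 hA hθ hZ hlen' (good_perm h1 hG))
      refine ⟨j, i :: (l ++ r), ?_, h2⟩
      have h3 : (i' :: j' :: N').Perm (i' :: j :: i :: (l ++ r)) := by
        refine hperm.trans ?_
        refine ((h1.cons j).cons i).trans ?_
        refine ((List.Perm.swap i' j (l ++ r)).cons i).trans ?_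
        refine (List.Perm.swap i' i (j :: (l ++ r))).trans ?_
        exact (List.Perm.swap j i (l ++ r)).cons i'
      exact h3.cons_inv
  obtain ⟨m, M, hM, hG'⟩ := step1
  have hj : j' ∈ m :: M := hM.subset List.mem_cons_self
  rw [List.mem_cons] at hj
  rcases hj with rfl | hj
  · exact good_perm hM.cons_inv.symm hG'
  · obtain ⟨l, r, rfl⟩ := List.append_of_mem hj
    have h1 : (l ++ j' :: r).Perm (j' :: (l ++ r)) := List.perm_middle
    have hlen' : (l ++ r).length + 3 = n := by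
      have e1 := hperm.length_eq
      have e2 := hM.length_eq
      simp only [List.length_append, List.length_cons] at e1 e2 hlen ⊢
      omega
    have h2 := good_next hn hA4 hA hθ hZ hlen' (good_swap hZ (good_perm h1 hG'))
    refine good_perm ?_ h2
    have h3 : (j' :: N').Perm (j' :: m :: (l ++ r)) := by
      refine hM.trans ?_
      refine (h1.cons m).trans ?_
      exact List.Perm.swap j' m (l ++ r)
    exact h3.cons_inv.symm

end Pool.Agent.W24dbe6
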