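import Pool.Agent.W_MP_24dbe6_h58.First
import Pool.Agent.W_MP_24dbe6_h58.Swap
import Pool.Agent.W_MP_24dbe6_h58.NonAb
import Pool.Agent.W_MP_24dbe6_h58.Ab

set_option autoImplicit false

/-!
The main theorem `ThmA n`, `n ≥ 4`.
-/

namespace Pool.Agent.W24dbe6

open Quaternion

variable {ι : Type}

/-- end of the proof: from one `Good` pair of labels to everything -/
theorem all_of_good {n : ℕ} (hn : 4 ≤ n) (hA4 : n ≠ 4 → ThmA 4) (hA : n ≠ 4 → ThmA (n - 1))
    {θ : ι → ℝ} (hθ : ∀ i, 0 < θ i ∧ θ i < Real.pi) {Z : LL ι → Prop} (hZ : BClosed Z)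
    {i j : ι} {N : List ι} (hlen : N.length + 2 = n) (hG : Good θ Z i j N) {b : LL ι}
    (hb : Adm θ b) (hp : (lab b).Perm (i :: j :: N)) : Z b := by
  have hF : ∀ (i' j' : ι) (N' : List ι), (i' :: j' :: N').Perm (i :: j :: N) →
      Full θ Z i' j' N' := fun i' j' N' h => (good_all hn hA4 hA hθ hZ hlen hG h).1
  have hnonab : ∀ b : LL ι, Adm θ b → (lab b).Perm (i :: j :: N) → NA b → Z b := by
    intro b hb hp hna
    exact nonab hθ hZ (M := i :: j :: N) (by simp only [List.length_cons]; omega) hF hb hp hna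
  by_cases hna : NA b
  · exact hnonab b hb hp hna
  · obtain ⟨_, p, q, r, ha, rfl, rfl, hr, hpq, hrna⟩ := hG
    have hna' : NA (p :: q :: r) := by
      obtain ⟨x, hx, y, hy, hxy⟩ := hrna
      exact ⟨x, by simp [hx], y, by simp [hy], hxy⟩
    have hperm : (lab (p :: q :: r)).Perm (p.1 :: q.1 :: N) := by
      have h0 : lab (p :: q :: r) = p.1 :: q.1 :: lab r := by simp [lab]
      rw [h0]
      exact (hr.cons q.1).cons p.1
    have hlenb : 4 ≤ b.length := by
      have h1 := hp.length_eq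
      simp only [lab, List.length_map, List.length_cons] at h1
      omega
    refine hZ.cl b fun ε hε => ?_
    obtain ⟨b', hb', hlab, hbna, hnear⟩ :=
      ab_limit hθ hb hna hlenb ha hna' (hperm.trans hp.symm) hε
    exact ⟨b', hnonab b' hb' (by rw [hlab]; exact hp) hbna, hnear⟩

theorem thmA4 : ThmA 4 := by
  intro ι θ Z hθ hZ p q r hlen hadm hz hgp _ b hb hperm
  obtain ⟨x, y, rfl⟩ : ∃ x y, r = [x, y] := by
    match r, hlen with
    | [x, y], _ => exact ⟨x, y, rfl⟩
  have hF := full4 hθ hZ hadm hz hgp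
  refine all_of_good le_rfl (fun h => absurd rfl h) (fun h => absurd rfl h) hθ hZ
    (i := p.1) (j := q.1) (N := [x.1, y.1]) rfl ⟨hF, p, q, [x, y], hadm, rfl, rfl, ?_, hgp.2.1,
      hgp.2.2⟩ hb ?_
  · simp [lab]
  · simpa [lab] using hperm

theorem thmA : ∀ n : ℕ, 4 ≤ n → ThmA n := by
  intro n hn
  induction n, hn using Nat.le_induction with
  | base => exact thmA4
  | succ n hn ih =>
    intro ι θ Z hθ hZ p q r hlen hadm hz hgp hd b hb hperm
    have hd' : ¬ Dih (p :: q :: r) := by
      rcases hd with h | h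
      · omega
      · exact h
    obtain ⟨b₁, b₂, s, hadm', hlab, hgp', hL⟩ := first_lev hn ih hθ hZ hlen hadm hz hgp hd'
    have hlen' : (b₁ :: b₂ :: s).length = n + 1 := by
      have h1 := hlab.length_eq
      simp only [lab, List.length_map, List.length_cons] at h1 hlen ⊢
      omega
    have hF := full_of_lev hn thmA4 ih hθ hZ hlen' hadm' hgp' hL
    refine all_of_good (n := n + 1) (by omega) (fun _ => thmA4) (fun _ => by simpa using ih) hθ hZ
      (i := b₁.1) (j := b₂.1) (N := lab s) ?_ ⟨hF, b₁, b₂, s, hadm', rfl, rfl, List.Perm.refl _,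
        hgp'.2.1, hgp'.2.2⟩ hb ?_
    · simp only [lab, List.length_map, List.length_cons] at hlen' ⊢
      omega
    · have h2 : (lab (b₁ :: b₂ :: s)) = b₁.1 :: b₂.1 :: lab s := by simp [lab]
      rw [← h2]
      exact hperm.trans hlab.symm

end Pool.Agent.W24dbe6
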