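import Pool.Agent.W_MP_24dbe6_h58.PairC
import Pool.Agent.W_MP_24dbe6_h58.Main

set_option autoImplicit false

/-!
The main theorem for lists which may have central entries.
-/

namespace Pool.Agent.W24dbe6

open Quaternion

theorem central_uniq {ι : Type} : ∀ (A A' B B' : LL ι) (c c' : H),
    A.map (fun p => (some p.1, p.2)) ++ ((none : Option ι), c) :: B.map (fun p => (some p.1, p.2)) =
      A'.map (fun p => (some p.1, p.2)) ++ (none, c') :: B'.map (fun p => (some p.1, p.2)) →
    A = A' ∧ c = c' ∧ B = B'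
  | [], [], B, B', c, c', h => by
    simp only [List.map_nil, List.nil_append, List.cons.injEq] at h
    exact ⟨rfl, congrArg Prod.snd h.1, lft_injective h.2⟩
  | [], a :: A', B, B', c, c', h => by
    simp at h
  | a :: A, [], B, B', c, c', h => by
    simp at h
  | a :: A, a' :: A', B, B', c, c', h => by
    rw [List.map_cons, List.map_cons, List.cons_append, List.cons_append, List.cons.injEq] at h
    obtain ⟨h1, h2, h3⟩ := central_uniq A A' B B' c c' h.2
    refine ⟨?_, h2, h3⟩
    rw [h1]
    congr 1
    have k1 := congrArg Prod.fst h.1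
    have k2 := congrArg Prod.snd h.1
    exact Prod.ext (Option.some.inj k1) k2

/-- the case without central entries -/
theorem central_base {ι : Type} {θ : ι → ℝ} (hθ : ∀ i, 0 ≤ θ i ∧ θ i ≤ Real.pi) {Z : LL ι → Prop}
    (hZ : BClosed Z) {p q : ι × H} {r : LL ι} (hadm : Adm θ (p :: q :: r))
    (hz : Z (p :: q :: r)) (hgp : GP p q r)
    (hd : nNC (p :: q :: r) = 4 ∨ ¬ Dih (p :: q :: r)) (hnc : ∀ x ∈ p :: q :: r, NC x.2)
    {b : LL ι} (hb : Adm θ b) (hl : (lab b).Perm (lab (p :: q :: r))) : Z b := by
  classical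
  have hU := Adm_UL hadm
  have hlen : nNC (p :: q :: r) = (p :: q :: r).length := nNC_eq_length.2 hnc
  have h4 : 4 ≤ (p :: q :: r).length := hlen ▸ GP_nNC hU hgp
  obtain ⟨θ', hθd⟩ : ∃ θ' : ι → ℝ, ∀ i, θ' i = if 0 < θ i ∧ θ i < Real.pi then θ i
      else Real.pi / 2 := ⟨_, fun _ => rfl⟩
  have hθ' : ∀ i, 0 < θ' i ∧ θ' i < Real.pi := by
    intro i
    rw [hθd]
    by_cases h : 0 < θ i ∧ θ i < Real.pi
    · rw [if_pos h]
      exact h
    · rw [if_neg h]
      have := Real.pi_pos
      constructor <;> linarith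
  have hok : ∀ i ∈ lab (p :: q :: r), θ' i = θ i := by
    intro i hi
    obtain ⟨x, hx, rfl⟩ := List.mem_map.1 hi
    have h1 := hadm.1 x hx
    have h2 := (NC_iff h1.1).1 (hnc x hx)
    rw [h1.2] at h2
    have h3 : 0 < θ x.1 ∧ θ x.1 < Real.pi := by
      constructor
      · rcases (hθ x.1).1.lt_or_eq with h | h
        · exact h
        · rw [← h, Real.cos_zero] at h2
          exact absurd h2.2 (lt_irrefl _)
      · rcases (hθ x.1).2.lt_or_eq with h | h
        · exact h
        · rw [h, Real.cos_pi] at h2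
          exact absurd h2.1 (lt_irrefl _)
    rw [hθd, if_pos h3]
  have hadm' : Adm θ' (p :: q :: r) :=
    ⟨fun x hx => ⟨(hadm.1 x hx).1, by
      rw [hok x.1 (List.mem_map_of_mem hx)]
      exact (hadm.1 x hx).2⟩, hadm.2⟩
  have hb' : Adm θ' b :=
    ⟨fun x hx => ⟨(hb.1 x hx).1, by
      rw [hok x.1 (hl.subset (List.mem_map_of_mem hx))]
      exact (hb.1 x hx).2⟩, hb.2⟩
  refine thmA _ h4 ι θ' Z hθ' hZ p q r rfl hadm' hz hgp ?_ b hb' hl
  rcases hd with h | h
  · left
    rw [← hlen]
    exact h
  · right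
    exact h

theorem central_inf_neg {x : H} (h : Inf x) : Inf (-x) := by
  intro m hm h1
  apply h (m * 2) (by omega)
  have h2 : (-x) ^ (m * 2) = x ^ (m * 2) := Even.neg_pow ⟨m, by omega⟩ x
  rw [← h2, pow_mul, h1, one_pow]

/-- a unit with the real part of a central unit is equal to it -/
theorem central_eq {x z : H} (hx : U x) (hz : U z) (hzc : ¬ NC z) (h : x.re = z.re) : x = z := by
  have hxc : ¬ NC x := by
    rw [NC_iff hx, h, ← NC_iff hz]
    exact hzc
  have h1 : (1 : H).re = 1 := rfl
  have h2 : (-1 : H).re = -1 := by simp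
  rcases eq_of_not_NC hx hxc with e | e <;> rcases eq_of_not_NC hz hzc with f | f
  · rw [e, f]
  · rw [e, f, h1, h2] at h
    norm_num at h
  · rw [e, f, h1, h2] at h
    norm_num at h
  · rw [e, f]

theorem central_nNC_lft {ι : Type} (L : LL ι) : nNC (lft L) = nNC L := by
  unfold nNC lft
  rw [List.countP_map]
  rfl

theorem central_aux (n : ℕ) : ∀ (ι : Type) (θ : ι → ℝ), (∀ i, 0 ≤ θ i ∧ θ i ≤ Real.pi) →
    ∀ Z : LL ι → Prop, BClosed Z → ∀ (p q : ι × H) (r : LL ι), r.length = n →
      Adm θ (p :: q :: r) → Z (p :: q :: r) → GP p q r →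
      (nNC (p :: q :: r) = 4 ∨ ¬ Dih (p :: q :: r)) → ∀ b : LL ι, Adm θ b →
      (lab b).Perm (lab (p :: q :: r)) → Z b := by
  induction n with
  | zero =>
    intro ι θ hθ Z hZ p q r hlen hadm hz hgp
    have h0 : r = [] := List.length_eq_zero_iff.1 hlen
    subst h0
    obtain ⟨_, _, x, hx, _⟩ := hgp
    exact absurd hx (List.not_mem_nil)
  | succ n ih =>
    intro ι θ hθ Z hZ p q r hlen hadm hz hgp hd b hb hl
    by_cases hnc : ∀ x ∈ p :: q :: r, NC x.2
    · exact central_base hθ hZ hadm hz hgp hd hnc hb hl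
    push Not at hnc
    obtain ⟨z, hzm, hzc⟩ := hnc
    have hU := Adm_UL hadm
    obtain ⟨hinf, hpq, hna⟩ := hgp
    have hzr : z ∈ r := by
      rcases List.mem_cons.1 hzm with rfl | hzm
      · exact absurd (commute_of_not_NC hzc _) hpq
      · rcases List.mem_cons.1 hzm with rfl | hzm
        · exact absurd (commute_of_not_NC hzc _).symm hpq
        · exact hzm
    obtain ⟨r₁, r₂, rfl⟩ := List.append_of_mem hzr
    have hUz : U z.2 := hU z (by simp)
    have hUp : U p.2 := hU p (by simp)
    have hUq : U q.2 := hU q (by simp)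
    have hcz : ∀ y : H, Commute z.2 y := commute_of_not_NC hzc
    have hz1 : z.2 = 1 ∨ z.2 = -1 := eq_of_not_NC hUz hzc
    have hfix : ∀ L : LL ι, cjL (star z.2) L = L := fun L =>
      cjL_of_commute (U_star hUz) (fun x _ => (commute_star hUz).2 (hcz x.2))
    have hmove : ∀ l s : LL ι, Bv (l ++ z :: s) (z :: (l ++ s)) := by
      intro l s
      have h := reorder_front l s z
      rwa [hfix] at h
    have hbv1 : Bv (p :: q :: (r₁ ++ z :: r₂)) (p :: z :: q :: (r₁ ++ r₂)) :=
      Bv_cons (hmove (q :: r₁) r₂) p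
    have hZ1 : Z (p :: z :: q :: (r₁ ++ r₂)) := Bv_Z hZ hbv1 hz
    have hadm1 : Adm θ (p :: z :: q :: (r₁ ++ r₂)) := Mv_Adm (Mv_of_Bv hbv1) hadm
    have hw : U (p.2 * z.2) := U_mul hUp hUz
    have hwpm : p.2 * z.2 = p.2 ∨ p.2 * z.2 = -p.2 := by
      rcases hz1 with h | h
      · left
        rw [h, mul_one]
      · right
        rw [h, mul_neg, mul_one]
    have hwq : ¬ Commute (p.2 * z.2) q.2 := by
      rcases hwpm with h | h
      · rw [h]
        exact hpq
      · rw [h, Commute.neg_left_iff]
        exact hpq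
    have hNw : NC (p.2 * z.2) := by
      by_contra h
      exact hwq (commute_of_not_NC h _)
    have hNp : NC p.2 := by
      by_contra h
      exact hpq (commute_of_not_NC h _)
    have hopt : ∀ i, 0 ≤ optθ θ (ang (p.2 * z.2)) i ∧ optθ θ (ang (p.2 * z.2)) i ≤ Real.pi := by
      intro i
      cases i with
      | none => exact ang_mem _
      | some i => exact hθ i
    have hS : UL [p, z] := by
      intro w hw
      simp only [List.mem_cons, List.not_mem_nil, or_false] at hw
      rcases hw with rfl | rfl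
      · exact hUp
      · exact hUz
    have hcl : BClosed (Hide Z [p, z]) := hide_closed hZ hS
    have hadm0 : Adm (optθ θ (ang (p.2 * z.2)))
        ((none, p.2 * z.2) :: (some q.1, q.2) :: lft (r₁ ++ r₂)) := by
      constructor
      · intro w hw
        rcases List.mem_cons.1 hw with hw | hw
        · subst hw
          exact ⟨U_mul hUp hUz, (U_cos_ang (U_mul hUp hUz)).symm⟩
        · have hw' : w ∈ lft (q :: (r₁ ++ r₂)) := hw
          obtain ⟨v, hv, hvw⟩ := List.mem_map.1 hw'
          subst hvw
          exact hadm1.1 v (List.mem_cons_of_mem _ (List.mem_cons_of_mem _ hv))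
      · have h5 := hadm1.2
        rw [pr_cons, pr_cons] at h5
        have h6 : pr ((none, p.2 * z.2) :: (some q.1, q.2) :: lft (r₁ ++ r₂)) =
            (p.2 * z.2) * pr (lft (q :: (r₁ ++ r₂))) := by
          rw [pr_cons]
          rfl
        rw [h6, pr_lft, mul_assoc]
        exact h5
    have hz0 : Hide Z [p, z] ((none, p.2 * z.2) :: (some q.1, q.2) :: lft (r₁ ++ r₂)) := by
      refine ⟨[], q :: (r₁ ++ r₂), 1, U_one, ?_, ?_⟩
      · rw [List.map_nil, List.nil_append, cj_one_left, pr_cons, pr_cons, pr_nil, mul_one]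
        rfl
      · rw [cjL_one]
        exact hZ1
    have hgp0 : GP ((none : Option ι), p.2 * z.2) (some q.1, q.2) (lft (r₁ ++ r₂)) := by
      refine ⟨?_, hwq, ?_⟩
      · show Inf (p.2 * z.2 * q.2)
        rcases hwpm with h | h
        · rw [h]
          exact hinf
        · rw [h, neg_mul]
          exact central_inf_neg hinf
      · obtain ⟨x, hx, y, hy, hxy⟩ := hna
        have hx' : x ∈ r₁ ++ r₂ := by
          rw [List.mem_append, List.mem_cons] at hx
          rcases hx with hx | hx | hx
          · exact List.mem_append.2 (Or.inl hx)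
          · exfalso
            apply hxy
            rw [hx]
            exact hcz _
          · exact List.mem_append.2 (Or.inr hx)
        have hy' : y ∈ r₁ ++ r₂ := by
          rw [List.mem_append, List.mem_cons] at hy
          rcases hy with hy | hy | hy
          · exact List.mem_append.2 (Or.inl hy)
          · exfalso
            apply hxy
            rw [hy]
            exact (hcz _).symm
          · exact List.mem_append.2 (Or.inr hy)
        exact ⟨(some x.1, x.2), List.mem_map_of_mem hx', (some y.1, y.2), List.mem_map_of_mem hy',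
          hxy⟩
    have hd0 : nNC ((none, p.2 * z.2) :: (some q.1, q.2) :: lft (r₁ ++ r₂)) = 4 ∨
        ¬ Dih (((none : Option ι), p.2 * z.2) :: (some q.1, q.2) :: lft (r₁ ++ r₂)) := by
      rcases hd with h | h
      · left
        have h1 : nNC (((none : Option ι), p.2 * z.2) :: (some q.1, q.2) :: lft (r₁ ++ r₂)) =
            nNC (lft (q :: (r₁ ++ r₂))) + 1 := nNC_cons_NC (p := (none, p.2 * z.2)) hNw _
        have h2 : nNC (p :: q :: (r₁ ++ z :: r₂)) = nNC (q :: (r₁ ++ z :: r₂)) + 1 :=
          nNC_cons_NC hNp _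
        have h3 : nNC (q :: (r₁ ++ z :: r₂)) = nNC (q :: r₁) + nNC (z :: r₂) :=
          nNC_append (q :: r₁) (z :: r₂)
        have h4 : nNC (q :: (r₁ ++ r₂)) = nNC (q :: r₁) + nNC r₂ := nNC_append (q :: r₁) r₂
        rw [nNC_cons_central hzc] at h3
        rw [h1, central_nNC_lft]
        omega
      · right
        rintro ⟨u, hu, hur, hall⟩
        apply h
        refine ⟨u, hu, hur, ?_⟩
        intro x hx
        have hx1 : x = p ∨ x = z ∨ x ∈ q :: (r₁ ++ r₂) := by
          simp only [List.mem_cons, List.mem_append] at hx ⊢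
          tauto
        rcases hx1 with hx1 | hx1 | hx1
        · rw [hx1]
          have h5 : p.2 * z.2 * u = u * (p.2 * z.2) ∨ p.2 * z.2 * u = -(u * (p.2 * z.2)) :=
            hall (none, p.2 * z.2) (by simp)
          rcases hwpm with h6 | h6
          · rw [h6] at h5
            exact h5
          · rw [h6] at h5
            simp only [neg_mul, mul_neg, neg_neg] at h5
            rcases h5 with h5 | h5
            · left
              exact neg_injective h5
            · right
              rw [← h5, neg_neg]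
        · left
          rw [hx1]
          exact hcz u
        · exact hall (some x.1, x.2) (List.mem_cons_of_mem _ (by
            have h7 : (some x.1, x.2) ∈ lft (q :: (r₁ ++ r₂)) := List.mem_map_of_mem hx1
            exact h7))
    -- the target
    have hz1b : z.1 ∈ lab b := hl.symm.subset (List.mem_map_of_mem hzm)
    obtain ⟨e, heb, hez⟩ := List.mem_map.1 hz1b
    have hre_z : z.2.re = Real.cos (θ z.1) := (hadm.1 z hzm).2
    have hez2 : e.2 = z.2 := by
      refine central_eq (hb.1 e heb).1 hUz hzc ?_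
      rw [(hb.1 e heb).2, hre_z, hez]
    have hez' : e = z := Prod.ext hez hez2
    subst hez'
    obtain ⟨b₁, b₂, rfl⟩ := List.append_of_mem heb
    have hbv2 : Bv (b₁ ++ e :: b₂) (e :: (b₁ ++ b₂)) := hmove b₁ b₂
    have hperm1 : (lab (b₁ ++ b₂)).Perm (p.1 :: q.1 :: lab (r₁ ++ r₂)) := by
      have h1 : (e.1 :: lab (b₁ ++ b₂)).Perm (lab (b₁ ++ e :: b₂)) := Bv_perm hbv2
      have h2 : (p.1 :: e.1 :: q.1 :: lab (r₁ ++ r₂)).Perm (lab (p :: q :: (r₁ ++ e :: r₂))) :=
        Bv_perm hbv1
      have h3 : (e.1 :: lab (b₁ ++ b₂)).Perm (e.1 :: p.1 :: q.1 :: lab (r₁ ++ r₂)) :=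
        (h1.trans (hl.trans h2.symm)).trans (List.Perm.swap _ _ _)
      exact (List.perm_cons e.1).1 h3
    have hp1 : p.1 ∈ lab (b₁ ++ b₂) := hperm1.symm.subset List.mem_cons_self
    obtain ⟨f, hfb, hfp⟩ := List.mem_map.1 hp1
    obtain ⟨l, s, hls⟩ := List.append_of_mem hfb
    have hperm2 : (lab (l ++ s)).Perm (q.1 :: lab (r₁ ++ r₂)) := by
      rw [hls, lab_append] at hperm1
      have h1 : (lab l ++ lab (f :: s)).Perm (f.1 :: (lab l ++ lab s)) := List.perm_middle
      rw [hfp] at h1
      rw [lab_append]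
      exact (List.perm_cons p.1).1 (h1.symm.trans hperm1)
    have hbv3 : Bv (l ++ f :: e :: s) (e :: (l ++ f :: s)) := by
      have h := hmove (l ++ [f]) s
      simpa using h
    have hUb : UL (b₁ ++ e :: b₂) := Adm_UL hb
    have hadm2 : Adm θ (e :: (l ++ f :: s)) := by
      rw [← hls]
      exact Mv_Adm (Mv_of_Bv hbv2) hb
    have hUf : U f.2 := (hadm2.1 f (by simp)).1
    have hfre : f.2.re = p.2.re := by
      rw [(hadm2.1 f (by simp)).2, (hadm.1 p (by simp)).2, hfp]
    have hU3 : UL (l ++ f :: e :: s) := by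
      intro x hx
      refine (hadm2.1 x ?_).1
      simp only [List.mem_cons, List.mem_append] at hx ⊢
      tauto
    have hpr3 : pr (l ++ f :: e :: s) = 1 := by
      rw [← Bv_pr hbv3 hU3]
      exact hadm2.2
    have hB : Adm (optθ θ (ang (p.2 * e.2)))
        (lft l ++ ((none : Option ι), f.2 * e.2) :: lft s) := by
      constructor
      · intro w hw
        rw [List.mem_append, List.mem_cons] at hw
        rcases hw with hw | hw | hw
        · obtain ⟨v, hv, hvw⟩ := List.mem_map.1 hw
          subst hvw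
          exact hadm2.1 v (by simp [hv])
        · subst hw
          refine ⟨U_mul hUf hUz, ?_⟩
          show (f.2 * e.2).re = Real.cos (ang (p.2 * e.2))
          rw [U_cos_ang (U_mul hUp hUz)]
          rcases hz1 with h | h
          · rw [h, mul_one, mul_one, hfre]
          · rw [h, mul_neg, mul_neg, mul_one, mul_one, Quaternion.re_neg, Quaternion.re_neg, hfre]
        · obtain ⟨v, hv, hvw⟩ := List.mem_map.1 hw
          subst hvw
          exact hadm2.1 v (by simp [hv])
      · rw [pr_append, pr_cons, pr_lft, pr_lft]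
        rw [pr_append, pr_cons, pr_cons] at hpr3
        rw [← hpr3]
        simp only [mul_assoc]
    have hpermB : (lab (lft l ++ ((none : Option ι), f.2 * e.2) :: lft s)).Perm
        (lab ((none, p.2 * e.2) :: (some q.1, q.2) :: lft (r₁ ++ r₂))) := by
      have h1 : lab (lft l ++ ((none : Option ι), f.2 * e.2) :: lft s) =
          (lab l).map some ++ none :: (lab s).map some := by
        rw [lab_append, lab_lft]
        show _ ++ none :: lab (lft s) = _
        rw [lab_lft]
      have h2 : lab (((none : Option ι), p.2 * e.2) :: (some q.1, q.2) :: lft (r₁ ++ r₂)) =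
          none :: (q.1 :: lab (r₁ ++ r₂)).map some := by
        show none :: some q.1 :: lab (lft (r₁ ++ r₂)) = _
        rw [lab_lft]
        rfl
      rw [h1, h2]
      refine List.perm_middle.trans ?_
      rw [← List.map_append, ← lab_append]
      exact (hperm2.map some).cons none
    have hlen' : (lft (r₁ ++ r₂)).length = n := by
      unfold lft
      rw [List.length_map]
      simp only [List.length_append, List.length_cons] at hlen ⊢
      omega
    have hHB := ih (Option ι) (optθ θ (ang (p.2 * e.2))) hopt (Hide Z [p, e]) hcl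
      (none, p.2 * e.2) (some q.1, q.2) (lft (r₁ ++ r₂)) hlen' hadm0 hz0 hgp0 hd0 _ hB hpermB
    obtain ⟨l', s', g, hg, heq, hZg⟩ := hHB
    obtain ⟨h1, h2, h3⟩ := central_uniq _ _ _ _ _ _ heq
    subst h1
    subst h3
    have hcg : cj g e.2 = e.2 := cj_of_commute hg (hcz g).symm
    have hfc : f.2 = cj g p.2 := by
      rw [pr_cons, pr_cons, pr_nil, mul_one, cj_mul hg, hcg] at h2
      calc f.2 = f.2 * e.2 * star e.2 := by rw [mul_assoc, U_mul_star hUz, mul_one]
        _ = cj g p.2 * e.2 * star e.2 := by rw [h2]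
        _ = cj g p.2 := by rw [mul_assoc, U_mul_star hUz, mul_one]
    have hcjL : cjL g [p, e] = [f, e] := by
      rw [cjL_cons, cjL_cons, hcg, ← hfc, ← hfp]
      rfl
    rw [hcjL] at hZg
    have hZ3 : Z (l ++ f :: e :: s) := by simpa using hZg
    have hZ2 : Z (e :: (b₁ ++ b₂)) := by
      rw [hls]
      exact Bv_Z hZ hbv3 hZ3
    exact Bv_Z hZ (Bv_symm hUb hbv2) hZ2

/-- Induction on the length of `p :: q :: r` (for all `ι`).  If all entries are non-central use `thmA`,
with `θ` replaced by `π/2` at the labels where it is not in `(0, π)` (they do not occur).  Otherwise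
`r = r₁ ++ z :: r₂` with `z` central; moving `z` past other entries changes nothing, so
`Z ([p, z] ++ q :: (r₁ ++ r₂))`.  Apply the induction hypothesis to `Hide Z [p, z]`, the angles
`optθ θ (ang (p.2 * z.2))` and the list `(none, p.2 * z.2) :: (some q.1, q.2) :: lft (r₁ ++ r₂)`
(good pair: `p z q = ± p q`).  The target `b` has an entry with label `p.1` and an entry with label
`z.1`, the latter is equal to `z.2` (same real part `± 1`); move it next to the right of the former,
`b' = l ++ [(p.1, x), (z.1, z.2)] ++ s`; then `lft l ++ (none, x * z.2) :: lft s` is in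
`Hide Z [p, z]`, where `none` occurs once, so `Z (l ++ cjL g [p, z] ++ s)` with
`cj g (p.2 * z.2) = x * z.2`, so `cj g p.2 = x` and the list is `b'`. -/
theorem central {ι : Type} {θ : ι → ℝ} (hθ : ∀ i, 0 ≤ θ i ∧ θ i ≤ Real.pi) {Z : LL ι → Prop}
    (hZ : BClosed Z) {p q : ι × H} {r : LL ι} (hadm : Adm θ (p :: q :: r))
    (hz : Z (p :: q :: r)) (hgp : GP p q r)
    (hd : nNC (p :: q :: r) = 4 ∨ ¬ Dih (p :: q :: r)) {b : LL ι} (hb : Adm θ b)
    (hl : (lab b).Perm (lab (p :: q :: r))) : Z b :=
  central_aux r.length ι θ hθ Z hZ p q r rfl hadm hz hgp hd b hb hl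

end Pool.Agent.W24dbe6
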