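import Pool.Agent.W_MP_24dbe6_h58.Reps

set_option autoImplicit false

/-!
Closures in the character space.
-/

namespace Pool.Agent.W24dbe6

open Quaternion

/-- evaluation at the generators -/
private def evG (n : ℕ) (ρ : Pi1 n →* SU2) : Fin n → SU2 := fun i => ρ (c i)

private theorem continuous_eval {n : ℕ} (x : Pi1 n) :
    Continuous (fun ρ : Pi1 n →* SU2 => ρ x) := by
  have h : Continuous (fun (ρ : Pi1 n →* SU2) (y : Pi1 n) => ρ y) := continuous_induced_dom
  exact (continuous_apply x).comp h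

/-- conjugation as a map on `Hom` -/
private def cjHom {n : ℕ} (g : SU2) (ρ : Pi1 n →* SU2) : Pi1 n →* SU2 :=
  (MulAut.conj g).toMonoidHom.comp ρ

private theorem cjHom_apply {n : ℕ} (g : SU2) (ρ : Pi1 n →* SU2) (x : Pi1 n) :
    cjHom g ρ x = g * ρ x * g⁻¹ := by
  simp [cjHom]

private theorem continuous_cjHom {n : ℕ} (g : SU2) :
    Continuous (cjHom g : (Pi1 n →* SU2) → (Pi1 n →* SU2)) := by
  refine continuous_induced_rng.2 ?_
  refine continuous_pi fun x => ?_
  have : (fun ρ : Pi1 n →* SU2 => g * ρ x * g⁻¹) =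
      (fun ρ : Pi1 n →* SU2 => ((fun (ρ : Pi1 n →* SU2) (y : Pi1 n) => ρ y) (cjHom g ρ)) x) := by
    funext ρ
    exact (cjHom_apply g ρ x).symm
  have h2 : Continuous (fun ρ : Pi1 n →* SU2 => g * ρ x * g⁻¹) :=
    (continuous_const.mul (continuous_eval x)).mul continuous_const
  rw [this] at h2
  exact h2

private theorem isOpenMap_cls (n : ℕ) : IsOpenMap (cls : (Pi1 n →* SU2) → CharVar n) := by
  intro V hV
  have hq : Topology.IsQuotientMap (cls : (Pi1 n →* SU2) → CharVar n) := isQuotientMap_quotient_mk'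
  rw [← hq.isOpen_preimage]
  have h1 : cls ⁻¹' (cls '' V) = ⋃ g : SU2, (cjHom g : (Pi1 n →* SU2) → (Pi1 n →* SU2)) ⁻¹' V := by
    ext σ
    simp only [Set.mem_preimage, Set.mem_image, Set.mem_iUnion]
    constructor
    · rintro ⟨v, hv, hvs⟩
      obtain ⟨g, hg⟩ : ∃ g : SU2, ∀ x, v x = g * σ x * g⁻¹ := Quotient.exact hvs.symm
      refine ⟨g, ?_⟩
      have : cjHom g σ = v := by
        ext1 x
        rw [cjHom_apply, hg]
      rw [this]; exact hv
    · rintro ⟨g, hg⟩
      refine ⟨cjHom g σ, hg, ?_⟩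
      refine (Quotient.sound ?_ : cls σ = cls (cjHom g σ)).symm
      exact ⟨g, fun x => cjHom_apply g σ x⟩
  rw [h1]
  exact isOpen_iUnion fun g => hV.preimage (continuous_cjHom g)

private theorem continuous_cls (n : ℕ) : Continuous (cls : (Pi1 n →* SU2) → CharVar n) :=
  continuous_quotient_mk'

private theorem continuous_inv_SU2 : Continuous (fun A : SU2 => A⁻¹) := by
  rw [toH_isEmbedding.continuous_iff]
  have : (toH ∘ fun A : SU2 => A⁻¹) = fun A : SU2 => star (toH A) := by
    funext A
    exact toH_inv A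
  rw [this]
  exact continuous_star.comp toH_isEmbedding.continuous

private theorem isInducing_evG (n : ℕ) : Topology.IsInducing (evG n) := by
  refine ⟨le_antisymm ?_ ?_⟩
  · rw [← continuous_iff_le_induced]
    exact continuous_pi fun i => continuous_eval (c i)
  · have key : ∀ x : Pi1 n, @Continuous _ _ (TopologicalSpace.induced (evG n) Pi.topologicalSpace) _
        (fun ρ : Pi1 n →* SU2 => ρ x) := by
      let _ : TopologicalSpace (Pi1 n →* SU2) := TopologicalSpace.induced (evG n) Pi.topologicalSpace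
      have hgen : ∀ i, Continuous (fun ρ : Pi1 n →* SU2 => ρ (c i)) := by
        intro i
        have h : Continuous (evG n) := continuous_induced_dom
        exact (continuous_apply i).comp h
      intro x
      obtain ⟨w, rfl⟩ := PresentedGroup.mk_surjective _ x
      induction w using FreeGroup.induction_on with
      | C1 => simp only [map_one]; exact continuous_const
      | of i => exact hgen i
      | inv_of i h =>
        simp only [map_inv]
        exact continuous_inv_SU2.comp (hgen i)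
      | mul a b ha hb =>
        simp only [map_mul]
        exact ha.mul hb
    have h2 : @Continuous _ _ (TopologicalSpace.induced (evG n) Pi.topologicalSpace) _
        (fun (ρ : Pi1 n →* SU2) (y : Pi1 n) => ρ y) := by
      let _ : TopologicalSpace (Pi1 n →* SU2) := TopologicalSpace.induced (evG n) Pi.topologicalSpace
      exact continuous_pi key
    exact continuous_iff_le_induced.1 h2

/-- `[σ]` is in the closure of a set `S` of characters iff `σ` can be approximated on the generators by
representations with class in `S`.  (The quotient map is open, because `SU(2)` acts by homeomorphisms;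
the topology of `Hom(π, SU(2))` is also the one of pointwise convergence on the generators, because
all `σ x` are words in them; `toH_isEmbedding`.) -/
theorem mem_closure_char {n : ℕ} (σ : Pi1 n →* SU2) (S : Set (CharVar n)) :
    cls σ ∈ closure S ↔ ∀ ε : ℝ, 0 < ε → ∃ τ : Pi1 n →* SU2, cls τ ∈ S ∧
      ∀ i, dist (toH (σ (c i))) (toH (τ (c i))) < ε := by
  have h1 : (cls : (Pi1 n →* SU2) → CharVar n) ⁻¹' closure S = closure (cls ⁻¹' S) :=
    (isOpenMap_cls n).preimage_closure_eq_closure_preimage (continuous_cls n) S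
  have h2 : cls σ ∈ closure S ↔ σ ∈ closure (cls ⁻¹' S) := by
    rw [← h1]; rfl
  rw [h2]
  have hi : Topology.IsInducing (fun (ρ : Pi1 n →* SU2) (i : Fin n) => toH (ρ (c i))) := by
    have h3 : Topology.IsInducing (Pi.map (fun _ : Fin n => toH)) :=
      Topology.IsInducing.piMap fun _ => toH_isEmbedding.isInducing
    exact h3.comp (isInducing_evG n)
  rw [hi.closure_eq_preimage_closure_image, Set.mem_preimage, Metric.mem_closure_iff]
  constructor
  · intro h ε hε
    obtain ⟨b, ⟨τ, hτ, rfl⟩, hb⟩ := h ε hε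
    exact ⟨τ, hτ, fun i => (dist_pi_lt_iff hε).1 hb i⟩
  · intro h ε hε
    obtain ⟨τ, hτ, hb⟩ := h ε hε
    exact ⟨_, ⟨τ, hτ, rfl⟩, (dist_pi_lt_iff hε).2 hb⟩

private theorem near_Lst {n : ℕ} (σ τ : Pi1 n →* SU2) (g : H) (ε : ℝ) :
    Near ε (Lst σ) (cjL g (Lst τ)) ↔
      ∀ i, dist (toH (σ (c i))) (cj g (toH (τ (c i)))) < ε := by
  unfold Near Lst cjL
  rw [List.map_ofFn, List.forall₂_iff_get]
  constructor
  · rintro ⟨_, h⟩ i
    have := h i (by simp) (by simp)
    simpa using this
  · intro h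
    refine ⟨by simp, fun i h1 h2 => ?_⟩
    simp only [List.length_ofFn] at h1 h2
    simpa using h ⟨i, h1⟩

/-- the same for the orbit, in terms of lists -/
theorem mem_closure_orb {n : ℕ} (ρ σ : Pi1 n →* SU2) :
    cls σ ∈ closure (orb ρ) ↔ ∀ ε : ℝ, 0 < ε → ∃ φ ∈ MCG n, ∃ g : H, U g ∧
      Near ε (Lst σ) (cjL g (Lst (ρ.comp (φ : Pi1 n →* Pi1 n)))) := by
  rw [mem_closure_char]
  refine forall₂_congr fun ε _ => ?_
  constructor
  · rintro ⟨τ, ⟨φ, hφ, hτ⟩, hd⟩
    obtain ⟨g, hg, hc⟩ := (cls_eq_iff _ _).1 hτ.symm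
    refine ⟨φ, hφ, g, hg, (near_Lst _ _ _ _).2 fun i => ?_⟩
    rw [← hc]
    exact hd i
  · rintro ⟨φ, hφ, g, hg, hn⟩
    obtain ⟨A, rfl⟩ := exists_toH hg
    refine ⟨cjHom A (ρ.comp (φ : Pi1 n →* Pi1 n)), ⟨φ, hφ, ?_⟩, fun i => ?_⟩
    · refine (Quotient.sound ?_ : cls (ρ.comp (φ : Pi1 n →* Pi1 n)) = cls (cjHom A _)).symm
      exact ⟨A, fun x => cjHom_apply A _ x⟩
    · rw [cjHom_apply, toH_conj]
      exact (near_Lst _ _ _ _).1 hn i

end Pool.Agent.W24dbe6
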