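import Mathlib

set_option autoImplicit false

/-!
# MP_24dbe6_gt: working definitions

`SU(2)` is handled as the group of unit quaternions.  A representation of the `n`-holed sphere group is a
list of labelled unit quaternions with product `1`; the (full) braid group acts by the moves `sw`, `sw'`
which carry the labels along.
-/

namespace Pool.Agent.W24dbe6

open Quaternion

/-- real quaternions -/
abbrev H : Type := Quaternion ℝ

/-- unit quaternion -/
def U (x : H) : Prop := ‖x‖ = 1

/-- non-central quaternion -/
def NC (x : H) : Prop := x.im ≠ 0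

/-- conjugation by `g` -/
noncomputable def cj (g x : H) : H := g * x * star g

/-- the angle of a unit quaternion, in `[0, π]` -/
noncomputable def ang (x : H) : ℝ := Real.arccos x.re

/-- infinite order -/
def Inf (x : H) : Prop := ∀ m : ℕ, 0 < m → x ^ m ≠ 1

/-- `y` anticommutes with the imaginary part of `w`: `y` lies in `N(T_w)` but not in the torus `T_w` -/
def Anti (y w : H) : Prop := y * w.im = -(w.im * y)

/-- the spherical triangle inequalities for three angles in `[0, π]` -/
def Tri (a b c : ℝ) : Prop := a ≤ b + c ∧ b ≤ a + c ∧ c ≤ a + b ∧ a + b + c ≤ 2 * Real.pi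

/-- strict spherical triangle inequalities -/
def STri (a b c : ℝ) : Prop := a < b + c ∧ b < a + c ∧ c < a + b ∧ a + b + c < 2 * Real.pi

/-- the centralizer torus of `w` : unit quaternions commuting with `w` -/
def Tor (w : H) : Set H := {t | U t ∧ Commute t w}

section Lists

variable {ι : Type}

/-- labelled lists of quaternions -/
abbrev LL (ι : Type) : Type := List (ι × H)

/-- the labels -/
def lab (L : LL ι) : List ι := L.map Prod.fst

/-- the product of the entries -/
noncomputable def pr (L : LL ι) : H := (L.map Prod.snd).prod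

/-- simultaneous conjugation -/
noncomputable def cjL (g : H) (L : LL ι) : LL ι := L.map (fun p => (p.1, cj g p.2))

/-- same labels and entries at distance less than `ε` -/
def Near (ε : ℝ) (L L' : LL ι) : Prop :=
  List.Forall₂ (fun p q : ι × H => p.1 = q.1 ∧ dist p.2 q.2 < ε) L L'

/-- all entries are unit quaternions -/
def UL (L : LL ι) : Prop := ∀ p ∈ L, U p.2

/-- not all entries commute -/
def NA (L : LL ι) : Prop := ∃ p ∈ L, ∃ q ∈ L, ¬ Commute p.2 q.2

/-- all entries preserve a line of imaginary quaternions: the entries lie in the normalizer of a torus -/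
def Dih (L : LL ι) : Prop :=
  ∃ u : H, U u ∧ u.re = 0 ∧ ∀ p ∈ L, p.2 * u = u * p.2 ∨ p.2 * u = -(u * p.2)

/-- `L` is admissible for the angles `θ`: unit entries with the prescribed angles and product `1` -/
def Adm (θ : ι → ℝ) (L : LL ι) : Prop :=
  (∀ p ∈ L, U p.2 ∧ p.2.re = Real.cos (θ p.1)) ∧ pr L = 1

/-- closed sets of labelled lists of unit quaternions which are invariant under conjugation and under
the braid moves -/
structure BClosed (Z : LL ι → Prop) : Prop where
  unit : ∀ L, Z L → UL L
  cj : ∀ L g, U g → Z L → Z (cjL g L)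
  sw : ∀ (l r : LL ι) (p q : ι × H), Z (l ++ p :: q :: r) →
    Z (l ++ q :: (p.1, star q.2 * p.2 * q.2) :: r)
  sw' : ∀ (l r : LL ι) (p q : ι × H), Z (l ++ p :: q :: r) →
    Z (l ++ (q.1, p.2 * q.2 * star p.2) :: p :: r)
  cl : ∀ L, (∀ ε : ℝ, 0 < ε → ∃ L', Z L' ∧ Near ε L L') → Z L

/-- braid moves (no conjugation) -/
inductive Bv : LL ι → LL ι → Prop where
  | refl (L : LL ι) : Bv L L
  | sw (L l r : LL ι) (p q : ι × H) : Bv L (l ++ p :: q :: r) →
      Bv L (l ++ q :: (p.1, star q.2 * p.2 * q.2) :: r)
  | sw' (L l r : LL ι) (p q : ι × H) : Bv L (l ++ p :: q :: r) →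
      Bv L (l ++ (q.1, p.2 * q.2 * star p.2) :: p :: r)

/-- braid moves followed by a simultaneous conjugation -/
def Mv (L L' : LL ι) : Prop := ∃ (g : H) (L₁ : LL ι), U g ∧ Bv L L₁ ∧ L' = cjL g L₁

/-- the set obtained by hiding the block `S`: a list with one entry labelled `none`, which is conjugate
to `pr S`, stands for the list in which this entry is replaced by the same conjugate of `S` -/
def Hide (Z : LL ι → Prop) (S : LL ι) : LL (Option ι) → Prop := fun L =>
  ∃ (l r : LL ι) (g : H), U g ∧
    L = l.map (fun p => (some p.1, p.2)) ++ (none, cj g (pr S)) :: r.map (fun p => (some p.1, p.2)) ∧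
    Z (l ++ cjL g S ++ r)

/-- labels for lists in which a block of product angle `a` is hidden -/
def optθ (θ : ι → ℝ) (a : ℝ) : Option ι → ℝ
  | none => a
  | some i => θ i

/-- lift of a list to `Option` labels -/
def lft (L : LL ι) : LL (Option ι) := L.map (fun p => (some p.1, p.2))

/-- good pair: the first two entries of `p :: q :: r` do not commute, their product has infinite
order and the rest is not abelian -/
def GP (p q : ι × H) (r : LL ι) : Prop :=
  Inf (p.2 * q.2) ∧ ¬ Commute p.2 q.2 ∧ NA r

end Lists

/-- The main theorem for lists of length `n`, all of whose entries are non-central. -/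
def ThmA (n : ℕ) : Prop :=
  ∀ (ι : Type) (θ : ι → ℝ) (Z : LL ι → Prop), (∀ i, 0 < θ i ∧ θ i < Real.pi) → BClosed Z →
    ∀ (p q : ι × H) (r : LL ι), (p :: q :: r).length = n → Adm θ (p :: q :: r) →
      Z (p :: q :: r) → GP p q r → (n = 4 ∨ ¬ Dih (p :: q :: r)) →
      ∀ b : LL ι, Adm θ b → (lab b).Perm (lab (p :: q :: r)) → Z b

end Pool.Agent.W24dbe6
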