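import Pool.Agent.W_MP_24dbe6_h58.GeoKron
import Pool.Agent.W_MP_24dbe6_h58.GeoInf
import Pool.Agent.W_MP_24dbe6_h58.GeoConj

set_option autoImplicit false

/-!
A closed subgroup of the unit quaternions containing an element `w` of infinite order and an element
outside the normalizer of its torus is everything.
-/

namespace Pool.Agent.W24dbe6

open Quaternion

private theorem tt_sq {x : H} (hx : U x) :
    x.re ^ 2 + x.imI ^ 2 + x.imJ ^ 2 + x.imK ^ 2 = 1 := by
  rw [← Quaternion.normSq_def', Quaternion.normSq_eq_norm_mul_self, hx, one_mul]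

private theorem tt_U {x : H} (h : x.re ^ 2 + x.imI ^ 2 + x.imJ ^ 2 + x.imK ^ 2 = 1) : U x := by
  rw [← Quaternion.normSq_def', Quaternion.normSq_eq_norm_mul_self] at h
  have h1 : (‖x‖ - 1) * (‖x‖ + 1) = 0 := by linarith
  rcases mul_eq_zero.1 h1 with h2 | h2
  · show ‖x‖ = 1
    linarith
  · linarith [norm_nonneg x]

private theorem tt_angle {c s : ℝ} (h : c ^ 2 + s ^ 2 = 1) :
    ∃ σ : ℝ, Real.cos σ = c ∧ Real.sin σ = s := by
  have hn : ‖(⟨c, s⟩ : ℂ)‖ = 1 := by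
    rw [← sq_eq_sq₀ (norm_nonneg _) zero_le_one, ← Complex.normSq_eq_norm_sq, Complex.normSq_mk]
    linarith
  have h0 : (⟨c, s⟩ : ℂ) ≠ 0 := by
    intro h0
    rw [h0, norm_zero] at hn
    exact zero_ne_one hn
  refine ⟨Complex.arg ⟨c, s⟩, ?_, ?_⟩
  · rw [Complex.cos_arg h0, hn, div_one]
  · rw [Complex.sin_arg, hn, div_one]

private theorem tt_rot {a b a' b' : ℝ} (h : a ^ 2 + b ^ 2 = a' ^ 2 + b' ^ 2) :
    ∃ σ : ℝ, a' = Real.cos σ * a - Real.sin σ * b ∧ b' = Real.sin σ * a + Real.cos σ * b := by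
  by_cases h0 : a ^ 2 + b ^ 2 = 0
  · have ha : a = 0 := by
      have : a ^ 2 = 0 := by linarith [sq_nonneg a, sq_nonneg b]
      exact pow_eq_zero_iff two_ne_zero |>.1 this
    have hb : b = 0 := by
      have : b ^ 2 = 0 := by linarith [sq_nonneg a, sq_nonneg b]
      exact pow_eq_zero_iff two_ne_zero |>.1 this
    have ha' : a' = 0 := by
      have : a' ^ 2 = 0 := by linarith [sq_nonneg a', sq_nonneg b']
      exact pow_eq_zero_iff two_ne_zero |>.1 this
    have hb' : b' = 0 := by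
      have : b' ^ 2 = 0 := by linarith [sq_nonneg a', sq_nonneg b']
      exact pow_eq_zero_iff two_ne_zero |>.1 this
    exact ⟨0, by rw [ha, hb, ha']; ring, by rw [ha, hb, hb']; ring⟩
  · obtain ⟨r, hr⟩ : ∃ r, r = a ^ 2 + b ^ 2 := ⟨_, rfl⟩
    rw [← hr] at h0
    have h1 : ((a * a' + b * b') / r) ^ 2 + ((a * b' - a' * b) / r) ^ 2 = 1 := by
      rw [div_pow, div_pow, ← add_div, div_eq_one_iff_eq (pow_ne_zero 2 h0)]
      have : (a * a' + b * b') ^ 2 + (a * b' - a' * b) ^ 2 =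
          (a ^ 2 + b ^ 2) * (a' ^ 2 + b' ^ 2) := by ring
      rw [this, ← h, ← hr, sq]
    obtain ⟨σ, hc, hs⟩ := tt_angle h1
    refine ⟨σ, ?_, ?_⟩
    · rw [hc, hs, div_mul_eq_mul_div, div_mul_eq_mul_div, ← sub_div, eq_div_iff h0, hr]
      ring
    · rw [hc, hs, div_mul_eq_mul_div, div_mul_eq_mul_div, ← add_div, eq_div_iff h0, hr]
      ring

private def mk4 (a b c d : ℝ) : H := ⟨a, b, c, d⟩

private theorem mk4_re (a b c d : ℝ) : (mk4 a b c d).re = a := rfl
private theorem mk4_imI (a b c d : ℝ) : (mk4 a b c d).imI = b := rfl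
private theorem mk4_imJ (a b c d : ℝ) : (mk4 a b c d).imJ = c := rfl
private theorem mk4_imK (a b c d : ℝ) : (mk4 a b c d).imK = d := rfl

/-- the element of the standard torus -/
private noncomputable def ttE (β : ℝ) : H := mk4 (Real.cos β) (Real.sin β) 0 0

/-- the squared length of the component in the standard complex plane -/
private def ttr (y : H) : ℝ := y.re ^ 2 + y.imI ^ 2

section std

variable {G : Set H} (hU : ∀ x ∈ G, U x) (hm : ∀ x ∈ G, ∀ y ∈ G, x * y ∈ G)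
  (hE : ∀ β, ttE β ∈ G)

include hU hm hE

private theorem tt_dbl {y y' : H} (hy : y ∈ G) (hy' : U y') (h : ttr y = ttr y') : y' ∈ G := by
  have h1 := tt_sq (hU y hy)
  have h2 := tt_sq hy'
  unfold ttr at h
  obtain ⟨σ, hσ1, hσ2⟩ := tt_rot h
  have h3 : y.imJ ^ 2 + y.imK ^ 2 = y'.imJ ^ 2 + y'.imK ^ 2 := by linarith
  obtain ⟨δ, hδ1, hδ2⟩ := tt_rot h3
  have key : y' = ttE ((σ + δ) / 2) * y * ttE ((σ - δ) / 2) := by
    obtain ⟨p, hp⟩ : ∃ p, p = (σ + δ) / 2 := ⟨_, rfl⟩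
    obtain ⟨q, hq⟩ : ∃ q, q = (σ - δ) / 2 := ⟨_, rfl⟩
    have e1 : σ = p + q := by rw [hp, hq]; ring
    have e2 : δ = p - q := by rw [hp, hq]; ring
    rw [← hp, ← hq]
    rw [e1, Real.cos_add, Real.sin_add] at hσ1 hσ2
    rw [e2, Real.cos_sub, Real.sin_sub] at hδ1 hδ2
    unfold ttE
    ext
    · simp only [Quaternion.re_mul, Quaternion.imI_mul, Quaternion.imJ_mul, Quaternion.imK_mul,
        mk4_re, mk4_imI, mk4_imJ, mk4_imK]
      rw [hσ1]; ring
    · simp only [Quaternion.re_mul, Quaternion.imI_mul, Quaternion.imJ_mul, Quaternion.imK_mul,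
        mk4_re, mk4_imI, mk4_imJ, mk4_imK]
      rw [hσ2]; ring
    · simp only [Quaternion.re_mul, Quaternion.imI_mul, Quaternion.imJ_mul, Quaternion.imK_mul,
        mk4_re, mk4_imI, mk4_imJ, mk4_imK]
      rw [hδ1]; ring
    · simp only [Quaternion.re_mul, Quaternion.imI_mul, Quaternion.imJ_mul, Quaternion.imK_mul,
        mk4_re, mk4_imI, mk4_imJ, mk4_imK]
      rw [hδ2]; ring
  rw [key]
  exact hm _ (hm _ (hE _) _ hy) _ (hE _)

private theorem tt_step {r s : ℝ} (hr0 : 0 < r) (hr1 : r < 1) (hr : ∃ y ∈ G, ttr y = r)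
    (hs0 : (2 * r - 1) ^ 2 ≤ s) (hs1 : s ≤ 1) : ∃ y ∈ G, ttr y = s := by
  obtain ⟨y, hy, hyr⟩ := hr
  obtain ⟨R, hR⟩ : ∃ R, R = √r := ⟨_, rfl⟩
  obtain ⟨S, hS⟩ : ∃ S, S = √(1 - r) := ⟨_, rfl⟩
  have hR2 : R ^ 2 = r := by rw [hR]; exact Real.sq_sqrt hr0.le
  have hS2 : S ^ 2 = 1 - r := by rw [hS]; exact Real.sq_sqrt (by linarith)
  have hy0 : mk4 R 0 S 0 ∈ G := by
    refine tt_dbl hU hm hE hy (tt_U ?_) ?_
    · show R ^ 2 + (0 : ℝ) ^ 2 + S ^ 2 + (0 : ℝ) ^ 2 = 1
      rw [hR2, hS2]; ring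
    · rw [hyr]
      show r = R ^ 2 + (0 : ℝ) ^ 2
      rw [hR2]; ring
  have hB : 0 < 2 * r * (1 - r) := by
    have : 0 < 1 - r := by linarith
    positivity
  obtain ⟨c, hc⟩ : ∃ c, c = (r ^ 2 + (1 - r) ^ 2 - s) / (2 * r * (1 - r)) := ⟨_, rfl⟩
  have hc1 : c ≤ 1 := by
    rw [hc, div_le_one hB]
    linarith
  have hc0 : -1 ≤ c := by
    rw [hc, le_div_iff₀ hB]
    linarith
  have hcs : c * (2 * r * (1 - r)) = r ^ 2 + (1 - r) ^ 2 - s := by
    rw [hc, div_mul_cancel₀ _ hB.ne']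
  obtain ⟨β, hβ⟩ : ∃ β, β = Real.arccos c / 2 := ⟨_, rfl⟩
  have h2β : Real.cos (2 * β) = c := by
    rw [hβ, mul_div_cancel₀ _ two_ne_zero, Real.cos_arccos hc0 hc1]
  have hcos : Real.cos β ^ 2 = (1 + c) / 2 := by
    rw [Real.cos_sq, h2β]; ring
  have hsin : Real.sin β ^ 2 = (1 - c) / 2 := by
    rw [Real.sin_sq, hcos]; ring
  refine ⟨mk4 R 0 S 0 * ttE β * mk4 R 0 S 0, hm _ (hm _ hy0 _ (hE β)) _ hy0, ?_⟩
  unfold ttr ttE
  simp only [Quaternion.re_mul, Quaternion.imI_mul, Quaternion.imJ_mul, Quaternion.imK_mul,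
        mk4_re, mk4_imI, mk4_imJ, mk4_imK]
  have e1 : (R * Real.cos β - 0 * Real.sin β - S * 0 - 0 * 0) * R -
      (R * Real.sin β + 0 * Real.cos β + S * 0 - 0 * 0) * 0 -
      (R * 0 - 0 * 0 + S * Real.cos β + 0 * Real.sin β) * S -
      (R * 0 + 0 * 0 - S * Real.sin β + 0 * Real.cos β) * 0 = (2 * r - 1) * Real.cos β := by
    linear_combination Real.cos β * hR2 - Real.cos β * hS2
  have e2 : (R * Real.cos β - 0 * Real.sin β - S * 0 - 0 * 0) * 0 +
      (R * Real.sin β + 0 * Real.cos β + S * 0 - 0 * 0) * R +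
      (R * 0 - 0 * 0 + S * Real.cos β + 0 * Real.sin β) * 0 -
      (R * 0 + 0 * 0 - S * Real.sin β + 0 * Real.cos β) * S = Real.sin β := by
    linear_combination Real.sin β * hR2 + Real.sin β * hS2
  rw [e1, e2, mul_pow, hcos, hsin]
  linear_combination (-1) * hcs

private theorem tt_all {x : H} (hx : x ∈ G) (h0 : 0 < ttr x) (h1 : ttr x < 1) {y : H}
    (hy : U y) : y ∈ G := by
  have hone : ∃ y ∈ G, ttr y = 1 := by
    refine ⟨ttE 0, hE 0, ?_⟩
    unfold ttr ttE
    simp [mk4_re, mk4_imI]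
  -- the start
  obtain ⟨δ₀, hδ₀, hδ₁, hP0⟩ : ∃ δ : ℝ, 0 < δ ∧ δ ≤ 1 / 2 ∧
      ∀ s, 1 - δ ≤ s → s ≤ 1 → ∃ y ∈ G, ttr y = s := by
    have hlt : (2 * ttr x - 1) ^ 2 < 1 := by
      have : 0 < 4 * (ttr x * (1 - ttr x)) := by
        have : 0 < 1 - ttr x := by linarith
        positivity
      linarith
    refine ⟨min (1 / 2) (1 - (2 * ttr x - 1) ^ 2), lt_min (by norm_num) (by linarith),
      min_le_left _ _, fun s hs hs1 => ?_⟩
    refine tt_step hU hm hE h0 h1 ⟨x, hx, rfl⟩ ?_ hs1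
    have := min_le_right (1 / 2) (1 - (2 * ttr x - 1) ^ 2)
    linarith
  have hdouble : ∀ δ : ℝ, 0 < δ → δ ≤ 1 / 2 → (∀ s, 1 - δ ≤ s → s ≤ 1 → ∃ y ∈ G, ttr y = s) →
      ∀ s, 1 - 2 * δ ≤ s → s ≤ 1 → ∃ y ∈ G, ttr y = s := by
    intro δ hd0 hd1 hP s hs hs1
    refine tt_step hU hm hE (r := 1 - δ) (by linarith) (by linarith)
      (hP (1 - δ) le_rfl (by linarith)) ?_ hs1
    have : 0 ≤ δ * (1 / 2 - δ) := mul_nonneg hd0.le (by linarith)
    linarith
  have hn : ∀ n : ℕ, ∀ s, 1 - min (2 ^ n * δ₀) (1 / 2) ≤ s → s ≤ 1 → ∃ y ∈ G, ttr y = s := by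
    intro n
    induction n with
    | zero =>
      intro s hs hs1
      rw [pow_zero, one_mul, min_eq_left hδ₁] at hs
      exact hP0 s hs hs1
    | succ n ih =>
      intro s hs hs1
      refine hdouble _ (lt_min (by positivity) (by norm_num)) (min_le_right _ _) ih s ?_ hs1
      refine le_trans ?_ hs
      have h2 : min (2 ^ (n + 1) * δ₀) (1 / 2) ≤ 2 * min (2 ^ n * δ₀) (1 / 2) := by
        rcases le_total (2 ^ n * δ₀) (1 / 2) with h3 | h3
        · rw [min_eq_left h3]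
          refine (min_le_left _ _).trans ?_
          rw [pow_succ]
          linarith
        · rw [min_eq_right h3]
          exact (min_le_right _ _).trans (by norm_num)
      linarith
  have hhalf : ∃ y ∈ G, ttr y = 1 / 2 := by
    obtain ⟨n, hn'⟩ := pow_unbounded_of_one_lt (1 / δ₀) (one_lt_two (α := ℝ))
    refine hn n (1 / 2) ?_ (by norm_num)
    rw [min_eq_right]
    · norm_num
    · rw [div_lt_iff₀ hδ₀] at hn'
      linarith
  have hsq := tt_sq hy
  have hy1 : ttr y ≤ 1 := by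
    unfold ttr
    linarith [sq_nonneg y.imJ, sq_nonneg y.imK]
  have hy0 : 0 ≤ ttr y := by
    unfold ttr
    positivity
  obtain ⟨z, hz, hzr⟩ := tt_step hU hm hE (r := 1 / 2) (s := ttr y) (by norm_num) (by norm_num)
    hhalf (by norm_num; exact hy0) hy1
  exact tt_dbl hU hm hE hz hy hzr

end std

/-- Proof: `G` contains the torus `T` of `w` (`kron`).  Let `C = ℝ + ℝ u` (`exists_axis`), `C^⊥` its
orthogonal complement; write `x = p + q` with `p ∈ C`, `q ∈ C^⊥`.  The double coset `T x T` consists of all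
units `p' + q'` with `|p'| = |p|`, `|q'| = |q|` (`t x t' = t t' p + t t'⁻¹ q`, and `(t t', t t'⁻¹)` is an
arbitrary pair of units of `C`).  So `G = {y : |p(y)| ∈ K}` for a set `K ⊆ [0, 1]`, `1 ∈ K`.  Let
`B = {β ∈ [0, π/2] : cos β ∈ K}`.  The product of elements of the double cosets of `cos α + sin α v`
with itself (`v ∈ C^⊥` a unit): `(cos α + sin α v) t (cos α + sin α v)` has component
`t cos² α - t⁻¹ sin² α` in `C`, whose modulus takes all values between `|cos 2α|` and `1`.  Hence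
`α ∈ B` implies `[0, min (2α) (π - 2α)] ⊆ B`.  The given `x` has `α ∈ (0, π/2)` (it neither commutes
nor anticommutes).  So `B ⊇ [0, α₀]` for some `α₀ > 0`; doubling (`α ≤ π/4` gives `[0, 2α] ⊆ B`) gives
`B = [0, π/2]`. -/
theorem two_tori {G : Set H} (hU : ∀ x ∈ G, U x) (h1' : (1 : H) ∈ G)
    (hm : ∀ x ∈ G, ∀ y ∈ G, x * y ∈ G)
    (hc : ∀ x : H, (∀ ε : ℝ, 0 < ε → ∃ y ∈ G, dist x y < ε) → x ∈ G) {w x : H} (hw : w ∈ G)
    (hinf : Inf w) (hx : x ∈ G) (h1 : ¬ Commute x w) (h2 : ¬ Anti x w) : ∀ y : H, U y → y ∈ G := by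
  have hUw := hU w hw
  have hNC : NC w := by
    by_contra hn
    rcases eq_of_not_NC hUw hn with h | h
    · exact hinf 1 one_pos (by rw [h, pow_one])
    · exact hinf 2 two_pos (by rw [h]; simp)
  obtain ⟨u, hu, hur, hcomm, hanti⟩ := exists_axis hNC
  have hi : U (mk4 0 1 0 0) := tt_U (by
    show (0 : ℝ) ^ 2 + (1 : ℝ) ^ 2 + (0 : ℝ) ^ 2 + (0 : ℝ) ^ 2 = 1
    norm_num)
  obtain ⟨g, hg, hgu⟩ := conj_of_re hu hi (by rw [hur, mk4_re])
  have hpow : ∀ m : ℕ, w ^ m ∈ G := by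
    intro m
    induction m with
    | zero => rw [pow_zero]; exact h1'
    | succ m ih => rw [pow_succ]; exact hm _ ih _ hw
  have huu : u * u = -1 := by
    have hnu := tt_sq hu
    rw [hur] at hnu
    ext
    · simp [hur]; linarith
    · simp [hur]; ring
    · simp [hur]; ring
    · simp [hur]; ring
  have htor : ∀ β : ℝ, ((Real.cos β : ℝ) : H) + ((Real.sin β : ℝ) : H) * u ∈ G := by
    intro β
    apply hc
    have hT : ((Real.cos β : ℝ) : H) + ((Real.sin β : ℝ) : H) * u ∈ Tor w := by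
      refine ⟨?_, ?_⟩
      · have hnu := tt_sq hu
        rw [hur] at hnu
        apply tt_U
        simp [hur]
        have := Real.sin_sq_add_cos_sq β
        have h3 : Real.sin β ^ 2 * (0 ^ 2 + u.imI ^ 2 + u.imJ ^ 2 + u.imK ^ 2) =
          Real.sin β ^ 2 * 1 := by rw [hnu]
        linarith
      · rw [hcomm, add_mul, mul_add, Quaternion.coe_commutes (Real.cos β) u,
          Quaternion.coe_commutes (Real.sin β) u, mul_assoc, Quaternion.coe_commutes (Real.sin β) u]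
    intro ε hε
    obtain ⟨m, hm'⟩ := kron hUw hinf hT hε
    exact ⟨w ^ m, hpow m, by rw [dist_comm]; exact hm'⟩
  have hcoe : ∀ r : ℝ, cj g ((r : ℝ) : H) = ((r : ℝ) : H) := fun r =>
    cj_of_commute hg (Quaternion.coe_commutes r g).symm
  -- the transported group
  have hmem : ∀ y : H, cj g y ∈ {z | cj (star g) z ∈ G} ↔ y ∈ G := by
    intro y
    show cj (star g) (cj g y) ∈ G ↔ y ∈ G
    rw [cj_star_cj hg]
  have hG' : ∀ y : H, U y → y ∈ {z | cj (star g) z ∈ G} := by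
    intro y hy
    refine tt_all (x := cj g x) ?_ ?_ ?_ ((hmem x).2 hx) ?_ ?_ hy
    · intro z hz
      have h3 := hU _ (show cj (star g) z ∈ G from hz)
      have h4 := U_cj hg h3
      rwa [cj_cj_star hg] at h4
    · intro z hz z' hz'
      show cj (star g) (z * z') ∈ G
      rw [cj_mul (U_star hg)]
      exact hm _ hz _ hz'
    · intro β
      have h3 : ttE β = cj g (((Real.cos β : ℝ) : H) + ((Real.sin β : ℝ) : H) * u) := by
        rw [cj_add, cj_mul hg, hcoe, hcoe, hgu]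
        unfold ttE
        ext <;> simp [mk4_re, mk4_imI, mk4_imJ, mk4_imK]
      rw [h3, hmem]
      exact htor β
    · by_contra hn
      apply h2
      rw [hanti]
      apply cj_injective hg
      rw [cj_mul hg, cj_neg, cj_mul hg, hgu]
      have h3 : ttr (cj g x) = 0 := le_antisymm (not_lt.1 hn) (by unfold ttr; positivity)
      unfold ttr at h3
      have e1 : (cj g x).re = 0 := by
        have : (cj g x).re ^ 2 = 0 := by
          linarith [sq_nonneg (cj g x).re, sq_nonneg (cj g x).imI]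
        exact pow_eq_zero_iff two_ne_zero |>.1 this
      have e2 : (cj g x).imI = 0 := by
        have : (cj g x).imI ^ 2 = 0 := by
          linarith [sq_nonneg (cj g x).re, sq_nonneg (cj g x).imI]
        exact pow_eq_zero_iff two_ne_zero |>.1 this
      ext <;> simp [e1, e2, mk4_re, mk4_imI, mk4_imJ, mk4_imK]
    · by_contra hn
      apply h1
      rw [hcomm]
      apply cj_injective hg
      rw [cj_mul hg, cj_mul hg, hgu]
      have hsq := tt_sq (U_cj hg (hU x hx))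
      have h3 : 1 ≤ ttr (cj g x) := not_lt.1 hn
      unfold ttr at h3
      have e1 : (cj g x).imJ = 0 := by
        have : (cj g x).imJ ^ 2 = 0 := by
          linarith [sq_nonneg (cj g x).imJ, sq_nonneg (cj g x).imK]
        exact pow_eq_zero_iff two_ne_zero |>.1 this
      have e2 : (cj g x).imK = 0 := by
        have : (cj g x).imK ^ 2 = 0 := by
          linarith [sq_nonneg (cj g x).imJ, sq_nonneg (cj g x).imK]
        exact pow_eq_zero_iff two_ne_zero |>.1 this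
      ext <;> simp [e1, e2, mk4_re, mk4_imI, mk4_imJ, mk4_imK]
  intro y hy
  exact (hmem y).1 (hG' _ (U_cj hg hy))

end Pool.Agent.W24dbe6
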