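import Pool.Agent.W_MP_24dbe6_h58.Reps
import Pool.Agent.W_MP_24dbe6_h58.TwoTori
import Pool.Agent.W_MP_24dbe6_h58.GeoPair

set_option autoImplicit false

/-!
Dense image and the dihedral condition.
-/

namespace Pool.Agent.W24dbe6

open Quaternion

/-- `x` commutes or anticommutes with `u` -/
def DDih (u x : H) : Prop := x * u = u * x ∨ x * u = -(u * x)

theorem ddih_mk (a b c d : ℝ) : ∃ x : H, x.re = a ∧ x.imI = b ∧ x.imJ = c ∧ x.imK = d :=
  ⟨⟨a, b, c, d⟩, rfl, rfl, rfl, rfl⟩

theorem ddih_one (u : H) : DDih u 1 := Or.inl (by rw [one_mul, mul_one])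

theorem ddih_mul {u x y : H} (hx : DDih u x) (hy : DDih u y) : DDih u (x * y) := by
  rcases hx with hx | hx <;> rcases hy with hy | hy
  · left; rw [mul_assoc, hy, ← mul_assoc, hx, mul_assoc]
  · right; rw [mul_assoc, hy, mul_neg, ← mul_assoc, hx, mul_assoc]
  · right; rw [mul_assoc, hy, ← mul_assoc, hx, neg_mul, mul_assoc]
  · left; rw [mul_assoc, hy, mul_neg, ← mul_assoc, hx, neg_mul, neg_neg, mul_assoc]

theorem ddih_star {u x : H} (hU : U x) (hx : DDih u x) : DDih u (star x) := by
  have h1 := U_star_mul hU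
  have h2 := U_mul_star hU
  rcases hx with hx | hx
  · left
    calc star x * u = star x * (u * x) * star x := by rw [mul_assoc, mul_assoc, h2, mul_one]
      _ = star x * (x * u) * star x := by rw [hx]
      _ = u * star x := by rw [← mul_assoc, h1, one_mul]
  · right
    have hx' : u * x = -(x * u) := by rw [hx, neg_neg]
    calc star x * u = star x * (u * x) * star x := by rw [mul_assoc, mul_assoc, h2, mul_one]
      _ = star x * (-(x * u)) * star x := by rw [hx']
      _ = -(u * star x) := by rw [mul_neg, ← mul_assoc, h1, one_mul, neg_mul]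

theorem ddih_range {n : ℕ} {ρ : Pi1 n →* SU2} {u : H}
    (h : ∀ p ∈ Lst ρ, p.2 * u = u * p.2 ∨ p.2 * u = -(u * p.2)) (x : Pi1 n) :
    DDih u (toH (ρ x)) := by
  refine image_induction ρ (P := fun A => DDih u (toH A)) ?_ ?_ ?_ ?_ x
  · show DDih u (toH 1)
    rw [toH_one]
    exact ddih_one u
  · intro A B hA hB
    show DDih u (toH (A * B))
    rw [toH_mul]
    exact ddih_mul hA hB
  · intro A hA
    show DDih u (toH A⁻¹)
    rw [toH_inv]
    exact ddih_star (U_toH A) hA
  · intro i
    exact h (i, toH (ρ (c i))) (reps_mem.2 ⟨i, rfl⟩)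

/-- if the image contains an element of infinite order then it is dense or dihedral: let `G` be the
closure of `toH '' range ρ`; if every generator commutes or anticommutes with the axis of
`toH (ρ x)` (`exists_axis`, `inf_NC`) the list is dihedral; otherwise `two_tori` -/
theorem dense_or_dih {n : ℕ} (ρ : Pi1 n →* SU2) {x : Pi1 n} (h : Inf (toH (ρ x))) :
    Dense (Set.range ρ) ∨ Dih (Lst ρ) := by
  classical
  by_cases hex : ∃ y, ¬ Commute (toH (ρ y)) (toH (ρ x)) ∧ ¬ Anti (toH (ρ y)) (toH (ρ x))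
  · left
    obtain ⟨y, hy1, hy2⟩ := hex
    let M : Submonoid H := (MonoidHom.mrange (reps_toHh.comp ρ)).topologicalClosure
    have hMcl : (M : Set H) = closure (toH '' Set.range ρ) := by
      have e : ((MonoidHom.mrange (reps_toHh.comp ρ) : Submonoid H) : Set H) =
          toH '' Set.range ρ := by
        rw [MonoidHom.coe_mrange]
        ext z
        constructor
        · rintro ⟨t, rfl⟩
          exact ⟨ρ t, ⟨t, rfl⟩, rfl⟩
        · rintro ⟨_, ⟨t, rfl⟩, rfl⟩
          exact ⟨t, rfl⟩
      show closure ((MonoidHom.mrange (reps_toHh.comp ρ) : Submonoid H) : Set H) = _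
      rw [e]
    have hmem : ∀ z, toH (ρ z) ∈ (M : Set H) := by
      intro z
      rw [hMcl]
      exact subset_closure ⟨ρ z, ⟨z, rfl⟩, rfl⟩
    have hall := two_tori (G := (M : Set H)) (by
      intro z hz
      rw [hMcl] at hz
      have hcl : IsClosed {z : H | U z} := isClosed_eq continuous_norm continuous_const
      refine closure_minimal ?_ hcl hz
      rintro _ ⟨_, ⟨t, rfl⟩, rfl⟩
      exact U_toH _) M.one_mem (fun a ha b hb => M.mul_mem ha hb) (by
      intro z hz
      have hcl : IsClosed (M : Set H) := by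
        rw [hMcl]
        exact isClosed_closure
      rw [← hcl.closure_eq, Metric.mem_closure_iff]
      exact hz) (hmem x) h (hmem y) hy1 hy2
    rw [dense_iff_closure_eq, toH_isEmbedding.closure_eq_preimage_closure_image, ← hMcl]
    ext A
    simp only [Set.mem_preimage, Set.mem_univ, iff_true]
    exact hall _ (U_toH A)
  · right
    push Not at hex
    obtain ⟨u, hu, hure, hc, ha⟩ := exists_axis (inf_NC (U_toH _) h)
    refine ⟨u, hu, hure, ?_⟩
    intro p hp
    obtain ⟨i, rfl⟩ := reps_mem.1 hp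
    by_cases hcom : Commute (toH (ρ (c i))) (toH (ρ x))
    · exact Or.inl ((hc _).1 hcom)
    · exact Or.inr ((ha _).1 (hex (c i) hcom))

/-- the elements `x` with `x u = ± u x` form a proper closed set -/
theorem not_dih_of_dense {n : ℕ} {ρ : Pi1 n →* SU2} (h : Dense (Set.range ρ)) : ¬ Dih (Lst ρ) := by
  rintro ⟨u, hu, hure, hall⟩
  have hcl : IsClosed {A : SU2 | DDih u (toH A)} := by
    have hc := toH_isEmbedding.continuous
    exact (isClosed_eq (hc.mul continuous_const) (continuous_const.mul hc)).union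
      (isClosed_eq (hc.mul continuous_const) (continuous_const.mul hc).neg)
  have hA : ∀ A : SU2, DDih u (toH A) := by
    intro A
    have h1 : A ∈ closure (Set.range ρ) := h A
    refine closure_minimal ?_ hcl h1
    rintro _ ⟨x, rfl⟩
    exact ddih_range hall x
  have hx : ∀ x : H, U x → DDih u x := by
    intro x hx
    obtain ⟨A, rfl⟩ := exists_toH hx
    exact hA A
  obtain ⟨s, hs⟩ : ∃ s : ℝ, s ^ 2 = 1 / 2 := ⟨√(1 / 2), Real.sq_sqrt (by norm_num)⟩
  have hs0 : s ≠ 0 := by
    rintro rfl
    norm_num at hs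
  have key1 : u.imJ = 0 ∧ u.imK = 0 := by
    obtain ⟨x, e1, e2, e3, e4⟩ := ddih_mk s s 0 0
    have h1 : U x := by
      rw [GeoPair_U_iff, e1, e2, e3, e4]
      linarith
    rcases hx x h1 with h2 | h2
    · have hJ := congrArg (fun z : H => z.imJ) h2
      have hK := congrArg (fun z : H => z.imK) h2
      simp only [Quaternion.imJ_mul, Quaternion.imK_mul, e1, e2, e3, e4, hure] at hJ hK
      exact ⟨(mul_eq_zero_iff_left hs0).1 (by linarith), (mul_eq_zero_iff_left hs0).1 (by linarith)⟩
    · have hJ := congrArg (fun z : H => z.imJ) h2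
      have hK := congrArg (fun z : H => z.imK) h2
      simp only [Quaternion.imJ_mul, Quaternion.imK_mul, Quaternion.imJ_neg, Quaternion.imK_neg,
        e1, e2, e3, e4, hure] at hJ hK
      exact ⟨(mul_eq_zero_iff_left hs0).1 (by linarith), (mul_eq_zero_iff_left hs0).1 (by linarith)⟩
  have key2 : u.imI = 0 := by
    obtain ⟨x, e1, e2, e3, e4⟩ := ddih_mk s 0 s 0
    have h1 : U x := by
      rw [GeoPair_U_iff, e1, e2, e3, e4]
      linarith
    rcases hx x h1 with h2 | h2
    · have hK := congrArg (fun z : H => z.imK) h2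
      simp only [Quaternion.imK_mul, e1, e2, e3, e4, hure] at hK
      exact (mul_eq_zero_iff_left hs0).1 (by linarith)
    · have hI := congrArg (fun z : H => z.imI) h2
      simp only [Quaternion.imI_mul, Quaternion.imI_neg, e1, e2, e3, e4, hure] at hI
      exact (mul_eq_zero_iff_left hs0).1 (by linarith)
  have h3 := (GeoPair_U_iff u).1 hu
  rw [hure, key1.1, key1.2, key2] at h3
  norm_num at h3

/-- `image_induction` -/
theorem dih_comp {n : ℕ} {ρ : Pi1 n →* SU2} (h : Dih (Lst ρ)) (φ : MulAut (Pi1 n)) :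
    Dih (Lst (ρ.comp (φ : Pi1 n →* Pi1 n))) := by
  obtain ⟨u, hu, hure, hall⟩ := h
  refine ⟨u, hu, hure, ?_⟩
  intro p hp
  obtain ⟨i, rfl⟩ := reps_mem.1 hp
  exact ddih_range hall (φ (c i))

/-- abelian image is preserved, `image_induction` twice (commuting with all generators) -/
theorem NA_comp {n : ℕ} {ρ : Pi1 n →* SU2} (h : ¬ NA (Lst ρ)) (φ : MulAut (Pi1 n)) :
    ¬ NA (Lst (ρ.comp (φ : Pi1 n →* Pi1 n))) := by
  have h0 : ∀ i j, Commute (toH (ρ (c i))) (toH (ρ (c j))) := by
    intro i j
    by_contra hc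
    exact h ⟨_, reps_mem.2 ⟨i, rfl⟩, _, reps_mem.2 ⟨j, rfl⟩, hc⟩
  have hind : ∀ z : H, (∀ i, Commute (toH (ρ (c i))) z) → ∀ x, Commute (toH (ρ x)) z := by
    intro z hz x
    refine image_induction ρ (P := fun A => Commute (toH A) z) ?_ ?_ ?_ hz x
    · show Commute (toH 1) z
      rw [toH_one]
      exact Commute.one_left z
    · intro A B hA hB
      show Commute (toH (A * B)) z
      rw [toH_mul]
      exact hA.mul_left hB
    · intro A hA
      show Commute (toH A⁻¹) z
      rw [toH_inv]
      exact (commute_star (U_toH A)).2 hA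
  rintro ⟨p, hp, q, hq, hpq⟩
  obtain ⟨i, rfl⟩ := reps_mem.1 hp
  obtain ⟨j, rfl⟩ := reps_mem.1 hq
  apply hpq
  refine hind _ (fun i' => ?_) (φ (c i))
  refine (hind _ (fun j' => ?_) (φ (c j))).symm
  exact h0 j' i'

end Pool.Agent.W24dbe6
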