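import Pool.Agent.W_MP_24dbe6_h58.BasicL

set_option autoImplicit false

/-!
The dihedral condition is closed, and depends only on the group generated by the entries.
-/

namespace Pool.Agent.W24dbe6

open Quaternion Filter Topology

variable {ι : Type}

theorem near_mem {L L' : LL ι} {ε : ℝ} (h : Near ε L L') {p : ι × H} (hp : p ∈ L) :
    ∃ q ∈ L', dist p.2 q.2 < ε := by
  unfold Near at h
  induction h with
  | nil => exact absurd hp (by simp)
  | @cons a b l₁ l₂ hab _ ih =>
    rcases List.mem_cons.1 hp with rfl | hp'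
    · exact ⟨b, List.mem_cons_self, hab.2⟩
    · obtain ⟨q, hq, hd⟩ := ih hp'
      exact ⟨q, List.mem_cons_of_mem _ hq, hd⟩

/-- the complement of the dihedral condition is open (compactness of the sphere of pure units) -/
theorem dih_open {L : LL ι} (h : ¬ Dih L) : ∃ ε : ℝ, 0 < ε ∧ ∀ L' : LL ι, Near ε L L' → ¬ Dih L' := by
  by_contra hcon
  push Not at hcon
  have h1 : ∀ n : ℕ, ∃ L', Near (1 / ((n : ℝ) + 1)) L L' ∧ Dih L' := fun n =>
    hcon _ (by positivity)
  choose L' hN hD using h1
  choose u hu1 hu2 hu3 using hD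
  have : ProperSpace H := FiniteDimensional.proper_real H
  obtain ⟨v, hv, φ, hφ, hlim⟩ := (isCompact_sphere (0 : H) 1).tendsto_subseq (x := u)
    (fun n => by
      rw [mem_sphere_zero_iff_norm]
      exact hu1 n)
  apply h
  refine ⟨v, ?_, ?_, ?_⟩
  · rw [mem_sphere_zero_iff_norm] at hv
    exact hv
  · have h2 : Tendsto (fun n => (u (φ n)).re) atTop (𝓝 v.re) :=
      (Quaternion.continuous_re.tendsto v).comp hlim
    simp only [hu2] at h2
    exact (tendsto_nhds_unique h2 tendsto_const_nhds)
  · intro p hp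
    have h2 : ∀ n : ℕ, ∃ q ∈ L' n, dist p.2 q.2 < 1 / ((n : ℝ) + 1) := fun n =>
      near_mem (hN n) hp
    choose q hq hd using h2
    have hx : Tendsto (fun n => (q (φ n)).2) atTop (𝓝 p.2) := by
      rw [tendsto_iff_dist_tendsto_zero]
      have h3 : Tendsto (fun n : ℕ => 1 / ((n : ℝ) + 1)) atTop (𝓝 0) :=
        tendsto_one_div_add_atTop_nhds_zero_nat
      refine squeeze_zero (fun n => dist_nonneg) (fun n => ?_) (h3.comp hφ.tendsto_atTop)
      rw [dist_comm]
      exact (hd (φ n)).le
    have hC : IsClosed {z : H × H | z.1 * z.2 = z.2 * z.1 ∨ z.1 * z.2 = -(z.2 * z.1)} :=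
      (isClosed_eq (continuous_fst.mul continuous_snd) (continuous_snd.mul continuous_fst)).union
        (isClosed_eq (continuous_fst.mul continuous_snd)
          (continuous_snd.mul continuous_fst).neg)
    exact hC.mem_of_tendsto (hx.prodMk_nhds hlim)
      (Eventually.of_forall fun n => hu3 (φ n) _ (hq (φ n)))

end Pool.Agent.W24dbe6
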