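import Pool.Agent.W_MP_24dbe6_h58.HideC
import Pool.Agent.W_MP_24dbe6_h58.GeoPair

set_option autoImplicit false

/-!
From the hidden problem back to lists.
-/

namespace Pool.Agent.W24dbe6

open Quaternion

variable {ι : Type}

theorem pr_lft (L : LL ι) : pr (lft L) = pr L := by
  unfold pr lft
  rw [List.map_map]
  rfl

theorem lab_lft (L : LL ι) : lab (lft L) = (lab L).map some := by
  unfold lab lft
  rw [List.map_map, List.map_map]
  rfl

theorem lft_injective : Function.Injective (lft : LL ι → LL (Option ι)) := by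
  unfold lft
  refine List.map_injective_iff.2 ?_
  intro p q h
  have h1 : some p.1 = some q.1 ∧ p.2 = q.2 := Prod.mk.inj h
  exact Prod.ext (Option.some.inj h1.1) h1.2

/-- a unit of infinite order is non-central -/
theorem NC_of_Inf {x : H} (hx : U x) (h : Inf x) : NC x := by
  by_contra hn
  rcases eq_of_not_NC hx hn with h1 | h1
  · exact h 1 one_pos (by rw [h1, one_pow])
  · refine h 2 two_pos ?_
    rw [h1]
    norm_num

/-- If all admissible lists of the hidden problem with a given set of labels belong to `Hide Z [x, y]`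
and `x y` has infinite order, then every admissible list `b₁ :: b₂ :: r` with labels of `b₁, b₂` those
of `x, y` and `(b₁ b₂).re = (x y).re` belongs to `Z`.
Proof: the list `(none, b₁ b₂) :: lft r` is admissible for `optθ θ (ang (x y))`, so there is `g` with
`cj g (x y) = b₁ b₂` and `Z ((x.1, cj g x) :: (y.1, cj g y) :: r)`; by `conj_pair` the pair `(b₁, b₂)` is
`cj t` of `(cj g x, cj g y)` with `t ∈ Tor (b₁ b₂)`; use `flow`. -/
theorem level_of_hide {θ : ι → ℝ} {Z : LL ι → Prop} (hZ : BClosed Z) {x y : ι × H}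
    (hx : U x.2 ∧ x.2.re = Real.cos (θ x.1)) (hy : U y.2 ∧ y.2.re = Real.cos (θ y.1))
    (hinf : Inf (x.2 * y.2)) {N : List ι}
    (hall : ∀ b : LL (Option ι), Adm (optθ θ (ang (x.2 * y.2))) b →
      (lab b).Perm (none :: N.map some) → Hide Z [x, y] b)
    {b₁ b₂ : ι × H} {r : LL ι} (hb : Adm θ (b₁ :: b₂ :: r)) (h1 : b₁.1 = x.1) (h2 : b₂.1 = y.1)
    (hN : (lab r).Perm N) (hre : (b₁.2 * b₂.2).re = (x.2 * y.2).re) : Z (b₁ :: b₂ :: r) := by
  obtain ⟨hb0, hbp⟩ := hb
  have hb1 : U b₁.2 ∧ b₁.2.re = Real.cos (θ b₁.1) := hb0 b₁ (by simp)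
  have hb2 : U b₂.2 ∧ b₂.2.re = Real.cos (θ b₂.1) := hb0 b₂ (by simp)
  have hadm : Adm (optθ θ (ang (x.2 * y.2))) ((none, b₁.2 * b₂.2) :: lft r) := by
    constructor
    · intro p hp
      rcases List.mem_cons.1 hp with hp | hp
      · subst hp
        refine ⟨U_mul hb1.1 hb2.1, ?_⟩
        show (b₁.2 * b₂.2).re = Real.cos (ang (x.2 * y.2))
        rw [U_cos_ang (U_mul hx.1 hy.1), hre]
      · obtain ⟨q, hq, hqp⟩ := List.mem_map.1 hp
        subst hqp
        exact hb0 q (List.mem_cons_of_mem _ (List.mem_cons_of_mem _ hq))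
    · rw [pr_cons] at hbp ⊢
      rw [pr_cons] at hbp
      rw [pr_lft, mul_assoc]
      exact hbp
  have hperm : (lab ((none, b₁.2 * b₂.2) :: lft r)).Perm (none :: N.map some) := by
    show (none :: lab (lft r)).Perm (none :: N.map some)
    rw [lab_lft]
    exact (hN.map some).cons _
  obtain ⟨l, r', g, hg, hL, hZg⟩ := hall _ hadm hperm
  have hl : l = [] := by
    cases l with
    | nil => rfl
    | cons p l' =>
      exfalso
      rw [List.map_cons, List.cons_append] at hL
      have h3 := (List.cons.inj hL).1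
      have h4 : (none : Option ι) = some p.1 := (Prod.mk.inj h3).1
      exact absurd h4 (by simp)
  subst hl
  rw [List.map_nil, List.nil_append] at hL
  obtain ⟨h3, h4⟩ := List.cons.inj hL
  have hr : r = r' := lft_injective h4
  subst hr
  have h5 : b₁.2 * b₂.2 = cj g (pr [x, y]) := (Prod.mk.inj h3).2
  have h6 : pr [x, y] = x.2 * y.2 := by
    rw [pr_cons, pr_cons, pr_nil, mul_one]
  rw [h6] at h5
  have hnc : NC (cj g x.2 * cj g y.2) := by
    rw [← cj_mul hg, NC_cj hg]
    exact NC_of_Inf (U_mul hx.1 hy.1) hinf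
  obtain ⟨t, ht, ht1, ht2⟩ := conj_pair (U_cj hg hx.1) (U_cj hg hy.1) hb1.1 hb2.1
    (by rw [cj_re hg, hx.2, hb1.2, h1]) (by rw [cj_re hg, hy.2, hb2.2, h2])
    (by rw [← cj_mul hg, h5]) hnc
  have h7 : pr (cjL g [x, y]) = cj g x.2 * cj g y.2 := by
    rw [cjL_cons, cjL_cons, pr_cons, pr_cons]
    show cj g x.2 * (cj g y.2 * pr (cjL g [])) = _
    have : pr (cjL g ([] : LL ι)) = 1 := pr_nil
    rw [this, mul_one]
  have hfl := flow hZ hZg (t := t) (by
      rw [h7, ← cj_mul hg, inf_cj hg]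
      exact hinf) (by
      rw [h7]
      exact ht)
  have h8 : ([] : LL ι) ++ cjL t (cjL g [x, y]) ++ r = b₁ :: b₂ :: r := by
    rw [List.nil_append, cjL_cons, cjL_cons, cjL_cons, cjL_cons, List.cons_append, List.cons_append]
    show (x.1, cj t (cj g x.2)) :: (y.1, cj t (cj g y.2)) :: (([] : LL ι) ++ r) = _
    rw [ht1, ht2, ← h1, ← h2, List.nil_append]
  rw [h8] at hfl
  exact hfl

end Pool.Agent.W24dbe6
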