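import Pool.Agent.W_MP_24dbe6_h58.Reorder
import Pool.Agent.W_MP_24dbe6_h58.Level
import Pool.Agent.W_MP_24dbe6_h58.DefsB

set_option autoImplicit false

/-!
From a hidden pair to level sets.
-/

namespace Pool.Agent.W24dbe6

open Quaternion

variable {ι : Type}

/-- hiding `b₁, b₂`: if `b₁ b₂` and `b₁ b₂ b₃` have infinite order and `b₁ b₂`, `b₃` do not commute then
no list containing both is dihedral -/
theorem not_dih_of_inf {κ : Type} {x y : κ × H} {r : LL κ} (hx : U x.2) (hy : U y.2)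
    (h1 : Inf x.2) (h2 : Inf (x.2 * y.2)) (h3 : ¬ Commute x.2 y.2) : ¬ Dih (x :: y :: r) := by
  rintro ⟨u, hu, hur, hall⟩
  have hx1 := hall x (by simp)
  have hy1 := hall y (by simp)
  have hxu : Commute x.2 u := inf_anti hx h1 hu hur hx1
  have hxyu : Commute (x.2 * y.2) u := inf_anti (U_mul hx hy) h2 hu hur (dihc_mul hx1 hy1)
  have hyu : Commute y.2 u := by
    have h4 : star x.2 * (x.2 * y.2) = y.2 := by
      rw [← mul_assoc, U_star_mul hx, one_mul]
    rw [← h4]
    exact Commute.mul_left ((commute_star hx).2 hxu) hxyu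
  have hnu : NC u := by
    rw [NC_iff hu, hur]
    constructor <;> norm_num
  exact h3 (comm_trans hnu hxu hyu.symm)

/-- general form of the first step: the pair `x, y` (product of infinite order) is hidden at the front
of a list in `Z`, and the hidden list can be moved to one to which `ThmA` applies -/
theorem lev_of_hide {n : ℕ} (hA : ThmA n) {θ : ι → ℝ} (hθ : ∀ i, 0 < θ i ∧ θ i < Real.pi)
    {Z : LL ι → Prop} (hZ : BClosed Z) {x y : ι × H} {r : LL ι} (hadm : Adm θ (x :: y :: r))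
    (hz : Z (x :: y :: r)) (hinf : Inf (x.2 * y.2)) {p q : Option ι × H} {s : LL (Option ι)}
    (hmv : Mv ((none, x.2 * y.2) :: lft r) (p :: q :: s)) (hlen : (p :: q :: s).length = n)
    (hgp : GP p q s) (hd : n = 4 ∨ ¬ Dih (p :: q :: s)) :
    Lev θ Z x.1 y.1 (lab r) (ang (x.2 * y.2)) := by
  have hx : U x.2 ∧ x.2.re = Real.cos (θ x.1) := hadm.1 x (by simp)
  have hy : U y.2 ∧ y.2.re = Real.cos (θ y.1) := hadm.1 y (by simp)
  have hxy : U (x.2 * y.2) := U_mul hx.1 hy.1
  have hS : UL [x, y] := by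
    intro w hw
    simp only [List.mem_cons, List.not_mem_nil, or_false] at hw
    rcases hw with rfl | rfl
    · exact hx.1
    · exact hy.1
  have hopt : ∀ i, 0 < optθ θ (ang (x.2 * y.2)) i ∧ optθ θ (ang (x.2 * y.2)) i < Real.pi := by
    intro i
    cases i with
    | none => exact (NC_iff_ang hxy).1 (NC_of_Inf hxy hinf)
    | some i => exact hθ i
  have hadm0 : Adm (optθ θ (ang (x.2 * y.2))) ((none, x.2 * y.2) :: lft r) := by
    constructor
    · intro w hw
      rcases List.mem_cons.1 hw with hw | hw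
      · subst hw
        exact ⟨hxy, (U_cos_ang hxy).symm⟩
      · obtain ⟨v, hv, hvw⟩ := List.mem_map.1 hw
        subst hvw
        exact hadm.1 v (List.mem_cons_of_mem _ (List.mem_cons_of_mem _ hv))
    · have h5 := hadm.2
      rw [pr_cons, pr_cons] at h5
      rw [pr_cons, pr_lft, mul_assoc]
      exact h5
  have hz0 : Hide Z [x, y] ((none, x.2 * y.2) :: lft r) := by
    refine ⟨[], r, 1, U_one, ?_, ?_⟩
    · rw [List.map_nil, List.nil_append, cj_one_left, pr_cons, pr_cons, pr_nil, mul_one]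
      rfl
    · rw [cjL_one]
      exact hz
  have hcl : BClosed (Hide Z [x, y]) := hide_closed hZ hS
  have hall : ∀ b : LL (Option ι), Adm (optθ θ (ang (x.2 * y.2))) b →
      (lab b).Perm (none :: (lab r).map some) → Hide Z [x, y] b := by
    intro b hb hperm
    refine hA (Option ι) (optθ θ (ang (x.2 * y.2))) (Hide Z [x, y]) hopt hcl p q s hlen
      (Mv_Adm hmv hadm0) (Mv_Z hcl hmv hz0) hgp hd b hb ?_
    refine hperm.trans ?_
    have h6 : lab ((none, x.2 * y.2) :: lft r) = none :: (lab r).map some := by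
      rw [← lab_lft]
      rfl
    rw [← h6]
    exact (Mv_perm hmv).symm
  intro b₁ b₂ r' hb h1 h2 hN hang
  refine level_of_hide hZ hx hy hinf hall hb h1 h2 hN ?_
  have hb1 : U b₁.2 := (hb.1 b₁ (by simp)).1
  have hb2 : U b₂.2 := (hb.1 b₂ (by simp)).1
  rw [← U_cos_ang (U_mul hb1 hb2), ← U_cos_ang hxy, hang]

/-- (T1) -/
theorem lev_of_GT {n : ℕ} (hn : 4 ≤ n) (hA : ThmA n) {θ : ι → ℝ}
    (hθ : ∀ i, 0 < θ i ∧ θ i < Real.pi) {Z : LL ι → Prop} (hZ : BClosed Z)
    {b₁ b₂ b₃ : ι × H} {r : LL ι} (hlen : (b₁ :: b₂ :: b₃ :: r).length = n + 1)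
    (hadm : Adm θ (b₁ :: b₂ :: b₃ :: r)) (hz : Z (b₁ :: b₂ :: b₃ :: r)) (hgt : GT b₁ b₂ b₃ r) :
    Lev θ Z b₁.1 b₂.1 (b₃.1 :: lab r) (ang (b₁.2 * b₂.2)) := by
  obtain ⟨hi1, hi2, _, hc2, p, hp, q, hq, hpq⟩ := hgt
  have hb1 : U b₁.2 := (hadm.1 b₁ (by simp)).1
  have hb2 : U b₂.2 := (hadm.1 b₂ (by simp)).1
  have hb3 : U b₃.2 := (hadm.1 b₃ (by simp)).1
  have h := lev_of_hide (n := n) hA hθ hZ (x := b₁) (y := b₂) (r := b₃ :: r) hadm hz hi1
    (p := (none, b₁.2 * b₂.2)) (q := (some b₃.1, b₃.2)) (s := lft r) (Mv_refl _)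
    (by
      have h7 : (lft r).length = r.length := by
        unfold lft
        rw [List.length_map]
      simp only [List.length_cons] at hlen ⊢
      omega)
    ⟨hi2, hc2, (some p.1, p.2), List.mem_map_of_mem hp, (some q.1, q.2), List.mem_map_of_mem hq, hpq⟩
    (Or.inr (not_dih_of_inf (U_mul hb1 hb2) hb3 hi1 hi2 hc2))
  exact h

end Pool.Agent.W24dbe6
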