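import Pool.Agent.W_MP_24dbe6_h58.PairC
import Pool.Agent.W_MP_24dbe6_h58.Box
import Pool.Agent.W_MP_24dbe6_h58.T1

set_option autoImplicit false

/-!
Existence of admissible lists which are not dihedral, for at least five non-central entries.
-/

namespace Pool.Agent.W24dbe6

open Quaternion

variable {ι : Type}

theorem nonDih_irr (a : ℝ) {δ : ℝ} (hδ : 0 < δ) :
    ∃ φ : ℝ, |φ - a| < δ ∧ Irrational (φ / Real.pi) := by
  have hpi := Real.pi_pos
  obtain ⟨r, hr, h1, h2⟩ := exists_irrational_btwn
    (show (a - δ) / Real.pi < (a + δ) / Real.pi from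
      (div_lt_div_iff_of_pos_right hpi).2 (by linarith))
  refine ⟨r * Real.pi, ?_, ?_⟩
  · rw [div_lt_iff₀ hpi] at h1
    rw [lt_div_iff₀ hpi] at h2
    rw [abs_lt]
    constructor <;> linarith
  · rwa [mul_div_cancel_right₀ _ hpi.ne']

/-- All entries non-central.  `exists_pair` gives `b₁ :: b₂ :: r` with `b₁, b₂` not commuting and `r`
non-abelian; `interior_of`; `lab r = k :: N`, `2 ≤ N.length`; `box` with `φ, ψ` irrational multiples of
`π` near `φ₀, ψ₀`; the list obtained is not dihedral (`not_dih_of_inf` for `b₁ b₂` and `b₃`);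
`reorder` it to the labels of `b` (`Bv_Dih`, `Bv_re`, `Bv_pr`). -/
theorem exists_not_dih {θ : ι → ℝ} (hθ : ∀ i, 0 < θ i ∧ θ i < Real.pi) {b : LL ι} (hb : Adm θ b)
    (h5 : 5 ≤ b.length) (hna : NA b) : ∃ b' : LL ι, Adm θ b' ∧ lab b' = lab b ∧ ¬ Dih b' := by
  have hn : ∀ p ∈ b, NC p.2 := by
    intro p hp
    rw [NC_iff (hb.1 p hp).1, (hb.1 p hp).2]
    have h0 := (hθ p.1).1
    have h1 := (hθ p.1).2
    constructor
    · have := Real.cos_lt_cos_of_nonneg_of_le_pi h0.le le_rfl h1
      rwa [Real.cos_pi] at this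
    · have := Real.cos_lt_cos_of_nonneg_of_le_pi le_rfl h1.le h0
      rwa [Real.cos_zero] at this
  obtain ⟨b₁, b₂, r, hm, hc, hr⟩ := exists_pair (Adm_UL hb) hn (by omega) hb.2 hna
  have hadm := Mv_Adm hm hb
  have hlen := Mv_length hm
  obtain ⟨hs, hR⟩ := interior_of hθ hadm hc hr
  obtain ⟨k, N, hkN⟩ : ∃ (k : ι) (N : List ι), lab r = k :: N := by
    rcases r with _ | ⟨c, r⟩
    · simp only [List.length_cons, List.length_nil] at hlen
      omega
    · exact ⟨c.1, lab r, rfl⟩
  have hN : 2 ≤ N.length := by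
    have h1 : (lab r).length = r.length := by
      unfold lab
      rw [List.length_map]
    rw [hkN, List.length_cons] at h1
    simp only [List.length_cons] at hlen
    omega
  rw [hkN, List.map_cons] at hR
  obtain ⟨δ, hδ, ψ₀, hbox⟩ := box hθ hN hs hR
  obtain ⟨φ, hφ, hφi⟩ := nonDih_irr (ang (b₁.2 * b₂.2)) hδ
  obtain ⟨ψ, hψ, hψi⟩ := nonDih_irr ψ₀ hδ
  obtain ⟨c₁, c₂, c₃, s, hc0, hl1, hl2, hl3, hls, ha1, ha2, -, hnc, -⟩ := hbox φ ψ hφ hψ
  have hu1 : U c₁.2 := (hc0.1 c₁ (by simp)).1
  have hu2 : U c₂.2 := (hc0.1 c₂ (by simp)).1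
  have hu3 : U c₃.2 := (hc0.1 c₃ (by simp)).1
  have hi1 : Inf (c₁.2 * c₂.2) := (inf_iff (U_mul hu1 hu2)).2 (by rw [ha1]; exact hφi)
  have hi2 : Inf (c₁.2 * c₂.2 * c₃.2) :=
    (inf_iff (U_mul (U_mul hu1 hu2) hu3)).2 (by rw [ha2]; exact hψi)
  have hnd : ¬ Dih (c₁ :: c₂ :: c₃ :: s) := by
    rintro ⟨u, hu, hur, hall⟩
    refine not_dih_of_inf (x := (c₁.1, c₁.2 * c₂.2)) (y := c₃) (r := s) (U_mul hu1 hu2) hu3 hi1 hi2
      hnc ⟨u, hu, hur, ?_⟩
    intro p hp
    rcases List.mem_cons.1 hp with rfl | hp
    · exact dihc_mul (hall c₁ (by simp)) (hall c₂ (by simp))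
    · exact hall p (List.mem_cons_of_mem _ (List.mem_cons_of_mem _ hp))
  have hlab : (lab (c₁ :: c₂ :: c₃ :: s)).Perm (lab b) := by
    have h1 : lab (c₁ :: c₂ :: c₃ :: s) = lab (b₁ :: b₂ :: r) := by
      show c₁.1 :: c₂.1 :: c₃.1 :: lab s = b₁.1 :: b₂.1 :: lab r
      rw [hl1, hl2, hl3, hls, hkN]
    rw [h1]
    exact Mv_perm hm
  obtain ⟨b', hb', hlb'⟩ := reorder hlab
  refine ⟨b', ⟨Bv_re hb' hc0.1, ?_⟩, hlb', ?_⟩
  · rw [Bv_pr hb' (Adm_UL hc0), hc0.2]
  · rw [Bv_Dih hb' (Adm_UL hc0)]
    exact hnd

/-- splitting off a central factor -/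
theorem nonDih_split {p q : H} (hp : U p) (hq : U q) (h : ¬ NC p ∨ ¬ NC q) {x : H} (hx : U x)
    (hre : x.re = (p * q).re) :
    ∃ p' q' : H, U p' ∧ U q' ∧ p'.re = p.re ∧ q'.re = q.re ∧ p' * q' = x := by
  rcases h with h | h
  · rcases eq_of_not_NC hp h with rfl | rfl
    · refine ⟨1, x, U_one, hx, rfl, ?_, one_mul x⟩
      rw [hre, one_mul]
    · refine ⟨-1, -x, hp, ?_, rfl, ?_, by rw [neg_mul_neg, one_mul]⟩
      · have := U_mul hp hx
        rwa [neg_one_mul] at this
      · rw [Quaternion.re_neg, hre, neg_one_mul, Quaternion.re_neg, neg_neg]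
  · rcases eq_of_not_NC hq h with rfl | rfl
    · refine ⟨x, 1, hx, U_one, ?_, rfl, mul_one x⟩
      rw [hre, mul_one]
    · refine ⟨-x, -1, ?_, hq, ?_, rfl, by rw [neg_mul_neg, mul_one]⟩
      · have := U_mul hx hq
        rwa [mul_neg_one] at this
      · rw [Quaternion.re_neg, hre, mul_neg_one, Quaternion.re_neg, neg_neg]

theorem nonDih_comm_of {p z : H} (hp : U p) (h : ¬ NC p) : Commute p z := commute_of_not_NC h z

/-- multiplication by a central unit does not change the centralizer -/
theorem nonDih_cent {p q : H} (hp : U p) (h : ¬ NC p) (z : H) :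
    (Commute (p * q) z ↔ Commute q z) ∧ (Commute (q * p) z ↔ Commute q z) := by
  have key : ∀ w : H, Commute p w := fun w => commute_of_not_NC h w
  have e : q * p = p * q := (key q).symm.eq
  have h1 : Commute (p * q) z ↔ Commute q z := by
    constructor
    · intro h2
      have h3 : star p * (p * q) = q := by rw [← mul_assoc, U_star_mul hp, one_mul]
      rw [← h3]
      exact Commute.mul_left ((commute_star hp).2 (key z)) h2
    · intro h2
      exact Commute.mul_left (key z) h2
  exact ⟨h1, by rw [e]; exact h1⟩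

theorem nonDih_lft {M : List ι} : ∀ {A : LL (Option ι)}, A.map Prod.fst = M.map some →
    ∃ l : LL ι, A = lft l ∧ lab l = M := by
  induction M with
  | nil =>
    intro A h
    have : A = [] := by simpa using h
    exact ⟨[], by rw [this]; rfl, rfl⟩
  | cons m M ih =>
    intro A h
    rcases A with _ | ⟨a, A⟩
    · simp at h
    · rw [List.map_cons, List.map_cons, List.cons.injEq] at h
      obtain ⟨l, hl, hlM⟩ := ih h.2
      refine ⟨(m, a.2) :: l, ?_, ?_⟩
      · rw [hl]
        show a :: lft l = (some m, a.2) :: lft l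
        congr 1
        exact Prod.ext h.1 rfl
      · show m :: lab l = m :: M
        rw [hlM]

theorem nonDih_nNC_lft (L : LL ι) : nNC (lft L) = nNC L := by
  induction L with
  | nil => rfl
  | cons p L ih =>
    by_cases h : NC p.2
    · rw [nNC_cons_NC h]
      show nNC ((some p.1, p.2) :: lft L) = _
      rw [nNC_cons_NC (p := (some p.1, p.2)) h, ih]
    · rw [nNC_cons_central h]
      show nNC ((some p.1, p.2) :: lft L) = _
      rw [nNC_cons_central (p := (some p.1, p.2)) h, ih]

/-- the number of non-central entries after merging with a central entry -/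
theorem nonDih_nNC {l s : LL ι} {p q : ι × H} (hp : U p.2) (hq : U q.2)
    (h : ¬ NC p.2 ∨ ¬ NC q.2) :
    nNC (lft l ++ (none, p.2 * q.2) :: lft s) = nNC (l ++ p :: q :: s) := by
  have key : NC (p.2 * q.2) ↔ (NC p.2 ∨ NC q.2) := by
    rcases h with h | h
    · have h1 : NC (p.2 * q.2) ↔ NC q.2 := by
        rcases eq_of_not_NC hp h with e | e
        · rw [e, one_mul]
        · rw [e, neg_one_mul]
          unfold NC
          simp
      rw [h1]
      exact ⟨Or.inr, fun h2 => h2.resolve_left h⟩
    · have h1 : NC (p.2 * q.2) ↔ NC p.2 := by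
        rcases eq_of_not_NC hq h with e | e
        · rw [e, mul_one]
        · rw [e, mul_neg_one]
          unfold NC
          simp
      rw [h1]
      exact ⟨Or.inl, fun h2 => h2.resolve_right h⟩
  rw [nNC_append, nNC_append, nonDih_nNC_lft]
  congr 1
  by_cases h1 : NC p.2
  · have h2 : ¬ NC q.2 := by
      rcases h with h | h
      · exact absurd h1 h
      · exact h
    rw [nNC_cons_NC h1, nNC_cons_central h2,
      nNC_cons_NC (p := ((none : Option ι), p.2 * q.2)) (key.2 (Or.inl h1)), nonDih_nNC_lft]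
  · by_cases h2 : NC q.2
    · rw [nNC_cons_central h1, nNC_cons_NC h2,
        nNC_cons_NC (p := ((none : Option ι), p.2 * q.2)) (key.2 (Or.inr h2)), nonDih_nNC_lft]
    · rw [nNC_cons_central h1, nNC_cons_central h2,
        nNC_cons_central (p := ((none : Option ι), p.2 * q.2))
          (fun h3 => (key.1 h3).elim h1 h2), nonDih_nNC_lft]

/-- non-abelian lists stay non-abelian after merging with a central entry -/
theorem nonDih_NA {l s : LL ι} {p q : ι × H} (hp : U p.2) (hq : U q.2)
    (h : ¬ NC p.2 ∨ ¬ NC q.2) (hna : NA (l ++ p :: q :: s)) :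
    NA (lft l ++ (none, p.2 * q.2) :: lft s) := by
  have hrep : ∀ x ∈ l ++ p :: q :: s, NC x.2 →
      ∃ x' ∈ lft l ++ (none, p.2 * q.2) :: lft s, ∀ z, Commute x'.2 z ↔ Commute x.2 z := by
    intro x hx hxn
    rcases List.mem_append.1 hx with hx | hx
    · exact ⟨(some x.1, x.2), List.mem_append_left _ (List.mem_map_of_mem hx), fun z => Iff.rfl⟩
    · rcases List.mem_cons.1 hx with hx | hx
      · subst hx
        refine ⟨(none, x.2 * q.2), List.mem_append_right _ (List.mem_cons_self ..), fun z => ?_⟩
        have h2 : ¬ NC q.2 := h.resolve_left (fun h3 => h3 hxn)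
        exact (nonDih_cent hq h2 z).2
      · rcases List.mem_cons.1 hx with hx | hx
        · subst hx
          refine ⟨(none, p.2 * x.2), List.mem_append_right _ (List.mem_cons_self ..), fun z => ?_⟩
          have h2 : ¬ NC p.2 := h.resolve_right (fun h3 => h3 hxn)
          exact (nonDih_cent hp h2 z).1
        · exact ⟨(some x.1, x.2), List.mem_append_right _ (List.mem_cons_of_mem _
            (List.mem_map_of_mem hx)), fun z => Iff.rfl⟩
  obtain ⟨x, hx, y, hy, hxy⟩ := hna
  have hxn : NC x.2 := by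
    by_contra hn
    exact hxy (commute_of_not_NC hn _)
  have hyn : NC y.2 := by
    by_contra hn
    exact hxy (commute_of_not_NC hn _).symm
  obtain ⟨x', hx', hxx⟩ := hrep x hx hxn
  obtain ⟨y', hy', hyy⟩ := hrep y hy hyn
  refine ⟨x', hx', y', hy', fun h1 => hxy ?_⟩
  have h2 : Commute x.2 y'.2 := (hxx _).1 h1
  exact ((hyy _).1 h2.symm).symm

theorem nonDih_aux : ∀ (n : ℕ) (κ : Type) (θ : κ → ℝ), (∀ i, 0 ≤ θ i ∧ θ i ≤ Real.pi) →
    ∀ b : LL κ, b.length = n → Adm θ b → 5 ≤ nNC b → NA b →
      ∃ b' : LL κ, Adm θ b' ∧ lab b' = lab b ∧ ¬ Dih b' := by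
  intro n
  induction n with
  | zero =>
    intro κ θ hθ b hlen hb h5 hna
    have := nNC_le b
    omega
  | succ n ih =>
    intro κ θ hθ b hlen hb h5 hna
    by_cases hall : ∀ p ∈ b, NC p.2
    · classical
      -- change the angles at the labels which do not occur
      let θ' : κ → ℝ := fun i => if i ∈ lab b then θ i else Real.pi / 2
      have hin : ∀ i ∈ lab b, θ' i = θ i := fun i hi => if_pos hi
      have hθ' : ∀ i, 0 < θ' i ∧ θ' i < Real.pi := by
        intro i
        by_cases hi : i ∈ lab b
        · rw [hin i hi]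
          obtain ⟨p, hp, rfl⟩ := List.mem_map.1 hi
          have h1 := (NC_iff (hb.1 p hp).1).1 (hall p hp)
          rw [(hb.1 p hp).2] at h1
          constructor
          · rcases (hθ p.1).1.lt_or_eq with h2 | h2
            · exact h2
            · rw [← h2, Real.cos_zero] at h1
              exact absurd h1.2 (lt_irrefl _)
          · rcases (hθ p.1).2.lt_or_eq with h2 | h2
            · exact h2
            · rw [h2, Real.cos_pi] at h1
              exact absurd h1.1 (lt_irrefl _)
        · have : θ' i = Real.pi / 2 := if_neg hi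
          rw [this]
          have := Real.pi_pos
          constructor <;> linarith
      have hb' : Adm θ' b := by
        refine ⟨fun p hp => ?_, hb.2⟩
        rw [hin p.1 (List.mem_map_of_mem hp)]
        exact hb.1 p hp
      obtain ⟨c, hc, hcl, hcd⟩ := exists_not_dih hθ' hb' (h5.trans (nNC_le b)) hna
      refine ⟨c, ⟨fun p hp => ?_, hc.2⟩, hcl, hcd⟩
      have h1 := hc.1 p hp
      rw [hin p.1 (by rw [← hcl]; exact List.mem_map_of_mem hp)] at h1
      exact h1
    · push Not at hall
      obtain ⟨z, hz, hzc⟩ := hall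
      -- two neighbours one of which is central
      obtain ⟨l, p, q, s, hbe, hpq⟩ : ∃ (l : LL κ) (p q : κ × H) (s : LL κ),
          b = l ++ p :: q :: s ∧ (¬ NC p.2 ∨ ¬ NC q.2) := by
        obtain ⟨l, s, rfl⟩ := List.append_of_mem hz
        rcases s with _ | ⟨y, s⟩
        · rcases List.eq_nil_or_concat l with rfl | ⟨l', y, rfl⟩
          · rw [List.nil_append, nNC_cons_central hzc] at h5
            have := nNC_le ([] : LL κ)
            simp only [List.length_nil] at this
            omega
          · exact ⟨l', y, z, [], by simp, Or.inr hzc⟩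
        · exact ⟨l, z, y, s, rfl, Or.inl hzc⟩
      subst hbe
      have hpb := hb.1 p (by simp)
      have hqb := hb.1 q (by simp)
      have hw : U (p.2 * q.2) := U_mul hpb.1 hqb.1
      have hθ'' : ∀ i, 0 ≤ optθ θ (ang (p.2 * q.2)) i ∧
          optθ θ (ang (p.2 * q.2)) i ≤ Real.pi := by
        intro i
        cases i with
        | none => exact ang_mem _
        | some i => exact hθ i
      have hadm0 : Adm (optθ θ (ang (p.2 * q.2))) (lft l ++ (none, p.2 * q.2) :: lft s) := by
        constructor
        · intro x hx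
          rcases List.mem_append.1 hx with hx | hx
          · obtain ⟨v, hv, rfl⟩ := List.mem_map.1 hx
            exact hb.1 v (List.mem_append_left _ hv)
          · rcases List.mem_cons.1 hx with rfl | hx
            · exact ⟨hw, (U_cos_ang hw).symm⟩
            · obtain ⟨v, hv, rfl⟩ := List.mem_map.1 hx
              exact hb.1 v (List.mem_append_right _ (List.mem_cons_of_mem _
                (List.mem_cons_of_mem _ hv)))
        · have h1 := hb.2
          rw [pr_append, pr_cons, pr_cons] at h1
          rw [pr_append, pr_cons, pr_lft, pr_lft, mul_assoc p.2]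
          exact h1
      obtain ⟨c, hc, hcl, hcd⟩ := ih (Option κ) (optθ θ (ang (p.2 * q.2))) hθ''
        (lft l ++ (none, p.2 * q.2) :: lft s) (by
          simp only [List.length_append, List.length_cons, lft, List.length_map] at hlen ⊢
          omega) hadm0 (by rw [nonDih_nNC hpb.1 hqb.1 hpq]; exact h5)
        (nonDih_NA hpb.1 hqb.1 hpq hna)
      -- decompose `c`
      have hcl' : c.map Prod.fst = (lab l).map some ++ none :: (lab s).map some := by
        have h1 : lab (lft l ++ ((none : Option κ), p.2 * q.2) :: lft s) =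
            (lab l).map some ++ none :: (lab s).map some := by
          rw [lab_append, lab_lft]
          show _ ++ none :: lab (lft s) = _
          rw [lab_lft]
        rw [← h1]
        exact hcl
      obtain ⟨A, X, rfl, hA, hX⟩ := List.map_eq_append_iff.1 hcl'
      obtain ⟨x, B, rfl, hx, hB⟩ := List.map_eq_cons_iff.1 hX
      obtain ⟨l', rfl, hl'⟩ := nonDih_lft hA
      obtain ⟨s', rfl, hs'⟩ := nonDih_lft hB
      have hxU := (hc.1 x (by simp))
      rw [hx] at hxU
      have hxre : x.2.re = (p.2 * q.2).re := by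
        rw [hxU.2]
        exact U_cos_ang hw
      obtain ⟨p', q', hp', hq', hpr, hqr, hpq'⟩ := nonDih_split hpb.1 hqb.1 hpq hxU.1 hxre
      refine ⟨l' ++ (p.1, p') :: (q.1, q') :: s', ⟨?_, ?_⟩, ?_, ?_⟩
      · intro y hy
        rcases List.mem_append.1 hy with hy | hy
        · exact hc.1 (some y.1, y.2) (List.mem_append_left _ (List.mem_map_of_mem hy))
        · rcases List.mem_cons.1 hy with rfl | hy
          · exact ⟨hp', by rw [hpr]; exact hpb.2⟩
          · rcases List.mem_cons.1 hy with rfl | hy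
            · exact ⟨hq', by rw [hqr]; exact hqb.2⟩
            · exact hc.1 (some y.1, y.2) (List.mem_append_right _ (List.mem_cons_of_mem _
                (List.mem_map_of_mem hy)))
      · have h1 := hc.2
        rw [pr_append, pr_cons, pr_lft, pr_lft, ← hpq', mul_assoc p'] at h1
        rw [pr_append, pr_cons, pr_cons]
        exact h1
      · rw [lab_append, lab_append, hl']
        show _ ++ p.1 :: q.1 :: lab s' = _ ++ p.1 :: q.1 :: lab s
        rw [hs']
      · rintro ⟨u, hu, hur, hd⟩
        apply hcd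
        refine ⟨u, hu, hur, ?_⟩
        intro y hy
        rcases List.mem_append.1 hy with hy | hy
        · obtain ⟨v, hv, rfl⟩ := List.mem_map.1 hy
          exact hd v (List.mem_append_left _ hv)
        · rcases List.mem_cons.1 hy with rfl | hy
          · rw [← hpq']
            exact dihc_mul (hd (p.1, p') (by simp)) (hd (q.1, q') (by simp))
          · obtain ⟨v, hv, rfl⟩ := List.mem_map.1 hy
            exact hd v (List.mem_append_right _ (List.mem_cons_of_mem _
              (List.mem_cons_of_mem _ hv)))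

/-- With central entries.  Induction on the length, for all `ι`: if all entries are non-central use
`exists_not_dih` (with `θ` changed at the labels which do not occur).  Otherwise `b = l ++ z :: s` with
`z` central, and there is a neighbour `y` of `z` (say `s = y :: s'`; or `l = l' ++ [y]`): apply the
induction hypothesis to `lft l ++ (none, z.2 * y.2) :: lft s'` and the angles
`optθ θ (ang (z.2 * y.2))`; replace the new entry `(none, y')` by `z :: (y.1, z.2 * y')`
(`z.2 * z.2 = 1`). -/
theorem exists_not_dih_central {θ : ι → ℝ} (hθ : ∀ i, 0 ≤ θ i ∧ θ i ≤ Real.pi) {b : LL ι}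
    (hb : Adm θ b) (h5 : 5 ≤ nNC b) (hna : NA b) :
    ∃ b' : LL ι, Adm θ b' ∧ lab b' = lab b ∧ ¬ Dih b' :=
  nonDih_aux b.length ι θ hθ b rfl hb h5 hna

end Pool.Agent.W24dbe6
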