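import Pool.Agent.W_MP_24dbe6_h58.Central
import Pool.Agent.W_MP_24dbe6_h58.NonDih
import Pool.Agent.W_MP_24dbe6_h58.DenseDih
import Pool.Agent.W_MP_24dbe6_h58.InfRel
import Pool.Agent.W_MP_24dbe6_h58.SmallK
import Pool.Agent.W_MP_24dbe6_h58.AbOrb
import Pool.Agent.W_MP_24dbe6_h58.InfOrb
import Pool.Agent.W_MP_24dbe6_h58.DihOpen

set_option autoImplicit false

/-!
The characterisation of dense orbits.
-/

namespace Pool.Agent.W24dbe6

open Quaternion

theorem range_comp {n : ℕ} (ρ : Pi1 n →* SU2) (φ : MulAut (Pi1 n)) :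
    Set.range (ρ.comp (φ : Pi1 n →* Pi1 n)) = Set.range ρ := by
  ext A
  constructor
  · rintro ⟨x, rfl⟩
    exact ⟨φ x, rfl⟩
  · rintro ⟨x, rfl⟩
    exact ⟨φ.symm x, by simp⟩

theorem mapL_ofFn {n : ℕ} (ρ : Pi1 n →* SU2) (φ : MulAut (Pi1 n)) :
    mapL ρ (List.ofFn fun i : Fin n => (i, φ (c i))) =
      Lst (ρ.comp (φ : Pi1 n →* Pi1 n)) := by
  rw [mapL, Lst, List.map_ofFn]
  rfl

theorem lab_mapL {n : ℕ} (ρ : Pi1 n →* SU2) (y : List (Fin n × Pi1 n)) :
    lab (mapL ρ y) = y.map Prod.fst := by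
  rw [mapL, lab, List.map_map]
  rfl

/-- infinite orbits are dense if the image is dense or there are four non-central entries -/
theorem dense_of {n : ℕ} {ρ : Pi1 n →* SU2} (hinf : (orb ρ).Infinite)
    (h : numNC ρ = 4 ∨ Dense (Set.range ρ)) : DenseOrbit ρ := by
  obtain ⟨φ, hφ, p, q, r, hmv, hgp⟩ := inf_orb hinf
  have hZ := Zr_closed ρ
  have hL := Zr_Lst ρ hφ
  have hz : Zr ρ (p :: q :: r) := Mv_Z hZ hmv hL
  have hadm0 := Adm_comp ρ hφ
  have hadm : Adm (thetaOf ρ) (p :: q :: r) := Mv_Adm hmv hadm0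
  have hd : nNC (p :: q :: r) = 4 ∨ ¬ Dih (p :: q :: r) := by
    rcases h with h | h
    · left
      rw [nNC_Mv (Adm_UL hadm0) hmv, nNC_of_perm (Adm_Lst ρ).1 hadm0.1, ← numNC_eq, h]
      rw [lab_Lst, lab_Lst]
    · right
      rw [Mv_Dih hmv (Adm_UL hadm0)]
      exact not_dih_of_dense (by rw [range_comp]; exact h)
  intro χ hχ
  obtain ⟨σ, rfl⟩ := Quotient.exists_rep χ
  have hσ : Adm (thetaOf ρ) (Lst σ) := (mem_relChar_iff ρ σ).1 hχ
  have hl : (lab (Lst σ)).Perm (lab (p :: q :: r)) := by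
    have h1 := (Mv_perm hmv).symm
    rw [lab_Lst] at h1
    rw [lab_Lst]
    exact h1
  have key := central (thetaOf_mem ρ) hZ hadm hz hgp hd hσ hl
  have h2 : cls σ ∈ closure (orb ρ) := by
    rw [mem_closure_orb]
    intro ε hε
    obtain ⟨y, hy, g, hg, hn⟩ := key ε hε
    have hlab : y.map Prod.fst = List.finRange n := by
      have h3 := near_lab hn
      rw [lab_Lst, lab_cjL, lab_mapL] at h3
      exact h3.symm
    obtain ⟨ψ, hψ, rfl⟩ := GeoT_MCG hy hlab
    refine ⟨ψ, hψ, g, hg, ?_⟩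
    rw [mapL_ofFn] at hn
    exact hn
  exact h2

/-- an element of infinite order in the image from a good pair -/
theorem exists_inf {n : ℕ} {ρ : Pi1 n →* SU2} {p q : Fin n × H} {r : LL (Fin n)}
    (h : Mv (Lst ρ) (p :: q :: r)) (hgp : GP p q r) : ∃ x : Pi1 n, Inf (toH (ρ x)) := by
  obtain ⟨y, hy, g, hg, hL⟩ := mv_GeoT h
  match y, hL with
  | [], hL => simp [mapL, cjL] at hL
  | [a], hL => simp [mapL, cjL] at hL
  | (a :: b :: s), hL =>
    rw [mapL, List.map_cons, List.map_cons, cjL_cons, cjL_cons] at hL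
    simp only [List.cons.injEq] at hL
    refine ⟨a.2 * b.2, ?_⟩
    have h1 := hgp.1
    rw [hL.1, hL.2.1] at h1
    simp only at h1
    rw [← cj_mul hg, inf_cj hg] at h1
    rw [map_mul, toH_mul]
    exact h1

theorem of_dense {n : ℕ} {ρ : Pi1 n →* SU2} (h : DenseOrbit ρ) :
    (relChar ρ).Subsingleton ∨
      ((orb ρ).Infinite ∧ (numNC ρ = 4 ∨ Dense (Set.range ρ))) := by
  by_cases hna : NA (Lst ρ)
  · by_cases h3 : numNC ρ ≤ 3
    · exact Or.inl (relChar_subsingleton_of_le h3)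
    · right
      have h4 : 4 ≤ numNC ρ := by omega
      have hinf : (orb ρ).Infinite := by
        intro hfin
        refine relChar_infinite h4 hna (hfin.subset ?_)
        have h5 := h
        rw [DenseOrbit, closure_finite hfin] at h5
        exact h5
      refine ⟨hinf, ?_⟩
      by_cases h5 : numNC ρ = 4
      · exact Or.inl h5
      right
      obtain ⟨φ, hφ, p, q, r, hmv, hgp⟩ := inf_orb hinf
      obtain ⟨x, hx⟩ := exists_inf hmv hgp
      rcases dense_or_dih ρ (x := φ x) hx with hd | hD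
      · exact hd
      · exfalso
        obtain ⟨b', hb', hlb, hnd⟩ := exists_not_dih_central (thetaOf_mem ρ) (Adm_Lst ρ)
          (by rw [← numNC_eq]; omega) hna
        rw [lab_Lst] at hlb
        obtain ⟨σ, rfl⟩ := exists_rep hlb (Adm_UL hb') hb'.2
        have hσ : cls σ ∈ relChar ρ := (mem_relChar_iff ρ σ).2 hb'
        obtain ⟨ε, hε, hopen⟩ := dih_open hnd
        obtain ⟨ψ, hψ, g, hg, hn⟩ := (mem_closure_orb ρ σ).1 (h hσ) ε hε
        exact hopen _ hn ((Dih_cjL hg).2 (dih_comp hD ψ))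
  · left
    have h1 : relChar ρ ⊆ {cls ρ} := by
      have h2 := h
      rw [DenseOrbit, orb_abelian hna, closure_singleton_char] at h2
      exact h2
    exact Set.subsingleton_singleton.anti h1

theorem dense_iff {n : ℕ} (ρ : Pi1 n →* SU2) : DenseOrbit ρ ↔
    (relChar ρ).Subsingleton ∨
      ((orb ρ).Infinite ∧ (numNC ρ = 4 ∨ Dense (Set.range ρ))) := by
  refine ⟨of_dense, ?_⟩
  rintro (h | ⟨h1, h2⟩)
  · intro χ hχ
    rw [h hχ (cls_mem_relChar ρ)]
    exact subset_closure (cls_mem_orb ρ)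
  · exact dense_of h1 h2

end Pool.Agent.W24dbe6
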