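import Pool.Agent.W_MP_24dbe6_h58.Reorder
import Pool.Agent.W_MP_24dbe6_h58.GeoFlow
import Pool.Agent.W_MP_24dbe6_h58.GeoFlowC
import Pool.Agent.W_MP_24dbe6_h58.GeoTor
import Pool.Agent.W_MP_24dbe6_h58.DihOpen

set_option autoImplicit false

/-!
Generic flows.
-/

namespace Pool.Agent.W24dbe6

open Quaternion

variable {ι : Type}

theorem firstA_re_comm (a b : H) : (a * b).re = (b * a).re := by
  simp only [Quaternion.re_mul]
  ring

/-- the exceptional parameters for infinite order form a countable set -/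
theorem firstA_inf {w X Y : H} (hw : U w) (hwn : NC w) (hX : U X) (hY : U Y)
    (hXw : ¬ Commute X w) (hYw : ¬ Commute Y w) :
    {t | t ∈ Tor w ∧ ¬ Inf (X * cj t Y)}.Countable := by
  have h1 : {t | t ∈ Tor w ∧ ¬ Inf (X * cj t Y)} ⊆
      ⋃ v ∈ {v : ℝ | ∃ x : H, U x ∧ x.re = v ∧ ¬ Inf x},
        {t | t ∈ Tor w ∧ (X * cj t Y).re = v} := by
    rintro t ⟨ht, hi⟩
    refine Set.mem_biUnion (x := (X * cj t Y).re) ?_ ⟨ht, rfl⟩
    exact ⟨X * cj t Y, U_mul hX (U_cj ht.1 hY), rfl, hi⟩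
  exact (bad_countable.biUnion fun v _ =>
    (flow_fin hw hwn hX hY hXw hYw v).countable).mono h1

/-- a conjugate by an element near `1` is near -/
theorem firstA_near {t x : H} (ht : U t) (hx : U x) {ε : ℝ} (h : dist t 1 < ε / 4) (hε : 0 < ε) :
    dist x (cj t x) < ε := by
  have h1 := dist_cj_le U_one ht hx
  rw [cj_one_left, dist_comm 1 t] at h1
  linarith

/-- Generic flow along the pair `p, q`.  Let `z` be an entry not commuting with `p q`.  For a suitable
`t` near `1` in the torus of `p q` the list `cj t p, cj t q, z, r` has: `cj t q * z` of infinite order,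
`cj t q`, `z` not commuting, the rest `r, cj t p` non-abelian, still not dihedral.
(`q` does not commute with `p q`; `flow_fin` and `bad_countable`, `flow_comm_one`, `exists_tor`,
`dih_open`, `near_cjL`.  `r` contains a non-central entry.) -/
theorem gen_flow {p q z : ι × H} {r : LL ι} (hU : UL (p :: q :: z :: r))
    (hn : ∀ x ∈ (p :: q :: z :: r), NC x.2) (hr : r ≠ []) (hpq : ¬ Commute p.2 q.2)
    (hz : ¬ Commute z.2 (p.2 * q.2)) (hd : ¬ Dih (p :: q :: z :: r)) :
    ∃ t ∈ Tor (p.2 * q.2), Inf (cj t q.2 * z.2) ∧ ¬ Commute (cj t q.2) z.2 ∧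
      NA (r ++ [(p.1, cj t p.2)]) ∧ ¬ Dih ((p.1, cj t p.2) :: (q.1, cj t q.2) :: z :: r) := by
  obtain ⟨hp, hU1⟩ := UL_cons.1 hU
  obtain ⟨hq, hU2⟩ := UL_cons.1 hU1
  obtain ⟨hzU, hrU⟩ := UL_cons.1 hU2
  have hw : U (p.2 * q.2) := U_mul hp hq
  have hwn : NC (p.2 * q.2) := (NC_of_not_commute hp hq hpq).2.2
  have hpw : ¬ Commute p.2 (p.2 * q.2) := fun h => hpq ((commute_mul_left_iff hp).1 h)
  have hqw : ¬ Commute q.2 (p.2 * q.2) := fun h => hpq ((commute_mul_right_iff hq).1 h)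
  have hzn : NC z.2 := hn z (by simp)
  obtain ⟨x, hx⟩ := List.exists_mem_of_ne_nil r hr
  have hxU : U x.2 := hrU x hx
  have hxn : NC x.2 := hn x (by simp [hx])
  obtain ⟨ε, hε, hopen⟩ := dih_open hd
  have hB : ({t | t ∈ Tor (p.2 * q.2) ∧ ¬ Inf (z.2 * cj t q.2)} ∪
      ({t | t ∈ Tor (p.2 * q.2) ∧ Commute (cj t q.2) z.2} ∪
        {t | t ∈ Tor (p.2 * q.2) ∧ Commute (cj t p.2) x.2})).Countable :=
    (firstA_inf hw hwn hzU hq hz hqw).union
      ((flow_comm_one hw hwn hq hqw hzU hzn).countable.union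
        (flow_comm_one hw hwn hp hpw hxU hxn).countable)
  obtain ⟨t, ht, htd, htB⟩ := exists_tor hw hwn (t₀ := 1) ⟨U_one, Commute.one_left _⟩
    (ε := ε / 4) (by linarith) hB
  have h1 : Inf (z.2 * cj t q.2) := by
    by_contra h
    exact htB (Or.inl ⟨ht, h⟩)
  have h2 : ¬ Commute (cj t q.2) z.2 := fun h => htB (Or.inr (Or.inl ⟨ht, h⟩))
  have h3 : ¬ Commute (cj t p.2) x.2 := fun h => htB (Or.inr (Or.inr ⟨ht, h⟩))
  refine ⟨t, ht, ?_, h2, ?_, ?_⟩
  · exact inf_of_re (U_mul hzU (U_cj ht.1 hq)) (U_mul (U_cj ht.1 hq) hzU)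
      (firstA_re_comm _ _) h1
  · exact ⟨(p.1, cj t p.2), by simp, x, by simp [hx], h3⟩
  · refine hopen _ ?_
    exact near_cons rfl (firstA_near ht.1 hp htd hε)
      (near_cons rfl (firstA_near ht.1 hq htd hε) (near_refl _ hε))

/-- Second generic flow: `w = q z`, `e` and `f` do not commute with `w`.  For a suitable `t` near `1` in
the torus of `w` the list `f, q' = cj t q, z' = cj t z, e, m` has `f q'` and `z' e` of infinite order,
`f, q'` and `z', e` not commuting, not all entries of `m` commute with `f q'`, and is not dihedral.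
(If all entries of `m` commute with `f * cj t q` for infinitely many `t` then by `flow_comm` `q`, `f`
anticommute with `w.im` and all of `m` commutes with `w`; as `q z = w` and the product of the list is
`1`, also `z` anticommutes and `e` anticommutes: the list would be dihedral, `exists_axis`.) -/
theorem gen_flow2 {f q z e : ι × H} {m : LL ι} (hU : UL (f :: q :: z :: e :: m))
    (hn : ∀ x ∈ (f :: q :: z :: e :: m), NC x.2) (hp : pr (f :: q :: z :: e :: m) = 1)
    (hqz : ¬ Commute q.2 z.2) (he : ¬ Commute e.2 (q.2 * z.2)) (hf : ¬ Commute f.2 (q.2 * z.2))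
    (hm : m ≠ []) (hd : ¬ Dih (f :: q :: z :: e :: m)) :
    ∃ t ∈ Tor (q.2 * z.2), Inf (f.2 * cj t q.2) ∧ Inf (cj t z.2 * e.2) ∧
      ¬ Commute f.2 (cj t q.2) ∧ ¬ Commute (cj t z.2) e.2 ∧
      (∃ x ∈ m, ¬ Commute x.2 (f.2 * cj t q.2)) ∧
      ¬ Dih (f :: (q.1, cj t q.2) :: (z.1, cj t z.2) :: e :: m) := by
  obtain ⟨hfU, hU1⟩ := UL_cons.1 hU
  obtain ⟨hq, hU2⟩ := UL_cons.1 hU1
  obtain ⟨hzU, hU3⟩ := UL_cons.1 hU2
  obtain ⟨heU, hmU⟩ := UL_cons.1 hU3
  have hw : U (q.2 * z.2) := U_mul hq hzU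
  have hwn : NC (q.2 * z.2) := (NC_of_not_commute hq hzU hqz).2.2
  have hqw : ¬ Commute q.2 (q.2 * z.2) := fun h => hqz ((commute_mul_left_iff hq).1 h)
  have hzw : ¬ Commute z.2 (q.2 * z.2) := fun h => hqz ((commute_mul_right_iff hzU).1 h)
  have hfn : NC f.2 := hn f (by simp)
  have hen : NC e.2 := hn e (by simp)
  obtain ⟨ε, hε, hopen⟩ := dih_open hd
  -- the exceptional set for the entries of `m`
  have hfin : {t | t ∈ Tor (q.2 * z.2) ∧ ∀ x ∈ m, Commute x.2 (f.2 * cj t q.2)}.Finite := by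
    by_contra hinf
    have hall : ∀ x ∈ m, Anti q.2 (q.2 * z.2) ∧ Anti f.2 (q.2 * z.2) ∧
        Commute x.2 (q.2 * z.2) := by
      intro x hx
      refine flow_comm hw hwn hfU hq hqw (hmU x hx) (hn x (by simp [hx])) ?_
      refine Set.Infinite.mono ?_ hinf
      rintro t ⟨ht, h⟩
      exact ⟨ht, (h x hx).symm⟩
    obtain ⟨x0, hx0⟩ := List.exists_mem_of_ne_nil m hm
    obtain ⟨haq, haf, -⟩ := hall x0 hx0
    have haz : Anti z.2 (q.2 * z.2) := by
      have h1 : z.2 = star q.2 * (q.2 * z.2) := by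
        rw [← mul_assoc, U_star_mul hq, one_mul]
      have h2 := anti_mul_comm hwn (anti_star haq) (Commute.refl (q.2 * z.2))
      rwa [← h1] at h2
    have hcm : Commute (pr m) (q.2 * z.2) := reorder_commute_pr fun x hx => (hall x hx).2.2
    have hae : Anti e.2 (q.2 * z.2) := by
      have hpm : U (pr m) := U_pr hmU
      have h1 : e.2 = star (q.2 * z.2) * star f.2 * star (pr m) := by
        have h2 : f.2 * (q.2 * z.2) * e.2 * pr m = 1 := by
          rw [← hp, pr_cons, pr_cons, pr_cons, pr_cons]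
          simp only [mul_assoc]
        have h3 : star (q.2 * z.2) * star f.2 * (f.2 * (q.2 * z.2) * e.2 * pr m) *
            star (pr m) = e.2 := by
          have e1 := U_star_mul hfU
          have e2 := U_star_mul hw
          have e3 := U_mul_star hpm
          calc star (q.2 * z.2) * star f.2 * (f.2 * (q.2 * z.2) * e.2 * pr m) * star (pr m)
              = star (q.2 * z.2) * (star f.2 * f.2) * (q.2 * z.2) * e.2 *
                (pr m * star (pr m)) := by simp only [mul_assoc]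
            _ = e.2 := by rw [e1, e3, mul_one, mul_one, e2, one_mul]
        rw [h2, mul_one] at h3
        exact h3.symm
      rw [h1]
      refine anti_mul_comm hwn (comm_mul_anti hwn ?_ (anti_star haf)) ?_
      · exact (commute_star hw).2 (Commute.refl _)
      · exact (commute_star hpm).2 hcm
    obtain ⟨u, hu, hu0, hc, ha⟩ := exists_axis hwn
    apply hd
    refine ⟨u, hu, hu0, fun x hx => ?_⟩
    rcases List.mem_cons.1 hx with rfl | hx
    · exact Or.inr ((ha _).1 haf)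
    rcases List.mem_cons.1 hx with rfl | hx
    · exact Or.inr ((ha _).1 haq)
    rcases List.mem_cons.1 hx with rfl | hx
    · exact Or.inr ((ha _).1 haz)
    rcases List.mem_cons.1 hx with rfl | hx
    · exact Or.inr ((ha _).1 hae)
    · exact Or.inl ((hc _).1 (hall x hx).2.2)
  have hB : ({t | t ∈ Tor (q.2 * z.2) ∧ ¬ Inf (f.2 * cj t q.2)} ∪
      ({t | t ∈ Tor (q.2 * z.2) ∧ ¬ Inf (e.2 * cj t z.2)} ∪
      ({t | t ∈ Tor (q.2 * z.2) ∧ Commute (cj t q.2) f.2} ∪
      ({t | t ∈ Tor (q.2 * z.2) ∧ Commute (cj t z.2) e.2} ∪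
        {t | t ∈ Tor (q.2 * z.2) ∧ ∀ x ∈ m, Commute x.2 (f.2 * cj t q.2)})))).Countable :=
    (firstA_inf hw hwn hfU hq hf hqw).union
      ((firstA_inf hw hwn heU hzU he hzw).union
        ((flow_comm_one hw hwn hq hqw hfU hfn).countable.union
          ((flow_comm_one hw hwn hzU hzw heU hen).countable.union hfin.countable)))
  obtain ⟨t, ht, htd, htB⟩ := exists_tor hw hwn (t₀ := 1) ⟨U_one, Commute.one_left _⟩
    (ε := ε / 4) (by linarith) hB
  have h1 : Inf (f.2 * cj t q.2) := by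
    by_contra h
    exact htB (Or.inl ⟨ht, h⟩)
  have h2 : Inf (e.2 * cj t z.2) := by
    by_contra h
    exact htB (Or.inr (Or.inl ⟨ht, h⟩))
  have h3 : ¬ Commute (cj t q.2) f.2 := fun h => htB (Or.inr (Or.inr (Or.inl ⟨ht, h⟩)))
  have h4 : ¬ Commute (cj t z.2) e.2 := fun h =>
    htB (Or.inr (Or.inr (Or.inr (Or.inl ⟨ht, h⟩))))
  have h5 : ∃ x ∈ m, ¬ Commute x.2 (f.2 * cj t q.2) := by
    by_contra h
    push Not at h
    exact htB (Or.inr (Or.inr (Or.inr (Or.inr ⟨ht, h⟩))))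
  refine ⟨t, ht, h1, ?_, fun h => h3 h.symm, h4, h5, ?_⟩
  · exact inf_of_re (U_mul heU (U_cj ht.1 hzU)) (U_mul (U_cj ht.1 hzU) heU)
      (firstA_re_comm _ _) h2
  · refine hopen _ ?_
    have hf0 : dist f.2 f.2 < ε := by rw [dist_self]; exact hε
    exact near_cons rfl hf0 (near_cons rfl (firstA_near ht.1 hq htd hε)
      (near_cons rfl (firstA_near ht.1 hzU htd hε) (near_refl _ hε)))

end Pool.Agent.W24dbe6
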