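import Pool.Agent.W_MP_24dbe6_h58.T1
import Pool.Agent.W_MP_24dbe6_h58.FirstA

set_option autoImplicit false

/-!
The first level set (lists of length at least 5).
-/

namespace Pool.Agent.W24dbe6

open Quaternion

variable {ι : Type}

/-- the flow preserves admissibility -/
theorem First_adm {θ : ι → ℝ} {l S r : LL ι} (h : Adm θ (l ++ S ++ r)) {t : H}
    (ht : t ∈ Tor (pr S)) : Adm θ (l ++ cjL t S ++ r) := by
  refine ⟨?_, ?_⟩
  · intro p hp
    simp only [List.mem_append] at hp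
    rcases hp with (hp | hp) | hp
    · exact h.1 p (by simp only [List.mem_append]; exact Or.inl (Or.inl hp))
    · obtain ⟨q, hq, rfl⟩ := mem_cjL.mp hp
      have h1 := h.1 q (by simp only [List.mem_append]; exact Or.inl (Or.inr hq))
      refine ⟨U_cj ht.1 h1.1, ?_⟩
      show (cj t q.2).re = _
      rw [cj_re ht.1]
      exact h1.2
    · exact h.1 p (by simp only [List.mem_append]; exact Or.inr hp)
  · have h1 := h.2
    rw [pr_append, pr_append] at h1 ⊢
    rw [pr_cjL ht.1, cj_of_commute ht.1 ht.2]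
    exact h1

/-- the entries of admissible lists are non-central -/
theorem First_NC {θ : ι → ℝ} (hθ : ∀ i, 0 < θ i ∧ θ i < Real.pi) {L : LL ι} (h : Adm θ L) :
    ∀ p ∈ L, NC p.2 := by
  intro p hp
  obtain ⟨hU, hre⟩ := h.1 p hp
  rw [NC_iff hU, hre]
  constructor
  · have h1 := Real.cos_lt_cos_of_nonneg_of_le_pi (hθ p.1).1.le le_rfl (hθ p.1).2
    rwa [Real.cos_pi] at h1
  · have h1 := Real.cos_lt_cos_of_nonneg_of_le_pi le_rfl (hθ p.1).2.le (hθ p.1).1
    rwa [Real.cos_zero] at h1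

/-- the product of the rest is inverse to the product of the first two entries -/
theorem First_rest {x y : ι × H} {r : LL ι} (hx : U x.2) (hy : U y.2)
    (h : pr (x :: y :: r) = 1) : Commute (pr r) (x.2 * y.2) := by
  rw [pr_cons, pr_cons, ← mul_assoc] at h
  have h1 : pr r = star (x.2 * y.2) := by
    calc pr r = star (x.2 * y.2) * (x.2 * y.2) * pr r := by
          rw [U_star_mul (U_mul hx hy), one_mul]
      _ = star (x.2 * y.2) * (x.2 * y.2 * pr r) := by rw [mul_assoc]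
      _ = star (x.2 * y.2) := by rw [h, mul_one]
  rw [h1]
  exact (commute_star (U_mul hx hy)).2 (Commute.refl _)

/-- From a good pair in `Z` to a list with two good pairs. Combine `one_out`, `gen_flow`, `flow`,
rotation, `two_out`, `gen_flow2`, `flow`. -/
theorem two_pairs {θ : ι → ℝ} (hθ : ∀ i, 0 < θ i ∧ θ i < Real.pi) {Z : LL ι → Prop}
    (hZ : BClosed Z) {p q : ι × H} {r : LL ι} (hlen : 5 ≤ (p :: q :: r).length)
    (hadm : Adm θ (p :: q :: r)) (hz : Z (p :: q :: r)) (hgp : GP p q r)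
    (hd : ¬ Dih (p :: q :: r)) :
    ∃ (f q' z' e : ι × H) (m : LL ι), Z (f :: q' :: z' :: e :: m) ∧
      Adm θ (f :: q' :: z' :: e :: m) ∧ (lab (f :: q' :: z' :: e :: m)).Perm (lab (p :: q :: r)) ∧
      Inf (f.2 * q'.2) ∧ Inf (z'.2 * e.2) ∧ ¬ Commute f.2 q'.2 ∧ ¬ Commute z'.2 e.2 ∧
      (∃ x ∈ m, ¬ Commute x.2 (f.2 * q'.2)) ∧ ¬ Dih (f :: q' :: z' :: e :: m) := by
  obtain ⟨hinf, hpq, hna⟩ := hgp
  have hUL := Adm_UL hadm
  have hUp : U p.2 := hUL p List.mem_cons_self
  have hUq : U q.2 := hUL q (List.mem_cons_of_mem _ List.mem_cons_self)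
  have hUr : UL r := fun x hx => hUL x (List.mem_cons_of_mem _ (List.mem_cons_of_mem _ hx))
  have hw : NC (p.2 * q.2) := inf_NC (U_mul hUp hUq) hinf
  obtain ⟨z, r1, hbv, hzw⟩ := one_out hUr (exists_out hna hw)
  have hbv' : Bv (p :: q :: r) (p :: q :: z :: r1) := Bv_cons (Bv_cons hbv q) p
  have hmv' : Mv (p :: q :: r) (p :: q :: z :: r1) := Mv_of_Bv hbv'
  have hadm1 := Mv_Adm hmv' hadm
  have hz1 := Bv_Z hZ hbv' hz
  have hlen1 : (p :: q :: z :: r1).length = (p :: q :: r).length := Bv_length hbv'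
  have hr1 : r1 ≠ [] := by
    rintro rfl
    rw [← hlen1] at hlen
    simp at hlen
  have hd1 : ¬ Dih (p :: q :: z :: r1) := fun h => hd ((Mv_Dih hmv' hUL).1 h)
  obtain ⟨t, ht, hi2, hc2, hna2, hd2⟩ :=
    gen_flow (Adm_UL hadm1) (First_NC hθ hadm1) hr1 hpq hzw hd1
  have hprpq : pr [p, q] = p.2 * q.2 := by rw [pr_cons, pr_cons, pr_nil, mul_one]
  obtain ⟨p2, hp2⟩ : ∃ p2 : ι × H, p2 = (p.1, cj t p.2) := ⟨_, rfl⟩
  obtain ⟨q2, hq2⟩ : ∃ q2 : ι × H, q2 = (q.1, cj t q.2) := ⟨_, rfl⟩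
  have hi2' : Inf (q2.2 * z.2) := by rw [hq2]; exact hi2
  have hc2' : ¬ Commute q2.2 z.2 := by rw [hq2]; exact hc2
  rw [← hp2] at hna2 hd2
  rw [← hq2] at hd2
  have hz2 : Z (p2 :: q2 :: z :: r1) := by
    have h1 := flow hZ (l := []) (S := [p, q]) (r := z :: r1) hz1 (by rw [hprpq]; exact hinf)
      (t := t) (by rw [hprpq]; exact ht)
    rw [hp2, hq2]
    exact h1
  have hadm2 : Adm θ (p2 :: q2 :: z :: r1) := by
    have h1 := First_adm (l := []) (S := [p, q]) (r := z :: r1) hadm1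
      (t := t) (by rw [hprpq]; exact ht)
    rw [hp2, hq2]
    exact h1
  have hlab2 : lab (p2 :: q2 :: z :: r1) = lab (p :: q :: z :: r1) := by
    rw [hp2, hq2]
    rfl
  have hU2 := Adm_UL hadm2
  have hUq2 : U q2.2 := hU2 q2 (List.mem_cons_of_mem _ List.mem_cons_self)
  have hUz : U z.2 := hU2 z (by simp)
  have hw2 : NC (q2.2 * z.2) := inf_NC (U_mul hUq2 hUz) hi2'
  -- rotate
  have hm1 : Mv (p2 :: q2 :: z :: r1) (q2 :: z :: (r1 ++ [p2])) := mv_rot hU2
  have hadm2' := Mv_Adm hm1 hadm2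
  have hU2' := Adm_UL hadm2'
  have hUR : UL (r1 ++ [p2]) := fun x hx =>
    hU2' x (List.mem_cons_of_mem _ (List.mem_cons_of_mem _ hx))
  obtain ⟨e, f, m, hbv3, hew, hfw⟩ :=
    two_out hUR hw2 (First_rest hUq2 hUz hadm2'.2) (exists_out hna2 hw2)
  have hm2 : Mv (q2 :: z :: (r1 ++ [p2])) (q2 :: z :: (e :: m ++ [f])) :=
    Mv_of_Bv (Bv_cons (Bv_cons hbv3 z) q2)
  have hm3 : Mv (q2 :: z :: (e :: m ++ [f])) (f :: q2 :: z :: e :: m) :=
    mv_rot' (l := q2 :: z :: e :: m) (r := [f]) (Mv_UL hm2 hU2')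
  have hm4 : Mv (p2 :: q2 :: z :: r1) (f :: q2 :: z :: e :: m) :=
    Mv_trans hm1 (Mv_trans hm2 hm3)
  have hadm4 := Mv_Adm hm4 hadm2
  have hz4 := Mv_Z hZ hm4 hz2
  have hd4 : ¬ Dih (f :: q2 :: z :: e :: m) := fun h => hd2 ((Mv_Dih hm4 hU2).1 h)
  have hlen4 := Mv_length hm4
  have hmne : m ≠ [] := by
    rintro rfl
    rw [← hlen1] at hlen
    simp only [List.length_cons, List.length_nil] at hlen4 hlen
    omega
  obtain ⟨t', ht', hi5, hi5', hc5, hc5', hx5, hd5⟩ :=
    gen_flow2 (Adm_UL hadm4) (First_NC hθ hadm4) hadm4.2 hc2' hew hfw hmne hd4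
  have hprqz : pr [q2, z] = q2.2 * z.2 := by rw [pr_cons, pr_cons, pr_nil, mul_one]
  refine ⟨f, (q2.1, cj t' q2.2), (z.1, cj t' z.2), e, m, ?_, ?_, ?_, hi5, hi5', hc5, hc5', hx5,
    hd5⟩
  · exact flow hZ (l := [f]) (S := [q2, z]) (r := e :: m) hz4 (by rw [hprqz]; exact hi2')
      (t := t') (by rw [hprqz]; exact ht')
  · exact First_adm (l := [f]) (S := [q2, z]) (r := e :: m) hadm4
      (t := t') (by rw [hprqz]; exact ht')
  · have h1 : (lab (f :: q2 :: z :: e :: m)).Perm (lab (p2 :: q2 :: z :: r1)) := Mv_perm hm4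
    rw [hlab2] at h1
    exact h1.trans (Mv_perm hmv')

/-- elements preserving the axis `v` preserve the parallel axis `u` -/
theorem First_axis {u v x : H} (hv : U v) (hur : u.re = 0) (hvr : v.re = 0)
    (huv : Commute v u) (h : x * v = v * x ∨ x * v = -(v * x)) :
    x * u = u * x ∨ x * u = -(u * x) := by
  have hN : NC v := by rw [NC_iff hv, hvr]; constructor <;> norm_num
  obtain ⟨a, b, hab⟩ := (comm_iff hN).1 huv
  have ha : a = 0 := by
    have h1 := congrArg (fun w : H => w.re) hab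
    simp only [Quaternion.re_add, Quaternion.re_coe, Quaternion.re_mul, Quaternion.imI_coe,
      Quaternion.imJ_coe, Quaternion.imK_coe, hur, hvr] at h1
    linarith
  rw [ha, Quaternion.coe_zero, zero_add] at hab
  rw [hab]
  have hb : x * ((b : H) * v) = (b : H) * (x * v) := by
    rw [← mul_assoc, ← mul_assoc, Quaternion.coe_commutes]
  have hb' : ((b : H) * v) * x = (b : H) * (v * x) := mul_assoc _ _ _
  rcases h with h | h
  · left
    rw [hb, hb', h]
  · right
    rw [hb, hb', h, mul_neg]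

/-- The two hidden lists are not both dihedral. -/
theorem hidden_not_both_dih {f q z e : ι × H} {m : LL ι} (hU : UL (f :: q :: z :: e :: m))
    (h1 : Inf (f.2 * q.2)) (h2 : Inf (z.2 * e.2)) (hd : ¬ Dih (f :: q :: z :: e :: m)) :
    ¬ Dih ((none, f.2 * q.2) :: lft (z :: e :: m)) ∨
      ¬ Dih ((none, z.2 * e.2) :: lft (m ++ [f, q])) := by
  by_contra hcon
  rw [not_or, not_not, not_not] at hcon
  obtain ⟨⟨u, hu, hur, hu2⟩, v, hv, hvr, hv2⟩ := hcon
  have hUz : U z.2 := hU z (by simp)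
  have hUe : U e.2 := hU e (by simp)
  have hzu : z.2 * u = u * z.2 ∨ z.2 * u = -(u * z.2) := hu2 (some z.1, z.2) (by simp [lft])
  have heu : e.2 * u = u * e.2 ∨ e.2 * u = -(u * e.2) := hu2 (some e.1, e.2) (by simp [lft])
  have hze : Commute (z.2 * e.2) u := inf_anti (U_mul hUz hUe) h2 hu hur (dihc_mul hzu heu)
  have hze' : Commute (z.2 * e.2) v :=
    inf_anti (U_mul hUz hUe) h2 hv hvr (hv2 (none, z.2 * e.2) (by simp))
  have hNC : NC (z.2 * e.2) := inf_NC (U_mul hUz hUe) h2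
  have huv : Commute v u := comm_trans hNC hze'.symm hze
  apply hd
  refine ⟨u, hu, hur, ?_⟩
  intro p hp
  rcases List.mem_cons.1 hp with rfl | hp
  · exact First_axis hv hur hvr huv (hv2 (some p.1, p.2) (by simp [lft]))
  rcases List.mem_cons.1 hp with rfl | hp
  · exact First_axis hv hur hvr huv (hv2 (some p.1, p.2) (by simp [lft]))
  · refine hu2 (some p.1, p.2) (List.mem_cons_of_mem _ ?_)
    exact List.mem_map.2 ⟨p, hp, rfl⟩

/-- The first level set.  From `two_pairs`; hide `f, q'` (then `z', e` is a good pair of the rotated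
hidden list, its rest `m, f q'` is non-abelian) or hide `z', e` (rotate first; then `f, q'` is a good
pair, its rest `z' e, m` is non-abelian because otherwise all of `m` and `f q'` would commute with
`z' e`); choose the one which is not dihedral (`hidden_not_both_dih`); `lev_of_hide`. -/
theorem first_lev {n : ℕ} (hn : 4 ≤ n) (hA : ThmA n) {θ : ι → ℝ}
    (hθ : ∀ i, 0 < θ i ∧ θ i < Real.pi) {Z : LL ι → Prop} (hZ : BClosed Z) {p q : ι × H}
    {r : LL ι} (hlen : (p :: q :: r).length = n + 1) (hadm : Adm θ (p :: q :: r))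
    (hz : Z (p :: q :: r)) (hgp : GP p q r) (hd : ¬ Dih (p :: q :: r)) :
    ∃ (b₁ b₂ : ι × H) (s : LL ι), Adm θ (b₁ :: b₂ :: s) ∧
      (lab (b₁ :: b₂ :: s)).Perm (lab (p :: q :: r)) ∧ GP b₁ b₂ s ∧
      Lev θ Z b₁.1 b₂.1 (lab s) (ang (b₁.2 * b₂.2)) := by
  obtain ⟨f, q', z', e, m, hz2, hadm2, hperm, hi1, hi2, hc1, hc2, ⟨x, hxm, hx⟩, hd2⟩ :=
    two_pairs hθ hZ (by omega) hadm hz hgp hd
  have hU := Adm_UL hadm2
  have hUf : U f.2 := hU f (by simp)
  have hUq : U q'.2 := hU q' (by simp)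
  have hUz : U z'.2 := hU z' (by simp)
  have hUe : U e.2 := hU e (by simp)
  have hUm : UL m := fun y hy => hU y (by simp [hy])
  have hlm : (f :: q' :: z' :: e :: m).length = n + 1 := by
    have h1 := hperm.length_eq
    unfold lab at h1
    rw [List.length_map, List.length_map] at h1
    rw [h1, hlen]
  have hlm' : m.length + 3 = n := by
    simp only [List.length_cons] at hlm
    omega
  have hUlft : ∀ L : LL ι, UL L → UL (lft L) := by
    intro L hL y hy
    obtain ⟨y', hy', rfl⟩ := List.mem_map.1 hy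
    exact hL y' hy'
  have hlftlen : ∀ L : LL ι, (lft L).length = L.length := fun L => List.length_map _
  rcases hidden_not_both_dih hU hi1 hi2 hd2 with hnd | hnd
  · -- hide `f, q'`
    have hUh : UL ((none, f.2 * q'.2) :: lft (z' :: e :: m)) := by
      refine UL_cons.2 ⟨U_mul hUf hUq, hUlft _ ?_⟩
      exact fun y hy => hU y (List.mem_cons_of_mem _ (List.mem_cons_of_mem _ hy))
    have hmv : Mv ((none, f.2 * q'.2) :: lft (z' :: e :: m))
        ((some z'.1, z'.2) :: (some e.1, e.2) :: (lft m ++ [(none, f.2 * q'.2)])) := mv_rot hUh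
    refine ⟨f, q', z' :: e :: m, hadm2, hperm, ⟨hi1, hc1, ⟨z', by simp, e, by simp, hc2⟩⟩, ?_⟩
    refine lev_of_hide hA hθ hZ hadm2 hz2 hi1 hmv ?_ ⟨hi2, hc2, ?_⟩ (Or.inr ?_)
    · simp only [List.length_cons, List.length_append, hlftlen, List.length_nil]
      omega
    · refine ⟨(some x.1, x.2), ?_, (none, f.2 * q'.2), by simp, hx⟩
      exact List.mem_append_left _ (List.mem_map.2 ⟨x, hxm, rfl⟩)
    · exact fun h => hnd ((Mv_Dih hmv hUh).1 h)
  · -- hide `z', e`
    have hmv0 : Mv (f :: q' :: z' :: e :: m) (z' :: e :: (m ++ [f, q'])) :=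
      mv_rot' (l := [f, q']) (r := z' :: e :: m) hU
    have hadm3 := Mv_Adm hmv0 hadm2
    have hz3 := Mv_Z hZ hmv0 hz2
    have hUh : UL ((none, z'.2 * e.2) :: lft (m ++ [f, q'])) := by
      refine UL_cons.2 ⟨U_mul hUz hUe, hUlft _ ?_⟩
      exact fun y hy => Adm_UL hadm3 y (List.mem_cons_of_mem _ (List.mem_cons_of_mem _ hy))
    have hl1 : lft (m ++ [f, q']) = lft m ++ [(some f.1, f.2), (some q'.1, q'.2)] := by
      unfold lft
      rw [List.map_append]
      rfl
    have hmv : Mv ((none, z'.2 * e.2) :: lft (m ++ [f, q']))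
        ((some f.1, f.2) :: (some q'.1, q'.2) :: ((none, z'.2 * e.2) :: lft m)) := by
      have h1 := mv_rot' (l := (none, z'.2 * e.2) :: lft m)
        (r := [(some f.1, f.2), (some q'.1, q'.2)]) (by rw [hl1] at hUh; exact hUh)
      rw [hl1]
      exact h1
    refine ⟨z', e, m ++ [f, q'], hadm3, (Mv_perm hmv0).trans hperm,
      ⟨hi2, hc2, ⟨f, by simp, q', by simp, hc1⟩⟩, ?_⟩
    refine lev_of_hide hA hθ hZ hadm3 hz3 hi2 hmv ?_ ⟨hi1, hc1, ?_⟩ (Or.inr ?_)
    · simp only [List.length_cons, hlftlen]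
      omega
    · by_contra hna
      rw [not_NA_iff] at hna
      apply hx
      have h1 : Commute x.2 (z'.2 * e.2) := by
        have h2 := hna (some x.1, x.2) (List.mem_cons_of_mem _ (List.mem_map.2 ⟨x, hxm, rfl⟩))
          (none, z'.2 * e.2) List.mem_cons_self
        exact h2
      have h3 : Commute x.2 (pr m) := by
        refine (reorder_commute_pr (L := m) (w := x.2) fun y hy => ?_).symm
        have h4 := hna (some y.1, y.2) (List.mem_cons_of_mem _ (List.mem_map.2 ⟨y, hy, rfl⟩))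
          (some x.1, x.2) (List.mem_cons_of_mem _ (List.mem_map.2 ⟨x, hxm, rfl⟩))
        exact h4
      have h5 : f.2 * q'.2 * (z'.2 * e.2 * pr m) = 1 := by
        have h6 := hadm2.2
        rw [pr_cons, pr_cons, pr_cons, pr_cons] at h6
        rw [← h6]
        simp only [mul_assoc]
      have hUg : U (z'.2 * e.2 * pr m) := U_mul (U_mul hUz hUe) (U_pr hUm)
      have h7 : f.2 * q'.2 = star (z'.2 * e.2 * pr m) := by
        calc f.2 * q'.2 = f.2 * q'.2 * ((z'.2 * e.2 * pr m) * star (z'.2 * e.2 * pr m)) := by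
              rw [U_mul_star hUg, mul_one]
          _ = (f.2 * q'.2 * (z'.2 * e.2 * pr m)) * star (z'.2 * e.2 * pr m) :=
              (mul_assoc _ _ _).symm
          _ = star (z'.2 * e.2 * pr m) := by rw [h5, one_mul]
      rw [h7]
      exact ((commute_star hUg).2 (h1.mul_right h3).symm).symm
    · exact fun h => hnd ((Mv_Dih hmv hUh).1 h)

end Pool.Agent.W24dbe6
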