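import Pool.Agent.W_MP_24dbe6_h58.Basic

set_option autoImplicit false

/-!
Commuting quaternions.
-/

namespace Pool.Agent.W24dbe6

open Quaternion

theorem geoComm_im_ne {x : H} : NC x ↔ 0 < x.imI ^ 2 + x.imJ ^ 2 + x.imK ^ 2 := by
  unfold NC
  constructor
  · intro h
    by_contra h0
    refine h ?_
    have h1 : x.imI = 0 := by nlinarith [sq_nonneg x.imI, sq_nonneg x.imJ, sq_nonneg x.imK]
    have h2 : x.imJ = 0 := by nlinarith [sq_nonneg x.imI, sq_nonneg x.imJ, sq_nonneg x.imK]
    have h3 : x.imK = 0 := by nlinarith [sq_nonneg x.imI, sq_nonneg x.imJ, sq_nonneg x.imK]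
    ext <;> simp [h1, h2, h3]
  · intro h h0
    have h1 : x.imI = 0 := by
      have := congrArg QuaternionAlgebra.imI h0
      simpa using this
    have h2 : x.imJ = 0 := by
      have := congrArg QuaternionAlgebra.imJ h0
      simpa using this
    have h3 : x.imK = 0 := by
      have := congrArg QuaternionAlgebra.imK h0
      simpa using this
    rw [h1, h2, h3] at h
    norm_num at h

theorem geoComm_commute {x y : H} : Commute x y ↔
    (x.imJ * y.imK = x.imK * y.imJ ∧ x.imK * y.imI = x.imI * y.imK ∧
      x.imI * y.imJ = x.imJ * y.imI) := by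
  constructor
  · intro h
    have h' : x * y = y * x := h
    have h1 := congrArg QuaternionAlgebra.imI h'
    have h2 := congrArg QuaternionAlgebra.imJ h'
    have h3 := congrArg QuaternionAlgebra.imK h'
    simp only [Quaternion.imI_mul, Quaternion.imJ_mul, Quaternion.imK_mul] at h1 h2 h3
    refine ⟨?_, ?_, ?_⟩ <;> nlinarith
  · rintro ⟨h1, h2, h3⟩
    show x * y = y * x
    ext
    · simp only [Quaternion.re_mul]; ring
    · simp only [Quaternion.imI_mul]; nlinarith
    · simp only [Quaternion.imJ_mul]; nlinarith
    · simp only [Quaternion.imK_mul]; nlinarith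

/-- the centralizer of a non-central quaternion is `ℝ + ℝ x` -/
theorem comm_iff {x y : H} (hx : NC x) : Commute x y ↔ ∃ a b : ℝ, y = (a : H) + (b : H) * x := by
  have hN := geoComm_im_ne.1 hx
  constructor
  · intro h
    obtain ⟨h1, h2, h3⟩ := geoComm_commute.1 h
    set N := x.imI ^ 2 + x.imJ ^ 2 + x.imK ^ 2 with hNd
    set b := (x.imI * y.imI + x.imJ * y.imJ + x.imK * y.imK) / N with hb
    have hbN : b * N = x.imI * y.imI + x.imJ * y.imJ + x.imK * y.imK := by
      rw [hb]
      field_simp
    have hI : y.imI = b * x.imI := by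
      have : y.imI * N = b * x.imI * N := by
        rw [mul_right_comm, hbN, hNd]
        linear_combination (-x.imJ) * h3 + x.imK * h2
      exact mul_right_cancel₀ hN.ne' this
    have hJ : y.imJ = b * x.imJ := by
      have : y.imJ * N = b * x.imJ * N := by
        rw [mul_right_comm, hbN, hNd]
        linear_combination x.imI * h3 - x.imK * h1
      exact mul_right_cancel₀ hN.ne' this
    have hK : y.imK = b * x.imK := by
      have : y.imK * N = b * x.imK * N := by
        rw [mul_right_comm, hbN, hNd]
        linear_combination x.imJ * h1 - x.imI * h2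
      exact mul_right_cancel₀ hN.ne' this
    refine ⟨y.re - b * x.re, b, ?_⟩
    ext
    · simp
    · simp [hI]
    · simp [hJ]
    · simp [hK]
  · rintro ⟨a, b, rfl⟩
    refine geoComm_commute.2 ⟨?_, ?_, ?_⟩ <;> simp <;> ring

theorem comm_trans {x y z : H} (hy : NC y) (h1 : Commute x y) (h2 : Commute y z) :
    Commute x z := by
  obtain ⟨a, b, rfl⟩ := (comm_iff hy).1 h1.symm
  obtain ⟨c, d, rfl⟩ := (comm_iff hy).1 h2
  refine geoComm_commute.2 ⟨?_, ?_, ?_⟩ <;> simp <;> ring

/-- a quaternion with zero imaginary part commutes with everything -/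
theorem commute_of_not_NC {x : H} (hx : ¬ NC x) (y : H) : Commute x y := by
  have h : x.im = 0 := not_not.1 hx
  have h1 : x.imI = 0 := by simpa using congrArg QuaternionAlgebra.imI h
  have h2 : x.imJ = 0 := by simpa using congrArg QuaternionAlgebra.imJ h
  have h3 : x.imK = 0 := by simpa using congrArg QuaternionAlgebra.imK h
  refine geoComm_commute.2 ⟨?_, ?_, ?_⟩ <;> simp [h1, h2, h3]

theorem geoComm_normSq {x : H} (hx : U x) :
    x.re ^ 2 + x.imI ^ 2 + x.imJ ^ 2 + x.imK ^ 2 = 1 := by
  have h1 : Quaternion.normSq x = 1 := by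
    rw [Quaternion.normSq_eq_norm_mul_self, show ‖x‖ = 1 from hx, one_mul]
  rwa [Quaternion.normSq_def'] at h1

theorem NC_iff {x : H} (hx : U x) : NC x ↔ -1 < x.re ∧ x.re < 1 := by
  have h := geoComm_normSq hx
  rw [geoComm_im_ne]
  constructor
  · intro h1
    have h2 : x.re ^ 2 < 1 := by linarith
    exact abs_lt.1 ((sq_lt_one_iff_abs_lt_one _).1 h2)
  · intro h1
    have h2 : x.re ^ 2 < 1 := (sq_lt_one_iff_abs_lt_one _).2 (abs_lt.2 h1)
    linarith

theorem NC_iff_ang {x : H} (hx : U x) : NC x ↔ 0 < ang x ∧ ang x < Real.pi := by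
  rw [NC_iff hx]
  unfold ang
  rw [Real.arccos_pos, Real.arccos_lt_pi]
  exact and_comm

/-- unit quaternions which are not `NC` are `1` or `-1` -/
theorem eq_of_not_NC {x : H} (hx : U x) (h : ¬ NC x) : x = 1 ∨ x = -1 := by
  have h0 : x.im = 0 := not_not.1 h
  have h1 : x.imI = 0 := by simpa using congrArg QuaternionAlgebra.imI h0
  have h2 : x.imJ = 0 := by simpa using congrArg QuaternionAlgebra.imJ h0
  have h3 : x.imK = 0 := by simpa using congrArg QuaternionAlgebra.imK h0
  have h4 := geoComm_normSq hx
  rw [h1, h2, h3] at h4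
  have h5 : x.re ^ 2 = 1 := by linarith
  have h5' : (x.re - 1) * (x.re + 1) = 0 := by linear_combination h5
  have h6' : x.re = 1 ∨ x.re = -1 := by
    rcases mul_eq_zero.1 h5' with h | h
    · left; linarith
    · right; linarith
  rcases h6' with h6 | h6
  · left
    ext <;> simp [h1, h2, h3, h6]
  · right
    ext <;> simp [h1, h2, h3, h6]

theorem geoComm_cj_real {g : H} (hg : U g) {x : H} (h : ¬ NC x) : ¬ NC (cj g x) := by
  have h0 : cj g x = x := cj_of_commute hg (commute_of_not_NC h g).symm
  rwa [h0]

theorem NC_cj {g : H} (hg : U g) {x : H} : NC (cj g x) ↔ NC x := by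
  constructor
  · intro h
    by_contra h1
    exact geoComm_cj_real hg h1 h
  · intro h
    by_contra h1
    have h2 := geoComm_cj_real (U_star hg) h1
    rw [cj_star_cj hg] at h2
    exact h2 h

theorem NC_star {x : H} : NC (star x) ↔ NC x := by
  rw [geoComm_im_ne, geoComm_im_ne]
  simp

/-- the product of two non-commuting units is non-central, and so are the factors -/
theorem NC_of_not_commute {x y : H} (hx : U x) (hy : U y) (h : ¬ Commute x y) :
    NC x ∧ NC y ∧ NC (x * y) := by
  refine ⟨?_, ?_, ?_⟩
  · by_contra h1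
    exact h (commute_of_not_NC h1 y)
  · by_contra h1
    exact h (commute_of_not_NC h1 x).symm
  · by_contra h1
    have h2 := commute_of_not_NC h1 x
    refine h ?_
    show x * y = y * x
    have h3 : x * y * x = x * (x * y) := h2
    have h4 : star x * (x * y * x) = star x * (x * (x * y)) := by rw [h3]
    have h5 : star x * (x * y * x) = y * x := by
      calc star x * (x * y * x) = (star x * x) * (y * x) := by simp only [mul_assoc]
        _ = y * x := by rw [U_star_mul hx, one_mul]
    have h6 : star x * (x * (x * y)) = x * y := by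
      rw [← mul_assoc, U_star_mul hx, one_mul]
    rw [← h5, h4, h6]

/-- `x` commutes with `x * y` iff `x` commutes with `y` -/
theorem commute_mul_left_iff {x y : H} (hx : U x) : Commute x (x * y) ↔ Commute x y := by
  constructor
  · intro h
    have h3 : x * (x * y) = x * y * x := h
    show x * y = y * x
    have h4 : star x * (x * (x * y)) = star x * (x * y * x) := by rw [h3]
    have h5 : star x * (x * y * x) = y * x := by
      calc star x * (x * y * x) = (star x * x) * (y * x) := by simp only [mul_assoc]
        _ = y * x := by rw [U_star_mul hx, one_mul]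
    have h6 : star x * (x * (x * y)) = x * y := by
      rw [← mul_assoc, U_star_mul hx, one_mul]
    rw [← h5, ← h4, h6]
  · intro h
    exact (Commute.refl x).mul_right h

/-- `y` commutes with `x * y` iff `x` commutes with `y` -/
theorem commute_mul_right_iff {x y : H} (hy : U y) : Commute y (x * y) ↔ Commute x y := by
  constructor
  · intro h
    have h3 : y * (x * y) = x * y * y := h
    show x * y = y * x
    have h4 : y * (x * y) * star y = x * y * y * star y := by rw [h3]
    have h5 : y * (x * y) * star y = y * x := by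
      calc y * (x * y) * star y = y * x * (y * star y) := by simp only [mul_assoc]
        _ = y * x := by rw [U_mul_star hy, mul_one]
    have h6 : x * y * y * star y = x * y := by
      rw [mul_assoc, U_mul_star hy, mul_one]
    rw [← h5, h4, h6]
  · intro h
    exact h.symm.mul_right (Commute.refl y)

/-- commuting with `w` is commuting with its imaginary part -/
theorem geoComm_im {x w : H} : Commute x w ↔ Commute x w.im := by
  rw [geoComm_commute, geoComm_commute]
  simp

/-- the imaginary part of a non-central quaternion, normalised: a pure unit `u` with the same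
centralizer -/
theorem exists_axis {w : H} (hw : NC w) : ∃ u : H, U u ∧ u.re = 0 ∧
    (∀ x : H, Commute x w ↔ x * u = u * x) ∧ (∀ x : H, Anti x w ↔ x * u = -(u * x)) := by
  have hn : ‖w.im‖ ≠ 0 := norm_ne_zero_iff.2 hw
  have hc : ‖w.im‖⁻¹ ≠ 0 := inv_ne_zero hn
  refine ⟨‖w.im‖⁻¹ • w.im, ?_, ?_, ?_, ?_⟩
  · show ‖‖w.im‖⁻¹ • w.im‖ = 1
    rw [norm_smul, norm_inv, norm_norm, inv_mul_cancel₀ hn]
  · simp
  · intro x
    rw [geoComm_im]
    show x * w.im = w.im * x ↔ _
    rw [mul_smul_comm, smul_mul_assoc]
    exact ⟨fun h => by rw [h], fun h => smul_right_injective _ hc h⟩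
  · intro x
    unfold Anti
    rw [mul_smul_comm, smul_mul_assoc, ← smul_neg]
    exact ⟨fun h => by rw [h], fun h => smul_right_injective _ hc h⟩

/-- elements anticommuting with `w.im`: pure, product of two of them commutes with `w`; product with
a unit commuting with `w` again anticommutes. -/
theorem anti_re {x w : H} (hw : NC w) (h : Anti x w) : x.re = 0 := by
  have hN := geoComm_im_ne.1 hw
  have h1 := congrArg QuaternionAlgebra.imI h
  have h2 := congrArg QuaternionAlgebra.imJ h
  have h3 := congrArg QuaternionAlgebra.imK h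
  simp only [Quaternion.imI_mul, Quaternion.imJ_mul, Quaternion.imK_mul, Quaternion.imI_neg,
    Quaternion.imJ_neg, Quaternion.imK_neg, Quaternion.re_im, Quaternion.imI_im,
    Quaternion.imJ_im, Quaternion.imK_im] at h1 h2 h3
  have h4 : x.re * (w.imI ^ 2 + w.imJ ^ 2 + w.imK ^ 2) = 0 := by
    linear_combination (w.imI * h1 + w.imJ * h2 + w.imK * h3) / 2
  rcases mul_eq_zero.1 h4 with h5 | h5
  · exact h5
  · exact absurd h5 hN.ne'

theorem anti_mul_anti {x y w : H} (hw : NC w) (hx : Anti x w) (hy : Anti y w) :
    Commute (x * y) w := by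
  rw [geoComm_im]
  show x * y * w.im = w.im * (x * y)
  have hx' : x * w.im = -(w.im * x) := hx
  have hy' : y * w.im = -(w.im * y) := hy
  rw [mul_assoc, hy', mul_neg, ← mul_assoc, hx', neg_mul, neg_neg, mul_assoc]

theorem anti_mul_comm {x y w : H} (hw : NC w) (hx : Anti x w) (hy : Commute y w) :
    Anti (x * y) w := by
  show x * y * w.im = -(w.im * (x * y))
  have hx' : x * w.im = -(w.im * x) := hx
  have hy' : y * w.im = w.im * y := geoComm_im.1 hy
  rw [mul_assoc, hy', ← mul_assoc, hx', neg_mul, mul_assoc]

theorem comm_mul_anti {x y w : H} (hw : NC w) (hx : Commute x w) (hy : Anti y w) :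
    Anti (x * y) w := by
  show x * y * w.im = -(w.im * (x * y))
  have hx' : x * w.im = w.im * x := geoComm_im.1 hx
  have hy' : y * w.im = -(w.im * y) := hy
  rw [mul_assoc, hy', mul_neg, ← mul_assoc, hx', mul_assoc]

theorem anti_star {x w : H} (hx : Anti x w) : Anti (star x) w := by
  show star x * w.im = -(w.im * star x)
  have hx' : x * w.im = -(w.im * x) := hx
  have h := congrArg star hx'
  have hv : star w.im = -w.im := by
    ext <;> simp
  rw [star_mul, star_neg, star_mul, hv, neg_mul, mul_neg, neg_neg] at h
  exact h.symm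

/-- a nonzero element cannot both commute and anticommute -/
theorem not_anti_of_commute {x w : H} (hw : NC w) (hx : U x) (h : Commute x w) : ¬ Anti x w := by
  intro ha
  have h1 : x * w.im = w.im * x := geoComm_im.1 h
  have h2 : x * w.im = -(w.im * x) := ha
  have h3 : w.im * x = 0 := by
    have h4 : w.im * x = -(w.im * x) := h1.symm.trans h2
    have h5 : (2 : ℝ) • (w.im * x) = 0 := by
      rw [two_smul]
      nth_rw 1 [h4]
      exact neg_add_cancel _
    exact (smul_eq_zero.1 h5).resolve_left two_ne_zero
  have hx0 : x ≠ 0 := by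
    intro h0
    have hx' : ‖x‖ = 1 := hx
    rw [h0, norm_zero] at hx'
    exact zero_ne_one hx'
  rcases mul_eq_zero.1 h3 with h4 | h4
  · exact hw h4
  · exact hx0 h4

end Pool.Agent.W24dbe6
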