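import Pool.Agent.W_MP_24dbe6_h58.BasicL
import Pool.Agent.W_MP_24dbe6_h58.GeoComm

set_option autoImplicit false

/-!
Braid moves on labelled lists.
-/

namespace Pool.Agent.W24dbe6

open Quaternion

variable {ι : Type}

theorem Bv_trans {L L' L'' : LL ι} (h : Bv L L') (h' : Bv L' L'') : Bv L L'' := by
  induction h' with
  | refl => exact h
  | sw l r p q _ ih => exact Bv.sw _ l r p q ih
  | sw' l r p q _ ih => exact Bv.sw' _ l r p q ih

/-- general induction principle: a property of lists preserved by both moves -/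
theorem Bv_preserve {P : LL ι → Prop}
    (h1 : ∀ (l r : LL ι) (p q : ι × H), P (l ++ p :: q :: r) →
      P (l ++ q :: (p.1, star q.2 * p.2 * q.2) :: r))
    (h2 : ∀ (l r : LL ι) (p q : ι × H), P (l ++ p :: q :: r) →
      P (l ++ (q.1, p.2 * q.2 * star p.2) :: p :: r))
    {L L' : LL ι} (h : Bv L L') (hL : P L) : P L' := by
  induction h with
  | refl => exact hL
  | sw l r p q _ ih => exact h1 l r p q ih
  | sw' l r p q _ ih => exact h2 l r p q ih

theorem UL_mid {l r : LL ι} {p q : ι × H} :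
    UL (l ++ p :: q :: r) ↔ UL l ∧ U p.2 ∧ U q.2 ∧ UL r := by
  rw [UL_append, UL_cons, UL_cons]

theorem Bv_UL {L L' : LL ι} (h : Bv L L') (hL : UL L) : UL L' := by
  refine Bv_preserve (P := UL) ?_ ?_ h hL
  · intro l r p q hu
    obtain ⟨a, b, c, d⟩ := UL_mid.1 hu
    exact UL_mid.2 ⟨a, c, U_mul (U_mul (U_star c) b) c, d⟩
  · intro l r p q hu
    obtain ⟨a, b, c, d⟩ := UL_mid.1 hu
    exact UL_mid.2 ⟨a, U_mul (U_mul b c) (U_star b), b, d⟩

/-- `sw` and `sw'` are inverse to each other on unit entries -/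
theorem Bv_symm {L L' : LL ι} (hL : UL L) (h : Bv L L') : Bv L' L := by
  induction h with
  | refl => exact Bv.refl _
  | sw l r p q h1 ih =>
    obtain ⟨a, b, c, d⟩ := UL_mid.1 (Bv_UL h1 hL)
    refine Bv_trans ?_ ih
    have h2 := Bv.sw' _ l r q (p.1, star q.2 * p.2 * q.2)
      (Bv.refl (l ++ q :: (p.1, star q.2 * p.2 * q.2) :: r))
    have h3 : q.2 * (star q.2 * p.2 * q.2) * star q.2 = p.2 := by
      calc q.2 * (star q.2 * p.2 * q.2) * star q.2
          = (q.2 * star q.2) * p.2 * (q.2 * star q.2) := by simp only [mul_assoc]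
        _ = p.2 := by rw [U_mul_star c, one_mul, mul_one]
    simp only [h3] at h2
    exact h2
  | sw' l r p q h1 ih =>
    obtain ⟨a, b, c, d⟩ := UL_mid.1 (Bv_UL h1 hL)
    refine Bv_trans ?_ ih
    have h2 := Bv.sw _ l r (q.1, p.2 * q.2 * star p.2) p
      (Bv.refl (l ++ (q.1, p.2 * q.2 * star p.2) :: p :: r))
    have h3 : star p.2 * (p.2 * q.2 * star p.2) * p.2 = q.2 := by
      calc star p.2 * (p.2 * q.2 * star p.2) * p.2
          = (star p.2 * p.2) * q.2 * (star p.2 * p.2) := by simp only [mul_assoc]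
        _ = q.2 := by rw [U_star_mul b, one_mul, mul_one]
    simp only [h3] at h2
    exact h2

theorem Bv_perm {L L' : LL ι} (h : Bv L L') : (lab L').Perm (lab L) := by
  refine Bv_preserve (P := fun M => (lab M).Perm (lab L)) ?_ ?_ h (List.Perm.refl _)
  · intro l r p q hu
    refine List.Perm.trans ?_ hu
    rw [lab_append, lab_append]
    exact List.Perm.append_left _ (List.Perm.swap _ _ _)
  · intro l r p q hu
    refine List.Perm.trans ?_ hu
    rw [lab_append, lab_append]
    exact List.Perm.append_left _ (List.Perm.swap _ _ _)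

theorem Bv_length {L L' : LL ι} (h : Bv L L') : L'.length = L.length := by
  have := (Bv_perm h).length_eq
  simpa [lab] using this

theorem Bv_pr {L L' : LL ι} (h : Bv L L') (hL : UL L) : pr L' = pr L := by
  have key : UL L' ∧ pr L' = pr L := by
    refine Bv_preserve (P := fun M => UL M ∧ pr M = pr L) ?_ ?_ h ⟨hL, rfl⟩
    · intro l r p q hu
      obtain ⟨a, b, c, d⟩ := UL_mid.1 hu.1
      refine ⟨UL_mid.2 ⟨a, c, U_mul (U_mul (U_star c) b) c, d⟩, ?_⟩
      rw [← hu.2, pr_append, pr_append, pr_cons, pr_cons, pr_cons, pr_cons]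
      congr 1
      calc q.2 * (star q.2 * p.2 * q.2 * pr r) = (q.2 * star q.2) * (p.2 * (q.2 * pr r)) := by
            simp only [mul_assoc]
        _ = p.2 * (q.2 * pr r) := by rw [U_mul_star c, one_mul]
    · intro l r p q hu
      obtain ⟨a, b, c, d⟩ := UL_mid.1 hu.1
      refine ⟨UL_mid.2 ⟨a, U_mul (U_mul b c) (U_star b), b, d⟩, ?_⟩
      rw [← hu.2, pr_append, pr_append, pr_cons, pr_cons, pr_cons, pr_cons]
      congr 1
      calc p.2 * q.2 * star p.2 * (p.2 * pr r) = p.2 * (q.2 * ((star p.2 * p.2) * pr r)) := by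
            simp only [mul_assoc]
        _ = p.2 * (q.2 * pr r) := by rw [U_star_mul b, one_mul]
  exact key.2

theorem Bv_re {θ : ι → ℝ} {L L' : LL ι} (h : Bv L L')
    (hL : ∀ p ∈ L, U p.2 ∧ p.2.re = Real.cos (θ p.1)) :
    ∀ p ∈ L', U p.2 ∧ p.2.re = Real.cos (θ p.1) := by
  refine Bv_preserve (P := fun M : LL ι => ∀ p ∈ M, U p.2 ∧ p.2.re = Real.cos (θ p.1))
    ?_ ?_ h hL
  · intro l r p q hu x hx
    have hp := hu p (by simp)
    have hq := hu q (by simp)
    rw [List.mem_append, List.mem_cons, List.mem_cons] at hx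
    rcases hx with hx | hx | hx | hx
    · exact hu x (by simp [hx])
    · rw [hx]; exact hq
    · rw [hx]
      refine ⟨U_mul (U_mul (U_star hq.1) hp.1) hq.1, ?_⟩
      have h1 := cj_re (U_star hq.1) p.2
      have h2 : cj (star q.2) p.2 = star q.2 * p.2 * q.2 := by
        show star q.2 * p.2 * star (star q.2) = _
        rw [star_star]
      rw [h2] at h1
      show (star q.2 * p.2 * q.2).re = Real.cos (θ p.1)
      rw [h1]
      exact hp.2
    · exact hu x (by simp [hx])
  · intro l r p q hu x hx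
    have hp := hu p (by simp)
    have hq := hu q (by simp)
    rw [List.mem_append, List.mem_cons, List.mem_cons] at hx
    rcases hx with hx | hx | hx | hx
    · exact hu x (by simp [hx])
    · rw [hx]
      refine ⟨U_mul (U_mul hp.1 hq.1) (U_star hp.1), ?_⟩
      have h1 := cj_re hp.1 q.2
      show (cj p.2 q.2).re = Real.cos (θ q.1)
      rw [h1]
      exact hq.2
    · rw [hx]; exact hp
    · exact hu x (by simp [hx])

/-- signs: an element commuting or anticommuting with `u`, in the form `x u = s u x` -/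
theorem dihc_iff (x u : H) : (x * u = u * x ∨ x * u = -(u * x)) ↔
    ∃ s : ℝ, (s = 1 ∨ s = -1) ∧ x * u = s • (u * x) := by
  constructor
  · rintro (h | h)
    · exact ⟨1, Or.inl rfl, by rw [one_smul]; exact h⟩
    · exact ⟨-1, Or.inr rfl, by rw [neg_smul, one_smul]; exact h⟩
  · rintro ⟨s, rfl | rfl, h⟩
    · left; rw [one_smul] at h; exact h
    · right; rw [neg_smul, one_smul] at h; exact h

theorem dihc_mul {x y u : H} (hx : x * u = u * x ∨ x * u = -(u * x))
    (hy : y * u = u * y ∨ y * u = -(u * y)) :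
    x * y * u = u * (x * y) ∨ x * y * u = -(u * (x * y)) := by
  rw [dihc_iff] at hx hy ⊢
  obtain ⟨s, hs, hx⟩ := hx
  obtain ⟨t, ht, hy⟩ := hy
  refine ⟨s * t, ?_, ?_⟩
  · rcases hs with rfl | rfl <;> rcases ht with rfl | rfl <;> simp
  · rw [mul_assoc, hy, mul_smul_comm, ← mul_assoc, hx, smul_mul_assoc, smul_smul, mul_assoc,
      mul_comm s t]

theorem dihc_star {x u : H} (hx : U x) (h : x * u = u * x ∨ x * u = -(u * x)) :
    star x * u = u * star x ∨ star x * u = -(u * star x) := by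
  have h1 : star x * (x * u) * star x = u * star x := by
    rw [← mul_assoc, U_star_mul hx, one_mul]
  rcases h with h | h
  · left
    rw [h] at h1
    rw [← h1, ← mul_assoc, mul_assoc (star x * u), U_mul_star hx, mul_one]
  · right
    rw [h] at h1
    rw [← h1, mul_neg, neg_mul, neg_neg, ← mul_assoc, mul_assoc (star x * u), U_mul_star hx,
      mul_one]

theorem Bv_Dih_imp {L L' : LL ι} (h : Bv L L') (hL : UL L) (hd : Dih L) : Dih L' := by
  obtain ⟨u, hu, hu0, hd⟩ := hd
  have key : UL L' ∧ ∀ p ∈ L', p.2 * u = u * p.2 ∨ p.2 * u = -(u * p.2) := by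
    refine Bv_preserve
      (P := fun M : LL ι => UL M ∧ ∀ p ∈ M, p.2 * u = u * p.2 ∨ p.2 * u = -(u * p.2))
      ?_ ?_ h ⟨hL, hd⟩
    · intro l r p q hh
      obtain ⟨a, b, c, d⟩ := UL_mid.1 hh.1
      refine ⟨UL_mid.2 ⟨a, c, U_mul (U_mul (U_star c) b) c, d⟩, ?_⟩
      intro x hx
      have hp := hh.2 p (by simp)
      have hq := hh.2 q (by simp)
      rw [List.mem_append, List.mem_cons, List.mem_cons] at hx
      rcases hx with hx | hx | hx | hx
      · exact hh.2 x (by simp [hx])
      · rw [hx]; exact hq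
      · rw [hx]; exact dihc_mul (dihc_mul (dihc_star c hq) hp) hq
      · exact hh.2 x (by simp [hx])
    · intro l r p q hh
      obtain ⟨a, b, c, d⟩ := UL_mid.1 hh.1
      refine ⟨UL_mid.2 ⟨a, U_mul (U_mul b c) (U_star b), b, d⟩, ?_⟩
      intro x hx
      have hp := hh.2 p (by simp)
      have hq := hh.2 q (by simp)
      rw [List.mem_append, List.mem_cons, List.mem_cons] at hx
      rcases hx with hx | hx | hx | hx
      · exact hh.2 x (by simp [hx])
      · rw [hx]; exact dihc_mul (dihc_mul hp hq) (dihc_star b hp)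
      · rw [hx]; exact hp
      · exact hh.2 x (by simp [hx])
  exact ⟨u, hu, hu0, key.2⟩

theorem Bv_Dih {L L' : LL ι} (h : Bv L L') (hL : UL L) : Dih L' ↔ Dih L :=
  ⟨fun hd => Bv_Dih_imp (Bv_symm hL h) (Bv_UL h hL) hd, fun hd => Bv_Dih_imp h hL hd⟩

theorem not_NA_iff {L : LL ι} : ¬ NA L ↔ ∀ p ∈ L, ∀ q ∈ L, Commute p.2 q.2 := by
  unfold NA
  push Not
  rfl

theorem Bv_not_NA {L L' : LL ι} (h : Bv L L') (hL : UL L) (hn : ¬ NA L) : ¬ NA L' := by
  have key : UL L' ∧ ∀ p ∈ L', ∀ q ∈ L', Commute p.2 q.2 := by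
    refine Bv_preserve
      (P := fun M : LL ι => UL M ∧ ∀ p ∈ M, ∀ q ∈ M, Commute p.2 q.2)
      ?_ ?_ h ⟨hL, not_NA_iff.1 hn⟩
    · intro l r p q hh
      obtain ⟨a, b, c, d⟩ := UL_mid.1 hh.1
      have e : star q.2 * p.2 * q.2 = p.2 := by
        have h1 : p.2 * q.2 = q.2 * p.2 := hh.2 p (by simp) q (by simp)
        rw [mul_assoc, h1, ← mul_assoc, U_star_mul c, one_mul]
      rw [e]
      refine ⟨UL_mid.2 ⟨a, c, b, d⟩, ?_⟩
      intro x hx y hy
      refine hh.2 x ?_ y ?_
      · simp only [List.mem_append, List.mem_cons] at hx ⊢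
        tauto
      · simp only [List.mem_append, List.mem_cons] at hy ⊢
        tauto
    · intro l r p q hh
      obtain ⟨a, b, c, d⟩ := UL_mid.1 hh.1
      have e : p.2 * q.2 * star p.2 = q.2 := by
        have h1 : p.2 * q.2 = q.2 * p.2 := hh.2 p (by simp) q (by simp)
        rw [h1, mul_assoc, U_mul_star b, mul_one]
      rw [e]
      refine ⟨UL_mid.2 ⟨a, c, b, d⟩, ?_⟩
      intro x hx y hy
      refine hh.2 x ?_ y ?_
      · simp only [List.mem_append, List.mem_cons] at hx ⊢
        tauto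
      · simp only [List.mem_append, List.mem_cons] at hy ⊢
        tauto
  exact not_NA_iff.2 key.2

theorem Bv_NA {L L' : LL ι} (h : Bv L L') (hL : UL L) : NA L' ↔ NA L := by
  constructor
  · intro h1
    by_contra h2
    exact Bv_not_NA h hL h2 h1
  · intro h1
    by_contra h2
    exact Bv_not_NA (Bv_symm hL h) (Bv_UL h hL) h2 h1

theorem Bv_Z {Z : LL ι → Prop} (hZ : BClosed Z) {L L' : LL ι} (h : Bv L L') (hL : Z L) : Z L' :=
  Bv_preserve (P := Z) hZ.sw hZ.sw' h hL

/-- braid moves in a context -/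
theorem Bv_ctx {L L' : LL ι} (h : Bv L L') (l r : LL ι) : Bv (l ++ L ++ r) (l ++ L' ++ r) := by
  refine Bv_preserve (P := fun M => Bv (l ++ L ++ r) (l ++ M ++ r)) ?_ ?_ h (Bv.refl _)
  · intro l' r' p q hu
    have h1 : l ++ (l' ++ p :: q :: r') ++ r = (l ++ l') ++ p :: q :: (r' ++ r) := by simp
    rw [h1] at hu
    have h2 := Bv.sw _ _ _ _ _ hu
    have h3 : l ++ (l' ++ q :: (p.1, star q.2 * p.2 * q.2) :: r') ++ r
        = (l ++ l') ++ q :: (p.1, star q.2 * p.2 * q.2) :: (r' ++ r) := by simp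
    rw [h3]
    exact h2
  · intro l' r' p q hu
    have h1 : l ++ (l' ++ p :: q :: r') ++ r = (l ++ l') ++ p :: q :: (r' ++ r) := by simp
    rw [h1] at hu
    have h2 := Bv.sw' _ _ _ _ _ hu
    have h3 : l ++ (l' ++ (q.1, p.2 * q.2 * star p.2) :: p :: r') ++ r
        = (l ++ l') ++ (q.1, p.2 * q.2 * star p.2) :: p :: (r' ++ r) := by simp
    rw [h3]
    exact h2

/-- braid moves behind a first entry -/
theorem Bv_cons {L L' : LL ι} (h : Bv L L') (p : ι × H) : Bv (p :: L) (p :: L') := by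
  have := Bv_ctx h [p] []
  simpa using this

/-- conjugation commutes with braid moves -/
theorem Bv_cjL {L L' : LL ι} (h : Bv L L') (g : H) (hg : U g) : Bv (cjL g L) (cjL g L') := by
  refine Bv_preserve (P := fun M => Bv (cjL g L) (cjL g M)) ?_ ?_ h (Bv.refl _)
  · intro l r p q hu
    rw [cjL_append, cjL_cons, cjL_cons] at hu ⊢
    have h2 := Bv.sw _ _ _ _ _ hu
    have h3 : cj g (star q.2 * p.2 * q.2) = star (cj g q.2) * cj g p.2 * cj g q.2 := by
      rw [cj_mul hg, cj_mul hg, cj_star]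
    show Bv (cjL g L) (cjL g l ++ (q.1, cj g q.2) ::
      (p.1, cj g (star q.2 * p.2 * q.2)) :: cjL g r)
    rw [h3]
    exact h2
  · intro l r p q hu
    rw [cjL_append, cjL_cons, cjL_cons] at hu ⊢
    have h2 := Bv.sw' _ _ _ _ _ hu
    have h3 : cj g (p.2 * q.2 * star p.2) = cj g p.2 * cj g q.2 * star (cj g p.2) := by
      rw [cj_mul hg, cj_mul hg, cj_star]
    show Bv (cjL g L) (cjL g l ++ (q.1, cj g (p.2 * q.2 * star p.2)) ::
      (p.1, cj g p.2) :: cjL g r)
    rw [h3]
    exact h2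

theorem Bv_sw0 (p q : ι × H) (r : LL ι) :
    Bv (p :: q :: r) (q :: (p.1, star q.2 * p.2 * q.2) :: r) :=
  Bv.sw _ [] r p q (Bv.refl _)

theorem Bv_sw0' (p q : ι × H) (r : LL ι) :
    Bv (p :: q :: r) ((q.1, p.2 * q.2 * star p.2) :: p :: r) :=
  Bv.sw' _ [] r p q (Bv.refl _)

/-- move an entry to the left, unchanged -/
theorem bv_left (S : LL ι) (q : ι × H) : Bv (S ++ [q]) (q :: cjL (star q.2) S) := by
  induction S with
  | nil => exact Bv.refl _
  | cons p S ih =>
    have h1 : Bv (p :: S ++ [q]) (p :: q :: cjL (star q.2) S) := Bv_cons ih p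
    refine Bv_trans h1 ?_
    have h2 := Bv_sw0 p q (cjL (star q.2) S)
    rw [cjL_cons]
    have h3 : cj (star q.2) p.2 = star q.2 * p.2 * q.2 := by
      show star q.2 * p.2 * star (star q.2) = _
      rw [star_star]
    rw [h3]
    exact h2

/-- move an entry to the left past an unchanged block -/
theorem bv_left' (S : LL ι) (hS : UL S) (q : ι × H) :
    Bv (S ++ [q]) ((q.1, cj (pr S) q.2) :: S) := by
  induction S with
  | nil =>
    rw [pr_nil, cj_one_left]
    exact Bv.refl _
  | cons p S ih =>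
    have h1 : Bv (p :: S ++ [q]) (p :: (q.1, cj (pr S) q.2) :: S) :=
      Bv_cons (ih (UL_cons.1 hS).2) p
    refine Bv_trans h1 ?_
    have h2 := Bv_sw0' p (q.1, cj (pr S) q.2) S
    rw [pr_cons, ← cj_cj]
    exact h2

/-- move an entry to the right, unchanged -/
theorem bv_right (S : LL ι) (p : ι × H) : Bv (p :: S) (cjL p.2 S ++ [p]) := by
  induction S with
  | nil => exact Bv.refl _
  | cons q S ih =>
    refine Bv_trans (Bv_sw0' p q S) ?_
    rw [cjL_cons]
    exact Bv_cons ih _

/-- move an entry to the right past an unchanged block -/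
theorem bv_right' (S : LL ι) (hS : UL S) (p : ι × H) :
    Bv (p :: S) (S ++ [(p.1, cj (star (pr S)) p.2)]) := by
  induction S generalizing p with
  | nil =>
    rw [pr_nil, star_one, cj_one_left]
    exact Bv.refl _
  | cons q S ih =>
    refine Bv_trans (Bv_sw0 p q S) ?_
    have h1 := ih (UL_cons.1 hS).2 (p.1, star q.2 * p.2 * q.2)
    have h2 := Bv_cons h1 q
    have h3 : cj (star (pr (q :: S))) p.2 = cj (star (pr S)) (star q.2 * p.2 * q.2) := by
      have h4 : star q.2 * p.2 * q.2 = cj (star q.2) p.2 := by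
        show _ = star q.2 * p.2 * star (star q.2)
        rw [star_star]
      rw [pr_cons, h4, cj_cj, star_mul]
    rw [h3]
    exact h2

/-- rotation of a list by a block -/
theorem bv_rot (A B : LL ι) (hA : UL A) : Bv (A ++ B) (cjL (pr A) (B ++ A)) := by
  induction A generalizing B with
  | nil =>
    rw [pr_nil, cjL_one, List.append_nil, List.nil_append]
    exact Bv.refl _
  | cons p A ih =>
    obtain ⟨hp, hA'⟩ := UL_cons.1 hA
    have h1 : Bv (p :: A ++ B) (cjL p.2 (A ++ B) ++ [p]) := bv_right (A ++ B) p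
    have h2 : cjL p.2 (A ++ B) ++ [p] = cjL p.2 (A ++ (B ++ [p])) := by
      have h3 : cj p.2 p.2 = p.2 := cj_of_commute hp (Commute.refl _)
      have h4 : cjL p.2 [p] = [p] := by
        show [(p.1, cj p.2 p.2)] = [p]
        rw [h3]
      rw [← List.append_assoc, cjL_append p.2 (A ++ B) [p], h4]
    rw [h2] at h1
    have h5 := Bv_cjL (ih (B ++ [p]) hA') p.2 hp
    rw [cjL_cjL, ← pr_cons] at h5
    refine Bv_trans h1 ?_
    have h6 : B ++ [p] ++ A = B ++ p :: A := by simp
    rw [h6] at h5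
    exact h5

/-- full twist: `bv_right` applied `S.length` times conjugates the block by its product
(`R (x₁, …, x_k) = x₁ (x₂, …, x_k, x₁) x₁⁻¹`, after `j` steps one has the conjugate by `x₁ ⋯ x_j` of
`(x_{j+1}, …, x_k, x₁, …, x_j)`) -/
theorem bv_twist (S : LL ι) (hS : UL S) : Bv S (cjL (pr S) S) := by
  have h := bv_rot S [] hS
  rw [List.append_nil, List.nil_append] at h
  exact h

theorem bv_twist_pow (S : LL ι) (hS : UL S) (m : ℕ) : Bv S (cjL (pr S ^ m) S) := by
  induction m with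
  | zero =>
    rw [pow_zero, cjL_one]
    exact Bv.refl _
  | succ m ih =>
    have h1 := Bv_cjL (bv_twist S hS) (pr S ^ m) (U_pow (U_pr hS) m)
    rw [cjL_cjL, ← pow_succ] at h1
    exact Bv_trans ih h1

end Pool.Agent.W24dbe6
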