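import Pool.Agent.W_MP_24dbe6_h58.Reps
import Pool.Agent.W_MP_24dbe6_h58.Braid
import Pool.Agent.W_MP_24dbe6_h58.Moves

set_option autoImplicit false

/-!
Geometric generating tuples of the fundamental group and the closed invariant set of a representation.
-/

namespace Pool.Agent.W24dbe6

open Quaternion

/-- labelled tuples `y` in `π` which are images of `(c_0, …, c_{n-1})` under an automorphism and such that
the entry with label `i` is conjugate to `c_i`, every label occurring once -/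
def GeoT (n : ℕ) (y : List (Fin n × Pi1 n)) : Prop :=
  (∃ φ : MulAut (Pi1 n), y.map Prod.snd = List.ofFn fun k : Fin n => φ (c k)) ∧
    (∀ p ∈ y, IsConj p.2 (c p.1)) ∧ (y.map Prod.fst).Perm (List.finRange n)

/-- the list of quaternions of a labelled tuple -/
noncomputable def mapL {n : ℕ} (ρ : Pi1 n →* SU2) (y : List (Fin n × Pi1 n)) : LL (Fin n) :=
  y.map fun p => (p.1, toH (ρ p.2))

/-- two neighbouring entries of a list of the form `List.ofFn` -/
theorem Geo_split {α : Type} {n : ℕ} {l r : List α} {p q : α} {f : Fin n → α}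
    (h : l ++ p :: q :: r = List.ofFn f) : ∃ hk : l.length + 1 < n,
      p = f ⟨l.length, by omega⟩ ∧ q = f ⟨l.length + 1, hk⟩ ∧
      ∀ f' : Fin n → α, (∀ j : Fin n, j.1 ≠ l.length → j.1 ≠ l.length + 1 → f' j = f j) →
        l ++ f' ⟨l.length, by omega⟩ :: f' ⟨l.length + 1, hk⟩ :: r = List.ofFn f' := by
  have hlen := congrArg List.length h
  simp only [List.length_append, List.length_cons, List.length_ofFn] at hlen
  have hk : l.length + 1 < n := by omega
  have hget : ∀ (j : ℕ) (h1 : j < (l ++ p :: q :: r).length) (h2 : j < n),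
      (l ++ p :: q :: r)[j] = f ⟨j, h2⟩ := by
    intro j h1 h2
    simp only [h, List.getElem_ofFn]
  refine ⟨hk, ?_, ?_, ?_⟩
  · have := hget l.length (by simp) (by omega)
    rw [← this]
    simp
  · have := hget (l.length + 1) (by simp) (by omega)
    rw [← this]
    simp
  · intro f' hf'
    apply List.ext_getElem
    · simp only [List.length_append, List.length_cons, List.length_ofFn]
      omega
    · intro j h1 h2
      have hjn : j < n := by simpa using h2
      rw [List.getElem_ofFn]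
      by_cases e1 : j = l.length
      · subst e1
        simp
      · by_cases e2 : j = l.length + 1
        · subst e2
          simp
        · rw [hf' ⟨j, hjn⟩ e1 e2, ← hget j (by simp at h1 ⊢; omega) hjn]
          rcases Nat.lt_or_ge j l.length with e3 | e3
          · rw [List.getElem_append_left e3, List.getElem_append_left e3]
          · obtain ⟨m, rfl⟩ : ∃ m, j = l.length + (m + 2) := ⟨j - l.length - 2, by omega⟩
            rw [List.getElem_append_right (by omega), List.getElem_append_right (by omega)]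
            simp

theorem GeoT_id (n : ℕ) : GeoT n (List.ofFn fun i : Fin n => (i, c i)) := by
  refine ⟨⟨1, ?_⟩, ?_, ?_⟩
  · rw [List.map_ofFn]
    rfl
  · intro p hp
    obtain ⟨i, rfl⟩ := (List.mem_ofFn' _ _).mp hp
    exact IsConj.refl _
  · rw [List.map_ofFn]
    have : List.ofFn (Prod.fst ∘ fun i : Fin n => (i, (c i : Pi1 n))) = List.finRange n := by
      rw [← List.ofFn_id]
      rfl
    rw [this]

theorem GeoT_sw {n : ℕ} {l r : List (Fin n × Pi1 n)} {p q : Fin n × Pi1 n}
    (h : GeoT n (l ++ p :: q :: r)) : GeoT n (l ++ q :: (p.1, q.2⁻¹ * p.2 * q.2) :: r) := by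
  obtain ⟨⟨φ, hφ⟩, h2, h3⟩ := h
  rw [List.map_append, List.map_cons, List.map_cons] at hφ h3
  obtain ⟨hk, e1, e2, e3⟩ := Geo_split hφ
  rw [List.length_map] at hk
  simp only [List.length_map] at e1 e2 e3
  obtain ⟨β, b1, b2, b3⟩ := exists_braid l.length hk
  refine ⟨⟨φ * β, ?_⟩, ?_, ?_⟩
  · rw [List.map_append, List.map_cons, List.map_cons]
    have := e3 (fun j => (φ * β) (c j)) (by
      intro j j1 j2
      change φ (β (c j)) = _
      rw [b3 j j1 j2])
    rw [← this]
    congr 1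
    change q.2 :: (q.2⁻¹ * p.2 * q.2) :: _ = φ (β _) :: φ (β _) :: _
    rw [b1, b2, map_mul, map_mul, map_inv, ← e1, ← e2]
  · intro x hx
    simp only [List.mem_append, List.mem_cons] at hx
    rcases hx with hx | rfl | rfl | hx
    · exact h2 x (by simp [hx])
    · exact h2 x (by simp)
    · refine IsConj.trans ?_ (h2 p (by simp))
      rw [isConj_iff]
      exact ⟨q.2, by group⟩
    · exact h2 x (by simp [hx])
  · rw [List.map_append, List.map_cons, List.map_cons]
    refine List.Perm.trans ?_ h3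
    exact List.Perm.append_left _ (List.Perm.swap _ _ _)

theorem GeoT_sw' {n : ℕ} {l r : List (Fin n × Pi1 n)} {p q : Fin n × Pi1 n}
    (h : GeoT n (l ++ p :: q :: r)) : GeoT n (l ++ (q.1, p.2 * q.2 * p.2⁻¹) :: p :: r) := by
  obtain ⟨⟨φ, hφ⟩, h2, h3⟩ := h
  rw [List.map_append, List.map_cons, List.map_cons] at hφ h3
  obtain ⟨hk, e1, e2, e3⟩ := Geo_split hφ
  rw [List.length_map] at hk
  simp only [List.length_map] at e1 e2 e3
  obtain ⟨β, b1, b2, b3⟩ := exists_braid l.length hk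
  have c1 : β⁻¹ (c ⟨l.length + 1, hk⟩) = c ⟨l.length, by omega⟩ := by
    rw [← b1]
    exact β.symm_apply_apply _
  have c2 : β⁻¹ (c ⟨l.length, by omega⟩) =
      c ⟨l.length, by omega⟩ * c ⟨l.length + 1, hk⟩ * (c ⟨l.length, by omega⟩)⁻¹ := by
    have : β (c ⟨l.length, by omega⟩ * c ⟨l.length + 1, hk⟩ * (c ⟨l.length, by omega⟩)⁻¹) =
        c ⟨l.length, by omega⟩ := by
      rw [map_mul, map_mul, map_inv, b1, b2]
      group
    nth_rewrite 1 [← this]
    exact β.symm_apply_apply _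
  have c3 : ∀ j : Fin n, j.1 ≠ l.length → j.1 ≠ l.length + 1 → β⁻¹ (c j) = c j := by
    intro j j1 j2
    nth_rewrite 1 [← b3 j j1 j2]
    exact β.symm_apply_apply _
  refine ⟨⟨φ * β⁻¹, ?_⟩, ?_, ?_⟩
  · rw [List.map_append, List.map_cons, List.map_cons]
    have := e3 (fun j => (φ * β⁻¹) (c j)) (by
      intro j j1 j2
      change φ (β⁻¹ (c j)) = _
      rw [c3 j j1 j2])
    rw [← this]
    congr 1
    change (p.2 * q.2 * p.2⁻¹) :: p.2 :: _ = φ (β⁻¹ _) :: φ (β⁻¹ _) :: _
    rw [c1, c2, map_mul, map_mul, map_inv, ← e1, ← e2]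
  · intro x hx
    simp only [List.mem_append, List.mem_cons] at hx
    rcases hx with hx | rfl | rfl | hx
    · exact h2 x (by simp [hx])
    · refine IsConj.trans ?_ (h2 q (by simp))
      rw [isConj_iff]
      exact ⟨p.2⁻¹, by group⟩
    · exact h2 x (by simp)
    · exact h2 x (by simp [hx])
  · rw [List.map_append, List.map_cons, List.map_cons]
    refine List.Perm.trans ?_ h3
    exact List.Perm.append_left _ (List.Perm.swap _ _ _)

/-- a geometric tuple with labels in the order `0, 1, …` comes from a mapping class -/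
theorem GeoT_MCG {n : ℕ} {y : List (Fin n × Pi1 n)} (h : GeoT n y)
    (hl : y.map Prod.fst = List.finRange n) : ∃ φ ∈ MCG n,
      y = List.ofFn fun i : Fin n => (i, φ (c i)) := by
  obtain ⟨⟨φ, hφ⟩, h2, -⟩ := h
  have hlen : y.length = n := by
    have := congrArg List.length hφ
    simpa using this
  have hy : y = List.ofFn fun i : Fin n => (i, φ (c i)) := by
    apply List.ext_getElem
    · simp [hlen]
    · intro j h1 h3
      have hjn : j < n := by rwa [hlen] at h1
      rw [List.getElem_ofFn]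
      have g1 : (y.map Prod.fst)[j]'(by simpa using h1) = (⟨j, hjn⟩ : Fin n) := by
        simp only [hl, List.getElem_finRange]
        rfl
      have g2 : (y.map Prod.snd)[j]'(by simpa using h1) = φ (c ⟨j, hjn⟩) := by
        simp only [hφ, List.getElem_ofFn]
      rw [List.getElem_map] at g1 g2
      exact Prod.ext g1 g2
  refine ⟨φ, ?_, hy⟩
  intro i
  have : (i, φ (c i)) ∈ y := by
    rw [hy]
    exact (List.mem_ofFn' _ _).mpr ⟨i, rfl⟩
  exact h2 _ this

/-- geometric tuples from mapping classes -/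
theorem GeoT_of_MCG {n : ℕ} {φ : MulAut (Pi1 n)} (h : φ ∈ MCG n) :
    GeoT n (List.ofFn fun i : Fin n => (i, φ (c i))) := by
  refine ⟨⟨φ, ?_⟩, ?_, ?_⟩
  · rw [List.map_ofFn]
    rfl
  · intro p hp
    obtain ⟨i, rfl⟩ := (List.mem_ofFn' _ _).mp hp
    exact h i
  · rw [List.map_ofFn]
    have : List.ofFn (Prod.fst ∘ fun i : Fin n => (i, φ (c i : Pi1 n))) = List.finRange n := by
      rw [← List.ofFn_id]
      rfl
    rw [this]

/-- the closed invariant set generated by `ρ` -/
def Zr {n : ℕ} (ρ : Pi1 n →* SU2) : LL (Fin n) → Prop := fun L =>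
  ∀ ε : ℝ, 0 < ε → ∃ y, GeoT n y ∧ ∃ g, U g ∧ Near ε L (cjL g (mapL ρ y))

/-- triple products of units depend continuously on the factors -/
theorem Geo_dist3 {x y z x' y' z' : H} (hx' : U x') (hy : U y) (hy' : U y')
    (hz : U z) : dist (x * y * z) (x' * y' * z') ≤ dist x x' + dist y y' + dist z z' := by
  have e : x * y * z - x' * y' * z' =
      (x - x') * y * z + x' * (y - y') * z + x' * y' * (z - z') := by
    noncomm_ring
  have n1 : ‖x'‖ = 1 := hx'
  have n2 : ‖y‖ = 1 := hy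
  have n3 : ‖y'‖ = 1 := hy'
  have n4 : ‖z‖ = 1 := hz
  rw [dist_eq_norm, dist_eq_norm, dist_eq_norm, dist_eq_norm, e]
  refine (norm_add₃_le).trans ?_
  rw [norm_mul, norm_mul, norm_mul, norm_mul, norm_mul, norm_mul, n1, n2, n3, n4]
  simp

/-- splitting nearby lists at two neighbouring entries -/
theorem Geo_near_split {ι : Type} {ε : ℝ} {p q : ι × H} {r : LL ι} : ∀ (l M : LL ι),
    Near ε (l ++ p :: q :: r) M → ∃ (l' : LL ι) (p' q' : ι × H) (r' : LL ι),
      M = l' ++ p' :: q' :: r' ∧ Near ε l l' ∧ (p.1 = p'.1 ∧ dist p.2 p'.2 < ε) ∧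
        (q.1 = q'.1 ∧ dist q.2 q'.2 < ε) ∧ Near ε r r' := by
  intro l
  induction l with
  | nil =>
    intro M h
    unfold Near at h
    rw [List.nil_append, List.forall₂_cons_left_iff] at h
    obtain ⟨p', M', hp', hM', rfl⟩ := h
    rw [List.forall₂_cons_left_iff] at hM'
    obtain ⟨q', r', hq', hr', rfl⟩ := hM'
    exact ⟨[], p', q', r', rfl, List.Forall₂.nil, hp', hq', hr'⟩
  | cons x l ih =>
    intro M h
    unfold Near at h
    rw [List.cons_append, List.forall₂_cons_left_iff] at h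
    obtain ⟨x', M', hx', hM', rfl⟩ := h
    obtain ⟨l', p', q', r', rfl, h1, h2, h3, h4⟩ := ih M' hM'
    exact ⟨x' :: l', p', q', r', rfl, List.Forall₂.cons hx' h1, h2, h3, h4⟩

theorem Geo_cjL_mapL {n : ℕ} (ρ : Pi1 n →* SU2) (g : H) (y : List (Fin n × Pi1 n)) :
    cjL g (mapL ρ y) = y.map (fun p => (p.1, cj g (toH (ρ p.2)))) := by
  unfold cjL mapL
  rw [List.map_map]
  rfl

theorem Geo_UL {n : ℕ} (ρ : Pi1 n →* SU2) {g : H} (hg : U g) (y : List (Fin n × Pi1 n)) :
    UL (cjL g (mapL ρ y)) := by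
  rw [Geo_cjL_mapL]
  intro p hp
  obtain ⟨x, -, rfl⟩ := List.mem_map.mp hp
  exact U_cj hg (U_toH _)

theorem Geo_near_mem {ι : Type} {ε : ℝ} : ∀ (L L' : LL ι), Near ε L L' → ∀ p ∈ L,
    ∃ q ∈ L', dist p.2 q.2 < ε := by
  intro L
  induction L with
  | nil => intro L' _ p hp; simp at hp
  | cons x L ih =>
    intro L' h p hp
    unfold Near at h
    rw [List.forall₂_cons_left_iff] at h
    obtain ⟨x', M', hx', hM', rfl⟩ := h
    rcases List.mem_cons.mp hp with rfl | hp
    · exact ⟨x', List.mem_cons_self .., hx'.2⟩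
    · obtain ⟨q, hq, h1⟩ := ih M' hM' p hp
      exact ⟨q, List.mem_cons_of_mem _ hq, h1⟩

theorem Zr_unit {n : ℕ} (ρ : Pi1 n →* SU2) {L : LL (Fin n)} (hL : Zr ρ L) : UL L := by
  intro p hp
  have key : ∀ ε : ℝ, 0 < ε → |‖p.2‖ - 1| ≤ ε := by
    intro ε hε
    obtain ⟨y, -, g, hg, h⟩ := hL ε hε
    obtain ⟨q, hq, h1⟩ := Geo_near_mem _ _ h p hp
    have h2 : ‖q.2‖ = 1 := Geo_UL ρ hg y q hq
    rw [← h2]
    exact (abs_norm_sub_norm_le _ _).trans (by rw [← dist_eq_norm]; exact h1.le)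
  have h0 : |‖p.2‖ - 1| ≤ 0 := le_of_forall_pos_le_add (by
    intro ε hε
    rw [zero_add]
    exact key ε hε)
  have h1 : ‖p.2‖ - 1 = 0 := abs_eq_zero.mp (le_antisymm h0 (abs_nonneg _))
  change ‖p.2‖ = 1
  linarith

/-- splitting the source of a map at two neighbouring entries -/
theorem Geo_map_split {α β : Type} {f : α → β} {y : List α} {l r : List β} {p q : β}
    (h : y.map f = l ++ p :: q :: r) : ∃ (l' : List α) (p' q' : α) (r' : List α),
      y = l' ++ p' :: q' :: r' ∧ l'.map f = l ∧ f p' = p ∧ f q' = q ∧ r'.map f = r := by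
  rw [List.map_eq_append_iff] at h
  obtain ⟨l', s, rfl, h1, h2⟩ := h
  rw [List.map_eq_cons_iff] at h2
  obtain ⟨p', s', rfl, h3, h4⟩ := h2
  rw [List.map_eq_cons_iff] at h4
  obtain ⟨q', r', rfl, h5, h6⟩ := h4
  exact ⟨l', p', q', r', rfl, h1, h3, h5, h6⟩

theorem Zr_closed {n : ℕ} (ρ : Pi1 n →* SU2) : BClosed (Zr ρ) := by
  refine ⟨fun L hL => Zr_unit ρ hL, ?_, ?_, ?_, ?_⟩
  · intro L g hg hL ε hε
    obtain ⟨y, hy, g', hg', h⟩ := hL ε hε
    refine ⟨y, hy, g * g', U_mul hg hg', ?_⟩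
    rw [← cjL_cjL]
    exact near_cjL_same hg h
  · intro l r p q hL ε hε
    have hUL := Zr_unit ρ hL
    have hUp : U p.2 := hUL p (by simp)
    have hUq : U q.2 := hUL q (by simp)
    obtain ⟨y, hy, g, hg, h⟩ := hL (ε / 3) (by linarith)
    have hUy := Geo_UL ρ hg y
    obtain ⟨l', p', q', r', hM, h1, h2, h3, h4⟩ := Geo_near_split l _ h
    rw [hM] at hUy
    have hUp' : U p'.2 := hUy p' (by simp)
    have hUq' : U q'.2 := hUy q' (by simp)
    rw [Geo_cjL_mapL] at hM
    obtain ⟨yl, yp, yq, yr, rfl, m1, m2, m3, m4⟩ := Geo_map_split hM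
    refine ⟨_, GeoT_sw hy, g, hg, ?_⟩
    rw [Geo_cjL_mapL, List.map_append, List.map_cons, List.map_cons, m1, m3, m4]
    have hlt : ε / 3 ≤ ε := by linarith
    refine near_append (near_mono h1 hlt) (near_cons h3.1 (lt_of_lt_of_le h3.2 hlt)
      (near_cons ?_ ?_ (near_mono h4 hlt)))
    · rw [← m2] at h2
      exact h2.1
    · have e2 : cj g (toH (ρ yp.2)) = p'.2 := by rw [← m2]
      have e3 : cj g (toH (ρ yq.2)) = q'.2 := by rw [← m3]
      have e4 : cj g (toH (ρ (yq.2⁻¹ * yp.2 * yq.2))) = star q'.2 * p'.2 * q'.2 := by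
        rw [map_mul, map_mul, map_inv, toH_mul, toH_mul, toH_inv, cj_mul hg, cj_mul hg, cj_star,
          e2, e3]
      change dist (star q.2 * p.2 * q.2) (cj g (toH (ρ (yq.2⁻¹ * yp.2 * yq.2)))) < ε
      rw [e4]
      refine lt_of_le_of_lt (Geo_dist3 (U_star hUq') hUp hUp' hUq) ?_
      have hs : dist (star q.2) (star q'.2) = dist q.2 q'.2 := by
        rw [dist_eq_norm, dist_eq_norm, ← star_sub, Quaternion.norm_star]
      rw [hs]
      linarith [h2.2, h3.2]
  · intro l r p q hL ε hε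
    have hUL := Zr_unit ρ hL
    have hUp : U p.2 := hUL p (by simp)
    have hUq : U q.2 := hUL q (by simp)
    obtain ⟨y, hy, g, hg, h⟩ := hL (ε / 3) (by linarith)
    have hUy := Geo_UL ρ hg y
    obtain ⟨l', p', q', r', hM, h1, h2, h3, h4⟩ := Geo_near_split l _ h
    rw [hM] at hUy
    have hUp' : U p'.2 := hUy p' (by simp)
    have hUq' : U q'.2 := hUy q' (by simp)
    rw [Geo_cjL_mapL] at hM
    obtain ⟨yl, yp, yq, yr, rfl, m1, m2, m3, m4⟩ := Geo_map_split hM
    refine ⟨_, GeoT_sw' hy, g, hg, ?_⟩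
    rw [Geo_cjL_mapL, List.map_append, List.map_cons, List.map_cons, m1, m2, m4]
    have hlt : ε / 3 ≤ ε := by linarith
    refine near_append (near_mono h1 hlt) (near_cons ?_ ?_
      (near_cons h2.1 (lt_of_lt_of_le h2.2 hlt) (near_mono h4 hlt)))
    · rw [← m3] at h3
      exact h3.1
    · have e2 : cj g (toH (ρ yp.2)) = p'.2 := by rw [← m2]
      have e3 : cj g (toH (ρ yq.2)) = q'.2 := by rw [← m3]
      have e4 : cj g (toH (ρ (yp.2 * yq.2 * yp.2⁻¹))) = p'.2 * q'.2 * star p'.2 := by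
        rw [map_mul, map_mul, map_inv, toH_mul, toH_mul, toH_inv, cj_mul hg, cj_mul hg, cj_star,
          e2, e3]
      change dist (p.2 * q.2 * star p.2) (cj g (toH (ρ (yp.2 * yq.2 * yp.2⁻¹)))) < ε
      rw [e4]
      refine lt_of_le_of_lt (Geo_dist3 hUp' hUq hUq' (U_star hUp)) ?_
      have hs : dist (star p.2) (star p'.2) = dist p.2 p'.2 := by
        rw [dist_eq_norm, dist_eq_norm, ← star_sub, Quaternion.norm_star]
      rw [hs]
      linarith [h2.2, h3.2]
  · intro L hL ε hε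
    obtain ⟨L', hL', h1⟩ := hL (ε / 2) (by linarith)
    obtain ⟨y, hy, g, hg, h2⟩ := hL' (ε / 2) (by linarith)
    refine ⟨y, hy, g, hg, ?_⟩
    have := near_trans h1 h2
    rwa [add_halves] at this

theorem Zr_Lst {n : ℕ} (ρ : Pi1 n →* SU2) {φ : MulAut (Pi1 n)} (h : φ ∈ MCG n) :
    Zr ρ (Lst (ρ.comp (φ : Pi1 n →* Pi1 n))) := by
  intro ε hε
  refine ⟨_, GeoT_of_MCG h, 1, U_one, ?_⟩
  rw [cjL_one]
  have : mapL ρ (List.ofFn fun i : Fin n => (i, φ (c i))) =
      Lst (ρ.comp (φ : Pi1 n →* Pi1 n)) := by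
    unfold mapL Lst
    rw [List.map_ofFn]
    rfl
  rw [this]
  exact near_refl _ hε

end Pool.Agent.W24dbe6
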