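import Pool.Agent.W_MP_24dbe6_h58.MovesM

set_option autoImplicit false

/-!
Hiding a block gives again a closed set which is invariant under the braid moves.
-/

namespace Pool.Agent.W24dbe6

open Quaternion

variable {ι : Type}

private abbrev lf (L : LL ι) : LL (Option ι) := L.map (fun p => (some p.1, p.2))

/-- position of the hidden entry relative to two neighbours -/
private theorem hd_cases {A B : LL ι} {c : H} {l r : LL (Option ι)} {p q : Option ι × H}
    (h : l ++ p :: q :: r = lf A ++ (none, c) :: lf B) :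
    (∃ (b₀ : LL ι) (p₀ q₀ : ι × H) (r₀ : LL ι), l = lf A ++ (none, c) :: lf b₀ ∧
      p = (some p₀.1, p₀.2) ∧ q = (some q₀.1, q₀.2) ∧ r = lf r₀ ∧ B = b₀ ++ p₀ :: q₀ :: r₀) ∨
    (∃ (l₀ : LL ι) (p₀ q₀ : ι × H) (a₀ : LL ι), l = lf l₀ ∧ r = lf a₀ ++ (none, c) :: lf B ∧
      p = (some p₀.1, p₀.2) ∧ q = (some q₀.1, q₀.2) ∧ A = l₀ ++ p₀ :: q₀ :: a₀) ∨
    (∃ (q₀ : ι × H) (r₀ : LL ι), l = lf A ∧ p = (none, c) ∧ q = (some q₀.1, q₀.2) ∧ r = lf r₀ ∧
      B = q₀ :: r₀) ∨
    (∃ (p₀ : ι × H) (l₀ : LL ι), l = lf l₀ ∧ q = (none, c) ∧ p = (some p₀.1, p₀.2) ∧ r = lf B ∧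
      A = l₀ ++ [p₀]) := by
  rw [List.append_eq_append_iff] at h
  rcases h with ⟨as, h1, h2⟩ | ⟨bs, h1, h2⟩
  · -- lf A = l ++ as
    rw [List.map_eq_append_iff] at h1
    obtain ⟨l₀, a₀, hA, hl, ha⟩ := h1
    rcases as with _ | ⟨x, as⟩
    · simp only [List.nil_append, List.cons.injEq] at h2
      have ha0 : a₀ = [] := by simpa using ha
      subst ha0
      obtain ⟨q₀, r₀, hB, hq, hr⟩ := List.map_eq_cons_iff.1 h2.2.symm
      right; right; left
      refine ⟨q₀, r₀, ?_, h2.1, hq.symm, hr.symm, hB⟩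
      rw [hA, List.append_nil]; exact hl.symm
    · rcases as with _ | ⟨y, as⟩
      · simp only [List.cons_append, List.nil_append, List.cons.injEq] at h2
        obtain ⟨p₀, r₀, hB, hq, hr⟩ := List.map_eq_cons_iff.1 ha
        have hr0 : r₀ = [] := by simpa using hr
        subst hr0
        right; right; right
        refine ⟨p₀, l₀, hl.symm, h2.2.1, ?_, h2.2.2, ?_⟩
        · rw [h2.1]; exact hq.symm
        · rw [hA, hB]
      · simp only [List.cons_append, List.cons.injEq] at h2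
        obtain ⟨p₀, r₀, hB, hq, hr⟩ := List.map_eq_cons_iff.1 ha
        obtain ⟨q₀, r₁, hB1, hq1, hr1⟩ := List.map_eq_cons_iff.1 hr
        right; left
        refine ⟨l₀, p₀, q₀, r₁, hl.symm, ?_, ?_, ?_, ?_⟩
        · rw [h2.2.2]
          show _ = lf r₁ ++ _
          rw [show lf r₁ = as from hr1]
        · rw [h2.1]; exact hq.symm
        · rw [h2.2.1]; exact hq1.symm
        · rw [hA, hB, hB1]
  · rcases bs with _ | ⟨x, bs⟩
    · simp only [List.nil_append, List.cons.injEq] at h2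
      obtain ⟨q₀, r₀, hB, hq, hr⟩ := List.map_eq_cons_iff.1 h2.2
      right; right; left
      refine ⟨q₀, r₀, ?_, h2.1.symm, hq.symm, hr.symm, hB⟩
      rw [h1, List.append_nil]
    · simp only [List.cons_append, List.cons.injEq] at h2
      obtain ⟨b₀, rest, hB, hb, hrest⟩ := List.map_eq_append_iff.1 h2.2
      obtain ⟨p₀, r₀, hB1, hq, hr⟩ := List.map_eq_cons_iff.1 hrest
      obtain ⟨q₀, r₁, hB2, hq1, hr1⟩ := List.map_eq_cons_iff.1 hr
      left
      refine ⟨b₀, p₀, q₀, r₁, ?_, hq.symm, hq1.symm, hr1.symm, ?_⟩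
      · rw [h1, ← h2.1, ← hb]
      · rw [hB, hB1, hB2]

private theorem hd_lf_append (A B : LL ι) : lf (A ++ B) = lf A ++ lf B := List.map_append

private theorem hd_lf_cons (p : ι × H) (B : LL ι) : lf (p :: B) = (some p.1, p.2) :: lf B := rfl

private theorem hd_near_lf {ε : ℝ} : ∀ (B : LL ι) (L : LL (Option ι)), Near ε L (lf B) →
    ∃ A : LL ι, L = lf A ∧ Near ε A B
  | [], L, h => by
    have : L = [] := List.forall₂_nil_right_iff.1 h
    exact ⟨[], by rw [this]; rfl, List.Forall₂.nil⟩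
  | b :: B, L, h => by
    obtain ⟨x, L₁, hx, hL₁, rfl⟩ := List.forall₂_cons_right_iff.1 h
    obtain ⟨A, rfl, hA⟩ := hd_near_lf B L₁ hL₁
    refine ⟨(b.1, x.2) :: A, ?_, List.Forall₂.cons ⟨rfl, hx.2⟩ hA⟩
    rw [hd_lf_cons]
    congr 1
    exact Prod.ext hx.1 rfl

private theorem hd_near {ε : ℝ} {A B : LL ι} {c : H} {L : LL (Option ι)}
    (h : Near ε L (lf A ++ (none, c) :: lf B)) :
    ∃ (A' B' : LL ι) (c' : H), L = lf A' ++ (none, c') :: lf B' ∧ Near ε A' A ∧ dist c' c < ε ∧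
      Near ε B' B := by
  have h1 := List.forall₂_take_append _ _ _ h
  have h2 := List.forall₂_drop_append _ _ _ h
  obtain ⟨A', hA, hA'⟩ := hd_near_lf A _ h1
  obtain ⟨x, L₁, hx, hL₁, he⟩ := List.forall₂_cons_right_iff.1 h2
  obtain ⟨B', rfl, hB'⟩ := hd_near_lf B L₁ hL₁
  refine ⟨A', B', x.2, ?_, hA', hx.2, hB'⟩
  have h3 := List.take_append_drop (lf A).length L
  rw [hA, he] at h3
  rw [← h3]
  congr 2
  exact Prod.ext hx.1 rfl

private theorem hd_lf_inj : ∀ (A B : LL ι), lf A = lf B → A = B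
  | [], [], _ => rfl
  | [], b :: B, h => by simp at h
  | a :: A, [], h => by simp at h
  | a :: A, b :: B, h => by
    rw [hd_lf_cons, hd_lf_cons, List.cons.injEq] at h
    rw [hd_lf_inj A B h.2]
    congr 1
    have h1 := congrArg Prod.fst h.1
    have h2 := congrArg Prod.snd h.1
    exact Prod.ext (Option.some.inj h1) h2

private theorem hd_uniq : ∀ (A A' B B' : LL ι) (c c' : H),
    lf A ++ (none, c) :: lf B = lf A' ++ (none, c') :: lf B' → A = A' ∧ c = c' ∧ B = B'
  | [], [], B, B', c, c', h => by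
    simp only [List.map_nil, List.nil_append, List.cons.injEq] at h
    exact ⟨rfl, congrArg Prod.snd h.1, hd_lf_inj _ _ h.2⟩
  | [], a :: A', B, B', c, c', h => by
    simp at h
  | a :: A, [], B, B', c, c', h => by
    simp at h
  | a :: A, a' :: A', B, B', c, c', h => by
    rw [hd_lf_cons, hd_lf_cons, List.cons_append, List.cons_append, List.cons.injEq] at h
    obtain ⟨h1, h2, h3⟩ := hd_uniq A A' B B' c c' h.2
    refine ⟨?_, h2, h3⟩
    rw [h1]
    congr 1
    have k1 := congrArg Prod.fst h.1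
    have k2 := congrArg Prod.snd h.1
    exact Prod.ext (Option.some.inj k1) k2

private theorem hd_cjL_lf (g : H) (A : LL ι) : cjL g (lf A) = lf (cjL g A) := by
  simp only [cjL, List.map_map]
  rfl

/-- `Hide Z S` is closed (compactness of the unit sphere), conjugation invariant, and invariant under the
moves: moving the hidden entry past `y` corresponds to moving the block past `y` (`bv_left`,
`bv_right`, `bv_left'`, `bv_right'` in a context).  For the unit clause note `U (pr S)`. -/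
theorem hide_closed {Z : LL ι → Prop} (hZ : BClosed Z) {S : LL ι} (hS : UL S) :
    BClosed (Hide Z S) := by
  have hpS : U (pr S) := U_pr hS
  constructor
  · -- unit
    rintro L ⟨l, r, g, hg, rfl, hz⟩
    have hu := hZ.unit _ hz
    rw [UL_append, UL_append] at hu
    intro p hp
    rw [List.mem_append, List.mem_cons, List.mem_map, List.mem_map] at hp
    rcases hp with ⟨x, hx, rfl⟩ | rfl | ⟨x, hx, rfl⟩
    · exact hu.1.1 x hx
    · exact U_cj hg hpS
    · exact hu.2 x hx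
  · -- conjugation
    rintro L g' hg' ⟨l, r, g, hg, rfl, hz⟩
    refine ⟨cjL g' l, cjL g' r, g' * g, U_mul hg' hg, ?_, ?_⟩
    · rw [cjL_append, cjL_cons, cj_cj]
      congr 1
      · exact hd_cjL_lf _ _
      · congr 1
        exact hd_cjL_lf _ _
    · have := hZ.cj _ g' hg' hz
      rwa [cjL_append, cjL_append, cjL_cjL] at this
  · -- sw
    rintro l r p q ⟨A, B, g, hg, hL, hz⟩
    have hu := hZ.unit _ hz
    rcases hd_cases hL with ⟨b₀, p₀, q₀, r₀, rfl, rfl, rfl, rfl, rfl⟩ |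
      ⟨l₀, p₀, q₀, a₀, rfl, rfl, rfl, rfl, rfl⟩ | ⟨q₀, r₀, rfl, rfl, rfl, rfl, rfl⟩ |
      ⟨p₀, l₀, rfl, rfl, rfl, rfl, rfl⟩
    · refine ⟨A, b₀ ++ q₀ :: (p₀.1, star q₀.2 * p₀.2 * q₀.2) :: r₀, g, hg, ?_, ?_⟩
      · simp
      · have := hZ.sw (A ++ cjL g S ++ b₀) r₀ p₀ q₀ (by simpa using hz)
        simpa using this
    · refine ⟨l₀ ++ q₀ :: (p₀.1, star q₀.2 * p₀.2 * q₀.2) :: a₀, B, g, hg, ?_, ?_⟩
      · simp
      · have := hZ.sw l₀ (a₀ ++ cjL g S ++ B) p₀ q₀ (by simpa using hz)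
        simpa using this
    · have hq : U q₀.2 := by
        rw [UL_append, UL_cons] at hu
        exact hu.2.1
      refine ⟨A ++ [q₀], r₀, star q₀.2 * g, U_mul (U_star hq) hg, ?_, ?_⟩
      · rw [← cj_cj]
        simp [cj]
      · have h1 : Bv (A ++ (cjL g S ++ [q₀]) ++ r₀) (A ++ (q₀ :: cjL (star q₀.2) (cjL g S)) ++ r₀) :=
          Bv_ctx (bv_left (cjL g S) q₀) A r₀
        have := Bv_Z hZ h1 (by simpa using hz)
        rw [cjL_cjL] at this
        simpa using this
    · have hp : U p₀.2 := by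
        rw [UL_append, UL_append, UL_append, UL_cons] at hu
        exact hu.1.1.2.1
      refine ⟨l₀, (p₀.1, cj (star (cj g (pr S))) p₀.2) :: B, g, hg, ?_, ?_⟩
      · simp [cj]
      · have h1 := Bv_ctx (bv_right' (cjL g S) (UL_cjL hg hS) p₀) l₀ B
        have := Bv_Z hZ h1 (by simpa using hz)
        rw [pr_cjL hg] at this
        simpa using this
  · -- sw'
    rintro l r p q ⟨A, B, g, hg, hL, hz⟩
    have hu := hZ.unit _ hz
    rcases hd_cases hL with ⟨b₀, p₀, q₀, r₀, rfl, rfl, rfl, rfl, rfl⟩ |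
      ⟨l₀, p₀, q₀, a₀, rfl, rfl, rfl, rfl, rfl⟩ | ⟨q₀, r₀, rfl, rfl, rfl, rfl, rfl⟩ |
      ⟨p₀, l₀, rfl, rfl, rfl, rfl, rfl⟩
    · refine ⟨A, b₀ ++ (q₀.1, p₀.2 * q₀.2 * star p₀.2) :: p₀ :: r₀, g, hg, ?_, ?_⟩
      · simp
      · have := hZ.sw' (A ++ cjL g S ++ b₀) r₀ p₀ q₀ (by simpa using hz)
        simpa using this
    · refine ⟨l₀ ++ (q₀.1, p₀.2 * q₀.2 * star p₀.2) :: p₀ :: a₀, B, g, hg, ?_, ?_⟩
      · simp
      · have := hZ.sw' l₀ (a₀ ++ cjL g S ++ B) p₀ q₀ (by simpa using hz)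
        simpa using this
    · refine ⟨A ++ [(q₀.1, cj (cj g (pr S)) q₀.2)], r₀, g, hg, ?_, ?_⟩
      · simp [cj]
      · have h1 := Bv_ctx (bv_left' (cjL g S) (UL_cjL hg hS) q₀) A r₀
        have := Bv_Z hZ h1 (by simpa using hz)
        rw [pr_cjL hg] at this
        simpa using this
    · have hp : U p₀.2 := by
        rw [UL_append, UL_append, UL_append, UL_cons] at hu
        exact hu.1.1.2.1
      refine ⟨l₀, p₀ :: B, p₀.2 * g, U_mul hp hg, ?_, ?_⟩
      · rw [← cj_cj]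
        simp [cj]
      · have h1 := Bv_ctx (bv_right (cjL g S) p₀) l₀ B
        have := Bv_Z hZ h1 (by simpa using hz)
        rw [cjL_cjL] at this
        simpa using this
  · -- closed
    intro L hL
    have h1 : ∀ n : ℕ, ∃ (A A' B B' : LL ι) (c : H) (g : H), U g ∧
        L = lf A ++ (none, c) :: lf B ∧ Z (A' ++ cjL g S ++ B') ∧ Near (1 / (n + 1 : ℝ)) A A' ∧
        Near (1 / (n + 1 : ℝ)) B B' ∧ dist c (cj g (pr S)) < 1 / (n + 1 : ℝ) := by
      intro n
      obtain ⟨L', ⟨A', B', g, hg, rfl, hz⟩, hn⟩ := hL (1 / (n + 1 : ℝ)) (by positivity)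
      obtain ⟨A, B, c, h1, h2, h3, h4⟩ := hd_near hn
      exact ⟨A, A', B, B', c, g, hg, h1, hz, h2, h4, h3⟩
    choose A A' B B' c g hg hLn hz hA hB hc using h1
    have hA0 : ∀ n, A n = A 0 ∧ c n = c 0 ∧ B n = B 0 := fun n =>
      hd_uniq _ _ _ _ _ _ ((hLn n).symm.trans (hLn 0))
    have hK : IsCompact (Metric.sphere (0 : H) 1) := isCompact_sphere 0 1
    obtain ⟨g₀, hg₀, φ, hφ, hlim⟩ := hK.tendsto_subseq (x := g) (fun n => by
      rw [mem_sphere_zero_iff_norm]; exact hg n)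
    have hUg : U g₀ := mem_sphere_zero_iff_norm.1 hg₀
    have hlim' : Filter.Tendsto (fun n => 1 / ((φ n : ℝ) + 1)) Filter.atTop (nhds 0) :=
      tendsto_one_div_add_atTop_nhds_zero_nat.comp hφ.tendsto_atTop
    have hpick : ∀ ε : ℝ, 0 < ε → ∃ n : ℕ, 1 / ((n : ℝ) + 1) < ε ∧ 2 * dist g₀ (g n) < ε := by
      intro ε hε
      have e1 := hlim'.eventually (gt_mem_nhds hε)
      have e2 : ∀ᶠ n in Filter.atTop, dist (g (φ n)) g₀ < ε / 2 :=
        (Metric.tendsto_nhds.1 hlim) (ε / 2) (by positivity)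
      obtain ⟨n, h1, h2⟩ := (e1.and e2).exists
      refine ⟨φ n, h1, ?_⟩
      rw [dist_comm]
      linarith
    refine ⟨A 0, B 0, g₀, hUg, ?_, ?_⟩
    · have hceq : c 0 = cj g₀ (pr S) := by
        apply eq_of_forall_dist_le
        intro ε hε
        obtain ⟨n, h1, h2⟩ := hpick (ε / 2) (by positivity)
        have h3 : dist (c 0) (cj (g n) (pr S)) < ε / 2 := by
          have := hc n
          rw [(hA0 n).2.1] at this
          exact this.trans h1
        have h4 := dist_cj_le hUg (hg n) hpS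
        have h5 := dist_triangle_right (c 0) (cj g₀ (pr S)) (cj (g n) (pr S))
        linarith
      rw [← hceq]
      exact hLn 0
    · apply hZ.cl
      intro ε hε
      obtain ⟨n, h1, h2⟩ := hpick ε hε
      refine ⟨_, hz n, near_append (near_append ?_ ?_) ?_⟩
      · have := hA n
        rw [(hA0 n).1] at this
        exact near_mono this h1.le
      · exact near_cjL hUg (hg n) hS h2
      · have := hB n
        rw [(hA0 n).2.2] at this
        exact near_mono this h1.le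

end Pool.Agent.W24dbe6
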