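import Pool.Agent.W_MP_24dbe6_h58.Level
import Pool.Agent.W_MP_24dbe6_h58.DefsB
import Pool.Agent.W_MP_24dbe6_h58.Reorder
import Pool.Agent.W_MP_24dbe6_h58.GeoConj

set_option autoImplicit false

/-!
From the level set of `b₁ b₂` to the level set of `b₁ b₂ b₃`.
-/

namespace Pool.Agent.W24dbe6

open Quaternion

variable {ι : Type}

private theorem t2_uniq : ∀ (A A' B B' : LL ι) (c c' : H),
    A.map (fun p => (some p.1, p.2)) ++ ((none : Option ι), c) :: B.map (fun p => (some p.1, p.2)) =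
      A'.map (fun p => (some p.1, p.2)) ++ (none, c') :: B'.map (fun p => (some p.1, p.2)) →
    A = A' ∧ c = c' ∧ B = B'
  | [], [], B, B', c, c', h => by
    simp only [List.map_nil, List.nil_append, List.cons.injEq] at h
    exact ⟨rfl, congrArg Prod.snd h.1, lft_injective h.2⟩
  | [], a :: A', B, B', c, c', h => by
    simp at h
  | a :: A, [], B, B', c, c', h => by
    simp at h
  | a :: A, a' :: A', B, B', c, c', h => by
    rw [List.map_cons, List.map_cons, List.cons_append, List.cons_append, List.cons.injEq] at h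
    obtain ⟨h1, h2, h3⟩ := t2_uniq A A' B B' c c' h.2
    refine ⟨?_, h2, h3⟩
    rw [h1]
    congr 1
    have k1 := congrArg Prod.fst h.1
    have k2 := congrArg Prod.snd h.1
    exact Prod.ext (Option.some.inj k1) k2

/-- (T2): from the level set of `b₁ b₂` to the level set of `b₁ b₂ b₃`.
Proof: let `b'` be the target. `P = b₁ b₂ b₃`, `P' = b'₁ b'₂ b'₃` have the same angle; choose `h` with
`cj h P = P'` (`conj_of_re`) and put `c = cj h b` for the first three entries; the list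
`c₁ :: c₂ :: c₃ :: r'` is admissible and lies in `Z` by the hypothesis `Lev`.  Hide `r'` (product
`star P'`, infinite order): `ThmA 4` applies to `c₁ :: c₂ :: c₃ :: [(none, star P')]` (rotate if needed), so
`Hide Z r'` contains `b'₁, b'₂, b'₃, (none, star P')`: there is `g` commuting with `P'` with
`Z (b'₁ :: b'₂ :: b'₃ :: cjL g r')`; flow along the block `cjL g r'`. -/
theorem lev3_of_lev (hA : ThmA 4) {θ : ι → ℝ} (hθ : ∀ i, 0 < θ i ∧ θ i < Real.pi)
    {Z : LL ι → Prop} (hZ : BClosed Z) {b₁ b₂ b₃ : ι × H} {r : LL ι} {N : List ι}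
    (hadm : Adm θ (b₁ :: b₂ :: b₃ :: r)) (hgt : GT b₁ b₂ b₃ r)
    (hL : Lev θ Z b₁.1 b₂.1 (b₃.1 :: N) (ang (b₁.2 * b₂.2)))
    {b₁' b₂' b₃' : ι × H} {r' : LL ι} (hadm' : Adm θ (b₁' :: b₂' :: b₃' :: r')) (h1 : b₁'.1 = b₁.1)
    (h2 : b₂'.1 = b₂.1) (h3 : b₃'.1 = b₃.1) (hN : (lab r').Perm N)
    (hang : ang (b₁'.2 * b₂'.2 * b₃'.2) = ang (b₁.2 * b₂.2 * b₃.2)) :
    Z (b₁' :: b₂' :: b₃' :: r') := by
  obtain ⟨hI2, hI3, hc12, hc3, hNAr⟩ := hgt
  obtain ⟨ha0, hap⟩ := hadm
  obtain ⟨ha0', hap'⟩ := hadm'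
  have hb1 := ha0 b₁ (by simp)
  have hb2 := ha0 b₂ (by simp)
  have hb3 := ha0 b₃ (by simp)
  have hb1' := ha0' b₁' (by simp)
  have hb2' := ha0' b₂' (by simp)
  have hb3' := ha0' b₃' (by simp)
  have hr0 : ∀ p ∈ r', U p.2 ∧ p.2.re = Real.cos (θ p.1) := fun p hp => ha0' p (by simp [hp])
  have hUr : UL r' := fun p hp => (hr0 p hp).1
  have hP : U (b₁.2 * b₂.2 * b₃.2) := U_mul (U_mul hb1.1 hb2.1) hb3.1
  have hP' : U (b₁'.2 * b₂'.2 * b₃'.2) := U_mul (U_mul hb1'.1 hb2'.1) hb3'.1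
  have hre : (b₁.2 * b₂.2 * b₃.2).re = (b₁'.2 * b₂'.2 * b₃'.2).re := by
    rw [← U_cos_ang hP, ← U_cos_ang hP', hang]
  obtain ⟨h, hh, hcj⟩ := conj_of_re hP hP' hre
  rw [cj_mul hh, cj_mul hh] at hcj
  have hprod : b₁'.2 * b₂'.2 * b₃'.2 * pr r' = 1 := by
    rw [pr_cons, pr_cons, pr_cons, ← mul_assoc, ← mul_assoc] at hap'
    exact hap'
  have hprr : pr r' = star (b₁'.2 * b₂'.2 * b₃'.2) := by
    calc pr r' = star (b₁'.2 * b₂'.2 * b₃'.2) * (b₁'.2 * b₂'.2 * b₃'.2) * pr r' := by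
          rw [U_star_mul hP', one_mul]
      _ = star (b₁'.2 * b₂'.2 * b₃'.2) * (b₁'.2 * b₂'.2 * b₃'.2 * pr r') := by
          rw [mul_assoc]
      _ = star (b₁'.2 * b₂'.2 * b₃'.2) := by rw [hprod, mul_one]
  have hInfP' : Inf (b₁'.2 * b₂'.2 * b₃'.2) := inf_of_re hP hP' hre hI3
  have hUpr : U (pr r') := U_pr hUr
  have hInfr : Inf (pr r') := by
    refine inf_of_re hP' hUpr ?_ hInfP'
    rw [hprr, Quaternion.re_star]
  have hNCr : NC (pr r') := NC_of_Inf hUpr hInfr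
  -- the first list in `Z`
  have hZ1 : Z ((b₁.1, cj h b₁.2) :: (b₂.1, cj h b₂.2) :: (b₃.1, cj h b₃.2) :: r') := by
    refine hL _ _ _ ⟨?_, ?_⟩ rfl rfl ?_ ?_
    · intro p hp
      rw [List.mem_cons, List.mem_cons, List.mem_cons] at hp
      rcases hp with rfl | rfl | rfl | hp
      · exact ⟨U_cj hh hb1.1, (cj_re hh _).trans hb1.2⟩
      · exact ⟨U_cj hh hb2.1, (cj_re hh _).trans hb2.2⟩
      · exact ⟨U_cj hh hb3.1, (cj_re hh _).trans hb3.2⟩
      · exact hr0 p hp
    · rw [pr_cons, pr_cons, pr_cons, ← mul_assoc, ← mul_assoc, hcj]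
      exact hprod
    · show (b₃.1 :: lab r').Perm (b₃.1 :: N)
      exact hN.cons _
    · show ang (cj h b₁.2 * cj h b₂.2) = _
      rw [← cj_mul hh, cj_ang hh]
  have hH1 : Hide Z r' ((some b₁.1, cj h b₁.2) :: (some b₂.1, cj h b₂.2) ::
      [(some b₃.1, cj h b₃.2), (none, pr r')]) := by
    refine ⟨[(b₁.1, cj h b₁.2), (b₂.1, cj h b₂.2), (b₃.1, cj h b₃.2)], [], 1, U_one, ?_, ?_⟩
    · rw [cj_one_left]
      rfl
    · rw [cjL_one, List.append_nil]
      exact hZ1
  have hθ' : ∀ i, 0 < optθ θ (ang (pr r')) i ∧ optθ θ (ang (pr r')) i < Real.pi := by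
    intro i
    cases i with
    | none => exact (NC_iff_ang hUpr).1 hNCr
    | some i => exact hθ i
  have hre_none : (pr r').re = Real.cos (ang (pr r')) := (U_cos_ang hUpr).symm
  have hH2 := hA (Option ι) (optθ θ (ang (pr r'))) (Hide Z r') hθ' (hide_closed hZ hUr)
    (some b₁.1, cj h b₁.2) (some b₂.1, cj h b₂.2) [(some b₃.1, cj h b₃.2), (none, pr r')] rfl
    (by
      refine ⟨?_, ?_⟩
      · intro p hp
        rw [List.mem_cons, List.mem_cons, List.mem_cons, List.mem_singleton] at hp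
        rcases hp with rfl | rfl | rfl | rfl
        · exact ⟨U_cj hh hb1.1, (cj_re hh _).trans hb1.2⟩
        · exact ⟨U_cj hh hb2.1, (cj_re hh _).trans hb2.2⟩
        · exact ⟨U_cj hh hb3.1, (cj_re hh _).trans hb3.2⟩
        · exact ⟨hUpr, hre_none⟩
      · rw [pr_cons, pr_cons, pr_cons, pr_cons, pr_nil, mul_one, ← mul_assoc, ← mul_assoc, hcj]
        exact hprod)
    hH1
    (by
      refine ⟨?_, ?_, ?_⟩
      · show Inf (cj h b₁.2 * cj h b₂.2)
        rw [← cj_mul hh]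
        exact (inf_cj hh _).2 hI2
      · show ¬ Commute (cj h b₁.2) (cj h b₂.2)
        rw [commute_cj hh]
        exact hc12
      · refine ⟨(some b₃.1, cj h b₃.2), by simp, (none, pr r'), by simp, ?_⟩
        show ¬ Commute (cj h b₃.2) (pr r')
        intro hcon
        rw [hprr] at hcon
        have e1 := (commute_star hP').1 hcon.symm
        rw [← hcj] at e1
        have e2 := (commute_mul_right_iff (U_cj hh hb3.1)).1 e1.symm
        rw [← cj_mul hh, commute_cj hh] at e2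
        exact hc3 e2)
    (Or.inl rfl)
    [(some b₁'.1, b₁'.2), (some b₂'.1, b₂'.2), (some b₃'.1, b₃'.2), (none, pr r')]
    (by
      refine ⟨?_, ?_⟩
      · intro p hp
        rw [List.mem_cons, List.mem_cons, List.mem_cons, List.mem_singleton] at hp
        rcases hp with rfl | rfl | rfl | rfl
        · exact hb1'
        · exact hb2'
        · exact hb3'
        · exact ⟨hUpr, hre_none⟩
      · rw [pr_cons, pr_cons, pr_cons, pr_cons, pr_nil, mul_one, ← mul_assoc, ← mul_assoc]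
        exact hprod)
    (by
      show [some b₁'.1, some b₂'.1, some b₃'.1, none].Perm [some b₁.1, some b₂.1, some b₃.1, none]
      rw [h1, h2, h3])
  obtain ⟨l, s, g, hg, hL', hZg⟩ := hH2
  obtain ⟨e1, e2, e3⟩ := t2_uniq [b₁', b₂', b₃'] l [] s (pr r') (cj g (pr r')) hL'
  subst e1
  subst e3
  have hgc : Commute g (pr r') := (cj_eq_iff hg).1 e2.symm
  have hprg : pr (cjL g r') = pr r' := by rw [pr_cjL hg, ← e2]
  have hfl := flow hZ hZg (t := star g) (by rw [hprg]; exact hInfr)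
    (by rw [hprg]; exact ⟨U_star hg, (commute_star hg).2 hgc⟩)
  rw [cjL_cjL, U_star_mul hg, cjL_one, List.append_nil] at hfl
  exact hfl

end Pool.Agent.W24dbe6
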