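import Pool.Agent.W_MP_24dbe6_h58.T1
import Pool.Agent.W_MP_24dbe6_h58.T2
import Pool.Agent.W_MP_24dbe6_h58.Box

set_option autoImplicit false

/-!
Propagation of level sets, lists of length at least 5.
-/

namespace Pool.Agent.W24dbe6

open Quaternion Filter Topology

variable {ι : Type}

/-- an irrational multiple of `π` near a given real number -/
theorem propN_irr (x : ℝ) {ε : ℝ} (hε : 0 < ε) : ∃ y : ℝ, |y - x| < ε ∧ Irrational (y / Real.pi) := by
  have hpi := Real.pi_pos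
  obtain ⟨r, hr, h1, h2⟩ := exists_irrational_btwn
    (show (x - ε) / Real.pi < (x + ε) / Real.pi from div_lt_div_of_pos_right (by linarith) hpi)
  refine ⟨r * Real.pi, ?_, ?_⟩
  · rw [div_lt_iff₀ hpi] at h1
    rw [lt_div_iff₀ hpi] at h2
    rw [abs_lt]
    constructor <;> linarith
  · rw [mul_div_cancel_right₀ _ hpi.ne']
    exact hr

/-- local propagation: with `δ` and `ψ₀` from `box`, choose `ψ` near `ψ₀` with `ψ / π` irrational;
`Lev φ₁` puts the generic triple point of angles `(φ₁, ψ)` into `Z`, `lev3_of_lev` the one of angles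
`(φ₂, ψ)`, and `lev_of_GT` gives `Lev φ₂` (all the lists have length `N.length + 3`). -/
theorem prop_local {n : ℕ} (hn : 4 ≤ n) (hA4 : ThmA 4) (hA : ThmA n) {θ : ι → ℝ}
    (hθ : ∀ i, 0 < θ i ∧ θ i < Real.pi) {Z : LL ι → Prop} (hZ : BClosed Z) {i j k : ι}
    {N : List ι} (hN : N.length + 3 = n + 1) {φ₀ : ℝ} (h1 : STri (θ i) (θ j) φ₀)
    (h2 : RgI (θ k :: N.map θ) φ₀) :
    ∃ δ : ℝ, 0 < δ ∧ ∀ φ₁ φ₂ : ℝ, |φ₁ - φ₀| < δ → |φ₂ - φ₀| < δ → Irrational (φ₁ / Real.pi) →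
      Irrational (φ₂ / Real.pi) → Lev θ Z i j (k :: N) φ₁ → Lev θ Z i j (k :: N) φ₂ := by
  obtain ⟨δ, hδ, ψ₀, hbox⟩ := box hθ (show 2 ≤ N.length by omega) h1 h2
  obtain ⟨ψ, hψ, hψi⟩ := propN_irr ψ₀ hδ
  refine ⟨δ, hδ, fun φ₁ φ₂ k1 k2 i1 i2 hL => ?_⟩
  obtain ⟨b₁, b₂, b₃, r, hadm, e1, e2, e3, eN, eφ, eψ, c1, c2, hna⟩ := hbox φ₁ ψ k1 hψ
  obtain ⟨b₁', b₂', b₃', r', hadm', e1', e2', e3', eN', eφ', eψ', c1', c2', hna'⟩ :=
    hbox φ₂ ψ k2 hψ
  have hUs : ∀ {x y z : ι × H} {s : LL ι}, Adm θ (x :: y :: z :: s) → U x.2 ∧ U y.2 ∧ U z.2 := by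
    intro x y z s h
    exact ⟨(h.1 x (by simp)).1, (h.1 y (by simp)).1, (h.1 z (by simp)).1⟩
  obtain ⟨u1, u2, u3⟩ := hUs hadm
  obtain ⟨u1', u2', u3'⟩ := hUs hadm'
  have hgt : GT b₁ b₂ b₃ r :=
    ⟨(inf_iff (U_mul u1 u2)).2 (by rw [eφ]; exact i1),
      (inf_iff (U_mul (U_mul u1 u2) u3)).2 (by rw [eψ]; exact hψi), c1, c2, hna⟩
  have hgt' : GT b₁' b₂' b₃' r' :=
    ⟨(inf_iff (U_mul u1' u2')).2 (by rw [eφ']; exact i2),
      (inf_iff (U_mul (U_mul u1' u2') u3')).2 (by rw [eψ']; exact hψi), c1', c2', hna'⟩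
  have hL1 : Lev θ Z b₁.1 b₂.1 (b₃.1 :: N) (ang (b₁.2 * b₂.2)) := by
    rw [e1, e2, e3, eφ]
    exact hL
  have hz' : Z (b₁' :: b₂' :: b₃' :: r') :=
    lev3_of_lev hA4 hθ hZ hadm hgt hL1 hadm' (e1'.trans e1.symm) (e2'.trans e2.symm)
      (e3'.trans e3.symm) (by rw [eN']) (by rw [eψ, eψ'])
  have hlen : (b₁' :: b₂' :: b₃' :: r').length = n + 1 := by
    have : r'.length = N.length := by
      rw [← eN']
      simp [lab]
    simp only [List.length_cons]
    omega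
  have h3 := lev_of_GT hn hA hθ hZ hlen hadm' hz' hgt'
  rw [e1', e2', e3', eN', eφ'] at h3
  exact h3

/-- global propagation: the set of `φ₀` with `STri (θ i) (θ j) φ₀` and `RgI (θ k :: N.map θ) φ₀` is an
interval; use `prop_local` and connectedness of the interval between two angles. -/
theorem prop_global {n : ℕ} (hn : 4 ≤ n) (hA4 : ThmA 4) (hA : ThmA n) {θ : ι → ℝ}
    (hθ : ∀ i, 0 < θ i ∧ θ i < Real.pi) {Z : LL ι → Prop} (hZ : BClosed Z) {i j k : ι}
    {N : List ι} (hN : N.length + 3 = n + 1) {φ₁ φ₂ : ℝ} (h1 : STri (θ i) (θ j) φ₁)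
    (h1' : RgI (θ k :: N.map θ) φ₁) (h2 : STri (θ i) (θ j) φ₂) (h2' : RgI (θ k :: N.map θ) φ₂)
    (hi1 : Irrational (φ₁ / Real.pi)) (hi2 : Irrational (φ₂ / Real.pi))
    (hL : Lev θ Z i j (k :: N) φ₁) : Lev θ Z i j (k :: N) φ₂ := by
  -- local propagation at every point of the interval
  have hloc : ∀ x ∈ Set.uIcc φ₁ φ₂, ∃ δ : ℝ, 0 < δ ∧ ∀ φ φ' : ℝ, |φ - x| < δ → |φ' - x| < δ →
      Irrational (φ / Real.pi) → Irrational (φ' / Real.pi) → Lev θ Z i j (k :: N) φ →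
      Lev θ Z i j (k :: N) φ' := by
    intro x hx
    have hST : STri (θ i) (θ j) x := by
      obtain ⟨a1, a2, a3, a4⟩ := h1
      obtain ⟨b1, b2, b3, b4⟩ := h2
      rw [Set.mem_uIcc] at hx
      rcases hx with ⟨p, q⟩ | ⟨p, q⟩ <;> exact ⟨by linarith, by linarith, by linarith, by linarith⟩
    have hRg : RgI (θ k :: N.map θ) x := by
      obtain ⟨a, ha, a', ha', p1, p2⟩ := h1'
      obtain ⟨b, hb, b', hb', q1, q2⟩ := h2'
      rw [Set.mem_uIcc] at hx
      rcases hx with ⟨p, q⟩ | ⟨p, q⟩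
      · exact ⟨a, ha, b', hb', by linarith, by linarith⟩
      · exact ⟨b, hb, a', ha', by linarith, by linarith⟩
    exact prop_local hn hA4 hA hθ hZ hN hST hRg
  let Q : ℝ → Prop := fun x => ∃ ε : ℝ, 0 < ε ∧ ∀ φ : ℝ, |φ - x| < ε → Irrational (φ / Real.pi) →
    Lev θ Z i j (k :: N) φ
  have hkey : ∀ x y : ℝ, x ∈ Set.uIcc φ₁ φ₂ → y ∈ Set.uIcc φ₁ φ₂ → (Q x ↔ Q y) := by
    intro x y hx hy
    refine IsPreconnected.induction₂ (s := Set.uIcc φ₁ φ₂) isPreconnected_uIcc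
      (fun x y => (Q x ↔ Q y)) ?_ ?_ ?_ hx hy
    · intro x hx
      obtain ⟨δ, hδ, hd⟩ := hloc x hx
      have hev : ∀ᶠ y in 𝓝[Set.uIcc φ₁ φ₂] x, |y - x| < δ := by
        have : ∀ᶠ y in 𝓝 x, |y - x| < δ := by
          have := Metric.ball_mem_nhds x hδ
          filter_upwards [this] with y hy
          rwa [Metric.mem_ball, Real.dist_eq] at hy
        exact this.filter_mono nhdsWithin_le_nhds
      filter_upwards [hev] with y hy
      constructor
      · rintro ⟨ε, hε, he⟩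
        obtain ⟨φ, hφ, hφi⟩ := propN_irr x (lt_min hε hδ)
        have hLφ := he φ (hφ.trans_le (min_le_left _ _)) hφi
        refine ⟨δ - |y - x|, by linarith, fun φ' hφ' hi' => ?_⟩
        refine hd φ φ' (hφ.trans_le (min_le_right _ _)) ?_ hφi hi' hLφ
        have := abs_sub_le φ' y x
        linarith
      · rintro ⟨ε, hε, he⟩
        obtain ⟨φ, hφ, hφi⟩ := propN_irr y (lt_min hε (show 0 < δ - |y - x| by linarith))
        have hLφ := he φ (hφ.trans_le (min_le_left _ _)) hφi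
        have hφ2 := hφ.trans_le (min_le_right _ _)
        refine ⟨δ, hδ, fun φ' hφ' hi' => ?_⟩
        refine hd φ φ' ?_ hφ' hφi hi' hLφ
        have := abs_sub_le φ y x
        linarith
    · intro x y z _ _ _ hxy hyz
      exact hxy.trans hyz
    · intro x y _ _ hxy
      exact hxy.symm
  have hQ1 : Q φ₁ := by
    obtain ⟨δ, hδ, hd⟩ := hloc φ₁ Set.left_mem_uIcc
    exact ⟨δ, hδ, fun φ hφ hi => hd φ₁ φ (by simpa using hδ) hφ hi1 hi hL⟩
  obtain ⟨ε, hε, he⟩ := (hkey φ₁ φ₂ Set.left_mem_uIcc Set.right_mem_uIcc).1 hQ1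
  exact he φ₂ (by simpa using hε) hi2

/-- conclusion: one level set gives the full set for this pair of labels.
Use `interior_of` for `b` and for the target (after `reorder` of the rest of the target to the order
`k :: N`, which does not change the product nor non-commutativity). -/
theorem full_of_lev {n : ℕ} (hn : 4 ≤ n) (hA4 : ThmA 4) (hA : ThmA n) {θ : ι → ℝ}
    (hθ : ∀ i, 0 < θ i ∧ θ i < Real.pi) {Z : LL ι → Prop} (hZ : BClosed Z)
    {b₁ b₂ : ι × H} {r : LL ι} (hlen : (b₁ :: b₂ :: r).length = n + 1)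
    (hadm : Adm θ (b₁ :: b₂ :: r)) (hgp : GP b₁ b₂ r)
    (hL : Lev θ Z b₁.1 b₂.1 (lab r) (ang (b₁.2 * b₂.2))) : Full θ Z b₁.1 b₂.1 (lab r) := by
  intro c₁ c₂ s hadmc e1 e2 hperm hgpc
  -- the labels of the rest
  obtain ⟨k, N, hkN⟩ : ∃ k N, lab r = k :: N := by
    cases h : lab r with
    | nil =>
      have h1 : (lab r).length = 0 := by rw [h]; rfl
      have h2 : (lab r).length = r.length := by simp [lab]
      simp only [List.length_cons] at hlen
      omega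
    | cons k N => exact ⟨k, N, rfl⟩
  have hNl : N.length + 3 = n + 1 := by
    have h2 : (lab r).length = r.length := by simp [lab]
    rw [hkN] at h2
    simp only [List.length_cons] at hlen h2
    omega
  rw [hkN] at hL hperm
  -- reorder the rest of the target
  obtain ⟨s', hbv, hs'⟩ := reorder hperm
  have hULs : UL s := by
    intro p hp
    exact (hadmc.1 p (by simp [hp])).1
  have hU1 : U c₁.2 := (hadmc.1 c₁ (by simp)).1
  have hU2 : U c₂.2 := (hadmc.1 c₂ (by simp)).1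
  have hadms : Adm θ (c₁ :: c₂ :: s') := by
    refine ⟨?_, ?_⟩
    · intro p hp
      rw [List.mem_cons, List.mem_cons] at hp
      rcases hp with rfl | rfl | hp
      · exact hadmc.1 _ (by simp)
      · exact hadmc.1 _ (by simp)
      · exact Bv_re hbv (fun q hq => hadmc.1 q (by simp [hq])) p hp
    · have h1 := hadmc.2
      rw [pr_cons, pr_cons] at h1 ⊢
      rw [Bv_pr hbv hULs]
      exact h1
  obtain ⟨g1, g2⟩ := interior_of hθ hadm hgp.2.1 hgp.2.2
  obtain ⟨g3, g4⟩ := interior_of hθ hadms hgpc.2.1 ((Bv_NA hbv hULs).2 hgpc.2.2)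
  rw [hkN, List.map_cons] at g2
  rw [hs', List.map_cons] at g4
  rw [e1, e2] at g3
  have hUb1 : U b₁.2 := (hadm.1 b₁ (by simp)).1
  have hUb2 : U b₂.2 := (hadm.1 b₂ (by simp)).1
  have hLc := prop_global hn hA4 hA hθ hZ hNl g1 g2 g3 g4
    ((inf_iff (U_mul hUb1 hUb2)).1 hgp.1) ((inf_iff (U_mul hU1 hU2)).1 hgpc.1) hL
  exact hLc c₁ c₂ s hadmc e1 e2 hperm rfl

end Pool.Agent.W24dbe6
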