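import Pool.Agent.W_MP_24dbe6_h58.SU2

set_option autoImplicit false

/-!
Representations and labelled lists.
-/

namespace Pool.Agent.W24dbe6

open Quaternion

/-- the labelled list of a representation -/
noncomputable def Lst {n : ℕ} (σ : Pi1 n →* SU2) : LL (Fin n) :=
  List.ofFn fun i : Fin n => (i, toH (σ (c i)))

/-- the angles of the boundary holonomies -/
noncomputable def thetaOf {n : ℕ} (σ : Pi1 n →* SU2) : Fin n → ℝ := fun i => ang (toH (σ (c i)))

/-- `toH` as a homomorphism of monoids -/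
noncomputable def reps_toHh : SU2 →* H where
  toFun := toH
  map_one' := toH_one
  map_mul' := toH_mul

/-- the quaternion representation of the free group -/
noncomputable def reps_hom {n : ℕ} (σ : Pi1 n →* SU2) : FreeGroup (Fin n) →* H :=
  reps_toHh.comp (σ.comp (PresentedGroup.mk _))

theorem reps_rel {n : ℕ} : (PresentedGroup.mk
    ({(List.ofFn fun i : Fin n => FreeGroup.of i).prod} : Set (FreeGroup (Fin n))))
    (List.ofFn fun i : Fin n => FreeGroup.of i).prod = 1 :=
  PresentedGroup.one_of_mem rfl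

theorem reps_mem {n : ℕ} {σ : Pi1 n →* SU2} {p : Fin n × H} :
    p ∈ Lst σ ↔ ∃ i, (i, toH (σ (c i))) = p := by
  unfold Lst
  rw [List.mem_ofFn']
  rfl

theorem reps_ofFn {n : ℕ} {b : LL (Fin n)} (hl : lab b = List.finRange n) :
    ∃ x : Fin n → H, (List.ofFn fun i : Fin n => (i, x i)) = b := by
  have hlen : b.length = n := by
    have h := congrArg List.length hl
    unfold lab at h
    rwa [List.length_map, List.length_finRange] at h
  refine ⟨fun i => (b.get (i.cast hlen.symm)).2, ?_⟩
  apply List.ext_getElem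
  · rw [List.length_ofFn, hlen]
  · intro k h1 h2
    rw [List.getElem_ofFn]
    have h4 : (lab b)[k]'(by unfold lab; rwa [List.length_map]) = b[k].1 := by
      unfold lab
      rw [List.getElem_map]
    have h5 : (lab b)[k]'(by unfold lab; rwa [List.length_map]) = ⟨k, hlen ▸ h2⟩ := by
      simp only [hl, List.getElem_finRange]
      rfl
    exact Prod.ext (h5.symm.trans h4) rfl

theorem lab_Lst {n : ℕ} (σ : Pi1 n →* SU2) : lab (Lst σ) = List.finRange n := by
  unfold lab Lst
  rw [List.map_ofFn]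
  exact (List.ofFn_id n)

/-- `c₁ ⋯ c_n = 1` -/
theorem pr_Lst {n : ℕ} (σ : Pi1 n →* SU2) : pr (Lst σ) = 1 := by
  have h1 : pr (Lst σ) = (List.ofFn fun i : Fin n => toH (σ (c i))).prod := by
    unfold pr Lst
    rw [List.map_ofFn]
    rfl
  have h2 : (List.ofFn fun i : Fin n => toH (σ (c i))) =
      (List.ofFn fun i : Fin n => FreeGroup.of i).map (reps_hom σ) := by
    rw [List.map_ofFn]
    rfl
  rw [h1, h2, ← map_list_prod]
  show toH (σ (PresentedGroup.mk _ _)) = 1
  rw [reps_rel, map_one, toH_one]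

theorem Adm_Lst {n : ℕ} (σ : Pi1 n →* SU2) : Adm (thetaOf σ) (Lst σ) := by
  refine ⟨?_, pr_Lst σ⟩
  intro p hp
  obtain ⟨i, rfl⟩ := reps_mem.1 hp
  exact ⟨U_toH _, (U_cos_ang (U_toH _)).symm⟩

/-- admissible for the angles of `ρ` = same boundary traces as `ρ` -/
theorem Adm_Lst_iff {n : ℕ} (ρ σ : Pi1 n →* SU2) : Adm (thetaOf ρ) (Lst σ) ↔
    ∀ i, Matrix.trace (σ (c i) : Matrix (Fin 2) (Fin 2) ℂ) =
      Matrix.trace (ρ (c i) : Matrix (Fin 2) (Fin 2) ℂ) := by
  constructor
  · intro h i
    have h1 := (h.1 (i, toH (σ (c i))) (reps_mem.2 ⟨i, rfl⟩)).2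
    have h2 : Real.cos (thetaOf ρ i) = (toH (ρ (c i))).re := U_cos_ang (U_toH _)
    rw [trace_toH, trace_toH]
    have h3 : (toH (σ (c i))).re = (toH (ρ (c i))).re := h1.trans h2
    rw [h3]
  · intro h
    refine ⟨?_, pr_Lst σ⟩
    intro p hp
    obtain ⟨i, rfl⟩ := reps_mem.1 hp
    refine ⟨U_toH _, ?_⟩
    have h2 : Real.cos (thetaOf ρ i) = (toH (ρ (c i))).re := U_cos_ang (U_toH _)
    have h1 := h i
    rw [trace_toH, trace_toH] at h1
    have h3 : 2 * (toH (σ (c i))).re = 2 * (toH (ρ (c i))).re := by exact_mod_cast h1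
    show (toH (σ (c i))).re = Real.cos (thetaOf ρ i)
    rw [h2]
    linarith

/-- every list with labels `0, 1, …, n-1`, unit entries and product `1` comes from a representation -/
theorem exists_rep {n : ℕ} {b : LL (Fin n)} (hl : lab b = List.finRange n) (hU : UL b)
    (hp : pr b = 1) : ∃ σ : Pi1 n →* SU2, Lst σ = b := by
  obtain ⟨x, rfl⟩ := reps_ofFn hl
  have hx : ∀ i, U (x i) := fun i => hU (i, x i) ((List.mem_ofFn' _ _).2 ⟨i, rfl⟩)
  choose A hA using fun i => exists_toH (hx i)
  have hrel : ∀ r ∈ ({(List.ofFn fun i : Fin n => FreeGroup.of i).prod} : Set (FreeGroup (Fin n))),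
      FreeGroup.lift A r = 1 := by
    intro r hr
    rw [Set.mem_singleton_iff] at hr
    rw [hr]
    apply toH_injective
    rw [toH_one, ← hp]
    have h1 : toH (FreeGroup.lift A (List.ofFn fun i : Fin n => FreeGroup.of i).prod) =
        reps_toHh.comp (FreeGroup.lift A) (List.ofFn fun i : Fin n => FreeGroup.of i).prod := rfl
    rw [h1, map_list_prod, List.map_ofFn]
    unfold pr
    rw [List.map_ofFn]
    congr 2
    funext i
    show toH (FreeGroup.lift A (FreeGroup.of i)) = x i
    rw [FreeGroup.lift_apply_of]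
    exact hA i
  refine ⟨PresentedGroup.toGroup hrel, ?_⟩
  unfold Lst
  congr 1
  funext i
  have h2 : PresentedGroup.toGroup hrel (c i) = A i := PresentedGroup.toGroup.of hrel
  rw [h2, hA i]

/-- representations are determined by their values on the generators -/
theorem rep_ext {n : ℕ} {σ τ : Pi1 n →* SU2} (h : ∀ i, σ (c i) = τ (c i)) : σ = τ := by
  exact PresentedGroup.ext fun i => h i

/-- every element is a product of generators and inverses: a property of images stable under products and
inverses and true for the generators holds on the whole image -/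
theorem image_induction {n : ℕ} (σ : Pi1 n →* SU2) {P : SU2 → Prop} (h1 : P 1)
    (hm : ∀ A B, P A → P B → P (A * B)) (hi : ∀ A, P A → P A⁻¹) (hc : ∀ i, P (σ (c i))) :
    ∀ x, P (σ x) := by
  intro x
  obtain ⟨z, rfl⟩ := PresentedGroup.mk_surjective _ x
  induction z using FreeGroup.induction_on with
  | C1 => rw [map_one, map_one]; exact h1
  | of i => exact hc i
  | inv_of i hi' => rw [map_inv, map_inv]; exact hi _ hi'
  | mul x y hx hy => rw [map_mul, map_mul]; exact hm _ _ hx hy

/-- classes agree iff conjugate by a unit quaternion on the generators -/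
theorem cls_eq_iff {n : ℕ} (ρ σ : Pi1 n →* SU2) : cls ρ = cls σ ↔
    ∃ g : H, U g ∧ ∀ i, toH (σ (c i)) = cj g (toH (ρ (c i))) := by
  have h0 : cls ρ = cls σ ↔ ∃ g : SU2, ∀ x, σ x = g * ρ x * g⁻¹ :=
    ⟨fun h => Quotient.exact h, fun h => Quotient.sound h⟩
  rw [h0]
  constructor
  · rintro ⟨g, hg⟩
    refine ⟨toH g, U_toH g, fun i => ?_⟩
    rw [hg, toH_conj]
  · rintro ⟨g, hgU, hg⟩
    obtain ⟨A, rfl⟩ := exists_toH hgU
    refine ⟨A, ?_⟩
    have h1 : σ = (MulAut.conj A).toMonoidHom.comp ρ := by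
      apply rep_ext
      intro i
      apply toH_injective
      show toH (σ (c i)) = toH (A * ρ (c i) * A⁻¹)
      rw [toH_conj]
      exact hg i
    intro x
    rw [h1]
    rfl

end Pool.Agent.W24dbe6
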