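import Pool.Agent.W_MP_24dbe6_h58.DefsB
import Pool.Agent.W_MP_24dbe6_h58.GeoTri
import Pool.Agent.W_MP_24dbe6_h58.GeoEx

set_option autoImplicit false

/-!
The set `Rg l` of angles of products.
-/

namespace Pool.Agent.W24dbe6

open Quaternion

theorem Rg_mem_Icc {l : List ℝ} {φ : ℝ} (h : φ ∈ Rg l) : 0 ≤ φ ∧ φ ≤ Real.pi := by
  cases l with
  | nil =>
    have h0 : φ = 0 := h
    rw [h0]
    exact ⟨le_rfl, Real.pi_pos.le⟩
  | cons a l => exact ⟨h.1, h.2.1⟩

/-- `Rg l` is convex: `Tri` is a system of linear inequalities; induction on `l`, a convex combination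
`(1 - s) φ₁ + s φ₂` is witnessed by the same convex combination of the `ψ`s -/
theorem Rg_convex {l : List ℝ} {φ₁ φ₂ φ : ℝ} (h₁ : φ₁ ∈ Rg l) (h₂ : φ₂ ∈ Rg l) (h₁' : φ₁ ≤ φ)
    (h₂' : φ ≤ φ₂) : φ ∈ Rg l := by
  induction l generalizing φ₁ φ₂ φ with
  | nil =>
    have e1 : φ₁ = 0 := h₁
    have e2 : φ₂ = 0 := h₂
    have e3 : φ = 0 := by linarith
    rw [e3]
    rfl
  | cons a l ih =>
    rcases eq_or_lt_of_le (h₁'.trans h₂') with h | h
    · have e : φ = φ₁ := by linarith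
      rw [e]
      exact h₁
    · obtain ⟨p1, p2, ψ₁, hψ₁, t1, t2, t3, t4⟩ := h₁
      obtain ⟨q1, q2, ψ₂, hψ₂, u1, u2, u3, u4⟩ := h₂
      obtain ⟨s, hs0, hs1, hsφ⟩ : ∃ s : ℝ, 0 ≤ s ∧ s ≤ 1 ∧ φ = (1 - s) * φ₁ + s * φ₂ := by
        have hpos : 0 < φ₂ - φ₁ := by linarith
        refine ⟨(φ - φ₁) / (φ₂ - φ₁), by
          apply div_nonneg <;> linarith, by
          rw [div_le_one hpos]; linarith, ?_⟩
        field_simp
        ring
      have hs1' : 0 ≤ 1 - s := by linarith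
      refine ⟨by linarith, by linarith, (1 - s) * ψ₁ + s * ψ₂, ?_, ?_⟩
      · rcases le_total ψ₁ ψ₂ with h' | h'
        · refine ih hψ₁ hψ₂ ?_ ?_
          · nlinarith
          · nlinarith
        · refine ih hψ₂ hψ₁ ?_ ?_
          · nlinarith
          · nlinarith
      · subst hsφ
        refine ⟨?_, ?_, ?_, ?_⟩
        · have e1 := mul_le_mul_of_nonneg_left t1 hs1'
          have e2 := mul_le_mul_of_nonneg_left u1 hs0
          linarith
        · have e1 := mul_le_mul_of_nonneg_left t2 hs1'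
          have e2 := mul_le_mul_of_nonneg_left u2 hs0
          linarith
        · have e1 := mul_le_mul_of_nonneg_left t3 hs1'
          have e2 := mul_le_mul_of_nonneg_left u3 hs0
          linarith
        · have e1 := mul_le_mul_of_nonneg_left t4 hs1'
          have e2 := mul_le_mul_of_nonneg_left u4 hs0
          linarith

/-- the angle of the product lies in `Rg l` (`tri_of_mul`) -/
theorem Rg_of_has {xs : List H} {l : List ℝ} (h : Has xs l)
    (hl : ∀ a ∈ l, 0 ≤ a ∧ a ≤ Real.pi) : ang xs.prod ∈ Rg l := by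
  have key : U xs.prod ∧ ang xs.prod ∈ Rg l := by
    induction h with
    | nil =>
      refine ⟨U_one, ?_⟩
      show Real.arccos (1 : H).re = 0
      rw [Quaternion.re_one, Real.arccos_one]
    | @cons x a xs l hx _ ih =>
      obtain ⟨hU, hR⟩ := ih fun b hb => hl b (List.mem_cons_of_mem _ hb)
      have ha := hl a List.mem_cons_self
      rw [List.prod_cons]
      refine ⟨U_mul hx.1 hU, (ang_mem _).1, (ang_mem _).2, ang xs.prod, hR, ?_⟩
      have h1 := tri_of_mul hx.1 hU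
      have h2 : ang x = a := by
        unfold ang
        rw [hx.2, Real.arccos_cos ha.1 ha.2]
      rwa [h2] at h1
  exact key.2

/-- every angle in `Rg l` is realised, with prescribed product (`exists_mul`) -/
theorem exists_of_Rg {l : List ℝ} (hl : ∀ a ∈ l, 0 ≤ a ∧ a ≤ Real.pi) {P : H} (hP : U P)
    (h : ang P ∈ Rg l) : ∃ xs : List H, Has xs l ∧ xs.prod = P := by
  induction l generalizing P with
  | nil =>
    refine ⟨[], List.Forall₂.nil, ?_⟩
    have h0 : ang P = 0 := h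
    have h1 : P.re = 1 := by rw [← U_cos_ang hP, h0, Real.cos_zero]
    have h2 := GeoTri_sq hP
    rw [h1] at h2
    have hI : P.imI = 0 := by nlinarith [sq_nonneg P.imI, sq_nonneg P.imJ, sq_nonneg P.imK]
    have hJ : P.imJ = 0 := by nlinarith [sq_nonneg P.imI, sq_nonneg P.imJ, sq_nonneg P.imK]
    have hK : P.imK = 0 := by nlinarith [sq_nonneg P.imI, sq_nonneg P.imJ, sq_nonneg P.imK]
    rw [List.prod_nil]
    symm
    refine (QuaternionAlgebra.ext ?_ ?_ ?_ ?_ : P = 1)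
    · rw [h1]; rfl
    · rw [hI]; rfl
    · rw [hJ]; rfl
    · rw [hK]; rfl
  | cons a l ih =>
    obtain ⟨-, -, ψ, hψ, ht⟩ := h
    have hψ' := Rg_mem_Icc hψ
    obtain ⟨x, y, hx, hy, hxa, hyψ, hxy⟩ := exists_mul hP (hl a List.mem_cons_self) hψ' ht
    have hy' : ang y = ψ := by
      unfold ang
      rw [hyψ, Real.arccos_cos hψ'.1 hψ'.2]
    obtain ⟨xs, h1, h2⟩ := ih (fun b hb => hl b (List.mem_cons_of_mem _ hb)) hy (by rwa [hy'])
    exact ⟨x :: xs, List.Forall₂.cons ⟨hx, hxa⟩ h1, by rw [List.prod_cons, h2, hxy]⟩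

/-- the interval of the angles of products of two units with the angles `a`, `ψ` in `(0, π)` -/
theorem Rg_step {a ψ : ℝ} (ha : 0 < a ∧ a < Real.pi) (h0 : 0 < ψ) (h1 : ψ < Real.pi) :
    ∃ u v : ℝ, u < v ∧ 0 ≤ u ∧ v ≤ Real.pi ∧ Tri a ψ u ∧ Tri a ψ v := by
  obtain ⟨ha0, ha1⟩ := ha
  rcases le_total a ψ with h | h <;> rcases le_total (a + ψ) Real.pi with h' | h'
  · refine ⟨ψ - a, a + ψ, by linarith, by linarith, h', ⟨?_, ?_, ?_, ?_⟩, ⟨?_, ?_, ?_, ?_⟩⟩ <;>
      linarith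
  · refine ⟨ψ - a, 2 * Real.pi - (a + ψ), by linarith, by linarith, by linarith,
      ⟨?_, ?_, ?_, ?_⟩, ⟨?_, ?_, ?_, ?_⟩⟩ <;> linarith
  · refine ⟨a - ψ, a + ψ, by linarith, by linarith, h', ⟨?_, ?_, ?_, ?_⟩, ⟨?_, ?_, ?_, ?_⟩⟩ <;>
      linarith
  · refine ⟨a - ψ, 2 * Real.pi - (a + ψ), by linarith, by linarith, by linarith,
      ⟨?_, ?_, ?_, ?_⟩, ⟨?_, ?_, ?_, ?_⟩⟩ <;> linarith

/-- for a nonempty list of angles in `(0, π)` the set `Rg l` contains an angle in `(0, π)` -/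
theorem Rg_exists_mid {l : List ℝ} (hl : ∀ a ∈ l, 0 < a ∧ a < Real.pi) (hne : l ≠ []) :
    ∃ φ ∈ Rg l, 0 < φ ∧ φ < Real.pi := by
  induction l with
  | nil => exact absurd rfl hne
  | cons a l ih =>
    have ha := hl a List.mem_cons_self
    by_cases hl0 : l = []
    · subst hl0
      refine ⟨a, ⟨ha.1.le, ha.2.le, 0, rfl, ?_, ?_, ?_, ?_⟩, ha⟩ <;> linarith [ha.1, ha.2]
    · obtain ⟨ψ, hψ, h0, h1⟩ := ih (fun b hb => hl b (List.mem_cons_of_mem _ hb)) hl0
      obtain ⟨u, v, huv, hu0, hvπ, hu, hv⟩ := Rg_step ha h0 h1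
      have hmid := Rg_convex (l := a :: l) (φ := (u + v) / 2)
        ⟨hu0, by linarith, ψ, hψ, hu⟩ ⟨by linarith, hvπ, ψ, hψ, hv⟩ (by linarith) (by linarith)
      exact ⟨(u + v) / 2, hmid, by linarith, by linarith⟩

/-- for at least two angles in `(0, π)` the set `Rg l` is not a point -/
theorem Rg_nondeg {l : List ℝ} (hl : ∀ a ∈ l, 0 < a ∧ a < Real.pi) (h2 : 2 ≤ l.length) :
    ∃ φ₁ ∈ Rg l, ∃ φ₂ ∈ Rg l, φ₁ < φ₂ := by
  cases l with
  | nil => simp at h2
  | cons a l =>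
    have ha := hl a List.mem_cons_self
    have hl0 : l ≠ [] := by
      rintro rfl
      simp at h2
    obtain ⟨ψ, hψ, h0, h1⟩ :=
      Rg_exists_mid (fun b hb => hl b (List.mem_cons_of_mem _ hb)) hl0
    obtain ⟨u, v, huv, hu0, hvπ, hu, hv⟩ := Rg_step ha h0 h1
    exact ⟨u, ⟨hu0, by linarith, ψ, hψ, hu⟩, v, ⟨by linarith, hvπ, ψ, hψ, hv⟩, huv⟩

end Pool.Agent.W24dbe6
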