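import Pool.Agent.W_MP_24dbe6_h58.Rg
import Pool.Agent.W_MP_24dbe6_h58.GeoConj

set_option autoImplicit false

/-!
Interior points of `Rg l`.
-/

namespace Pool.Agent.W24dbe6

open Quaternion

/-- a convex combination of an interior point and a point is interior -/
theorem RgB_comb {l : List ℝ} {ψ ψ' s : ℝ} (h : RgI l ψ) (h' : ψ' ∈ Rg l) (h0 : 0 ≤ s)
    (h1 : s < 1) : RgI l ((1 - s) * ψ + s * ψ') := by
  obtain ⟨a, ha, b, hb, hlt, hgt⟩ := h
  have key : ∀ x ∈ Rg l, (1 - s) * x + s * ψ' ∈ Rg l := by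
    intro x hx
    rcases le_total x ψ' with hxy | hxy
    · exact Rg_convex hx h' (by nlinarith) (by nlinarith)
    · exact Rg_convex h' hx (by nlinarith) (by nlinarith)
  refine ⟨_, key a ha, _, key b hb, ?_, ?_⟩ <;> nlinarith

/-- a convex combination of a strict triple and a triple is strict -/
theorem RgB_comb_stri {a ψ φ ψ' φ' s : ℝ} (h : STri a ψ φ) (h' : Tri a ψ' φ') (h0 : 0 ≤ s)
    (h1 : s < 1) : STri a ((1 - s) * ψ + s * ψ') ((1 - s) * φ + s * φ') := by
  obtain ⟨p1, p2, p3, p4⟩ := h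
  obtain ⟨q1, q2, q3, q4⟩ := h'
  have e : 0 < 1 - s := by linarith
  refine ⟨?_, ?_, ?_, ?_⟩
  · nlinarith [mul_lt_mul_of_pos_left p1 e, mul_le_mul_of_nonneg_left q1 h0]
  · nlinarith [mul_lt_mul_of_pos_left p2 e, mul_le_mul_of_nonneg_left q2 h0]
  · nlinarith [mul_lt_mul_of_pos_left p3 e, mul_le_mul_of_nonneg_left q3 h0]
  · nlinarith [mul_lt_mul_of_pos_left p4 e, mul_le_mul_of_nonneg_left q4 h0]

/-- If `φ₀` is strictly between two elements of `Rg (a :: l)`, `l` of length at least two, then it is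
reached from an interior point of `Rg l` with strict triangle inequalities.
Proof: take `ψ'` strictly between two elements of `Rg l` with `0 < ψ' < π` (`Rg_nondeg`; if the two
elements are `ψ₁ < ψ₂` the midpoint works) and `φ'` with `STri a ψ' φ'` (an open interval of values).
If `φ' = φ₀` done.  If `φ' < φ₀` take `φ₂ > φ₀` in `Rg (a :: l)` with witness `ψ₂` and the convex
combination of `(φ', ψ')` and `(φ₂, ψ₂)` with first coordinate `φ₀`: all inequalities are strict. -/
theorem Rg_between {a : ℝ} {l : List ℝ} (ha : 0 < a ∧ a < Real.pi)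
    (hl : ∀ b ∈ l, 0 < b ∧ b < Real.pi) (h2 : 2 ≤ l.length) {φ₀ : ℝ} (h : RgI (a :: l) φ₀) :
    ∃ ψ₀, STri a ψ₀ φ₀ ∧ RgI l ψ₀ := by
  obtain ⟨ψ₁, hψ₁, ψ₂, hψ₂, hlt⟩ := Rg_nondeg hl h2
  have m1 := Rg_mem_Icc hψ₁
  have m2 := Rg_mem_Icc hψ₂
  obtain ⟨ψ', hψ'⟩ : ∃ ψ' : ℝ, ψ' = (ψ₁ + ψ₂) / 2 := ⟨_, rfl⟩
  have c1 : ψ₁ < ψ' := by rw [hψ']; linarith
  have c2 : ψ' < ψ₂ := by rw [hψ']; linarith
  have hI : RgI l ψ' := ⟨ψ₁, hψ₁, ψ₂, hψ₂, c1, c2⟩
  have p0 : 0 < ψ' := by linarith [m1.1]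
  have p1 : ψ' < Real.pi := by linarith [m2.2]
  -- an angle with strict triangle inequalities
  obtain ⟨φ', hφ'⟩ : ∃ φ', STri a ψ' φ' := by
    have h1 : max (a - ψ') (ψ' - a) < min (a + ψ') (2 * Real.pi - a - ψ') := by
      rw [max_lt_iff]
      constructor <;> rw [lt_min_iff] <;> constructor <;> linarith [ha.1, ha.2]
    obtain ⟨φ', q1, q2⟩ := exists_between h1
    rw [max_lt_iff] at q1
    rw [lt_min_iff] at q2
    exact ⟨φ', by linarith [q1.1], by linarith [q1.2], by linarith [q2.1], by linarith [q2.2]⟩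
  -- the combination with an element on the other side of `φ₀`
  have key : ∀ φ₂, φ₂ ∈ Rg (a :: l) → ∀ s : ℝ, 0 ≤ s → s < 1 → φ₀ = (1 - s) * φ' + s * φ₂ →
      ∃ ψ₀, STri a ψ₀ φ₀ ∧ RgI l ψ₀ := by
    intro φ₂ hφ₂ s s0 s1 he
    obtain ⟨-, -, ψ, hψ, hT⟩ := hφ₂
    exact ⟨_, he ▸ RgB_comb_stri hφ' hT s0 s1, RgB_comb hI hψ s0 s1⟩
  obtain ⟨φ₁, hφ₁, φ₂, hφ₂, g1, g2⟩ := h
  rcases lt_trichotomy φ' φ₀ with h3 | h3 | h3
  · have hd : 0 < φ₂ - φ' := by linarith
    refine key φ₂ hφ₂ ((φ₀ - φ') / (φ₂ - φ')) (div_nonneg (by linarith) hd.le)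
      ((div_lt_one hd).2 (by linarith)) ?_
    field_simp
    ring
  · exact ⟨ψ', h3 ▸ hφ', hI⟩
  · have hd : 0 < φ' - φ₁ := by linarith
    refine key φ₁ hφ₁ ((φ' - φ₀) / (φ' - φ₁)) (div_nonneg (by linarith) hd.le)
      ((div_lt_one hd).2 (by linarith)) ?_
    field_simp
    ring

/-- elements of `Rg [b]` -/
theorem RgB_single {b φ : ℝ} (h : φ ∈ Rg [b]) : φ = b := by
  obtain ⟨-, -, ψ, hψ, hT⟩ := h
  have h0 : ψ = 0 := hψ
  obtain ⟨t1, t2, t3, t4⟩ := hT
  rw [h0] at t1 t3
  linarith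

/-- an element which commutes with all entries commutes with the product -/
theorem RgB_commute_prod {x : H} {xs : List H} (h : ∀ y ∈ xs, Commute x y) : Commute x xs.prod := by
  induction xs with
  | nil => exact Commute.one_right x
  | cons y ys ih =>
    rw [List.prod_cons]
    exact (h y List.mem_cons_self).mul_right (ih fun z hz => h z (List.mem_cons_of_mem _ hz))

/-- the angle of a unit with real part `cos a` -/
theorem RgB_ang {x : H} {a : ℝ} (ha : 0 ≤ a ∧ a ≤ Real.pi) (h : x.re = Real.cos a) : ang x = a := by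
  unfold ang
  rw [h, Real.arccos_cos ha.1 ha.2]

/-- interior angles are realised by non-abelian lists with prescribed product.
Length 2: strictness gives `STri`.  Length at least 3: `Rg_between`. -/
theorem exists_of_RgI {l : List ℝ} (hl : ∀ a ∈ l, 0 < a ∧ a < Real.pi) (h2 : 2 ≤ l.length) {P : H}
    (hP : U P) (h : RgI l (ang P)) : ∃ xs : List H, Has xs l ∧ xs.prod = P ∧ NAl xs := by
  match l, h2 with
  | [a, b], _ =>
    obtain ⟨φ₁, ⟨-, -, ψ₁, hψ₁, t1⟩, φ₂, ⟨-, -, ψ₂, hψ₂, t2⟩, g1, g2⟩ := h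
    rw [RgB_single hψ₁] at t1
    rw [RgB_single hψ₂] at t2
    have hS : STri a b (ang P) := by
      obtain ⟨u1, u2, u3, u4⟩ := t1
      obtain ⟨v1, v2, v3, v4⟩ := t2
      exact ⟨by linarith, by linarith, by linarith, by linarith⟩
    have ha := hl a (by simp)
    have hb := hl b (by simp)
    obtain ⟨x, y, hx, hy, hxa, hyb, hxy⟩ := exists_mul hP ⟨ha.1.le, ha.2.le⟩ ⟨hb.1.le, hb.2.le⟩
      ⟨hS.1.le, hS.2.1.le, hS.2.2.1.le, hS.2.2.2.le⟩
    refine ⟨[x, y], ?_, by simpa using hxy, x, by simp, y, by simp, ?_⟩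
    · exact List.Forall₂.cons ⟨hx, hxa⟩ (List.Forall₂.cons ⟨hy, hyb⟩ List.Forall₂.nil)
    · apply not_comm_of_stri hx hy
      rw [hxy, RgB_ang ⟨ha.1.le, ha.2.le⟩ hxa, RgB_ang ⟨hb.1.le, hb.2.le⟩ hyb]
      exact hS
  | a :: b :: c :: l, _ =>
    have ha := hl a (by simp)
    have hl' : ∀ e ∈ b :: c :: l, 0 < e ∧ e < Real.pi := fun e he => hl e (List.mem_cons_of_mem _ he)
    obtain ⟨ψ₀, hS, hI⟩ := Rg_between ha hl' (by simp) h
    have hψ : ψ₀ ∈ Rg (b :: c :: l) := by
      obtain ⟨φ₁, h1, φ₂, h2, g1, g2⟩ := hI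
      exact Rg_convex h1 h2 g1.le g2.le
    have hm := Rg_mem_Icc hψ
    obtain ⟨x, y, hx, hy, hxa, hyb, hxy⟩ := exists_mul hP ⟨ha.1.le, ha.2.le⟩ hm
      ⟨hS.1.le, hS.2.1.le, hS.2.2.1.le, hS.2.2.2.le⟩
    obtain ⟨ys, hys, hprod⟩ := exists_of_Rg (l := b :: c :: l) (P := y)
      (fun e he => ⟨(hl' e he).1.le, (hl' e he).2.le⟩) hy (by rw [RgB_ang hm hyb]; exact hψ)
    have hnc : ¬ Commute x y := by
      apply not_comm_of_stri hx hy
      rw [hxy, RgB_ang ⟨ha.1.le, ha.2.le⟩ hxa, RgB_ang hm hyb]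
      exact hS
    refine ⟨x :: ys, List.Forall₂.cons ⟨hx, hxa⟩ hys, by rw [List.prod_cons, hprod, hxy], ?_⟩
    by_contra hc
    apply hnc
    rw [← hprod]
    apply RgB_commute_prod
    intro z hz
    by_contra hcz
    exact hc ⟨x, List.mem_cons_self, z, List.mem_cons_of_mem _ hz, hcz⟩

/-- the product of units is a unit -/
theorem RgB_U_prod {xs : List H} (h : ∀ x ∈ xs, U x) : U xs.prod := by
  induction xs with
  | nil => exact U_one
  | cons y ys ih =>
    rw [List.prod_cons]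
    exact U_mul (h y List.mem_cons_self) (ih fun z hz => h z (List.mem_cons_of_mem _ hz))

/-- the entries of a list with prescribed angles are units -/
theorem RgB_unit {xs : List H} {l : List ℝ} (h : Has xs l) : ∀ x ∈ xs, U x := by
  induction h with
  | nil => simp
  | cons h1 _ ih =>
    intro x hx
    rcases List.mem_cons.1 hx with h2 | h2
    · rw [h2]; exact h1.1
    · exact ih x h2

/-- conjugating two parts of a list keeps the angles -/
theorem RgB_has_conj {g h : H} (hg : U g) (hh : U h) :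
    ∀ {A B : List H} {l : List ℝ}, Has (A ++ B) l → Has (A.map (cj g) ++ B.map (cj h)) l := by
  have hB : ∀ {B : List H} {l : List ℝ}, Has B l → Has (B.map (cj h)) l := by
    intro B l hB
    induction hB with
    | nil => exact List.Forall₂.nil
    | cons h1 _ ih => exact List.Forall₂.cons ⟨U_cj hh h1.1, by rw [cj_re hh]; exact h1.2⟩ ih
  intro A
  induction A with
  | nil => intro B l h; exact hB h
  | cons a A ih =>
    intro B l h
    cases h with
    | cons h1 h2 => exact List.Forall₂.cons ⟨U_cj hg h1.1, by rw [cj_re hg]; exact h1.2⟩ (ih h2)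

/-- the product of a conjugated list -/
theorem RgB_prod_map {g : H} (hg : U g) (A : List H) : (A.map (cj g)).prod = cj g A.prod := by
  induction A with
  | nil => simp [cj_one_right hg]
  | cons a A ih => rw [List.map_cons, List.prod_cons, List.prod_cons, cj_mul hg, ih]

/-- if all partial products commute with `P`, so do all entries -/
theorem RgB_entries {P : H} : ∀ (xs : List H) (X : H), U X → (∀ x ∈ xs, U x) → Commute X P →
    (∀ A B, xs = A ++ B → Commute (X * A.prod) P) → ∀ x ∈ xs, Commute x P := by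
  intro xs
  induction xs with
  | nil => intro X _ _ _ _ x hx; simp at hx
  | cons a xs ih =>
    intro X hX hU hXP h x hx
    have ha := hU a List.mem_cons_self
    have h1 : Commute (X * a) P := by
      have := h [a] xs rfl
      simpa using this
    have h2 : Commute a P := by
      have h3 : a = star X * (X * a) := by rw [← mul_assoc, U_star_mul hX, one_mul]
      rw [h3]
      exact ((commute_star hX).2 hXP).mul_left h1
    rcases List.mem_cons.1 hx with h4 | h4
    · rw [h4]; exact h2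
    · refine ih (X * a) (U_mul hX ha) (fun z hz => hU z (List.mem_cons_of_mem _ hz)) h1 ?_ x h4
      intro A B hAB
      have := h (a :: A) B (by rw [hAB]; rfl)
      rw [List.prod_cons, ← mul_assoc] at this
      exact this

/-- a unit of a given angle -/
theorem RgB_exists_ang {φ : ℝ} (h : 0 ≤ φ ∧ φ ≤ Real.pi) : ∃ P : H, U P ∧ ang P = φ := by
  obtain ⟨P, hP⟩ : ∃ P : H, P = ⟨Real.cos φ, Real.sin φ, 0, 0⟩ := ⟨_, rfl⟩
  have hre : P.re = Real.cos φ := by rw [hP]
  refine ⟨P, ?_, RgB_ang h hre⟩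
  have h1 : Quaternion.normSq P = 1 := by
    rw [Quaternion.normSq_def', hP]
    simp only
    linarith [Real.sin_sq_add_cos_sq φ]
  rw [Quaternion.normSq_eq_norm_mul_self] at h1
  show ‖P‖ = 1
  nlinarith [norm_nonneg P]

/-- a non-abelian list with non-central product has room on both sides.
Proof: for some splitting `xs = A ++ B` the products `X, Y` do not commute (otherwise every partial
product commutes with the total product `P`, so all entries commute with `P`, which is
non-central).  `STri (ang X) (ang Y) (ang P)`; for `φ` near `ang P` take `P'` of angle `φ` and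
`X' Y' = P'` with the same angles (`exists_mul`), `X' = cj g X`, `Y' = cj h Y` (`conj_of_re`): the list
`A.map (cj g) ++ B.map (cj h)` has product `P'`. -/
theorem RgI_of_NAl {xs : List H} {l : List ℝ} (h : Has xs l) (hl : ∀ a ∈ l, 0 < a ∧ a < Real.pi)
    (hna : NAl xs) (hn : NC xs.prod) : RgI l (ang xs.prod) := by
  have hU := RgB_unit h
  obtain ⟨A, B, hAB, hc⟩ : ∃ A B : List H, xs = A ++ B ∧ ¬ Commute A.prod B.prod := by
    by_contra hcon
    push Not at hcon
    obtain ⟨x, hx, y, hy, hxy⟩ := hna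
    have h1 : ∀ z ∈ xs, Commute z xs.prod := by
      refine RgB_entries xs 1 U_one hU (Commute.one_left _) ?_
      intro A B hAB
      have h2 := hcon A B hAB
      have h3 : xs.prod = A.prod * B.prod := by rw [hAB, List.prod_append]
      rw [one_mul, h3]
      exact (Commute.refl A.prod).mul_right h2
    exact hxy (comm_trans hn (h1 x hx) (h1 y hy).symm)
  have hUA : U A.prod := RgB_U_prod fun z hz => hU z (by rw [hAB]; exact List.mem_append_left _ hz)
  have hUB : U B.prod := RgB_U_prod fun z hz => hU z (by rw [hAB]; exact List.mem_append_right _ hz)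
  have hP : xs.prod = A.prod * B.prod := by rw [hAB, List.prod_append]
  have hS := stri_of_mul hUA hUB hc
  rw [← hP] at hS
  have hUP : U xs.prod := RgB_U_prod hU
  have hang := (NC_iff_ang hUP).1 hn
  -- all nearby angles are realised
  have key : ∀ φ, 0 ≤ φ ∧ φ ≤ Real.pi → Tri (ang A.prod) (ang B.prod) φ → φ ∈ Rg l := by
    intro φ hφ hT
    obtain ⟨P', hP', hφ'⟩ := RgB_exists_ang hφ
    obtain ⟨X, Y, hX, hY, hXa, hYb, hXY⟩ := exists_mul hP' (ang_mem A.prod) (ang_mem B.prod)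
      (by rw [hφ']; exact hT)
    obtain ⟨g, hg, hgX⟩ := conj_of_re hUA hX (by rw [hXa, U_cos_ang hUA])
    obtain ⟨k, hk, hkY⟩ := conj_of_re hUB hY (by rw [hYb, U_cos_ang hUB])
    have h1 : Has (A.map (cj g) ++ B.map (cj k)) l := RgB_has_conj hg hk (hAB ▸ h)
    have h2 := Rg_of_has h1 (fun a ha => ⟨(hl a ha).1.le, (hl a ha).2.le⟩)
    rw [List.prod_append, RgB_prod_map hg, RgB_prod_map hk, hgX, hkY, hXY, hφ'] at h2
    exact h2
  obtain ⟨s1, s2, s3, s4⟩ := hS
  obtain ⟨ε, h0, e1⟩ : ∃ ε : ℝ, 0 < ε ∧ ε < min (min (min (ang B.prod + ang xs.prod - ang A.prod)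
      (ang A.prod + ang xs.prod - ang B.prod)) (min (ang A.prod + ang B.prod - ang xs.prod)
      (2 * Real.pi - (ang A.prod + ang B.prod + ang xs.prod))))
      (min (ang xs.prod) (Real.pi - ang xs.prod)) := by
    apply exists_between
    simp only [lt_min_iff]
    exact ⟨⟨⟨by linarith, by linarith⟩, by linarith, by linarith⟩, hang.1, by linarith [hang.2]⟩
  simp only [lt_min_iff] at e1
  obtain ⟨⟨⟨e1, e2⟩, e3, e4⟩, e5, e6⟩ := e1
  refine ⟨ang xs.prod - ε, key _ ⟨by linarith, by linarith [hang.2]⟩ ?_, ang xs.prod + ε,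
    key _ ⟨by linarith [hang.1], by linarith⟩ ?_, by linarith, by linarith⟩
  · exact ⟨by linarith, by linarith, by linarith, by linarith⟩
  · exact ⟨by linarith, by linarith, by linarith, by linarith⟩

end Pool.Agent.W24dbe6
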