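import Pool.Agent.W_MP_24dbe6_h58.AbA
import Pool.Agent.W_MP_24dbe6_h58.AbD
import Pool.Agent.W_MP_24dbe6_h58.DefsB

set_option autoImplicit false

/-!
Rigidity of abelian lists with extremal sum of angles.
-/

namespace Pool.Agent.W24dbe6

open Quaternion

theorem rigA_U_neg {x : H} (hx : U x) : U (-x) := by
  show ‖-x‖ = 1
  rw [norm_neg]
  exact hx

theorem rigA_ang {x : H} {a : ℝ} (h : x.re = Real.cos a) (ha : 0 < a ∧ a < Real.pi) :
    ang x = a := by
  unfold ang
  rw [h, Real.arccos_cos ha.1.le ha.2.le]

theorem rigA_E_neg_arg (u : H) (a : ℝ) : E (-u) a = E u (-a) := by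
  unfold E
  rw [Real.cos_neg, Real.sin_neg, Quaternion.coe_neg]
  simp

/-- a unit commuting with the axis is determined by its real part up to the sign of the angle -/
theorem rigA_sign {u y : H} (hu : U u) (hr : u.re = 0) (hy : U y) (hc : Commute y u) {b : ℝ}
    (hb : y.re = Real.cos b) : y = E u b ∨ y = E u (-b) := by
  obtain ⟨t, rfl⟩ := exists_E hu hr hy hc
  rw [E_re hr] at hb
  have h1 := Real.sin_sq_add_cos_sq t
  have h2 := Real.sin_sq_add_cos_sq b
  rw [hb] at h1
  have h3 : Real.sin t = Real.sin b ∨ Real.sin t = -Real.sin b := by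
    rw [← sq_eq_sq_iff_eq_or_eq_neg]
    linarith
  rcases h3 with h3 | h3
  · left; unfold E; rw [hb, h3]
  · right; unfold E; rw [hb, h3, Real.cos_neg, Real.sin_neg]

/-- the structure of commuting lists -/
theorem rigA_list {u : H} (hu : U u) (hr : u.re = 0) {xs : List H} {l : List ℝ} (h : Has xs l)
    (hl : ∀ a ∈ l, 0 < a ∧ a < Real.pi) (hc : ∀ x ∈ xs, Commute x u) :
    ∃ s : ℝ, |s| ≤ l.sum ∧ xs.prod = E u s ∧ (s = l.sum → xs = l.map (E u)) ∧
      (s = -l.sum → xs = l.map (E (-u))) := by
  unfold Has at h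
  induction h with
  | nil => exact ⟨0, by simp, by simp [E_zero], by simp, by simp⟩
  | @cons x a xs l hxa h ih =>
    obtain ⟨s, h1, h2, h3, h4⟩ := ih (fun b hb => hl b (List.mem_cons_of_mem _ hb))
      (fun y hy => hc y (List.mem_cons_of_mem _ hy))
    have ha := hl a List.mem_cons_self
    rw [abs_le] at h1
    rcases rigA_sign hu hr hxa.1 (hc x List.mem_cons_self) hxa.2 with hx | hx
    · refine ⟨a + s, ?_, ?_, ?_, ?_⟩
      · rw [List.sum_cons, abs_le]; constructor <;> linarith
      · rw [List.prod_cons, h2, hx, E_add hu hr]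
      · intro h5
        rw [List.sum_cons] at h5
        rw [List.map_cons, ← h3 (by linarith), ← hx]
      · intro h5
        rw [List.sum_cons] at h5
        exfalso
        linarith
    · refine ⟨-a + s, ?_, ?_, ?_, ?_⟩
      · rw [List.sum_cons, abs_le]; constructor <;> linarith
      · rw [List.prod_cons, h2, hx, E_add hu hr]
      · intro h5
        rw [List.sum_cons] at h5
        exfalso
        linarith
      · intro h5
        rw [List.sum_cons] at h5
        rw [List.map_cons, ← h4 (by linarith), rigA_E_neg_arg, ← hx]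

theorem rigA_map_ang {xs : List H} {l : List ℝ} (h : Has xs l)
    (hl : ∀ a ∈ l, 0 < a ∧ a < Real.pi) : xs.map ang = l ∧ ∀ x ∈ xs, U x ∧ NC x := by
  unfold Has at h
  induction h with
  | nil => simp
  | @cons x a xs l hxa h ih =>
    obtain ⟨h1, h2⟩ := ih (fun b hb => hl b (List.mem_cons_of_mem _ hb))
    have ha := hl a List.mem_cons_self
    have h3 := rigA_ang hxa.2 ha
    refine ⟨by rw [List.map_cons, h1, h3], ?_⟩
    intro y hy
    rcases List.mem_cons.1 hy with rfl | hy
    · exact ⟨hxa.1, by rw [NC_iff_ang hxa.1, h3]; exact ha⟩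
    · exact h2 y hy

/-- `comm_of_ang_sum` shows that all entries commute (`ang (-1) = π`); so (`exists_axis`, `exists_E`) they
are `E v (± a_i)` with a common `v`; the product is `-1`, so `Σ ± a_i ≡ π` mod `2 π` with
`Σ a_i = π`: the sum over the minus signs is `0` or `π`, i.e. no minus sign or all signs are minus
(then replace `v` by `-v`). -/
theorem rigid_one {xs : List H} {l : List ℝ} (h : Has xs l)
    (hl : ∀ a ∈ l, 0 < a ∧ a < Real.pi) (hs : l.sum = Real.pi) (hp : xs.prod = -1) :
    ∃ v : H, U v ∧ v.re = 0 ∧ xs = l.map (E v) := by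
  have hpi := Real.pi_pos
  obtain ⟨hm, hU⟩ := rigA_map_ang h hl
  have hna : ¬ NAl xs := by
    apply comm_of_ang_sum hU (by rw [hm, hs])
    rw [hp, hm, hs]
    unfold ang
    simp
  have hne : xs ≠ [] := by
    rintro rfl
    have : l = [] := by simpa using hm.symm
    rw [this, List.sum_nil] at hs
    linarith
  obtain ⟨x, hx⟩ := List.exists_mem_of_ne_nil _ hne
  obtain ⟨u, hu, hr, hc, -⟩ := exists_axis (hU x hx).2
  have hcu : ∀ y ∈ xs, Commute y u := by
    intro y hy
    have h1 : Commute y x := by
      by_contra h2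
      exact hna ⟨y, hy, x, hx, h2⟩
    exact (hc y).1 h1
  obtain ⟨s, h1, h2, h3, h4⟩ := rigA_list hu hr h hl hcu
  rw [hs, abs_le] at h1
  have h5 : Real.cos s = -1 := by
    have := congrArg (fun z : H => z.re) (h2.symm.trans hp)
    simpa [E_re hr] using this
  have h6 : s = Real.pi ∨ s = -Real.pi := by
    rcases le_total 0 s with h0 | h0
    · left
      exact Real.injOn_cos ⟨h0, h1.2⟩ ⟨hpi.le, le_rfl⟩ (by rw [h5, Real.cos_pi])
    · right
      have h7 : -s = Real.pi := Real.injOn_cos ⟨by linarith, by linarith⟩ ⟨hpi.le, le_rfl⟩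
        (by rw [Real.cos_neg, h5, Real.cos_pi])
      linarith
  rcases h6 with h6 | h6
  · exact ⟨u, hu, hr, h3 (by rw [h6, hs])⟩
  · exact ⟨-u, rigA_U_neg hu, by simp [hr], h4 (by rw [h6, hs])⟩

theorem rigA_E_star {u : H} (hr : u.re = 0) (a : ℝ) : -star (E u (Real.pi - a)) = E u a := by
  ext <;> simp [E, hr, Real.cos_pi_sub, Real.sin_pi_sub, mul_comm]

theorem rigA_prod (xs : List H) :
    ((xs.map (fun x => -star x)).reverse).prod = (-1) ^ xs.length * star xs.prod := by
  induction xs with
  | nil => simp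
  | cons x xs ih =>
    have h1 : (x :: xs).prod = x * xs.prod := List.prod_cons
    rw [List.map_cons, List.reverse_cons, List.prod_append, ih, List.prod_singleton, h1,
      List.length_cons, star_mul, pow_succ]
    simp [mul_assoc]

theorem rigA_has {xs : List H} {l : List ℝ} (h : Has xs l) :
    Has (xs.map (fun x => -star x)) (l.map (fun a => Real.pi - a)) := by
  unfold Has at *
  rw [List.forall₂_map_left_iff, List.forall₂_map_right_iff]
  refine h.imp ?_
  rintro x a ⟨h1, h2⟩
  refine ⟨rigA_U_neg (U_star h1), ?_⟩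
  simp [h2, Real.cos_pi_sub]

theorem rigA_sum (l : List ℝ) : (l.map (fun a => Real.pi - a)).sum =
    (l.length : ℝ) * Real.pi - l.sum := by
  induction l with
  | nil => simp
  | cons a l ih =>
    rw [List.map_cons, List.sum_cons, ih, List.sum_cons, List.length_cons]
    push_cast
    ring

/-- apply `rigid_one` to the reversed list of the elements `-star x`, which have the angles `π - a` -/
theorem rigid_last {xs : List H} {l : List ℝ} (h : Has xs l)
    (hl : ∀ a ∈ l, 0 < a ∧ a < Real.pi) (hne : l ≠ [])
    (hs : l.sum = ((l.length : ℝ) - 1) * Real.pi)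
    (hp : xs.prod = (-1) ^ (l.length - 1)) :
    ∃ v : H, U v ∧ v.re = 0 ∧ xs = l.map (E v) := by
  have hlen : xs.length = l.length := List.Forall₂.length_eq h
  obtain ⟨m, hm⟩ : ∃ m, l.length = m + 1 :=
    ⟨l.length - 1, by have := List.length_pos_of_ne_nil hne; omega⟩
  have h1 : Has ((xs.map (fun x => -star x)).reverse) ((l.map (fun a => Real.pi - a)).reverse) := by
    have := rigA_has h
    unfold Has at *
    exact List.rel_reverse this
  obtain ⟨v, hv, hvr, hxs⟩ := rigid_one h1 (by
      intro a ha
      rw [List.mem_reverse, List.mem_map] at ha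
      obtain ⟨b, hb, rfl⟩ := ha
      have := hl b hb
      exact ⟨by linarith [this.2], by linarith [this.1]⟩)
    (by rw [List.sum_reverse, rigA_sum, hs]; ring)
    (by
      rw [rigA_prod, hp, hlen, hm, Nat.add_sub_cancel, star_pow, star_neg, star_one, ← pow_add]
      exact Odd.neg_one_pow ⟨m, by ring⟩)
  refine ⟨v, hv, hvr, ?_⟩
  have h2 : (xs.map (fun x => -star x)) = l.map (fun a => E v (Real.pi - a)) := by
    have h3 := congrArg List.reverse hxs
    rw [List.reverse_reverse, ← List.map_reverse, List.reverse_reverse, List.map_map] at h3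
    exact h3
  have h4 := congrArg (List.map (fun x : H => -star x)) h2
  rw [List.map_map, List.map_map] at h4
  have h5 : ((fun x : H => -star x) ∘ fun x : H => -star x) = id := by
    funext x
    simp
  rw [h5, List.map_id] at h4
  rw [h4]
  apply List.map_congr_left
  intro a _
  exact rigA_E_star hvr a

end Pool.Agent.W24dbe6
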