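import Pool.Agent.W_MP_24dbe6_h58.Statement
import Pool.Agent.W_MP_24dbe6_h58.GeoConj
import Pool.Agent.W_MP_24dbe6_h58.BasicL

set_option autoImplicit false

/-!
`SU(2)` and unit quaternions: the matrix `((a, b), (-b̄, ā))` corresponds to `a + b j`.
-/

namespace Pool.Agent.W24dbe6

open Quaternion

/-- the quaternion `a + b j` of the matrix `((a, b), (-b̄, ā))` -/
noncomputable def toH (A : SU2) : H :=
  ⟨((A : Matrix (Fin 2) (Fin 2) ℂ) 0 0).re, ((A : Matrix (Fin 2) (Fin 2) ℂ) 0 0).im,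
    ((A : Matrix (Fin 2) (Fin 2) ℂ) 0 1).re, ((A : Matrix (Fin 2) (Fin 2) ℂ) 0 1).im⟩

theorem SU2_mul_star (A : SU2) : (A : Matrix (Fin 2) (Fin 2) ℂ) *
    star (A : Matrix (Fin 2) (Fin 2) ℂ) = 1 :=
  Matrix.mem_unitaryGroup_iff.1 (Matrix.mem_specialUnitaryGroup_iff.1 A.2).1

theorem SU2_det (A : SU2) : (A : Matrix (Fin 2) (Fin 2) ℂ).det = 1 :=
  (Matrix.mem_specialUnitaryGroup_iff.1 A.2).2

theorem SU2_star_eq (A : SU2) : star (A : Matrix (Fin 2) (Fin 2) ℂ) =
    Matrix.adjugate (A : Matrix (Fin 2) (Fin 2) ℂ) := by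
  have h1 := SU2_mul_star A
  have h2 : Matrix.adjugate (A : Matrix (Fin 2) (Fin 2) ℂ) *
      (A : Matrix (Fin 2) (Fin 2) ℂ) = 1 := by
    rw [Matrix.adjugate_mul, SU2_det, one_smul]
  calc star (A : Matrix (Fin 2) (Fin 2) ℂ)
      = (Matrix.adjugate (A : Matrix (Fin 2) (Fin 2) ℂ) * (A : Matrix (Fin 2) (Fin 2) ℂ)) *
          star (A : Matrix (Fin 2) (Fin 2) ℂ) := by rw [h2, one_mul]
    _ = _ := by rw [mul_assoc, h1, mul_one]

/-- the shape of the matrices in `SU(2)` -/
theorem su2_form (A : SU2) : (A : Matrix (Fin 2) (Fin 2) ℂ) 1 0 =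
      -star ((A : Matrix (Fin 2) (Fin 2) ℂ) 0 1) ∧
    (A : Matrix (Fin 2) (Fin 2) ℂ) 1 1 = star ((A : Matrix (Fin 2) (Fin 2) ℂ) 0 0) := by
  have h := SU2_star_eq A
  rw [Matrix.adjugate_fin_two] at h
  have h00 := congrFun (congrFun h 0) 0
  have h10 := congrFun (congrFun h 1) 0
  rw [Matrix.star_apply] at h00 h10
  simp only [Matrix.of_apply, Matrix.cons_val', Matrix.cons_val_zero, Matrix.cons_val_one,
    Matrix.cons_val_fin_one] at h00 h10
  refine ⟨?_, h00.symm⟩
  rw [h10, neg_neg]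

theorem SU2_norm (A : SU2) : ((A : Matrix (Fin 2) (Fin 2) ℂ) 0 0).re ^ 2 +
    ((A : Matrix (Fin 2) (Fin 2) ℂ) 0 0).im ^ 2 + ((A : Matrix (Fin 2) (Fin 2) ℂ) 0 1).re ^ 2 +
    ((A : Matrix (Fin 2) (Fin 2) ℂ) 0 1).im ^ 2 = 1 := by
  have h := congrFun (congrFun (SU2_mul_star A) 0) 0
  rw [Matrix.mul_apply, Fin.sum_univ_two, Matrix.star_apply, Matrix.star_apply,
    Matrix.one_apply_eq] at h
  have h1 := congrArg Complex.re h
  simp only [Complex.add_re, Complex.mul_re, Complex.star_def, Complex.conj_re, Complex.conj_im,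
    Complex.one_re] at h1
  linarith

theorem SU2_re (A : SU2) : (toH A).re = ((A : Matrix (Fin 2) (Fin 2) ℂ) 0 0).re := rfl

theorem SU2_imI (A : SU2) : (toH A).imI = ((A : Matrix (Fin 2) (Fin 2) ℂ) 0 0).im := rfl

theorem SU2_imJ (A : SU2) : (toH A).imJ = ((A : Matrix (Fin 2) (Fin 2) ℂ) 0 1).re := rfl

theorem SU2_imK (A : SU2) : (toH A).imK = ((A : Matrix (Fin 2) (Fin 2) ℂ) 0 1).im := rfl

theorem toH_one : toH 1 = 1 := by
  have h : ((1 : SU2) : Matrix (Fin 2) (Fin 2) ℂ) = 1 := rfl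
  ext
  · rw [SU2_re, h]; simp
  · rw [SU2_imI, h]; simp
  · rw [SU2_imJ, h]; simp
  · rw [SU2_imK, h]; simp

theorem toH_mul (A B : SU2) : toH (A * B) = toH A * toH B := by
  have h : ((A * B : SU2) : Matrix (Fin 2) (Fin 2) ℂ) =
      (A : Matrix (Fin 2) (Fin 2) ℂ) * (B : Matrix (Fin 2) (Fin 2) ℂ) := rfl
  obtain ⟨hB1, hB2⟩ := su2_form B
  have e0 : ((A * B : SU2) : Matrix (Fin 2) (Fin 2) ℂ) 0 0 =
      (A : Matrix (Fin 2) (Fin 2) ℂ) 0 0 * (B : Matrix (Fin 2) (Fin 2) ℂ) 0 0 -
      (A : Matrix (Fin 2) (Fin 2) ℂ) 0 1 * star ((B : Matrix (Fin 2) (Fin 2) ℂ) 0 1) := by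
    rw [h, Matrix.mul_apply, Fin.sum_univ_two, hB1]
    ring
  have e1 : ((A * B : SU2) : Matrix (Fin 2) (Fin 2) ℂ) 0 1 =
      (A : Matrix (Fin 2) (Fin 2) ℂ) 0 0 * (B : Matrix (Fin 2) (Fin 2) ℂ) 0 1 +
      (A : Matrix (Fin 2) (Fin 2) ℂ) 0 1 * star ((B : Matrix (Fin 2) (Fin 2) ℂ) 0 0) := by
    rw [h, Matrix.mul_apply, Fin.sum_univ_two, hB2]
  ext
  · rw [Quaternion.re_mul]
    simp only [SU2_re, SU2_imI, SU2_imJ, SU2_imK, e0, e1, Complex.sub_re, Complex.mul_re, Complex.star_def,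
      Complex.conj_re, Complex.conj_im]
    ring
  · rw [Quaternion.imI_mul]
    simp only [SU2_re, SU2_imI, SU2_imJ, SU2_imK, e0, e1, Complex.sub_im, Complex.mul_im, Complex.star_def,
      Complex.conj_re, Complex.conj_im]
    ring
  · rw [Quaternion.imJ_mul]
    simp only [SU2_re, SU2_imI, SU2_imJ, SU2_imK, e0, e1, Complex.add_re, Complex.mul_re, Complex.star_def,
      Complex.conj_re, Complex.conj_im]
    ring
  · rw [Quaternion.imK_mul]
    simp only [SU2_re, SU2_imI, SU2_imJ, SU2_imK, e0, e1, Complex.add_im, Complex.mul_im, Complex.star_def,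
      Complex.conj_re, Complex.conj_im]
    ring

theorem toH_inv (A : SU2) : toH A⁻¹ = star (toH A) := by
  have h : ((A⁻¹ : SU2) : Matrix (Fin 2) (Fin 2) ℂ) =
      star (A : Matrix (Fin 2) (Fin 2) ℂ) := rfl
  obtain ⟨hA1, -⟩ := su2_form A
  ext
  · rw [SU2_re, h, Quaternion.re_star, SU2_re]
    simp [Matrix.star_apply]
  · rw [SU2_imI, h, Quaternion.imI_star, SU2_imI]
    simp [Matrix.star_apply]
  · rw [SU2_imJ, h, Quaternion.imJ_star, SU2_imJ]
    simp [Matrix.star_apply, hA1]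
  · rw [SU2_imK, h, Quaternion.imK_star, SU2_imK]
    simp [Matrix.star_apply, hA1]

theorem toH_injective : Function.Injective toH := by
  intro A B hAB
  have h1 := congrArg (fun x : H => x.re) hAB
  have h2 := congrArg (fun x : H => x.imI) hAB
  have h3 := congrArg (fun x : H => x.imJ) hAB
  have h4 := congrArg (fun x : H => x.imK) hAB
  simp only [toH] at h1 h2 h3 h4
  have e0 : (A : Matrix (Fin 2) (Fin 2) ℂ) 0 0 = (B : Matrix (Fin 2) (Fin 2) ℂ) 0 0 :=
    Complex.ext h1 h2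
  have e1 : (A : Matrix (Fin 2) (Fin 2) ℂ) 0 1 = (B : Matrix (Fin 2) (Fin 2) ℂ) 0 1 :=
    Complex.ext h3 h4
  apply Subtype.ext
  ext i j
  fin_cases i <;> fin_cases j
  · exact e0
  · exact e1
  · exact (su2_form A).1.trans (by rw [e1]; exact (su2_form B).1.symm)
  · exact (su2_form A).2.trans (by rw [e0]; exact (su2_form B).2.symm)

theorem SU2_U_iff (x : H) : U x ↔ x.re ^ 2 + x.imI ^ 2 + x.imJ ^ 2 + x.imK ^ 2 = 1 := by
  constructor
  · exact GeoConj.sq_of_U
  · intro h
    have h1 := Quaternion.normSq_def' x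
    rw [h, Quaternion.normSq_eq_norm_mul_self] at h1
    have h2 : 0 ≤ ‖x‖ := norm_nonneg x
    show ‖x‖ = 1
    nlinarith

theorem U_toH (A : SU2) : U (toH A) := by
  rw [SU2_U_iff]
  exact SU2_norm A

theorem exists_toH {x : H} (hx : U x) : ∃ A : SU2, toH A = x := by
  rw [SU2_U_iff] at hx
  let a : ℂ := ⟨x.re, x.imI⟩
  let b : ℂ := ⟨x.imJ, x.imK⟩
  let M : Matrix (Fin 2) (Fin 2) ℂ := !![a, b; -star b, star a]
  have hab : a * star a + b * star b = 1 := by
    apply Complex.ext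
    · simp only [Complex.add_re, Complex.mul_re, Complex.star_def, Complex.conj_re,
        Complex.conj_im, Complex.one_re, a, b]
      linarith
    · simp only [Complex.add_im, Complex.mul_im, Complex.star_def, Complex.conj_re,
        Complex.conj_im, Complex.one_im, a, b]
      ring
  have hM : M ∈ Matrix.specialUnitaryGroup (Fin 2) ℂ := by
    rw [Matrix.mem_specialUnitaryGroup_iff]
    constructor
    · rw [Matrix.mem_unitaryGroup_iff]
      ext i j
      rw [Matrix.mul_apply, Fin.sum_univ_two, Matrix.star_apply, Matrix.star_apply]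
      fin_cases i <;> fin_cases j
      · simp only [M, Fin.zero_eta, Fin.isValue, Matrix.of_apply, Matrix.cons_val', Matrix.cons_val_zero,
          Matrix.cons_val_one, Matrix.cons_val_fin_one, Matrix.one_apply_eq]
        exact hab
      · simp only [M, Fin.zero_eta, Fin.mk_one, Fin.isValue, Matrix.of_apply, Matrix.cons_val',
          Matrix.cons_val_zero, Matrix.cons_val_one, Matrix.cons_val_fin_one, star_neg, star_star]
        rw [Matrix.one_apply_ne (by decide)]
        ring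
      · simp only [M, Fin.zero_eta, Fin.mk_one, Fin.isValue, Matrix.of_apply, Matrix.cons_val',
          Matrix.cons_val_zero, Matrix.cons_val_one, Matrix.cons_val_fin_one]
        rw [Matrix.one_apply_ne (by decide)]
        ring
      · simp only [M, Fin.mk_one, Fin.isValue, Matrix.of_apply, Matrix.cons_val',
          Matrix.cons_val_zero, Matrix.cons_val_one, Matrix.cons_val_fin_one, star_neg, star_star,
          Matrix.one_apply_eq]
        linear_combination hab
    · rw [Matrix.det_fin_two_of]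
      linear_combination hab
  refine ⟨⟨M, hM⟩, ?_⟩
  unfold toH
  ext <;> simp [M, a, b]

theorem toH_pow (A : SU2) (m : ℕ) : toH (A ^ m) = toH A ^ m := by
  induction m with
  | zero => rw [pow_zero, pow_zero, toH_one]
  | succ m ih => rw [pow_succ, pow_succ, toH_mul, ih]

/-- the matrix of a quaternion -/
noncomputable def SU2_mat (x : H) : Matrix (Fin 2) (Fin 2) ℂ :=
  !![(⟨x.re, x.imI⟩ : ℂ), (⟨x.imJ, x.imK⟩ : ℂ); -star (⟨x.imJ, x.imK⟩ : ℂ),
    star (⟨x.re, x.imI⟩ : ℂ)]

theorem SU2_mat_toH (A : SU2) : SU2_mat (toH A) = (A : Matrix (Fin 2) (Fin 2) ℂ) := by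
  ext i j
  fin_cases i <;> fin_cases j
  · rfl
  · rfl
  · exact (su2_form A).1.symm
  · exact (su2_form A).2.symm

theorem SU2_continuous_mk {X : Type*} [TopologicalSpace X] {f g : X → ℝ} (hf : Continuous f)
    (hg : Continuous g) : Continuous fun x => (⟨f x, g x⟩ : ℂ) := by
  have h : (fun x => (⟨f x, g x⟩ : ℂ)) = fun x => (f x : ℂ) + (g x : ℂ) * Complex.I := by
    funext x
    apply Complex.ext <;> simp
  rw [h]
  exact (Complex.continuous_ofReal.comp hf).add
    ((Complex.continuous_ofReal.comp hg).mul continuous_const)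

theorem SU2_mat_continuous : Continuous SU2_mat := by
  have h1 : Continuous fun x : H => (⟨x.re, x.imI⟩ : ℂ) :=
    SU2_continuous_mk Quaternion.continuous_re Quaternion.continuous_imI
  have h2 : Continuous fun x : H => (⟨x.imJ, x.imK⟩ : ℂ) :=
    SU2_continuous_mk Quaternion.continuous_imJ Quaternion.continuous_imK
  refine continuous_matrix fun i j => ?_
  fin_cases i <;> fin_cases j
  · exact h1
  · exact h2
  · exact (continuous_star.comp h2).neg
  · exact continuous_star.comp h1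

theorem toH_continuous : Continuous toH := by
  have hA : ∀ i j, Continuous fun A : SU2 => (A : Matrix (Fin 2) (Fin 2) ℂ) i j := fun i j =>
    (continuous_apply_apply i j).comp continuous_subtype_val
  have h : toH = fun A : SU2 => Quaternion.linearIsometryEquivTuple.symm
      (WithLp.toLp 2 ![((A : Matrix (Fin 2) (Fin 2) ℂ) 0 0).re,
        ((A : Matrix (Fin 2) (Fin 2) ℂ) 0 0).im,
        ((A : Matrix (Fin 2) (Fin 2) ℂ) 0 1).re, ((A : Matrix (Fin 2) (Fin 2) ℂ) 0 1).im]) := by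
    funext A
    rfl
  rw [h]
  refine Quaternion.linearIsometryEquivTuple.symm.continuous.comp ?_
  refine (PiLp.continuous_toLp 2 _).comp (continuous_pi fun i => ?_)
  fin_cases i
  · exact Complex.continuous_re.comp (hA 0 0)
  · exact Complex.continuous_im.comp (hA 0 0)
  · exact Complex.continuous_re.comp (hA 0 1)
  · exact Complex.continuous_im.comp (hA 0 1)

/-- a topological embedding -/
theorem toH_isEmbedding : Topology.IsEmbedding toH := by
  refine Topology.IsEmbedding.of_comp toH_continuous SU2_mat_continuous ?_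
  have h : SU2_mat ∘ toH = (Subtype.val : SU2 → Matrix (Fin 2) (Fin 2) ℂ) := by
    funext A
    exact SU2_mat_toH A
  rw [h]
  exact Topology.IsEmbedding.subtypeVal

theorem trace_toH (A : SU2) :
    Matrix.trace (A : Matrix (Fin 2) (Fin 2) ℂ) = ((2 * (toH A).re : ℝ) : ℂ) := by
  rw [Matrix.trace_fin_two, (su2_form A).2]
  unfold toH
  apply Complex.ext
  · simp only [Complex.add_re, Complex.star_def, Complex.conj_re, Complex.ofReal_re]
    ring
  · simp only [Complex.add_im, Complex.star_def, Complex.conj_im, Complex.ofReal_im]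
    ring

theorem center_iff (A : SU2) : A ∈ Subgroup.center SU2 ↔ ¬ NC (toH A) := by
  rw [Subgroup.mem_center_iff]
  constructor
  · intro h hN
    have key : ∀ y : H, U y → y * toH A = toH A * y := by
      intro y hy
      obtain ⟨B, rfl⟩ := exists_toH hy
      rw [← toH_mul, ← toH_mul, h B]
    obtain ⟨i, hi0, hi1, hi2, hi3⟩ : ∃ y : H, y.re = 0 ∧ y.imI = 1 ∧ y.imJ = 0 ∧ y.imK = 0 :=
      ⟨⟨0, 1, 0, 0⟩, rfl, rfl, rfl, rfl⟩
    obtain ⟨j, hj0, hj1, hj2, hj3⟩ : ∃ y : H, y.re = 0 ∧ y.imI = 0 ∧ y.imJ = 1 ∧ y.imK = 0 :=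
      ⟨⟨0, 0, 1, 0⟩, rfl, rfl, rfl, rfl⟩
    have h1 := key i (by rw [SU2_U_iff, hi0, hi1, hi2, hi3]; norm_num)
    have h2 := key j (by rw [SU2_U_iff, hj0, hj1, hj2, hj3]; norm_num)
    have e1 := congrArg (fun z : H => z.imJ) h1
    have e2 := congrArg (fun z : H => z.imK) h1
    have e3 := congrArg (fun z : H => z.imK) h2
    simp only [Quaternion.imJ_mul, Quaternion.imK_mul, hi0, hi1, hi2, hi3, hj0, hj1, hj2, hj3]
      at e1 e2 e3
    apply hN
    ext
    · simp
    · simp only [Quaternion.imI_im, Quaternion.imI_zero]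
      linarith
    · simp only [Quaternion.imJ_im, Quaternion.imJ_zero]
      linarith
    · simp only [Quaternion.imK_im, Quaternion.imK_zero]
      linarith
  · intro hN B
    apply toH_injective
    rw [toH_mul, toH_mul]
    exact (commute_of_not_NC hN (toH B)).symm

/-- conjugation -/
theorem toH_conj (g A : SU2) : toH (g * A * g⁻¹) = cj (toH g) (toH A) := by
  unfold cj
  rw [toH_mul, toH_mul, toH_inv]

end Pool.Agent.W24dbe6
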