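import Mathlib

set_option autoImplicit false

/-!
# MP_24dbe6_gt: definitions for the statement

`Σ` is the sphere with `n` holes; `π = ⟨c₁, …, c_n | c₁ ⋯ c_n = 1⟩`.  By the Dehn-Nielsen-Baer theorem
the image of `Mod_Σ` (orientation preserving homeomorphisms mapping every boundary component to itself,
up to isotopy) in `Out π` is the group of classes of automorphisms which map every `c_i` to a conjugate
of itself.
-/

namespace Pool.Agent.W24dbe6

/-- the fundamental group of the sphere with `n` holes -/
abbrev Pi1 (n : ℕ) : Type :=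
  PresentedGroup ({(List.ofFn fun i : Fin n => FreeGroup.of i).prod} : Set (FreeGroup (Fin n)))

/-- the boundary loop `c_i` -/
def c {n : ℕ} (i : Fin n) : Pi1 n := PresentedGroup.of i

/-- automorphisms of `π` induced by the mapping classes: `c_i` goes to a conjugate of `c_i` -/
def MCG (n : ℕ) : Set (MulAut (Pi1 n)) := {φ | ∀ i, IsConj (φ (c i)) (c i)}

/-- the group `SU(2)` -/
abbrev SU2 : Type := Matrix.specialUnitaryGroup (Fin 2) ℂ

/-- the topology of pointwise convergence on `Hom(π, SU(2))` -/
noncomputable instance instTopHom (n : ℕ) : TopologicalSpace (Pi1 n →* SU2) :=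
  TopologicalSpace.induced (fun ρ x => ρ x) Pi.topologicalSpace

/-- two representations are equivalent if they are conjugate in `SU(2)` -/
def conjSetoid (n : ℕ) : Setoid (Pi1 n →* SU2) where
  r ρ σ := ∃ g : SU2, ∀ x, σ x = g * ρ x * g⁻¹
  iseqv :=
    { refl := fun ρ => ⟨1, fun x => by simp⟩
      symm := fun {ρ σ} h => by
        obtain ⟨g, hg⟩ := h
        exact ⟨g⁻¹, fun x => by rw [hg]; group⟩
      trans := fun {ρ σ τ} h h' => by
        obtain ⟨g, hg⟩ := h
        obtain ⟨g', hg'⟩ := h'
        exact ⟨g' * g, fun x => by rw [hg', hg]; group⟩ }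

/-- the character space `Hom(π, SU(2))/SU(2)` with the quotient topology -/
abbrev CharVar (n : ℕ) : Type := Quotient (conjSetoid n)

/-- the class of a representation -/
def cls {n : ℕ} (ρ : Pi1 n →* SU2) : CharVar n := Quotient.mk (conjSetoid n) ρ

/-- the orbit of `[ρ]` under the mapping class group -/
def orb {n : ℕ} (ρ : Pi1 n →* SU2) : Set (CharVar n) :=
  {χ | ∃ φ ∈ MCG n, χ = cls (ρ.comp (φ : Pi1 n →* Pi1 n))}

/-- the relative character variety `X_t` of `[ρ]`, `t` being the boundary traces of `ρ` -/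
def relChar {n : ℕ} (ρ : Pi1 n →* SU2) : Set (CharVar n) :=
  {χ | ∃ σ : Pi1 n →* SU2, χ = cls σ ∧
    ∀ i, Matrix.trace (σ (c i) : Matrix (Fin 2) (Fin 2) ℂ) =
      Matrix.trace (ρ (c i) : Matrix (Fin 2) (Fin 2) ℂ)}

/-- the orbit of `[ρ]` is dense in the relative character variety containing `[ρ]` -/
def DenseOrbit {n : ℕ} (ρ : Pi1 n →* SU2) : Prop := relChar ρ ⊆ closure (orb ρ)

/-- the number of boundary components with non-central holonomy (`≠ ± 1`) -/
noncomputable def numNC {n : ℕ} (ρ : Pi1 n →* SU2) : ℕ :=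
  Set.ncard {i : Fin n | ρ (c i) ∉ Subgroup.center SU2}

end Pool.Agent.W24dbe6
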