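import Pool.Agent.W_MP_24dbe6_h58.Statement

set_option autoImplicit false

/-!
# MP_24dbe6_gt: further definitions for the statement

The condition for infinite orbits in terms of simple closed curves, and the description of the relative
character varieties which are points.
-/

namespace Pool.Agent.W24dbe6

/-- the product `c_{i+1} ⋯ c_{j-1}` of the boundary loops strictly between `i` and `j` -/
def mid {n : ℕ} (i j : Fin n) : Pi1 n :=
  (((List.finRange n).filter fun k => i < k ∧ k < j).map c).prod

/-- There is a simple closed curve surrounding exactly two boundary components such that the holonomy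
along it has infinite order and `ρ` is non-abelian on both components of the complement.
(`c_i` and `m c_j m⁻¹`, `m = c_{i+1} ⋯ c_{j-1}`, generate the fundamental group of a pair of pants; the
loop `c_i m c_j m⁻¹` surrounds the boundary components `i` and `j`; the fundamental group of the other
side is generated by the `c_k`, `k ≠ i, j`.  Every simple closed curve surrounding exactly the boundary
components `i` and `j` is the image of this one under some `φ`.) -/
def GoodCurve {n : ℕ} (ρ : Pi1 n →* SU2) : Prop :=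
  ∃ φ ∈ MCG n, ∃ i j : Fin n, i < j ∧
    ¬ Commute (ρ (φ (c i))) (ρ (φ (mid i j * c j * (mid i j)⁻¹))) ∧
    (∀ m : ℕ, 0 < m → ρ (φ (c i * (mid i j * c j * (mid i j)⁻¹))) ^ m ≠ 1) ∧
    ∃ k l : Fin n, k ≠ i ∧ k ≠ j ∧ l ≠ i ∧ l ≠ j ∧ ¬ Commute (ρ (φ (c k))) (ρ (φ (c l)))

/-- `ρ` is conjugate to a diagonal representation `ρ(c_i) = ± diag (e^{i α_i}, e^{- i α_i})` with
`0 ≤ α_i < π` and `α_1 + ⋯ + α_n = π` or `(k - 1) π`, `k` being the number of non-central boundary
holonomies (`α_i ≠ 0`) -/
def Rigid {n : ℕ} (ρ : Pi1 n →* SU2) : Prop :=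
  ∃ (g : SU2) (α : Fin n → ℝ), (∀ i, 0 ≤ α i ∧ α i < Real.pi) ∧
    (∀ i, ((g * ρ (c i) * g⁻¹ : SU2) : Matrix (Fin 2) (Fin 2) ℂ) =
        !![Complex.exp (α i * Complex.I), 0; 0, Complex.exp (-(α i * Complex.I))] ∨
      ((g * ρ (c i) * g⁻¹ : SU2) : Matrix (Fin 2) (Fin 2) ℂ) =
        -!![Complex.exp (α i * Complex.I), 0; 0, Complex.exp (-(α i * Complex.I))]) ∧
    (∑ i, α i = Real.pi ∨ ∑ i, α i = ((numNC ρ : ℝ) - 1) * Real.pi)

end Pool.Agent.W24dbe6
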