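import Pool.Agent.W_MP_24dbe6_h58.PropN
import Pool.Agent.W_MP_24dbe6_h58.GeoFlow
import Pool.Agent.W_MP_24dbe6_h58.GeoFlowC
import Pool.Agent.W_MP_24dbe6_h58.GeoTor

set_option autoImplicit false

/-!
From the pair `(i, j)` to the pair `(j, k)`, lists of length at least 5.
-/

namespace Pool.Agent.W24dbe6

open Quaternion

variable {ι : Type}

/-- near every angle there is an irrational multiple of `π` -/
theorem SwapB_irr (φ₀ : ℝ) {δ : ℝ} (hδ : 0 < δ) :
    ∃ φ : ℝ, |φ - φ₀| < δ ∧ Irrational (φ / Real.pi) := by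
  have hpi := Real.pi_pos
  obtain ⟨z, hz, h1, h2⟩ := exists_irrational_btwn (x := (φ₀ - δ) / Real.pi)
    (y := (φ₀ + δ) / Real.pi) (by
      apply div_lt_div_of_pos_right _ hpi
      linarith)
  refine ⟨z * Real.pi, ?_, ?_⟩
  · rw [div_lt_iff₀ hpi] at h1
    rw [lt_div_iff₀ hpi] at h2
    rw [abs_lt]
    constructor <;> linarith
  · rw [mul_div_cancel_right₀ _ hpi.ne']
    exact hz

/-- membership-only properties: `Dih` and exchanging the first two entries -/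
theorem SwapB_Dih_swap {κ : Type} {x y : κ × H} {r : LL κ} (h : Dih (x :: y :: r)) :
    Dih (y :: x :: r) := by
  obtain ⟨u, h1, h2, h3⟩ := h
  refine ⟨u, h1, h2, ?_⟩
  intro p hp
  apply h3
  simp only [List.mem_cons] at hp ⊢
  tauto

theorem SwapB_NA_mono {κ : Type} {r s : LL κ} (h : NA r) (hs : ∀ p ∈ r, p ∈ s) : NA s := by
  obtain ⟨p, hp, q, hq, h⟩ := h
  exact ⟨p, hs p hp, q, hs q hq, h⟩

theorem SwapB_NA_lft {r : LL ι} (h : NA r) : NA (lft r) := by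
  obtain ⟨p, hp, q, hq, h⟩ := h
  exact ⟨(some p.1, p.2), List.mem_map_of_mem hp, (some q.1, q.2), List.mem_map_of_mem hq, h⟩

theorem SwapB_UL_lft {r : LL ι} (h : UL r) : UL (lft r) := by
  intro p hp
  obtain ⟨q, hq, rfl⟩ := List.mem_map.mp hp
  exact h q hq

/-- the real part of a product does not depend on the order -/
theorem SwapB_re_comm (x y : H) : (x * y).re = (y * x).re := by
  rw [Quaternion.re_mul, Quaternion.re_mul]
  ring

/-- `n ≥ 5`: from the pair `(i, j)` to the pair `(j, k)`.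
Choose `b = b₁ :: b₂ :: b₃ :: r` in `box` near the interior angle of the given point, with both angles
irrational multiples of `π` (labels `i, j, k`, `N`); it is in `Z` by `Full`.  For generic `t` in the torus
of `b₁ b₂` the list `cj t b₁, cj t b₂, b₃, r` (in `Z` by `Full` again) has: `cj t b₂ * b₃` of infinite
order, `cj t b₂`, `b₃` not commuting, `cj t b₁` not commuting with `b₁ b₂ b₃`, `NA (r ++ [cj t b₁])`.
Hide `cj t b₂, b₃`: apply `lev_of_hide` to the rotated list `cj t b₂ :: b₃ :: (r ++ [cj t b₁])`; the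
hidden list `(none, w) :: (r ++ [cj t b₁])` moves (rotation) to `cj t b₁ :: (none, w) :: r`, whose pair has
product `b₁ b₂ b₃` of infinite order, and which is not dihedral (`not_dih_of_inf`, after exchanging the
roles: `w` and `cj t b₁ * w` have infinite order and do not commute).  Then `full_of_lev`. -/
theorem full_next {n : ℕ} (hn : 4 ≤ n) (hA4 : ThmA 4) (hA : ThmA n) {θ : ι → ℝ}
    (hθ : ∀ i, 0 < θ i ∧ θ i < Real.pi) {Z : LL ι → Prop} (hZ : BClosed Z) {i j k : ι}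
    {N : List ι} (hN : N.length + 3 = n + 1) (hF : Full θ Z i j (k :: N))
    (hex : ∃ (p q : ι × H) (r : LL ι), Adm θ (p :: q :: r) ∧ p.1 = i ∧ q.1 = j ∧
      lab r = k :: N ∧ ¬ Commute p.2 q.2 ∧ NA r) :
    Full θ Z j k (N ++ [i]) ∧ ∃ (p q : ι × H) (r : LL ι), Adm θ (p :: q :: r) ∧ p.1 = j ∧
      q.1 = k ∧ lab r = N ++ [i] ∧ ¬ Commute p.2 q.2 ∧ NA r := by
  obtain ⟨p, q, r₀, hadm0, hpi, hqj, hr0, hpq, hr0na⟩ := hex
  obtain ⟨i1, i2⟩ := interior_of hθ hadm0 hpq hr0na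
  rw [hpi, hqj] at i1
  rw [hr0, List.map_cons] at i2
  obtain ⟨δ, hδ, ψ₀, hbox⟩ := box hθ (k := k) (N := N) (by omega) i1 i2
  obtain ⟨φ, hφ, hφi⟩ := SwapB_irr (ang (p.2 * q.2)) hδ
  obtain ⟨ψ, hψ, hψi⟩ := SwapB_irr ψ₀ hδ
  obtain ⟨b₁, b₂, b₃, r, hadm, hb1, hb2, hb3, hr, ha1, ha2, hc1, hc2, hna⟩ := hbox φ ψ hφ hψ
  clear hbox hadm0 hpi hqj hr0 hpq hr0na i1 i2
  have hUL : UL (b₁ :: b₂ :: b₃ :: r) := Adm_UL hadm
  have hU1 : U b₁.2 := hUL b₁ (by simp)
  have hU2 : U b₂.2 := hUL b₂ (by simp)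
  have hU3 : U b₃.2 := hUL b₃ (by simp)
  have hUr : UL r := fun p hp => hUL p (by simp [hp])
  obtain ⟨w, hw⟩ : ∃ w, w = b₁.2 * b₂.2 := ⟨_, rfl⟩
  have hUw : U w := by rw [hw]; exact U_mul hU1 hU2
  have hInfw : Inf w := by rw [inf_iff hUw, hw, ha1]; exact hφi
  have hNCw : NC w := inf_NC hUw hInfw
  have hUP : U (w * b₃.2) := U_mul hUw hU3
  have hInfP : Inf (w * b₃.2) := by rw [inf_iff hUP, hw, ha2]; exact hψi
  have hNCP : NC (w * b₃.2) := inf_NC hUP hInfP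
  have h1w : ¬ Commute b₁.2 w := by
    rw [hw, commute_mul_left_iff hU1]; exact hc1
  have h2w : ¬ Commute b₂.2 w := by
    rw [hw, commute_mul_right_iff hU2]; exact hc1
  have h3w : ¬ Commute b₃.2 w := by
    rw [hw]; exact fun h => hc2 h.symm
  have hNC3 : NC b₃.2 := (NC_of_not_commute (U_mul hU1 hU2) hU3 hc2).2.1
  -- the exceptional sets
  have hB1 : {t | t ∈ Tor w ∧ (b₃.2 * cj t b₂.2).re ∈
      {v : ℝ | ∃ x : H, U x ∧ x.re = v ∧ ¬ Inf x}}.Countable := by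
    have : {t | t ∈ Tor w ∧ (b₃.2 * cj t b₂.2).re ∈ {v : ℝ | ∃ x : H, U x ∧ x.re = v ∧ ¬ Inf x}}
        ⊆ ⋃ v ∈ {v : ℝ | ∃ x : H, U x ∧ x.re = v ∧ ¬ Inf x},
          {t | t ∈ Tor w ∧ (b₃.2 * cj t b₂.2).re = v} := by
      rintro t ⟨ht1, ht2⟩
      simp only [Set.mem_iUnion]
      exact ⟨_, ht2, ht1, rfl⟩
    refine Set.Countable.mono this ?_
    exact Set.Countable.biUnion bad_countable
      (fun v _ => (flow_fin hUw hNCw hU3 hU2 h3w h2w v).countable)
  have hB2 : {t | t ∈ Tor w ∧ Commute (cj t b₂.2) b₃.2}.Countable :=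
    (flow_comm_one hUw hNCw hU2 h2w hU3 hNC3).countable
  have hB3 : {t | t ∈ Tor w ∧ Commute (cj t b₁.2) (w * b₃.2)}.Countable :=
    (flow_comm_one hUw hNCw hU1 h1w hUP hNCP).countable
  obtain ⟨t, htT, -, htB⟩ := exists_tor hUw hNCw (t₀ := 1) ⟨U_one, Commute.one_left w⟩
    (ε := 1) one_pos ((hB1.union hB2).union hB3)
  simp only [Set.mem_union, not_or, Set.mem_setOf_eq] at htB
  obtain ⟨⟨hg1, hg2⟩, hg3⟩ := htB
  have hUt : U t := htT.1
  obtain ⟨c₁, hc₁⟩ : ∃ c₁ : ι × H, c₁ = (b₁.1, cj t b₁.2) := ⟨_, rfl⟩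
  obtain ⟨c₂, hc₂⟩ : ∃ c₂ : ι × H, c₂ = (b₂.1, cj t b₂.2) := ⟨_, rfl⟩
  have hc11 : c₁.1 = b₁.1 := by rw [hc₁]
  have hc12 : c₁.2 = cj t b₁.2 := by rw [hc₁]
  have hc21 : c₂.1 = b₂.1 := by rw [hc₂]
  have hc22 : c₂.2 = cj t b₂.2 := by rw [hc₂]
  have hUc1 : U c₁.2 := by rw [hc12]; exact U_cj hUt hU1
  have hUc2 : U c₂.2 := by rw [hc22]; exact U_cj hUt hU2
  have hcw : c₁.2 * c₂.2 = w := by
    rw [hc12, hc22, ← cj_mul hUt, ← hw, cj_of_commute hUt htT.2]
  -- generic properties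
  have hInfu : Inf (c₂.2 * b₃.2) := by
    by_contra hcon
    apply hg1
    refine ⟨htT, c₂.2 * b₃.2, U_mul hUc2 hU3, ?_, hcon⟩
    rw [hc22, SwapB_re_comm]
  have hncu : ¬ Commute c₂.2 b₃.2 := by
    rw [hc22]; exact fun h => hg2 ⟨htT, h⟩
  have hnc1 : ¬ Commute c₁.2 (c₂.2 * b₃.2) := by
    rw [← commute_mul_left_iff hUc1, ← mul_assoc, hcw, hc12]
    exact fun h => hg3 ⟨htT, h⟩
  -- the twisted list
  have hadm1 : Adm θ (c₁ :: c₂ :: b₃ :: r) := by
    obtain ⟨e1, e2⟩ := hadm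
    refine ⟨?_, ?_⟩
    · intro p hp
      rcases List.mem_cons.mp hp with rfl | hp
      · rw [hc11, hc12, cj_re hUt]
        rw [hc12] at hUc1
        exact ⟨hUc1, (e1 b₁ (by simp)).2⟩
      · rcases List.mem_cons.mp hp with rfl | hp
        · rw [hc21, hc22, cj_re hUt]
          rw [hc22] at hUc2
          exact ⟨hUc2, (e1 b₂ (by simp)).2⟩
        · exact e1 p (List.mem_cons_of_mem _ (List.mem_cons_of_mem _ hp))
    · rw [pr_cons, pr_cons, ← mul_assoc, hcw, hw, mul_assoc]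
      rw [pr_cons, pr_cons] at e2
      exact e2
  have hZ1 : Z (c₁ :: c₂ :: b₃ :: r) := by
    apply hF c₁ c₂ (b₃ :: r) hadm1 (by rw [hc11, hb1]) (by rw [hc21, hb2])
    · have : lab (b₃ :: r) = k :: N := by
        unfold lab at hr ⊢
        rw [List.map_cons, hr, hb3]
      rw [this]
    · refine ⟨by rw [hcw]; exact hInfw, ?_, ?_⟩
      · rw [hc12, hc22, commute_cj hUt]; exact hc1
      · exact SwapB_NA_mono hna (fun p hp => List.mem_cons_of_mem _ hp)
  -- rotate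
  obtain ⟨R, hR⟩ : ∃ R : LL ι, R = r ++ [c₁] := ⟨_, rfl⟩
  have hrot : Mv (c₁ :: c₂ :: b₃ :: r) (c₂ :: b₃ :: R) := by
    have := mv_rot (p := c₁) (r := c₂ :: b₃ :: r) (Adm_UL hadm1)
    rw [hR]
    exact this
  have hadm2 : Adm θ (c₂ :: b₃ :: R) := Mv_Adm hrot hadm1
  have hZ2 : Z (c₂ :: b₃ :: R) := Mv_Z hZ hrot hZ1
  have hlabR : lab R = N ++ [i] := by
    rw [hR, lab_append, hr]
    unfold lab
    rw [List.map_cons, List.map_nil, hc11, hb1]
  have hrlen : r.length = N.length := by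
    rw [← hr]; unfold lab; rw [List.length_map]
  have hNAR : NA R := SwapB_NA_mono hna (fun p hp => by rw [hR]; simp [hp])
  -- the hidden list
  obtain ⟨d, hd⟩ : ∃ d : Option ι × H, d = (some c₁.1, c₁.2) := ⟨_, rfl⟩
  have hd2 : d.2 = c₁.2 := by rw [hd]
  obtain ⟨e, he⟩ : ∃ e : Option ι × H, e = (none, c₂.2 * b₃.2) := ⟨_, rfl⟩
  have he2 : e.2 = c₂.2 * b₃.2 := by rw [he]
  have hlft : (e :: lft R) = (e :: lft r) ++ [d] := by
    rw [hR, hd]
    unfold lft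
    rw [List.map_append]
    rfl
  have hULh : UL ((e :: lft r) ++ [d]) := by
    intro p hp
    rw [List.mem_append, List.mem_cons] at hp
    rcases hp with (rfl | hp) | hp
    · rw [he2]; exact U_mul hUc2 hU3
    · exact SwapB_UL_lft hUr p hp
    · rw [List.mem_singleton] at hp
      rw [hp, hd2]; exact hUc1
  have hmv : Mv ((none, c₂.2 * b₃.2) :: lft R) (d :: e :: lft r) := by
    rw [← he, hlft]
    exact mv_rot' hULh
  have hInfdu : Inf (d.2 * e.2) := by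
    rw [hd2, he2, ← mul_assoc, hcw]; exact hInfP
  have hncde : ¬ Commute d.2 e.2 := by
    rw [hd2, he2]; exact hnc1
  have hUd : U d.2 := by rw [hd2]; exact hUc1
  have hUe : U e.2 := by rw [he2]; exact U_mul hUc2 hU3
  have hgp : GP d e (lft r) := ⟨hInfdu, hncde, SwapB_NA_lft hna⟩
  have hnd : ¬ Dih (d :: e :: lft r) := by
    intro hdih
    refine not_dih_of_inf (x := e) (y := d) (r := lft r) hUe hUd ?_ ?_ ?_ (SwapB_Dih_swap hdih)
    · rw [he2]; exact hInfu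
    · exact inf_of_re (U_mul hUd hUe) (U_mul hUe hUd) (SwapB_re_comm _ _) hInfdu
    · exact fun h => hncde h.symm
  have hlen : (d :: e :: lft r).length = n := by
    unfold lft
    simp only [List.length_cons, List.length_map]
    omega
  have hLev := lev_of_hide hA hθ hZ hadm2 hZ2 hInfu hmv hlen hgp (Or.inr hnd)
  have hlen2 : (c₂ :: b₃ :: R).length = n + 1 := by
    rw [hR]
    simp only [List.length_cons, List.length_append, List.length_nil]
    omega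
  have hgp2 : GP c₂ b₃ R := ⟨hInfu, hncu, hNAR⟩
  have hFull := full_of_lev hn hA4 hA hθ hZ hlen2 hadm2 hgp2 hLev
  rw [hlabR, hc21, hb2, hb3] at hFull
  exact ⟨hFull, c₂, b₃, R, hadm2, by rw [hc21, hb2], hb3, hlabR, hncu, hNAR⟩

end Pool.Agent.W24dbe6
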